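import Mathlib
import Pool.Agent.Helper47.SizeRamsey.Paths

/-!
Linear size-Ramsey number of grids: basic definitions (cube systems, flips, gap, host graph).
-/

set_option autoImplicit false
set_option linter.unusedSectionVars false
set_option linter.unusedVariables false

namespace Pool.Agent.SRL

open Finset

/-- A cube system: states `X`, classes `I`, letters `L` (the same finite set of letters for every
class). `tr i j a b` is the letter `b` (of class `j`) transported along the letter `a` (of class
`i`). -/
structure CS (I L X : Type) where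
  step : I → L → X → X
  tr : I → I → L → L → L
  inv : I → L → L
  step_inv : ∀ i a x, step i (inv i a) (step i a x) = x
  inv_inv : ∀ i a, inv i (inv i a) = a
  tr_inv : ∀ i j a b, i ≠ j → tr i j (inv i a) (tr i j a b) = b
  sq : ∀ i j a b x, i ≠ j → step j (tr i j a b) (step i a x) = step i (tr j i b a) (step j b x)
  cube : ∀ i j k a b c, i ≠ j → j ≠ k → i ≠ k →
    tr j k (tr i j a b) (tr i k a c) = tr i k (tr j i b a) (tr j k b c)
  inv_tr : ∀ i j a b, i ≠ j → inv i (tr j i b a) = tr j i (tr i j a b) (inv i a)

/-- Pointed full cubes. -/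
abbrev St (I L X : Type) : Type := X × (I → L)

namespace CS

variable {I L X : Type} [DecidableEq I]

/-- The flip of class `b`: the adjacent corner of the pointed cube. -/
def flip (S : CS I L X) (b : I) (V : St I L X) : St I L X :=
  (S.step b (V.2 b) V.1,
    fun j => if j = b then S.inv b (V.2 b) else S.tr b j (V.2 b) (V.2 j))

theorem flip_flip (S : CS I L X) (b : I) (V : St I L X) : S.flip b (S.flip b V) = V := by
  refine Prod.ext ?_ ?_
  · simp [flip, S.step_inv]
  · funext j
    by_cases hj : j = b
    · subst hj; simp [flip, S.inv_inv]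
    · simp [flip, hj, S.tr_inv b j _ _ (Ne.symm hj)]

theorem flip_comm (S : CS I L X) {b c : I} (hbc : b ≠ c) (V : St I L X) :
    S.flip c (S.flip b V) = S.flip b (S.flip c V) := by
  refine Prod.ext ?_ ?_
  · simp only [flip, if_neg hbc, if_neg hbc.symm]
    exact S.sq b c _ _ _ hbc
  · funext j
    by_cases hj : j = b
    · subst hj
      simp only [flip, if_true, if_neg hbc, if_neg hbc.symm]
      exact (S.inv_tr j c _ _ hbc).symm
    · by_cases hj' : j = c
      · subst hj'
        simp only [flip, if_true, if_neg hbc, if_neg hbc.symm]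
        exact S.inv_tr j b _ _ hbc.symm
      · simp only [flip, if_neg hj, if_neg hj', if_neg hbc, if_neg hbc.symm]
        exact S.cube b c j _ _ _ hbc (Ne.symm hj') (Ne.symm hj)

/-- The flip as a permutation. -/
def flipPerm (S : CS I L X) (b : I) : Equiv.Perm (St I L X) where
  toFun := S.flip b
  invFun := S.flip b
  left_inv := S.flip_flip b
  right_inv := S.flip_flip b

theorem flipPerm_commute (S : CS I L X) (b c : I) : Commute (S.flipPerm b) (S.flipPerm c) := by
  by_cases h : b = c
  · subst h; exact Commute.refl _
  · refine Equiv.ext fun V => ?_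
    exact S.flip_comm (Ne.symm h) V

/-- The flip of a finite set of classes. -/
def flipSet (S : CS I L X) (T : Finset I) : Equiv.Perm (St I L X) :=
  T.noncommProd S.flipPerm (fun b _ c _ _ => S.flipPerm_commute b c)

theorem flipSet_empty (S : CS I L X) : S.flipSet ∅ = 1 :=
  Finset.noncommProd_empty _ _

theorem flipSet_insert (S : CS I L X) {b : I} {T : Finset I} (hb : b ∉ T) :
    S.flipSet (insert b T) = S.flipPerm b * S.flipSet T :=
  Finset.noncommProd_insert_of_notMem _ _ _ _ hb

theorem flipPerm_sq (S : CS I L X) (b : I) : S.flipPerm b * S.flipPerm b = 1 :=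
  Equiv.ext fun V => S.flip_flip b V

theorem flipSet_commute (S : CS I L X) (b : I) (T : Finset I) :
    Commute (S.flipPerm b) (S.flipSet T) := by
  induction T using Finset.induction_on with
  | empty => rw [flipSet_empty]; exact Commute.one_right _
  | insert c T hc ih =>
    rw [S.flipSet_insert hc]
    exact (S.flipPerm_commute b c).mul_right ih

theorem flipSet_sq (S : CS I L X) (T : Finset I) : S.flipSet T * S.flipSet T = 1 := by
  induction T using Finset.induction_on with
  | empty => rw [flipSet_empty]; rfl
  | insert c T hc ih =>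
    rw [S.flipSet_insert hc]
    calc S.flipPerm c * S.flipSet T * (S.flipPerm c * S.flipSet T)
        = S.flipPerm c * (S.flipSet T * S.flipPerm c) * S.flipSet T := by group
      _ = S.flipPerm c * (S.flipPerm c * S.flipSet T) * S.flipSet T := by
          rw [(S.flipSet_commute c T).eq]
      _ = (S.flipPerm c * S.flipPerm c) * (S.flipSet T * S.flipSet T) := by group
      _ = 1 := by rw [S.flipPerm_sq, ih, one_mul]

theorem flipSet_flipSet (S : CS I L X) (T : Finset I) (V : St I L X) :
    S.flipSet T (S.flipSet T V) = V := by
  have := congrArg (fun e : Equiv.Perm (St I L X) => e V) (S.flipSet_sq T)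
  simpa using this

/-- The derived system: the classes in `A` become part of the state. -/
def derived {A B : Type} (S : CS (A ⊕ B) L X) : CS B L (X × (A → L)) where
  step b s ω := (S.step (Sum.inr b) s ω.1, fun a => S.tr (Sum.inr b) (Sum.inl a) s (ω.2 a))
  tr b c := S.tr (Sum.inr b) (Sum.inr c)
  inv b := S.inv (Sum.inr b)
  step_inv := by
    intro i a x
    refine Prod.ext (S.step_inv _ _ _) ?_
    funext j
    exact S.tr_inv _ _ _ _ (by simp)
  inv_inv := fun i a => S.inv_inv _ _
  tr_inv := fun i j a b h => S.tr_inv _ _ _ _ (by simpa using h)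
  sq := by
    intro i j a b x h
    refine Prod.ext (S.sq _ _ _ _ _ (by simpa using h)) ?_
    funext c
    exact S.cube _ _ _ _ _ _ (by simpa using h) (by simp) (by simp)
  cube := fun i j k a b c h1 h2 h3 => S.cube _ _ _ _ _ _ (by simpa using h1) (by simpa using h2)
    (by simpa using h3)
  inv_tr := fun i j a b h => S.inv_tr _ _ _ _ (by simpa using h)

/-- Reindexing of the classes. -/
def reindex {I' : Type} (S : CS I L X) (e : I' ≃ I) : CS I' L X where
  step i := S.step (e i)
  tr i j := S.tr (e i) (e j)
  inv i := S.inv (e i)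
  step_inv := fun i => S.step_inv (e i)
  inv_inv := fun i => S.inv_inv (e i)
  tr_inv := fun i j a b h => S.tr_inv _ _ _ _ (fun h' => h (e.injective h'))
  sq := fun i j a b x h => S.sq _ _ _ _ _ (fun h' => h (e.injective h'))
  cube := fun i j k a b c h1 h2 h3 => S.cube _ _ _ _ _ _ (fun h' => h1 (e.injective h'))
    (fun h' => h2 (e.injective h')) (fun h' => h3 (e.injective h'))
  inv_tr := fun i j a b h => S.inv_tr _ _ _ _ (fun h' => h (e.injective h'))

end CS

/-- Average of a real function over a finite type. -/
noncomputable def avg {α : Type} [Fintype α] (f : α → ℝ) : ℝ := (∑ a, f a) / Fintype.card α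

/-- Probability of a set in a finite type (uniform distribution). -/
noncomputable def prob {α : Type} [Fintype α] (s : Set α) : ℝ := by
  classical
  exact avg (fun a => if a ∈ s then (1 : ℝ) else 0)

section gap

variable {I L X : Type} [DecidableEq I]

/-- `f` does not depend on the letter of class `b`. -/
def Indep (b : I) (f : St I L X → ℝ) : Prop :=
  ∀ x φ s, f (x, Function.update φ b s) = f (x, φ)

variable [Fintype I] [Fintype L] [Fintype X]

/-- The averaging operator of class `b`. -/
noncomputable def CS.A (S : CS I L X) (b : I) (f : St I L X → ℝ) (V : St I L X) : ℝ :=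
  avg (fun s : L => f (S.flip b (V.1, Function.update V.2 b s)))

/-- The spectral gap hypothesis. `sgn` is either constant `1` or a balanced two-colouring of the
states that every step changes. -/
structure Gap (S : CS I L X) (sgn : X → ℝ) (lam : ℝ) : Prop where
  val : ∀ x, sgn x = 1 ∨ sgn x = -1
  alt : (∀ x, sgn x = 1) ∨ ((∑ x, sgn x = 0) ∧ ∀ i a x, sgn (S.step i a x) = - sgn x)
  gap : ∀ (b : I) (f : St I L X → ℝ), Indep b f → ∑ V, f V = 0 → ∑ V, sgn V.1 * f V = 0 →
    ∑ V, (S.A b f V) ^ 2 ≤ lam ^ 2 * ∑ V, (f V) ^ 2

end gap

section host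

variable {I L X : Type} [DecidableEq I]

/-- The host graph: vertices are `X × Fin K`; two different vertices are adjacent if their states
are corners of a common cube. -/
def hostGraph (S : CS I L X) (K : ℕ) : SimpleGraph (X × Fin K) where
  Adj u v := u ≠ v ∧ ∃ (φ : I → L) (T : Finset I), v.1 = (S.flipSet T (u.1, φ)).1
  symm := ⟨by
    rintro u v ⟨hne, φ, T, h⟩
    refine ⟨hne.symm, (S.flipSet T (u.1, φ)).2, T, ?_⟩
    have h3 : (v.1, (S.flipSet T (u.1, φ)).2) = S.flipSet T (u.1, φ) := Prod.ext h rfl
    rw [h3, S.flipSet_flipSet]⟩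
  loopless := ⟨fun u h => h.1 rfl⟩

end host

end Pool.Agent.SRL
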