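import Mathlib
import Pool.Agent.SRL.Defs

/-!
Linear size-Ramsey number of grids: the interface between the parts of the proof.

* `HostThm`      : existence of hosts (cube systems with a spectral gap, bounded size ratio);
* `DiscGaugeThm` : the disc theorem together with the gauge lemma;
* `StructureThm` : structure of an arbitrary colouring of a sequence of hosts;
-/

set_option autoImplicit false
set_option linter.unusedSectionVars false
set_option linter.unusedVariables false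

namespace Pool.Agent.SRL

open Finset
open Pool.Agent.Helper47.SizeRamsey

/-! ### Hosts -/

/-- Theorem H. -/
def HostThm : Prop :=
  ∀ (D : ℕ) (lam : ℝ), 0 < lam → ∃ (q C : ℕ), 2 ≤ q ∧ ∀ N : ℕ,
    ∃ (n : ℕ) (S : CS (Fin D) (Fin q) (Fin n)) (sgn : Fin n → ℝ),
      Gap S sgn lam ∧ N ≤ n ∧ n ≤ C * (N + 1)

/-! ### Groups with a bi-invariant length -/

/-- A bi-invariant length function on a group. -/
structure BiInv {G : Type} [Group G] (nrm : G → ℝ) : Prop where
  one : nrm 1 = 0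
  inv : ∀ g, nrm g⁻¹ = nrm g
  mul : ∀ g h, nrm (g * h) ≤ nrm g + nrm h
  conj : ∀ g h, nrm (h * g * h⁻¹) = nrm g

theorem BiInv.nonneg {G : Type} [Group G] {nrm : G → ℝ} (h : BiInv nrm) (g : G) : 0 ≤ nrm g := by
  have h1 := h.mul g g⁻¹
  rw [mul_inv_cancel, h.one, h.inv] at h1
  linarith

section near

variable {B L Om : Type} [DecidableEq B] {G : Type} [Group G]

/-- The squares of `gh` commute up to `eps` outside `BAD`. `gh w b s` is the transport from
`step b s w` to `w`. -/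
def Flat (S : CS B L Om) (gh : Om → B → L → G) (nrm : G → ℝ) (eps : ℝ)
    (BAD : Set (St B L Om)) : Prop :=
  ∀ V, V ∉ BAD → ∀ (T : Finset B) (b c : B), b ∉ T → c ∉ T → b ≠ c →
    nrm (gh (S.flipSet T V).1 b ((S.flipSet T V).2 b) *
          gh (S.flipSet (insert b T) V).1 c ((S.flipSet (insert b T) V).2 c) *
        (gh (S.flipSet T V).1 c ((S.flipSet T V).2 c) *
          gh (S.flipSet (insert c T) V).1 b ((S.flipSet (insert c T) V).2 b))⁻¹) ≤ eps

/-- The frames `g` (at the corner `T` of `V`) and `g'` (at the corner `T'`): either both corners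
and both frames are equal, or `T` and `T'` are two children of a corner `P` and the frames are
parallel up to `r`. -/
def Near (S : CS B L Om) (gh : Om → B → L → G) (nrm : G → ℝ) (r : ℝ)
    (V : St B L Om) (T T' : Finset B) (g g' : G) : Prop :=
  (T' = T ∧ g' = g) ∨
  (∃ (P : Finset B) (b b' : B), b ∉ P ∧ b' ∉ P ∧ b ≠ b' ∧ T = insert b P ∧ T' = insert b' P ∧
    nrm ((gh (S.flipSet P V).1 b ((S.flipSet P V).2 b) * g)⁻¹ *
      (gh (S.flipSet P V).1 b' ((S.flipSet P V).2 b') * g')) ≤ r)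

end near

/-- Disc theorem and gauge lemma for the dimension `d`. -/
def DiscGaugeThm (d : ℕ) : Prop :=
  ∃ (D : ℕ) (lam1 del1 c1 Cd : ℝ) (l1 m : ℕ),
    0 < D ∧ 0 < lam1 ∧ 0 < del1 ∧ 0 < c1 ∧ 0 ≤ Cd ∧ 2 ≤ m ∧
    ∀ (L Om : Type) [Fintype L] [Nonempty L] [Fintype Om] (S : CS (Fin D) L Om)
      (sgn : Om → ℝ), Gap S sgn lam1 →
    ∀ BAD : Set (St (Fin D) L Om), prob BAD ≤ del1 →
    ∀ (G : Type) [Group G] (nrm : G → ℝ), BiInv nrm →
    ∀ (gh : Om → Fin D → L → G) (eps : ℝ), Flat S gh nrm eps BAD →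
    ∀ t : ℕ, ((m ^ t : ℕ) : ℝ) ^ d ≤ c1 * Fintype.card Om →
    ∃ (om : (Fin d → Fin (m ^ t)) → Om) (ga : (Fin d → Fin (m ^ t)) → G),
      (∀ w : Om, {c | om c = w}.ncard ≤ l1) ∧
      (∀ c, ∃ V, V ∉ BAD ∧ ∃ T : Finset (Fin D), om c = (S.flipSet T V).1 ∧
        ∀ c', (gridGraph d (m ^ t)).Adj c c' →
          ∃ T' : Finset (Fin D), om c' = (S.flipSet T' V).1 ∧
            Near S gh nrm (Cd * eps) V T T' (ga c) (ga c'))

/-! ### The structure of a colouring -/

/-- Restriction of a cube system to some of the classes. -/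
def CS.comap {I I' L X : Type} (S : CS I L X) (e : I' → I) (he : Function.Injective e) :
    CS I' L X where
  step i := S.step (e i)
  tr i j := S.tr (e i) (e j)
  inv i := S.inv (e i)
  step_inv := fun i => S.step_inv (e i)
  inv_inv := fun i a => S.inv_inv _ _
  tr_inv := fun i j a b h => S.tr_inv _ _ _ _ (he.ne h)
  sq := fun i j a b x h => S.sq _ _ _ _ _ (he.ne h)
  cube := fun i j k a b c h1 h2 h3 => S.cube _ _ _ _ _ _ (he.ne h1) (he.ne h2) (he.ne h3)
  inv_tr := fun i j a b h => S.inv_tr _ _ _ _ (he.ne h)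

section outcome

variable {B L X : Type} [DecidableEq B] {J K : ℕ}

/-- The vertex `p` of the fibre of the state `w`: a corner of the `J`-cube `w` and a name. -/
def vx (S : CS (Fin J ⊕ B) L X) (w : St (Fin J) L X) (p : Finset (Fin J) × Fin K) : X × Fin K :=
  (((S.comap Sum.inl Sum.inl_injective).flipSet p.1 w).1, p.2)

/-- The proportion of the vertices `z` of the fibre of `w` which are joined in the colour `cb` to
all vertices `vs i`. -/
noncomputable def Zval (S : CS (Fin J ⊕ B) L X) (col : Sym2 (X × Fin K) → Bool) (cb : Bool)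
    (w : St (Fin J) L X) {k : ℕ} (vs : Fin k → X × Fin K) : ℝ :=
  prob {z : Finset (Fin J) × Fin K | ∀ i, col s(vs i, vx S w z) = cb}

/-- The outcome of the structure theorem. `W w g` is a probability on the fibre of the state `w`
(for the frame `g`). -/
structure Outcome (d : ℕ) (Cd del Cw eps : ℝ) [Fintype B] [Fintype L] [Fintype X]
    (S : CS (Fin J ⊕ B) L X) (col : Sym2 (X × Fin K) → Bool) (cb : Bool)
    (G : Type) [Group G] (nrm : G → ℝ)
    (BAD : Set (St B L (St (Fin J) L X)))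
    (gh : St (Fin J) L X → B → L → G)
    (W : St (Fin J) L X → G → Finset (Fin J) × Fin K → ℝ) : Prop where
  biinv : BiInv nrm
  bad : prob BAD ≤ del
  flat : Flat S.derived gh nrm eps BAD
  W_nonneg : ∀ w g p, 0 ≤ W w g p
  W_sum : ∀ w g, ∑ p, W w g p = 1
  W_le : ∀ w g p, W w g p * Fintype.card (Finset (Fin J) × Fin K) ≤ Cw
  loc : ∀ V, V ∉ BAD → ∀ (T0 : Finset B) (g0 : G) (k : ℕ), k ≤ 2 * d →
    ∀ (T : Fin k → Finset B) (g : Fin k → G),
    (∀ i, Near S.derived gh nrm (Cd * eps) V T0 (T i) g0 (g i)) →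
    ∑ p : Fin k → Finset (Fin J) × Fin K,
      (∏ i, W (S.derived.flipSet (T i) V).1 (g i) (p i)) *
        (open Classical in if Zval S col cb (S.derived.flipSet T0 V).1
            (fun i => vx S (S.derived.flipSet (T i) V).1 (p i)) < (1 / 2 : ℝ) ^ (2 * d + 2)
          then (1 : ℝ) else 0) ≤ 1 / (2 * (8 * (d : ℝ)) ^ (2 * d))

end outcome

/-- The structure theorem for colourings of a host. The numbers `J`, `lam`, `Cw` depend only on
`d`, `D`, `Cd`, `del`. -/
def StructureThm (d : ℕ) : Prop :=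
  ∀ (D : ℕ) (Cd del : ℝ), 0 < D → 0 ≤ Cd → 0 < del →
  ∃ (J : ℕ) (lam Cw : ℝ), 0 < lam ∧
  ∀ (q nX K : ℕ), 0 < q → 0 < nX → 0 < K →
  ∀ (S : CS (Fin J ⊕ Fin D) (Fin q) (Fin nX)) (sgn : Fin nX → ℝ), Gap S sgn lam →
  ∀ col : Sym2 (Fin nX × Fin K) → Bool,
    ∃ (e : Equiv.Perm (Fin J ⊕ Fin D)) (cb : Bool) (G : Type) (_ : Group G) (nrm : G → ℝ)
      (eps : ℝ) (BAD : Set (St (Fin D) (Fin q) (St (Fin J) (Fin q) (Fin nX))))
      (gh : St (Fin J) (Fin q) (Fin nX) → Fin D → Fin q → G)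
      (W : St (Fin J) (Fin q) (Fin nX) → G → Finset (Fin J) × Fin K → ℝ),
      Outcome d Cd del Cw eps (S.reindex e) col cb G nrm BAD gh W

/-- The final statement. -/
def FinalThm (d : ℕ) : Prop :=
  ∃ C : ℕ, ∀ n : ℕ, 1 ≤ n → ∃ (V : Type) (_ : Fintype V) (G : SimpleGraph V),
    Arrows G (gridGraph d n) ∧ G.edgeSet.ncard ≤ C * n ^ d

end Pool.Agent.SRL
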