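import Mathlib
import Pool.Agent.SRL.Interface

/-!
Linear size-Ramsey number of grids: algebra of flips; corners of a common cube are adjacent in the
host graph.
-/

set_option autoImplicit false
set_option linter.unusedSectionVars false
set_option linter.unusedVariables false

namespace Pool.Agent.SRL

open Finset

namespace CS

variable {I L X : Type} [DecidableEq I]

theorem flipSet_insert_apply (S : CS I L X) {b : I} {T : Finset I} (hb : b ∉ T)
    (V : St I L X) : S.flipSet (insert b T) V = S.flip b (S.flipSet T V) := by
  rw [S.flipSet_insert hb]; rfl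

theorem flipSet_empty_apply (S : CS I L X) (V : St I L X) : S.flipSet ∅ V = V := by
  rw [S.flipSet_empty]; rfl

theorem flipSet_singleton (S : CS I L X) (b : I) : S.flipSet {b} = S.flipPerm b := by
  have h := S.flipSet_insert (b := b) (T := ∅) (by simp)
  rw [S.flipSet_empty, mul_one] at h
  simpa using h

theorem flipSet_erase (S : CS I L X) {b : I} {T : Finset I} (hb : b ∈ T) :
    S.flipSet (T.erase b) = S.flipPerm b * S.flipSet T := by
  have h : T = insert b (T.erase b) := (Finset.insert_erase hb).symm
  have h2 : S.flipSet T = S.flipPerm b * S.flipSet (T.erase b) := by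
    conv_lhs => rw [h]
    exact S.flipSet_insert (Finset.notMem_erase b T)
  rw [h2, ← mul_assoc, S.flipPerm_sq, one_mul]

/-- Flips of sets multiply as symmetric differences. -/
theorem flipSet_mul (S : CS I L X) (T T' : Finset I) :
    S.flipSet T * S.flipSet T' = S.flipSet (symmDiff T T') := by
  induction T using Finset.induction_on with
  | empty => rw [S.flipSet_empty, one_mul]; congr 1; exact (bot_symmDiff T').symm
  | insert b T hb ih =>
    rw [S.flipSet_insert hb, mul_assoc, ih]
    by_cases h : b ∈ T'
    · have h1 : b ∈ symmDiff T T' := by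
        rw [Finset.mem_symmDiff]; exact Or.inr ⟨h, hb⟩
      rw [← S.flipSet_erase h1]
      congr 1
      ext x
      simp only [Finset.mem_erase, Finset.mem_symmDiff, Finset.mem_insert]
      by_cases hx : x = b
      · subst hx; simp [h]
      · simp [hx]
    · have h1 : b ∉ symmDiff T T' := by
        rw [Finset.mem_symmDiff]; tauto
      rw [← S.flipSet_insert h1]
      congr 1
      ext x
      simp only [Finset.mem_insert, Finset.mem_symmDiff]
      by_cases hx : x = b
      · subst hx; simp [h]
      · simp [hx]

theorem flipSet_mul_apply (S : CS I L X) (T T' : Finset I) (V : St I L X) :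
    S.flipSet T (S.flipSet T' V) = S.flipSet (symmDiff T T') V := by
  rw [← S.flipSet_mul]; rfl

end CS

section derived

variable {A B L X : Type} [DecidableEq A] [DecidableEq B]

/-- A full cube of `S`, read as a full cube of the derived system. -/
def toDer (V : St (A ⊕ B) L X) : St B L (St A L X) :=
  ((V.1, fun a => V.2 (Sum.inl a)), fun b => V.2 (Sum.inr b))

/-- The inverse of `toDer`. -/
def ofDer (V : St B L (St A L X)) : St (A ⊕ B) L X :=
  (V.1.1, Sum.elim V.1.2 V.2)

@[simp] theorem toDer_ofDer (V : St B L (St A L X)) : toDer (ofDer V) = V := rfl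

@[simp] theorem ofDer_toDer (V : St (A ⊕ B) L X) : ofDer (toDer V) = V := by
  refine Prod.ext rfl ?_
  funext i
  cases i <;> rfl

/-- `toDer` as an equivalence. -/
def derEquiv : St (A ⊕ B) L X ≃ St B L (St A L X) where
  toFun := toDer
  invFun := ofDer
  left_inv := ofDer_toDer
  right_inv := toDer_ofDer

theorem derived_flip (S : CS (A ⊕ B) L X) (b : B) (V : St (A ⊕ B) L X) :
    S.derived.flip b (toDer V) = toDer (S.flip (Sum.inr b) V) := by
  refine Prod.ext (Prod.ext rfl ?_) ?_
  · funext a
    simp [CS.flip, CS.derived, toDer]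
  · funext j
    by_cases hj : j = b
    · subst hj; simp [CS.flip, CS.derived, toDer]
    · simp [CS.flip, CS.derived, toDer, hj]

theorem derived_flipSet (S : CS (A ⊕ B) L X) (T : Finset B) (V : St (A ⊕ B) L X) :
    S.derived.flipSet T (toDer V) = toDer (S.flipSet (T.map ⟨Sum.inr, Sum.inr_injective⟩) V) := by
  induction T using Finset.induction_on with
  | empty => simp [CS.flipSet_empty_apply]
  | insert b T hb ih =>
    rw [S.derived.flipSet_insert_apply hb, ih, derived_flip, Finset.map_insert,
      S.flipSet_insert_apply (by simpa using hb)]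
    rfl

theorem comap_flip (S : CS (A ⊕ B) L X) (a : A) (V : St (A ⊕ B) L X) :
    (S.comap Sum.inl Sum.inl_injective).flip a (toDer V).1 = (toDer (S.flip (Sum.inl a) V)).1 := by
  refine Prod.ext rfl ?_
  funext j
  by_cases hj : j = a
  · subst hj; simp [CS.flip, CS.comap, toDer]
  · simp [CS.flip, CS.comap, toDer, hj]

theorem comap_flipSet (S : CS (A ⊕ B) L X) (T : Finset A) (V : St (A ⊕ B) L X) :
    (S.comap Sum.inl Sum.inl_injective).flipSet T (toDer V).1 =
      (toDer (S.flipSet (T.map ⟨Sum.inl, Sum.inl_injective⟩) V)).1 := by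
  induction T using Finset.induction_on with
  | empty => simp [CS.flipSet_empty_apply]
  | insert b T hb ih =>
    rw [(S.comap Sum.inl Sum.inl_injective).flipSet_insert_apply hb, ih, comap_flip,
      Finset.map_insert, S.flipSet_insert_apply (by simpa using hb)]
    rfl

end derived

section vx

variable {B L X : Type} [DecidableEq B] {J K : ℕ}

/-- The vertices of the fibre of the corner `T` of `V` are corners of the full cube `ofDer V`. -/
theorem vx_eq (S : CS (Fin J ⊕ B) L X) (V : St B L (St (Fin J) L X)) (T : Finset B)
    (p : Finset (Fin J) × Fin K) :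
    vx S (S.derived.flipSet T V).1 p =
      ((S.flipSet (symmDiff (p.1.map ⟨Sum.inl, Sum.inl_injective⟩)
        (T.map ⟨Sum.inr, Sum.inr_injective⟩)) (ofDer V)).1, p.2) := by
  have h : V = toDer (ofDer V) := (toDer_ofDer V).symm
  unfold vx
  conv_lhs => rw [h, derived_flipSet, comap_flipSet, S.flipSet_mul_apply]
  rfl

/-- Two different vertices of the fibres of two corners of `V` are adjacent in the host graph. -/
theorem host_adj_of_corners {I L X : Type} [DecidableEq I] (S : CS I L X) {K : ℕ}
    (V : St I L X) (T T' : Finset I) (u v : X × Fin K) (hu : u.1 = (S.flipSet T V).1)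
    (hv : v.1 = (S.flipSet T' V).1) (hne : u ≠ v) : (hostGraph S K).Adj u v := by
  refine ⟨hne, (S.flipSet T V).2, symmDiff T' T, ?_⟩
  have h1 : (u.1, (S.flipSet T V).2) = S.flipSet T V := Prod.ext hu rfl
  rw [h1, S.flipSet_mul_apply, symmDiff_assoc, symmDiff_self, symmDiff_bot, hv]

theorem vx_adj (S : CS (Fin J ⊕ B) L X) (V : St B L (St (Fin J) L X)) (T T' : Finset B)
    (p p' : Finset (Fin J) × Fin K)
    (hne : vx S (S.derived.flipSet T V).1 p ≠ vx S (S.derived.flipSet T' V).1 p') :
    (hostGraph S K).Adj (vx S (S.derived.flipSet T V).1 p)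
      (vx S (S.derived.flipSet T' V).1 p') :=
  host_adj_of_corners S (ofDer V) _ _ _ _ (by rw [vx_eq]) (by rw [vx_eq]) hne

end vx

section reindex

variable {I I' L X : Type} [DecidableEq I] [DecidableEq I']

theorem reindex_flip (S : CS I L X) (e : I' ≃ I) (b : I') (V : St I L X) :
    (S.reindex e).flip b (V.1, fun i => V.2 (e i)) =
      ((S.flip (e b) V).1, fun i => (S.flip (e b) V).2 (e i)) := by
  refine Prod.ext rfl ?_
  funext j
  by_cases hj : j = b
  · subst hj; simp [CS.flip, CS.reindex]
  · simp [CS.flip, CS.reindex, hj]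

theorem reindex_flipSet (S : CS I L X) (e : I' ≃ I) (T : Finset I') (V : St I L X) :
    (S.reindex e).flipSet T (V.1, fun i => V.2 (e i)) =
      ((S.flipSet (T.map e.toEmbedding) V).1,
        fun i => (S.flipSet (T.map e.toEmbedding) V).2 (e i)) := by
  induction T using Finset.induction_on with
  | empty => simp [CS.flipSet_empty_apply]
  | insert b T hb ih =>
    rw [(S.reindex e).flipSet_insert_apply hb, ih, reindex_flip, Finset.map_insert,
      S.flipSet_insert_apply (by simpa using hb)]
    rfl

theorem hostGraph_reindex (S : CS I L X) (e : I' ≃ I) {K : ℕ} {u v : X × Fin K}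
    (h : (hostGraph (S.reindex e) K).Adj u v) : (hostGraph S K).Adj u v := by
  obtain ⟨hne, φ, T, hT⟩ := h
  refine ⟨hne, fun i => φ (e.symm i), T.map e.toEmbedding, ?_⟩
  have h1 := reindex_flipSet S e T (u.1, fun i => φ (e.symm i))
  simp only [Equiv.symm_apply_apply] at h1
  rw [hT, h1]

end reindex

section edges

variable {I L X : Type} [DecidableEq I] [Fintype I] [Fintype L] [Fintype X]

/-- The number of edges of the host graph. -/
theorem hostGraph_edges (S : CS I L X) (K : ℕ) :
    (hostGraph S K).edgeSet.ncard ≤
      (Fintype.card X * K) * ((Fintype.card L ^ Fintype.card I) * 2 ^ Fintype.card I * K) := by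
  classical
  let F : (X × Fin K) × (((I → L) × Finset I) × Fin K) → Sym2 (X × Fin K) :=
    fun z => s(z.1, ((S.flipSet z.2.1.2 (z.1.1, z.2.1.1)).1, z.2.2))
  have h1 : (hostGraph S K).edgeSet ⊆ Set.range F := by
    intro e
    induction e using Sym2.ind with
    | _ u v =>
      intro he
      rw [SimpleGraph.mem_edgeSet] at he
      obtain ⟨hne, φ, T, h⟩ := he
      refine ⟨(u, ((φ, T), v.2)), ?_⟩
      simp only [F]
      rw [← h]
  calc (hostGraph S K).edgeSet.ncard ≤ (Set.range F).ncard :=
        Set.ncard_le_ncard h1 (Set.finite_range F)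
    _ ≤ Fintype.card ((X × Fin K) × (((I → L) × Finset I) × Fin K)) := by
        rw [← Set.image_univ]
        refine (Set.ncard_image_le Set.finite_univ).trans ?_
        rw [Set.ncard_univ, Nat.card_eq_fintype_card]
    _ = _ := by
        simp only [Fintype.card_prod, Fintype.card_fun, Fintype.card_finset, Fintype.card_fin]

end edges

end Pool.Agent.SRL
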