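import Mathlib
import Pool.Agent.SRL.Flips

/-!
Linear size-Ramsey number of grids: the gap hypothesis for derived and reindexed systems.
-/

set_option autoImplicit false
set_option linter.unusedSectionVars false
set_option linter.unusedVariables false

namespace Pool.Agent.SRL

open Finset

section mono

variable {I L X : Type} [DecidableEq I] [Fintype I] [Fintype L] [Fintype X]

theorem Gap.mono {S : CS I L X} {sgn : X → ℝ} {lam lam' : ℝ} (h : Gap S sgn lam)
    (h0 : 0 ≤ lam) (hl : lam ≤ lam') : Gap S sgn lam' where
  val := h.val
  alt := h.alt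
  gap b f hb h1 h2 := by
    refine (h.gap b f hb h1 h2).trans ?_
    refine mul_le_mul_of_nonneg_right ?_ (Finset.sum_nonneg fun V _ => sq_nonneg _)
    exact pow_le_pow_left₀ h0 hl 2

end mono

section reindex

variable {I I' L X : Type} [DecidableEq I] [DecidableEq I'] [Fintype I] [Fintype I'] [Fintype L]
  [Fintype X]

/-- Reindexing of full cubes. -/
def stReindex (L X : Type) (e : I' ≃ I) : St I L X ≃ St I' L X where
  toFun V := (V.1, fun i => V.2 (e i))
  invFun V := (V.1, fun i => V.2 (e.symm i))
  left_inv V := by simp
  right_inv V := by simp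

theorem gap_reindex {S : CS I L X} {sgn : X → ℝ} {lam : ℝ} (h : Gap S sgn lam) (e : I' ≃ I) :
    Gap (S.reindex e) sgn lam where
  val := h.val
  alt := by
    rcases h.alt with h1 | ⟨h1, h2⟩
    · exact Or.inl h1
    · exact Or.inr ⟨h1, fun i a x => h2 (e i) a x⟩
  gap b f hb h1 h2 := by
    have hr : ∀ g : St I' L X → ℝ, ∑ V, g V = ∑ V, g (stReindex L X e V) := fun g =>
      (Equiv.sum_comp (stReindex L X e) g).symm
    rw [hr] at h1 h2
    rw [hr (fun V => (f V) ^ 2), hr (fun V => ((S.reindex e).A b f V) ^ 2)]
    have hupd : ∀ (φ : I → L) (s : L), (fun i => Function.update φ (e b) s (e i)) =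
        Function.update (fun i => φ (e i)) b s := by
      intro φ s
      funext i
      by_cases hi : i = b
      · subst hi; simp
      · have : e i ≠ e b := fun h' => hi (e.injective h')
        simp [Function.update_of_ne hi, Function.update_of_ne this]
    have hind : Indep (e b) (fun V => f (stReindex L X e V)) := by
      intro x φ s
      show f (x, fun i => Function.update φ (e b) s (e i)) = f (x, fun i => φ (e i))
      rw [hupd]
      exact hb _ _ _
    have key : ∀ V : St I L X, (S.reindex e).A b f (stReindex L X e V) =
        S.A (e b) (fun V => f (stReindex L X e V)) V := by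
      intro V
      unfold CS.A
      congr 1
      funext s
      show f ((S.reindex e).flip b (V.1, Function.update (fun i => V.2 (e i)) b s)) =
        f ((S.flip (e b) (V.1, Function.update V.2 (e b) s)).1,
          fun i => (S.flip (e b) (V.1, Function.update V.2 (e b) s)).2 (e i))
      rw [← reindex_flip S e b (V.1, Function.update V.2 (e b) s)]
      simp only [hupd]
    simp only [key]
    exact h.gap (e b) (fun V => f (stReindex L X e V)) hind h1 h2

end reindex

section derived

variable {A B L X : Type} [DecidableEq A] [DecidableEq B] [Fintype A] [Fintype B] [Fintype L]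
  [Fintype X]

theorem gap_derived {S : CS (A ⊕ B) L X} {sgn : X → ℝ} {lam : ℝ} (h : Gap S sgn lam) :
    Gap S.derived (fun w : St A L X => sgn w.1) lam where
  val w := h.val w.1
  alt := by
    rcases h.alt with h1 | ⟨h1, h2⟩
    · exact Or.inl fun w => h1 w.1
    · refine Or.inr ⟨?_, fun i a w => h2 (Sum.inr i) a w.1⟩
      rw [Fintype.sum_prod_type]
      have : ∀ x : X, ∑ _φ : A → L, sgn x = (Fintype.card (A → L) : ℝ) * sgn x := by
        intro x; rw [Finset.sum_const, Finset.card_univ, nsmul_eq_mul]
      simp only [this]
      rw [← Finset.mul_sum, h1, mul_zero]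
  gap b f hb h1 h2 := by
    have hr : ∀ g : St B L (St A L X) → ℝ, ∑ V, g V = ∑ V, g (toDer V) := fun g =>
      (Equiv.sum_comp (derEquiv (A := A) (B := B) (L := L) (X := X)) g).symm
    rw [hr] at h1 h2
    rw [hr (fun V => (f V) ^ 2), hr (fun V => (S.derived.A b f V) ^ 2)]
    have hupd : ∀ (V : St (A ⊕ B) L X) (s : L),
        toDer (V.1, Function.update V.2 (Sum.inr b) s) =
          ((toDer V).1, Function.update (toDer V).2 b s) := by
      intro V s
      refine Prod.ext (Prod.ext rfl ?_) ?_
      · funext a
        simp [toDer]
      · funext j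
        by_cases hj : j = b
        · subst hj; simp [toDer]
        · have : (Sum.inr j : A ⊕ B) ≠ Sum.inr b := fun h' => hj (Sum.inr_injective h')
          simp [toDer, Function.update_of_ne hj]
    have hind : Indep (Sum.inr b : A ⊕ B) (fun V => f (toDer V)) := by
      intro x φ s
      show f (toDer (x, Function.update φ (Sum.inr b) s)) = f (toDer (x, φ))
      rw [hupd (x, φ) s]
      exact hb _ _ _
    have key : ∀ V : St (A ⊕ B) L X, S.derived.A b f (toDer V) =
        S.A (Sum.inr b) (fun V => f (toDer V)) V := by
      intro V
      unfold CS.A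
      congr 1
      funext s
      show f (S.derived.flip b ((toDer V).1, Function.update (toDer V).2 b s)) =
        f (toDer (S.flip (Sum.inr b) (V.1, Function.update V.2 (Sum.inr b) s)))
      rw [← derived_flip, hupd]
    simp only [key]
    exact h.gap (Sum.inr b) (fun V => f (toDer V)) hind h1 h2

end derived

end Pool.Agent.SRL
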