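import Mathlib
import Pool.Agent.SRL.GapOps

/-!
Linear size-Ramsey number of grids: assembly.
-/

set_option autoImplicit false
set_option linter.unusedSectionVars false
set_option linter.unusedVariables false

namespace Pool.Agent.SRL

open Finset
open Pool.Agent.Helper47.SizeRamsey

/-- The number which bounds how many vertices of a fibre are used by other cells. -/
def N1 (J q l1 : ℕ) : ℕ := 4 ^ J * q ^ J * l1

/-- The embedding: from the outcomes of the structure theorem and of the disc theorem. -/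
def EmbedThm (d : ℕ) : Prop :=
  ∀ (J D q nX K l1 n : ℕ) (Cd del Cw eps : ℝ) (S : CS (Fin J ⊕ Fin D) (Fin q) (Fin nX))
    (col : Sym2 (Fin nX × Fin K) → Bool) (cb : Bool) (G : Type) [Group G] (nrm : G → ℝ)
    (BAD : Set (St (Fin D) (Fin q) (St (Fin J) (Fin q) (Fin nX))))
    (gh : St (Fin J) (Fin q) (Fin nX) → Fin D → Fin q → G)
    (W : St (Fin J) (Fin q) (Fin nX) → G → Finset (Fin J) × Fin K → ℝ),
    Outcome d Cd del Cw eps S col cb G nrm BAD gh W →
    ∀ (om : (Fin d → Fin n) → St (Fin J) (Fin q) (Fin nX)) (ga : (Fin d → Fin n) → G),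
    (∀ w, {c | om c = w}.ncard ≤ l1) →
    (∀ c, ∃ V, V ∉ BAD ∧ ∃ T : Finset (Fin D), om c = (S.derived.flipSet T V).1 ∧
        ∀ c', (gridGraph d n).Adj c c' →
          ∃ T' : Finset (Fin D), om c' = (S.derived.flipSet T' V).1 ∧
            Near S.derived gh nrm (Cd * eps) V T T' (ga c) (ga c')) →
    4 * Cw * N1 J q l1 ≤ K → 2 ^ (2 * d + 2) * N1 J q l1 < K →
    ∃ f : (Fin d → Fin n) → Fin nX × Fin K, Function.Injective f ∧
      ∀ c c', (gridGraph d n).Adj c c' →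
        (hostGraph S K).Adj (f c) (f c') ∧ col s(f c, f c') = cb

theorem arrows_of (d : ℕ) (hE : EmbedThm d) {D J q nX K : ℕ} {lam1 del1 c1 Cd lam Cw : ℝ}
    {l1 m : ℕ} (hD : 0 < D) (hlam1 : 0 < lam1) (hlam : 0 < lam) (hq : 0 < q) (hnX : 0 < nX)
    (hDG : ∀ (L Om : Type) [Fintype L] [Nonempty L] [Fintype Om] (S : CS (Fin D) L Om)
      (sgn : Om → ℝ), Gap S sgn lam1 →
      ∀ BAD : Set (St (Fin D) L Om), prob BAD ≤ del1 →
      ∀ (G : Type) [Group G] (nrm : G → ℝ), BiInv nrm →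
      ∀ (gh : Om → Fin D → L → G) (eps : ℝ), Flat S gh nrm eps BAD →
      ∀ t : ℕ, ((m ^ t : ℕ) : ℝ) ^ d ≤ c1 * Fintype.card Om →
      ∃ (om : (Fin d → Fin (m ^ t)) → Om) (ga : (Fin d → Fin (m ^ t)) → G),
        (∀ w : Om, {c | om c = w}.ncard ≤ l1) ∧
        (∀ c, ∃ V, V ∉ BAD ∧ ∃ T : Finset (Fin D), om c = (S.flipSet T V).1 ∧
          ∀ c', (gridGraph d (m ^ t)).Adj c c' →
            ∃ T' : Finset (Fin D), om c' = (S.flipSet T' V).1 ∧
              Near S gh nrm (Cd * eps) V T T' (ga c) (ga c')))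
    (S : CS (Fin J ⊕ Fin D) (Fin q) (Fin nX)) (sgn : Fin nX → ℝ)
    (hgap : Gap S sgn (min lam lam1))
    (hST : Gap S sgn lam → ∀ col : Sym2 (Fin nX × Fin K) → Bool,
      ∃ (e : Equiv.Perm (Fin J ⊕ Fin D)) (cb : Bool) (G : Type) (_ : Group G) (nrm : G → ℝ)
      (eps : ℝ) (BAD : Set (St (Fin D) (Fin q) (St (Fin J) (Fin q) (Fin nX))))
      (gh : St (Fin J) (Fin q) (Fin nX) → Fin D → Fin q → G)
      (W : St (Fin J) (Fin q) (Fin nX) → G → Finset (Fin J) × Fin K → ℝ),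
      Outcome d Cd del1 Cw eps (S.reindex e) col cb G nrm BAD gh W)
    (hK1 : 4 * Cw * N1 J q l1 ≤ K) (hK2 : 2 ^ (2 * d + 2) * N1 J q l1 < K)
    (t : ℕ) (ht : ((m ^ t : ℕ) : ℝ) ^ d ≤ c1 * Fintype.card (St (Fin J) (Fin q) (Fin nX))) :
    Arrows (hostGraph S K) (gridGraph d (m ^ t)) := by
  intro col
  have hmin : 0 < min lam lam1 := lt_min hlam hlam1
  obtain ⟨e, cb, G, _, nrm, eps, BAD, gh, W, hO⟩ := hST (hgap.mono hmin.le (min_le_left _ _)) col
  have hgap1 : Gap (S.reindex e).derived (fun w : St (Fin J) (Fin q) (Fin nX) => sgn w.1) lam1 :=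
    gap_derived (gap_reindex (hgap.mono hmin.le (min_le_right _ _)) e)
  have : Nonempty (Fin q) := ⟨⟨0, hq⟩⟩
  obtain ⟨om, ga, hload, hnear⟩ := hDG (Fin q) (St (Fin J) (Fin q) (Fin nX)) (S.reindex e).derived
    _ hgap1 BAD hO.bad G nrm hO.biinv gh eps hO.flat t ht
  obtain ⟨f, hf, hadj⟩ := hE J D q nX K l1 (m ^ t) Cd del1 Cw eps (S.reindex e) col cb G nrm BAD
    gh W hO om ga hload hnear hK1 hK2
  exact ⟨cb, f, hf, fun x y hxy => ⟨hostGraph_reindex S e (hadj x y hxy).1, (hadj x y hxy).2⟩⟩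

/-- `Arrows` for grids is monotone. -/
theorem arrows_grid_mono' {V : Type*} {G : SimpleGraph V} {d n n' : ℕ} (h : n ≤ n')
    (hG : Arrows G (gridGraph d n')) : Arrows G (gridGraph d n) := by
  intro c
  obtain ⟨b, f, hf, hadj⟩ := hG c
  refine ⟨b, fun x => f (fun i => Fin.castLE h (x i)), ?_, ?_⟩
  · intro x y hxy
    have h1 := hf hxy
    funext i
    have h2 := congrFun h1 i
    exact Fin.castLE_injective h h2
  · rintro x y ⟨i, h1, h2⟩
    refine hadj _ _ ⟨i, fun j hj => by simp only [h1 j hj], ?_⟩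
    simpa using h2

theorem final_of (d : ℕ) (hH : HostThm) (hDG : DiscGaugeThm d) (hST : StructureThm d)
    (hE : EmbedThm d) : FinalThm d := by
  obtain ⟨D, lam1, del1, c1, Cd, l1, m, hD, hlam1, hdel1, hc1, hCd, hm, hDG'⟩ := hDG
  obtain ⟨J, lam, Cw, hlam, hST'⟩ := hST D Cd del1 hD hCd hdel1
  obtain ⟨q, C, hq, hH'⟩ := hH (J + D) (min lam lam1) (lt_min hlam hlam1)
  set K : ℕ := 2 ^ (2 * d + 2) * N1 J q l1 + ⌈4 * Cw * N1 J q l1⌉₊ + 1 with hK
  have hK0 : 0 < K := by omega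
  have hK1 : 4 * Cw * N1 J q l1 ≤ K := by
    refine (Nat.le_ceil _).trans ?_
    exact_mod_cast (by omega : ⌈4 * Cw * N1 J q l1⌉₊ ≤ K)
  have hK2 : 2 ^ (2 * d + 2) * N1 J q l1 < K := by omega
  set Δ : ℕ := K * ((q ^ (J + D)) * 2 ^ (J + D) * K) with hΔ
  set M : ℕ := ⌈(m : ℝ) ^ d / c1⌉₊ with hM
  refine ⟨C * (M + 2) * Δ, fun n hn => ?_⟩
  obtain ⟨nX, S0, sgn, hgap0, hN1, hN2⟩ := hH' (M * n ^ d + 1)
  have hnd : 1 ≤ n ^ d := Nat.one_le_pow _ _ hn
  have hnX : 0 < nX := by omega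
  set S : CS (Fin J ⊕ Fin D) (Fin q) (Fin nX) := S0.reindex finSumFinEquiv with hS
  have hgap : Gap S sgn (min lam lam1) := gap_reindex hgap0 _
  obtain ⟨t, ht1, ht2⟩ : ∃ t : ℕ, n ≤ m ^ t ∧ m ^ t ≤ m * n := by
    refine ⟨Nat.clog m n, Nat.le_pow_clog (by omega) n, ?_⟩
    rcases Nat.lt_or_ge 1 n with h1 | h1
    · have h2 : 0 < Nat.clog m n := Nat.clog_pos (by omega) h1
      have h3 : m ^ (Nat.clog m n).pred < n := Nat.pow_pred_clog_lt_self (by omega) h1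
      obtain ⟨k, hk⟩ := Nat.exists_eq_succ_of_ne_zero h2.ne'
      rw [hk] at h3 ⊢
      rw [Nat.pred_succ] at h3
      rw [pow_succ, mul_comm]
      exact Nat.mul_le_mul_left _ h3.le
    · have : n = 1 := by omega
      subst this
      simp only [Nat.clog_one_right, pow_zero, mul_one]
      omega
  have hcard : (Fintype.card (St (Fin J) (Fin q) (Fin nX)) : ℝ) = nX * (q : ℝ) ^ J := by
    simp [St, Fintype.card_prod]
  have ht : ((m ^ t : ℕ) : ℝ) ^ d ≤ c1 * Fintype.card (St (Fin J) (Fin q) (Fin nX)) := by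
    rw [hcard]
    have h1 : ((m ^ t : ℕ) : ℝ) ^ d ≤ ((m : ℝ) * n) ^ d := by
      refine pow_le_pow_left₀ (by positivity) ?_ d
      exact_mod_cast ht2
    have h2 : (m : ℝ) ^ d / c1 ≤ M := Nat.le_ceil _
    have h3 : (m : ℝ) ^ d ≤ c1 * M := by
      rw [div_le_iff₀ hc1] at h2
      linarith
    have h4 : (M : ℝ) * (n : ℝ) ^ d ≤ nX := by
      have : M * n ^ d ≤ nX := by omega
      exact_mod_cast this
    have h5 : (1 : ℝ) ≤ (q : ℝ) ^ J := by
      have : (1 : ℕ) ≤ q ^ J := Nat.one_le_pow _ _ (by omega)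
      exact_mod_cast this
    calc ((m ^ t : ℕ) : ℝ) ^ d ≤ ((m : ℝ) * n) ^ d := h1
      _ = (m : ℝ) ^ d * (n : ℝ) ^ d := mul_pow _ _ _
      _ ≤ (c1 * M) * (n : ℝ) ^ d := mul_le_mul_of_nonneg_right h3 (by positivity)
      _ = c1 * (M * (n : ℝ) ^ d) := by ring
      _ ≤ c1 * (nX * (q : ℝ) ^ J) := by
          refine mul_le_mul_of_nonneg_left ?_ hc1.le
          calc (M : ℝ) * (n : ℝ) ^ d ≤ nX := h4
            _ = nX * 1 := by ring
            _ ≤ nX * (q : ℝ) ^ J := mul_le_mul_of_nonneg_left h5 (by positivity)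
  have harr : Arrows (hostGraph S K) (gridGraph d (m ^ t)) :=
    arrows_of d hE hD hlam1 hlam (by omega) hnX hDG' S sgn hgap
      (fun hg col => hST' q nX K (by omega) hnX hK0 S sgn hg col) hK1 hK2 t ht
  refine ⟨Fin nX × Fin K, inferInstance, hostGraph S K, arrows_grid_mono' ht1 harr, ?_⟩
  refine (hostGraph_edges S K).trans ?_
  simp only [Fintype.card_fin, Fintype.card_sum]
  calc nX * K * (q ^ (J + D) * 2 ^ (J + D) * K) = nX * Δ := by rw [hΔ]; ring
    _ ≤ (C * (M * n ^ d + 1 + 1)) * Δ := Nat.mul_le_mul_right _ hN2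
    _ ≤ (C * ((M + 2) * n ^ d)) * Δ := by
        refine Nat.mul_le_mul_right _ (Nat.mul_le_mul_left _ ?_)
        nlinarith
    _ = C * (M + 2) * Δ * n ^ d := by ring

end Pool.Agent.SRL
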