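import Mathlib

/-!
One-dimensional geometry of levels: the level `j` index of `v` is `(v + 2^j) / 2^(j+1)`; the
level `j` walls are the odd multiples of `2^j`.
-/

set_option autoImplicit false
set_option linter.unusedVariables false

namespace Pool.Agent.SRL.Geo1

/-- index of the level `j` interval of `t` -/
def idx (j : ℕ) (t : ℤ) : ℤ := (t + 2 ^ j) / 2 ^ (j + 1)

/-- `p` is a wall of level `j` -/
def crit (j : ℕ) (p : ℤ) : Prop := (2 : ℤ) ^ (j + 1) ∣ p + 2 ^ j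

/-- centre of the level `l` interval of index `a` -/
def cen (l : ℕ) (a : ℤ) : ℤ := a * 2 ^ (l + 1)

theorem pow_pos' (k : ℕ) : (0 : ℤ) < 2 ^ k := by positivity

/-- the offset of `t` from the centre of its level `l` interval -/
theorem cen_spec (l : ℕ) (t : ℤ) :
    -(2 ^ l) ≤ t - cen l (idx l t) ∧ t - cen l (idx l t) < 2 ^ l := by
  have h1 := Int.emod_add_mul_ediv (t + 2 ^ l) (2 ^ (l + 1))
  have h2 := Int.emod_nonneg (t + 2 ^ l) (pow_pos' (l + 1)).ne'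
  have h3 := Int.emod_lt_of_pos (t + 2 ^ l) (pow_pos' (l + 1))
  have h4 : (2 : ℤ) ^ (l + 1) = 2 * 2 ^ l := by rw [pow_succ]; ring
  have h5 := mul_comm ((2 : ℤ) ^ (l + 1)) ((t + 2 ^ l) / 2 ^ (l + 1))
  unfold cen idx
  constructor
  · linarith
  · linarith

theorem crit_unique (i j : ℕ) (hij : i < j) (p : ℤ) (hi : crit i p) (hj : crit j p) : False := by
  obtain ⟨z, hz⟩ := hi
  obtain ⟨w, hw⟩ := hj
  have h1 : (2 : ℤ) ^ j = 2 ^ (i + 1) * 2 ^ (j - i - 1) := by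
    rw [← pow_add]; congr 1; omega
  have h2 : (2 : ℤ) ^ (j + 1) = 2 ^ (i + 1) * 2 ^ (j - i) := by
    rw [← pow_add]; congr 1; omega
  have h3 : (2 : ℤ) ^ (i + 1) ∣ 2 ^ i := by
    refine ⟨z - 2 ^ (j - i) * w + 2 ^ (j - i - 1), ?_⟩
    rw [mul_add, mul_sub, ← mul_assoc, ← h2, ← hw, ← hz, ← h1]
    ring
  have h4 := Int.le_of_dvd (pow_pos' i) h3
  have h5 : (2 : ℤ) ^ (i + 1) = 2 * 2 ^ i := by rw [pow_succ]; ring
  have := pow_pos' i
  linarith

theorem crit_inj (i j : ℕ) (p : ℤ) (hi : crit i p) (hj : crit j p) : i = j := by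
  rcases lt_trichotomy i j with h | h | h
  · exact (crit_unique i j h p hi hj).elim
  · exact h
  · exact (crit_unique j i h p hj hi).elim

/-- Euclidean division at `P + x` -/
theorem ediv_add {P x L : ℤ} (hL : 0 < L) (h1 : 0 ≤ P % L + x) (h2 : P % L + x < L) :
    (P + x) / L = P / L := by
  have h3 := Int.emod_add_mul_ediv P L
  have h4 : P + x = (P % L + x) + L * (P / L) := by linarith
  rw [h4, Int.add_mul_ediv_left _ _ hL.ne', Int.ediv_eq_zero_of_lt h1 h2, zero_add]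

/-- the remainder of a multiple of `u` modulo a multiple of `u` -/
theorem emod_mult {u P L : ℤ} (hu : 0 < u) (hL : 0 < L) (hP : u ∣ P) (huL : u ∣ L) :
    u ∣ P % L ∧ P % L ≤ L - u := by
  have h1 : u ∣ P % L := by
    rw [Int.emod_def]
    exact dvd_sub hP (Dvd.dvd.mul_right huL _)
  refine ⟨h1, ?_⟩
  have h2 := Int.emod_lt_of_pos P hL
  have h3 : u ∣ L - P % L := dvd_sub huL h1
  have := Int.le_of_dvd (by linarith) h3
  linarith

/-- basic facts about the centre `p` of a level `l` interval, for `j > l` -/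
theorem base (l j : ℕ) (hlj : l < j) (a : ℤ) :
    (2 : ℤ) ^ (l + 1) ∣ (cen l a + 2 ^ j) % 2 ^ (j + 1) ∧
    0 ≤ (cen l a + 2 ^ j) % 2 ^ (j + 1) ∧
    (cen l a + 2 ^ j) % 2 ^ (j + 1) ≤ 2 ^ (j + 1) - 2 ^ (l + 1) := by
  have h1 : (2 : ℤ) ^ (l + 1) ∣ cen l a + 2 ^ j := by
    unfold cen
    exact dvd_add (Dvd.intro_left _ rfl) (pow_dvd_pow 2 hlj)
  have h := emod_mult (pow_pos' (l + 1)) (pow_pos' (j + 1)) h1
    (pow_dvd_pow 2 (by omega : l + 1 ≤ j + 1))
  exact ⟨h.1, Int.emod_nonneg _ (pow_pos' (j + 1)).ne', h.2⟩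

/-- the index takes at most two values on a finer interval -/
theorem idx_two (l j : ℕ) (hlj : l < j) (t : ℤ) :
    idx j t = (cen l (idx l t) + 2 ^ j) / 2 ^ (j + 1) ∨
      idx j t = (cen l (idx l t) + 2 ^ j) / 2 ^ (j + 1) - 1 := by
  set p := cen l (idx l t) with hp
  obtain ⟨h1, h2, h3⟩ := base l j hlj (idx l t)
  rw [← hp] at h1 h2 h3
  have h4 := cen_spec l t
  rw [← hp] at h4
  have hl : (2 : ℤ) ^ (l + 1) = 2 * 2 ^ l := by rw [pow_succ]; ring
  have hu := pow_pos' l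
  have hle : (2 : ℤ) ^ (l + 1) ≤ 2 ^ (j + 1) := pow_le_pow_right₀ (by norm_num) (by omega)
  have he : t + 2 ^ j = (p + 2 ^ j) + (t - p) := by ring
  unfold idx
  rw [he]
  by_cases hc : 0 ≤ (p + 2 ^ j) % 2 ^ (j + 1) + (t - p)
  · left
    exact ediv_add (pow_pos' (j + 1)) hc (by linarith [h4.2])
  · right
    have h5 := Int.emod_add_mul_ediv (p + 2 ^ j) (2 ^ (j + 1))
    have h6 : (p + 2 ^ j) + (t - p) =
        ((p + 2 ^ j) % 2 ^ (j + 1) + (t - p) + 2 ^ (j + 1)) +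
          2 ^ (j + 1) * ((p + 2 ^ j) / 2 ^ (j + 1) - 1) := by
      rw [mul_sub]; linarith
    rw [h6, Int.add_mul_ediv_left _ _ (pow_pos' (j + 1)).ne', Int.ediv_eq_zero_of_lt ?_ ?_,
      zero_add]
    · linarith [h4.1]
    · have := not_le.1 hc
      linarith

/-- the index of level `j` is constant on a finer interval whose centre is not a wall of
level `j` -/
theorem idx_const (l j : ℕ) (hlj : l < j) (t : ℤ) (hw : ¬ crit j (cen l (idx l t))) :
    idx j t = (cen l (idx l t) + 2 ^ j) / 2 ^ (j + 1) := by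
  obtain ⟨h1, h2, h3⟩ := base l j hlj (idx l t)
  have h4 := cen_spec l t
  have hl : (2 : ℤ) ^ (l + 1) = 2 * 2 ^ l := by rw [pow_succ]; ring
  have hu := pow_pos' l
  set p := cen l (idx l t) with hp
  have hR0 : (p + 2 ^ j) % 2 ^ (j + 1) ≠ 0 := fun h => hw (Int.dvd_of_emod_eq_zero h)
  have hR1 : (2 : ℤ) ^ (l + 1) ≤ (p + 2 ^ j) % 2 ^ (j + 1) := Int.le_of_dvd (by
    rcases lt_or_eq_of_le h2 with h | h
    · exact h
    · exact absurd h.symm hR0) h1
  have he : t + 2 ^ j = (p + 2 ^ j) + (t - p) := by ring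
  unfold idx
  rw [he]
  exact ediv_add (pow_pos' (j + 1)) (by linarith [h4.1]) (by linarith [h4.2])

theorem idx_const' (l j : ℕ) (hlj : l < j) (t t' : ℤ) (htt : idx l t = idx l t')
    (hw : ¬ crit j (cen l (idx l t))) : idx j t = idx j t' := by
  rw [idx_const l j hlj t hw]
  rw [htt] at hw ⊢
  rw [idx_const l j hlj t' hw]

/-- (L4) in one dimension -/
theorem transfer1 (l k : ℕ) (hlk : l ≤ k) (t0 t : ℤ) (ht : idx l t = idx l t0) :
    (idx k t = idx k t0) ∨ (∀ j, k < j → idx j t0 = idx j t) := by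
  rcases Nat.eq_or_lt_of_le hlk with h | h
  · left; rw [← h]; exact ht
  by_cases hw : crit k (cen l (idx l t0))
  · right
    intro j hkj
    exact idx_const' l j (by omega) t0 t ht.symm (fun hc => crit_unique k j hkj _ hw hc)
  · left
    exact (idx_const' l k h t0 t ht.symm hw).symm

/-- one step: the index does not change off the walls -/
theorem idx_step (j : ℕ) (t : ℤ) (hc : ¬ crit j (t + 1)) : idx j t = idx j (t + 1) := by
  have hR0 : (t + 1 + 2 ^ j) % 2 ^ (j + 1) ≠ 0 := fun h => hc (Int.dvd_of_emod_eq_zero h)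
  have hn := Int.emod_nonneg (t + 1 + 2 ^ j) (pow_pos' (j + 1)).ne'
  have hlt := Int.emod_lt_of_pos (t + 1 + 2 ^ j) (pow_pos' (j + 1))
  have he : t + 2 ^ j = (t + 1 + 2 ^ j) + (-1) := by ring
  unfold idx
  rw [he]
  exact ediv_add (P := t + 1 + 2 ^ j) (x := -1) (pow_pos' (j + 1)) (by omega) (by omega)

/-- number of level `l` indices on a level `k` interval -/
theorem idx_range (l k : ℕ) (hlk : l ≤ k) (t0 t : ℤ) (ht : idx k t = idx k t0) :
    (idx k t0 * 2 ^ (k + 1) + (2 ^ l - 2 ^ k)) / 2 ^ (l + 1) ≤ idx l t ∧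
    idx l t ≤ (idx k t0 * 2 ^ (k + 1) + (2 ^ l - 2 ^ k)) / 2 ^ (l + 1) + 2 ^ (k - l) := by
  have h1 := Int.emod_add_mul_ediv (t + 2 ^ k) (2 ^ (k + 1))
  have h2 := Int.emod_nonneg (t + 2 ^ k) (pow_pos' (k + 1)).ne'
  have h3 := Int.emod_lt_of_pos (t + 2 ^ k) (pow_pos' (k + 1))
  have h4 : (t + 2 ^ k) / 2 ^ (k + 1) = idx k t0 := ht
  rw [h4] at h1
  have h5 : (2 : ℤ) ^ (k + 1) = 2 ^ (k - l) * 2 ^ (l + 1) := by
    rw [← pow_add]; congr 1; omega
  have h6 := mul_comm ((2 : ℤ) ^ (k + 1)) (idx k t0)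
  constructor
  · show _ ≤ (t + 2 ^ l) / 2 ^ (l + 1)
    apply Int.ediv_le_ediv (pow_pos' (l + 1))
    linarith
  · have : idx l t ≤ (idx k t0 * 2 ^ (k + 1) + (2 ^ l - 2 ^ k) +
        2 ^ (k - l) * 2 ^ (l + 1)) / 2 ^ (l + 1) := by
      show (t + 2 ^ l) / 2 ^ (l + 1) ≤ _
      apply Int.ediv_le_ediv (pow_pos' (l + 1))
      rw [← h5]
      linarith
    rwa [Int.add_mul_ediv_right _ _ (pow_pos' (l + 1)).ne'] at this

/-- the cells of a level `k` interval -/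
theorem cell_range (k : ℕ) (t0 t : ℤ) (ht : idx k t = idx k t0) :
    idx k t0 * 2 ^ (k + 1) - 2 ^ k ≤ t ∧ t < idx k t0 * 2 ^ (k + 1) - 2 ^ k + 2 ^ (k + 1) := by
  have h1 := Int.emod_add_mul_ediv (t + 2 ^ k) (2 ^ (k + 1))
  have h2 := Int.emod_nonneg (t + 2 ^ k) (pow_pos' (k + 1)).ne'
  have h3 := Int.emod_lt_of_pos (t + 2 ^ k) (pow_pos' (k + 1))
  have h4 : (t + 2 ^ k) / 2 ^ (k + 1) = idx k t0 := ht
  rw [h4] at h1
  have h6 := mul_comm ((2 : ℤ) ^ (k + 1)) (idx k t0)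
  constructor
  · linarith
  · linarith

end Pool.Agent.SRL.Geo1
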