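import Mathlib
import Pool.Agent.Helper47.SizeRamsey.Paths

/-!
Linear size-Ramsey number of grids: the geometry of levels (abstract structure).

Levels: `0` (base cubes), `1, ..., top` (processed levels), `top + 1` (the whole box).
`cub l c` is the cube of level `l` containing the cell `c`; `ap j c = some (cub j c)` for the
processed levels `1 ≤ j ≤ top`, `none` for the others. A level `j` is *active* on the cube of
level `l < j` of the cell `c0` if `ap j` is not constant on (the cells of the box in) this cube.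
-/

set_option autoImplicit false
set_option linter.unusedSectionVars false
set_option linter.unusedVariables false

namespace Pool.Agent.SRL

open Finset
open Pool.Agent.Helper47.SizeRamsey

/-- The (index vectors of the) cubes of one level. -/
abbrev Cub (d : ℕ) : Type := Fin d → ℤ

/-- Level `j` is active on the cube of level `l` that contains `c0`. -/
def Act {d n : ℕ} (cub : ℕ → (Fin d → Fin n) → Cub d) (ap : ℕ → (Fin d → Fin n) → Option (Cub d))
    (l : ℕ) (c0 : Fin d → Fin n) (j : ℕ) : Prop :=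
  ∃ c c', cub l c = cub l c0 ∧ cub l c' = cub l c0 ∧ ap j c ≠ ap j c'

/-- The geometry of levels. `B` is the set of classes, `kap` the colouring of the cubes. -/
structure Geo (d h N n : ℕ) (B : Type) where
  top : ℕ
  cub : ℕ → (Fin d → Fin n) → Cub d
  ap : ℕ → (Fin d → Fin n) → Option (Cub d)
  kap : ℕ → Cub d → B
  ap_zero : ∀ c, ap 0 c = none
  ap_top : ∀ j c, top < j → ap j c = none
  ap_eq : ∀ j c, 1 ≤ j → j ≤ top → ap j c = some (cub j c)
  ap_some : ∀ j c u, ap j c = some u → cub j c = u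
  cub_top : ∀ c c', cub (top + 1) c = cub (top + 1) c'
  /-- (L4) -/
  transfer : ∀ l k, l ≤ k → k ≤ top + 1 → ∀ c0 c, cub l c = cub l c0 →
    ∃ c', cub l c' = cub l c0 ∧ cub k c' = cub k c0 ∧ ∀ j, k < j → ap j c' = ap j c
  /-- at most `d` active levels -/
  act_card : ∀ l c0, {j | l < j ∧ Act cub ap l c0 j}.ncard ≤ d
  /-- (G2) among `h` consecutive levels one is full -/
  block : ∀ l, l + h ≤ top → ∀ c0, ∃ j, l < j ∧ j ≤ l + h ∧
    ∃ u, ∀ c, cub l c = cub l c0 → ap j c = some u
  vis_card : ∀ l j, l < j → j ≤ top → ∀ c0,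
    {u | ∃ c, cub l c = cub l c0 ∧ cub j c = u}.ncard ≤ 2 ^ d
  /-- the class of a cube is not the class of a visible leaf of an active level -/
  kap_act : ∀ l j, l < j → ∀ c0 c v, Act cub ap l c0 j → cub l c = cub l c0 → ap j c = some v →
    kap l (cub l c0) ≠ kap j v
  /-- visible cubes of the same level have different classes -/
  kap_same : ∀ l j, l < j → ∀ c c' u u', cub l c = cub l c' → ap j c = some u →
    ap j c' = some u' → kap j u = kap j u' → u = u'
  /-- number of level `l` cubes meeting a level `k` cube -/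
  card_cub : ∀ l k, l ≤ k → k ≤ l + h → k ≤ top + 1 → ∀ c0,
    {u | ∃ c, cub k c = cub k c0 ∧ cub l c = u}.ncard ≤ N
  /-- number of cells of a low level cube -/
  card_cell : ∀ k, k ≤ h → k ≤ top + 1 → ∀ c0, {c | cub k c = cub k c0}.ncard ≤ N
  /-- adjacent cells -/
  adj : ∀ c c', (gridGraph d n).Adj c c' → (∀ j, ap j c = ap j c') ∨
    (cub 0 c = cub 0 c' ∧ ∃ j, (∀ i, i ≠ j → ap i c = ap i c') ∧
      ∃ u u', u ≠ u' ∧ ap j c = some u ∧ ap j c' = some u')

namespace Geo

variable {d h N n : ℕ} {B : Type} (E : Geo d h N n B)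

theorem transfer_act {l k : ℕ} (hlk : l ≤ k) (hk : k ≤ E.top + 1) {c0 : Fin d → Fin n} {j : ℕ}
    (hj : k < j) (ha : Act E.cub E.ap l c0 j) : Act E.cub E.ap k c0 j := by
  obtain ⟨c, c', h1, h2, h3⟩ := ha
  obtain ⟨e, _, he2, he3⟩ := E.transfer l k hlk hk c0 c h1
  obtain ⟨e', _, he2', he3'⟩ := E.transfer l k hlk hk c0 c' h2
  exact ⟨e, e', he2, he2', by rw [he3 j hj, he3' j hj]; exact h3⟩

/-- the activity depends only on the cube -/
theorem act_congr {l : ℕ} {c0 c1 : Fin d → Fin n} (h01 : E.cub l c0 = E.cub l c1) {j : ℕ}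
    (ha : Act E.cub E.ap l c0 j) : Act E.cub E.ap l c1 j := by
  obtain ⟨c, c', h1, h2, h3⟩ := ha
  exact ⟨c, c', h1.trans h01, h2.trans h01, h3⟩

theorem act_le_top {l : ℕ} {c0 : Fin d → Fin n} {j : ℕ}
    (ha : Act E.cub E.ap l c0 j) : 1 ≤ j ∧ j ≤ E.top := by
  obtain ⟨c, c', h1, h2, h3⟩ := ha
  constructor
  · by_contra h0
    have : j = 0 := by omega
    subst this
    exact h3 (by rw [E.ap_zero, E.ap_zero])
  · by_contra h0
    exact h3 (by rw [E.ap_top j _ (by omega), E.ap_top j _ (by omega)])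

/-- (G3) a cube applied at a cell of `K` and a visible leaf of a coarser active level have
different classes -/
theorem kap_lt {l i j : ℕ} (hli : l ≤ i) (hij : i < j) {c0 c c' : Fin d → Fin n} {u v : Cub d}
    (ha : Act E.cub E.ap l c0 j) (hc : E.cub l c = E.cub l c0) (hu : E.cub i c = u)
    (hc' : E.cub l c' = E.cub l c0) (hv : E.ap j c' = some v) : E.kap i u ≠ E.kap j v := by
  have hjt := (E.act_le_top ha).2
  have ha1 : Act E.cub E.ap l c j := E.act_congr hc.symm ha
  have ha2 : Act E.cub E.ap i c j := E.transfer_act hli (by omega) hij ha1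
  obtain ⟨e, _, he2, he3⟩ := E.transfer l i hli (by omega) c c' (hc'.trans hc.symm)
  rw [← hu]
  exact E.kap_act i j hij c e v ha2 he2 (by rw [he3 j hij]; exact hv)

end Geo

/-- Target of the geometry part. -/
def GeoThm (d : ℕ) : Prop :=
  ∃ (h N : ℕ) (D : ℕ), 1 ≤ h ∧ 1 ≤ N ∧ 0 < D ∧ ∀ t : ℕ, Nonempty (Geo d h N (2 ^ t) (Fin D))

end Pool.Agent.SRL
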