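import Mathlib
import Pool.Agent.SRL.GeoDefs
import Pool.Agent.SRL.Geo1

/-!
Geometry of levels in dimension `d`: construction of a `Geo`.
-/

set_option autoImplicit false
set_option linter.unusedVariables false
set_option linter.unusedSectionVars false

namespace Pool.Agent.SRL.GeoC

open Finset Geo1
open Pool.Agent.Helper47.SizeRamsey

variable (top : ℕ) {d n : ℕ}

/-- cube of level `l` -/
def cub (l : ℕ) (c : Fin d → Fin n) : Cub d := fun a => idx l ((c a : ℕ) : ℤ)

open Classical in
/-- applied cube -/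
noncomputable def ap (j : ℕ) (c : Fin d → Fin n) : Option (Cub d) :=
  if 1 ≤ j ∧ j ≤ top then some (cub j c) else none

theorem ap_congr (j : ℕ) (c c' : Fin d → Fin n)
    (h : (1 ≤ j ∧ j ≤ top) → ∀ a, idx j ((c a : ℕ) : ℤ) = idx j ((c' a : ℕ) : ℤ)) :
    ap top j c = ap top j c' := by
  unfold ap
  by_cases h1 : 1 ≤ j ∧ j ≤ top
  · rw [if_pos h1, if_pos h1]
    congr 1
    funext a
    exact h h1 a
  · rw [if_neg h1, if_neg h1]

theorem ap_zero (c : Fin d → Fin n) : ap top 0 c = none := by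
  unfold ap; rw [if_neg]; rintro ⟨h, _⟩; omega

theorem ap_top (j : ℕ) (c : Fin d → Fin n) (h : top < j) : ap top j c = none := by
  unfold ap; rw [if_neg]; rintro ⟨_, h⟩; omega

theorem ap_eq (j : ℕ) (c : Fin d → Fin n) (h1 : 1 ≤ j) (h2 : j ≤ top) :
    ap top j c = some (cub j c) := by
  unfold ap; rw [if_pos ⟨h1, h2⟩]

theorem ap_some (j : ℕ) (c : Fin d → Fin n) (u : Cub d) (h : ap top j c = some u) :
    cub j c = u := by
  unfold ap at h
  split_ifs at h with h1
  exact Option.some.inj h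

theorem cub_top (hn : (n : ℤ) ≤ 2 ^ (top + 1)) (c c' : Fin d → Fin n) :
    cub (top + 1) c = cub (top + 1) c' := by
  have h : ∀ t : Fin n, idx (top + 1) ((t : ℕ) : ℤ) = 0 := by
    intro t
    unfold idx
    apply Int.ediv_eq_zero_of_lt (by positivity)
    have : ((t : ℕ) : ℤ) < (n : ℤ) := by exact_mod_cast t.2
    have h2 : (2 : ℤ) ^ (top + 1 + 1) = 2 * 2 ^ (top + 1) := by rw [pow_succ _ (top + 1)]; ring
    linarith
  funext a
  unfold cub
  rw [h, h]

theorem transfer (l k : ℕ) (hlk : l ≤ k) (c0 c : Fin d → Fin n)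
    (hc : cub l c = cub l c0) :
    ∃ c' : Fin d → Fin n, cub l c' = cub l c0 ∧ cub k c' = cub k c0 ∧
      ∀ j, k < j → ap top j c' = ap top j c := by
  classical
  have hca : ∀ a, idx l ((c a : ℕ) : ℤ) = idx l ((c0 a : ℕ) : ℤ) := fun a => congrFun hc a
  obtain ⟨f, hf1, hf2⟩ : ∃ f : Fin d → Fin n,
      (∀ a, idx k ((c a : ℕ) : ℤ) = idx k ((c0 a : ℕ) : ℤ) → f a = c a) ∧
      (∀ a, idx k ((c a : ℕ) : ℤ) ≠ idx k ((c0 a : ℕ) : ℤ) → f a = c0 a) :=
    ⟨fun a => if idx k ((c a : ℕ) : ℤ) = idx k ((c0 a : ℕ) : ℤ) then c a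
      else c0 a, fun a h => if_pos h, fun a h => if_neg h⟩
  refine ⟨f, ?_, ?_, ?_⟩
  · funext a
    show idx l _ = idx l _
    by_cases h : idx k ((c a : ℕ) : ℤ) = idx k ((c0 a : ℕ) : ℤ)
    · rw [hf1 a h]; exact hca a
    · rw [hf2 a h]
  · funext a
    show idx k _ = idx k _
    by_cases h : idx k ((c a : ℕ) : ℤ) = idx k ((c0 a : ℕ) : ℤ)
    · rw [hf1 a h]; exact h
    · rw [hf2 a h]
  · intro j hj
    apply ap_congr
    rintro ⟨hj1, hj2⟩ a
    by_cases h : idx k ((c a : ℕ) : ℤ) = idx k ((c0 a : ℕ) : ℤ)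
    · rw [hf1 a h]
    · rw [hf2 a h]
      rcases transfer1 l k hlk _ _ (hca a) with h' | h'
      · exact absurd h' h
      · exact h' j hj

/-- centre of the interval of `c0` in the coordinate `a` -/
def ctr (l : ℕ) (c0 : Fin d → Fin n) (a : Fin d) : ℤ := cen l (idx l ((c0 a : ℕ) : ℤ))

theorem act_crit {l j : ℕ} (hlj : l < j) {c0 : Fin d → Fin n}
    (h : Act cub (ap top) l c0 j) :
    (1 ≤ j ∧ j ≤ top) ∧ ∃ a, crit j (ctr l c0 a) := by
  obtain ⟨c, c', h1, h2, h3⟩ := h
  have hj : 1 ≤ j ∧ j ≤ top := by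
    refine ⟨by omega, ?_⟩
    by_contra hh
    exact h3 (by rw [ap_top top j _ (by omega), ap_top top j _ (by omega)])
  refine ⟨hj, ?_⟩
  by_contra hno
  push Not at hno
  apply h3
  apply ap_congr
  intro _ a
  have e1 : idx l ((c a : ℕ) : ℤ) = idx l ((c0 a : ℕ) : ℤ) := congrFun h1 a
  have e2 : idx l ((c' a : ℕ) : ℤ) = idx l ((c0 a : ℕ) : ℤ) := congrFun h2 a
  apply idx_const' l j hlj _ _ (e1.trans e2.symm)
  rw [e1]
  exact hno a

theorem act_card (l : ℕ) (c0 : Fin d → Fin n) :
    {j | l < j ∧ Act cub (ap top) l c0 j}.ncard ≤ d := by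
  classical
  rcases Set.eq_empty_or_nonempty {j | l < j ∧ Act cub (ap top) l c0 j} with hE | hE
  · rw [hE]; simp
  have hex : ∀ j ∈ {j | l < j ∧ Act cub (ap top) l c0 j},
      ∃ a, crit j (ctr l c0 a) := fun j hj => (act_crit top hj.1 hj.2).2
  obtain ⟨j0, hj0⟩ := hE
  have : Nonempty (Fin d) := ⟨(hex j0 hj0).choose⟩
  choose! f hf using hex
  have h1 : Set.InjOn f {j | l < j ∧ Act cub (ap top) l c0 j} := by
    intro i hi j hj hij
    have b1 := hf i hi
    have b2 := hf j hj
    rw [hij] at b1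
    exact crit_inj _ _ _ b1 b2
  have h2 := Set.ncard_le_ncard_of_injOn f (fun a _ => Set.mem_univ _) h1 Set.finite_univ
  rw [Set.ncard_univ, Nat.card_eq_fintype_card, Fintype.card_fin] at h2
  exact h2

theorem block (l : ℕ) (hl : l + (d + 1) ≤ top) (c0 : Fin d → Fin n) :
    ∃ j, l < j ∧ j ≤ l + (d + 1) ∧
      ∃ u, ∀ c : Fin d → Fin n, cub l c = cub l c0 → ap top j c = some u := by
  classical
  by_contra hno
  push Not at hno
  have hex : ∀ j ∈ Finset.Ioc l (l + (d + 1)), ∃ a, crit j (ctr l c0 a) := by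
    intro j hj
    rw [Finset.mem_Ioc] at hj
    by_contra hc
    push Not at hc
    obtain ⟨c, h1, h2⟩ := hno j hj.1 hj.2 (cub j c0)
    apply h2
    rw [ap_eq top j c (by omega) (by omega)]
    congr 1
    funext a
    have e1 : idx l ((c a : ℕ) : ℤ) = idx l ((c0 a : ℕ) : ℤ) := congrFun h1 a
    apply idx_const' l j hj.1 _ _ e1
    rw [e1]
    exact hc a
  have : Nonempty (Fin d) := ⟨(hex (l + 1) (by rw [Finset.mem_Ioc]; omega)).choose⟩
  choose! f hf using hex
  have hcard : (Finset.univ : Finset (Fin d)).card < (Finset.Ioc l (l + (d + 1))).card := by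
    rw [Finset.card_univ, Fintype.card_fin, Nat.card_Ioc]; omega
  obtain ⟨i, hi, j, hj, hij, hfij⟩ := Finset.exists_ne_map_eq_of_card_lt_of_maps_to hcard
    (fun a _ => Finset.mem_univ (f a))
  apply hij
  have b1 := hf i hi
  have b2 := hf j hj
  rw [hfij] at b1
  exact crit_inj _ _ _ b1 b2

/-- the two possible values of the index -/
theorem cub_two (l j : ℕ) (hlj : l < j) (c0 c : Fin d → Fin n)
    (h : cub l c = cub l c0) (a : Fin d) :
    cub j c a = (ctr l c0 a + 2 ^ j) / 2 ^ (j + 1) ∨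
      cub j c a = (ctr l c0 a + 2 ^ j) / 2 ^ (j + 1) - 1 := by
  have e1 : idx l ((c a : ℕ) : ℤ) = idx l ((c0 a : ℕ) : ℤ) := congrFun h a
  have := idx_two l j hlj ((c a : ℕ) : ℤ)
  rw [e1] at this
  exact this

theorem vis_card (l j : ℕ) (hlj : l < j) (c0 : Fin d → Fin n) :
    {u | ∃ c : Fin d → Fin n, cub l c = cub l c0 ∧ cub j c = u}.ncard ≤ 2 ^ d := by
  classical
  set S : Finset (Cub d) := Fintype.piFinset (fun a =>
    ({(ctr l c0 a + 2 ^ j) / 2 ^ (j + 1),
      (ctr l c0 a + 2 ^ j) / 2 ^ (j + 1) - 1} : Finset ℤ)) with hS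
  have h1 : {u | ∃ c : Fin d → Fin n, cub l c = cub l c0 ∧
      cub j c = u} ⊆ (S : Set (Cub d)) := by
    rintro u ⟨c, hc, rfl⟩
    rw [hS, Finset.mem_coe, Fintype.mem_piFinset]
    intro a
    rw [Finset.mem_insert, Finset.mem_singleton]
    exact cub_two l j hlj c0 c hc a
  have h2 := Set.ncard_le_ncard h1 (Finset.finite_toSet S)
  rw [Set.ncard_coe_finset] at h2
  refine h2.trans ?_
  rw [hS, Fintype.card_piFinset]
  calc ∏ a, ({(ctr l c0 a + 2 ^ j) / 2 ^ (j + 1),
      (ctr l c0 a + 2 ^ j) / 2 ^ (j + 1) - 1} : Finset ℤ).card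
      ≤ ∏ _a : Fin d, 2 := Finset.prod_le_prod' (fun a _ => Finset.card_le_two)
    _ = 2 ^ d := by simp

theorem card_cub (l k : ℕ) (hlk : l ≤ k) (hkl : k ≤ l + (d + 1)) (c0 : Fin d → Fin n) :
    {u | ∃ c : Fin d → Fin n, cub k c = cub k c0 ∧ cub l c = u}.ncard ≤
      (2 ^ (d + 2)) ^ d := by
  classical
  set A : Fin d → ℤ := fun a => (idx k ((c0 a : ℕ) : ℤ) * 2 ^ (k + 1) +
    (2 ^ l - 2 ^ k)) / 2 ^ (l + 1) with hA
  set S : Finset (Cub d) := Fintype.piFinset (fun a =>
    Finset.Icc (A a) (A a + 2 ^ (k - l))) with hS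
  have h1 : {u | ∃ c : Fin d → Fin n, cub k c = cub k c0 ∧
      cub l c = u} ⊆ (S : Set (Cub d)) := by
    rintro u ⟨c, hc, rfl⟩
    rw [hS, Finset.mem_coe, Fintype.mem_piFinset]
    intro a
    rw [Finset.mem_Icc]
    exact idx_range l k hlk _ _ (congrFun hc a)
  have h2 := Set.ncard_le_ncard h1 (Finset.finite_toSet S)
  rw [Set.ncard_coe_finset] at h2
  refine h2.trans ?_
  rw [hS, Fintype.card_piFinset]
  calc ∏ a, (Finset.Icc (A a) (A a + 2 ^ (k - l))).card
      ≤ ∏ _a : Fin d, 2 ^ (d + 2) := by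
        refine Finset.prod_le_prod' (fun a _ => ?_)
        rw [Int.card_Icc]
        have : (A a + 2 ^ (k - l) + 1 - A a).toNat = 2 ^ (k - l) + 1 := by
          have : A a + 2 ^ (k - l) + 1 - A a = ((2 ^ (k - l) + 1 : ℕ) : ℤ) := by push_cast; ring
          rw [this, Int.toNat_natCast]
        rw [this]
        have h3 : 2 ^ (k - l) ≤ 2 ^ (d + 1) := Nat.pow_le_pow_right (by norm_num) (by omega)
        have h4 : 2 ^ (d + 2) = 2 ^ (d + 1) * 2 := pow_succ 2 (d + 1)
        have h5 : 1 ≤ 2 ^ (d + 1) := Nat.one_le_pow _ _ (by norm_num)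
        omega
    _ = (2 ^ (d + 2)) ^ d := by simp

theorem card_cell (k : ℕ) (hk : k ≤ d + 1) (c0 : Fin d → Fin n) :
    {c : Fin d → Fin n | cub k c = cub k c0}.ncard ≤ (2 ^ (d + 2)) ^ d := by
  classical
  set A : Fin d → ℤ := fun a => idx k ((c0 a : ℕ) : ℤ) * 2 ^ (k + 1) - 2 ^ k with hA
  set S : Finset (Cub d) := Fintype.piFinset (fun a =>
    Finset.Ico (A a) (A a + 2 ^ (k + 1))) with hS
  have h1 := Set.ncard_le_ncard_of_injOn
    (s := {c : Fin d → Fin n | cub k c = cub k c0})
    (t := (S : Set (Cub d))) (fun c a => ((c a : ℕ) : ℤ)) (by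
      intro c hc
      rw [hS, Finset.mem_coe, Fintype.mem_piFinset]
      intro a
      rw [Finset.mem_Ico]
      exact cell_range k _ _ (congrFun hc a)) (by
      intro c _ c' _ h
      funext a
      have := congrFun h a
      simp only [Nat.cast_inj] at this
      exact Fin.ext this) (Finset.finite_toSet S)
  rw [Set.ncard_coe_finset] at h1
  refine h1.trans ?_
  rw [hS, Fintype.card_piFinset]
  calc ∏ a, (Finset.Ico (A a) (A a + 2 ^ (k + 1))).card
      ≤ ∏ _a : Fin d, 2 ^ (d + 2) := by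
        refine Finset.prod_le_prod' (fun a _ => ?_)
        rw [Int.card_Ico]
        have : (A a + 2 ^ (k + 1) - A a).toNat = 2 ^ (k + 1) := by
          have : A a + 2 ^ (k + 1) - A a = ((2 ^ (k + 1) : ℕ) : ℤ) := by push_cast; ring
          rw [this, Int.toNat_natCast]
        rw [this]
        exact Nat.pow_le_pow_right (by norm_num) (by omega)
    _ = (2 ^ (d + 2)) ^ d := by simp

theorem adj (hn : (n : ℤ) ≤ 2 ^ (top + 1)) (c c' : Fin d → Fin n)
    (h : (gridGraph d n).Adj c c') :
    (∀ j, ap top j c = ap top j c') ∨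
    (cub 0 c = cub 0 c' ∧ ∃ j, (∀ i, i ≠ j → ap top i c = ap top i c') ∧
      ∃ u u', u ≠ u' ∧ ap top j c = some u ∧ ap top j c' = some u') := by
  classical
  have key : ∀ c c' : Fin d → Fin n, ∀ a, (∀ b, b ≠ a → c b = c' b) →
      ((c a : ℕ) + 1 = c' a) → (∀ j, ap top j c = ap top j c') ∨
      (cub 0 c = cub 0 c' ∧ ∃ j, (∀ i, i ≠ j → ap top i c = ap top i c') ∧
      ∃ u u', u ≠ u' ∧ ap top j c = some u ∧ ap top j c' = some u') := by
    intro c c' a hb ha
    have ha' : (((c' a : ℕ) : ℕ) : ℤ) = ((c a : ℕ) : ℤ) + 1 := by exact_mod_cast ha.symm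
    have hcong : ∀ j, ((1 ≤ j ∧ j ≤ top) → idx j ((c a : ℕ) : ℤ) =
        idx j (((c a : ℕ) : ℤ) + 1)) → ap top j c = ap top j c' := by
      intro j hz
      apply ap_congr
      intro hj b
      by_cases hba : b = a
      · subst hba; rw [ha']; exact hz hj
      · rw [hb b hba]
    by_cases hall : ∀ j, ap top j c = ap top j c'
    · left; exact hall
    right
    push Not at hall
    obtain ⟨j, hj⟩ := hall
    have hj1 : (1 ≤ j ∧ j ≤ top) ∧ idx j ((c a : ℕ) : ℤ) ≠ idx j (((c a : ℕ) : ℤ) + 1) := by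
      by_contra hh
      apply hj
      apply hcong
      intro hj1
      by_contra hz
      exact hh ⟨hj1, hz⟩
    have hcrit : crit j (((c a : ℕ) : ℤ) + 1) := by
      by_contra hc
      exact hj1.2 (idx_step j _ hc)
    have hoth : ∀ i, i ≠ j → idx i ((c a : ℕ) : ℤ) = idx i (((c a : ℕ) : ℤ) + 1) := by
      intro i hij
      apply idx_step
      intro hc
      exact hij (crit_inj _ _ _ hc hcrit)
    refine ⟨?_, j, ?_, cub j c, cub j c', ?_, ap_eq top j c hj1.1.1 hj1.1.2,
      ap_eq top j c' hj1.1.1 hj1.1.2⟩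
    · funext b
      show idx 0 _ = idx 0 _
      by_cases hba : b = a
      · subst hba; rw [ha']; exact hoth 0 (by omega)
      · rw [hb b hba]
    · intro i hij
      apply hcong
      intro _
      exact hoth i hij
    · intro hcc
      apply hj1.2
      have := congrFun hcc a
      rw [← ha']
      exact this
  obtain ⟨a, hb, ha | ha⟩ := h
  · exact key c c' a hb ha
  · rcases key c' c a (fun b hba => (hb b hba).symm) ha with h1 | ⟨h1, j, h2, u, u', h3, h4, h5⟩
    · left; exact fun j => (h1 j).symm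
    · right
      exact ⟨h1.symm, j, fun i hi => (h2 i hi).symm, u', u, h3.symm, h5, h4⟩

/-! ### The colouring of the cubes -/

/-- the visible leaves of the active levels of the cube `K` of level `l` -/
def Sset (l : ℕ) (n : ℕ) (K : Cub d) : Set (ℕ × Cub d) :=
  {x | l < x.1 ∧ ∃ c0 c : Fin d → Fin n, cub l c0 = K ∧
    Act cub (ap top) l c0 x.1 ∧ cub l c = K ∧ ap top x.1 c = some x.2}

theorem Sset_card (l n : ℕ) (K : Cub d) :
    (Sset top l n K).Finite ∧ (Sset top l n K).ncard ≤ d * 2 ^ d := by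
  classical
  by_cases hK : ∃ c0 : Fin d → Fin n, cub l c0 = K
  · obtain ⟨c0, hc0⟩ := hK
    have hAfin : {j | l < j ∧ Act cub (ap top) l c0 j}.Finite := by
      refine (Set.finite_Iic top).subset ?_
      intro j hj
      exact (act_crit top hj.1 hj.2).1.2
    have hVfin : ∀ j, {u | ∃ c : Fin d → Fin n, cub l c = cub l c0 ∧ cub j c = u}.Finite := by
      intro j
      refine (Set.finite_range (fun c : Fin d → Fin n => cub j c)).subset ?_
      rintro u ⟨c, _, rfl⟩
      exact ⟨c, rfl⟩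
    set A := hAfin.toFinset with hA
    set T := A.biUnion (fun j => ((hVfin j).toFinset).image (fun u => (j, u))) with hT
    have hsub : Sset top l n K ⊆ (T : Set (ℕ × Cub d)) := by
      rintro ⟨j, u⟩ ⟨h1, c1, c, h2, h3, h4, h5⟩
      rw [hT, Finset.mem_coe, Finset.mem_biUnion]
      refine ⟨j, ?_, ?_⟩
      · rw [hA, Set.Finite.mem_toFinset]
        refine ⟨h1, ?_⟩
        obtain ⟨e1, e2, g1, g2, g3⟩ := h3
        exact ⟨e1, e2, g1.trans (h2.trans hc0.symm), g2.trans (h2.trans hc0.symm), g3⟩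
      · rw [Finset.mem_image]
        refine ⟨u, ?_, rfl⟩
        rw [Set.Finite.mem_toFinset]
        exact ⟨c, h4.trans hc0.symm, ap_some top j c u h5⟩
    refine ⟨(Finset.finite_toSet T).subset hsub, ?_⟩
    have h1 := Set.ncard_le_ncard hsub (Finset.finite_toSet T)
    rw [Set.ncard_coe_finset] at h1
    refine h1.trans ?_
    refine Finset.card_biUnion_le.trans ?_
    calc ∑ j ∈ A, (((hVfin j).toFinset).image (fun u => (j, u))).card
        ≤ ∑ _j ∈ A, 2 ^ d := by
          refine Finset.sum_le_sum (fun j hj => ?_)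
          refine Finset.card_image_le.trans ?_
          rw [← Set.ncard_eq_toFinset_card _ (hVfin j)]
          rw [hA, Set.Finite.mem_toFinset] at hj
          exact vis_card l j hj.1 c0
      _ = A.card * 2 ^ d := by rw [Finset.sum_const, smul_eq_mul]
      _ ≤ d * 2 ^ d := by
          refine Nat.mul_le_mul_right _ ?_
          rw [hA, ← Set.ncard_eq_toFinset_card _ hAfin]
          exact act_card top l c0
  · have : Sset top l n K = ∅ := by
      ext x
      constructor
      · rintro ⟨_, c0, _, h, _⟩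
        exact absurd ⟨c0, h⟩ hK
      · intro h; exact absurd h (Set.notMem_empty x)
    rw [this]
    exact ⟨Set.finite_empty, by simp⟩

/-- greedy colouring of the levels from coarse to fine -/
theorem exists_kap2 (n : ℕ) : ∀ k ≤ top, ∃ g : ℕ → Cub d → Fin (d * 2 ^ d + 1),
    ∀ l, top ≤ l + k → ∀ K, ∀ x ∈ Sset top l n K, g l K ≠ g x.1 x.2 := by
  classical
  intro k
  induction k with
  | zero =>
    intro _
    refine ⟨fun _ _ => 0, ?_⟩
    rintro l hl K ⟨j, u⟩ ⟨h1, c0, c, h2, h3, h4, h5⟩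
    exfalso
    have := (act_crit top h1 h3).1
    dsimp only at h1 this
    omega
  | succ k ih =>
    intro hk
    obtain ⟨g, hg⟩ := ih (by omega)
    have hex : ∀ K : Cub d, ∃ y : Fin (d * 2 ^ d + 1),
        ∀ x ∈ Sset top (top - (k + 1)) n K, y ≠ g x.1 x.2 := by
      intro K
      obtain ⟨hf, hcard⟩ := Sset_card top (top - (k + 1)) n K
      have h1 : (hf.toFinset.image (fun x => g x.1 x.2)).card <
          (Finset.univ : Finset (Fin (d * 2 ^ d + 1))).card := by
        rw [Finset.card_univ, Fintype.card_fin]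
        refine lt_of_le_of_lt Finset.card_image_le ?_
        rw [← Set.ncard_eq_toFinset_card _ hf]
        omega
      obtain ⟨y, _, hy⟩ := Finset.exists_mem_notMem_of_card_lt_card h1
      refine ⟨y, fun x hx hxy => hy ?_⟩
      rw [Finset.mem_image]
      exact ⟨x, (Set.Finite.mem_toFinset hf).2 hx, hxy.symm⟩
    choose y hy using hex
    refine ⟨Function.update g (top - (k + 1)) y, ?_⟩
    intro l hl K x hx
    have hx1 : l < x.1 := hx.1
    rw [Function.update_of_ne (show x.1 ≠ top - (k + 1) by omega)]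
    by_cases hlk : l = top - (k + 1)
    · subst hlk
      rw [Function.update_self]
      exact hy K x hx
    · rw [Function.update_of_ne hlk]
      exact hg l (by omega) K x hx

end Pool.Agent.SRL.GeoC

namespace Pool.Agent.SRL

open GeoC Geo1 in
/-- Existence of the geometry. -/
theorem geo_exists (d : ℕ) : GeoThm d := by
  classical
  set M := d * 2 ^ d + 1 with hM
  have hcard : Fintype.card ((Fin d → Bool) × Fin M) = 2 ^ d * M := by
    rw [Fintype.card_prod, Fintype.card_fun, Fintype.card_bool, Fintype.card_fin, Fintype.card_fin]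
  set eq : ((Fin d → Bool) × Fin M) ≃ Fin (2 ^ d * M) :=
    Fintype.equivFinOfCardEq hcard with heq
  refine ⟨d + 1, (2 ^ (d + 2)) ^ d, 2 ^ d * M, by omega,
    Nat.one_le_pow _ _ (by positivity), by positivity, ?_⟩
  intro t
  set top := t - 1 with htop
  have hn : (((2 ^ t : ℕ) : ℕ) : ℤ) ≤ 2 ^ (top + 1) := by
    push_cast
    exact pow_le_pow_right₀ (by norm_num) (by omega)
  obtain ⟨g, hg⟩ := exists_kap2 (d := d) top (2 ^ t) top le_rfl
  refine ⟨{ top := top
            cub := cub
            ap := ap top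
            kap := fun j u => eq (fun a => decide (Even (u a)), g j u)
            ap_zero := ap_zero top
            ap_top := ap_top top
            ap_eq := ap_eq top
            ap_some := ap_some top
            cub_top := cub_top top hn
            transfer := fun l k h1 _ c0 c h => transfer top l k h1 c0 c h
            act_card := act_card top
            block := block top
            vis_card := fun l j h1 _ c0 => vis_card l j h1 c0
            kap_act := ?_
            kap_same := ?_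
            card_cub := fun l k h1 h2 _ c0 => card_cub l k h1 h2 c0
            card_cell := fun k h1 _ c0 => card_cell k h1 c0
            adj := adj top hn }⟩
  · intro l j hlj c0 c v ha hc hv h
    have h1 := eq.injective h
    have h2 := (Prod.mk.inj h1).2
    exact hg l (by omega) _ (j, v) ⟨hlj, c0, c, rfl, ha, hc, hv⟩ h2
  · intro l j hlj c c' u u' hcc hu hu' h
    have h1 := eq.injective h
    have h2 := (Prod.mk.inj h1).1
    funext a
    have h3 : decide (Even (u a)) = decide (Even (u' a)) := congrFun h2 a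
    have h4 : Even (u a) ↔ Even (u' a) := by simpa using h3
    have k1 := cub_two l j hlj c c rfl a
    have k2 := cub_two l j hlj c c' hcc.symm a
    rw [ap_some top j c u hu] at k1
    rw [ap_some top j c' u' hu'] at k2
    rw [Int.even_iff, Int.even_iff] at h4
    omega

end Pool.Agent.SRL
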