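import Pool.Agent.SRL.GaugeGeo
import Pool.Agent.SRL.Geo

/-!
Composition: geometry + process + gauge = `DiscGaugeThm`.
-/

set_option autoImplicit false
set_option linter.unusedSectionVars false
set_option linter.unusedVariables false

namespace Pool.Agent.SRL

open Finset
open Pool.Agent.Helper47.SizeRamsey
open Pool.Agent.Helper64.Gauge (off supp low act off_self off_ne mem_supp supp_off low_mem low_le
  low_eq mem_act low_lt_of_mem_act)

namespace GG

variable {d h N n : ℕ} {B L Om : Type} [DecidableEq B] (E : Geo d h N n B)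
variable {S : CS B L Om} {root : Om} (W : WS S root) (sL : ℕ → Cub d → L)
variable {G : Type} [Group G] (gh : Om → B → L → G)

/-- word of a region -/
def wd (s : ℕ → Option (ℕ × Cub d)) : B → List L := E.lw sL (fun j => (s j).map Prod.snd)

/-- transport from `off a s` to `s` -/
noncomputable def AA (s : ℕ → Option (ℕ × Cub d)) (a : ℕ) : G :=
  (s a).elim 1 (fun x => (gh (W.state (wd E sL (off a s))) (E.kap a x.2)
    (W.sigma (wd E sL (off a s)) (E.kap a x.2) (sL a x.2)))⁻¹)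

theorem wd_reg (i : ℕ) (c : Fin d → Fin n) (O : Finset ℕ) :
    wd E sL (reg E i c O) = E.lw sL (prf E i c O) := by
  unfold wd
  congr 1
  funext j
  by_cases hh : i ≤ j ∧ j ≤ E.top ∧ j ∉ O
  · rw [reg_on E hh, (prf_some E).2 ⟨hh, rfl⟩]; rfl
  · rw [reg_off E hh]
    unfold prf
    rw [if_neg hh]
    rfl

theorem AA_reg {i : ℕ} {c : Fin d → Fin n} {V : St B L Om} (hV : IsWindow E W sL i c V)
    {O : Finset ℕ} {a : ℕ} (hO : OK E i c (insert a O)) (haO : a ∉ O) (ha1 : 1 ≤ a)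
    (hat : a ≤ E.top) (ha : a = i ∨ (i < a ∧ Act E.cub E.ap i c a)) :
    AA E W sL gh (reg E i c O) a =
      (gh (S.flipSet (TT E i c (insert a O)) V).1 (E.kap a (E.cub a c))
        ((S.flipSet (TT E i c (insert a O)) V).2 (E.kap a (E.cub a c))))⁻¹ := by
  have hia : i ≤ a := by rcases ha with h | h <;> omega
  have hon : reg E i c O a = some (a, E.cub a c) := reg_on E ⟨hia, hat, haO⟩
  obtain ⟨w1, w2⟩ := window_corner E W sL hV hO
  have hnot := (TT_insert E haO ha1 hat ha).2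
  rw [w1, w2 a ha1 hat ha c rfl (fun _ => rfl) hnot]
  unfold AA
  rw [hon, off_reg, wd_reg]
  rfl

/-- bi-invariant distance of a length -/
theorem biInv_dist {nrm : G → ℝ} (hn : BiInv nrm) :
    Pool.Agent.Helper64.Gauge.BiInv (fun g h : G => nrm (g * h⁻¹)) :=
  Pool.Agent.Helper64.SRL.biInv_of_length hn.one hn.inv hn.mul hn.conj

/-- the plaquettes -/
theorem plaquette {nrm : G → ℝ} (hn : BiInv nrm) {eps : ℝ} {BAD : Set (St B L Om)}
    (hF : Flat S gh nrm eps BAD)
    (hwin : ∀ l c, l ≤ E.top → ∃ V, V ∉ BAD ∧ IsWindow E W sL l c V)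
    (s : ℕ → Option (ℕ × Cub d)) (hs : Rz E s) (a : ℕ)
    (ha : a ∈ act (E.top + 1) (AC E) s) (b : ℕ)
    (hb : b = low (E.top + 1) s ∨ b ∈ act (E.top + 1) (AC E) s) (hab : a ≠ b) :
    nrm ((AA E W sL gh s b * AA E W sL gh (off b s) a) *
      (AA E W sL gh s a * AA E W sL gh (off a s) b)⁻¹) ≤ eps := by
  classical
  rcases hs with ⟨i, c, O, h1, h2, h3, rfl⟩ | rfl
  swap
  · rw [act_none] at ha
    exact absurd ha (Finset.notMem_empty _)
  have hiO : i ∉ O := fun h => absurd (h3 i h).1 (lt_irrefl _)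
  rw [low_reg E h2 hiO, mem_act_reg E h2 hiO] at hb
  rw [mem_act_reg E h2 hiO] at ha
  obtain ⟨haO, hia, hactA⟩ := ha
  have hat := (E.act_le_top hactA).2
  have hb' : b ∉ O ∧ 1 ≤ b ∧ b ≤ E.top ∧ (b = i ∨ (i < b ∧ Act E.cub E.ap i c b)) := by
    rcases hb with hb | ⟨hb1, hb2, hb3⟩
    · exact ⟨hb ▸ hiO, by omega, by omega, Or.inl hb⟩
    · exact ⟨hb1, by omega, (E.act_le_top hb3).2, Or.inr ⟨hb2, hb3⟩⟩
  obtain ⟨hbO, hb1, hbt, hbd⟩ := hb'
  have had : a = i ∨ (i < a ∧ Act E.cub E.ap i c a) := Or.inr ⟨hia, hactA⟩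
  have ha1 : 1 ≤ a := by omega
  obtain ⟨V, hVB, hV⟩ := hwin i c h2
  have hOK0 : OK E i c O := fun j hj => Or.inr (h3 j hj)
  have ok_ins : ∀ {O' : Finset ℕ} {x : ℕ}, OK E i c O' →
      (x = i ∨ (i < x ∧ Act E.cub E.ap i c x)) → OK E i c (insert x O') := by
    intro O' x hO' hx j hj
    rw [Finset.mem_insert] at hj
    rcases hj with rfl | hj
    · exact hx
    · exact hO' j hj
  have hOKb := ok_ins hOK0 hbd
  have hOKa := ok_ins hOK0 had
  have hOKab := ok_ins hOKb had
  have hOKba := ok_ins hOKa hbd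
  have ha_b : a ∉ insert b O := by
    rw [Finset.mem_insert]; rintro (h | h)
    · exact hab h
    · exact haO h
  have hb_a : b ∉ insert a O := by
    rw [Finset.mem_insert]; rintro (h | h)
    · exact hab h.symm
    · exact hbO h
  obtain ⟨t1, t2⟩ := TT_insert E ha_b ha1 hat had
  obtain ⟨t3, t4⟩ := TT_insert E hb_a hb1 hbt hbd
  obtain ⟨_, t6⟩ := TT_insert E hbO hb1 hbt hbd
  have hcomm : insert b (insert a O) = insert a (insert b O) := Finset.insert_comm b a O
  rw [hcomm] at t3 t4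
  have hkab : E.kap a (E.cub a c) ≠ E.kap b (E.cub b c) := by
    intro h
    apply t6
    rw [t1, ← h]
    exact Finset.mem_insert_self _ _
  have e1 := AA_reg E W sL gh hV hOKb hbO hb1 hbt hbd
  have e2 := AA_reg E W sL gh hV hOKab ha_b ha1 hat had
  have e3 := AA_reg E W sL gh hV hOKa haO ha1 hat had
  have e4 := AA_reg E W sL gh hV hOKba hb_a hb1 hbt hbd
  rw [off_reg, off_reg, e1, e2, e3, e4, hcomm, t1, t3]
  have hfl := hF V hVB (TT E i c (insert a (insert b O))) (E.kap a (E.cub a c))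
    (E.kap b (E.cub b c)) t2 t4 hkab
  set X := gh (S.flipSet (insert (E.kap a (E.cub a c)) (TT E i c (insert a (insert b O)))) V).1
    (E.kap b (E.cub b c)) ((S.flipSet (insert (E.kap a (E.cub a c))
      (TT E i c (insert a (insert b O)))) V).2 (E.kap b (E.cub b c))) with hX
  set Y := gh (S.flipSet (TT E i c (insert a (insert b O))) V).1 (E.kap a (E.cub a c))
    ((S.flipSet (TT E i c (insert a (insert b O))) V).2 (E.kap a (E.cub a c))) with hY
  set X' := gh (S.flipSet (insert (E.kap b (E.cub b c)) (TT E i c (insert a (insert b O)))) V).1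
    (E.kap a (E.cub a c)) ((S.flipSet (insert (E.kap b (E.cub b c))
      (TT E i c (insert a (insert b O)))) V).2 (E.kap a (E.cub a c))) with hX'
  set Y' := gh (S.flipSet (TT E i c (insert a (insert b O))) V).1 (E.kap b (E.cub b c))
    ((S.flipSet (TT E i c (insert a (insert b O))) V).2 (E.kap b (E.cub b c))) with hY'
  have e5 : X⁻¹ * Y⁻¹ * (X'⁻¹ * Y'⁻¹)⁻¹ =
      ((Y * X)⁻¹ * ((Y * X) * (Y' * X')⁻¹)⁻¹ * ((Y * X)⁻¹)⁻¹) := by group
  rw [e5, hn.conj, hn.inv]
  exact hfl

/-- the window does not depend on the cell of the cube -/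
theorem window_congr {i : ℕ} {c c' : Fin d → Fin n} {V : St B L Om}
    (hc : E.cub i c = E.cub i c') (hV : IsWindow E W sL i c V) : IsWindow E W sL i c' V := by
  have hfull : E.fullL i c = E.fullL i c' := by
    funext j
    have hA : Act E.cub E.ap i c j ↔ Act E.cub E.ap i c' j :=
      ⟨E.act_congr hc, E.act_congr hc.symm⟩
    unfold Geo.fullL
    by_cases hh : i < j ∧ ¬ Act E.cub E.ap i c j
    · rw [if_pos hh, if_pos ⟨hh.1, fun h => hh.2 (hA.2 h)⟩]
      by_contra hne
      exact hh.2 ⟨c, c', rfl, hc.symm, hne⟩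
    · rw [if_neg hh, if_neg (fun h => hh ⟨h.1, fun h' => h.2 (hA.1 h')⟩)]
  obtain ⟨v1, v2, v3⟩ := hV
  refine ⟨by rw [← hfull]; exact v1, ?_, ?_⟩
  · intro j e v hij ha he hv
    rw [← hfull]
    exact v2 j e v hij (E.act_congr hc.symm ha) (he.trans hc.symm) hv
  · intro hi
    rw [← hfull, ← hc]
    exact v3 hi

theorem fullL_congr {i : ℕ} {c c' : Fin d → Fin n} (hc : E.cub i c = E.cub i c') :
    E.fullL i c = E.fullL i c' := by
  funext j
  have hA : Act E.cub E.ap i c j ↔ Act E.cub E.ap i c' j :=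
    ⟨E.act_congr hc, E.act_congr hc.symm⟩
  unfold Geo.fullL
  by_cases hh : i < j ∧ ¬ Act E.cub E.ap i c j
  · rw [if_pos hh, if_pos ⟨hh.1, fun h => hh.2 (hA.2 h)⟩]
    by_contra hne
    exact hh.2 ⟨c, c', rfl, hc.symm, hne⟩
  · rw [if_neg hh, if_neg (fun h => hh ⟨h.1, fun h' => h.2 (hA.1 h')⟩)]

/-- words depend on the levels `1, ..., top` only -/
theorem lw_congr {p p' : ℕ → Option (Cub d)} (hp : ∀ j, 1 ≤ j → j ≤ E.top → p j = p' j) :
    E.lw sL p = E.lw sL p' :=
  lwr_congr E.top E.kap sL E.top le_rfl (fun j h1 h2 => hp j (by omega) h2)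

/-- the disc with the gauge -/
theorem main {nrm : G → ℝ} (hn : BiInv nrm) {eps : ℝ} {BAD : Set (St B L Om)}
    (hF : Flat S gh nrm eps BAD)
    (hwin : ∀ l c, l ≤ E.top → ∃ V, V ∉ BAD ∧ IsWindow E W sL l c V) :
    ∃ ga : (Fin d → Fin n) → G,
      ∀ c, ∃ V, V ∉ BAD ∧ ∃ T : Finset B,
        W.state (E.lw sL (fun j => E.ap j c)) = (S.flipSet T V).1 ∧
        ∀ c', (gridGraph d n).Adj c c' → ∃ T' : Finset B,
          W.state (E.lw sL (fun j => E.ap j c')) = (S.flipSet T' V).1 ∧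
          Near S gh nrm ((2 * (2 * (d : ℝ) ^ 2 + 3 * d)) * eps) V T T' (ga c) (ga c') := by
  classical
  -- frames of the regions
  obtain ⟨g, hg⟩ : ∃ g : (ℕ → Option (ℕ × Cub d)) → G, 0 ≤ eps →
      ∀ s, Rz E s → (supp (E.top + 1) s).Nonempty → ∀ b,
        (b = low (E.top + 1) s ∨ b ∈ act (E.top + 1) (AC E) s) →
        nrm ((AA E W sL gh s b * g (off b s)) * (g s)⁻¹) ≤ (2 * (d : ℝ) ^ 2 + 3 * d) * eps := by
    by_cases he : 0 ≤ eps
    · obtain ⟨g, hg⟩ := Pool.Agent.Helper64.Gauge.gauge (A := AA E W sL gh)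
        (D := fun g h : G => nrm (g * h⁻¹)) (biInv_dist hn) he (stars_geo E)
        (fun s hs a ha b hb hab => plaquette E W sL gh hn hF hwin s hs a ha b hb hab)
      exact ⟨g, fun _ => hg⟩
    · exact ⟨fun _ => 1, fun h => absurd h he⟩
  refine ⟨fun c => g (reg E 1 c ∅), ?_⟩
  intro c
  obtain ⟨V, hVB, hV⟩ := hwin 0 c (Nat.zero_le _)
  -- the profile of a cell
  have hcell : ∀ e : Fin d → Fin n, E.lw sL (fun j => E.ap j e) = E.lw sL (prf E 0 e ∅) := by
    intro e
    apply lw_congr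
    intro j h1 h2
    rw [E.ap_eq j e h1 h2, (prf_some E).2 ⟨⟨by omega, h2, by simp⟩, rfl⟩]
  have hOK : ∀ e, OK E 0 e ∅ := fun e j hj => absurd hj (Finset.notMem_empty _)
  refine ⟨V, hVB, TT E 0 c ∅, ?_, ?_⟩
  · rw [hcell]
    exact (window_corner E W sL hV (hOK c)).1.symm
  intro c' hadj
  rcases E.adj c c' hadj with hall | ⟨hc0, j, hoth, u, u', huu, hu, hu'⟩
  · refine ⟨TT E 0 c ∅, ?_, Or.inl ⟨rfl, ?_⟩⟩
    · have : E.lw sL (fun j => E.ap j c') = E.lw sL (fun j => E.ap j c) := by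
        congr 1; funext j; exact (hall j).symm
      rw [this, hcell]
      exact (window_corner E W sL hV (hOK c)).1.symm
    · show g (reg E 1 c' ∅) = g (reg E 1 c ∅)
      congr 1
      funext j
      by_cases hh : 1 ≤ j ∧ j ≤ E.top ∧ j ∉ (∅ : Finset ℕ)
      · rw [reg_on E hh, reg_on E hh]
        have := hall j
        rw [E.ap_eq j c hh.1 hh.2.1, E.ap_eq j c' hh.1 hh.2.1] at this
        rw [Option.some.inj this]
      · rw [reg_off E hh, reg_off E hh]
  · have hj := ap_range E hu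
    have hcu := E.ap_some j c u hu
    have hcu' := E.ap_some j c' u' hu'
    have hA : Act E.cub E.ap 0 c j := ⟨c, c', rfl, hc0.symm, by rw [hu, hu']; simpa using huu⟩
    have hA' : Act E.cub E.ap 0 c' j := E.act_congr hc0 hA
    have hV' := window_congr E W sL hc0 hV
    have hjd : j = 0 ∨ (0 < j ∧ Act E.cub E.ap 0 c j) := Or.inr ⟨by omega, hA⟩
    have hjd' : j = 0 ∨ (0 < j ∧ Act E.cub E.ap 0 c' j) := Or.inr ⟨by omega, hA'⟩
    have hOKj : OK E 0 c (insert j ∅) := by
      intro i hi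
      rw [Finset.mem_insert] at hi
      rcases hi with rfl | hi
      · exact hjd
      · exact absurd hi (Finset.notMem_empty _)
    have hOKj' : OK E 0 c' (insert j ∅) := by
      intro i hi
      rw [Finset.mem_insert] at hi
      rcases hi with rfl | hi
      · exact hjd'
      · exact absurd hi (Finset.notMem_empty _)
    obtain ⟨t1, t2⟩ := TT_insert E (Finset.notMem_empty j) hj.1 hj.2 hjd
    obtain ⟨t1', t2'⟩ := TT_insert E (Finset.notMem_empty j) hj.1 hj.2 hjd'
    rw [hcu] at t1 t2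
    rw [hcu'] at t1' t2'
    -- the two parents agree
    have hcub : ∀ i, 1 ≤ i → i ≤ E.top → i ≠ j → E.cub i c = E.cub i c' := by
      intro i h1 h2 h3
      have := hoth i h3
      rw [E.ap_eq i c h1 h2, E.ap_eq i c' h1 h2] at this
      exact Option.some.inj this
    have hprf : ∀ i, 1 ≤ i → i ≤ E.top →
        prf E 0 c (insert j ∅) i = prf E 0 c' (insert j ∅) i := by
      intro i h1 h2
      unfold prf
      by_cases hh : 0 ≤ i ∧ i ≤ E.top ∧ i ∉ insert j (∅ : Finset ℕ)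
      · rw [if_pos hh, if_pos hh, hcub i h1 h2 (fun h => hh.2.2 (h ▸ Finset.mem_insert_self _ _))]
      · rw [if_neg hh, if_neg hh]
    have hTP : TT E 0 c' (insert j ∅) = TT E 0 c (insert j ∅) := by
      unfold TT
      apply tset_congr
      · intro i h1 h2
        exact (hprf i (by omega) h2).symm
      · intro i _ _
        rw [fullL_congr E hc0]
    rw [hTP] at t1' t2'
    set P := TT E 0 c (insert j ∅) with hP
    have hkk : E.kap j u ≠ E.kap j u' := fun hk =>
      huu (E.kap_same 0 j (by omega) c c' u u' hc0 hu hu' hk)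
    refine ⟨TT E 0 c' ∅, ?_, Or.inr ⟨P, E.kap j u, E.kap j u', t2, t2', hkk, t1, t1', ?_⟩⟩
    · rw [hcell]
      exact (window_corner E W sL hV' (hOK c')).1.symm
    -- flatness gives `0 ≤ eps`
    have heps : 0 ≤ eps := by
      have := hF V hVB ∅ (E.kap j u) (E.kap j u') (Finset.notMem_empty _)
        (Finset.notMem_empty _) hkk
      exact (hn.nonneg _).trans this
    have hg := hg heps
    -- one child
    have child : ∀ (e : Fin d → Fin n) (v : Cub d), IsWindow E W sL 0 e V → E.cub j e = v →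
        Act E.cub E.ap 0 e j → TT E 0 e (insert j ∅) = P → E.kap j v ∉ P →
        nrm ((gh (S.flipSet P V).1 (E.kap j v) ((S.flipSet P V).2 (E.kap j v)))⁻¹ *
          g (reg E 1 e {j}) * (g (reg E 1 e ∅))⁻¹) ≤ (2 * (d : ℝ) ^ 2 + 3 * d) * eps := by
      intro e v hVe hv hAe hTe hvP
      have hjde : j = 0 ∨ (0 < j ∧ Act E.cub E.ap 0 e j) := Or.inr ⟨by omega, hAe⟩
      have hOKe : OK E 0 e (insert j ∅) := by
        intro i hi
        rw [Finset.mem_insert] at hi
        rcases hi with rfl | hi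
        · exact hjde
        · exact absurd hi (Finset.notMem_empty _)
      have h1t : 1 ≤ E.top := by omega
      have hR : Rz E (reg E 1 e ∅) :=
        Or.inl ⟨1, e, ∅, le_rfl, h1t, fun i hi => absurd hi (Finset.notMem_empty _), rfl⟩
      have hlow : low (E.top + 1) (reg E 1 e ∅) = 1 := low_reg E h1t (Finset.notMem_empty _)
      have hne : (supp (E.top + 1) (reg E 1 e ∅)).Nonempty :=
        ⟨1, (mem_supp_reg E).2 ⟨le_rfl, h1t, Finset.notMem_empty _⟩⟩
      have hb : j = low (E.top + 1) (reg E 1 e ∅) ∨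
          j ∈ act (E.top + 1) (AC E) (reg E 1 e ∅) := by
        rw [hlow, mem_act_reg E h1t (Finset.notMem_empty _)]
        rcases Nat.eq_or_lt_of_le hj.1 with h | h
        · exact Or.inl h.symm
        · exact Or.inr ⟨Finset.notMem_empty _, h, E.transfer_act (by omega) (by omega) h hAe⟩
      have := hg (reg E 1 e ∅) hR hne j hb
      rw [off_reg] at this
      have hAA : AA E W sL gh (reg E 1 e ∅) j =
          (gh (S.flipSet P V).1 (E.kap j v) ((S.flipSet P V).2 (E.kap j v)))⁻¹ := by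
        have hon : reg E 1 e ∅ j = some (j, E.cub j e) := reg_on E ⟨hj.1, hj.2, by simp⟩
        obtain ⟨w1, w2⟩ := window_corner E W sL hVe hOKe
        rw [hTe] at w1 w2
        have hw2 := w2 j hj.1 hj.2 hjde e rfl (fun _ => rfl) (by rw [hv]; exact hvP)
        rw [hv] at hw2
        rw [w1, hw2]
        unfold AA
        rw [hon, off_reg, wd_reg, hv]
        have hlw : E.lw sL (prf E 1 e (insert j ∅)) = E.lw sL (prf E 0 e (insert j ∅)) := by
          apply lw_congr
          intro i h1 h2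
          unfold prf
          by_cases hh : i ∉ insert j (∅ : Finset ℕ)
          · rw [if_pos ⟨h1, h2, hh⟩, if_pos ⟨by omega, h2, hh⟩]
          · rw [if_neg (fun h => hh h.2.2), if_neg (fun h => hh h.2.2)]
        rw [hlw]
        rfl
      rw [hAA] at this
      exact this
    have k1 := child c u hV hcu hA rfl t2
    have k2 := child c' u' hV' hcu' hA' hTP t2'
    have hregP : reg E 1 c' {j} = reg E 1 c {j} := by
      funext i
      by_cases hh : 1 ≤ i ∧ i ≤ E.top ∧ i ∉ ({j} : Finset ℕ)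
      · rw [reg_on E hh, reg_on E hh,
          hcub i hh.1 hh.2.1 (fun h => hh.2.2 (Finset.mem_singleton.2 h))]
      · rw [reg_off E hh, reg_off E hh]
    rw [hregP] at k2
    set x := gh (S.flipSet P V).1 (E.kap j u) ((S.flipSet P V).2 (E.kap j u)) with hx
    set y := gh (S.flipSet P V).1 (E.kap j u') ((S.flipSet P V).2 (E.kap j u')) with hy
    set gp := g (reg E 1 c {j}) with hgp
    show nrm ((x * g (reg E 1 c ∅))⁻¹ * (y * g (reg E 1 c' ∅))) ≤ _
    set gc := g (reg E 1 c ∅) with hgc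
    set gc' := g (reg E 1 c' ∅) with hgc'
    have m1 : nrm ((x * gc)⁻¹ * gp) ≤ (2 * (d : ℝ) ^ 2 + 3 * d) * eps := by
      have e1 : (x * gc)⁻¹ * gp = gc⁻¹ * (x⁻¹ * gp * gc⁻¹) * (gc⁻¹)⁻¹ := by group
      rw [e1, hn.conj]; exact k1
    have m2 : nrm ((y * gc')⁻¹ * gp) ≤ (2 * (d : ℝ) ^ 2 + 3 * d) * eps := by
      have e1 : (y * gc')⁻¹ * gp = gc'⁻¹ * (y⁻¹ * gp * gc'⁻¹) * (gc'⁻¹)⁻¹ := by group
      rw [e1, hn.conj]; exact k2
    have e3 : (x * gc)⁻¹ * (y * gc') = ((x * gc)⁻¹ * gp) * ((y * gc')⁻¹ * gp)⁻¹ := by group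
    rw [e3]
    have := hn.mul ((x * gc)⁻¹ * gp) ((y * gc')⁻¹ * gp)⁻¹
    rw [hn.inv] at this
    linarith

end GG

/-- Composition of geometry, process and gauge. -/
theorem discGauge_of (d : ℕ) (hGeo : GeoThm d) (hPr : ProcessThm) : DiscGaugeThm d := by
  obtain ⟨h, N, D, hh, hN, hD, hE⟩ := hGeo
  obtain ⟨lam1, del1, c1, l1, p1, p2, p3, hP⟩ := hPr d h N D hh hN hD
  refine ⟨D, lam1, del1, c1, 2 * (2 * (d : ℝ) ^ 2 + 3 * d), l1, 2, hD, p1, p2, p3,
    by positivity, le_rfl, ?_⟩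
  intro L Om _ _ _ S sgn hgap BAD hBAD G _ nrm hn gh eps hF t ht
  obtain ⟨E⟩ := hE t
  obtain ⟨root, W, sL, hwin, hload⟩ := hP (2 ^ t) (by positivity) E L Om S sgn hgap BAD hBAD ht
  obtain ⟨ga, hga⟩ := GG.main E W sL gh hn hF hwin
  exact ⟨fun c => W.state (E.lw sL (fun j => E.ap j c)), ga, hload, hga⟩

theorem discGauge (hPr : ProcessThm) (d : ℕ) : DiscGaugeThm d :=
  discGauge_of d (geo_exists d) hPr

end Pool.Agent.SRL
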