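import Pool.Agent.SRL.DSchemeThm

/-!
The scheme of a geometry of levels (rounds = pairs of a level and a class), and the process theorem
from Theorem D over an abstract scheme.
-/

set_option autoImplicit false
set_option linter.unusedSectionVars false
set_option linter.unusedVariables false

namespace Pool.Agent.SRL

open Finset

namespace GeoS

variable {d h N n D : ℕ} (E : Geo d h N n (Fin D))

/-- The cubes of the levels `0, ..., top`. -/
abbrev Cb : Type := {p : ℕ × Cub d // p.1 ≤ E.top ∧ ∃ c, E.cub p.1 c = p.2}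

/-- the cube of level `j` of the cell `c` -/
def mk (j : ℕ) (hj : j ≤ E.top) (c : Fin d → Fin n) : Cb E := ⟨(j, E.cub j c), hj, c, rfl⟩

open Classical in
/-- The scheme. -/
noncomputable def sch (hD : 0 < D) : Scheme (Fin D) (Cb E) (Fin d → Fin n) where
  cl r := ⟨r % D, Nat.mod_lt _ hD⟩
  R := E.top * D
  st K := (E.top - K.1.1) * D
  rd K := (E.top - K.1.1) * D + (E.kap K.1.1 K.1.2).val
  mem K c := E.cub K.1.1 c = K.1.2
  ap r c := if r < E.top * D ∧ (E.kap (E.top - r / D) (E.cub (E.top - r / D) c)).val = r % D then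
    some (mk E (E.top - r / D) (Nat.sub_le _ _) c) else none

variable {E} (hD : 0 < D)

theorem ap_iff {r : ℕ} {c : Fin d → Fin n} {u : Cb E} : (sch E hD).ap r c = some u ↔
    r < E.top * D ∧ u.1.1 = E.top - r / D ∧ E.cub u.1.1 c = u.1.2 ∧
      (E.kap u.1.1 u.1.2).val = r % D := by
  unfold sch
  simp only
  constructor
  · intro hh
    split_ifs at hh with h1
    have h2 := (Option.some.inj hh).symm
    subst h2
    exact ⟨h1.1, rfl, rfl, h1.2⟩
  · rintro ⟨h1, h2, h3, h4⟩
    rw [h2] at h3 h4
    rw [if_pos ⟨h1, by rw [h3]; exact h4⟩]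
    congr 1
    apply Subtype.ext
    exact Prod.ext h2.symm h3

theorem rd_div (K : Cb E) : (sch E hD).rd K / D = E.top - K.1.1 := by
  show ((E.top - K.1.1) * D + (E.kap K.1.1 K.1.2).val) / D = _
  rw [mul_comm, Nat.mul_add_div hD, Nat.div_eq_of_lt (E.kap K.1.1 K.1.2).isLt, add_zero]

theorem rd_mod (K : Cb E) : (sch E hD).rd K % D = (E.kap K.1.1 K.1.2).val := by
  show ((E.top - K.1.1) * D + (E.kap K.1.1 K.1.2).val) % D = _
  rw [mul_comm, Nat.mul_add_mod, Nat.mod_eq_of_lt (E.kap K.1.1 K.1.2).isLt]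

theorem lev_lt {r l : ℕ} (hr : r < (E.top - l) * D) : l < E.top - r / D := by
  have h1 : r / D < E.top - l := Nat.div_lt_of_lt_mul (by rw [mul_comm]; exact hr)
  generalize r / D = q at h1 ⊢
  omega

theorem ap_of {r : ℕ} (hr : r < E.top * D) (c : Fin d → Fin n) :
    E.ap (E.top - r / D) c = some (E.cub (E.top - r / D) c) := by
  have h1 : r / D < E.top := Nat.div_lt_of_lt_mul (by rw [mul_comm]; exact hr)
  generalize r / D = q at h1 ⊢
  exact E.ap_eq _ c (by omega) (by omega)

theorem st_le_top {r l : ℕ} (hr : r < (E.top - l) * D) : r < E.top * D :=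
  lt_of_lt_of_le hr (Nat.mul_le_mul_right D (Nat.sub_le _ _))

/-- a leaf is a visible cube of an active level -/
theorem leaf_act {K : Cb E} {r : ℕ} {u : Cb E} (hr : r < (sch E hD).st K)
    (hl : (sch E hD).Leaf K r u) : ∃ c, E.cub K.1.1 c = K.1.2 ∧
      Act E.cub E.ap K.1.1 c (E.top - r / D) ∧ u.1.1 = E.top - r / D ∧
      E.ap (E.top - r / D) c = some u.1.2 ∧ (E.kap (E.top - r / D) u.1.2).val = r % D := by
  obtain ⟨⟨c, hc, hcu⟩, c', hc', hcu'⟩ := hl
  obtain ⟨h1, h2, h3, h4⟩ := (ap_iff hD).1 hcu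
  have hc : E.cub K.1.1 c = K.1.2 := hc
  have hc' : E.cub K.1.1 c' = K.1.2 := hc'
  refine ⟨c, hc, ⟨c, c', rfl, hc'.trans hc.symm, fun he => hcu' ?_⟩, h2, ?_, ?_⟩
  · rw [ap_of h1, ap_of h1] at he
    have he := Option.some.inj he
    refine (ap_iff hD).2 ⟨h1, h2, ?_, h4⟩
    rw [h2] at h3 ⊢
    rw [← he, h3]
  · rw [ap_of h1, ← h2, h3]
  · rw [← h2]; exact h4

theorem valid (hh : 1 ≤ h) : (sch E hD).Valid (h * D) where
  win_pos := Nat.mul_pos hh hD
  ap_rd := by
    intro r c u hu
    obtain ⟨h1, h2, h3, h4⟩ := (ap_iff hD).1 hu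
    refine ⟨?_, h3, h1⟩
    show (E.top - u.1.1) * D + (E.kap u.1.1 u.1.2).val = r
    have h5 : r / D < E.top := Nat.div_lt_of_lt_mul (by rw [mul_comm]; exact h1)
    have h6 : E.top - u.1.1 = r / D := by omega
    rw [h6, h4]
    exact Nat.div_add_mod' r D
  st_le := fun K => Nat.le_add_right _ _
  rd_lt := by
    intro K _
    show (E.top - K.1.1) * D + (E.kap K.1.1 K.1.2).val < (E.top - K.1.1) * D + h * D
    have h1 := (E.kap K.1.1 K.1.2).isLt
    have h2 : D ≤ h * D := Nat.le_mul_of_pos_left D hh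
    omega
  dich := by
    intro K
    rcases Nat.eq_zero_or_pos K.1.1 with h0 | h0
    · right
      show (E.top - K.1.1) * D = E.top * D
      rw [h0, Nat.sub_zero]
    · left
      show (E.top - K.1.1) * D + (E.kap K.1.1 K.1.2).val < E.top * D
      have h1 := (E.kap K.1.1 K.1.2).isLt
      have h2 : (E.top - K.1.1 + 1) * D ≤ E.top * D := Nat.mul_le_mul_right D (by
        have := K.2.1
        omega)
      rw [Nat.add_mul, one_mul] at h2
      omega
  ne := fun K => K.2.2
  uniq := by
    intro K c c' r u u' hc hc' hr hu hu'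
    obtain ⟨h1, h2, h3, h4⟩ := (ap_iff hD).1 hu
    obtain ⟨_, h2', h3', h4'⟩ := (ap_iff hD).1 hu'
    have hc : E.cub K.1.1 c = K.1.2 := hc
    have hc' : E.cub K.1.1 c' = K.1.2 := hc'
    have hlt : K.1.1 < E.top - r / D := lev_lt (E := E) hr
    have hj : u'.1.1 = u.1.1 := h2'.trans h2.symm
    have h5 : u.1.2 = u'.1.2 := by
      refine E.kap_same K.1.1 (E.top - r / D) hlt c c' u.1.2 u'.1.2 (hc.trans hc'.symm) ?_ ?_ ?_
      · rw [ap_of h1, ← h2, h3]
      · rw [ap_of h1, ← h2', h3']
      · apply Fin.ext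
        rw [← h2, h4]
        rw [hj] at h4'
        exact h4'.symm
    exact Subtype.ext (Prod.ext hj.symm h5)
  cls := by
    intro K r u hr hl hK he
    obtain ⟨c, hc, ha, hu, hap, hk⟩ := leaf_act hD hr hl
    have hlt : K.1.1 < E.top - r / D := lev_lt (E := E) hr
    have h1 := E.kap_act K.1.1 _ hlt c c u.1.2 ha rfl hap
    apply h1
    apply Fin.ext
    rw [hc, hk, ← rd_mod hD K]
    exact (congrArg Fin.val he).symm
  app := by
    intro K r v hl r' c u hrr hr' hc hu he
    have hr : r < (sch E hD).st K := hrr.trans hr'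
    obtain ⟨c', hc', ha, hv, hap, hk⟩ := leaf_act hD hr hl
    obtain ⟨h1, h2, h3, h4⟩ := (ap_iff hD).1 hu
    have hc : E.cub K.1.1 c = K.1.2 := hc
    have he' : r % D = r' % D := congrArg Fin.val he
    have hle : r / D ≤ r' / D := Nat.div_le_div_right hrr.le
    rcases Nat.eq_or_lt_of_le hle with hq | hq
    · have e1 := Nat.div_add_mod' r D
      have e2 := Nat.div_add_mod' r' D
      rw [hq, he'] at e1
      omega
    · have hlt' : K.1.1 < E.top - r' / D := lev_lt (E := E) hr'
      refine E.kap_lt (l := K.1.1) (i := E.top - r' / D) (j := E.top - r / D) hlt'.le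
        (by omega) (c0 := c') (c := c) (c' := c') (u := u.1.2) (v := v.1.2) ha
        (hc.trans hc'.symm) (by rw [← h2]; exact h3) rfl hap ?_
      apply Fin.ext
      rw [hk, he', ← h4, h2]
  quiet := by
    intro c u r hu h1 h2
    obtain ⟨g1, g2, g3, g4⟩ := (ap_iff hD).1 hu
    by_contra hne
    obtain ⟨v, hv⟩ := Option.ne_none_iff_exists'.1 hne
    obtain ⟨k1, k2, k3, k4⟩ := (ap_iff hD).1 hv
    have h1 : (E.top - u.1.1) * D ≤ r := h1
    have hrd := (E.kap u.1.1 u.1.2).isLt
    have h2' : r < (E.top - u.1.1) * D + (E.kap u.1.1 u.1.2).val := h2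
    have hdiv : r / D = E.top - u.1.1 := by
      apply Nat.div_eq_of_lt_le h1
      rw [Nat.add_mul, one_mul]
      omega
    have hlev : v.1.1 = u.1.1 := by
      rw [k2, hdiv]
      have := u.2.1
      omega
    rw [hlev] at k3 k4
    rw [g3] at k3
    rw [← k3] at k4
    have e1 := Nat.div_add_mod' r D
    rw [hdiv, ← k4] at e1
    omega
  full := by
    intro K hK
    have hK : h * D ≤ (E.top - K.1.1) * D := hK
    have h1 : h ≤ E.top - K.1.1 := Nat.le_of_mul_le_mul_right hK hD
    obtain ⟨c0, hc0⟩ := K.2.2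
    have hKt := K.2.1
    obtain ⟨j, hj1, hj2, u, hu⟩ := E.block K.1.1 (by omega) c0
    have huc : E.cub j c0 = u := E.ap_some j c0 u (hu c0 rfl)
    have hjt : j ≤ E.top := by omega
    have hkl := (E.kap j u).isLt
    have hdiv : ((E.top - j) * D + (E.kap j u).val) / D = E.top - j := by
      rw [mul_comm, Nat.mul_add_div hD, Nat.div_eq_of_lt hkl, add_zero]
    have hmod : ((E.top - j) * D + (E.kap j u).val) % D = (E.kap j u).val := by
      rw [mul_comm, Nat.mul_add_mod, Nat.mod_eq_of_lt hkl]
    refine ⟨(E.top - j) * D + (E.kap j u).val, mk E j hjt c0, ?_, ?_, ?_⟩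
    · show (E.top - K.1.1) * D ≤ (E.top - j) * D + (E.kap j u).val + h * D
      have h3 : (E.top - K.1.1) * D ≤ (E.top - j + h) * D := Nat.mul_le_mul_right D (by omega)
      rw [Nat.add_mul] at h3
      omega
    · show (E.top - j) * D + (E.kap j u).val < (E.top - K.1.1) * D
      have h3 : (E.top - j + 1) * D ≤ (E.top - K.1.1) * D := Nat.mul_le_mul_right D (by omega)
      rw [Nat.add_mul, one_mul] at h3
      omega
    · intro c hc
      have hc : E.cub K.1.1 c = K.1.2 := hc
      have h4 := hu c (hc.trans hc0.symm)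
      have h5 : E.cub j c = u := E.ap_some j c u h4
      refine (ap_iff hD).2 ⟨?_, ?_, ?_, ?_⟩
      · have h3 : (E.top - j + 1) * D ≤ E.top * D := Nat.mul_le_mul_right D (by omega)
        rw [Nat.add_mul, one_mul] at h3
        omega
      · rw [hdiv]
        show j = E.top - (E.top - j)
        omega
      · show E.cub j c = E.cub j c0
        rw [h5, huc]
      · rw [hmod]
        show (E.kap j (E.cub j c0)).val = _
        rw [huc]
  prof := by
    rintro K K' ⟨m, hm, hm'⟩ hst c1 hc1
    have hm : E.cub K.1.1 m = K.1.2 := hm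
    have hm' : E.cub K'.1.1 m = K'.1.2 := hm'
    have hc1 : E.cub K'.1.1 c1 = K'.1.2 := hc1
    have hst : (E.top - K.1.1) * D ≤ (E.top - K'.1.1) * D := hst
    have h1 : E.top - K.1.1 ≤ E.top - K'.1.1 := Nat.le_of_mul_le_mul_right hst hD
    have hKt := K.2.1
    have hKt' := K'.2.1
    obtain ⟨c2, h2, h3, h4⟩ := E.transfer K'.1.1 K.1.1 (by omega) (by omega) m c1
      (hc1.trans hm'.symm)
    refine ⟨c2, h3.trans hm, ?_⟩
    intro r hr
    have hlt : K.1.1 < E.top - r / D := lev_lt (E := E) hr
    have hrt : r < E.top * D := st_le_top (E := E) hr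
    have h5 := h4 _ hlt
    rw [ap_of hrt, ap_of hrt] at h5
    have h5 := Option.some.inj h5
    ext u
    rw [ap_iff hD, ap_iff hD]
    constructor
    · rintro ⟨g1, g2, g3, g4⟩
      refine ⟨g1, g2, ?_, g4⟩
      rw [← g3, g2, h5]
    · rintro ⟨g1, g2, g3, g4⟩
      refine ⟨g1, g2, ?_, g4⟩
      rw [← g3, g2, h5]
  anc := by
    intro K' hK
    have hK : h * D ≤ (E.top - K'.1.1) * D := hK
    have h1 : h ≤ E.top - K'.1.1 := Nat.le_of_mul_le_mul_right hK hD
    obtain ⟨c0, hc0⟩ := K'.2.2
    have hKt := K'.2.1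
    refine ⟨mk E (K'.1.1 + h) (by omega) c0, ?_, c0, rfl, hc0⟩
    show (E.top - (K'.1.1 + h)) * D + h * D = (E.top - K'.1.1) * D
    rw [← Nat.add_mul]
    congr 1
    omega
  fin := by
    intro c
    refine ⟨mk E 0 (Nat.zero_le _) c, ?_, rfl⟩
    show (E.top - 0) * D = E.top * D
    rw [Nat.sub_zero]


/-! ### Counts -/

instance : Finite (Cb E) := by
  classical
  have hf : Function.Injective (fun K : Cb E => ((⟨K.1.1, Nat.lt_succ_of_le K.2.1⟩ : Fin (E.top + 1)),
      K.2.2.choose)) := by
    intro K K' hKK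
    have h1 : K.1.1 = K'.1.1 := congrArg (fun q => q.1.val) hKK
    have h2 : K.2.2.choose = K'.2.2.choose := congrArg (fun q => q.2) hKK
    refine Subtype.ext (Prod.ext h1 ?_)
    rw [← K.2.2.choose_spec, ← K'.2.2.choose_spec, h2, h1]
  exact Finite.of_injective _ hf

noncomputable instance : Fintype (Cb E) := Fintype.ofFinite _

/-- a set of cubes whose levels are in a window of `h` levels, with at most `N` on each level -/
theorem count_levels (A : Set (Cb E)) (a : ℕ) (hA : ∀ K ∈ A, a ≤ K.1.1 ∧ K.1.1 < a + h)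
    (hN : ∀ l, a ≤ l → l < a + h → l ≤ E.top → {v | ∃ K ∈ A, K.1 = (l, v)}.ncard ≤ N) :
    A.ncard ≤ h * N := by
  classical
  have hfin : A.Finite := Set.toFinite A
  have h1 : A ⊆ ⋃ l ∈ Finset.Ico a (a + h), {K | K ∈ A ∧ K.1.1 = l} := by
    intro K hK
    simp only [Set.mem_iUnion, Finset.mem_Ico]
    exact ⟨K.1.1, hA K hK, hK, rfl⟩
  calc A.ncard ≤ (⋃ l ∈ Finset.Ico a (a + h), {K | K ∈ A ∧ K.1.1 = l}).ncard :=
        Set.ncard_le_ncard h1 (Set.toFinite _)
    _ ≤ ∑ l ∈ Finset.Ico a (a + h), {K | K ∈ A ∧ K.1.1 = l}.ncard :=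
        Finset.set_ncard_biUnion_le _ _
    _ ≤ ∑ l ∈ Finset.Ico a (a + h), N := by
        refine Finset.sum_le_sum fun l hl => ?_
        rw [Finset.mem_Ico] at hl
        by_cases hlt : l ≤ E.top
        · refine le_trans ?_ (hN l hl.1 hl.2 hlt)
          refine Set.ncard_le_ncard_of_injOn (fun K => K.1.2) ?_ ?_ ?_
          · rintro K ⟨hK, rfl⟩
            exact ⟨K, hK, rfl⟩
          · rintro K ⟨_, h2⟩ K' ⟨_, h2'⟩ h3
            exact Subtype.ext (Prod.ext (h2.trans h2'.symm) h3)
          · have h4 : {v | ∃ K ∈ A, K.1 = (l, v)} ⊆ (fun K : Cb E => K.1.2) '' A := by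
              rintro v ⟨K, hK, hv⟩
              exact ⟨K, hK, by simp [hv]⟩
            exact (hfin.image _).subset h4
        · have h5 : {K | K ∈ A ∧ K.1.1 = l} = ∅ := by
            ext K
            simp only [Set.mem_setOf_eq, Set.mem_empty_iff_false, iff_false, not_and]
            rintro _ rfl
            exact hlt K.2.1
          rw [h5, Set.ncard_empty]
          exact Nat.zero_le _
    _ = h * N := by rw [Finset.sum_const, Nat.card_Ico, smul_eq_mul, Nat.add_sub_cancel_left]

theorem fin_cub (P : (Fin d → Fin n) → Prop) (l : ℕ) : {u | ∃ c, P c ∧ E.cub l c = u}.Finite := by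
  have : {u | ∃ c, P c ∧ E.cub l c = u} ⊆ Set.range (E.cub l) := by
    rintro u ⟨c, _, rfl⟩
    exact ⟨c, rfl⟩
  exact (Set.finite_range _).subset this

theorem counts (hh : 1 ≤ h) (hN : 1 ≤ N) : (sch E hD).Counts (h * D) (h * N) where
  one_le := Nat.mul_pos hh hN
  cnt1 := by
    intro u
    obtain ⟨c0, hc0⟩ := u.2.2
    have hut := u.2.1
    refine count_levels _ (u.1.1 - h) ?_ ?_
    · rintro K ⟨h1, h2, _⟩
      have h1 : (E.top - u.1.1) * D + (E.kap u.1.1 u.1.2).val < (E.top - K.1.1) * D := h1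
      have h2 : (E.top - K.1.1) * D ≤ (E.top - u.1.1) * D + (E.kap u.1.1 u.1.2).val + h * D := h2
      have hk := (E.kap u.1.1 u.1.2).isLt
      have hKt := K.2.1
      have h3 : E.top - u.1.1 < E.top - K.1.1 :=
        Nat.lt_of_mul_lt_mul_right (a := D) (by omega)
      have h4 : (E.top - K.1.1) * D < (E.top - u.1.1 + h + 1) * D := by
        rw [Nat.add_mul, Nat.add_mul, one_mul]
        omega
      have h5 : E.top - K.1.1 < E.top - u.1.1 + h + 1 := Nat.lt_of_mul_lt_mul_right (a := D) h4
      omega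
    · intro l hl1 hl2 hlt
      by_cases hlu : l ≤ u.1.1
      · refine le_trans ?_ (E.card_cub l u.1.1 hlu (by omega) (by omega) c0)
        refine Set.ncard_le_ncard ?_ (fin_cub _ _)
        rintro v ⟨K, ⟨_, _, c, hc, hc'⟩, hv⟩
        have hc : E.cub u.1.1 c = u.1.2 := hc
        have hc' : E.cub K.1.1 c = K.1.2 := hc'
        rw [hv] at hc'
        exact ⟨c, hc.trans hc0.symm, hc'⟩
      · have h5 : {v | ∃ K ∈ {K | (sch E hD).rd u < (sch E hD).st K ∧
            (sch E hD).st K ≤ (sch E hD).rd u + h * D ∧ (sch E hD).Meet u K}, K.1 = (l, v)} = ∅ := by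
          ext v
          simp only [Set.mem_setOf_eq, Set.mem_empty_iff_false, iff_false]
          rintro ⟨K, ⟨h1, _, _⟩, hv⟩
          have h1 : (E.top - u.1.1) * D + (E.kap u.1.1 u.1.2).val < (E.top - K.1.1) * D := h1
          have h3 : E.top - u.1.1 < E.top - K.1.1 :=
            Nat.lt_of_mul_lt_mul_right (a := D) (by omega)
          rw [hv] at h3
          simp only at h3
          omega
        rw [h5, Set.ncard_empty]
        exact Nat.zero_le _
  cnt0 := by
    refine count_levels _ (E.top + 1 - h) ?_ ?_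
    · intro K hK
      have h1 : (E.top - K.1.1) * D < h * D := hK
      have h3 : E.top - K.1.1 < h := Nat.lt_of_mul_lt_mul_right (a := D) h1
      have hKt := K.2.1
      omega
    · intro l hl1 hl2 hlt
      by_cases hne : Nonempty (Fin d → Fin n)
      · obtain ⟨c0⟩ := hne
        refine le_trans ?_ (E.card_cub l (E.top + 1) (by omega) (by omega) le_rfl c0)
        refine Set.ncard_le_ncard ?_ (fin_cub _ _)
        rintro v ⟨K, _, hv⟩
        obtain ⟨c, hc⟩ := K.2.2
        rw [hv] at hc
        exact ⟨c, E.cub_top _ _, hc⟩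
      · have h5 : {v | ∃ K ∈ {K | (sch E hD).st K < h * D}, K.1 = (l, v)} = ∅ := by
          ext v
          simp only [Set.mem_setOf_eq, Set.mem_empty_iff_false, iff_false]
          rintro ⟨K, _, _⟩
          obtain ⟨c, hc⟩ := K.2.2
          exact hne ⟨c⟩
        rw [h5, Set.ncard_empty]
        exact Nat.zero_le _
  cell1 := by
    intro u hu
    have hu : E.top * D ≤ (E.top - u.1.1) * D + (E.kap u.1.1 u.1.2).val + h * D := hu
    have hk := (E.kap u.1.1 u.1.2).isLt
    have hut := u.2.1
    obtain ⟨c0, hc0⟩ := u.2.2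
    have h4 : E.top * D < (E.top - u.1.1 + h + 1) * D := by
      rw [Nat.add_mul, Nat.add_mul, one_mul]
      omega
    have h5 : E.top < E.top - u.1.1 + h + 1 := Nat.lt_of_mul_lt_mul_right (a := D) h4
    have h6 := E.card_cell u.1.1 (by omega) (by omega) c0
    have h7 : {c | (sch E hD).mem u c} = {c | E.cub u.1.1 c = E.cub u.1.1 c0} := by
      ext c
      show E.cub u.1.1 c = u.1.2 ↔ E.cub u.1.1 c = E.cub u.1.1 c0
      rw [hc0]
    rw [h7]
    exact h6.trans (Nat.le_mul_of_pos_left N hh)
  cell0 := by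
    intro hR
    have hR : E.top * D < h * D := hR
    have h5 : E.top < h := Nat.lt_of_mul_lt_mul_right (a := D) hR
    by_cases hne : Nonempty (Fin d → Fin n)
    · obtain ⟨c0⟩ := hne
      have h6 := E.card_cell (E.top + 1) (by omega) le_rfl c0
      have h7 : {c | E.cub (E.top + 1) c = E.cub (E.top + 1) c0} = Set.univ := by
        ext c
        simp only [Set.mem_setOf_eq, Set.mem_univ, iff_true]
        exact E.cub_top _ _
      rw [h7, Set.ncard_univ, Nat.card_eq_fintype_card] at h6
      exact h6.trans (Nat.le_mul_of_pos_left N hh)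
    · rw [not_nonempty_iff] at hne
      rw [Fintype.card_eq_zero]
      exact Nat.zero_le _

theorem rd_card (r : ℕ) (hr : r < (sch E hD).R) : {K | (sch E hD).rd K = r}.ncard ≤ n ^ d := by
  classical
  have h1 : {K | (sch E hD).rd K = r}.ncard ≤ (Set.univ : Set (Fin d → Fin n)).ncard := by
    refine Set.ncard_le_ncard_of_injOn (fun K => K.2.2.choose) (fun _ _ => Set.mem_univ _) ?_
      (Set.toFinite _)
    intro K hK K' hK' hKK
    have hK : (sch E hD).rd K = r := hK
    have hK' : (sch E hD).rd K' = r := hK'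
    have e1 := rd_div hD K
    have e2 := rd_div hD K'
    rw [hK] at e1
    rw [hK'] at e2
    have hKt := K.2.1
    have hKt' := K'.2.1
    have h2 : K.1.1 = K'.1.1 := by
      rw [e1] at e2
      omega
    have h3 : K.2.2.choose = K'.2.2.choose := hKK
    refine Subtype.ext (Prod.ext h2 ?_)
    rw [← K.2.2.choose_spec, ← K'.2.2.choose_spec, h3, h2]
  rw [Set.ncard_univ, Nat.card_eq_fintype_card, Fintype.card_fun, Fintype.card_fin,
    Fintype.card_fin] at h1
  exact h1

/-! ### Words -/

section words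

variable {L : Type}

open Classical in
/-- the letters of the levels -/
noncomputable def sL (l0 : L) (s : Cb E → L) (j : ℕ) (v : Cub d) : L :=
  if hh : j ≤ E.top ∧ ∃ c, E.cub j c = v then s ⟨(j, v), hh⟩ else l0

theorem sL_eq (l0 : L) (s : Cb E → L) (K : Cb E) : sL (E := E) l0 s K.1.1 K.1.2 = s K := by
  unfold sL
  rw [dif_pos K.2]

theorem word_const (Sc : Scheme (Fin D) (Cb E) (Fin d → Fin n)) (s : Cb E → L)
    (q : ℕ → Option (Cb E)) {r r' : ℕ} (hr : r ≤ r') (hn : ∀ i, r ≤ i → i < r' → q i = none) :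
    Sc.word s q r' = Sc.word s q r := by
  induction r', hr using Nat.le_induction with
  | base => rfl
  | succ r' hr ih =>
    rw [Sc.word_succ_none s _ r' (hn r' hr (by omega)), ih (fun i hi hi' => hn i hi (by omega))]

/-- The profile `q` of rounds is the profile `p` of levels, on the levels `top, ..., top - m + 1`. -/
theorem word_lwr (l0 : L) (s : Cb E → L) (q : ℕ → Option (Cb E)) (p : ℕ → Option (Cub d)) (m : ℕ)
    (hm : m ≤ E.top)
    (hq : ∀ r, r < m * D → ∀ u, q r = some u ↔ (p (E.top - r / D) = some u.1.2 ∧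
      u.1.1 = E.top - r / D ∧ (E.kap u.1.1 u.1.2).val = r % D))
    (hp : ∀ j v, E.top < j + m → p j = some v → ∃ c, E.cub j c = v) :
    (sch E hD).word s q (m * D) = lwr E.top E.kap (sL (E := E) l0 s) p m := by
  induction m with
  | zero => rw [Nat.zero_mul]; rfl
  | succ m ih =>
    have hmD : m * D ≤ (m + 1) * D := Nat.mul_le_mul_right D (Nat.le_succ m)
    have ih := ih (by omega) (fun r hr => hq r (by omega)) (fun j v hj => hp j v (by omega))
    have hdiv : ∀ i, i < D → (m * D + i) / D = m := by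
      intro i hi
      rw [mul_comm, Nat.mul_add_div hD, Nat.div_eq_of_lt hi, add_zero]
    have hmod : ∀ i, i < D → (m * D + i) % D = i := by
      intro i hi
      rw [mul_comm, Nat.mul_add_mod, Nat.mod_eq_of_lt hi]
    have hlt : ∀ i, i < D → m * D + i < (m + 1) * D := by
      intro i hi
      rw [Nat.add_mul, one_mul]
      omega
    cases hpm : p (E.top - m) with
    | none =>
      have h1 : ∀ i, m * D ≤ i → i < (m + 1) * D → q i = none := by
        intro i hi hi'
        by_contra hne
        obtain ⟨u, hu⟩ := Option.ne_none_iff_exists'.1 hne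
        have h2 := ((hq i hi' u).1 hu).1
        obtain ⟨k, rfl⟩ := Nat.exists_eq_add_of_le hi
        have hk : k < D := by rw [Nat.add_mul, one_mul] at hi'; omega
        rw [hdiv k hk, hpm] at h2
        exact absurd h2 (by simp)
      rw [word_const _ s q hmD h1, ih]
      show _ = (p (E.top - m)).elim _ _
      rw [hpm]
      rfl
    | some v =>
      obtain ⟨c, hc⟩ := hp (E.top - m) v (by omega) hpm
      set K : Cb E := ⟨(E.top - m, v), Nat.sub_le _ _, c, hc⟩ with hKdef
      set k := (E.kap (E.top - m) v).val with hk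
      have hkD : k < D := (E.kap (E.top - m) v).isLt
      have hqk : q (m * D + k) = some K := by
        rw [hq _ (hlt k hkD) K, hdiv k hkD, hmod k hkD]
        exact ⟨hpm, rfl, rfl⟩
      have hqn : ∀ i, i < D → i ≠ k → q (m * D + i) = none := by
        intro i hi hik
        by_contra hne
        obtain ⟨u, hu⟩ := Option.ne_none_iff_exists'.1 hne
        obtain ⟨h2, h3, h4⟩ := (hq _ (hlt i hi) u).1 hu
        rw [hdiv i hi] at h2 h3
        rw [hmod i hi] at h4
        rw [hpm] at h2
        have h5 := Option.some.inj h2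
        rw [h3, ← h5] at h4
        exact hik h4.symm
      have h1 : (sch E hD).word s q (m * D + k) = (sch E hD).word s q (m * D) := by
        refine word_const _ s q (Nat.le_add_right _ _) ?_
        intro i hi hi'
        obtain ⟨i', rfl⟩ := Nat.exists_eq_add_of_le hi
        exact hqn i' (by omega) (by omega)
      have h2 : (sch E hD).word s q ((m + 1) * D) = (sch E hD).word s q (m * D + k + 1) := by
        refine word_const _ s q ?_ ?_
        · have := hlt k hkD
          omega
        · intro i hi hi'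
          obtain ⟨i', rfl⟩ := Nat.exists_eq_add_of_le ((Nat.le_add_right _ _).trans
            ((Nat.le_succ _).trans hi) : m * D ≤ i)
          refine hqn i' ?_ (by omega)
          rw [Nat.add_mul, one_mul] at hi'
          omega
      rw [h2, (sch E hD).word_succ_some s q _ K hqk, h1, ih]
      have hcl : (sch E hD).cl (m * D + k) = E.kap (E.top - m) v := by
        apply Fin.ext
        show (m * D + k) % D = _
        rw [hmod k hkD]
      have hs : s K = sL (E := E) l0 s (E.top - m) v := (sL_eq l0 s K).symm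
      rw [hcl, hs]
      show _ = (p (E.top - m)).elim _ _
      rw [hpm]
      rfl

theorem lwr_const (kap : ℕ → Cub d → Fin D) (t : ℕ → Cub d → L) (p : ℕ → Option (Cub d))
    (top m m' : ℕ) (hmm : m ≤ m') (hn : ∀ i, m ≤ i → i < m' → p (top - i) = none) :
    lwr top kap t p m' = lwr top kap t p m := by
  induction m', hmm using Nat.le_induction with
  | base => rfl
  | succ m' hm' ih =>
    rw [← ih (fun i hi hi' => hn i hi (by omega))]
    show (p (top - m')).elim _ _ = _
    rw [hn m' hm' (by omega)]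
    rfl

/-- the word of a cell -/
theorem word_cell (l0 : L) (s : Cb E → L) (c : Fin d → Fin n) :
    (sch E hD).word s (fun r => (sch E hD).ap r c) (sch E hD).R =
      E.lw (sL (E := E) l0 s) (fun j => E.ap j c) := by
  refine word_lwr hD l0 s _ _ E.top le_rfl ?_ ?_
  · intro r hr u
    rw [ap_iff hD, ap_of hr]
    constructor
    · rintro ⟨_, h2, h3, h4⟩
      exact ⟨by rw [← h2, h3], h2, h4⟩
    · rintro ⟨h1, h2, h4⟩
      have h1 := Option.some.inj h1
      exact ⟨hr, h2, by rw [h2]; exact h1, h4⟩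
  · intro j v _ hv
    exact ⟨c, E.ap_some j c v hv⟩

/-- the word of the full levels of a cube -/
theorem word_full (hh : 1 ≤ h) (l0 : L) (s : Cb E → L) (l : ℕ) (hl : l ≤ E.top)
    (c : Fin d → Fin n) :
    (sch E hD).word s ((sch E hD).fullP (mk E l hl c)) ((sch E hD).st (mk E l hl c)) =
      E.lw (sL (E := E) l0 s) (E.fullL l c) := by
  classical
  have hV := valid (E := E) hD hh
  have hst : (sch E hD).st (mk E l hl c) = (E.top - l) * D := rfl
  have h1 : E.lw (sL (E := E) l0 s) (E.fullL l c) =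
      lwr E.top E.kap (sL (E := E) l0 s) (E.fullL l c) (E.top - l) := by
    refine lwr_const _ _ _ _ _ _ (Nat.sub_le _ _) ?_
    intro i hi hi'
    unfold Geo.fullL
    rw [if_neg]
    rintro ⟨h2, _⟩
    omega
  rw [h1, hst]
  refine word_lwr hD l0 s _ _ (E.top - l) (Nat.sub_le _ _) ?_ ?_
  · intro r hr u
    have hrt : r < E.top * D := st_le_top (E := E) hr
    have hlt : l < E.top - r / D := lev_lt (E := E) hr
    rw [Scheme.fullP_some _ hV]
    have hmem : ∀ c', (sch E hD).mem (mk E l hl c) c' ↔ E.cub l c' = E.cub l c := fun _ => Iff.rfl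
    constructor
    · intro hf
      have hc := (ap_iff hD).1 (hf c ((hmem c).2 rfl))
      obtain ⟨_, h2, h3, h4⟩ := hc
      have hna : ¬ Act E.cub E.ap l c (E.top - r / D) := by
        rintro ⟨c1, c2, k1, k2, k3⟩
        apply k3
        obtain ⟨_, _, g3, _⟩ := (ap_iff hD).1 (hf c1 ((hmem c1).2 k1))
        obtain ⟨_, _, g3', _⟩ := (ap_iff hD).1 (hf c2 ((hmem c2).2 k2))
        rw [ap_of hrt, ap_of hrt, ← h2, g3, g3']
      refine ⟨?_, h2, h4⟩
      unfold Geo.fullL
      rw [if_pos ⟨hlt, hna⟩, ap_of hrt, ← h2, h3]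
    · rintro ⟨h1, h2, h4⟩
      unfold Geo.fullL at h1
      split_ifs at h1 with h5
      intro c' hc'
      have hc' := (hmem c').1 hc'
      have h6 : E.ap (E.top - r / D) c' = E.ap (E.top - r / D) c := by
        by_contra hne
        exact h5.2 ⟨c', c, hc', rfl, hne⟩
      rw [h1] at h6
      refine (ap_iff hD).2 ⟨hrt, h2, ?_, h4⟩
      rw [h2]
      exact E.ap_some _ _ _ h6
  · intro j v _ hv
    unfold Geo.fullL at hv
    split_ifs at hv with h5
    exact ⟨c, E.ap_some j c v hv⟩

end words

end GeoS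

open GeoS in
/-- **The process theorem from Theorem D over an abstract scheme.** -/
theorem process_of_scheme (H : SchemeThm) : ProcessThm := by
  classical
  intro d h N D hh hN hD
  obtain ⟨lam1, del1, c1, l1, hlam, hdel, hc1, H⟩ := H D (h * D) (h * N) hD (Nat.mul_pos hh hN)
  refine ⟨lam1, del1, c1, l1, hlam, hdel, hc1, ?_⟩
  intro n hn E L Om _ _ _ S sgn hG BAD hB hcard
  obtain ⟨l0⟩ := ‹Nonempty L›
  haveI : Nonempty L := ⟨l0⟩
  haveI : Nonempty Om := by
    by_contra hne
    rw [not_nonempty_iff] at hne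
    have h0 : Fintype.card Om = 0 := Fintype.card_eq_zero
    rw [h0, Nat.cast_zero, mul_zero] at hcard
    have : (0 : ℝ) < (n : ℝ) ^ d := by positivity
    linarith
  have hV := valid (E := E) hD hh
  obtain ⟨root, W, s, hs1, hs2⟩ := H (Cb E) (Fin d → Fin n) (sch E hD) hV
    (counts hD hh hN) L Om S sgn hG BAD hB (by
      intro r hr
      refine le_trans ?_ hcard
      have := rd_card (E := E) hD r hr
      exact_mod_cast this)
  refine ⟨root, W, sL (E := E) l0 s, ?_, ?_⟩
  · intro l c hl
    obtain ⟨V, hVB, hV1, hV2, hV3⟩ := hs1 (mk E l hl c)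
    rw [word_full hD hh l0 s l hl c] at hV1 hV2 hV3
    refine ⟨V, hVB, hV1, ?_, ?_⟩
    · intro j c' v hlj hact hc' hv
      have hjt : j ≤ E.top := (E.act_le_top hact).2
      have hcv : E.cub j c' = v := E.ap_some j c' v hv
      have hk := (E.kap j v).isLt
      have hdiv : ((E.top - j) * D + (E.kap j v).val) / D = E.top - j := by
        rw [mul_comm, Nat.mul_add_div hD, Nat.div_eq_of_lt hk, add_zero]
      have hmod : ((E.top - j) * D + (E.kap j v).val) % D = (E.kap j v).val := by
        rw [mul_comm, Nat.mul_add_mod, Nat.mod_eq_of_lt hk]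
      have hjj : E.top - (E.top - j) = j := by omega
      set u : Cb E := ⟨(j, v), hjt, c', hcv⟩ with hu
      have hrR : (E.top - j) * D + (E.kap j v).val < (E.top - l) * D := by
        have h3 : (E.top - j + 1) * D ≤ (E.top - l) * D := Nat.mul_le_mul_right D (by omega)
        rw [Nat.add_mul, one_mul] at h3
        omega
      have hrt := st_le_top (E := E) hrR
      have hleaf : (sch E hD).Leaf (mk E l hl c) ((E.top - j) * D + (E.kap j v).val) u := by
        refine ⟨⟨c', hc', (ap_iff hD).2 ⟨hrt, ?_, hcv, ?_⟩⟩, ?_⟩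
        · rw [hdiv]
          exact hjj.symm
        · rw [hmod]
        · obtain ⟨e, e', h1, h2, h3⟩ := hact
          by_contra hno
          push Not at hno
          apply h3
          have g1 := ((ap_iff hD).1 (hno e h1)).2.2.1
          have g2 := ((ap_iff hD).1 (hno e' h2)).2.2.1
          have hj1 : 1 ≤ j := by omega
          have g1 : E.cub j e = v := g1
          have g2 : E.cub j e' = v := g2
          rw [E.ap_eq j e hj1 hjt, E.ap_eq j e' hj1 hjt, g1, g2]
      have h1 := hV2 _ u hrR hleaf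
      have hcl : (sch E hD).cl ((E.top - j) * D + (E.kap j v).val) = E.kap j v := by
        apply Fin.ext
        exact hmod
      rw [hcl] at h1
      rw [h1, ← sL_eq l0 s u]
    · intro hl1
      have hk := (E.kap l (E.cub l c)).isLt
      have hrd : (sch E hD).rd (mk E l hl c) < (sch E hD).R := by
        show (E.top - l) * D + (E.kap l (E.cub l c)).val < E.top * D
        have h3 : (E.top - l + 1) * D ≤ E.top * D := Nat.mul_le_mul_right D (by omega)
        rw [Nat.add_mul, one_mul] at h3
        omega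
      have h1 := hV3 hrd
      have hcl : (sch E hD).cl ((sch E hD).rd (mk E l hl c)) = E.kap l (E.cub l c) := by
        apply Fin.ext
        exact rd_mod hD (mk E l hl c)
      rw [hcl] at h1
      rw [h1, ← sL_eq l0 s (mk E l hl c)]
      rfl
  · intro w
    have h1 := hs2 w
    have h2 : {c | W.state (E.lw (sL (E := E) l0 s) (fun j => E.ap j c)) = w} =
        {c | W.state ((sch E hD).word s (fun r => (sch E hD).ap r c) (sch E hD).R) = w} := by
      ext c
      simp only [Set.mem_setOf_eq]
      rw [word_cell hD l0 s c]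
    rw [h2]
    exact h1

end Pool.Agent.SRL
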