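import Pool.Agent.SRL.DMain
import Pool.Agent.SRL.GeoScheme
import Pool.Agent.SRL.DG

/-!
The process theorem and the disc theorem, without hypotheses.
-/

set_option autoImplicit false

namespace Pool.Agent.SRL

/-- **The process theorem.** -/
theorem process_thm : ProcessThm := process_of_scheme scheme_thm

/-- **The disc theorem with the gauge, in every dimension.** -/
theorem disc_gauge_thm (d : ℕ) : DiscGaugeThm d := discGauge process_thm d

end Pool.Agent.SRL
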