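import Mathlib
import Pool.Agent.SRL.Defs

/-!
Embedding core (5.2.1 - 5.2.3 of MP_971383_P5_final.md): choice of the points of the even cells by
conditional probabilities, then of the odd cells.
-/

set_option autoImplicit false
set_option linter.unusedSectionVars false
set_option linter.unusedVariables false

namespace Pool.Agent.SRL

open Finset

namespace Emb

section avg

variable {Q : Type} [Fintype Q]

theorem avg_add (f g : Q → ℝ) : avg (fun z => f z + g z) = avg f + avg g := by
  simp only [avg, Finset.sum_add_distrib, add_div]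

theorem avg_sub (f g : Q → ℝ) : avg (fun z => f z - g z) = avg f - avg g := by
  simp only [avg, Finset.sum_sub_distrib, sub_div]

theorem avg_mul_left (c : ℝ) (f : Q → ℝ) : avg (fun z => c * f z) = c * avg f := by
  simp only [avg, ← Finset.mul_sum, mul_div_assoc]

theorem avg_sum {ι : Type} (s : Finset ι) (f : ι → Q → ℝ) :
    avg (fun z => ∑ i ∈ s, f i z) = ∑ i ∈ s, avg (f i) := by
  simp only [avg]
  rw [Finset.sum_comm, Finset.sum_div]

theorem avg_mono {f g : Q → ℝ} (h : ∀ z, f z ≤ g z) : avg f ≤ avg g :=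
  div_le_div_of_nonneg_right (Finset.sum_le_sum fun z _ => h z) (Nat.cast_nonneg _)

theorem avg_nonneg {f : Q → ℝ} (h : ∀ z, 0 ≤ f z) : 0 ≤ avg f :=
  div_nonneg (Finset.sum_nonneg fun z _ => h z) (Nat.cast_nonneg _)

theorem avg_one [Nonempty Q] : avg (fun _ : Q => (1 : ℝ)) = 1 := by
  have : (0 : ℝ) < Fintype.card Q := by exact_mod_cast Fintype.card_pos
  simp [avg, this.ne']

theorem avg_le_one [Nonempty Q] {f : Q → ℝ} (h : ∀ z, f z ≤ 1) : avg f ≤ 1 := by
  rw [← avg_one (Q := Q)]
  exact avg_mono h

theorem abs_avg_le (f : Q → ℝ) : |avg f| ≤ avg (fun z => |f z|) := by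
  simp only [avg]
  rw [abs_div, abs_of_nonneg (Nat.cast_nonneg (Fintype.card Q) : (0 : ℝ) ≤ _)]
  exact div_le_div_of_nonneg_right (Finset.abs_sum_le_sum_abs _ _) (Nat.cast_nonneg _)

end avg

section expect

variable {Ev Q : Type} [DecidableEq Ev] [Fintype Q]

/-- Expectation over the coordinates of a list, independent with laws `W c`. -/
noncomputable def ex (W : Ev → Q → ℝ) : List Ev → ((Ev → Q) → ℝ) → (Ev → Q) → ℝ
  | [], F, p => F p
  | c :: l, F, p => ∑ x, W c x * ex W l F (Function.update p c x)

variable {W : Ev → Q → ℝ} (hW0 : ∀ c x, 0 ≤ W c x) (hW1 : ∀ c, ∑ x, W c x = 1)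

include hW0 in
theorem ex_mono {l : List Ev} {F G : (Ev → Q) → ℝ} (h : ∀ q, F q ≤ G q) (p : Ev → Q) :
    ex W l F p ≤ ex W l G p := by
  induction l generalizing p with
  | nil => exact h p
  | cons c l ih =>
    exact Finset.sum_le_sum fun x _ => mul_le_mul_of_nonneg_left (ih _) (hW0 c x)

theorem ex_congr {l : List Ev} {F G : (Ev → Q) → ℝ} (p : Ev → Q)
    (h : ∀ q : Ev → Q, (∀ j, j ∉ l → q j = p j) → F q = G q) : ex W l F p = ex W l G p := by
  induction l generalizing p with
  | nil => exact h p fun j _ => rfl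
  | cons c l ih =>
    refine Finset.sum_congr rfl fun x _ => ?_
    congr 1
    refine ih _ fun q hq => ?_
    refine h q fun j hj => ?_
    have h1 := hq j (fun h' => hj (List.mem_cons_of_mem _ h'))
    rw [h1]
    exact Function.update_of_ne (fun h' => hj (by rw [h']; exact List.mem_cons_self)) _ _

theorem ex_smul {l : List Ev} (a : ℝ) (F : (Ev → Q) → ℝ) (p : Ev → Q) :
    ex W l (fun q => a * F q) p = a * ex W l F p := by
  induction l generalizing p with
  | nil => rfl
  | cons c l ih =>
    simp only [ex, ih]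
    rw [Finset.mul_sum]
    refine Finset.sum_congr rfl fun x _ => ?_
    ring

theorem ex_add {l : List Ev} (F G : (Ev → Q) → ℝ) (p : Ev → Q) :
    ex W l (fun q => F q + G q) p = ex W l F p + ex W l G p := by
  induction l generalizing p with
  | nil => rfl
  | cons c l ih =>
    simp only [ex, ih, mul_add, Finset.sum_add_distrib]

include hW1 in
theorem ex_const {l : List Ev} (a : ℝ) (p : Ev → Q) : ex W l (fun _ => a) p = a := by
  induction l generalizing p with
  | nil => rfl
  | cons c l ih =>
    simp only [ex, ih]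
    rw [← Finset.sum_mul, hW1, one_mul]

/-- If `F` does not depend on the coordinate `c`, neither does `ex W l F`. -/
theorem ex_update {l : List Ev} {F : (Ev → Q) → ℝ} {c : Ev}
    (h : ∀ q x, F (Function.update q c x) = F q) (p : Ev → Q) (x : Q) :
    ex W l F (Function.update p c x) = ex W l F p := by
  induction l generalizing p with
  | nil => exact h p x
  | cons c' l ih =>
    refine Finset.sum_congr rfl fun y _ => ?_
    congr 1
    by_cases hc : c' = c
    · subst hc
      rw [Function.update_idem]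
    · rw [Function.update_comm (Ne.symm hc) x y p]
      exact ih _

end expect

section Z

variable {Ev Q : Type} [DecidableEq Ev] [Fintype Q]

/-- The quantity `Z` along a list of cells. -/
noncomputable def zl (nb : Finset Ev) (R : Ev → Q → Q → ℝ) (l : List Ev) (g : Q → ℝ)
    (p : Ev → Q) : ℝ :=
  avg (fun z => g z * ((l.filter (fun c => c ∈ nb)).map (fun c => R c (p c) z)).prod)

/-- The product of the means along a list of cells. -/
noncomputable def ml (nb : Finset Ev) (rho : Ev → Q → ℝ) (l : List Ev) (g : Q → ℝ) : ℝ :=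
  avg (fun z => g z * ((l.filter (fun c => c ∈ nb)).map (fun c => rho c z)).prod)

theorem prod_mem_unit {α : Type} (l : List α) (f : α → ℝ) (h : ∀ a, 0 ≤ f a ∧ f a ≤ 1) :
    0 ≤ (l.map f).prod ∧ (l.map f).prod ≤ 1 := by
  induction l with
  | nil => simp
  | cons a l ih =>
    simp only [List.map_cons, List.prod_cons]
    exact ⟨mul_nonneg (h a).1 ih.1, mul_le_one₀ (h a).2 ih.1 ih.2⟩

variable {W : Ev → Q → ℝ} (hW0 : ∀ c x, 0 ≤ W c x) (hW1 : ∀ c, ∑ x, W c x = 1)

include hW0 hW1 in
theorem wabs_le (c : Ev) (a : Q → ℝ) (xi : ℝ) (hxi : 0 ≤ xi)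
    (h : ∑ x, W c x * (a x) ^ 2 ≤ xi ^ 2) : ∑ x, W c x * |a x| ≤ xi := by
  have h1 : (∑ x, W c x * |a x|) ^ 2 ≤ (∑ x, W c x) * ∑ x, W c x * |a x| ^ 2 := by
    have := Finset.sum_mul_sq_le_sq_mul_sq Finset.univ
      (fun x => Real.sqrt (W c x)) (fun x => Real.sqrt (W c x) * |a x|)
    refine le_trans (le_of_eq ?_) (this.trans (le_of_eq ?_))
    · congr 1
      refine Finset.sum_congr rfl fun x _ => ?_
      rw [← mul_assoc, Real.mul_self_sqrt (hW0 c x)]
    · congr 1
      · refine Finset.sum_congr rfl fun x _ => ?_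
        rw [Real.sq_sqrt (hW0 c x)]
      · refine Finset.sum_congr rfl fun x _ => ?_
        rw [mul_pow, Real.sq_sqrt (hW0 c x)]
  rw [hW1, one_mul] at h1
  have h2 : (∑ x, W c x * |a x|) ^ 2 ≤ xi ^ 2 := by
    refine h1.trans (le_trans (le_of_eq ?_) h)
    refine Finset.sum_congr rfl fun x _ => ?_
    rw [sq_abs]
  exact abs_le_of_sq_le_sq' h2 hxi |>.2

section main

variable (nb : Finset Ev) (R : Ev → Q → Q → ℝ) (u : Q → ℝ) (xi : ℝ) [Nonempty Q]
  (hR : ∀ c x z, 0 ≤ R c x z ∧ R c x z ≤ 1) (hxi : 0 ≤ xi)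
  (hP1 : ∀ c ∈ nb, ∀ g : Q → ℝ, (∀ z, |g z| ≤ 1) →
    ∑ x, W c x * (avg (fun z => (R c x z - u z) * g z)) ^ 2 ≤ xi ^ 2)

include hW0 hW1 hxi hP1 in
/-- First moment form of (P1). -/
theorem first (c : Ev) (hc : c ∈ nb) (g : Q → ℝ) (hg : ∀ z, |g z| ≤ 1) :
    ∑ x, W c x * |avg (fun z => (R c x z - u z) * g z)| ≤ xi :=
  wabs_le hW0 hW1 c _ xi hxi (hP1 c hc g hg)

/-- The mean of `R` over the law of the cell. -/
noncomputable def rho (W : Ev → Q → ℝ) (R : Ev → Q → Q → ℝ) (c : Ev) (z : Q) : ℝ :=
  ∑ x, W c x * R c x z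

include hW0 hW1 hR in
theorem rho_mem (c : Ev) (z : Q) : 0 ≤ rho W R c z ∧ rho W R c z ≤ 1 := by
  constructor
  · exact Finset.sum_nonneg fun x _ => mul_nonneg (hW0 c x) (hR c x z).1
  · calc rho W R c z ≤ ∑ x, W c x * 1 :=
          Finset.sum_le_sum fun x _ => mul_le_mul_of_nonneg_left (hR c x z).2 (hW0 c x)
      _ = 1 := by simp [hW1]

include hW1 in
theorem avg_rho_sub (c : Ev) (v g : Q → ℝ) :
    avg (fun z => (rho W R c z - v z) * g z) =
      ∑ x, W c x * avg (fun z => (R c x z - v z) * g z) := by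
  have h : ∀ z, (rho W R c z - v z) * g z = ∑ x, W c x * ((R c x z - v z) * g z) := by
    intro z
    have : v z = ∑ x, W c x * v z := by rw [← Finset.sum_mul, hW1, one_mul]
    rw [rho, this, ← Finset.sum_sub_distrib, Finset.sum_mul]
    refine Finset.sum_congr rfl fun x _ => ?_
    rw [← this]
    ring
  simp_rw [h]
  rw [avg_sum]
  refine Finset.sum_congr rfl fun x _ => ?_
  rw [avg_mul_left]

include hW0 hW1 hxi hP1 in
theorem avg_rho_le (c : Ev) (hc : c ∈ nb) (g : Q → ℝ) (hg : ∀ z, |g z| ≤ 1) :
    |avg (fun z => (rho W R c z - u z) * g z)| ≤ xi := by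
  rw [avg_rho_sub hW1]
  refine (Finset.abs_sum_le_sum_abs _ _).trans ?_
  refine le_trans (le_of_eq ?_) (first hW0 hW1 nb R u xi hxi hP1 c hc g hg)
  refine Finset.sum_congr rfl fun x _ => ?_
  rw [abs_mul, abs_of_nonneg (hW0 c x)]

include hW0 hW1 hxi hP1 in
/-- `E |<R - rho, g>| <= 2 xi`. -/
theorem avg_R_rho_le (c : Ev) (hc : c ∈ nb) (g : Q → ℝ) (hg : ∀ z, |g z| ≤ 1) :
    ∑ x, W c x * |avg (fun z => (R c x z - rho W R c z) * g z)| ≤ 2 * xi := by
  have h1 := first hW0 hW1 nb R u xi hxi hP1 c hc g hg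
  have h2 := avg_rho_le hW0 hW1 nb R u xi hxi hP1 c hc g hg
  calc ∑ x, W c x * |avg (fun z => (R c x z - rho W R c z) * g z)|
      ≤ ∑ x, W c x * (|avg (fun z => (R c x z - u z) * g z)| + xi) := by
        refine Finset.sum_le_sum fun x _ => mul_le_mul_of_nonneg_left ?_ (hW0 c x)
        have e : avg (fun z => (R c x z - rho W R c z) * g z) =
            avg (fun z => (R c x z - u z) * g z) - avg (fun z => (rho W R c z - u z) * g z) := by
          rw [← avg_sub]
          congr 1
          funext z
          ring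
        rw [e]
        exact (abs_sub _ _).trans (by linarith)
    _ = ∑ x, W c x * |avg (fun z => (R c x z - u z) * g z)| + xi := by
        simp only [mul_add, Finset.sum_add_distrib]
        rw [← Finset.sum_mul, hW1, one_mul]
    _ ≤ 2 * xi := by linarith

include hW0 hW1 hR hxi hP1 in
/-- `E |Z - m| <= 2 xi k`. -/
theorem ex_zl_sub_ml (l : List Ev) (hl : l.Nodup) (g : Q → ℝ) (hg : ∀ z, 0 ≤ g z ∧ g z ≤ 1)
    (p : Ev → Q) :
    ex W l (fun q => |zl nb R l g q - ml nb (rho W R) l g|) p ≤
      2 * xi * ((l.filter (fun c => c ∈ nb)).length : ℝ) := by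
  induction l generalizing g p with
  | nil => simp [ex, zl, ml]
  | cons c l ih =>
    have hcl : c ∉ l := (List.nodup_cons.1 hl).1
    have hl' : l.Nodup := (List.nodup_cons.1 hl).2
    simp only [ex]
    by_cases hc : c ∈ nb
    · have hf : (c :: l).filter (fun c => c ∈ nb) = c :: l.filter (fun c => c ∈ nb) := by
        rw [List.filter_cons_of_pos (by simpa using hc)]
      have hlen : (((c :: l).filter (fun c => c ∈ nb)).length : ℝ) =
          ((l.filter (fun c => c ∈ nb)).length : ℝ) + 1 := by
        rw [hf]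
        push_cast [List.length_cons]
        ring
      set G : Q → ℝ := fun z => g z * ((l.filter (fun c => c ∈ nb)).map
        (fun c => rho W R c z)).prod with hG
      have hGm : ∀ z, |G z| ≤ 1 := by
        intro z
        have h1 := prod_mem_unit (l.filter (fun c => c ∈ nb)) (fun c => rho W R c z)
          (fun c => rho_mem hW0 hW1 R hR c z)
        rw [abs_of_nonneg (mul_nonneg (hg z).1 h1.1)]
        exact mul_le_one₀ (hg z).2 h1.1 h1.2
      have hml : ml nb (rho W R) (c :: l) g = avg (fun z => rho W R c z * G z) := by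
        simp only [ml, hf, List.map_cons, List.prod_cons, hG]
        congr 1
        funext z
        ring
      have key : ∀ x, ex W l (fun q => |zl nb R (c :: l) g q - ml nb (rho W R) (c :: l) g|)
          (Function.update p c x) ≤ 2 * xi * ((l.filter (fun c => c ∈ nb)).length : ℝ) +
            |avg (fun z => (R c x z - rho W R c z) * G z)| := by
        intro x
        have e1 : ex W l (fun q => |zl nb R (c :: l) g q - ml nb (rho W R) (c :: l) g|)
            (Function.update p c x) = ex W l (fun q => |zl nb R l (fun z => g z * R c x z) q -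
              ml nb (rho W R) (c :: l) g|) (Function.update p c x) := by
          refine ex_congr _ fun q hq => ?_
          have hqc : q c = x := by
            rw [hq c hcl, Function.update_self]
          have : zl nb R (c :: l) g q = zl nb R l (fun z => g z * R c x z) q := by
            simp only [zl, hf, List.map_cons, List.prod_cons, hqc]
            congr 1
            funext z
            ring
          rw [this]
        rw [e1]
        have hg' : ∀ z, 0 ≤ g z * R c x z ∧ g z * R c x z ≤ 1 := fun z =>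
          ⟨mul_nonneg (hg z).1 (hR c x z).1, mul_le_one₀ (hg z).2 (hR c x z).1 (hR c x z).2⟩
        have h2 := ih hl' (fun z => g z * R c x z) hg' (Function.update p c x)
        have e2 : ml nb (rho W R) l (fun z => g z * R c x z) - ml nb (rho W R) (c :: l) g =
            avg (fun z => (R c x z - rho W R c z) * G z) := by
          rw [hml, ml, ← avg_sub]
          congr 1
          funext z
          simp only [hG]
          ring
        calc ex W l (fun q => |zl nb R l (fun z => g z * R c x z) q -
              ml nb (rho W R) (c :: l) g|) (Function.update p c x)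
            ≤ ex W l (fun q => |zl nb R l (fun z => g z * R c x z) q -
              ml nb (rho W R) l (fun z => g z * R c x z)| +
              |avg (fun z => (R c x z - rho W R c z) * G z)|) (Function.update p c x) := by
              refine ex_mono hW0 (fun q => ?_) _
              rw [← e2]
              have := abs_sub_le (zl nb R l (fun z => g z * R c x z) q)
                (ml nb (rho W R) l (fun z => g z * R c x z)) (ml nb (rho W R) (c :: l) g)
              exact this
          _ = ex W l (fun q => |zl nb R l (fun z => g z * R c x z) q -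
              ml nb (rho W R) l (fun z => g z * R c x z)|) (Function.update p c x) +
              |avg (fun z => (R c x z - rho W R c z) * G z)| := by
              rw [ex_add, ex_const hW1]
          _ ≤ _ := by linarith
      calc ∑ x, W c x * ex W l (fun q => |zl nb R (c :: l) g q -
            ml nb (rho W R) (c :: l) g|) (Function.update p c x)
          ≤ ∑ x, W c x * (2 * xi * ((l.filter (fun c => c ∈ nb)).length : ℝ) +
            |avg (fun z => (R c x z - rho W R c z) * G z)|) :=
            Finset.sum_le_sum fun x _ => mul_le_mul_of_nonneg_left (key x) (hW0 c x)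
        _ = 2 * xi * ((l.filter (fun c => c ∈ nb)).length : ℝ) +
            ∑ x, W c x * |avg (fun z => (R c x z - rho W R c z) * G z)| := by
            simp only [mul_add, Finset.sum_add_distrib]
            rw [← Finset.sum_mul, hW1, one_mul]
        _ ≤ 2 * xi * ((l.filter (fun c => c ∈ nb)).length : ℝ) + 2 * xi := by
            have := avg_R_rho_le hW0 hW1 nb R u xi hxi hP1 c hc G hGm
            linarith
        _ = _ := by rw [hlen]; ring
    · have hf : (c :: l).filter (fun c => c ∈ nb) = l.filter (fun c => c ∈ nb) := by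
        rw [List.filter_cons_of_neg (by simpa using hc)]
      have h1 : ∀ q, zl nb R (c :: l) g q = zl nb R l g q := by
        intro q
        simp only [zl, hf]
      have h2 : ml nb (rho W R) (c :: l) g = ml nb (rho W R) l g := by
        simp only [ml, hf]
      rw [hf]
      simp_rw [h1, h2]
      calc ∑ x, W c x * ex W l (fun q => |zl nb R l g q - ml nb (rho W R) l g|)
            (Function.update p c x)
          ≤ ∑ x, W c x * (2 * xi * ((l.filter (fun c => c ∈ nb)).length : ℝ)) :=
            Finset.sum_le_sum fun x _ => mul_le_mul_of_nonneg_left (ih hl' g hg _) (hW0 c x)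
        _ = _ := by rw [← Finset.sum_mul, hW1, one_mul]

/-- Products of numbers in `[0,1]` differ by at most the sum of the differences. -/
theorem abs_prod_sub_prod {α : Type} (l : List α) (f g : α → ℝ)
    (hf : ∀ a, 0 ≤ f a ∧ f a ≤ 1) (hg : ∀ a, 0 ≤ g a ∧ g a ≤ 1) :
    |(l.map f).prod - (l.map g).prod| ≤ (l.map (fun a => |f a - g a|)).sum := by
  induction l with
  | nil => simp
  | cons a l ih =>
    simp only [List.map_cons, List.prod_cons, List.sum_cons]
    have h1 := prod_mem_unit l f hf
    have h2 := prod_mem_unit l g hg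
    have e : f a * (l.map f).prod - g a * (l.map g).prod =
        (f a - g a) * (l.map f).prod + g a * ((l.map f).prod - (l.map g).prod) := by ring
    rw [e]
    refine (abs_add_le _ _).trans (add_le_add ?_ ?_)
    · rw [abs_mul]
      calc |f a - g a| * |(l.map f).prod| ≤ |f a - g a| * 1 := by
            refine mul_le_mul_of_nonneg_left ?_ (abs_nonneg _)
            rw [abs_of_nonneg h1.1]
            exact h1.2
        _ = |f a - g a| := mul_one _
    · rw [abs_mul, abs_of_nonneg (hg a).1]
      calc g a * |(l.map f).prod - (l.map g).prod| ≤ 1 * |(l.map f).prod - (l.map g).prod| :=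
            mul_le_mul_of_nonneg_right (hg a).2 (abs_nonneg _)
        _ ≤ _ := by rw [one_mul]; exact ih

include hW0 hW1 hxi hP1 in
theorem avg_abs_rho_le (c : Ev) (hc : c ∈ nb) :
    avg (fun z => |rho W R c z - u z|) ≤ xi := by
  have h := avg_rho_le hW0 hW1 nb R u xi hxi hP1 c hc
    (fun z => if 0 ≤ rho W R c z - u z then 1 else -1) (by
      intro z
      split_ifs <;> simp)
  have e : avg (fun z => (rho W R c z - u z) * (if 0 ≤ rho W R c z - u z then 1 else -1)) =
      avg (fun z => |rho W R c z - u z|) := by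
    congr 1
    funext z
    split_ifs with h0
    · rw [mul_one, abs_of_nonneg h0]
    · rw [abs_of_neg (not_le.1 h0)]
      ring
  rw [e] at h
  exact (le_abs_self _).trans h

theorem pow_avg_le (f : Q → ℝ) (h : ∀ z, 0 ≤ f z) (k : ℕ) :
    (avg f) ^ k ≤ avg (fun z => f z ^ k) := by
  have hQ : (0 : ℝ) < Fintype.card Q := by exact_mod_cast Fintype.card_pos
  have := Real.pow_arith_mean_le_arith_mean_pow (s := Finset.univ)
    (w := fun _ : Q => 1 / (Fintype.card Q : ℝ)) (z := f) (fun _ _ => by positivity)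
    (by simp [hQ.ne']) (fun z _ => h z) k
  have e1 : ∑ z, 1 / (Fintype.card Q : ℝ) * f z = avg f := by
    rw [← Finset.mul_sum, avg]
    ring
  have e2 : ∑ z, 1 / (Fintype.card Q : ℝ) * f z ^ k = avg (fun z => f z ^ k) := by
    rw [← Finset.mul_sum, avg]
    ring
  rw [e1, e2] at this
  exact this

include hW0 hW1 hR hxi hP1 in
/-- Lower bound for the mean. -/
theorem ml_ge (l : List Ev) (e0 : ℝ) (he0 : 0 ≤ 1 / 2 - e0)
    (hP2 : ∀ c ∈ nb, 1 / 2 - e0 ≤ ∑ x, W c x * avg (fun z => R c x z)) :
    (1 / 2 - e0) ^ (l.filter (fun c => c ∈ nb)).length -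
      2 * xi * ((l.filter (fun c => c ∈ nb)).length : ℝ) ≤
      ml nb (rho W R) l (fun _ => 1) := by
  set m := l.filter (fun c => c ∈ nb) with hm
  have hmem : ∀ c ∈ m, c ∈ nb := by
    intro c hc
    have := (List.mem_filter.1 hc).2
    simpa using this
  rcases m.eq_nil_or_concat with hnil | ⟨m', c1, hm'⟩
  · have : ml nb (rho W R) l (fun _ => 1) = 1 := by
      simp only [ml, ← hm, hnil, List.map_nil, List.prod_nil, mul_one]
      exact avg_one
    rw [this, hnil]
    simp
  · have hc1 : c1 ∈ nb := hmem c1 (by rw [hm']; simp)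
    have hrm := fun c z => rho_mem hW0 hW1 R hR c z
    have h1 : ∀ z, (m.map (fun c => rho W R c z)).prod ≥
        rho W R c1 z ^ m.length - (m.map (fun c => |rho W R c z - rho W R c1 z|)).sum := by
      intro z
      have := abs_prod_sub_prod m (fun c => rho W R c z) (fun _ => rho W R c1 z)
        (fun c => hrm c z) (fun _ => hrm c1 z)
      rw [List.map_const', List.prod_replicate] at this
      have := (abs_le.1 this).1
      linarith
    have h2 : ml nb (rho W R) l (fun _ => 1) ≥ avg (fun z => rho W R c1 z ^ m.length) -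
        avg (fun z => (m.map (fun c => |rho W R c z - rho W R c1 z|)).sum) := by
      rw [← avg_sub]
      simp only [ml, ← hm, one_mul]
      exact avg_mono h1
    have h3 : avg (fun z => (m.map (fun c => |rho W R c z - rho W R c1 z|)).sum) ≤
        2 * xi * (m.length : ℝ) := by
      have : ∀ m0 : List Ev, (∀ c ∈ m0, c ∈ nb) →
          avg (fun z => (m0.map (fun c => |rho W R c z - rho W R c1 z|)).sum) ≤
          2 * xi * (m0.length : ℝ) := by
        intro m0
        induction m0 with
        | nil =>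
          intro _
          simp [avg]
        | cons c m0 ih =>
          intro h
          have hc : c ∈ nb := h c List.mem_cons_self
          have ih' := ih (fun c' hc' => h c' (List.mem_cons_of_mem _ hc'))
          simp only [List.map_cons, List.sum_cons, List.length_cons]
          rw [avg_add]
          have a1 := avg_abs_rho_le hW0 hW1 nb R u xi hxi hP1 c hc
          have a2 := avg_abs_rho_le hW0 hW1 nb R u xi hxi hP1 c1 hc1
          have a3 : avg (fun z => |rho W R c z - rho W R c1 z|) ≤ 2 * xi := by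
            calc avg (fun z => |rho W R c z - rho W R c1 z|)
                ≤ avg (fun z => |rho W R c z - u z| + |rho W R c1 z - u z|) := by
                  refine avg_mono fun z => ?_
                  have := abs_sub_le (rho W R c z) (u z) (rho W R c1 z)
                  rw [abs_sub_comm (u z)] at this
                  exact this
              _ ≤ 2 * xi := by rw [avg_add]; linarith
          push_cast
          linarith
      exact this m hmem
    have h4 : (1 / 2 - e0) ^ m.length ≤ avg (fun z => rho W R c1 z ^ m.length) := by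
      refine le_trans ?_ (pow_avg_le (fun z => rho W R c1 z) (fun z => (hrm c1 z).1) m.length)
      refine pow_le_pow_left₀ he0 ?_ _
      refine (hP2 c1 hc1).trans (le_of_eq ?_)
      simp only [rho]
      rw [avg_sum]
      refine Finset.sum_congr rfl fun x _ => ?_
      rw [avg_mul_left]
    linarith

end main

end Z

section convert

variable {Ev Q : Type} [DecidableEq Ev] [Fintype Q] {W : Ev → Q → ℝ}

theorem ex_perm {l l' : List Ev} (h : l.Perm l') (F : (Ev → Q) → ℝ) (p : Ev → Q) :
    ex W l F p = ex W l' F p := by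
  induction h generalizing p with
  | nil => rfl
  | cons c _ ih =>
    refine Finset.sum_congr rfl fun x _ => ?_
    rw [ih]
  | swap c c' l =>
    by_cases hc : c = c'
    · subst hc; rfl
    · simp only [ex, Finset.mul_sum]
      rw [Finset.sum_comm]
      refine Finset.sum_congr rfl fun x _ => Finset.sum_congr rfl fun y _ => ?_
      rw [Function.update_comm (Ne.symm hc)]
      ring
  | trans _ _ ih1 ih2 => rw [ih1, ih2]

theorem ex_drop (hW1 : ∀ c, ∑ x, W c x = 1) (l1 l2 : List Ev) (F : (Ev → Q) → ℝ)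
    (h : ∀ c ∈ l1, ∀ q x, F (Function.update q c x) = F q) (p : Ev → Q) :
    ex W (l1 ++ l2) F p = ex W l2 F p := by
  induction l1 generalizing p with
  | nil => rfl
  | cons c l1 ih =>
    have ih' := fun p => ih (fun c' hc' => h c' (List.mem_cons_of_mem _ hc')) p
    show ∑ x, W c x * ex W (l1 ++ l2) F (Function.update p c x) = _
    simp only [ih']
    have : ∀ x, ex W l2 F (Function.update p c x) = ex W l2 F p := fun x =>
      ex_update (h c List.mem_cons_self) p x
    simp only [this]
    rw [← Finset.sum_mul, hW1, one_mul]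

theorem ex_ofFn : ∀ (k : ℕ) (e : Fin k → Ev), Function.Injective e →
    ∀ (F' : (Fin k → Q) → ℝ) (F : (Ev → Q) → ℝ), (∀ q, F q = F' (fun i => q (e i))) →
    ∀ p : Ev → Q, ex W (List.ofFn e) F p = ∑ q : Fin k → Q, (∏ i, W (e i) (q i)) * F' q
  | 0, e, _, F', F, hF, p => by
    simp only [List.ofFn_zero, ex, hF]
    rw [Fintype.sum_unique]
    simp only [Finset.univ_eq_empty, Finset.prod_empty, one_mul]
    congr 1
    funext i
    exact i.elim0
  | k + 1, e, he, F', F, hF, p => by
    rw [List.ofFn_succ]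
    simp only [ex]
    have he' : Function.Injective (fun i : Fin k => e i.succ) :=
      fun i j h => Fin.succ_injective _ (he h)
    have h0 : e 0 ∉ List.ofFn (fun i : Fin k => e i.succ) := by
      intro h
      rw [List.mem_ofFn] at h
      obtain ⟨i, hi⟩ := h
      exact Fin.succ_ne_zero i (he hi)
    have h1 : ∀ x, ex W (List.ofFn (fun i : Fin k => e i.succ)) F (Function.update p (e 0) x) =
        ∑ q : Fin k → Q, (∏ i, W (e i.succ) (q i)) * F' (Fin.cons x q) := by
      intro x
      have e1 : ex W (List.ofFn (fun i : Fin k => e i.succ)) F (Function.update p (e 0) x) =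
          ex W (List.ofFn (fun i : Fin k => e i.succ))
            (fun q => F' (Fin.cons x (fun i : Fin k => q (e i.succ))))
            (Function.update p (e 0) x) := by
        refine ex_congr _ fun q hq => ?_
        rw [hF]
        congr 1
        funext i
        refine Fin.cases ?_ (fun j => ?_) i
        · rw [hq _ h0]
          simp
        · simp
      rw [e1]
      exact ex_ofFn k (fun i => e i.succ) he' (fun q => F' (Fin.cons x q)) _ (fun q => rfl) _
    simp only [h1]
    rw [← Fintype.sum_equiv (Fin.consEquiv (fun _ : Fin (k + 1) => Q))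
      (fun pq => W (e 0) pq.1 * ((∏ i, W (e (Fin.succ i)) (pq.2 i)) * F' (Fin.cons pq.1 pq.2)))
      (fun q => (∏ i, W (e i) (q i)) * F' q)]
    · rw [Fintype.sum_prod_type]
      refine Finset.sum_congr rfl fun x _ => ?_
      rw [Finset.mul_sum]
    · rintro ⟨x, q⟩
      have e2 : (Fin.consEquiv (fun _ : Fin (k + 1) => Q)) (x, q) = Fin.cons x q := rfl
      rw [e2, Fin.prod_univ_succ]
      simp only [Fin.cons_zero, Fin.cons_succ]
      ring

/-- Marginals of the product measure. -/
theorem ex_marginal [Fintype Ev] (hW1 : ∀ c, ∑ x, W c x = 1) (l : List Ev) (hl : l.Nodup)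
    (hall : ∀ c, c ∈ l) (k : ℕ) (e : Fin k → Ev) (he : Function.Injective e)
    (F' : (Fin k → Q) → ℝ) (p : Ev → Q) :
    ex W l (fun q => F' (fun i => q (e i))) p =
      ∑ q : Fin k → Q, (∏ i, W (e i) (q i)) * F' q := by
  classical
  have hperm : l.Perm ((l.filter (fun c => ∀ i, e i ≠ c)) ++ List.ofFn e) := by
    have h1 := List.filter_append_perm (fun c => decide (∀ i, e i ≠ c)) l
    refine h1.symm.trans (List.Perm.append_left _ ?_)
    rw [List.perm_ext_iff_of_nodup (hl.filter _) (List.nodup_ofFn.2 he)]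
    intro c
    rw [List.mem_filter, List.mem_ofFn]
    constructor
    · rintro ⟨_, h⟩
      simpa using h
    · rintro ⟨i, hi⟩
      exact ⟨hall c, by simpa using ⟨i, hi⟩⟩
  rw [ex_perm hperm, ex_drop hW1, ex_ofFn k e he F' _ (fun q => rfl)]
  intro c hc q x
  have hc' : ∀ i, e i ≠ c := by
    have := (List.mem_filter.1 hc).2
    simpa using this
  congr 1
  funext i
  exact Function.update_of_ne (hc' i) _ _

end convert

/-- (P1), (P2) imply the local estimate (5.2.1). -/
theorem loc_of_P {Q : Type} [Fintype Q] [Nonempty Q] (d k : ℕ) (hk : k ≤ 2 * d)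
    (W : Fin k → Q → ℝ) (hW0 : ∀ i x, 0 ≤ W i x) (hW1 : ∀ i, ∑ x, W i x = 1)
    (R : Fin k → Q → Q → ℝ) (hR : ∀ i x z, R i x z = 0 ∨ R i x z = 1)
    (u : Q → ℝ) (xi e0 : ℝ) (hxi : 0 ≤ xi) (he0 : 0 ≤ e0) (he0' : e0 ≤ 1 / 2)
    (hP1 : ∀ i, ∀ g : Q → ℝ, (∀ z, |g z| ≤ 1) →
      ∑ x, W i x * (avg (fun z => (R i x z - u z) * g z)) ^ 2 ≤ xi ^ 2)
    (hP2 : ∀ i, 1 / 2 - e0 ≤ ∑ x, W i x * avg (fun z => R i x z))
    (hc1 : (1 / 2 : ℝ) ^ (2 * d + 1) ≤ (1 / 2 - e0) ^ (2 * d) - 4 * d * xi)
    (hc2 : 4 * d * xi * 2 ^ (2 * d + 2) * (2 * (8 * (d : ℝ)) ^ (2 * d)) ≤ 1) :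
    ∑ p : Fin k → Q, (∏ i, W i (p i)) *
      (open Classical in if prob {z : Q | ∀ i, R i (p i) z = 1} < (1 / 2 : ℝ) ^ (2 * d + 2)
        then (1 : ℝ) else 0) ≤ 1 / (2 * (8 * (d : ℝ)) ^ (2 * d)) := by
  classical
  have hR' : ∀ c x z, 0 ≤ R c x z ∧ R c x z ≤ 1 := by
    intro c x z
    rcases hR c x z with h | h <;> rw [h] <;> norm_num
  set l : List (Fin k) := List.ofFn (fun i : Fin k => i) with hl
  have hnd : l.Nodup := List.nodup_ofFn.2 Function.injective_id
  have hfil : l.filter (fun c => c ∈ (Finset.univ : Finset (Fin k))) = l := by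
    rw [List.filter_eq_self]
    intro a _
    simp
  have hlen : l.length = k := by rw [hl, List.length_ofFn]
  obtain ⟨z0⟩ := (inferInstance : Nonempty Q)
  let p0 : Fin k → Q := fun _ => z0
  set m := ml Finset.univ (rho W R) l (fun _ => 1) with hm
  have h1 := ex_zl_sub_ml hW0 hW1 Finset.univ R u xi hR' hxi (fun c _ => hP1 c) l hnd
    (fun _ => 1) (fun _ => by norm_num) p0
  have h2 := ml_ge hW0 hW1 Finset.univ R u xi hR' hxi (fun c _ => hP1 c) l e0 (by linarith)
    (fun c _ => hP2 c)
  rw [hfil, hlen] at h1 h2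
  have hkd : (k : ℝ) ≤ 2 * d := by exact_mod_cast hk
  have hm1 : (1 / 2 : ℝ) ^ (2 * d + 1) ≤ m := by
    have a1 : (1 / 2 - e0) ^ (2 * d) ≤ (1 / 2 - e0) ^ k :=
      pow_le_pow_of_le_one (by linarith) (by linarith) hk
    have a2 : 2 * xi * (k : ℝ) ≤ 4 * d * xi := by nlinarith
    linarith
  set tau : ℝ := (1 / 2 : ℝ) ^ (2 * d + 2) with htau
  have htau0 : 0 < tau := by positivity
  have hmt : tau ≤ m - tau := by
    have : (1 / 2 : ℝ) ^ (2 * d + 1) = 2 * tau := by
      rw [htau, pow_succ (1 / 2 : ℝ) (2 * d + 1)]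
      ring
    linarith
  -- identification of Z
  have hZ : ∀ q : Fin k → Q, zl Finset.univ R l (fun _ => 1) q =
      prob {z : Q | ∀ i, R i (q i) z = 1} := by
    intro q
    simp only [zl, prob, hfil, one_mul]
    congr 1
    funext z
    have e1 : (l.map (fun c => R c (q c) z)).prod = ∏ i, R i (q i) z := by
      rw [hl, List.map_ofFn, List.prod_ofFn]
      rfl
    rw [e1]
    by_cases h : ∀ i, R i (q i) z = 1
    · rw [if_pos (show z ∈ {z : Q | ∀ i, R i (q i) z = 1} from h)]
      exact Finset.prod_eq_one fun i _ => h i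
    · rw [if_neg (show z ∉ {z : Q | ∀ i, R i (q i) z = 1} from h)]
      push Not at h
      obtain ⟨i, hi⟩ := h
      exact Finset.prod_eq_zero (Finset.mem_univ i) ((hR i (q i) z).resolve_right hi)
  set F' : (Fin k → Q) → ℝ := fun p =>
      if prob {z : Q | ∀ i, R i (p i) z = 1} < tau then (1 : ℝ) else 0 with hF'
  have h3 : ex W l F' p0 = ∑ p : Fin k → Q, (∏ i, W i (p i)) * F' p :=
    ex_ofFn k (fun i => i) Function.injective_id F' F' (fun q => rfl) p0
  have h4 : tau * ex W l F' p0 ≤ 4 * d * xi := by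
    rw [← ex_smul]
    calc ex W l (fun q => tau * F' q) p0
        ≤ ex W l (fun q => |zl Finset.univ R l (fun _ => 1) q - m|) p0 := by
          refine ex_mono hW0 (fun q => ?_) _
          rw [hZ q, hF']
          dsimp only
          split_ifs with hlt
          · rw [mul_one, abs_sub_comm]
            refine le_trans ?_ (le_abs_self _)
            linarith
          · rw [mul_zero]
            exact abs_nonneg _
      _ ≤ 2 * xi * (k : ℝ) := h1
      _ ≤ 4 * d * xi := by nlinarith
  have h5 : ex W l F' p0 ≤ 1 / (2 * (8 * (d : ℝ)) ^ (2 * d)) := by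
    have hx0 : 0 ≤ ex W l F' p0 := by
      have : ex W l (fun _ => (0 : ℝ)) p0 ≤ ex W l F' p0 := by
        refine ex_mono hW0 (fun q => ?_) _
        rw [hF']
        dsimp only
        split_ifs <;> norm_num
      rwa [ex_const hW1] at this
    have htt : tau * 2 ^ (2 * d + 2) = 1 := by
      rw [htau, ← mul_pow]
      norm_num
    have hB0 : 0 ≤ 2 * (8 * (d : ℝ)) ^ (2 * d) := by positivity
    have h6 : ex W l F' p0 * (2 * (8 * (d : ℝ)) ^ (2 * d)) ≤ 1 := by
      calc ex W l F' p0 * (2 * (8 * (d : ℝ)) ^ (2 * d))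
          = (tau * ex W l F' p0) * 2 ^ (2 * d + 2) * (2 * (8 * (d : ℝ)) ^ (2 * d)) := by
            calc ex W l F' p0 * (2 * (8 * (d : ℝ)) ^ (2 * d))
                = ex W l F' p0 * (2 * (8 * (d : ℝ)) ^ (2 * d)) * (tau * 2 ^ (2 * d + 2)) := by
                  rw [htt, mul_one]
              _ = _ := by ring
        _ ≤ (4 * d * xi) * 2 ^ (2 * d + 2) * (2 * (8 * (d : ℝ)) ^ (2 * d)) := by
            refine mul_le_mul_of_nonneg_right ?_ hB0
            exact mul_le_mul_of_nonneg_right h4 (by positivity)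
        _ ≤ 1 := hc2
    by_cases hd : (2 * (8 * (d : ℝ)) ^ (2 * d)) = 0
    · -- d = 0 is impossible here since then the power is 1
      exfalso
      rcases Nat.eq_zero_or_pos d with h0 | h0
      · subst h0
        norm_num at hd
      · have : (0 : ℝ) < 2 * (8 * (d : ℝ)) ^ (2 * d) := by
          have : (0 : ℝ) < (d : ℝ) := by exact_mod_cast h0
          positivity
        linarith
    · rw [le_div_iff₀ (lt_of_le_of_ne hB0 (Ne.symm hd))]
      exact h6
  rw [h3] at h5
  exact h5

section greedy

variable {Ev Od Q H : Type} [Fintype Ev] [DecidableEq Ev] [Fintype Od] [DecidableEq Od]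
  [Fintype Q] [DecidableEq Q] [DecidableEq H]

theorem sum_union_le' {β : Type} [DecidableEq β] (s t : Finset β) (f : β → ℝ)
    (hf : ∀ x, 0 ≤ f x) : ∑ x ∈ s ∪ t, f x ≤ ∑ x ∈ s, f x + ∑ x ∈ t, f x := by
  rw [← Finset.sum_union_inter]
  have : 0 ≤ ∑ x ∈ s ∩ t, f x := Finset.sum_nonneg fun x _ => hf x
  linarith

theorem sum_biUnion_le' {α β : Type} [DecidableEq α] [DecidableEq β] (s : Finset α)
    (t : α → Finset β) (f : β → ℝ) (hf : ∀ x, 0 ≤ f x) :
    ∑ x ∈ s.biUnion t, f x ≤ ∑ a ∈ s, ∑ x ∈ t a, f x := by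
  induction s using Finset.induction_on with
  | empty => simp
  | insert a s ha ih =>
    rw [Finset.biUnion_insert, Finset.sum_insert ha]
    exact (sum_union_le' _ _ f hf).trans (by linarith)

/-- Markov inequality for the letters of one cell. -/
theorem markov (w : Q → ℝ) (hw : ∀ x, 0 ≤ w x) (a : Q → ℝ) (ha : ∀ x, 0 ≤ a x) (t : ℝ)
    (ht : 0 < t) :
    ∑ x ∈ Finset.univ.filter (fun x => t * (∑ y, w y * a y) < a x), w x ≤ 1 / t := by
  set A := ∑ y, w y * a y with hA
  have hA0 : 0 ≤ A := Finset.sum_nonneg fun x _ => mul_nonneg (hw x) (ha x)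
  rcases hA0.eq_or_lt with h0 | h0
  · have hz : ∀ x, w x * a x = 0 := by
      have := (Finset.sum_eq_zero_iff_of_nonneg
        (fun x _ => mul_nonneg (hw x) (ha x))).1 h0.symm
      exact fun x => this x (Finset.mem_univ x)
    have : ∑ x ∈ Finset.univ.filter (fun x => t * A < a x), w x = 0 := by
      refine Finset.sum_eq_zero fun x hx => ?_
      have h1 := (Finset.mem_filter.1 hx).2
      rw [← h0, mul_zero] at h1
      rcases mul_eq_zero.1 (hz x) with h | h
      · exact h
      · exact absurd h h1.ne'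
    rw [this]
    positivity
  · have h1 : (∑ x ∈ Finset.univ.filter (fun x => t * A < a x), w x) * (t * A) ≤ A := by
      rw [Finset.sum_mul]
      calc ∑ x ∈ Finset.univ.filter (fun x => t * A < a x), w x * (t * A)
          ≤ ∑ x ∈ Finset.univ.filter (fun x => t * A < a x), w x * a x :=
            Finset.sum_le_sum fun x hx =>
              mul_le_mul_of_nonneg_left (Finset.mem_filter.1 hx).2.le (hw x)
        _ ≤ A := Finset.sum_le_sum_of_subset_of_nonneg (Finset.filter_subset _ _)
            fun x _ _ => mul_nonneg (hw x) (ha x)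
    rw [le_div_iff₀ ht]
    have h2 : ((∑ x ∈ Finset.univ.filter (fun x => t * A < a x), w x) * t) * A ≤ 1 * A := by
      linarith
    exact le_of_mul_le_mul_right h2 h0

variable (d : ℕ) (nbs : Od → Finset Ev) (W : Ev → Q → ℝ) (F : Od → (Ev → Q) → ℝ)
  (vE : Ev → Q → H) (near : Ev → Finset Ev)

theorem greedy_even (hd : 1 ≤ d)
    (hdeg : ∀ c : Ev, (Finset.univ.filter (fun o => c ∈ nbs o)).card ≤ 2 * d)
    (hW0 : ∀ c x, 0 ≤ W c x) (hW1 : ∀ c, ∑ x, W c x = 1)
    (hF0 : ∀ o q, 0 ≤ F o q)
    (hFdep : ∀ o c, c ∉ nbs o → ∀ q x, F o (Function.update q c x) = F o q)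
    (hfar : ∀ c c1, c1 ∉ near c → c1 ≠ c → ∀ x y, vE c x ≠ vE c1 y)
    (hcoll : ∀ c, ∀ h : Ev → H,
      ∑ x ∈ Finset.univ.filter (fun x => ∃ c1 ∈ near c, vE c x = h c1), W c x ≤ 1 / 4)
    (kap : ℝ) (hkap : 0 ≤ kap) :
    ∀ (l : List Ev) (done : Finset Ev), l.Nodup → (∀ c ∈ l, c ∉ done) →
      (∀ c, c ∉ l → c ∈ done) → ∀ p : Ev → Q,
      (∀ o, ex W l (F o) p ≤ kap * (8 * (d : ℝ)) ^ (nbs o ∩ done).card) →
      (∀ c ∈ done, ∀ c1 ∈ done, c ≠ c1 → vE c (p c) ≠ vE c1 (p c1)) →
      ∃ p' : Ev → Q, (∀ o, F o p' ≤ kap * (8 * (d : ℝ)) ^ (nbs o).card) ∧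
        ∀ c c1, c ≠ c1 → vE c (p' c) ≠ vE c1 (p' c1) := by
  classical
  intro l
  induction l with
  | nil =>
    intro done _ _ hall p h1 h2
    have hd' : done = Finset.univ := Finset.eq_univ_iff_forall.2 fun c => hall c (by simp)
    refine ⟨p, fun o => ?_, fun c c1 hne => h2 c (by simp [hd']) c1 (by simp [hd']) hne⟩
    have := h1 o
    rw [hd', Finset.inter_univ] at this
    exact this
  | cons c l ih =>
    intro done hnd hdis hall p h1 h2
    have hcl : c ∉ l := (List.nodup_cons.1 hnd).1
    have hl : l.Nodup := (List.nodup_cons.1 hnd).2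
    have hcd : c ∉ done := hdis c List.mem_cons_self
    have hdR : (1 : ℝ) ≤ (d : ℝ) := by exact_mod_cast hd
    have h8 : (0 : ℝ) < 8 * (d : ℝ) := by linarith
    -- the bad letters
    set Coll := Finset.univ.filter (fun x => ∃ c1 ∈ near c, vE c x = vE c1 (p c1)) with hColl
    set Bo : Od → Finset Q := fun o => Finset.univ.filter (fun x =>
      8 * (d : ℝ) * (∑ y, W c y * ex W l (F o) (Function.update p c y)) <
        ex W l (F o) (Function.update p c x)) with hBo
    have hexn : ∀ o q, 0 ≤ ex W l (F o) q := by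
      intro o q
      have : ex W l (fun _ => (0 : ℝ)) q ≤ ex W l (F o) q := ex_mono hW0 (hF0 o) q
      rwa [ex_const hW1] at this
    have hBo' : ∀ o, ∑ x ∈ Bo o, W c x ≤ 1 / (8 * (d : ℝ)) := fun o =>
      markov (W c) (hW0 c) (fun x => ex W l (F o) (Function.update p c x))
        (fun x => hexn o _) (8 * (d : ℝ)) h8
    have hU : ∑ x ∈ Coll ∪ (Finset.univ.filter (fun o => c ∈ nbs o)).biUnion Bo, W c x ≤
        1 / 2 := by
      calc ∑ x ∈ Coll ∪ (Finset.univ.filter (fun o => c ∈ nbs o)).biUnion Bo, W c x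
          ≤ ∑ x ∈ Coll, W c x +
            ∑ x ∈ (Finset.univ.filter (fun o => c ∈ nbs o)).biUnion Bo, W c x :=
            sum_union_le' _ _ _ (hW0 c)
        _ ≤ 1 / 4 + ∑ o ∈ Finset.univ.filter (fun o => c ∈ nbs o), ∑ x ∈ Bo o, W c x :=
            add_le_add (hcoll c (fun c1 => vE c1 (p c1))) (sum_biUnion_le' _ _ _ (hW0 c))
        _ ≤ 1 / 4 + ∑ o ∈ Finset.univ.filter (fun o => c ∈ nbs o), 1 / (8 * (d : ℝ)) := by
            gcongr with o _
            exact hBo' o
        _ ≤ 1 / 4 + (2 * d : ℝ) * (1 / (8 * (d : ℝ))) := by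
            rw [Finset.sum_const, nsmul_eq_mul]
            have : ((Finset.univ.filter (fun o => c ∈ nbs o)).card : ℝ) ≤ 2 * d := by
              exact_mod_cast hdeg c
            gcongr
        _ = 1 / 2 := by
            have : (d : ℝ) ≠ 0 := by linarith
            field_simp
            norm_num
    have hex : ∃ x, x ∉ Coll ∪ (Finset.univ.filter (fun o => c ∈ nbs o)).biUnion Bo := by
      by_contra hcon
      push Not at hcon
      have : Coll ∪ (Finset.univ.filter (fun o => c ∈ nbs o)).biUnion Bo = Finset.univ :=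
        Finset.eq_univ_iff_forall.2 hcon
      rw [this, hW1] at hU
      norm_num at hU
    obtain ⟨x, hx⟩ := hex
    rw [Finset.mem_union, not_or] at hx
    refine ih (insert c done) hl ?_ ?_ (Function.update p c x) ?_ ?_
    · intro c' hc' h
      rcases Finset.mem_insert.1 h with h | h
      · subst h
        exact hcl hc'
      · exact hdis c' (List.mem_cons_of_mem _ hc') h
    · intro c' hc'
      by_cases h : c' = c
      · subst h
        exact Finset.mem_insert_self _ _
      · exact Finset.mem_insert_of_mem (hall c' (by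
          rw [List.mem_cons, not_or]
          exact ⟨h, hc'⟩))
    · intro o
      by_cases hco : c ∈ nbs o
      · have hcard : (nbs o ∩ insert c done).card = (nbs o ∩ done).card + 1 := by
          rw [Finset.inter_insert_of_mem hco, Finset.card_insert_of_notMem]
          exact fun h => hcd (Finset.mem_inter.1 h).2
        have h3 : ex W l (F o) (Function.update p c x) ≤
            8 * (d : ℝ) * (∑ y, W c y * ex W l (F o) (Function.update p c y)) := by
          by_contra hcon
          push Not at hcon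
          exact hx.2 (Finset.mem_biUnion.2 ⟨o, Finset.mem_filter.2 ⟨Finset.mem_univ _, hco⟩,
            Finset.mem_filter.2 ⟨Finset.mem_univ _, hcon⟩⟩)
        have h4 := h1 o
        simp only [ex] at h4
        rw [hcard, pow_succ]
        calc ex W l (F o) (Function.update p c x) ≤
            8 * (d : ℝ) * (∑ y, W c y * ex W l (F o) (Function.update p c y)) := h3
          _ ≤ 8 * (d : ℝ) * (kap * (8 * (d : ℝ)) ^ (nbs o ∩ done).card) :=
              mul_le_mul_of_nonneg_left h4 h8.le
          _ = _ := by ring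
      · have hcard : nbs o ∩ insert c done = nbs o ∩ done :=
          Finset.inter_insert_of_notMem hco
        rw [hcard, ex_update (hFdep o c hco) p x]
        have h4 := h1 o
        have h5 : ex W (c :: l) (F o) p = ex W l (F o) p := by
          have := ex_drop (W := W) hW1 [c] l (F o) (by
            intro c' hc' q y
            rw [List.mem_singleton] at hc'
            subst hc'
            exact hFdep o c' hco q y) p
          exact this
        rw [h5] at h4
        exact h4
    · have hnew : ∀ c1 ∈ done, vE c x ≠ vE c1 (p c1) := by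
        intro c1 hc1 heq
        have hne : c1 ≠ c := fun h => hcd (by rw [← h]; exact hc1)
        by_cases hn : c1 ∈ near c
        · exact hx.1 (Finset.mem_filter.2 ⟨Finset.mem_univ _, c1, hn, heq⟩)
        · exact hfar c c1 hn hne _ _ heq
      intro c1 hc1 c2 hc2 hne
      rcases Finset.mem_insert.1 hc1 with h1' | h1'
      · rcases Finset.mem_insert.1 hc2 with h2' | h2'
        · exact absurd (h1'.trans h2'.symm) hne
        · have hne2 : c2 ≠ c := fun h => hcd (by rw [← h]; exact h2')
          rw [h1', Function.update_self, Function.update_of_ne hne2]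
          exact hnew c2 h2'
      · have hne1 : c1 ≠ c := fun h => hcd (by rw [← h]; exact h1')
        rcases Finset.mem_insert.1 hc2 with h2' | h2'
        · rw [h2', Function.update_self, Function.update_of_ne hne1]
          exact (hnew c1 h1').symm
        · have hne2 : c2 ≠ c := fun h => hcd (by rw [← h]; exact h2')
          rw [Function.update_of_ne hne1, Function.update_of_ne hne2]
          exact h2 c1 h1' c2 h2' hne

/-- Greedy choice of the odd cells. -/
theorem greedy_odd (nearO : Od → Finset (Ev ⊕ Od)) (vtx : Ev ⊕ Od → Q → H) (p : Ev → Q)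
    (Go : Od → Finset Q) (N1 Kf : ℕ) (hKf : 0 < Kf)
    (hnear : ∀ o, (nearO o).card ≤ N1)
    (hfar : ∀ o c, c ∉ nearO o → c ≠ Sum.inr o → ∀ x y, vtx (Sum.inr o) x ≠ vtx c y)
    (hfib : ∀ o h, (Finset.univ.filter (fun x => vtx (Sum.inr o) x = h)).card * Kf ≤
      Fintype.card Q)
    (hGo : ∀ o, N1 * Fintype.card Q < (Go o).card * Kf) (S : Finset Od) :
    ∃ z : Od → Q, (∀ o ∈ S, z o ∈ Go o) ∧
      (∀ o ∈ S, ∀ c, vtx (Sum.inr o) (z o) ≠ vtx (Sum.inl c) (p c)) ∧
      (∀ o ∈ S, ∀ o' ∈ S, o ≠ o' → vtx (Sum.inr o) (z o) ≠ vtx (Sum.inr o') (z o')) := by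
  classical
  induction S using Finset.induction_on with
  | empty =>
    by_cases hO : Nonempty Od
    · obtain ⟨o0⟩ := hO
      have hpos : 0 < (Go o0).card := by
        rcases Nat.eq_zero_or_pos (Go o0).card with h | h
        · have := hGo o0
          rw [h] at this
          omega
        · exact h
      obtain ⟨z0, _⟩ := Finset.card_pos.1 hpos
      exact ⟨fun _ => z0, by simp, by simp, by simp⟩
    · exact ⟨fun o => (hO ⟨o⟩).elim, by simp, by simp, by simp⟩
  | insert o S ho ih =>
    obtain ⟨z, h1, h2, h3⟩ := ih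
    -- the values to be avoided
    let val : Ev ⊕ Od → H := fun c => vtx c (Sum.elim p z c)
    have hex : ∃ x ∈ Go o, ∀ c ∈ nearO o, vtx (Sum.inr o) x ≠ val c := by
      by_contra hcon
      push Not at hcon
      have hsub : Go o ⊆ (nearO o).biUnion (fun c =>
          Finset.univ.filter (fun x => vtx (Sum.inr o) x = val c)) := by
        intro x hx
        obtain ⟨c, hc, hxc⟩ := hcon x hx
        exact Finset.mem_biUnion.2 ⟨c, hc, Finset.mem_filter.2 ⟨Finset.mem_univ _, hxc⟩⟩
      have hle : (Go o).card * Kf ≤ N1 * Fintype.card Q := by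
        calc (Go o).card * Kf ≤ (∑ c ∈ nearO o, (Finset.univ.filter
              (fun x => vtx (Sum.inr o) x = val c)).card) * Kf :=
              Nat.mul_le_mul_right _ ((Finset.card_le_card hsub).trans Finset.card_biUnion_le)
          _ = ∑ c ∈ nearO o, (Finset.univ.filter
              (fun x => vtx (Sum.inr o) x = val c)).card * Kf := by rw [Finset.sum_mul]
          _ ≤ ∑ c ∈ nearO o, Fintype.card Q := Finset.sum_le_sum fun c _ => hfib o _
          _ = (nearO o).card * Fintype.card Q := by rw [Finset.sum_const, smul_eq_mul]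
          _ ≤ N1 * Fintype.card Q := Nat.mul_le_mul_right _ (hnear o)
      exact absurd (hGo o) (not_lt.2 hle)
    obtain ⟨x, hxG, hx⟩ := hex
    have hno : ∀ o' ∈ S, o' ≠ o := fun o' h h' => ho (h' ▸ h)
    have hup : ∀ o' ∈ S, Function.update z o x o' = z o' := fun o' h =>
      Function.update_of_ne (hno o' h) _ _
    have hE : ∀ c, vtx (Sum.inr o) x ≠ vtx (Sum.inl c) (p c) := by
      intro c
      by_cases hn : Sum.inl c ∈ nearO o
      · exact hx _ hn
      · exact hfar o _ hn (by simp) _ _
    have hO' : ∀ o' ∈ S, vtx (Sum.inr o) x ≠ vtx (Sum.inr o') (z o') := by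
      intro o' ho'
      by_cases hn : Sum.inr o' ∈ nearO o
      · exact hx _ hn
      · exact hfar o _ hn (fun h => hno o' ho' (Sum.inr_injective h)) _ _
    refine ⟨Function.update z o x, ?_, ?_, ?_⟩
    · intro o' ho'
      rcases Finset.mem_insert.1 ho' with h | h
      · subst h
        rw [Function.update_self]
        exact hxG
      · rw [hup o' h]
        exact h1 o' h
    · intro o' ho' c
      rcases Finset.mem_insert.1 ho' with h | h
      · subst h
        rw [Function.update_self]
        exact hE c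
      · rw [hup o' h]
        exact h2 o' h c
    · intro o1 ho1 o2 ho2 hne
      rcases Finset.mem_insert.1 ho1 with h | h
      · rcases Finset.mem_insert.1 ho2 with h' | h'
        · exact absurd (h.trans h'.symm) hne
        · rw [h, Function.update_self, hup o2 h']
          exact hO' o2 h'
      · rcases Finset.mem_insert.1 ho2 with h' | h'
        · rw [h', Function.update_self, hup o1 h]
          exact (hO' o1 h).symm
        · rw [hup o1 h, hup o2 h']
          exact h3 o1 h o2 h' hne

end greedy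

/-- Embedding core (5.2.2, 5.2.3). -/
theorem embed_core {Ev Od Q H : Type} [Fintype Ev] [DecidableEq Ev] [Fintype Od]
    [DecidableEq Od] [Fintype Q] [Nonempty Q] [DecidableEq Q] [DecidableEq H]
    (d : ℕ) (hd : 1 ≤ d) (k : Od → ℕ) (hk : ∀ o, k o ≤ 2 * d)
    (e : ∀ o, Fin (k o) → Ev) (he : ∀ o, Function.Injective (e o))
    (hdeg : ∀ c : Ev, (Finset.univ.filter (fun o => ∃ i, e o i = c)).card ≤ 2 * d)
    (W : Ev → Q → ℝ) (hW0 : ∀ c x, 0 ≤ W c x) (hW1 : ∀ c, ∑ x, W c x = 1) (Cw : ℝ)
    (hWle : ∀ c x, W c x * Fintype.card Q ≤ Cw)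
    (vtx : Ev ⊕ Od → Q → H) (near : Ev ⊕ Od → Finset (Ev ⊕ Od)) (N1 Kf : ℕ) (hKf : 0 < Kf)
    (hnear : ∀ c, (near c).card ≤ N1)
    (hfar : ∀ c c1, c1 ∉ near c → c1 ≠ c → ∀ x y, vtx c x ≠ vtx c1 y)
    (hfib : ∀ c h, (Finset.univ.filter (fun x => vtx c x = h)).card * Kf ≤ Fintype.card Q)
    (ok : H → H → Prop)
    (hloc : ∀ o, ∑ p : Fin (k o) → Q, (∏ i, W (e o i) (p i)) *
      (open Classical in
        if prob {z : Q | ∀ i, ok (vtx (Sum.inl (e o i)) (p i)) (vtx (Sum.inr o) z)} <
          (1 / 2 : ℝ) ^ (2 * d + 2) then (1 : ℝ) else 0) ≤ 1 / (2 * (8 * (d : ℝ)) ^ (2 * d)))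
    (hK1 : 4 * Cw * N1 ≤ Kf) (hK2 : N1 * 2 ^ (2 * d + 2) < Kf) :
    ∃ pt : Ev ⊕ Od → Q, Function.Injective (fun c => vtx c (pt c)) ∧
      ∀ o i, ok (vtx (Sum.inl (e o i)) (pt (Sum.inl (e o i)))) (vtx (Sum.inr o) (pt (Sum.inr o))) := by
  classical
  obtain ⟨z0⟩ := (inferInstance : Nonempty Q)
  set tau : ℝ := (1 / 2 : ℝ) ^ (2 * d + 2) with htau
  set kap : ℝ := 1 / (2 * (8 * (d : ℝ)) ^ (2 * d)) with hkapd
  have hdR : (1 : ℝ) ≤ (d : ℝ) := by exact_mod_cast hd
  have h8 : (1 : ℝ) ≤ 8 * (d : ℝ) := by linarith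
  have hpow : 0 < (8 * (d : ℝ)) ^ (2 * d) := by positivity
  have hkap : 0 ≤ kap := by positivity
  have hQ : (0 : ℝ) < Fintype.card Q := by exact_mod_cast Fintype.card_pos
  have hKR : (0 : ℝ) < (Kf : ℝ) := by exact_mod_cast hKf
  let nbs : Od → Finset Ev := fun o => Finset.univ.image (e o)
  have hnbs : ∀ o c, c ∈ nbs o ↔ ∃ i, e o i = c := by
    intro o c
    simp [nbs]
  have hnbsc : ∀ o, (nbs o).card ≤ 2 * d := by
    intro o
    refine (Finset.card_image_le).trans ?_
    simpa using hk o
  let F' : ∀ o, (Fin (k o) → Q) → ℝ := fun o p =>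
    if prob {z : Q | ∀ i, ok (vtx (Sum.inl (e o i)) (p i)) (vtx (Sum.inr o) z)} < tau
      then (1 : ℝ) else 0
  let F : Od → (Ev → Q) → ℝ := fun o q => F' o (fun i => q (e o i))
  have hF0 : ∀ o q, 0 ≤ F o q := by
    intro o q
    show 0 ≤ F' o _
    dsimp only [F']
    split_ifs <;> norm_num
  have hFdep : ∀ o c, c ∉ nbs o → ∀ q x, F o (Function.update q c x) = F o q := by
    intro o c hc q x
    show F' o _ = F' o _
    congr 1
    funext i
    refine Function.update_of_ne (fun h => hc ((hnbs o c).2 ⟨i, h⟩)) _ _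
  let nearE : Ev → Finset Ev := fun c => Finset.univ.filter (fun c1 => Sum.inl c1 ∈ near (Sum.inl c))
  have hnearE : ∀ c, (nearE c).card ≤ N1 := by
    intro c
    refine le_trans ?_ (hnear (Sum.inl c))
    refine Finset.card_le_card_of_injOn (fun c1 => Sum.inl c1) ?_ ?_
    · intro c1 hc1
      exact (Finset.mem_filter.1 (Finset.mem_coe.1 hc1)).2
    · intro a _ b _ h
      exact Sum.inl_injective h
  have hcoll : ∀ c, ∀ h : Ev → H,
      ∑ x ∈ Finset.univ.filter (fun x => ∃ c1 ∈ nearE c, vtx (Sum.inl c) x = h c1), W c x ≤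
        1 / 4 := by
    intro c h
    have hW0' : 0 ≤ Cw := (mul_nonneg (hW0 c z0) hQ.le).trans (hWle c z0)
    have hsub : Finset.univ.filter (fun x => ∃ c1 ∈ nearE c, vtx (Sum.inl c) x = h c1) ⊆
        (nearE c).biUnion (fun c1 => Finset.univ.filter (fun x => vtx (Sum.inl c) x = h c1)) := by
      intro x hx
      obtain ⟨c1, hc1, hx1⟩ := (Finset.mem_filter.1 hx).2
      exact Finset.mem_biUnion.2 ⟨c1, hc1, Finset.mem_filter.2 ⟨Finset.mem_univ _, hx1⟩⟩
    have h1 : ∀ c1, ∑ x ∈ Finset.univ.filter (fun x => vtx (Sum.inl c) x = h c1), W c x ≤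
        Cw / Kf := by
      intro c1
      have a1 : ∀ x, W c x ≤ Cw / Fintype.card Q := fun x => by
        rw [le_div_iff₀ hQ]
        exact hWle c x
      calc ∑ x ∈ Finset.univ.filter (fun x => vtx (Sum.inl c) x = h c1), W c x
          ≤ ∑ x ∈ Finset.univ.filter (fun x => vtx (Sum.inl c) x = h c1),
              Cw / Fintype.card Q := Finset.sum_le_sum fun x _ => a1 x
        _ = ((Finset.univ.filter (fun x => vtx (Sum.inl c) x = h c1)).card : ℝ) *
              (Cw / Fintype.card Q) := by rw [Finset.sum_const, nsmul_eq_mul]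
        _ ≤ ((Fintype.card Q : ℝ) / Kf) * (Cw / Fintype.card Q) := by
            refine mul_le_mul_of_nonneg_right ?_ (by positivity)
            rw [le_div_iff₀ hKR]
            exact_mod_cast hfib (Sum.inl c) (h c1)
        _ = Cw / Kf := by
            field_simp
    calc ∑ x ∈ Finset.univ.filter (fun x => ∃ c1 ∈ nearE c, vtx (Sum.inl c) x = h c1), W c x
        ≤ ∑ x ∈ (nearE c).biUnion (fun c1 =>
            Finset.univ.filter (fun x => vtx (Sum.inl c) x = h c1)), W c x :=
          Finset.sum_le_sum_of_subset_of_nonneg hsub fun x _ _ => hW0 c x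
      _ ≤ ∑ c1 ∈ nearE c, ∑ x ∈ Finset.univ.filter (fun x => vtx (Sum.inl c) x = h c1), W c x :=
          sum_biUnion_le' _ _ _ (hW0 c)
      _ ≤ ∑ c1 ∈ nearE c, Cw / Kf := Finset.sum_le_sum fun c1 _ => h1 c1
      _ = ((nearE c).card : ℝ) * (Cw / Kf) := by rw [Finset.sum_const, nsmul_eq_mul]
      _ ≤ (N1 : ℝ) * (Cw / Kf) := by
          refine mul_le_mul_of_nonneg_right ?_ (by positivity)
          exact_mod_cast hnearE c
      _ ≤ 1 / 4 := by
          rw [← mul_div_assoc, div_le_div_iff₀ hKR (by norm_num)]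
          linarith
  have hinit : ∀ o, ex W Finset.univ.toList (F o) (fun _ => z0) ≤
      kap * (8 * (d : ℝ)) ^ (nbs o ∩ ∅).card := by
    intro o
    rw [Finset.inter_empty, Finset.card_empty, pow_zero, mul_one]
    have := ex_marginal (W := W) hW1 Finset.univ.toList (Finset.nodup_toList _)
      (fun c => Finset.mem_toList.2 (Finset.mem_univ c)) (k o) (e o) (he o) (F' o) (fun _ => z0)
    show ex W Finset.univ.toList (fun q => F' o (fun i => q (e o i))) (fun _ => z0) ≤ kap
    rw [this]
    exact hloc o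
  obtain ⟨p, hp1, hp2⟩ := greedy_even d nbs W F (fun c => vtx (Sum.inl c)) nearE hd
    (by
      intro c
      refine le_trans (le_of_eq ?_) (hdeg c)
      congr 1
      ext o
      simp only [Finset.mem_filter, Finset.mem_univ, true_and]
      exact hnbs o c)
    hW0 hW1 hF0 hFdep
    (by
      intro c c1 hc1 hne x y
      refine hfar (Sum.inl c) (Sum.inl c1) (fun h => hc1 ?_) (fun h => hne (Sum.inl_injective h)) x y
      exact Finset.mem_filter.2 ⟨Finset.mem_univ _, h⟩)
    hcoll kap hkap Finset.univ.toList ∅ (Finset.nodup_toList _) (by simp) (by simp)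
    (fun _ => z0) hinit (by simp)
  have hF1 : ∀ o, F o p = 0 := by
    intro o
    have h1 : F o p < 1 := by
      calc F o p ≤ kap * (8 * (d : ℝ)) ^ (nbs o).card := hp1 o
        _ ≤ kap * (8 * (d : ℝ)) ^ (2 * d) :=
            mul_le_mul_of_nonneg_left (pow_le_pow_right₀ h8 (hnbsc o)) hkap
        _ = 1 / 2 := by
            rw [hkapd]
            field_simp
        _ < 1 := by norm_num
    have h2 : F o p = 0 ∨ F o p = 1 := by
      show F' o _ = 0 ∨ F' o _ = 1
      dsimp only [F']
      split_ifs
      · exact Or.inr rfl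
      · exact Or.inl rfl
    rcases h2 with h | h
    · exact h
    · rw [h] at h1
      exact absurd h1 (lt_irrefl _)
  let Go : Od → Finset Q := fun o => Finset.univ.filter (fun z =>
    ∀ i, ok (vtx (Sum.inl (e o i)) (p (e o i))) (vtx (Sum.inr o) z))
  have hGoc : ∀ o, tau * Fintype.card Q ≤ ((Go o).card : ℝ) := by
    intro o
    have h1 := hF1 o
    have h2 : ¬ prob {z : Q | ∀ i, ok (vtx (Sum.inl (e o i)) (p (e o i))) (vtx (Sum.inr o) z)} <
        tau := by
      intro hlt
      have : F o p = 1 := by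
        show F' o _ = 1
        dsimp only [F']
        rw [if_pos hlt]
      rw [this] at h1
      norm_num at h1
    push Not at h2
    have h3 : prob {z : Q | ∀ i, ok (vtx (Sum.inl (e o i)) (p (e o i))) (vtx (Sum.inr o) z)} =
        ((Go o).card : ℝ) / Fintype.card Q := by
      unfold prob avg
      congr 1
      have h4 := Finset.sum_boole (R := ℝ)
        (fun z : Q => ∀ i, ok (vtx (Sum.inl (e o i)) (p (e o i))) (vtx (Sum.inr o) z))
        Finset.univ
      refine Eq.trans ?_ h4
      refine Finset.sum_congr rfl fun z _ => ?_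
      by_cases hz : ∀ i, ok (vtx (Sum.inl (e o i)) (p (e o i))) (vtx (Sum.inr o) z)
      · exact (if_pos hz).trans (if_pos hz).symm
      · exact (if_neg hz).trans (if_neg hz).symm
    rw [h3, le_div_iff₀ hQ] at h2
    exact h2
  have hGo : ∀ o, N1 * Fintype.card Q < (Go o).card * Kf := by
    intro o
    have h1 : (N1 : ℝ) < tau * Kf := by
      have h2 : (N1 : ℝ) * 2 ^ (2 * d + 2) < Kf := by exact_mod_cast hK2
      have htt : tau * 2 ^ (2 * d + 2) = 1 := by
        rw [htau, ← mul_pow]
        norm_num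
      have ht0 : 0 < tau := by positivity
      calc (N1 : ℝ) = tau * ((N1 : ℝ) * 2 ^ (2 * d + 2)) := by
            calc (N1 : ℝ) = (N1 : ℝ) * (tau * 2 ^ (2 * d + 2)) := by rw [htt, mul_one]
              _ = _ := by ring
        _ < tau * Kf := mul_lt_mul_of_pos_left h2 ht0
    have h3 : (N1 : ℝ) * Fintype.card Q < ((Go o).card : ℝ) * Kf := by
      calc (N1 : ℝ) * Fintype.card Q < (tau * Kf) * Fintype.card Q :=
            mul_lt_mul_of_pos_right h1 hQ
        _ = (tau * Fintype.card Q) * Kf := by ring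
        _ ≤ ((Go o).card : ℝ) * Kf := mul_le_mul_of_nonneg_right (hGoc o) hKR.le
    exact_mod_cast h3
  obtain ⟨z, hz1, hz2, hz3⟩ := greedy_odd (fun o => near (Sum.inr o)) vtx p Go N1 Kf hKf
    (fun o => hnear _) (fun o c hc hne x y => hfar _ _ hc hne x y) (fun o h => hfib _ h) hGo
    Finset.univ
  refine ⟨Sum.elim p z, ?_, ?_⟩
  · rintro (c | o) (c' | o') h
    · by_contra hne
      exact hp2 c c' (fun h' => hne (by rw [h'])) h
    · exact absurd h.symm (hz2 o' (Finset.mem_univ _) c)
    · exact absurd h (hz2 o (Finset.mem_univ _) c')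
    · by_contra hne
      exact hz3 o (Finset.mem_univ _) o' (Finset.mem_univ _) (fun h' => hne (by rw [h'])) h
  · intro o i
    have := (Finset.mem_filter.1 (hz1 o (Finset.mem_univ _))).2 i
    exact this

end Emb

end Pool.Agent.SRL
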