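import Pool.Agent.SRL.Flips

/-!
Linear size-Ramsey number of grids: monotonicity of the arrow relation; counting of the fibres
which meet a given fibre.
-/

set_option autoImplicit false
set_option linter.unusedSectionVars false
set_option linter.unusedVariables false

namespace Pool.Agent.SRL

open Finset
open Pool.Agent.Helper47.SizeRamsey

/-! ### The arrow relation -/

theorem Arrows.mono {V W W' : Type*} {G : SimpleGraph V} {H : SimpleGraph W}
    {H' : SimpleGraph W'} (h : Arrows G H) (f : W' → W) (hf : Function.Injective f)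
    (hadj : ∀ x y, H'.Adj x y → H.Adj (f x) (f y)) : Arrows G H' := by
  intro c
  obtain ⟨b, g, hg, hc⟩ := h c
  exact ⟨b, g ∘ f, hg.comp hf, fun x y hxy => hc _ _ (hadj x y hxy)⟩

/-- `Arrows` is monotone in the host. -/
theorem Arrows.mono_left {V W : Type*} {G G' : SimpleGraph V} {H : SimpleGraph W}
    (h : Arrows G H) (hG : G ≤ G') : Arrows G' H := by
  intro c
  obtain ⟨b, g, hg, hc⟩ := h c
  exact ⟨b, g, hg, fun x y hxy => ⟨hG (hc x y hxy).1, (hc x y hxy).2⟩⟩

/-- If the larger grid is arrowed, so is the smaller one. -/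
theorem arrows_grid_mono {V : Type*} {G : SimpleGraph V} {d n n' : ℕ} (hn : n ≤ n')
    (h : Arrows G (gridGraph d n')) : Arrows G (gridGraph d n) := by
  refine Arrows.mono h (fun x i => Fin.castLE hn (x i)) ?_ ?_
  · intro x y hxy
    funext i
    have := congrFun hxy i
    exact Fin.castLE_injective hn this
  · rintro x y ⟨i, h1, h2⟩
    refine ⟨i, fun j hj => ?_, ?_⟩
    · show Fin.castLE hn (x j) = Fin.castLE hn (y j)
      rw [h1 j hj]
    · simpa using h2

/-! ### Fibres -/

section fibre

variable {B L X : Type} [DecidableEq B] {J K : ℕ}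

/-- The names `p` of a given vertex `v` in the fibre of `w`. -/
theorem card_names (S : CS (Fin J ⊕ B) L X) (w : St (Fin J) L X) (v : X × Fin K)
    [DecidablePred fun p : Finset (Fin J) × Fin K => vx S w p = v] :
    (Finset.univ.filter (fun p : Finset (Fin J) × Fin K => vx S w p = v)).card ≤ 2 ^ J := by
  have h1 : (Finset.univ.filter (fun p : Finset (Fin J) × Fin K => vx S w p = v)).card
      ≤ (Finset.univ : Finset (Finset (Fin J))).card := by
    apply Finset.card_le_card_of_injOn (fun p => p.1) (fun _ _ => Finset.mem_univ _)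
    intro p hp p' hp' hpp
    have h2 : vx S w p = v := by simpa using hp
    have h3 : vx S w p' = v := by simpa using hp'
    have h4 : p.2 = v.2 := by rw [← h2]; rfl
    have h5 : p'.2 = v.2 := by rw [← h3]; rfl
    exact Prod.ext hpp (h4.trans h5.symm)
  refine h1.trans ?_
  simp

theorem card_names_mul (S : CS (Fin J ⊕ B) L X) (w : St (Fin J) L X) (v : X × Fin K)
    [DecidablePred fun p : Finset (Fin J) × Fin K => vx S w p = v] :
    (Finset.univ.filter (fun p : Finset (Fin J) × Fin K => vx S w p = v)).card * K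
      ≤ Fintype.card (Finset (Fin J) × Fin K) := by
  refine (Nat.mul_le_mul_right K (card_names S w v)).trans ?_
  simp

/-- Every host vertex lies in few fibres. -/
theorem card_fibre [Fintype L] [Fintype X] (S : CS (Fin J ⊕ B) L X) (v : X × Fin K) :
    {w : St (Fin J) L X | ∃ p : Finset (Fin J) × Fin K, vx S w p = v}.ncard
      ≤ 2 ^ J * Fintype.card L ^ J := by
  classical
  let S' := S.comap (Sum.inl : Fin J → Fin J ⊕ B) Sum.inl_injective
  let F : Finset (Fin J) × (Fin J → L) → St (Fin J) L X := fun z => S'.flipSet z.1 (v.1, z.2)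
  have hsub : {w : St (Fin J) L X | ∃ p : Finset (Fin J) × Fin K, vx S w p = v}
      ⊆ Set.range F := by
    rintro w ⟨p, hp⟩
    refine ⟨(p.1, (S'.flipSet p.1 w).2), ?_⟩
    have h1 : v.1 = (S'.flipSet p.1 w).1 := by rw [← hp]; rfl
    show S'.flipSet p.1 (v.1, (S'.flipSet p.1 w).2) = w
    rw [h1]
    exact S'.flipSet_flipSet p.1 w
  calc {w : St (Fin J) L X | ∃ p : Finset (Fin J) × Fin K, vx S w p = v}.ncard
      ≤ (Set.range F).ncard := Set.ncard_le_ncard hsub (Set.finite_range F)
    _ ≤ Fintype.card (Finset (Fin J) × (Fin J → L)) := by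
        rw [← Set.image_univ]
        refine le_trans (Set.ncard_image_le Set.finite_univ) ?_
        rw [Set.ncard_univ, Nat.card_eq_fintype_card]
    _ = 2 ^ J * Fintype.card L ^ J := by
        simp only [Fintype.card_prod, Fintype.card_fin, Fintype.card_fun, Fintype.card_finset]

/-- Few fibres meet a given fibre. -/
theorem card_near_states [Fintype L] [Fintype X] (S : CS (Fin J ⊕ B) L X)
    (w : St (Fin J) L X) :
    {w' : St (Fin J) L X | ∃ p p' : Finset (Fin J) × Fin K, vx S w p = vx S w' p'}.ncard
      ≤ 4 ^ J * Fintype.card L ^ J := by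
  classical
  let S' := S.comap (Sum.inl : Fin J → Fin J ⊕ B) Sum.inl_injective
  let F : (Finset (Fin J) × Finset (Fin J)) × (Fin J → L) → St (Fin J) L X :=
    fun z => S'.flipSet z.1.2 ((S'.flipSet z.1.1 w).1, z.2)
  have hsub : {w' : St (Fin J) L X | ∃ p p' : Finset (Fin J) × Fin K, vx S w p = vx S w' p'}
      ⊆ Set.range F := by
    rintro w' ⟨p, p', hp⟩
    refine ⟨((p.1, p'.1), (S'.flipSet p'.1 w').2), ?_⟩
    have h1 : (S'.flipSet p.1 w).1 = (S'.flipSet p'.1 w').1 := by
      have := congrArg (fun v : X × Fin K => v.1) hp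
      exact this
    show S'.flipSet p'.1 ((S'.flipSet p.1 w).1, (S'.flipSet p'.1 w').2) = w'
    rw [h1]
    exact S'.flipSet_flipSet p'.1 w'
  calc {w' : St (Fin J) L X | ∃ p p' : Finset (Fin J) × Fin K, vx S w p = vx S w' p'}.ncard
      ≤ (Set.range F).ncard := Set.ncard_le_ncard hsub (Set.finite_range F)
    _ ≤ Fintype.card ((Finset (Fin J) × Finset (Fin J)) × (Fin J → L)) := by
        rw [← Set.image_univ]
        refine le_trans (Set.ncard_image_le Set.finite_univ) ?_
        rw [Set.ncard_univ, Nat.card_eq_fintype_card]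
    _ = 4 ^ J * Fintype.card L ^ J := by
        simp only [Fintype.card_prod, Fintype.card_fin, Fintype.card_fun, Fintype.card_finset]
        rw [← mul_pow]
        norm_num

/-- Pull back of a count along a map with small fibres. -/
theorem ncard_pullback {C Y : Type} [Finite C] [Finite Y] (om : C → Y) (l1 : ℕ)
    (hom : ∀ w, {c | om c = w}.ncard ≤ l1) (W : Set Y) :
    {c : C | om c ∈ W}.ncard ≤ l1 * W.ncard := by
  classical
  have := Fintype.ofFinite C
  have := Fintype.ofFinite Y
  have h1 : {c : C | om c ∈ W}.ncard = (Finset.univ.filter (fun c : C => om c ∈ W)).card := by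
    rw [← Set.ncard_coe_finset]
    congr 1
    ext c
    simp
  have h2 : (Finset.univ.filter (fun c : C => om c ∈ W)).card
      ≤ l1 * (Finset.univ.filter (fun w => w ∈ W)).card := by
    refine Finset.card_le_mul_card_image_of_maps_to (f := om) ?_ l1 ?_
    · intro c hc
      simpa using (Finset.mem_filter.mp hc).2
    · intro w hw
      refine le_trans ?_ (hom w)
      rw [← Set.ncard_coe_finset]
      apply Set.ncard_le_ncard
      · intro c hc
        simpa using (Finset.mem_filter.mp hc).2
      · exact Set.toFinite _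
  have h3 : (Finset.univ.filter (fun w => w ∈ W)).card = W.ncard := by
    rw [← Set.ncard_coe_finset]
    congr 1
    ext w
    simp
  rw [h1]
  refine le_trans h2 ?_
  rw [h3]

/-- The cells whose fibre contains a given host vertex. -/
theorem card_cells [Fintype L] [Fintype X] {C : Type} [Finite C] (S : CS (Fin J ⊕ B) L X)
    (om : C → St (Fin J) L X) (l1 : ℕ) (hom : ∀ w, {c | om c = w}.ncard ≤ l1)
    (v : X × Fin K) :
    {c : C | ∃ p : Finset (Fin J) × Fin K, vx S (om c) p = v}.ncard
      ≤ l1 * (2 ^ J * Fintype.card L ^ J) :=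
  (ncard_pullback om l1 hom {w | ∃ p : Finset (Fin J) × Fin K, vx S w p = v}).trans
    (Nat.mul_le_mul_left _ (card_fibre S v))

/-- The cells whose fibre meets the fibre of the state `w`. -/
theorem card_near_cells [Fintype L] [Fintype X] {C : Type} [Finite C]
    (S : CS (Fin J ⊕ B) L X)
    (om : C → St (Fin J) L X) (l1 : ℕ) (hom : ∀ w, {c | om c = w}.ncard ≤ l1)
    (w : St (Fin J) L X) :
    {c : C | ∃ p p' : Finset (Fin J) × Fin K, vx S w p = vx S (om c) p'}.ncard
      ≤ l1 * (4 ^ J * Fintype.card L ^ J) :=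
  (ncard_pullback om l1 hom
    {w' | ∃ p p' : Finset (Fin J) × Fin K, vx S w p = vx S w' p'}).trans
    (Nat.mul_le_mul_left _ (card_near_states S w))

/-- The form used by the embedding: every cell has few near cells, and the fibres of cells which
are not near are disjoint. -/
theorem exists_near [Fintype L] [Fintype X] {C : Type} [Finite C]
    (S : CS (Fin J ⊕ B) L X) (K : ℕ)
    (om : C → St (Fin J) L X) (l1 : ℕ) (hom : ∀ w, {c | om c = w}.ncard ≤ l1) :
    ∃ near : C → Finset C, (∀ c, (near c).card ≤ l1 * (4 ^ J * Fintype.card L ^ J)) ∧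
      (∀ c c', c' ∈ near c ↔
        ∃ p p' : Finset (Fin J) × Fin K, vx S (om c) p = vx S (om c') p') ∧
      (∀ c c', c' ∈ near c → c ∈ near c') ∧
      ∀ c c', c' ∉ near c → ∀ p p' : Finset (Fin J) × Fin K,
        vx S (om c) p ≠ vx S (om c') p' := by
  classical
  have := Fintype.ofFinite C
  refine ⟨fun c => Finset.univ.filter
    (fun c' => ∃ p p' : Finset (Fin J) × Fin K, vx S (om c) p = vx S (om c') p'), ?_, ?_, ?_, ?_⟩
  · intro c
    refine le_trans ?_ (card_near_cells (K := K) S om l1 hom (om c))
    rw [← Set.ncard_coe_finset]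
    apply Set.ncard_le_ncard
    · intro c' hc'
      simpa using hc'
    · exact Set.toFinite _
  · intro c c'
    simp
  · intro c c' h
    simp only [Finset.mem_filter, Finset.mem_univ, true_and] at h ⊢
    obtain ⟨p, p', hp⟩ := h
    exact ⟨p', p, hp.symm⟩
  · intro c c' h p p' hp
    apply h
    simp only [Finset.mem_filter, Finset.mem_univ, true_and]
    exact ⟨p, p', hp⟩

end fibre

end Pool.Agent.SRL
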