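import Pool.Agent.SRL.Assembly
import Pool.Agent.SRL.HostEdges
import Pool.Agent.SRL.EmbedCore

/-!
Linear size-Ramsey number of grids: the embedding of the grid (from the outcome of the structure
theorem, the outcome of the disc theorem and the embedding core).
-/

set_option autoImplicit false
set_option linter.unusedSectionVars false
set_option linter.unusedVariables false

namespace Pool.Agent.SRL

open Finset
open Pool.Agent.Helper47.SizeRamsey

namespace Embed

variable {d n : ℕ}

/-- The sum of the coordinates. -/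
def par (c : Fin d → Fin n) : ℕ := ∑ i, (c i : ℕ)

theorem par_adj {c c' : Fin d → Fin n} (h : (gridGraph d n).Adj c c') :
    par c + 1 = par c' ∨ par c' + 1 = par c := by
  obtain ⟨i, h1, h2⟩ := h
  have h3 : ∀ x : Fin d → Fin n, par x = (x i : ℕ) + ∑ j ∈ univ.erase i, (x j : ℕ) := fun x =>
    (Finset.add_sum_erase univ (fun j => (x j : ℕ)) (Finset.mem_univ i)).symm
  have h4 : ∑ j ∈ univ.erase i, (c j : ℕ) = ∑ j ∈ univ.erase i, (c' j : ℕ) := by
    apply Finset.sum_congr rfl
    intro j hj
    rw [h1 j (Finset.ne_of_mem_erase hj)]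
  rw [h3 c, h3 c', h4]
  omega

theorem par_odd {c c' : Fin d → Fin n} (h : (gridGraph d n).Adj c c') (hc : ¬ Even (par c)) :
    Even (par c') := by
  rw [Nat.even_iff] at hc ⊢
  rcases par_adj h with h1 | h1 <;> omega

theorem par_even {c c' : Fin d → Fin n} (h : (gridGraph d n).Adj c c') (hc : Even (par c)) :
    ¬ Even (par c') := by
  rw [Nat.even_iff] at hc ⊢
  rcases par_adj h with h1 | h1 <;> omega

open Classical in
/-- The neighbours of a cell. -/
noncomputable def nbs (c : Fin d → Fin n) : Finset (Fin d → Fin n) :=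
  univ.filter (fun c' => (gridGraph d n).Adj c c')

theorem mem_nbs (c c' : Fin d → Fin n) : c' ∈ nbs c ↔ (gridGraph d n).Adj c c' := by
  simp [nbs]

theorem card_nbs (c : Fin d → Fin n) : (nbs c).card ≤ 2 * d := by
  classical
  let F : Fin d × Bool → (Fin d → Fin n) := fun z => Function.update c z.1
    (if z.2 = true then (if h : (c z.1 : ℕ) + 1 < n then ⟨(c z.1 : ℕ) + 1, h⟩ else c z.1)
      else ⟨(c z.1 : ℕ) - 1, lt_of_le_of_lt (Nat.sub_le _ _) (c z.1).2⟩)
  have hsub : nbs c ⊆ univ.image F := by
    intro c' hc'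
    rw [mem_nbs] at hc'
    obtain ⟨i, h1, h2⟩ := hc'
    rw [Finset.mem_image]
    rcases h2 with h2 | h2
    · refine ⟨(i, true), Finset.mem_univ _, ?_⟩
      have hlt : (c i : ℕ) + 1 < n := by rw [h2]; exact (c' i).2
      funext j
      by_cases hj : j = i
      · subst hj
        simp only [F, Function.update_self, if_true, dif_pos hlt]
        exact Fin.ext h2
      · simp only [F, Function.update_of_ne hj]
        exact h1 j hj
    · refine ⟨(i, false), Finset.mem_univ _, ?_⟩
      funext j
      by_cases hj : j = i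
      · subst hj
        simp only [F, Function.update_self, Bool.false_eq_true, if_false]
        apply Fin.ext
        show (c j : ℕ) - 1 = c' j
        omega
      · simp only [F, Function.update_of_ne hj]
        exact h1 j hj
  calc (nbs c).card ≤ (univ.image F).card := Finset.card_le_card hsub
    _ ≤ (univ : Finset (Fin d × Bool)).card := Finset.card_image_le
    _ = 2 * d := by
        simp [Finset.card_univ, Fintype.card_prod, mul_comm]

/-- Even cells. -/
abbrev Ev (d n : ℕ) : Type := {c : Fin d → Fin n // Even (par c)}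

/-- Odd cells. -/
abbrev Od (d n : ℕ) : Type := {c : Fin d → Fin n // ¬ Even (par c)}

/-- The number of neighbours of an odd cell. -/
noncomputable def kk (o : Od d n) : ℕ := (nbs o.1).card

/-- The list of the neighbours of an odd cell. -/
noncomputable def ee (o : Od d n) (i : Fin (kk o)) : Ev d n :=
  ⟨((nbs o.1).equivFin.symm i).1, par_odd ((mem_nbs _ _).mp ((nbs o.1).equivFin.symm i).2) o.2⟩

theorem ee_adj (o : Od d n) (i : Fin (kk o)) : (gridGraph d n).Adj o.1 (ee o i).1 :=
  (mem_nbs _ _).mp ((nbs o.1).equivFin.symm i).2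

theorem ee_injective (o : Od d n) : Function.Injective (ee o) := by
  intro i j h
  have h1 : ((nbs o.1).equivFin.symm i).1 = ((nbs o.1).equivFin.symm j).1 := by
    have h2 : (ee o i).1 = (ee o j).1 := by rw [h]
    exact h2
  exact (nbs o.1).equivFin.symm.injective (Subtype.ext h1)

theorem ee_surj (o : Od d n) (c : Ev d n) (h : (gridGraph d n).Adj o.1 c.1) :
    ∃ i, ee o i = c := by
  refine ⟨(nbs o.1).equivFin ⟨c.1, (mem_nbs _ _).mpr h⟩, ?_⟩
  apply Subtype.ext
  simp [ee]

open Classical in
theorem ee_deg (c : Ev d n) :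
    (univ.filter (fun o : Od d n => ∃ i, ee o i = c)).card ≤ 2 * d := by
  refine le_trans ?_ (card_nbs c.1)
  apply Finset.card_le_card_of_injOn (fun o : Od d n => o.1)
  · intro o ho
    have ho' : ∃ i, ee o i = c := by simpa using ho
    obtain ⟨i, hi⟩ := ho'
    show o.1 ∈ (nbs c.1 : Set (Fin d → Fin n))
    rw [Finset.mem_coe, mem_nbs, ← hi]
    exact (ee_adj o i).symm
  · intro o _ o' _ h
    exact Subtype.ext h

/-- The cell of an element of the disjoint union. -/
def vl : Ev d n ⊕ Od d n → (Fin d → Fin n) := Sum.elim (fun c => c.1) (fun o => o.1)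

theorem vl_injective : Function.Injective (vl (d := d) (n := n)) := by
  rintro (a | a) (b | b) h
  · exact congrArg Sum.inl (Subtype.ext h)
  · have h' : a.1 = b.1 := h
    exact absurd (h' ▸ a.2) b.2
  · have h' : a.1 = b.1 := h
    exact absurd (h'.symm ▸ b.2) a.2
  · exact congrArg Sum.inr (Subtype.ext h)

open Classical in
/-- The inverse of `vl`. -/
noncomputable def toS (c : Fin d → Fin n) : Ev d n ⊕ Od d n :=
  if h : Even (par c) then Sum.inl ⟨c, h⟩ else Sum.inr ⟨c, h⟩

theorem toS_vl (x : Ev d n ⊕ Od d n) : toS (vl x) = x := by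
  rcases x with a | a
  · show toS a.1 = Sum.inl a
    rw [toS, dif_pos a.2]
  · show toS a.1 = Sum.inr a
    rw [toS, dif_neg a.2]

theorem vl_toS (c : Fin d → Fin n) : vl (toS c) = c := by
  by_cases h : Even (par c)
  · rw [toS, dif_pos h]; rfl
  · rw [toS, dif_neg h]; rfl

theorem toS_injective : Function.Injective (toS (d := d) (n := n)) :=
  Function.LeftInverse.injective vl_toS

end Embed

open Embed in
theorem embed_thm (d : ℕ) (hd : 1 ≤ d) : EmbedThm d := by
  classical
  intro J D q nX K l1 n Cd del Cw eps S col cb G _ nrm BAD gh W hO om ga hload hnear hK1 hK2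
  -- states of the cells
  let om' : Ev d n ⊕ Od d n → St (Fin J) (Fin q) (Fin nX) := fun x => om (vl x)
  have hload' : ∀ w, {x | om' x = w}.ncard ≤ l1 := by
    intro w
    refine le_trans ?_ (hload w)
    have h1 : {x | om' x = w} = vl ⁻¹' {c | om c = w} := rfl
    rw [h1]
    rw [← Set.ncard_image_of_injective _ vl_injective]
    exact Set.ncard_le_ncard (Set.image_preimage_subset _ _) (Set.toFinite _)
  obtain ⟨near, hn1, -, -, hn4⟩ := exists_near S K om' l1 hload'
  let vtx : Ev d n ⊕ Od d n → Finset (Fin J) × Fin K → Fin nX × Fin K :=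
    fun x p => vx S (om' x) p
  let ok : Fin nX × Fin K → Fin nX × Fin K → Prop := fun u v => col s(u, v) = cb
  have hN : ∀ c, (near c).card ≤ N1 J q l1 := by
    intro c
    refine (hn1 c).trans (le_of_eq ?_)
    rw [Fintype.card_fin, N1]
    ring
  have hKpos : 0 < K := by omega
  have : Nonempty (Fin K) := ⟨⟨0, hKpos⟩⟩
  obtain ⟨pt, hpt1, hpt2⟩ := Emb.embed_core d hd (kk (d := d) (n := n))
    (fun o => card_nbs o.1) (ee (d := d) (n := n)) ee_injective
    (fun c => by
      refine le_trans (le_of_eq ?_) (ee_deg c)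
      congr) (fun c p => W (om c.1) (ga c.1) p)
    (fun c p => hO.W_nonneg _ _ _) (fun c => hO.W_sum _ _) Cw (fun c p => hO.W_le _ _ _)
    vtx near (N1 J q l1) K hKpos hN (fun c c1 h _ x y => hn4 c c1 h x y)
    (fun c h => card_names_mul S (om' c) h)
    ok
    (by
      intro o
      obtain ⟨V, hV, T, hT, hadj⟩ := hnear o.1
      have hch : ∀ i, ∃ T' : Finset (Fin D), om (ee o i).1 = (S.derived.flipSet T' V).1 ∧
          Near S.derived gh nrm (Cd * eps) V T T' (ga o.1) (ga (ee o i).1) :=
        fun i => hadj _ (ee_adj o i)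
      choose T' hT' hnr using hch
      have hl := hO.loc V hV T (ga o.1) (kk o) (card_nbs o.1) T' (fun i => ga (ee o i).1) hnr
      refine le_trans (le_of_eq ?_) hl
      apply Finset.sum_congr rfl
      intro p _
      congr 1
      · apply Finset.prod_congr rfl
        intro i _
        rw [hT' i]
      · unfold Zval
        have h1 : {z : Finset (Fin J) × Fin K | ∀ i, ok (vtx (Sum.inl (ee o i)) (p i))
            (vtx (Sum.inr o) z)} = {z : Finset (Fin J) × Fin K |
              ∀ i, col s(vx S (S.derived.flipSet (T' i) V).1 (p i),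
                vx S (S.derived.flipSet T V).1 z) = cb} := by
          ext z
          simp only [Set.mem_ofPred_eq]
          apply forall_congr'
          intro i
          show col s(vx S (om (ee o i).1) (p i), vx S (om o.1) z) = cb ↔ _
          rw [hT' i, hT]
        rw [h1])
    (by exact_mod_cast hK1) (by rw [mul_comm]; exact hK2)
  let f : (Fin d → Fin n) → Fin nX × Fin K := fun c => vtx (toS c) (pt (toS c))
  have hf : Function.Injective f := fun c c' h => toS_injective (hpt1 h)
  have hfo : ∀ o : Od d n, f o.1 = vtx (Sum.inr o) (pt (Sum.inr o)) := by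
    intro o
    have h1 : toS o.1 = Sum.inr o := toS_vl (Sum.inr o)
    show vtx (toS o.1) (pt (toS o.1)) = _
    rw [h1]
  have hfe : ∀ o : Ev d n, f o.1 = vtx (Sum.inl o) (pt (Sum.inl o)) := by
    intro o
    have h1 : toS o.1 = Sum.inl o := toS_vl (Sum.inl o)
    show vtx (toS o.1) (pt (toS o.1)) = _
    rw [h1]
  have key : ∀ (o : Od d n) (c : Fin d → Fin n), (gridGraph d n).Adj o.1 c →
      (hostGraph S K).Adj (f c) (f o.1) ∧ col s(f c, f o.1) = cb := by
    intro o c hoc
    obtain ⟨i, hi⟩ := ee_surj o ⟨c, par_odd hoc o.2⟩ hoc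
    have hic : (ee o i).1 = c := congrArg Subtype.val hi
    have hne : f c ≠ f o.1 := by
      intro h
      exact hoc.ne (hf h).symm
    constructor
    · obtain ⟨V, hV, T, hT, hadj⟩ := hnear o.1
      obtain ⟨T', hT', -⟩ := hadj c hoc
      have h1 : f c = vx S (S.derived.flipSet T' V).1 (pt (toS c)) := by
        show vx S (om (vl (toS c))) (pt (toS c)) = _
        rw [vl_toS, hT']
      have h2 : f o.1 = vx S (S.derived.flipSet T V).1 (pt (toS o.1)) := by
        show vx S (om (vl (toS o.1))) (pt (toS o.1)) = _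
        rw [vl_toS, hT]
      rw [h1, h2] at hne ⊢
      exact vx_adj S V T' T _ _ hne
    · have h3 := hpt2 o i
      rw [← hfe, ← hfo, hic] at h3
      exact h3
  refine ⟨f, hf, fun c c' hcc => ?_⟩
  by_cases hc : Even (par c)
  · have hc' := par_even hcc hc
    exact key ⟨c', hc'⟩ c hcc.symm
  · obtain ⟨h1, h2⟩ := key ⟨c, hc⟩ c' hcc
    refine ⟨h1.symm, ?_⟩
    rw [Sym2.eq_swap]
    exact h2

end Pool.Agent.SRL
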