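import Mathlib

/-!
# Host of the linear size-Ramsey theorem: definitions

`E` is a finite field of odd characteristic `p` that contains the field with `p ^ 2` elements.  The
conjugation of the skew algebra is `x ↦ x ^ p` (on coefficients: `bar`).
* `Nm p τ` : the letters of class `τ` : `η` with `η ^ (p + 1) = τ⁻¹`.
* `zA p v`, `zB p v` : the product of the letters of the word `v` is `zA + zB F` in the skew algebra:
  `(1 + η F) (a + b F) = (a + η t bar b) + (b + η bar a) F`.
* `wsum m F` : sum of `F` over all words of length `m`.
-/

set_option autoImplicit false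
set_option linter.unusedSectionVars false
set_option linter.unusedVariables false

namespace Pool.Agent.SRL

open Polynomial

/-- Sum over all words of length `m`. -/
def wsum {L : Type} [Fintype L] : ℕ → (List L → ℝ) → ℝ
  | 0, F => F []
  | m + 1, F => ∑ a, wsum m (fun l => F (a :: l))

section skew

variable (p : ℕ) [Fact p.Prime] {E : Type} [Field E] [CharP E p]

/-- Conjugation of the coefficients. -/
noncomputable def bar (f : E[X]) : E[X] := f.map (frobenius E p)

/-- First component of the product of the letters of a word. Both components: -/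
noncomputable def zz : List E → E[X] × E[X]
  | [] => (1, 0)
  | η :: v => ((zz v).1 + C η * X * bar p (zz v).2, (zz v).2 + C η * bar p (zz v).1)

/-- Letters of class `τ`. -/
abbrev Nm (τ : E) : Type := {η : E // η ^ (p + 1) = τ⁻¹}

/-- Transport of the name `φ` through the letter `η`. -/
noncomputable def tp (η φ : E) : E := φ ^ p * (η - φ) / (η ^ p - φ ^ p)

/-- The word is central modulo `P`. -/
def Central (P : (ZMod p)[X]) [Algebra (ZMod p) E] (v : List E) : Prop :=
  P.map (algebraMap (ZMod p) E) ∣ (zz p v).2 ∧
    P.map (algebraMap (ZMod p) E) ∣ (zz p v).1 - bar p (zz p v).1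

end skew

/-- Action of a word on a set: `act T (s :: v) y = act T v (T s y)`. -/
def act {L Y : Type} (T : L → Equiv.Perm Y) : List L → Y → Y
  | [], y => y
  | s :: v, y => act T v (T s y)

/-- `G` acts `2`-transitively. -/
def TwoTrans {P : Type} (G : Subgroup (Equiv.Perm P)) : Prop :=
  ∀ x y x' y' : P, x ≠ y → x' ≠ y' → ∃ g ∈ G, g x = x' ∧ g y = y'

end Pool.Agent.SRL
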