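import Mathlib
import Pool.Agent.SRL.HostDefs

/-!
# Host of the linear size-Ramsey theorem: a generator with `D` square classes (row H5a)
-/

set_option autoImplicit false
set_option linter.unusedSectionVars false

namespace Pool.Agent.SRL

open Polynomial

namespace HA

variable {p : ℕ} [Fact p.Prime] {E : Type} [Field E] [Fintype E] [CharP E p] [Algebra (ZMod p) E]

open Classical in
/-- The square classes of `α`. -/
noncomputable def sqc (p : ℕ) [Fact p.Prime] {E : Type} [Field E] [Algebra (ZMod p) E] (α : E) :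
    Finset (ZMod p) :=
  Finset.univ.filter (fun τ => τ ≠ 0 ∧ IsSquare (1 - α / algebraMap (ZMod p) E τ))

theorem mem_sqc (α : E) (τ : ZMod p) :
    τ ∈ sqc p α ↔ τ ≠ 0 ∧ IsSquare (1 - α / algebraMap (ZMod p) E τ) := by
  unfold sqc
  simp only [Finset.mem_filter, Finset.mem_univ, true_and]

theorem ne_alg (α : E) (m : ℕ) (hm : 2 ≤ m) (h : (minpoly (ZMod p) α).natDegree = m) (c : ZMod p) :
    α ≠ algebraMap (ZMod p) E c := by
  rintro rfl
  rw [minpoly.eq_X_sub_C, natDegree_X_sub_C] at h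
  omega

theorem finish (D m : ℕ) (hm : 2 ≤ m) (α : E) (h : (minpoly (ZMod p) α).natDegree = m)
    (hD : D ≤ (sqc p α).card) :
    ∃ (α : E) (τ : Fin D → ZMod p) (β : Fin D → E), (minpoly (ZMod p) α).natDegree = m ∧
      Function.Injective τ ∧ (∀ i, τ i ≠ 0) ∧ (∀ i, β i ≠ 0) ∧
      ∀ i, β i ^ 2 = 1 - α / algebraMap (ZMod p) E (τ i) := by
  classical
  obtain ⟨f⟩ : Nonempty (Fin D ↪ (sqc p α)) :=
    Function.Embedding.nonempty_of_card_le (by simpa using hD)
  have hf : ∀ i, (f i : ZMod p) ≠ 0 ∧ IsSquare (1 - α / algebraMap (ZMod p) E (f i : ZMod p)) := by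
    intro i
    exact (mem_sqc α _).mp (f i).2
  choose β hβ using fun i => (hf i).2
  refine ⟨α, fun i => (f i : ZMod p), β, h, fun i j hij => f.injective (Subtype.ext hij),
    fun i => (hf i).1, fun i hi => ?_, fun i => by rw [hβ i, sq]⟩
  have h1 := hβ i
  rw [hi, mul_zero, sub_eq_zero, eq_comm, div_eq_iff, one_mul] at h1
  · exact ne_alg α m hm h _ h1
  · rw [Ne, map_eq_zero_iff _ (algebraMap (ZMod p) E).injective]
    exact (hf i).1

theorem natDegree_iff_top (α : E) (m : ℕ) (hE : Module.finrank (ZMod p) E = m) :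
    (minpoly (ZMod p) α).natDegree = m ↔ IntermediateField.adjoin (ZMod p) {α} = ⊤ := by
  have hint : IsIntegral (ZMod p) α := Algebra.IsIntegral.isIntegral α
  rw [← IntermediateField.adjoin.finrank hint, ← hE]
  constructor
  · intro h
    exact IntermediateField.eq_of_le_of_finrank_eq le_top (by rw [h, IntermediateField.finrank_top'])
  · intro h
    rw [h, IntermediateField.finrank_top']

end HA

/-- H5a: generator with `D` square classes. -/
theorem exists_alpha {p : ℕ} [Fact p.Prime] {E : Type} [Field E] [Fintype E] [CharP E p]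
    [Algebra (ZMod p) E] (D m : ℕ) (hm : 2 ≤ m) (hE : Fintype.card E = p ^ m) (hp : 2 * D + 3 ≤ p) :
    ∃ (α : E) (τ : Fin D → ZMod p) (β : Fin D → E), (minpoly (ZMod p) α).natDegree = m ∧
      Function.Injective τ ∧ (∀ i, τ i ≠ 0) ∧ (∀ i, β i ≠ 0) ∧
      ∀ i, β i ^ 2 = 1 - α / algebraMap (ZMod p) E (τ i) := by
  classical
  have hpp : p.Prime := Fact.out
  have hfr : Module.finrank (ZMod p) E = m := by
    have h1 := Module.card_eq_pow_finrank (K := ZMod p) (V := E)
    rw [ZMod.card, hE] at h1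
    exact (Nat.pow_right_injective hpp.two_le h1).symm
  obtain ⟨α₁, hα₁⟩ := Field.exists_primitive_element (ZMod p) E
  have hα₁m := (HA.natDegree_iff_top α₁ m hfr).mpr hα₁
  by_cases hA : D ≤ (HA.sqc p α₁).card
  · exact HA.finish D m hm α₁ hα₁m hA
  push Not at hA
  set φ := algebraMap (ZMod p) E with hφ
  have hφ0 : ∀ x : ZMod p, φ x = 0 ↔ x = 0 := fun x => map_eq_zero_iff _ φ.injective
  -- a nonsquare class
  obtain ⟨τ₀, hτ₀, hns⟩ : ∃ τ₀ : ZMod p, τ₀ ≠ 0 ∧ ¬ IsSquare (1 - α₁ / φ τ₀) := by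
    by_contra hcon
    push Not at hcon
    have h1 : Finset.univ.filter (fun τ : ZMod p => τ ≠ 0) ⊆ HA.sqc p α₁ := by
      intro τ hτ
      rw [Finset.mem_filter] at hτ
      rw [HA.mem_sqc]
      exact ⟨hτ.2, hcon τ hτ.2⟩
    have h2 := Finset.card_le_card h1
    rw [Finset.filter_ne', Finset.card_erase_of_mem (Finset.mem_univ _), Finset.card_univ, ZMod.card] at h2
    omega
  set a : E := α₁ / φ τ₀ with ha
  have hφτ₀ : φ τ₀ ≠ 0 := fun h => hτ₀ ((hφ0 _).mp h)
  have haα : α₁ = φ τ₀ * a := by rw [ha]; field_simp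
  have ha1 : a ≠ 1 := by
    intro h
    rw [h, mul_one] at haα
    exact HA.ne_alg α₁ m hm hα₁m τ₀ haα
  have ha1' : a - 1 ≠ 0 := sub_ne_zero.mpr ha1
  have h1a : 1 - a ≠ 0 := sub_ne_zero.mpr (Ne.symm ha1)
  set α : E := a / (a - 1) with hα
  have hα1 : α - 1 ≠ 0 := by
    rw [hα]
    have : a / (a - 1) - 1 = 1 / (a - 1) := by field_simp; ring
    rw [this]
    exact one_div_ne_zero ha1'
  have haα' : a = α / (α - 1) := by
    have h3 : α - 1 = 1 / (a - 1) := by rw [hα]; field_simp; ring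
    rw [h3, hα]; field_simp
  have hαtop : IntermediateField.adjoin (ZMod p) {α} = ⊤ := by
    rw [eq_top_iff, ← hα₁, IntermediateField.adjoin_simple_le_iff]
    have h3 : α ∈ IntermediateField.adjoin (ZMod p) {α} :=
      IntermediateField.mem_adjoin_simple_self _ _
    rw [haα, haα']
    exact mul_mem (IntermediateField.algebraMap_mem _ _) (div_mem h3 (sub_mem h3 (one_mem _)))
  have hαm := (HA.natDegree_iff_top α m hfr).mpr hαtop
  refine HA.finish D m hm α hαm ?_
  -- counting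
  set B : Finset (ZMod p) := Finset.univ.filter (fun τ => τ ≠ 0 ∧ τ ≠ 1) with hB
  have hBcard : p - 2 ≤ B.card := by
    have h1 : B = (Finset.univ.erase (0 : ZMod p)).erase 1 := by
      ext x; simp [hB]; tauto
    rw [h1]
    have h2 : (Finset.univ.erase (0 : ZMod p)).card = p - 1 := by
      rw [Finset.card_erase_of_mem (Finset.mem_univ _), Finset.card_univ, ZMod.card]
    have h3 := Finset.pred_card_le_card_erase (s := Finset.univ.erase (0 : ZMod p)) (a := 1)
    omega
  set G : ZMod p → ZMod p := fun τ => τ₀ * (τ / (τ - 1)) with hG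
  have hGinj : Set.InjOn G (B : Set (ZMod p)) := by
    intro x hx y hy hxy
    rw [Finset.mem_coe, hB, Finset.mem_filter] at hx hy
    have hx1 : x - 1 ≠ 0 := sub_ne_zero.mpr hx.2.2
    have hy1 : y - 1 ≠ 0 := sub_ne_zero.mpr hy.2.2
    have h4 : x / (x - 1) = y / (y - 1) := mul_left_cancel₀ hτ₀ hxy
    rw [div_eq_div_iff hx1 hy1] at h4
    linear_combination -h4
  have hkey : ∀ τ ∈ B, G τ ∉ HA.sqc p α₁ → τ ∈ HA.sqc p α := by
    intro τ hτ hGτ
    rw [hB, Finset.mem_filter] at hτ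
    obtain ⟨-, hτ0, hτ1⟩ := hτ
    have hτ1' : τ - 1 ≠ 0 := sub_ne_zero.mpr hτ1
    have hG0 : G τ ≠ 0 := mul_ne_zero hτ₀ (div_ne_zero hτ0 hτ1')
    rw [HA.mem_sqc] at hGτ
    have hns2 : ¬ IsSquare (1 - α₁ / φ (G τ)) := fun h => hGτ ⟨hG0, h⟩
    have hφτ : φ τ ≠ 0 := fun h => hτ0 ((hφ0 _).mp h)
    have hφτ1 : φ τ - 1 ≠ 0 := by
      have := fun h => hτ1' ((hφ0 _).mp h)
      rwa [map_sub, map_one] at this
    rw [HA.mem_sqc]
    refine ⟨hτ0, ?_⟩
    have e1 : 1 - α₁ / φ (G τ) = (1 - α / φ τ) * (1 - a) := by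
      rw [hG]
      simp only [map_mul, map_div₀, map_sub, map_one]
      rw [haα, hα]
      field_simp
      ring
    have hne1 : (1 - α / φ τ) ≠ 0 := by
      intro h
      rw [sub_eq_zero, eq_comm, div_eq_iff hφτ, one_mul] at h
      exact HA.ne_alg α m hm hαm τ h
    have q1 : quadraticChar E (1 - α₁ / φ (G τ)) = -1 :=
      (quadraticChar_neg_one_iff_not_isSquare).mpr hns2
    have q2 : quadraticChar E (1 - a) = -1 := (quadraticChar_neg_one_iff_not_isSquare).mpr hns
    rw [e1, map_mul, q2] at q1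
    have q3 : quadraticChar E (1 - α / φ τ) = 1 := by linarith
    exact (quadraticChar_one_iff_isSquare hne1).mp q3
  have h5 : (B.filter (fun τ => G τ ∈ HA.sqc p α₁)).card ≤ (HA.sqc p α₁).card := by
    refine Finset.card_le_card_of_injOn G (fun x hx => ?_) (hGinj.mono ?_)
    · rw [Finset.mem_coe, Finset.mem_filter] at hx
      exact hx.2
    · intro x hx
      rw [Finset.mem_coe, Finset.mem_filter] at hx
      exact hx.1
  have h6 : (B.filter (fun τ => ¬ G τ ∈ HA.sqc p α₁)).card ≤ (HA.sqc p α).card := by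
    refine Finset.card_le_card (fun x hx => ?_)
    rw [Finset.mem_filter] at hx
    exact hkey x hx.1 hx.2
  have h7 := Finset.card_filter_add_card_filter_not (s := B) (fun τ => G τ ∈ HA.sqc p α₁)
  omega

end Pool.Agent.SRL
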