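import Mathlib

/-! # Numerics of the host -/

set_option autoImplicit false

namespace Pool.Agent.SRL

theorem pow_gap (p m : ℕ) (hp : 2 ≤ p) (hm : 1 ≤ m) :
    p ^ (3 * m) ≤ 2 * (p ^ (3 * m) - p ^ m) ∧ p ^ m ≤ p ^ (3 * m) - p ^ m := by
  have h1 : p ^ (3 * m) = p ^ m * p ^ (2 * m) := by rw [← pow_add]; congr 1; ring
  have h2 : 2 ≤ p ^ (2 * m) := by
    calc 2 ≤ p := hp
      _ = p ^ 1 := (pow_one p).symm
      _ ≤ p ^ (2 * m) := Nat.pow_le_pow_right (by omega) (by omega)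
  have h3 : p ^ m * 2 ≤ p ^ (3 * m) := by rw [h1]; exact Nat.mul_le_mul_left _ h2
  constructor <;> omega

/-- H5c: numerics. -/
theorem host_numerics (D : ℕ) (lam : ℝ) (hlam : 0 < lam) (Q : ℕ → ℕ → Prop)
    (h : ∀ p m : ℕ, p.Prime → 2 * D + 3 ≤ p → 2 * 64 ^ 3 ≤ (p : ℝ) * lam ^ 6 → Even m → 2 ≤ m →
      8 * ((p : ℝ) + 1) ^ D ≤ 2 ^ m → Q (p + 1) (p ^ (3 * m) - p ^ m)) :
    ∃ q C : ℕ, 2 ≤ q ∧ ∀ N : ℕ, ∃ n : ℕ, Q q n ∧ N ≤ n ∧ n ≤ C * (N + 1) := by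
  obtain ⟨a, ha⟩ := exists_nat_gt (2 * 64 ^ 3 / lam ^ 6)
  obtain ⟨p, hp1, hp2⟩ := Nat.exists_infinite_primes (2 * D + 3 + a)
  have hp3 : 2 * 64 ^ 3 ≤ (p : ℝ) * lam ^ 6 := by
    have h1 : (0 : ℝ) < lam ^ 6 := by positivity
    have h2 : (a : ℝ) ≤ p := by exact_mod_cast (by omega : a ≤ p)
    have h3 : 2 * 64 ^ 3 / lam ^ 6 ≤ (p : ℝ) := ha.le.trans h2
    exact (div_le_iff₀ h1).1 h3
  have hp4 : 2 ≤ p := hp2.two_le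
  obtain ⟨b, hb⟩ := pow_unbounded_of_one_lt (8 * ((p : ℝ) + 1) ^ D) (one_lt_two)
  set m0 := 2 * (b + 1) with hm0
  have hmono : ∀ j, 8 * ((p : ℝ) + 1) ^ D ≤ 2 ^ (m0 + 2 * j) := by
    intro j
    refine hb.le.trans ?_
    exact pow_le_pow_right₀ (by norm_num) (by omega)
  refine ⟨p + 1, p ^ (3 * m0) + 2 * p ^ 6, by omega, fun N => ?_⟩
  have hex : ∃ j, N ≤ p ^ (3 * (m0 + 2 * j)) - p ^ (m0 + 2 * j) := by
    refine ⟨N, ?_⟩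
    have h1 := (pow_gap p (m0 + 2 * N) hp4 (by omega)).2
    have h2 : m0 + 2 * N < 2 ^ (m0 + 2 * N) := Nat.lt_two_pow_self
    have h3 : 2 ^ (m0 + 2 * N) ≤ p ^ (m0 + 2 * N) := Nat.pow_le_pow_left hp4 _
    omega
  classical
  set j := Nat.find hex with hj
  have hj1 : N ≤ p ^ (3 * (m0 + 2 * j)) - p ^ (m0 + 2 * j) := Nat.find_spec hex
  refine ⟨p ^ (3 * (m0 + 2 * j)) - p ^ (m0 + 2 * j), h p _ hp2 (by omega) hp3
    ⟨b + 1 + j, by omega⟩ (by omega) (hmono j), hj1, ?_⟩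
  rcases Nat.eq_zero_or_pos j with h0 | h0
  · rw [h0]
    simp only [mul_zero, add_zero]
    calc p ^ (3 * m0) - p ^ m0 ≤ p ^ (3 * m0) := Nat.sub_le _ _
      _ ≤ (p ^ (3 * m0) + 2 * p ^ 6) * 1 := by omega
      _ ≤ (p ^ (3 * m0) + 2 * p ^ 6) * (N + 1) := Nat.mul_le_mul_left _ (by omega)
  · obtain ⟨i, hi⟩ : ∃ i, j = i + 1 := ⟨j - 1, by omega⟩
    have h1 : ¬ N ≤ p ^ (3 * (m0 + 2 * i)) - p ^ (m0 + 2 * i) :=
      Nat.find_min hex (by omega)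
    have h2 := (pow_gap p (m0 + 2 * i) hp4 (by omega)).1
    have h3 : p ^ (3 * (m0 + 2 * j)) = p ^ 6 * p ^ (3 * (m0 + 2 * i)) := by
      rw [← pow_add, hi]; congr 1; ring
    calc p ^ (3 * (m0 + 2 * j)) - p ^ (m0 + 2 * j) ≤ p ^ (3 * (m0 + 2 * j)) := Nat.sub_le _ _
      _ = p ^ 6 * p ^ (3 * (m0 + 2 * i)) := h3
      _ ≤ p ^ 6 * (2 * N) := Nat.mul_le_mul_left _ (by omega)
      _ = (2 * p ^ 6) * N := by ring
      _ ≤ (p ^ (3 * m0) + 2 * p ^ 6) * N := Nat.mul_le_mul_right _ (by omega)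
      _ ≤ (p ^ (3 * m0) + 2 * p ^ 6) * (N + 1) := Nat.mul_le_mul_left _ (by omega)

end Pool.Agent.SRL
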