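import Mathlib
import Pool.Agent.SRL.HostDefs

/-!
# Host of the linear size-Ramsey theorem: order of `SL (2, E)` (row H5b)
-/

set_option autoImplicit false

namespace Pool.Agent.SRL

namespace HSL

variable {E : Type} [Field E]

/-- `GL` is in bijection with `SL × units`. -/
noncomputable def glEquiv :
    Matrix.SpecialLinearGroup (Fin 2) E × Eˣ ≃ Matrix.GeneralLinearGroup (Fin 2) E where
  toFun x := Matrix.GeneralLinearGroup.mkOfDetNeZero
    !![x.1.1 0 0 * (x.2 : E), x.1.1 0 1; x.1.1 1 0 * (x.2 : E), x.1.1 1 1] (by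
      have h := x.1.2
      rw [Matrix.det_fin_two] at h
      rw [Matrix.det_fin_two_of]
      have : x.1.1 0 0 * (x.2 : E) * x.1.1 1 1 - x.1.1 0 1 * (x.1.1 1 0 * (x.2 : E)) = (x.2 : E) := by
        linear_combination (x.2 : E) * h
      rw [this]
      exact x.2.ne_zero)
  invFun g := (⟨!![g.1 0 0 * (g.1.det)⁻¹, g.1 0 1; g.1 1 0 * (g.1.det)⁻¹, g.1 1 1], by
      have hd : g.1.det ≠ 0 := (Matrix.isUnit_iff_isUnit_det _).mp g.isUnit |>.ne_zero
      rw [Matrix.det_fin_two_of]
      have h := Matrix.det_fin_two g.1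
      field_simp
      linear_combination -h⟩,
    Units.mk0 g.1.det ((Matrix.isUnit_iff_isUnit_det _).mp g.isUnit |>.ne_zero))
  left_inv := by
    rintro ⟨s, u⟩
    have h := s.2
    rw [Matrix.det_fin_two] at h
    have hd : (!![s.1 0 0 * (u : E), s.1 0 1; s.1 1 0 * (u : E), s.1 1 1]).det = (u : E) := by
      rw [Matrix.det_fin_two_of]
      linear_combination (u : E) * h
    refine Prod.ext (Subtype.ext ?_) (Units.ext ?_)
    · ext i j
      fin_cases i <;> fin_cases j <;>
        simp [Matrix.GeneralLinearGroup.mkOfDetNeZero, hd, mul_assoc]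
    · simp [Matrix.GeneralLinearGroup.mkOfDetNeZero, hd]
  right_inv := by
    intro g
    have hd : g.1.det ≠ 0 := (Matrix.isUnit_iff_isUnit_det _).mp g.isUnit |>.ne_zero
    refine Units.ext ?_
    ext i j
    fin_cases i <;> fin_cases j <;>
      simp [Matrix.GeneralLinearGroup.mkOfDetNeZero, mul_assoc, hd]

end HSL

/-- H5b: order of `SL (2, E)`. -/
theorem card_SL2 {E : Type} [Field E] [Fintype E] :
    Nat.card (Matrix.SpecialLinearGroup (Fin 2) E) = Fintype.card E ^ 3 - Fintype.card E := by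
  classical
  have h1 : Nat.card (Matrix.GeneralLinearGroup (Fin 2) E)
      = ∏ i : Fin 2, (Fintype.card E ^ 2 - Fintype.card E ^ (i : ℕ)) := Matrix.card_GL_field (𝔽 := E) 2
  have h2 : Nat.card (Matrix.SpecialLinearGroup (Fin 2) E × Eˣ)
      = Nat.card (Matrix.GeneralLinearGroup (Fin 2) E) := Nat.card_congr HSL.glEquiv
  rw [Nat.card_prod, h1, Fin.prod_univ_two, Nat.card_eq_fintype_card (α := Eˣ), Fintype.card_units] at h2
  have hq : 1 < Fintype.card E := Fintype.one_lt_card
  obtain ⟨k, hk⟩ : ∃ k, Fintype.card E = k + 2 := ⟨Fintype.card E - 2, by omega⟩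
  rw [hk] at h2 ⊢
  simp only [Fin.val_zero, Fin.val_one, pow_zero, pow_one] at h2
  have e1 : k + 2 - 1 = k + 1 := by omega
  have e2 : (k + 2) ^ 2 - 1 = (k + 1) * (k + 3) := by
    have : (k + 2) ^ 2 = (k + 1) * (k + 3) + 1 := by ring
    omega
  have e3 : (k + 2) ^ 2 - (k + 2) = (k + 2) * (k + 1) := by
    have : (k + 2) ^ 2 = (k + 2) * (k + 1) + (k + 2) := by ring
    omega
  have e4 : (k + 2) ^ 3 - (k + 2) = (k + 1) * (k + 3) * (k + 2) := by
    have : (k + 2) ^ 3 = (k + 1) * (k + 3) * (k + 2) + (k + 2) := by ring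
    omega
  rw [e1, e2, e3] at h2
  rw [e4]
  apply Nat.eq_of_mul_eq_mul_right (show 0 < k + 1 by omega)
  rw [h2]
  ring

end Pool.Agent.SRL
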