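import Pool.Agent.SRL.HostOp
import Pool.Agent.SRL.HostAlpha
import Pool.Agent.SRL.HostSL
import Pool.Agent.SRL.HostNum
import Pool.Agent.SRL.Interface

/-! # Host: existence -/

set_option autoImplicit false
set_option linter.unusedSectionVars false
set_option linter.unusedVariables false

namespace Pool.Agent.SRL

open Polynomial

namespace HG

/-- `trace_names` for an arbitrary instance of decidable equality -/
theorem trace_names' {U P L : Type} [iU : DecidableEq U] [Fintype U] [Fintype P] [Fintype L]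
    [Nonempty L]
    (G : U → Subgroup (Equiv.Perm P)) (hG : ∀ j, TwoTrans (G j)) (hP : 2 ≤ Fintype.card P)
    (T : U → L → Equiv.Perm P) (hTG : ∀ j s, T j s ∈ G j) (inv : L → L)
    (hinv : ∀ s, inv (inv s) = s) (hT : ∀ j s, T j (inv s) = (T j s)⁻¹)
    (f : (U → P) → ℝ) (hf : ∀ j y, ∑ x, f (Function.update y j x) = 0) (k : ℕ) (hk : 1 ≤ k)
    (lam : ℝ) (hlam : 0 ≤ lam)
    (h : (∏ j, (Nat.card (G j) : ℝ)) *
      wsum (2 * k) (fun v : List L => ind (∀ j, ∀ x, act (T j) v x = x)) ≤
      ((Fintype.card P : ℝ) - 1) ^ Fintype.card U * (lam * Fintype.card L) ^ (2 * k)) :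
    ∑ y : U → P, ((∑ s, f (fun j => T j s (y j))) / Fintype.card L) ^ 2 ≤ lam ^ 2 * ∑ y, f y ^ 2 := by
  have hi : iU = fun a b => Classical.propDecidable (a = b) := Subsingleton.elim _ _
  subst hi
  refine trace_names G hG hP T hTG inv hinv hT f hf k hk lam hlam ?_
  simp only [ite_eq_ind]
  exact h

section gap

variable {p : ℕ} [hp : Fact p.Prime] {I L E : Type} [DecidableEq I] [Field E] [CharP E p]
  (H : HData p I L E)

open Classical in
theorem gap_host [Fintype I] [Fintype L] [Nonempty L] [Fintype E] [Algebra (ZMod p) E]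
    (hp3 : 3 ≤ p) (hL : Fintype.card L = p + 1) (hδ : ∃ δ : E, δ ≠ 0 ∧ δ ^ p = -δ)
    (t : I → ZMod p) (ht : ∀ i, H.τ i = algebraMap (ZMod p) E (t i)) (m : ℕ)
    (hm : (minpoly (ZMod p) H.α).natDegree = m) (hm2 : 2 ≤ m) (hE : Fintype.card E = p ^ m)
    (lam : ℝ) (hlam : 0 < lam) (h1 : 2 * 64 ^ 3 ≤ (p : ℝ) * lam ^ 6)
    (h2 : 8 * ((p : ℝ) + 1) ^ Fintype.card I ≤ 2 ^ m) :
    Gap H.cs (fun _ => 1) lam := by
  have hq : (Fintype.card L : ℝ) = (p : ℝ) + 1 := by rw [hL]; push_cast; rfl
  refine ⟨fun _ => Or.inl rfl, Or.inl fun _ => rfl, ?_⟩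
  intro b f hf hf0 _
  have hA : ∀ V, H.cs.A b f V =
      (∑ s, f (V.1 * H.g b s, fun j => TP H b j s (V.2 j))) / Fintype.card L := A_eq H b f hf
  rw [Finset.sum_congr rfl fun V _ => by rw [hA V]]
  have hE0 : (Fintype.card E : ℝ) = (p : ℝ) ^ m := by rw [hE]; push_cast; rfl
  refine split_X (X := Matrix.SpecialLinearGroup (Fin 2) E) (Y := I → L)
    (fun s => Equiv.mulRight (H.g b s)) (fun s => Equiv.piCongrRight fun j => TP H b j s) lam
    hlam.le ?_ f ?_
  · intro f1 hf1
    refine trace_X (E := E) ?_ (H.g b) (fun s => Equiv.piCongrRight fun j => TP H b j s) (H.inv b)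
      (fun s => inv_inv H b s) (fun s => H.g_inv b s) ?_ f1 hf1 (3 * m) (by omega) lam hlam.le ?_
    · have : ringChar E = p := ringChar.eq E p ▸ rfl
      rw [this]; omega
    · intro s
      refine Equiv.ext fun φ => ?_
      funext j
      change TP H b j (H.inv b s) (φ j) = _
      rw [TP_inv]
      rfl
    · simp only [ite_eq_ind]
      rw [hE0]
      refine num_X p m (Fintype.card I) lam _ _ _ _ (by omega) (by omega) hlam (by positivity) ?_ ?_
        (wsum_nonneg' _ _ fun v => ind_nonneg _)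
        (wsum_prod H hp3 hδ t ht m hm hm2 b) hq h1 h2
      · have h3 := card_SL2 (E := E)
        rw [Nat.card_eq_fintype_card] at h3
        rw [h3, hE]
        have h4 : (p ^ m) ^ 3 - p ^ m ≤ p ^ (3 * m) := by
          rw [← pow_mul, mul_comm m 3]
          exact Nat.sub_le _ _
        exact_mod_cast h4
      · rw [Fintype.card_fun, hL]
        push_cast
        rfl
  · have hX0 : (0 : ℝ) < Fintype.card (Matrix.SpecialLinearGroup (Fin 2) E) := by
      exact_mod_cast Fintype.card_pos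
    refine names_induction (I := I) (P := L) (L := L) (TP H b) b lam hlam.le ?_
      (fun φ => (∑ x, f (x, φ)) / Fintype.card (Matrix.SpecialLinearGroup (Fin 2) E)) ?_ ?_
    · intro U hU hbU f2 hf2
      refine trace_names' (U := U) (P := L) (L := L) (fun j => GG H j)
        (fun j => GG_two H (by omega) j) (by omega) (fun j s => TP H b j s)
        (fun j s => TP_mem H (fun h : (j : I) = b => hbU (h ▸ j.2)) s) (H.inv b) (fun s => inv_inv H b s)
        (fun j s => TP_inv H b j s) f2 hf2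
        (3 * U.card) (by have := hU.card_pos; omega) lam hlam.le ?_
      rw [Fintype.card_coe]
      refine num_N p U.card lam _ _ _ (by omega) hlam
        (Finset.prod_nonneg fun j _ => Nat.cast_nonneg _) ?_
        (wsum_nonneg' _ _ fun v => ind_nonneg _)
        (wsum_act H hp3 hL hδ t ht b U hU hbU) hq h1
      calc ∏ j : U, (Nat.card (GG H j) : ℝ) ≤ ∏ j : U, (p : ℝ) ^ 3 :=
            Finset.prod_le_prod (fun j _ => Nat.cast_nonneg _)
              (fun j _ => GG_card H (by omega) hL j)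
        _ = _ := by simp
    · intro φ x
      have h3 : ∀ y, f (y, Function.update φ b x) = f (y, φ) := fun y => hf y φ x
      simp only [h3]
    · rw [← Finset.sum_div, Finset.sum_comm, ← Fintype.sum_prod_type, hf0, zero_div]

end gap

/-! ### transport of a cube system along a bijection of the states -/

section mapX

variable {I L X X' : Type} [DecidableEq I]

/-- transport along a bijection -/
def mapX (e : X ≃ X') (S : CS I L X) : CS I L X' where
  step i a x := e (S.step i a (e.symm x))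
  tr := S.tr
  inv := S.inv
  step_inv := by
    intro i a x
    rw [e.symm_apply_apply, S.step_inv, e.apply_symm_apply]
  inv_inv := S.inv_inv
  tr_inv := S.tr_inv
  sq := by
    intro i j a b x h
    rw [e.symm_apply_apply, e.symm_apply_apply, S.sq i j a b _ h]
  cube := S.cube
  inv_tr := S.inv_tr

theorem gap_mapX [Fintype I] [Fintype L] [Fintype X] [Fintype X'] (e : X ≃ X') (S : CS I L X)
    (lam : ℝ) (h : Gap S (fun _ => 1) lam) : Gap (mapX e S) (fun _ => 1) lam := by
  refine ⟨fun _ => Or.inl rfl, Or.inl fun _ => rfl, ?_⟩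
  intro b f hf hf0 hf1
  let e2 : St I L X ≃ St I L X' := Equiv.prodCongr e (Equiv.refl _)
  have hsum : ∀ F : St I L X' → ℝ, ∑ V, F V = ∑ V, F (e2 V) := fun F =>
    (Equiv.sum_comp e2 F).symm
  have hA : ∀ V, (mapX e S).A b f (e2 V) = S.A b (fun V => f (e2 V)) V := by
    intro V
    obtain ⟨x, φ⟩ := V
    have hfl : ∀ s : L, (mapX e S).flip b (e x, Function.update φ b s) =
        e2 (S.flip b (x, Function.update φ b s)) := by
      intro s
      refine Prod.ext ?_ rfl
      change e (S.step b _ (e.symm (e x))) = e (S.step b _ x)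
      rw [e.symm_apply_apply]
    unfold CS.A avg
    exact congrArg (fun z => z / (Fintype.card L : ℝ))
      (Finset.sum_congr rfl fun s _ => congrArg f (hfl s))
  have h3 := h.gap b (fun V => f (e2 V)) ?_ ?_ ?_
  · rw [hsum, hsum (fun V => f V ^ 2)]
    calc ∑ V, (mapX e S).A b f (e2 V) ^ 2 = ∑ V, S.A b (fun V => f (e2 V)) V ^ 2 :=
          Finset.sum_congr rfl fun V _ => by rw [hA]
      _ ≤ _ := h3
  · intro x φ s
    exact hf (e x) φ s
  · rw [← hsum f]
    exact hf0
  · simp only [one_mul]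
    rw [← hsum f]
    exact hf0

end mapX

theorem dvd_card (p m : ℕ) (hm : Even m) : p ^ 2 - 1 ∣ p ^ m - 1 := by
  obtain ⟨r, rfl⟩ := hm
  have h := Nat.sub_dvd_pow_sub_pow (p ^ 2) 1 r
  rw [one_pow, ← pow_mul] at h
  rwa [← two_mul]

open Classical in
theorem exists_cs (D p m : ℕ) (lam : ℝ) (hlam : 0 < lam) (hp : p.Prime) (hpD : 2 * D + 3 ≤ p)
    (h1 : 2 * 64 ^ 3 ≤ (p : ℝ) * lam ^ 6) (hm : Even m) (hm2 : 2 ≤ m)
    (h2 : 8 * ((p : ℝ) + 1) ^ D ≤ 2 ^ m) :
    ∃ S : CS (Fin D) (Fin (p + 1)) (Fin (p ^ (3 * m) - p ^ m)), Gap S (fun _ => 1) lam := by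
  have : Fact p.Prime := ⟨hp⟩
  have hodd : Odd p := hp.odd_of_ne_two (by omega)
  let E := GaloisField p m
  let _ : Fintype E := Fintype.ofFinite E
  have hE : Fintype.card E = p ^ m := by
    rw [← Nat.card_eq_fintype_card]
    exact GaloisField.card p m (by omega)
  have hdvd : p ^ 2 - 1 ∣ Fintype.card E - 1 := by
    rw [hE]
    exact dvd_card p m hm
  obtain ⟨α, t, β, hα, htinj, ht0, hβ0, hβ2⟩ := exists_alpha (p := p) (E := E) D m hm2 hE hpD
  have hinjmap := (algebraMap (ZMod p) E).injective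
  have hτ0 : ∀ i, algebraMap (ZMod p) E (t i) ≠ 0 := by
    intro i
    rw [Ne, map_eq_zero_iff _ hinjmap]
    exact ht0 i
  have hτp : ∀ i, (algebraMap (ZMod p) E (t i)) ^ p = algebraMap (ZMod p) E (t i) := by
    intro i
    rw [← map_pow, ZMod.pow_card]
  have hcard : ∀ i, Fintype.card (Nm p (algebraMap (ZMod p) E (t i))) = p + 1 := fun i =>
    card_Nm p hdvd _ (hτ0 i) (hτp i)
  let e : ∀ i, Fin (p + 1) ≃ Nm p (algebraMap (ZMod p) E (t i)) := fun i =>
    (Fintype.equivFinOfCardEq (hcard i)).symm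
  let H : HData p (Fin D) (Fin (p + 1)) E :=
    { odd := hodd
      α := α
      τ := fun i => algebraMap (ZMod p) E (t i)
      β := β
      e := e
      τinj := fun i j h => htinj (hinjmap h)
      τ0 := hτ0
      τp := hτp
      β0 := hβ0
      β2 := hβ2 }
  have hδ : ∃ δ : E, δ ≠ 0 ∧ δ ^ p = -δ := by
    obtain ⟨δ, hδ⟩ := exists_pow_eq (E := E) (d := p - 1) (m := 2) (by omega) (by norm_num) (by
      refine dvd_trans ?_ hdvd
      obtain ⟨r, hr⟩ := hodd
      have e1 : p ^ 2 - 1 = (p - 1) * 2 * (r + 1) := by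
        have h3 := Nat.sq_sub_sq p 1
        rw [one_pow] at h3
        rw [h3, hr]
        have h4 : 2 * r + 1 - 1 = 2 * r := by omega
        rw [h4]
        ring
      exact ⟨r + 1, e1⟩) (-1) (by simp) (by ring)
    refine ⟨δ, ?_, ?_⟩
    · rintro rfl
      rw [zero_pow (by omega)] at hδ
      exact (neg_ne_zero.2 one_ne_zero) hδ.symm
    · have h3 : p = (p - 1) + 1 := by omega
      have h4 : δ ^ p = δ ^ ((p - 1) + 1) := congrArg (fun k => δ ^ k) h3
      rw [h4, pow_succ, hδ]
      ring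
  have hgap : Gap H.cs (fun _ => 1) lam :=
    gap_host H (by omega) (Fintype.card_fin _) hδ t (fun _ => rfl) m hα hm2 hE lam hlam h1
      (by rw [Fintype.card_fin]; exact h2)
  have hn : Fintype.card (Matrix.SpecialLinearGroup (Fin 2) E) = p ^ (3 * m) - p ^ m := by
    have h3 := card_SL2 (E := E)
    rw [Nat.card_eq_fintype_card] at h3
    rw [h3, hE, ← pow_mul, mul_comm m 3]
  exact ⟨mapX (Fintype.equivFinOfCardEq hn) H.cs, gap_mapX _ _ _ hgap⟩

end HG

/-- **Theorem H**: existence of hosts. -/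
theorem host_exists : HostThm := by
  intro D lam hlam
  obtain ⟨q, C, hq, h⟩ := host_numerics D lam hlam
    (fun q n => ∃ S : CS (Fin D) (Fin q) (Fin n), Gap S (fun _ => 1) lam)
    (fun p m hp hpD h1 hm hm2 h2 => HG.exists_cs D p m lam hlam hp hpD h1 hm hm2 h2)
  refine ⟨q, C, hq, fun N => ?_⟩
  obtain ⟨n, ⟨S, hS⟩, h1, h2⟩ := h N
  exact ⟨n, S, fun _ => 1, hS, h1, h2⟩

end Pool.Agent.SRL
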