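import Pool.Agent.SRL.Interface
import Pool.Agent.Helper64.SRL.Tensor

/-!
Frames of a colouring (block F): definitions. `Q` is the finite set of labels of a cloud with
uniform probability, kernels are functions `Q → Q → ℝ`.
-/

set_option autoImplicit false

namespace Pool.Agent.SRL

open Finset

section basic

variable {Q : Type} [Fintype Q]

/-- Inner product. -/
noncomputable def ip (f g : Q → ℝ) : ℝ := avg fun p => f p * g p

/-- The norm of `L2`. -/
noncomputable def nrm (f : Q → ℝ) : ℝ := Real.sqrt (ip f f)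

/-- The operator with kernel `T`. -/
noncomputable def op (T : Q → Q → ℝ) (f : Q → ℝ) : Q → ℝ := fun p => avg fun q => T p q * f q

/-- Composition of kernels. -/
noncomputable def comp (T S : Q → Q → ℝ) : Q → Q → ℝ := fun p r => avg fun q => T p q * S q r

/-- Hilbert-Schmidt norm. -/
noncomputable def hs (T : Q → Q → ℝ) : ℝ := Real.sqrt (avg fun p => avg fun q => T p q ^ 2)

/-- A regular window: kernels between the clouds of the positions `P`. -/
structure Win {P : Type} (k0 : ℕ) (eps : ℝ) (T : P → P → Q → Q → ℝ) : Prop where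
  nonneg : ∀ b c p q, 0 ≤ T b c p q
  le_one : ∀ b c p q, T b c p q ≤ 1
  symm : ∀ b c p q, T b c p q = T c b q p
  tri : ∀ b c c' d, hs (comp (T b c) (T c d) - comp (T b c') (T c' d)) ≤ eps
  deg : ∀ b c c', nrm (op (T b c) 1 - op (T b c') 1) ≤ eps
  ten : ∀ (S : Finset (Fin k0)) (b b' c : P),
    avg (fun q : Fin k0 → Q => (avg (fun p => ∏ i ∈ S, T b c p (q i)) -
      avg (fun p => ∏ i ∈ S, T b' c p (q i))) ^ 2) ≤ eps ^ 2

/-- The row vector `(1, deg, l_1 e_1, ..., l_M e_M)` at the point `p`. -/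
noncomputable def row {M : ℕ} (T : Q → Q → ℝ) (l : Fin M → ℝ) (e : Fin M → Q → ℝ) (p : Q) :
    Fin 2 ⊕ Fin M → ℝ :=
  Sum.elim ![1, op T 1 p] (fun i => l i * e i p)

/-- Moments of order `k0` of a family of row vectors. -/
noncomputable def mom {M : ℕ} (k0 : ℕ) (h : Q → Fin 2 ⊕ Fin M → ℝ)
    (w : Fin k0 → Fin 2 ⊕ Fin M) : ℝ :=
  avg fun p => ∏ t, h p (w t)

/-- A soft frame with error `s`: approximate eigenvectors with eigenvalues `l`, moments `y`,
residual norm at most `l0 - g + s`. -/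
structure SFrame {M k0 : ℕ} (l0 g s : ℝ) (l : Fin M → ℝ) (y : (Fin k0 → Fin 2 ⊕ Fin M) → ℝ)
    (T : Q → Q → ℝ) (e : Fin M → Q → ℝ) : Prop where
  sup : ∀ p, ∑ i, (l i * e i p) ^ 2 ≤ 2
  orth : ∀ i j, |ip (e i) (e j) - if i = j then 1 else 0| ≤ s
  eig : ∀ i, nrm (op T (e i) - l i • e i) ≤ s
  res : ∀ f : Q → ℝ, nrm (op T f - ∑ i, (l i * ip (e i) f) • e i) ≤ (l0 - g + s) * nrm f
  mom : ∀ w, |mom k0 (row T l e) w - y w| ≤ s

/-- An exact frame (eigenvectors for all eigenvalues of absolute value above `l0`, with a gap). -/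
structure XFrame {M : ℕ} (l0 g : ℝ) (T : Q → Q → ℝ) (l : Fin M → ℝ) (e : Fin M → Q → ℝ) :
    Prop where
  ge : ∀ i, l0 + g ≤ |l i|
  le : ∀ i, |l i| ≤ 1
  orth : ∀ i j, ip (e i) (e j) = if i = j then 1 else 0
  eig : ∀ i, op T (e i) = l i • e i
  res : ∀ f : Q → ℝ, nrm (op T f - ∑ i, (l i * ip (e i) f) • e i) ≤ (l0 - g) * nrm f

/-- Transition matrix from the frame `e` (at `c`) to the frame `f` (at `b`), `T = T b c`. -/
noncomputable def trans {M : ℕ} (l : Fin M → ℝ) (T : Q → Q → ℝ) (f e : Fin M → Q → ℝ) :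
    Matrix (Fin M) (Fin M) ℝ :=
  Matrix.of fun i j => ip (f i) ((l j)⁻¹ • op T (e j))

end basic

/-- Weight functions: a constant times a product of `k` linear forms in the row vector
`(1, deg, h)`. -/
structure Wt (k M : ℕ) where
  cst : ℝ
  v : Fin k → Fin 2 ⊕ Fin M → ℝ

/-- Value of a weight function at a row vector. -/
def Wt.ev {k M : ℕ} (W : Wt k M) (x : Fin 2 ⊕ Fin M → ℝ) : ℝ :=
  W.cst * ∏ t, ∑ o, W.v t o * x o

/-- Parameters of a frame: dimension, cut, gap, lower bound for the mass of the cell, weight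
function of the cell and its centre. -/
structure Param (k : ℕ) where
  M : ℕ
  l0 : ℝ
  g : ℝ
  β : ℝ
  W : Wt k M
  c : Fin M → ℝ

structure Param.Ok {k : ℕ} (θ : Param k) (ζ : ℝ) : Prop where
  g_pos : 0 < θ.g
  g_lt : θ.g < θ.l0
  β_pos : 0 < θ.β
  β_le : θ.β ≤ 1
  l0_sq : θ.l0 ^ 2 ≤ ζ * θ.β
  w_mem : ∀ x : Fin 2 ⊕ Fin θ.M → ℝ, x (Sum.inl 0) = 1 → ∑ i, x (Sum.inr i) ^ 2 ≤ 2 →
    0 ≤ θ.W.ev x ∧ θ.W.ev x ≤ 1
  c_le : ∀ i, |θ.c i| ≤ 2

section host

variable {B L X : Type} [DecidableEq B] {J K : ℕ}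

/-- The kernel between the clouds of two states. -/
def kern (S : CS (Fin J ⊕ B) L X) (R : X × Fin K → X × Fin K → ℝ) (ω ω' : St (Fin J) L X)
    (p q : Finset (Fin J) × Fin K) : ℝ :=
  R (vx S ω p) (vx S ω' q)

/-- The state of the position `b` of the window `V`. -/
def pos (S : CS (Fin J ⊕ B) L X) (V : St B L (St (Fin J) L X)) (b : Finset B) : St (Fin J) L X :=
  (S.derived.flipSet b V).1

/-- The kernels of the window `V`. -/
def wker (S : CS (Fin J ⊕ B) L X) (R : X × Fin K → X × Fin K → ℝ)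
    (V : St B L (St (Fin J) L X)) (b c : Finset B) :
    Finset (Fin J) × Fin K → Finset (Fin J) × Fin K → ℝ :=
  kern S R (pos S V b) (pos S V c)

/-- Symmetric functions with values in `[0,1]`. -/
structure Col {Y : Type} (R : Y → Y → ℝ) : Prop where
  nonneg : ∀ u v, 0 ≤ R u v
  le_one : ∀ u v, R u v ≤ 1
  symm : ∀ u v, R u v = R v u

/-- What the frames give for the embedding. `ζ` is the final precision, `Cd` the constant of the
gauge lemma, `β` the lower bound of the mass of the cells. -/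
structure FrameOut [Fintype B] [Fintype L] [Fintype X] (S : CS (Fin J ⊕ B) L X)
    (R : X × Fin K → X × Fin K → ℝ) (ζ Cd β : ℝ) (G : Type) [Group G] where
  BAD : Set (St B L (St (Fin J) L X))
  bad : prob BAD ≤ ζ
  len : G → ℝ
  biinv : BiInv len
  ζ1 : ℝ
  ζ1_pos : 0 < ζ1
  U : St (Fin J) L X → St (Fin J) L X → G
  tri : ∀ V, V ∉ BAD → ∀ b c d : Finset B,
    len (U (pos S V b) (pos S V c) * U (pos S V c) (pos S V d) *
      (U (pos S V b) (pos S V d))⁻¹) ≤ ζ1
  W : St (Fin J) L X → G → Finset (Fin J) × Fin K → ℝ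
  W_nonneg : ∀ ω γ p, 0 ≤ W ω γ p
  W_le : ∀ ω γ p, W ω γ p ≤ β⁻¹
  W_avg : ∀ ω γ, avg (W ω γ) = 1
  u : St (Fin J) L X → G → Finset (Fin J) × Fin K → ℝ
  vrho : ℝ
  p1 : ∀ V, V ∉ BAD → ∀ (b c : Finset B) (γ γ' : G),
    len (γ⁻¹ * U (pos S V b) (pos S V c) * γ') ≤ Cd * ζ1 →
    ∀ f : Finset (Fin J) × Fin K → ℝ, nrm f ≤ 1 →
    avg (fun p => W (pos S V b) γ p * (op (wker S R V b c) f p - ip (u (pos S V c) γ') f) ^ 2) ≤ ζ
  p2 : ∀ V, V ∉ BAD → ∀ (b c : Finset B) (γ γ' : G),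
    len (γ⁻¹ * U (pos S V b) (pos S V c) * γ') ≤ Cd * ζ1 →
    |avg (fun p => W (pos S V b) γ p * op (wker S R V b c) 1 p) - vrho| ≤ ζ

end host

end Pool.Agent.SRL
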