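import Mathlib
import Pool.Agent.SRL.Interface

/-!
Row LOC: the estimates (P1), (P2) of the structure theorem give the local statement
`Outcome.loc` used by the embedding.
-/

set_option autoImplicit false
set_option linter.unusedSectionVars false
set_option linter.unusedVariables false

namespace Pool.Agent.SRL

open Finset

namespace Loc

variable {Q : Type} [Fintype Q]

/-- The threshold for the errors. -/
noncomputable def xi0 (d : ℕ) : ℝ := 1 / (32 * ((d : ℝ) + 1) * 4 ^ d * (8 * (d : ℝ)) ^ (2 * d))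

theorem pow_pos' (d : ℕ) : 0 < (8 * (d : ℝ)) ^ (2 * d) := by
  rcases Nat.eq_zero_or_pos d with h | h
  · subst h; simp
  · positivity

theorem one_le_pow' (d : ℕ) : 1 ≤ (8 * (d : ℝ)) ^ (2 * d) := by
  rcases Nat.eq_zero_or_pos d with h | h
  · subst h; simp
  · apply one_le_pow₀
    have : (1 : ℝ) ≤ d := by exact_mod_cast h
    linarith

theorem xi0_pos (d : ℕ) : 0 < xi0 d := by
  have := pow_pos' d
  unfold xi0
  positivity

/-- Resampling one coordinate of a product measure. -/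
theorem sum_resample {k : ℕ} (W : Fin k → Q → ℝ) (hW1 : ∀ i, ∑ p, W i p = 1) (i : Fin k)
    (F : (Fin k → Q) → ℝ) :
    ∑ p : Fin k → Q, (∏ j, W j (p j)) * F p =
      ∑ p : Fin k → Q, (∏ j, W j (p j)) * ∑ q, W i q * F (Function.update p i q) := by
  classical
  let e := Equiv.funSplitAt i Q
  have he : ∀ (a : Q) (r : {j // j ≠ i} → Q), e.symm (a, r) = fun j => if h : j = i then a else r ⟨j, h⟩ := by
    intro a r
    funext j
    by_cases h : j = i
    · simp [e, h]
    · simp [e, h]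
  have hi : ∀ (a : Q) (r : {j // j ≠ i} → Q), e.symm (a, r) i = a := by
    intro a r; rw [he]; simp
  have hne : ∀ (a : Q) (r : {j // j ≠ i} → Q) (j : {j // j ≠ i}), e.symm (a, r) j = r j := by
    intro a r j; rw [he]; simp [j.2]
  have hup : ∀ (a q : Q) (r : {j // j ≠ i} → Q),
      Function.update (e.symm (a, r)) i q = e.symm (q, r) := by
    intro a q r
    funext j
    by_cases h : j = i
    · subst h; rw [Function.update_self, hi]
    · rw [Function.update_of_ne h]
      have h1 := hne a r ⟨j, h⟩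
      have h2 := hne q r ⟨j, h⟩
      simp only at h1 h2
      rw [h1, h2]
  have hprod : ∀ (a : Q) (r : {j // j ≠ i} → Q),
      ∏ j, W j (e.symm (a, r) j) = W i a * ∏ j : {j // j ≠ i}, W j (r j) := by
    intro a r
    rw [Fintype.prod_eq_mul_prod_subtype_ne _ i, hi]
    congr 1
    refine Finset.prod_congr rfl fun j _ => ?_
    rw [hne a r j]
  rw [← Equiv.sum_comp e.symm, ← Equiv.sum_comp e.symm, Fintype.sum_prod_type,
    Fintype.sum_prod_type]
  simp_rw [hprod, hup]
  rw [Finset.sum_comm]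
  rw [Finset.sum_comm (s := (Finset.univ : Finset Q)) (t := (Finset.univ : Finset ({j // j ≠ i} → Q)))]
  refine Finset.sum_congr rfl fun r _ => ?_
  have h1 : ∀ a : Q, W i a * (∏ j : {j // j ≠ i}, W j (r j)) * ∑ q, W i q * F (e.symm (q, r)) =
      W i a * ((∏ j : {j // j ≠ i}, W j (r j)) * ∑ q, W i q * F (e.symm (q, r))) := fun a => by ring
  simp_rw [h1]
  rw [← Finset.sum_mul, hW1 i, one_mul, Finset.mul_sum]
  refine Finset.sum_congr rfl fun a _ => ?_
  ring

/-- Products of numbers in `[0, 1]`. -/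
theorem prod_sub_le {ι : Type} (s : Finset ι) (a b : ι → ℝ) (ha0 : ∀ i, 0 ≤ a i)
    (ha1 : ∀ i, a i ≤ 1) (hb0 : ∀ i, 0 ≤ b i) (hb1 : ∀ i, b i ≤ 1) :
    |∏ i ∈ s, a i - ∏ i ∈ s, b i| ≤ ∑ i ∈ s, |a i - b i| := by
  classical
  induction s using Finset.induction_on with
  | empty => simp
  | insert i s hi ih =>
    rw [Finset.prod_insert hi, Finset.prod_insert hi, Finset.sum_insert hi]
    have h1 : a i * ∏ j ∈ s, a j - b i * ∏ j ∈ s, b j =
        (a i - b i) * ∏ j ∈ s, a j + b i * (∏ j ∈ s, a j - ∏ j ∈ s, b j) := by ring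
    rw [h1]
    refine (abs_add_le _ _).trans ?_
    rw [abs_mul, abs_mul]
    have h2 : |∏ j ∈ s, a j| ≤ 1 := by
      rw [abs_of_nonneg (Finset.prod_nonneg fun j _ => ha0 j)]
      exact Finset.prod_le_one (fun j _ => ha0 j) (fun j _ => ha1 j)
    have h3 : |b i| ≤ 1 := by rw [abs_of_nonneg (hb0 i)]; exact hb1 i
    have h4 := abs_nonneg (a i - b i)
    have h5 := abs_nonneg (∏ j ∈ s, a j - ∏ j ∈ s, b j)
    nlinarith

theorem avg_abs_le {α : Type} [Fintype α] (f : α → ℝ) : |avg f| ≤ avg (fun a => |f a|) := by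
  unfold avg
  rw [abs_div, abs_of_nonneg (by positivity : (0 : ℝ) ≤ Fintype.card α)]
  gcongr
  exact Finset.abs_sum_le_sum_abs _ _

theorem avg_mono {α : Type} [Fintype α] {f g : α → ℝ} (h : ∀ a, f a ≤ g a) : avg f ≤ avg g := by
  unfold avg
  gcongr with a
  exact h a

theorem avg_sub {α : Type} [Fintype α] (f g : α → ℝ) :
    avg (fun a => f a - g a) = avg f - avg g := by
  unfold avg
  rw [Finset.sum_sub_distrib, sub_div]

theorem avg_add {α : Type} [Fintype α] (f g : α → ℝ) :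
    avg (fun a => f a + g a) = avg f + avg g := by
  unfold avg
  rw [Finset.sum_add_distrib, add_div]

theorem avg_const {α : Type} [Fintype α] [Nonempty α] (c : ℝ) : avg (fun _ : α => c) = c := by
  unfold avg
  rw [Finset.sum_const, nsmul_eq_mul, Finset.card_univ]
  have : (Fintype.card α : ℝ) ≠ 0 := by exact_mod_cast Fintype.card_ne_zero
  field_simp

theorem avg_sum {α β : Type} [Fintype α] (s : Finset β) (f : β → α → ℝ) :
    avg (fun a => ∑ b ∈ s, f b a) = ∑ b ∈ s, avg (f b) := by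
  unfold avg
  rw [Finset.sum_comm, Finset.sum_div]

theorem avg_mul_left {α : Type} [Fintype α] (c : ℝ) (f : α → ℝ) :
    avg (fun a => c * f a) = c * avg f := by
  unfold avg
  rw [← Finset.mul_sum, mul_div_assoc]

section one

variable {W : Q → ℝ} {R : Q → Q → ℝ} {u : Q → ℝ} {xi : ℝ}

/-- (P1) in `L1` form. -/
theorem l1_of_l2 (hW0 : ∀ p, 0 ≤ W p) (hW1 : ∑ p, W p = 1) (hxi : 0 ≤ xi) (g : Q → ℝ)
    (hP1 : ∑ p, W p * (avg fun z => (R p z - u z) * g z) ^ 2 ≤ xi ^ 2) :
    ∑ p, W p * |avg fun z => (R p z - u z) * g z| ≤ xi := by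
  have h1 : (∑ p, W p * |avg fun z => (R p z - u z) * g z|) ^ 2 ≤
      ∑ p, W p * |avg fun z => (R p z - u z) * g z| ^ 2 := by
    have := Real.pow_arith_mean_le_arith_mean_pow Finset.univ W
      (fun p => |avg fun z => (R p z - u z) * g z|) (fun p _ => hW0 p) hW1
      (fun p _ => abs_nonneg _) 2
    exact this
  simp_rw [sq_abs] at h1
  exact abs_le_of_sq_le_sq' (h1.trans hP1) hxi |>.2

/-- The mean of the rows. -/
def rho (W : Q → ℝ) (R : Q → Q → ℝ) (z : Q) : ℝ := ∑ p, W p * R p z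

theorem rho_nonneg (hW0 : ∀ p, 0 ≤ W p) (hR0 : ∀ p z, 0 ≤ R p z) (z : Q) : 0 ≤ rho W R z :=
  Finset.sum_nonneg fun p _ => mul_nonneg (hW0 p) (hR0 p z)

theorem rho_le_one (hW0 : ∀ p, 0 ≤ W p) (hW1 : ∑ p, W p = 1) (hR1 : ∀ p z, R p z ≤ 1) (z : Q) :
    rho W R z ≤ 1 := by
  rw [← hW1]
  exact Finset.sum_le_sum fun p _ => mul_le_of_le_one_right (hW0 p) (hR1 p z)

theorem avg_rho_mul (hW1 : ∑ p, W p = 1) (g : Q → ℝ) :
    (avg fun z => (rho W R z - u z) * g z) = ∑ p, W p * avg fun z => (R p z - u z) * g z := by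
  have h1 : (fun z => (rho W R z - u z) * g z) =
      fun z => ∑ p, W p * ((R p z - u z) * g z) := by
    funext z
    have h2 : ∑ p, W p * ((R p z - u z) * g z) =
        (∑ p, W p * R p z) * g z - (∑ p, W p) * (u z * g z) := by
      rw [Finset.sum_mul, Finset.sum_mul, ← Finset.sum_sub_distrib]
      refine Finset.sum_congr rfl fun p _ => ?_
      ring
    rw [h2, hW1]
    unfold rho
    ring
  rw [h1, avg_sum]
  refine Finset.sum_congr rfl fun p _ => ?_
  rw [avg_mul_left]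

theorem rho_close (hW0 : ∀ p, 0 ≤ W p) (hW1 : ∑ p, W p = 1) (hxi : 0 ≤ xi)
    (g : Q → ℝ) (hP1 : ∑ p, W p * (avg fun z => (R p z - u z) * g z) ^ 2 ≤ xi ^ 2) :
    |avg fun z => (rho W R z - u z) * g z| ≤ xi := by
  rw [avg_rho_mul hW1]
  refine (Finset.abs_sum_le_sum_abs _ _).trans ?_
  refine le_trans (le_of_eq ?_) (l1_of_l2 hW0 hW1 hxi g hP1)
  refine Finset.sum_congr rfl fun p _ => ?_
  rw [abs_mul, abs_of_nonneg (hW0 p)]

theorem rho_replace (hW0 : ∀ p, 0 ≤ W p) (hW1 : ∑ p, W p = 1) (hxi : 0 ≤ xi)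
    (g : Q → ℝ) (hP1 : ∑ p, W p * (avg fun z => (R p z - u z) * g z) ^ 2 ≤ xi ^ 2) :
    ∑ p, W p * |avg fun z => (rho W R z - R p z) * g z| ≤ 2 * xi := by
  have h1 : ∀ p, |avg fun z => (rho W R z - R p z) * g z| ≤
      xi + |avg fun z => (R p z - u z) * g z| := by
    intro p
    have h2 : (fun z => (rho W R z - R p z) * g z) =
        fun z => (rho W R z - u z) * g z - (R p z - u z) * g z := by
      funext z; ring
    rw [h2, avg_sub]
    refine (abs_sub _ _).trans ?_
    gcongr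
    exact rho_close hW0 hW1 hxi g hP1
  calc ∑ p, W p * |avg fun z => (rho W R z - R p z) * g z|
      ≤ ∑ p, W p * (xi + |avg fun z => (R p z - u z) * g z|) :=
        Finset.sum_le_sum fun p _ => mul_le_mul_of_nonneg_left (h1 p) (hW0 p)
    _ = (∑ p, W p) * xi + ∑ p, W p * |avg fun z => (R p z - u z) * g z| := by
        rw [Finset.sum_mul, ← Finset.sum_add_distrib]
        refine Finset.sum_congr rfl fun p _ => ?_
        ring
    _ ≤ 1 * xi + xi := by
        rw [hW1]
        gcongr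
        exact l1_of_l2 hW0 hW1 hxi g hP1
    _ = 2 * xi := by ring

/-- `L1` distance of `rho` to the clamped `u`. -/
theorem rho_l1 (hW0 : ∀ p, 0 ≤ W p) (hW1 : ∑ p, W p = 1) (hxi : 0 ≤ xi)
    (hR0 : ∀ p z, 0 ≤ R p z) (hR1 : ∀ p z, R p z ≤ 1)
    (hP1 : ∀ g : Q → ℝ, (∀ z, |g z| ≤ 1) →
      ∑ p, W p * (avg fun z => (R p z - u z) * g z) ^ 2 ≤ xi ^ 2) :
    (avg fun z => |rho W R z - max 0 (min 1 (u z))|) ≤ xi := by
  have h1 : ∀ z, |rho W R z - max 0 (min 1 (u z))| ≤ |rho W R z - u z| := by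
    intro z
    have h0 := rho_nonneg hW0 hR0 z
    have h2 := rho_le_one hW0 hW1 hR1 z
    rcases le_total (u z) 0 with h3 | h3
    · have : max 0 (min 1 (u z)) = 0 := by
        apply max_eq_left
        exact (min_le_right _ _).trans h3
      rw [this, sub_zero, abs_of_nonneg h0, abs_of_nonneg (by linarith)]
      linarith
    · rcases le_total (u z) 1 with h4 | h4
      · have : max 0 (min 1 (u z)) = u z := by
          rw [min_eq_right h4, max_eq_right h3]
        rw [this]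
      · have : max 0 (min 1 (u z)) = 1 := by
          rw [min_eq_left h4]; norm_num
        rw [this, abs_of_nonpos (by linarith), abs_of_nonpos (by linarith)]
        linarith
  refine (avg_mono h1).trans ?_
  have h2 := rho_close hW0 hW1 hxi (fun z => if 0 ≤ rho W R z - u z then (1 : ℝ) else -1)
    (hP1 _ (by intro z; split_ifs <;> simp))
  have h3 : (fun z => (rho W R z - u z) * (if 0 ≤ rho W R z - u z then (1 : ℝ) else -1)) =
      fun z => |rho W R z - u z| := by
    funext z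
    split_ifs with h
    · rw [abs_of_nonneg h, mul_one]
    · rw [abs_of_neg (lt_of_not_ge h)]; ring
  rw [h3] at h2
  exact (le_abs_self _).trans h2

end one

section many

variable {k : ℕ} {W : Fin k → Q → ℝ} {R : Fin k → Q → Q → ℝ} {u : Q → ℝ} {xi : ℝ}

/-- Hybrid products. -/
def hyb (W : Fin k → Q → ℝ) (R : Fin k → Q → Q → ℝ) (S : Finset (Fin k)) (p : Fin k → Q)
    (z : Q) : ℝ := ∏ j, if j ∈ S then rho (W j) (R j) z else R j (p j) z

theorem replace_one [Nonempty Q] (hW0 : ∀ i p, 0 ≤ W i p) (hW1 : ∀ i, ∑ p, W i p = 1) (hxi : 0 ≤ xi)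
    (hR0 : ∀ i p z, 0 ≤ R i p z) (hR1 : ∀ i p z, R i p z ≤ 1)
    (hP1 : ∀ i, ∀ g : Q → ℝ, (∀ z, |g z| ≤ 1) →
      ∑ p, W i p * (avg fun z => (R i p z - u z) * g z) ^ 2 ≤ xi ^ 2)
    (S : Finset (Fin k)) (i : Fin k) (hi : i ∉ S) :
    ∑ p : Fin k → Q, (∏ j, W j (p j)) *
      |avg (hyb W R (insert i S) p) - avg (hyb W R S p)| ≤ 2 * xi := by
  classical
  rw [sum_resample W hW1 i]
  let G : (Fin k → Q) → Q → ℝ := fun p z =>
    ∏ j ∈ Finset.univ.erase i, if j ∈ S then rho (W j) (R j) z else R j (p j) z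
  have hG0 : ∀ p z, 0 ≤ G p z := by
    intro p z
    refine Finset.prod_nonneg fun j _ => ?_
    split_ifs
    · exact rho_nonneg (hW0 j) (hR0 j) z
    · exact hR0 _ _ _
  have hG1 : ∀ p z, G p z ≤ 1 := by
    intro p z
    refine Finset.prod_le_one (fun j _ => ?_) (fun j _ => ?_)
    · split_ifs
      · exact rho_nonneg (hW0 j) (hR0 j) z
      · exact hR0 _ _ _
    · split_ifs
      · exact rho_le_one (hW0 j) (hW1 j) (hR1 j) z
      · exact hR1 _ _ _
  have hGup : ∀ p q, G (Function.update p i q) = G p := by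
    intro p q
    funext z
    refine Finset.prod_congr rfl fun j hj => ?_
    rw [Function.update_of_ne (Finset.ne_of_mem_erase hj)]
  have h1 : ∀ p z, hyb W R (insert i S) p z = rho (W i) (R i) z * G p z := by
    intro p z
    unfold hyb
    rw [← Finset.mul_prod_erase _ _ (Finset.mem_univ i), if_pos (Finset.mem_insert_self i S)]
    congr 1
    refine Finset.prod_congr rfl fun j hj => ?_
    have hne := Finset.ne_of_mem_erase hj
    simp [Finset.mem_insert, hne]
  have h2 : ∀ p z, hyb W R S p z = R i (p i) z * G p z := by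
    intro p z
    unfold hyb
    rw [← Finset.mul_prod_erase _ _ (Finset.mem_univ i), if_neg hi]
  have h3 : ∀ p, |avg (hyb W R (insert i S) p) - avg (hyb W R S p)| =
      |avg fun z => (rho (W i) (R i) z - R i (p i) z) * G p z| := by
    intro p
    rw [← avg_sub]
    congr 2
    funext z
    rw [h1, h2]
    ring
  have hWp : ∀ p : Fin k → Q, 0 ≤ ∏ j, W j (p j) := fun p => Finset.prod_nonneg fun j _ => hW0 j _
  have hWs : ∑ p : Fin k → Q, ∏ j, W j (p j) = 1 := by
    rw [← Fintype.prod_sum]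
    exact Finset.prod_eq_one fun j _ => hW1 j
  calc ∑ p : Fin k → Q, (∏ j, W j (p j)) * ∑ q, W i q *
        |avg (hyb W R (insert i S) (Function.update p i q)) -
          avg (hyb W R S (Function.update p i q))|
      ≤ ∑ p : Fin k → Q, (∏ j, W j (p j)) * (2 * xi) := by
        refine Finset.sum_le_sum fun p _ => mul_le_mul_of_nonneg_left ?_ (hWp p)
        have h4 : ∀ q, |avg (hyb W R (insert i S) (Function.update p i q)) -
            avg (hyb W R S (Function.update p i q))| =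
            |avg fun z => (rho (W i) (R i) z - R i q z) * G p z| := by
          intro q
          rw [h3, Function.update_self, hGup]
        simp_rw [h4]
        exact rho_replace (hW0 i) (hW1 i) hxi (G p)
          (hP1 i (G p) fun z => by rw [abs_of_nonneg (hG0 p z)]; exact hG1 p z)
    _ = 2 * xi := by rw [← Finset.sum_mul, hWs, one_mul]

theorem replace_all [Nonempty Q] (hW0 : ∀ i p, 0 ≤ W i p) (hW1 : ∀ i, ∑ p, W i p = 1) (hxi : 0 ≤ xi)
    (hR0 : ∀ i p z, 0 ≤ R i p z) (hR1 : ∀ i p z, R i p z ≤ 1)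
    (hP1 : ∀ i, ∀ g : Q → ℝ, (∀ z, |g z| ≤ 1) →
      ∑ p, W i p * (avg fun z => (R i p z - u z) * g z) ^ 2 ≤ xi ^ 2)
    (S : Finset (Fin k)) :
    ∑ p : Fin k → Q, (∏ j, W j (p j)) *
      |avg (hyb W R S p) - avg (hyb W R ∅ p)| ≤ 2 * xi * S.card := by
  classical
  have hWp : ∀ p : Fin k → Q, 0 ≤ ∏ j, W j (p j) := fun p => Finset.prod_nonneg fun j _ => hW0 j _
  induction S using Finset.induction_on with
  | empty => simp
  | insert i S hi ih =>
    have h1 := replace_one hW0 hW1 hxi hR0 hR1 hP1 S i hi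
    rw [Finset.card_insert_of_notMem hi]
    push_cast
    calc ∑ p : Fin k → Q, (∏ j, W j (p j)) * |avg (hyb W R (insert i S) p) - avg (hyb W R ∅ p)|
        ≤ ∑ p : Fin k → Q, ((∏ j, W j (p j)) * |avg (hyb W R (insert i S) p) - avg (hyb W R S p)|
            + (∏ j, W j (p j)) * |avg (hyb W R S p) - avg (hyb W R ∅ p)|) := by
          refine Finset.sum_le_sum fun p _ => ?_
          rw [← mul_add]
          exact mul_le_mul_of_nonneg_left (abs_sub_le _ _ _) (hWp p)
      _ ≤ 2 * xi * (S.card + 1) := by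
          rw [Finset.sum_add_distrib]
          linarith

/-- Lower bound for the product of the means. -/
theorem prod_rho_ge [Nonempty Q] (hW0 : ∀ i p, 0 ≤ W i p) (hW1 : ∀ i, ∑ p, W i p = 1)
    (hxi : 0 ≤ xi) (hxi1 : xi ≤ 1 / 4)
    (hR0 : ∀ i p z, 0 ≤ R i p z) (hR1 : ∀ i p z, R i p z ≤ 1)
    (hP1 : ∀ i, ∀ g : Q → ℝ, (∀ z, |g z| ≤ 1) →
      ∑ p, W i p * (avg fun z => (R i p z - u z) * g z) ^ 2 ≤ xi ^ 2)
    (hP2 : ∀ i, 1 / 2 - xi ≤ avg (rho (W i) (R i))) :
    (1 / 2 : ℝ) ^ k - 3 * k * xi ≤ avg fun z => ∏ i, rho (W i) (R i) z := by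
  classical
  rcases Nat.eq_zero_or_pos k with hk | hk
  · subst hk
    simp [avg_const]
  let v : Q → ℝ := fun z => max 0 (min 1 (u z))
  have hv0 : ∀ z, 0 ≤ v z := fun z => le_max_left _ _
  have hv1 : ∀ z, v z ≤ 1 := fun z => max_le zero_le_one (min_le_left _ _)
  have hl : ∀ i, (avg fun z => |rho (W i) (R i) z - v z|) ≤ xi := fun i =>
    rho_l1 (hW0 i) (hW1 i) hxi (hR0 i) (hR1 i) (hP1 i)
  have h1 : ∀ z, v z ^ k - ∑ i, |rho (W i) (R i) z - v z| ≤ ∏ i, rho (W i) (R i) z := by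
    intro z
    have := prod_sub_le Finset.univ (fun i => rho (W i) (R i) z) (fun _ : Fin k => v z)
      (fun i => rho_nonneg (hW0 i) (hR0 i) z) (fun i => rho_le_one (hW0 i) (hW1 i) (hR1 i) z)
      (fun _ => hv0 z) (fun _ => hv1 z)
    rw [Finset.prod_const, Finset.card_univ, Fintype.card_fin] at this
    have h2 := (abs_le.1 this).1
    linarith
  have h2 : avg v ^ k ≤ avg fun z => v z ^ k := by
    have hc : (0 : ℝ) < Fintype.card Q := by exact_mod_cast Fintype.card_pos
    have := Real.pow_arith_mean_le_arith_mean_pow (Finset.univ : Finset Q)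
      (fun _ => 1 / (Fintype.card Q : ℝ)) v (fun _ _ => by positivity)
      (by rw [Finset.sum_const, nsmul_eq_mul, Finset.card_univ]; field_simp)
      (fun z _ => hv0 z) k
    have h3 : ∀ f : Q → ℝ, ∑ i, 1 / (Fintype.card Q : ℝ) * f i = avg f := by
      intro f
      unfold avg
      rw [← Finset.mul_sum]
      ring
    have h4 := h3 v
    have h5 := h3 (fun z => v z ^ k)
    rw [h4, h5] at this
    exact this
  have h3 : 1 / 2 - 2 * xi ≤ avg v := by
    have h4 := hP2 ⟨0, hk⟩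
    have h5 := hl ⟨0, hk⟩
    have h6 : avg (rho (W ⟨0, hk⟩) (R ⟨0, hk⟩)) - avg v ≤
        avg fun z => |rho (W ⟨0, hk⟩) (R ⟨0, hk⟩) z - v z| := by
      rw [← avg_sub]
      exact avg_mono fun z => le_abs_self _
    linarith
  have h4 : (1 / 2 : ℝ) ^ k - 2 * k * xi ≤ avg v ^ k := by
    have h5 : (1 / 2 - 2 * xi : ℝ) ^ k ≤ avg v ^ k := pow_le_pow_left₀ (by linarith) h3 k
    have := prod_sub_le (Finset.univ : Finset (Fin k)) (fun _ => (1 / 2 - 2 * xi : ℝ))
      (fun _ => (1 / 2 : ℝ)) (fun _ => by linarith) (fun _ => by linarith)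
      (fun _ => by norm_num) (fun _ => by norm_num)
    rw [Finset.prod_const, Finset.prod_const, Finset.sum_const, Finset.card_univ,
      Fintype.card_fin, nsmul_eq_mul] at this
    have h6 : |(1 / 2 - 2 * xi - 1 / 2 : ℝ)| = 2 * xi := by
      rw [abs_of_nonpos (by linarith)]; ring
    rw [h6] at this
    have h7 := (abs_le.1 this).1
    nlinarith
  have h5 : (avg fun z => v z ^ k) - k * xi ≤ avg fun z => ∏ i, rho (W i) (R i) z := by
    refine le_trans ?_ (avg_mono h1)
    rw [avg_sub, avg_sum]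
    have h6 : ∑ i : Fin k, (avg fun z => |rho (W i) (R i) z - v z|) ≤ ∑ i : Fin k, xi :=
      Finset.sum_le_sum fun i _ => hl i
    rw [Finset.sum_const, Finset.card_univ, Fintype.card_fin, nsmul_eq_mul] at h6
    linarith
  linarith

/-- The core estimate. -/
theorem core [Nonempty Q] {d : ℕ} (hk : k ≤ 2 * d) (hW0 : ∀ i p, 0 ≤ W i p)
    (hW1 : ∀ i, ∑ p, W i p = 1) (hxi : 0 ≤ xi) (hxi1 : xi ≤ xi0 d)
    (hR0 : ∀ i p z, 0 ≤ R i p z) (hR1 : ∀ i p z, R i p z ≤ 1)
    (hP1 : ∀ i, ∀ g : Q → ℝ, (∀ z, |g z| ≤ 1) →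
      ∑ p, W i p * (avg fun z => (R i p z - u z) * g z) ^ 2 ≤ xi ^ 2)
    (hP2 : ∀ i, 1 / 2 - xi ≤ ∑ p, W i p * avg (R i p)) :
    ∑ p : Fin k → Q, (∏ i, W i (p i)) *
      (open Classical in if (avg fun z => ∏ i, R i (p i) z) < (1 / 2 : ℝ) ^ (2 * d + 2)
        then (1 : ℝ) else 0) ≤ 1 / (2 * (8 * (d : ℝ)) ^ (2 * d)) := by
  classical
  have hA := one_le_pow' d
  have h4d : (0 : ℝ) < 4 ^ d := by positivity
  have h4d1 : (1 : ℝ) ≤ 4 ^ d := one_le_pow₀ (by norm_num)
  have hd0 : (0 : ℝ) ≤ d := by positivity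
  set A : ℝ := (8 * (d : ℝ)) ^ (2 * d) with hAdef
  have hxi2 : xi * (32 * ((d : ℝ) + 1) * 4 ^ d * A) ≤ 1 := by
    have : xi ≤ 1 / (32 * ((d : ℝ) + 1) * 4 ^ d * A) := hxi1
    rwa [le_div_iff₀ (by positivity)] at this
  have hB : (32 : ℝ) ≤ 32 * ((d : ℝ) + 1) * 4 ^ d * A := by
    have h1 : (1 : ℝ) ≤ ((d : ℝ) + 1) * 4 ^ d := by nlinarith
    have h2 : (1 : ℝ) ≤ ((d : ℝ) + 1) * 4 ^ d * A := by nlinarith
    nlinarith
  have hxi3 : xi ≤ 1 / 4 := by nlinarith
  have hP2' : ∀ i, 1 / 2 - xi ≤ avg (rho (W i) (R i)) := by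
    intro i
    refine (hP2 i).trans (le_of_eq ?_)
    have h1 : (avg (rho (W i) (R i))) = avg fun z => ∑ p, W i p * R i p z := rfl
    rw [h1, avg_sum]
    refine Finset.sum_congr rfl fun p _ => ?_
    rw [avg_mul_left]
  have hE := prod_rho_ge hW0 hW1 hxi hxi3 hR0 hR1 hP1 hP2'
  set E : ℝ := avg fun z => ∏ i, rho (W i) (R i) z with hEdef
  have hrep := replace_all hW0 hW1 hxi hR0 hR1 hP1 Finset.univ
  have hh1 : ∀ p, avg (hyb W R Finset.univ p) = E := by
    intro p
    rw [hEdef]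
    congr 1
    funext z
    unfold hyb
    simp
  have hh2 : ∀ p, avg (hyb W R ∅ p) = avg fun z => ∏ i, R i (p i) z := by
    intro p
    have h0 : hyb W R ∅ p = fun z => ∏ i, R i (p i) z := by
      funext z
      unfold hyb
      simp
    rw [h0]
  simp_rw [hh1, hh2] at hrep
  rw [Finset.card_univ, Fintype.card_fin] at hrep
  have hkd : (k : ℝ) ≤ 2 * d := by exact_mod_cast hk
  have hk0 : (0 : ℝ) ≤ k := by positivity
  have hpk : (1 / 2 : ℝ) ^ (2 * d) ≤ (1 / 2 : ℝ) ^ k :=
    pow_le_pow_of_le_one (by norm_num) (by norm_num) hk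
  have hp2 : (1 / 2 : ℝ) ^ (2 * d) = 1 / 4 ^ d := by
    rw [pow_mul, ← one_div_pow]
    norm_num
  have hp3 : (1 / 2 : ℝ) ^ (2 * d + 2) = 1 / 4 ^ d / 4 := by
    rw [pow_add, hp2]; norm_num; ring
  have hkx : 3 * k * xi ≤ 1 / 4 ^ d / 4 := by
    have h1 : 3 * (k : ℝ) * xi ≤ 6 * d * xi := by nlinarith
    have h2 : 6 * d * xi * (4 ^ d * 4) ≤ 1 := by
      have h3 : 6 * (d : ℝ) * (4 ^ d * 4) ≤ 32 * ((d : ℝ) + 1) * 4 ^ d * A := by
        have h5 : (0 : ℝ) ≤ ((d : ℝ) + 1) * 4 ^ d := by positivity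
        nlinarith
      nlinarith
    have h4 : 6 * (d : ℝ) * xi ≤ 1 / 4 ^ d / 4 := by
      rw [div_div, le_div_iff₀ (by positivity)]
      exact h2
    linarith
  have hE2 : 1 / 4 ^ d * (3 / 4) ≤ E := by
    rw [hp2] at hpk
    linarith
  have hWp : ∀ p : Fin k → Q, 0 ≤ ∏ j, W j (p j) := fun p => Finset.prod_nonneg fun j _ => hW0 j _
  have hind : ∀ p : Fin k → Q,
      (if (avg fun z => ∏ i, R i (p i) z) < (1 / 2 : ℝ) ^ (2 * d + 2) then (1 : ℝ) else 0) ≤
        |E - avg fun z => ∏ i, R i (p i) z| * (2 * 4 ^ d) := by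
    intro p
    split_ifs with h
    · rw [hp3] at h
      have h1 : 1 / 4 ^ d / 2 ≤ E - avg fun z => ∏ i, R i (p i) z := by
        have : (1 : ℝ) / 4 ^ d / 2 = 1 / 4 ^ d * (3 / 4) - 1 / 4 ^ d / 4 := by ring
        rw [this]
        linarith
      have h2 := h1.trans (le_abs_self _)
      calc (1 : ℝ) = 1 / 4 ^ d / 2 * (2 * 4 ^ d) := by field_simp
        _ ≤ _ := mul_le_mul_of_nonneg_right h2 (by positivity)
    · positivity
  calc ∑ p : Fin k → Q, (∏ i, W i (p i)) *
        (if (avg fun z => ∏ i, R i (p i) z) < (1 / 2 : ℝ) ^ (2 * d + 2) then (1 : ℝ) else 0)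
      ≤ ∑ p : Fin k → Q, (∏ i, W i (p i)) *
          (|E - avg fun z => ∏ i, R i (p i) z| * (2 * 4 ^ d)) :=
        Finset.sum_le_sum fun p _ => mul_le_mul_of_nonneg_left (hind p) (hWp p)
    _ = (∑ p : Fin k → Q, (∏ i, W i (p i)) * |E - avg fun z => ∏ i, R i (p i) z|) *
          (2 * 4 ^ d) := by
        rw [Finset.sum_mul]
        refine Finset.sum_congr rfl fun p _ => ?_
        ring
    _ ≤ 2 * xi * k * (2 * 4 ^ d) := mul_le_mul_of_nonneg_right hrep (by positivity)
    _ ≤ 1 / (2 * A) := by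
        rw [le_div_iff₀ (by positivity)]
        have h1 : 2 * xi * k * (2 * 4 ^ d) * (2 * A) ≤ 2 * xi * (2 * d) * (2 * 4 ^ d) * (2 * A) := by
          gcongr
        have h2 : 2 * xi * (2 * (d : ℝ)) * (2 * 4 ^ d) * (2 * A) =
            xi * (16 * d * 4 ^ d * A) := by ring
        have h3 : xi * (16 * d * 4 ^ d * A) ≤ xi * (32 * ((d : ℝ) + 1) * 4 ^ d * A) := by
          apply mul_le_mul_of_nonneg_left _ hxi
          have h5 : (0 : ℝ) ≤ 4 ^ d * A := by positivity
          nlinarith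
        linarith

end many

section colour

variable {B L X : Type} [DecidableEq B] {J K : ℕ}

/-- The indicator of the colour `cb` of the edge between the vertex `p` of the fibre of `w` and
the vertex `z` of the fibre of `w0`. -/
def ind (S : CS (Fin J ⊕ B) L X) (col : Sym2 (X × Fin K) → Bool) (cb : Bool)
    (w w0 : St (Fin J) L X) (p z : Finset (Fin J) × Fin K) : ℝ :=
  if col s(vx S w p, vx S w0 z) = cb then 1 else 0

theorem ind_nonneg (S : CS (Fin J ⊕ B) L X) (col : Sym2 (X × Fin K) → Bool) (cb : Bool)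
    (w w0 : St (Fin J) L X) (p z : Finset (Fin J) × Fin K) : 0 ≤ ind S col cb w w0 p z := by
  unfold ind; split_ifs <;> norm_num

theorem ind_le_one (S : CS (Fin J ⊕ B) L X) (col : Sym2 (X × Fin K) → Bool) (cb : Bool)
    (w w0 : St (Fin J) L X) (p z : Finset (Fin J) × Fin K) : ind S col cb w w0 p z ≤ 1 := by
  unfold ind; split_ifs <;> norm_num

theorem ind_false (S : CS (Fin J ⊕ B) L X) (col : Sym2 (X × Fin K) → Bool)
    (w w0 : St (Fin J) L X) (p z : Finset (Fin J) × Fin K) :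
    ind S col false w w0 p z = 1 - ind S col true w w0 p z := by
  unfold ind
  cases h : col s(vx S w p, vx S w0 z) <;> simp

theorem Zval_eq (S : CS (Fin J ⊕ B) L X) (col : Sym2 (X × Fin K) → Bool) (cb : Bool)
    (w0 : St (Fin J) L X) {k : ℕ} (w : Fin k → St (Fin J) L X)
    (p : Fin k → Finset (Fin J) × Fin K) :
    Zval S col cb w0 (fun i => vx S (w i) (p i)) =
      avg fun z => ∏ i, ind S col cb (w i) w0 (p i) z := by
  classical
  unfold Zval prob
  congr 1
  funext z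
  by_cases h : ∀ i, col s(vx S (w i) (p i), vx S w0 z) = cb
  · rw [if_pos (by simpa using h)]
    symm
    refine Finset.prod_eq_one fun i _ => ?_
    unfold ind
    rw [if_pos (h i)]
  · rw [if_neg (by simpa using h)]
    symm
    push Not at h
    obtain ⟨i, hi⟩ := h
    refine Finset.prod_eq_zero (Finset.mem_univ i) ?_
    unfold ind
    rw [if_neg hi]

/-- (P1) and (P2) for the red edges give the local statement for the majority colour. -/
theorem loc_of (S : CS (Fin J ⊕ B) L X) (col : Sym2 (X × Fin K) → Bool) (hK : 0 < K) {d : ℕ}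
    {xi : ℝ} (hxi : 0 ≤ xi) (hxi1 : xi ≤ xi0 d) (w0 : St (Fin J) L X) {k : ℕ} (hk : k ≤ 2 * d)
    (w : Fin k → St (Fin J) L X) (W : Fin k → Finset (Fin J) × Fin K → ℝ)
    (hW0 : ∀ i p, 0 ≤ W i p) (hW1 : ∀ i, ∑ p, W i p = 1)
    (u : Finset (Fin J) × Fin K → ℝ) (vrho : ℝ)
    (hP1 : ∀ i, ∀ g : Finset (Fin J) × Fin K → ℝ, (∀ z, |g z| ≤ 1) →
      ∑ p, W i p * (avg fun z => (ind S col true (w i) w0 p z - u z) * g z) ^ 2 ≤ xi ^ 2)
    (hP2 : ∀ i, |∑ p, W i p * avg (ind S col true (w i) w0 p) - vrho| ≤ xi) :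
    ∑ p : Fin k → Finset (Fin J) × Fin K, (∏ i, W i (p i)) *
      (open Classical in if Zval S col (decide (1 / 2 ≤ vrho)) w0
          (fun i => vx S (w i) (p i)) < (1 / 2 : ℝ) ^ (2 * d + 2)
        then (1 : ℝ) else 0) ≤ 1 / (2 * (8 * (d : ℝ)) ^ (2 * d)) := by
  classical
  have : Nonempty (Finset (Fin J) × Fin K) := ⟨(∅, ⟨0, hK⟩)⟩
  simp_rw [Zval_eq]
  by_cases hv : 1 / 2 ≤ vrho
  · have hd : decide (1 / 2 ≤ vrho) = true := by simpa using hv
    rw [hd]
    refine core hk hW0 hW1 hxi hxi1 (u := u) (fun i p z => ind_nonneg _ _ _ _ _ _ _)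
      (fun i p z => ind_le_one _ _ _ _ _ _ _) hP1 (fun i => ?_)
    have := (abs_le.1 (hP2 i)).1
    linarith
  · have hd : decide (1 / 2 ≤ vrho) = false := by simpa using hv
    rw [hd]
    refine core hk hW0 hW1 hxi hxi1 (u := fun z => 1 - u z)
      (fun i p z => ind_nonneg _ _ _ _ _ _ _)
      (fun i p z => ind_le_one _ _ _ _ _ _ _) (fun i g hg => ?_) (fun i => ?_)
    · refine le_trans (le_of_eq ?_) (hP1 i g hg)
      refine Finset.sum_congr rfl fun p _ => ?_
      congr 1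
      have h1 : (fun z => (ind S col false (w i) w0 p z - (1 - u z)) * g z) =
          fun z => (-1) * ((ind S col true (w i) w0 p z - u z) * g z) := by
        funext z
        rw [ind_false]
        ring
      rw [h1, avg_mul_left]
      ring
    · have h1 : ∀ p, avg (ind S col false (w i) w0 p) = 1 - avg (ind S col true (w i) w0 p) := by
        intro p
        have h2 : ind S col false (w i) w0 p = fun z => (1 : ℝ) - ind S col true (w i) w0 p z := by
          funext z
          exact ind_false _ _ _ _ _ _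
        rw [h2, avg_sub, avg_const]
      simp_rw [h1]
      have h2 : ∑ p, W i p * (1 - avg (ind S col true (w i) w0 p)) =
          1 - ∑ p, W i p * avg (ind S col true (w i) w0 p) := by
        have h4 : ∀ p, W i p * (1 - avg (ind S col true (w i) w0 p)) =
            W i p - W i p * avg (ind S col true (w i) w0 p) := fun p => by ring
        simp_rw [h4]
        rw [Finset.sum_sub_distrib, hW1 i]
      rw [h2]
      have h3 := (abs_le.1 (hP2 i)).2
      push Not at hv
      linarith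

end colour

end Loc

end Pool.Agent.SRL
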