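import Mathlib
import Pool.Agent.SRL.FDefs
import Pool.Agent.SRL.Loc

/-! Row F12: the structure theorem from the frames. -/

set_option autoImplicit false

namespace Pool.Agent.SRL

open Finset

/-- The statement of the theorem on frames (row F10). -/
def FramesThm : Prop :=
  ∀ (D : ℕ), 0 < D → ∀ (ζ Cd : ℝ), 0 < ζ → 1 ≤ Cd →
    ∃ (J : ℕ) (β lam0 : ℝ), 0 < β ∧ 0 < lam0 ∧ ∀ (q n K : ℕ) [NeZero q] [NeZero n] [NeZero K]
      (S : CS (Fin J ⊕ Fin D) (Fin q) (Fin n)) (sgn : Fin n → ℝ), Gap S sgn lam0 →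
      ∀ (R : Fin n × Fin K → Fin n × Fin K → ℝ), Col R →
      ∃ (e : Equiv.Perm (Fin J ⊕ Fin D)) (G : Type) (_ : Group G),
        Nonempty (FrameOut (S.reindex e) R ζ Cd β G)

namespace Fr12

section near

variable {G : Type} [Group G] {len : G → ℝ}

/-- Two triangles give a square. -/
theorem square (h : BiInv len) {z : ℝ} (a b c a' c' : G) (h1 : len (a * b * c⁻¹) ≤ z)
    (h2 : len (a' * c' * c⁻¹) ≤ z) : len (a * b * (a' * c')⁻¹) ≤ 2 * z := by
  have h3 : a * b * (a' * c')⁻¹ = (a * b * c⁻¹) * (a' * c' * c⁻¹)⁻¹ := by group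
  rw [h3]
  refine (h.mul _ _).trans ?_
  rw [h.inv]
  linarith

theorem near_len (h : BiInv len) {z r : ℝ} (gi g0 uPi uP0 ui0 : G)
    (h1 : len (uPi * ui0 * uP0⁻¹) ≤ z) (h2 : len ((uP0 * g0)⁻¹ * (uPi * gi)) ≤ r) :
    len (gi⁻¹ * ui0 * g0) ≤ r + z := by
  have h3 : gi⁻¹ * ui0 * g0 = ((uP0 * g0)⁻¹ * (uPi * gi))⁻¹ *
      ((g0⁻¹ * uP0⁻¹) * (uPi * ui0 * uP0⁻¹) * (g0⁻¹ * uP0⁻¹)⁻¹) := by group
  rw [h3]
  refine (h.mul _ _).trans ?_
  rw [h.inv, h.conj]
  linarith

end near

section pos

variable {B L X : Type} [DecidableEq B] {J : ℕ}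

/-- The position `insert b T` is reached from the position `T` by a step. -/
theorem pos_insert (S : CS (Fin J ⊕ B) L X) (V : St B L (St (Fin J) L X)) (T : Finset B) (b : B)
    (hb : b ∉ T) : pos S V (insert b T) =
      S.derived.step b ((S.derived.flipSet T V).2 b) (S.derived.flipSet T V).1 := by
  unfold pos
  rw [S.derived.flipSet_insert hb]
  rfl

end pos

end Fr12

open Fr12 in
theorem structure_of_frames (hF : FramesThm) (d : ℕ) : StructureThm d := by
  classical
  intro D Cd del hD hCd hdel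
  have hx := Loc.xi0_pos d
  set xi := Loc.xi0 d with hxidef
  have hζ : 0 < min del (min xi (xi ^ 2)) := lt_min hdel (lt_min hx (by positivity))
  obtain ⟨J, β, lam0, hβ, hlam, hmain⟩ := hF D hD (min del (min xi (xi ^ 2))) (2 * Cd + 1) hζ
    (by linarith)
  refine ⟨J, lam0, β⁻¹, hlam, ?_⟩
  intro q nX K hq hn hK S sgn hgap col
  have : NeZero q := ⟨hq.ne'⟩
  have : NeZero nX := ⟨hn.ne'⟩
  have : NeZero K := ⟨hK.ne'⟩
  let R : Fin nX × Fin K → Fin nX × Fin K → ℝ := fun u v => if col s(u, v) = true then 1 else 0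
  have hR : Col R := by
    refine ⟨fun u v => ?_, fun u v => ?_, fun u v => ?_⟩
    · simp only [R]; split_ifs <;> norm_num
    · simp only [R]; split_ifs <;> norm_num
    · simp only [R]; rw [Sym2.eq_swap]
  obtain ⟨e, G, _, ⟨F⟩⟩ := hmain q nX K S sgn hgap R hR
  set S' := S.reindex e with hS'
  have hcard : (0 : ℝ) < Fintype.card (Finset (Fin J) × Fin K) := by
    exact_mod_cast Fintype.card_pos
  set N : ℝ := (Fintype.card (Finset (Fin J) × Fin K) : ℝ) with hN
  let gh : St (Fin J) (Fin q) (Fin nX) → Fin D → Fin q → G := fun w b s =>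
    F.U w (S'.derived.step b s w)
  have hgh : ∀ (V : St (Fin D) (Fin q) (St (Fin J) (Fin q) (Fin nX))) (T : Finset (Fin D))
      (b : Fin D), b ∉ T → gh (S'.derived.flipSet T V).1 b ((S'.derived.flipSet T V).2 b) =
        F.U (pos S' V T) (pos S' V (insert b T)) := by
    intro V T b hb
    rw [pos_insert S' V T b hb]
    rfl
  refine ⟨e, decide (1 / 2 ≤ F.vrho), G, inferInstance, F.len, 2 * F.ζ1, F.BAD, gh,
    fun w g p => F.W w g p / N, ?_⟩
  refine ⟨F.biinv, F.bad.trans (min_le_left _ _), ?_, ?_, ?_, ?_, ?_⟩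
  · intro V hV T b c hb hc hbc
    rw [hgh V T b hb, hgh V T c hc, hgh V (insert b T) c (by simp [hc, Ne.symm hbc]),
      hgh V (insert c T) b (by simp [hb, hbc]), Finset.insert_comm c b T]
    exact square F.biinv _ _ (F.U (pos S' V T) (pos S' V (insert b (insert c T)))) _ _
      (F.tri V hV _ _ _) (F.tri V hV _ _ _)
  · intro w g p
    exact div_nonneg (F.W_nonneg _ _ _) hcard.le
  · intro w g
    have := F.W_avg w g
    unfold avg at this
    rw [← Finset.sum_div]
    exact this
  · intro w g p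
    rw [div_mul_cancel₀ _ hcard.ne']
    exact F.W_le w g p
  · intro V hV T0 g0 k hk T g hnear
    have hlen : ∀ i, F.len ((g i)⁻¹ * F.U (pos S' V (T i)) (pos S' V T0) * g0) ≤
        (2 * Cd + 1) * F.ζ1 := by
      intro i
      rcases hnear i with ⟨h1, h2⟩ | ⟨P, b, b', hb, hb', hbb, h1, h2, h3⟩
      · rw [h1, h2]
        have h4 : F.len (g0⁻¹ * F.U (pos S' V T0) (pos S' V T0) * g0) =
            F.len (F.U (pos S' V T0) (pos S' V T0)) := by
          have := F.biinv.conj (F.U (pos S' V T0) (pos S' V T0)) g0⁻¹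
          rwa [inv_inv] at this
        rw [h4]
        have h5 := F.tri V hV T0 T0 T0
        rw [mul_assoc, mul_inv_cancel, mul_one] at h5
        have h6 := F.ζ1_pos
        nlinarith
      · rw [hgh V P b hb, hgh V P b' hb', ← h1, ← h2] at h3
        have h4 := near_len F.biinv (g i) g0 (F.U (pos S' V P) (pos S' V (T i)))
          (F.U (pos S' V P) (pos S' V T0)) (F.U (pos S' V (T i)) (pos S' V T0))
          (F.tri V hV P (T i) T0) h3
        refine h4.trans (le_of_eq ?_)
        ring
    have hop : ∀ (i : Fin k) (f : Finset (Fin J) × Fin K → ℝ) (p : Finset (Fin J) × Fin K),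
        op (wker S' R V (T i) T0) f p - ip (F.u (pos S' V T0) g0) f =
          avg fun z => (Loc.ind S' col true (pos S' V (T i)) (pos S' V T0) p z -
            F.u (pos S' V T0) g0 z) * f z := by
      intro i f p
      unfold op ip
      rw [← Loc.avg_sub]
      congr 1
      funext z
      rw [← sub_mul]
      rfl
    refine Loc.loc_of S' col hK hx.le le_rfl (S'.derived.flipSet T0 V).1 hk
      (fun i => (S'.derived.flipSet (T i) V).1)
      (fun i p => F.W (S'.derived.flipSet (T i) V).1 (g i) p / N) ?_ ?_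
      (F.u (pos S' V T0) g0) F.vrho ?_ ?_
    · intro i p
      exact div_nonneg (F.W_nonneg _ _ _) hcard.le
    · intro i
      have := F.W_avg (S'.derived.flipSet (T i) V).1 (g i)
      unfold avg at this
      rw [← Finset.sum_div]
      exact this
    · intro i f hf
      have hnf : nrm f ≤ 1 := by
        unfold nrm
        rw [Real.sqrt_le_left (by norm_num), one_pow]
        unfold ip
        refine (Loc.avg_mono (g := fun _ => (1 : ℝ)) fun z => ?_).trans (le_of_eq ?_)
        · have h1 := abs_le.1 (hf z)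
          nlinarith
        · exact Loc.avg_const 1
      have h1 := F.p1 V hV (T i) T0 (g i) g0 (hlen i) f hnf
      refine le_trans (le_of_eq ?_) (h1.trans ((min_le_right _ _).trans (min_le_right _ _)))
      unfold avg
      rw [Finset.sum_div]
      refine Finset.sum_congr rfl fun p _ => ?_
      have h2 := hop i f p
      unfold avg at h2
      rw [h2]
      change F.W (S'.derived.flipSet (T i) V).1 (g i) p / N * _ =
        F.W (S'.derived.flipSet (T i) V).1 (g i) p * _ / N
      rw [div_mul_eq_mul_div]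
      rfl
    · intro i
      have h1 := F.p2 V hV (T i) T0 (g i) g0 (hlen i)
      refine le_trans (le_of_eq ?_) (h1.trans ((min_le_right _ _).trans (min_le_left _ _)))
      congr 2
      unfold avg
      rw [Finset.sum_div]
      refine Finset.sum_congr rfl fun p _ => ?_
      have h2 : op (wker S' R V (T i) T0) 1 p =
          avg (Loc.ind S' col true (pos S' V (T i)) (pos S' V T0) p) := by
        unfold op
        congr 1
        funext z
        rw [Pi.one_apply, mul_one]
        rfl
      rw [h2]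
      change F.W (S'.derived.flipSet (T i) V).1 (g i) p / N * _ =
        F.W (S'.derived.flipSet (T i) V).1 (g i) p * _ / N
      rw [div_mul_eq_mul_div]
      rfl

end Pool.Agent.SRL
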