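import Pool.Agent.SRL.Frames
import Pool.Agent.SRL.FLoc

/-!
The structure theorem for colourings of hosts.
-/

set_option autoImplicit false

namespace Pool.Agent.SRL

/-- The structure theorem. -/
theorem structure_thm (d : ℕ) : StructureThm d :=
  structure_of_frames (fun D hD z C hz hC => frames D hD z C hz hC) d

end Pool.Agent.SRL
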