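import Mathlib
import Pool.Agent.SRL.Assembly
import Pool.Agent.SRL.DFinal
import Pool.Agent.SRL.Embed
import Pool.Agent.SRL.Structure
import Pool.Agent.SRL.HostMain

/-!
The size-Ramsey number of the `d`-dimensional grid graph is linear in its number of vertices:
final assembly.
-/

set_option autoImplicit false

namespace Pool.Agent.SRL

/-- For every `d ≥ 1` the size-Ramsey number of the `d`-dimensional grid graph is linear. -/
theorem linear_size_ramsey (d : ℕ) (hd : 1 ≤ d) : FinalThm d :=
  final_of d host_exists (disc_gauge_thm d) (structure_thm d) (embed_thm d hd)

end Pool.Agent.SRL
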