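import Mathlib
import Pool.Agent.SRL.Defs
import Pool.Agent.Helper64.SRL.Tensor

/-!
MP_971383_co, row 4.11: the point `h0` and the weight (Bernstein polynomials of the frame
coordinates), everything controlled by finitely many moments.
-/

set_option autoImplicit false
set_option linter.unusedSectionVars false
set_option linter.unusedVariables false

namespace Pool.Agent.SRL.Bern

open Finset Matrix Pool.Agent.Helper64.SRL

/-! ### One variable -/

/-- The Bernstein polynomial in the variable `y`, rescaled to `[-2, 2]`. -/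
noncomputable def b (n : ℕ) (ν : Fin (n + 1)) (y : ℝ) : ℝ :=
  (n.choose ν : ℝ) * (1 / 2 + y / 4) ^ (ν : ℕ) * (1 / 2 - y / 4) ^ (n - (ν : ℕ))

/-- The node `4 ν / n - 2`. -/
noncomputable def node (n : ℕ) (ν : Fin (n + 1)) : ℝ := 4 * (ν : ℕ) / n - 2

theorem b_eq_eval (n : ℕ) (ν : Fin (n + 1)) (y : ℝ) :
    b n ν y = (bernsteinPolynomial ℝ n ν).eval (1 / 2 + y / 4) := by
  unfold b
  rw [bernsteinPolynomial]
  simp only [Polynomial.eval_mul, Polynomial.eval_natCast, Polynomial.eval_pow, Polynomial.eval_X,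
    Polynomial.eval_sub, Polynomial.eval_one]
  have : (1 : ℝ) / 2 - y / 4 = 1 - (1 / 2 + y / 4) := by ring
  rw [this]

theorem b_nonneg {n : ℕ} (ν : Fin (n + 1)) {y : ℝ} (hy : |y| ≤ 2) : 0 ≤ b n ν y := by
  have h := abs_le.1 hy
  unfold b
  have h1 : 0 ≤ 1 / 2 + y / 4 := by linarith [h.1]
  have h2 : 0 ≤ 1 / 2 - y / 4 := by linarith [h.2]
  positivity

theorem b_sum (n : ℕ) (y : ℝ) : ∑ ν, b n ν y = 1 := by
  have h := congrArg (Polynomial.eval (1 / 2 + y / 4)) (bernsteinPolynomial.sum ℝ n)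
  rw [Polynomial.eval_finsetSum, Polynomial.eval_one, Finset.sum_range] at h
  simpa [b_eq_eval] using h

theorem b_var {n : ℕ} (hn : 0 < n) (y : ℝ) :
    ∑ ν, b n ν y * (y - node n ν) ^ 2 = (4 - y ^ 2) / n := by
  have h := congrArg (Polynomial.eval (1 / 2 + y / 4)) (bernsteinPolynomial.variance ℝ n)
  rw [Polynomial.eval_finsetSum, Finset.sum_range] at h
  simp only [Polynomial.eval_mul, Polynomial.eval_pow, Polynomial.eval_sub,
    Polynomial.eval_X, Polynomial.eval_natCast, Polynomial.eval_one,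
    ← b_eq_eval, nsmul_eq_mul] at h
  have hn' : (n : ℝ) ≠ 0 := by exact_mod_cast hn.ne'
  have h2 : ∑ ν, b n ν y * (y - node n ν) ^ 2 = 16 / (n : ℝ) ^ 2 *
      ∑ ν : Fin (n + 1), ((n : ℝ) * (1 / 2 + y / 4) - ((ν : ℕ) : ℝ)) ^ 2 * b n ν y := by
    rw [Finset.mul_sum]
    refine Finset.sum_congr rfl fun ν _ => ?_
    unfold node
    field_simp
    ring
  rw [h2, h]
  field_simp
  ring

/-! ### Several variables -/

variable {M0 n M : ℕ}

/-- The Bernstein weight of the first `M0` coordinates. -/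
noncomputable def chi (hM : M0 ≤ M) (n : ℕ) (κ : Fin M0 → Fin (n + 1)) (h : Fin M → ℝ) : ℝ :=
  ∏ i : Fin M0, b n (κ i) (h (Fin.castLE hM i))

/-- The centre of the weight. -/
noncomputable def h0 (M : ℕ) (n : ℕ) (κ : Fin M0 → Fin (n + 1)) (i : Fin M) : ℝ :=
  if hi : (i : ℕ) < M0 then node n (κ ⟨i, hi⟩) else 0

theorem chi_nonneg (hM : M0 ≤ M) (κ : Fin M0 → Fin (n + 1)) {h : Fin M → ℝ}
    (hh : ∀ i, |h i| ≤ 2) : 0 ≤ chi hM n κ h :=
  Finset.prod_nonneg fun i _ => b_nonneg _ (hh _)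

theorem chi_sum (hM : M0 ≤ M) (n : ℕ) (h : Fin M → ℝ) : ∑ κ, chi hM n κ h = 1 := by
  have h1 : ∏ i : Fin M0, ∑ ν, b n ν (h (Fin.castLE hM i)) = 1 := by
    simp [b_sum]
  rw [Finset.prod_univ_sum] at h1
  simpa [chi] using h1

theorem chi_le_one (hM : M0 ≤ M) (κ : Fin M0 → Fin (n + 1)) {h : Fin M → ℝ}
    (hh : ∀ i, |h i| ≤ 2) : chi hM n κ h ≤ 1 := by
  rw [← chi_sum hM n h]
  exact Finset.single_le_sum (f := fun κ => chi hM n κ h)
    (fun κ _ => chi_nonneg hM κ hh) (Finset.mem_univ κ)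

theorem chi_var (hM : M0 ≤ M) (hn : 0 < n) (h : Fin M → ℝ) (j : Fin M0) :
    ∑ κ, chi hM n κ h * (h (Fin.castLE hM j) - node n (κ j)) ^ 2
      = (4 - h (Fin.castLE hM j) ^ 2) / n := by
  have h1 : ∏ i : Fin M0, ∑ ν, (b n ν (h (Fin.castLE hM i)) *
      (if i = j then (h (Fin.castLE hM i) - node n ν) ^ 2 else 1))
      = (4 - h (Fin.castLE hM j) ^ 2) / n := by
    rw [Finset.prod_eq_single j]
    · simp only [if_true]
      exact b_var hn _
    · intro i _ hi
      simp [hi, b_sum]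
    · simp
  rw [Finset.prod_univ_sum] at h1
  rw [← h1]
  simp only [Fintype.piFinset_univ]
  refine Finset.sum_congr rfl fun κ _ => ?_
  rw [Finset.prod_mul_distrib]
  unfold chi
  congr 1
  rw [Finset.prod_ite_eq' Finset.univ j (fun i => (h (Fin.castLE hM i) - node n (κ i)) ^ 2)]
  simp

/-- `|h - h0|²` as a sum over the first coordinates and the others. -/
noncomputable def dist2 (n : ℕ) (κ : Fin M0 → Fin (n + 1)) (h : Fin M → ℝ) : ℝ :=
  ∑ i, (h i - h0 M n κ i) ^ 2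

theorem dist2_nonneg (κ : Fin M0 → Fin (n + 1)) (h : Fin M → ℝ) : 0 ≤ dist2 n κ h :=
  Finset.sum_nonneg fun _ _ => sq_nonneg _

theorem chi_dist2 (hM : M0 ≤ M) (hn : 0 < n) (h : Fin M → ℝ) :
    ∑ κ, chi hM n κ h * dist2 n κ h ≤
      4 * M0 / n + ∑ i : Fin M, (if (i : ℕ) < M0 then 0 else h i ^ 2) := by
  have h1 : ∀ κ : Fin M0 → Fin (n + 1), chi hM n κ h * dist2 n κ h =
      (∑ j : Fin M, (if hj : (j : ℕ) < M0 then
        chi hM n κ h * (h j - node n (κ ⟨j, hj⟩)) ^ 2 else chi hM n κ h * h j ^ 2)) := by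
    intro κ
    unfold dist2
    rw [Finset.mul_sum]
    refine Finset.sum_congr rfl fun j _ => ?_
    unfold h0
    split_ifs <;> simp
  simp only [h1]
  rw [Finset.sum_comm]
  have h2 : ∀ j : Fin M, ∑ κ : Fin M0 → Fin (n + 1), (if hj : (j : ℕ) < M0 then
        chi hM n κ h * (h j - node n (κ ⟨j, hj⟩)) ^ 2 else chi hM n κ h * h j ^ 2)
      ≤ (if (j : ℕ) < M0 then 4 / (n : ℝ) else 0) + (if (j : ℕ) < M0 then 0 else h j ^ 2) := by
    intro j
    by_cases hj : (j : ℕ) < M0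
    · simp only [hj, dif_pos, if_true, add_zero]
      have h3 := chi_var hM hn h ⟨j, hj⟩
      have h4 : Fin.castLE hM ⟨(j : ℕ), hj⟩ = j := rfl
      rw [h4] at h3
      rw [h3]
      have : (0 : ℝ) < n := by exact_mod_cast hn
      gcongr
      nlinarith [sq_nonneg (h j)]
    · simp only [hj, dif_neg, not_false_eq_true, if_false, zero_add]
      rw [← Finset.sum_mul, chi_sum, one_mul]
  refine (Finset.sum_le_sum fun j _ => h2 j).trans ?_
  rw [Finset.sum_add_distrib]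
  gcongr
  rw [← Finset.sum_filter, Finset.sum_const, nsmul_eq_mul]
  have h5 : (Finset.univ.filter fun j : Fin M => (j : ℕ) < M0).card ≤ M0 := by
    have : (Finset.univ.filter fun j : Fin M => (j : ℕ) < M0).card ≤ (Finset.range M0).card :=
      Finset.card_le_card_of_injOn (fun j => (j : ℕ)) (by intro j hj; simpa using hj)
        (fun a _ b _ h => Fin.ext h)
    simpa using this
  have h6 : ((Finset.univ.filter fun j : Fin M => (j : ℕ) < M0).card : ℝ) ≤ M0 := by
    exact_mod_cast h5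
  have : (0 : ℝ) < n := by exact_mod_cast hn
  calc ((Finset.univ.filter fun j : Fin M => (j : ℕ) < M0).card : ℝ) * (4 / n)
      ≤ M0 * (4 / n) := by gcongr
    _ = 4 * M0 / n := by ring


/-! ### Forms of degree `k` in the row vector (one coordinate is equal to `1`) -/

section form

variable {N : Type} [Fintype N] [DecidableEq N]

/-- `F` is given by a form of degree `k` on the row vectors with `x o = 1`. -/
def IsForm (o : N) (k : ℕ) (F : (N → ℝ) → ℝ) : Prop :=
  ∃ c : (Fin k → N) → ℝ, ∀ x : N → ℝ, x o = 1 → F x = ∑ w, c w * ∏ t, x (w t)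

theorem IsForm.congr {o : N} {k : ℕ} {F G : (N → ℝ) → ℝ} (hF : IsForm o k F)
    (h : ∀ x : N → ℝ, x o = 1 → G x = F x) : IsForm o k G := by
  obtain ⟨c, hc⟩ := hF
  exact ⟨c, fun x hx => (h x hx).trans (hc x hx)⟩

theorem isForm_const (o : N) (a : ℝ) : IsForm o 0 (fun _ => a) :=
  ⟨fun _ => a, fun x _ => by simp⟩

theorem isForm_coord (o : N) (i : N) : IsForm o 1 (fun x => x i) := by
  refine ⟨fun w => if w = (fun _ => i) then 1 else 0, fun x _ => ?_⟩
  simp

theorem IsForm.mul {o : N} {k l : ℕ} {F G : (N → ℝ) → ℝ} (hF : IsForm o k F)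
    (hG : IsForm o l G) : IsForm o (k + l) (fun x => F x * G x) := by
  obtain ⟨c, hc⟩ := hF
  obtain ⟨d, hd⟩ := hG
  refine ⟨fun w => c (fun i => w (Fin.castAdd l i)) * d (fun j => w (Fin.natAdd k j)),
    fun x hx => ?_⟩
  beta_reduce
  rw [hc x hx, hd x hx, Finset.sum_mul_sum, ← Finset.sum_product', Finset.univ_product_univ]
  refine Fintype.sum_equiv (Fin.appendEquiv k l) _ _ fun p => ?_
  simp only [Fin.appendEquiv, Equiv.coe_fn_mk, Fin.append_left, Fin.append_right,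
    Fin.prod_univ_add]
  ring

theorem IsForm.add {o : N} {k : ℕ} {F G : (N → ℝ) → ℝ} (hF : IsForm o k F)
    (hG : IsForm o k G) : IsForm o k (fun x => F x + G x) := by
  obtain ⟨c, hc⟩ := hF
  obtain ⟨d, hd⟩ := hG
  refine ⟨fun w => c w + d w, fun x hx => ?_⟩
  beta_reduce
  rw [hc x hx, hd x hx, ← Finset.sum_add_distrib]
  exact Finset.sum_congr rfl fun w _ => by ring

theorem IsForm.smul {o : N} {k : ℕ} {F : (N → ℝ) → ℝ} (a : ℝ) (hF : IsForm o k F) :
    IsForm o k (fun x => a * F x) := by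
  obtain ⟨c, hc⟩ := hF
  refine ⟨fun w => a * c w, fun x hx => ?_⟩
  beta_reduce
  rw [hc x hx, Finset.mul_sum]
  exact Finset.sum_congr rfl fun w _ => by ring

theorem IsForm.succ {o : N} {k : ℕ} {F : (N → ℝ) → ℝ} (hF : IsForm o k F) :
    IsForm o (k + 1) F :=
  (hF.mul (isForm_coord o o)).congr fun x hx => by simp [hx]

theorem IsForm.mono {o : N} {k l : ℕ} (hkl : k ≤ l) {F : (N → ℝ) → ℝ} (hF : IsForm o k F) :
    IsForm o l F := by
  induction l, hkl using Nat.le_induction with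
  | base => exact hF
  | succ m _ ih => exact ih.succ

theorem IsForm.sum {o : N} {k : ℕ} {ι : Type} (s : Finset ι) {F : ι → (N → ℝ) → ℝ}
    (hF : ∀ i ∈ s, IsForm o k (F i)) : IsForm o k (fun x => ∑ i ∈ s, F i x) := by
  classical
  induction s using Finset.induction_on with
  | empty => exact ((isForm_const o 0).mono (Nat.zero_le k)).congr fun x _ => by simp
  | insert a s ha ih =>
    refine ((hF a (Finset.mem_insert_self _ _)).add
      (ih fun i hi => hF i (Finset.mem_insert_of_mem hi))).congr fun x _ => ?_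
    rw [Finset.sum_insert ha]

theorem IsForm.prod {o : N} {k : ℕ} {ι : Type} (s : Finset ι) {F : ι → (N → ℝ) → ℝ}
    (hF : ∀ i ∈ s, IsForm o k (F i)) : IsForm o (s.card * k) (fun x => ∏ i ∈ s, F i x) := by
  classical
  induction s using Finset.induction_on with
  | empty => exact ((isForm_const o 1).mono (Nat.zero_le _)).congr fun x _ => by simp
  | insert a s ha ih =>
    refine (((hF a (Finset.mem_insert_self _ _)).mul
      (ih fun i hi => hF i (Finset.mem_insert_of_mem hi))).mono ?_).congr fun x _ => ?_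
    · rw [Finset.card_insert_of_notMem ha]
      exact le_of_eq (by ring)
    · rw [Finset.prod_insert ha]

theorem IsForm.pow {o : N} {k : ℕ} {F : (N → ℝ) → ℝ} (hF : IsForm o k F) (m : ℕ) :
    IsForm o (m * k) (fun x => F x ^ m) := by
  have h := IsForm.prod (o := o) (Finset.range m) (F := fun _ => F) (fun _ _ => hF)
  refine (h.mono (by simp)).congr fun x _ => ?_
  simp

theorem isForm_affine (o i : N) (a d : ℝ) : IsForm o 1 (fun x => a + d * x i) :=
  ((isForm_const o a).mono (Nat.zero_le 1)).add ((isForm_coord o i).smul d)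

/-- The moments of order `k` of a family of row vectors. -/
noncomputable def mom {Q : Type} [Fintype Q] (k : ℕ) (H : Q → N → ℝ) (w : Fin k → N) : ℝ :=
  avg (fun p => ∏ t, H p (w t))

theorem avg_form {Q : Type} [Fintype Q] {o : N} {k : ℕ} {F : (N → ℝ) → ℝ}
    {c : (Fin k → N) → ℝ} (hc : ∀ x : N → ℝ, x o = 1 → F x = ∑ w, c w * ∏ t, x (w t))
    (H : Q → N → ℝ) (hH : ∀ p, H p o = 1) :
    avg (fun p => F (H p)) = ∑ w, c w * mom k H w := by
  unfold mom avg
  have h1 : ∀ p, F (H p) = ∑ w, c w * ∏ t, H p (w t) := fun p => hc _ (hH p)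
  simp only [h1]
  rw [Finset.sum_comm, Finset.sum_div]
  refine Finset.sum_congr rfl fun w _ => ?_
  rw [← Finset.mul_sum, mul_div_assoc]

theorem mom_vecMul {Q : Type} [Fintype Q] (k : ℕ) (H : Q → N → ℝ) (B : Matrix N N ℝ) :
    mom k (fun p => H p ᵥ* B) = tact k B (mom k H) := by
  funext w
  unfold mom avg tact
  simp only [prod_vecMul]
  rw [Finset.sum_comm, Finset.sum_div]
  refine Finset.sum_congr rfl fun w' _ => ?_
  rw [← Finset.mul_sum, mul_div_assoc]

end form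


/-! ### Stability under small changes of the moments and under the stabiliser -/

section stability

variable {k : ℕ}

theorem abs_tact_le {N : Type} [Fintype N] [DecidableEq N] {B : Matrix N N ℝ}
    (hB : ∀ i j, |B i j| ≤ 1) {v : (Fin k → N) → ℝ} {s : ℝ} (hv : ∀ w, |v w| ≤ s)
    (w : Fin k → N) : |tact k B v w| ≤ Fintype.card (Fin k → N) * s := by
  unfold tact
  refine (Finset.abs_sum_le_sum_abs _ _).trans ?_
  have h1 : ∀ w' : Fin k → N, |(∏ t, B (w' t) (w t)) * v w'| ≤ s := by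
    intro w'
    rw [abs_mul, Finset.abs_prod]
    have h2 : ∏ t, |B (w' t) (w t)| ≤ 1 :=
      Finset.prod_le_one (fun _ _ => abs_nonneg _) (fun _ _ => hB _ _)
    have h3 : 0 ≤ ∏ t, |B (w' t) (w t)| := Finset.prod_nonneg fun _ _ => abs_nonneg _
    calc (∏ t, |B (w' t) (w t)|) * |v w'| ≤ 1 * |v w'| := by
          gcongr
      _ ≤ s := by rw [one_mul]; exact hv w'
  refine (Finset.sum_le_card_nsmul _ _ s fun w' _ => h1 w').trans ?_
  rw [nsmul_eq_mul, Finset.card_univ]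

theorem tact_sub {N : Type} [Fintype N] [DecidableEq N] (B : Matrix N N ℝ)
    (v u : (Fin k → N) → ℝ) (w : Fin k → N) :
    tact k B (fun w => v w - u w) w = tact k B v w - tact k B u w := by
  unfold tact
  rw [← Finset.sum_sub_distrib]
  exact Finset.sum_congr rfl fun _ _ => by ring

theorem orth_entry_le (g : Matrix.orthogonalGroup (Fin M) ℝ) (i j : Fin M) :
    |(g : Matrix (Fin M) (Fin M) ℝ) i j| ≤ 1 := by
  have h1 : (g : Matrix (Fin M) (Fin M) ℝ) * (g : Matrix (Fin M) (Fin M) ℝ)ᵀ = 1 :=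
    (Matrix.mem_orthogonalGroup_iff (Fin M) ℝ).1 g.2
  have h2 := congrFun (congrFun h1 i) i
  simp only [Matrix.mul_apply, Matrix.transpose_apply, Matrix.one_apply_eq] at h2
  have h3 : (g : Matrix (Fin M) (Fin M) ℝ) i j * (g : Matrix (Fin M) (Fin M) ℝ) i j ≤ 1 := by
    rw [← h2]
    exact Finset.single_le_sum (f := fun l => (g : Matrix (Fin M) (Fin M) ℝ) i l *
      (g : Matrix (Fin M) (Fin M) ℝ) i l) (fun l _ => mul_self_nonneg _) (Finset.mem_univ j)
  exact abs_le_one_iff_mul_self_le_one.2 h3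

theorem blk_entry_le (a : ℕ) (g : Matrix.orthogonalGroup (Fin M) ℝ) (i j : Fin a ⊕ Fin M) :
    |blk a (g : Matrix (Fin M) (Fin M) ℝ) i j| ≤ 1 := by
  rcases i with i | i <;> rcases j with j | j
  · simp only [blk, Matrix.fromBlocks_apply₁₁, Matrix.one_apply]
    split_ifs <;> simp
  · simp [blk]
  · simp [blk]
  · simpa [blk] using orth_entry_le g i j

theorem vecMul_blk_inl {a : ℕ} (x : Fin a ⊕ Fin M → ℝ) (B : Matrix (Fin M) (Fin M) ℝ)
    (i : Fin a) : (x ᵥ* blk a B) (Sum.inl i) = x (Sum.inl i) := by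
  simp [Matrix.vecMul, dotProduct, blk, Matrix.one_apply]

theorem vecMul_blk_inr {a : ℕ} (x : Fin a ⊕ Fin M → ℝ) (B : Matrix (Fin M) (Fin M) ℝ)
    (i : Fin M) :
    (x ᵥ* blk a B) (Sum.inr i) = ((fun j => x (Sum.inr j)) ᵥ* B) i := by
  simp [Matrix.vecMul, dotProduct, blk]

/-- Averages of forms are stable. -/
theorem form_stable {F : (Fin 2 ⊕ Fin M → ℝ) → ℝ} (hF : IsForm (Sum.inl 0) k F) :
    ∃ C : ℝ, 0 ≤ C ∧ ∃ Λ : ((Fin k → Fin 2 ⊕ Fin M) → ℝ) → ℝ,
      ∀ (z : (Fin k → Fin 2 ⊕ Fin M) → ℝ) (s : ℝ), ∀ g ∈ stab 2 k M z,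
      ∀ (Q : Type) [Fintype Q] (H : Q → Fin 2 ⊕ Fin M → ℝ), (∀ p, H p (Sum.inl 0) = 1) →
        (∀ w, |mom k H w - z w| ≤ s) →
        |avg (fun p => F (H p ᵥ* blk 2 (g : Matrix (Fin M) (Fin M) ℝ))) - Λ z| ≤ C * s := by
  obtain ⟨c, hc⟩ := hF
  refine ⟨(∑ w, |c w|) * Fintype.card (Fin k → Fin 2 ⊕ Fin M), by positivity,
    fun z => ∑ w, c w * z w, ?_⟩
  intro z s g hg Q _ H hH hs
  have h1 := avg_form hc (fun p => H p ᵥ* blk 2 (g : Matrix (Fin M) (Fin M) ℝ))
    (fun p => by rw [vecMul_blk_inl]; exact hH p)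
  rw [h1, mom_vecMul]
  have hz : ∀ w, z w = tact k (blk 2 (g : Matrix (Fin M) (Fin M) ℝ)) z w := fun w =>
    (congrFun (mem_stab.1 hg) w).symm
  have h2 : ∑ w, c w * tact k (blk 2 (g : Matrix (Fin M) (Fin M) ℝ)) (mom k H) w
      - ∑ w, c w * z w = ∑ w, c w *
        tact k (blk 2 (g : Matrix (Fin M) (Fin M) ℝ)) (fun w => mom k H w - z w) w := by
    rw [← Finset.sum_sub_distrib]
    refine Finset.sum_congr rfl fun w _ => ?_
    rw [tact_sub, ← hz w]
    ring
  rw [h2, Finset.sum_mul, Finset.sum_mul]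
  refine (Finset.abs_sum_le_sum_abs _ _).trans (Finset.sum_le_sum fun w _ => ?_)
  rw [abs_mul, mul_assoc]
  exact mul_le_mul_of_nonneg_left (abs_tact_le (blk_entry_le 2 g) hs w) (abs_nonneg _)

theorem isForm_b {N : Type} [Fintype N] [DecidableEq N] (o i : N) (n : ℕ) (ν : Fin (n + 1)) :
    IsForm o n (fun x => b n ν (x i)) := by
  have h1 := ((isForm_affine o i (1 / 2) (1 / 4)).pow (ν : ℕ))
  have h2 := ((isForm_affine o i (1 / 2) (-(1 / 4))).pow (n - (ν : ℕ)))
  have h3 := (h1.mul h2).smul (n.choose ν : ℝ)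
  refine (h3.mono ?_).congr fun x _ => ?_
  · have := ν.2; omega
  · unfold b
    have e1 : (1 : ℝ) / 2 + 1 / 4 * x i = 1 / 2 + x i / 4 := by ring
    have e2 : (1 : ℝ) / 2 + -(1 / 4) * x i = 1 / 2 - x i / 4 := by ring
    rw [e1, e2]
    ring

theorem isForm_chi (hM : M0 ≤ M) (n : ℕ) (κ : Fin M0 → Fin (n + 1)) :
    IsForm (Sum.inl 0 : Fin 2 ⊕ Fin M) (n * M0) (fun x => chi hM n κ (fun i => x (Sum.inr i))) := by
  have h := IsForm.prod (o := (Sum.inl 0 : Fin 2 ⊕ Fin M)) (k := n) (Finset.univ : Finset (Fin M0))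
    (F := fun i x => b n (κ i) (x (Sum.inr (Fin.castLE hM i)))) (fun i _ => isForm_b _ _ _ _)
  refine (h.mono ?_).congr fun x _ => rfl
  simp [mul_comm]

theorem isForm_dist2 (n : ℕ) (κ : Fin M0 → Fin (n + 1)) :
    IsForm (Sum.inl 0 : Fin 2 ⊕ Fin M) 2 (fun x => dist2 n κ (fun i => x (Sum.inr i))) := by
  refine (IsForm.sum (o := (Sum.inl 0 : Fin 2 ⊕ Fin M)) (k := 2) (Finset.univ : Finset (Fin M))
    (F := fun i x => (-h0 M n κ i + 1 * x (Sum.inr i)) ^ 2)
    (fun i _ => ((isForm_affine _ _ _ _).pow 2))).congr fun x _ => ?_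
  unfold dist2
  exact Finset.sum_congr rfl fun i _ => by ring

end stability


/-! ### Averages -/

section avgs

variable {Q : Type} [Fintype Q]

theorem avg_mono {f g : Q → ℝ} (h : ∀ p, f p ≤ g p) : avg f ≤ avg g := by
  unfold avg
  exact div_le_div_of_nonneg_right (Finset.sum_le_sum fun p _ => h p) (Nat.cast_nonneg _)

theorem avg_nonneg {f : Q → ℝ} (h : ∀ p, 0 ≤ f p) : 0 ≤ avg f :=
  div_nonneg (Finset.sum_nonneg fun p _ => h p) (Nat.cast_nonneg _)

theorem avg_sum {ι : Type} (s : Finset ι) (f : ι → Q → ℝ) :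
    avg (fun p => ∑ i ∈ s, f i p) = ∑ i ∈ s, avg (f i) := by
  unfold avg
  rw [Finset.sum_comm, Finset.sum_div]

theorem avg_const [Nonempty Q] (a : ℝ) : avg (fun _ : Q => a) = a := by
  unfold avg
  rw [Finset.sum_const, nsmul_eq_mul, Finset.card_univ]
  have : (Fintype.card Q : ℝ) ≠ 0 := by exact_mod_cast Fintype.card_ne_zero
  field_simp

theorem avg_add (f g : Q → ℝ) : avg (fun p => f p + g p) = avg f + avg g := by
  unfold avg
  rw [Finset.sum_add_distrib, add_div]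

end avgs

/-! ### Choice of the cell -/

theorem exists_kappa (hM : M0 ≤ M) (hn : 0 < n) {Q : Type} [Fintype Q] [Nonempty Q]
    (h : Q → Fin M → ℝ) (hh : ∀ p i, |h p i| ≤ 2) {α : ℝ} (hα : 0 < α)
    (hrest : ∑ i : Fin M, (if (i : ℕ) < M0 then 0 else avg (fun p => h p i ^ 2)) ≤ α) :
    ∃ κ : Fin M0 → Fin (n + 1), 1 / (2 * ((n : ℝ) + 1) ^ M0) ≤ avg (fun p => chi hM n κ (h p)) ∧
      avg (fun p => chi hM n κ (h p) * dist2 n κ (h p)) ≤
        2 * (4 * M0 / n + α) * avg (fun p => chi hM n κ (h p)) := by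
  classical
  by_contra hcon
  push Not at hcon
  set c : ℝ := 4 * M0 / n + α with hc
  have hn' : (0 : ℝ) < n := by exact_mod_cast hn
  have hc0 : 0 < c := by rw [hc]; positivity
  set NN : ℝ := ((n : ℝ) + 1) ^ M0 with hNN
  have hN0 : 0 < NN := by positivity
  have hmass : ∑ κ : Fin M0 → Fin (n + 1), avg (fun p => chi hM n κ (h p)) = 1 := by
    rw [← avg_sum]
    simp only [chi_sum]
    exact avg_const 1
  have hcost : ∑ κ : Fin M0 → Fin (n + 1), avg (fun p => chi hM n κ (h p) * dist2 n κ (h p))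
      ≤ c := by
    rw [← avg_sum]
    refine (avg_mono fun p => chi_dist2 hM hn (h p)).trans ?_
    rw [avg_add, avg_const, avg_sum]
    have e1 : ∑ i : Fin M, avg (fun p => if (i : ℕ) < M0 then 0 else h p i ^ 2) =
        ∑ i : Fin M, (if (i : ℕ) < M0 then 0 else avg (fun p => h p i ^ 2)) := by
      refine Finset.sum_congr rfl fun i _ => ?_
      split_ifs
      · exact avg_const 0
      · rfl
    rw [e1]
    linarith
  have hlow : ∀ κ : Fin M0 → Fin (n + 1),
      2 * c * (avg (fun p => chi hM n κ (h p)) - 1 / (2 * NN)) <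
        avg (fun p => chi hM n κ (h p) * dist2 n κ (h p)) := by
    intro κ
    by_cases hk : 1 / (2 * NN) ≤ avg (fun p => chi hM n κ (h p))
    · have h1 := hcon κ hk
      have h2 : 0 ≤ 1 / (2 * NN) := by positivity
      nlinarith
    · have h1 : 0 ≤ avg (fun p => chi hM n κ (h p) * dist2 n κ (h p)) :=
        avg_nonneg fun p => mul_nonneg (chi_nonneg hM κ (hh p)) (dist2_nonneg κ _)
      have h2 : avg (fun p => chi hM n κ (h p)) - 1 / (2 * NN) < 0 := by linarith [not_le.1 hk]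
      nlinarith
  have hsum := Finset.sum_lt_sum_of_nonempty
    (s := (Finset.univ : Finset (Fin M0 → Fin (n + 1)))) Finset.univ_nonempty
    (fun κ _ => hlow κ)
  rw [← Finset.mul_sum, Finset.sum_sub_distrib, hmass, Finset.sum_const, nsmul_eq_mul,
    Finset.card_univ] at hsum
  have hcard : (Fintype.card (Fin M0 → Fin (n + 1)) : ℝ) = NN := by
    simp [hNN]
  rw [hcard] at hsum
  have h3 : NN * (1 / (2 * NN)) = 1 / 2 := by field_simp
  rw [h3] at hsum
  linarith

theorem frac_aux {x y e : ℝ} (hx : x ≠ 0) (hy : y ≠ 0) :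
    x * (e / (4 * y * x)) = e * (1 / (4 * y)) := by
  field_simp

theorem frac_aux2 (y e : ℝ) : 4 * (e / (16 * y)) = e * (1 / (4 * y)) := by
  have h : (16 : ℝ) * y = 4 * (4 * y) := by ring
  rw [h, ← div_div, mul_one_div, mul_div_assoc']
  rw [mul_div_assoc']
  congr 1
  ring

/-! ### The theorem -/

/-- Point and weight: row 4.11. -/
theorem point_weight (M0 n M k : ℕ) (hn : 0 < n) (hM : M0 ≤ M) (hk : n * M0 + 2 ≤ k)
    {α e : ℝ} (hα : 0 < α) (he : 0 < e) :
    ∃ s : ℝ, 0 < s ∧ ∀ z : (Fin k → Fin 2 ⊕ Fin M) → ℝ,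
      (∃ (Q0 : Type) (_ : Fintype Q0) (_ : Nonempty Q0) (H0 : Q0 → Fin 2 ⊕ Fin M → ℝ),
        (∀ p, H0 p (Sum.inl 0) = 1) ∧ (∀ p, |H0 p (Sum.inl 1)| ≤ 1) ∧
        (∀ p i, |H0 p (Sum.inr i)| ≤ 2) ∧
        (∑ i : Fin M, (if (i : ℕ) < M0 then 0 else avg (fun p => H0 p (Sum.inr i) ^ 2)) ≤ α) ∧
        (∀ w, |mom k H0 w - z w| ≤ s)) →
      ∃ (κ : Fin M0 → Fin (n + 1)) (vrho : ℝ), |vrho| ≤ 3 ∧
        ∀ (Q : Type) [Fintype Q] [Nonempty Q] (H : Q → Fin 2 ⊕ Fin M → ℝ),
        (∀ p, H p (Sum.inl 0) = 1) → (∀ w, |mom k H w - z w| ≤ s) →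
        ∀ g ∈ stab 2 k M z,
          1 / (4 * ((n : ℝ) + 1) ^ M0) ≤ avg (fun p => chi hM n κ
            ((fun j => H p (Sum.inr j)) ᵥ* (g : Matrix (Fin M) (Fin M) ℝ))) ∧
          avg (fun p => chi hM n κ ((fun j => H p (Sum.inr j)) ᵥ*
              (g : Matrix (Fin M) (Fin M) ℝ)) *
            dist2 n κ ((fun j => H p (Sum.inr j)) ᵥ* (g : Matrix (Fin M) (Fin M) ℝ))) ≤
            (2 * (4 * M0 / n + α) + e) * avg (fun p => chi hM n κ
            ((fun j => H p (Sum.inr j)) ᵥ* (g : Matrix (Fin M) (Fin M) ℝ))) ∧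
          |avg (fun p => chi hM n κ ((fun j => H p (Sum.inr j)) ᵥ*
              (g : Matrix (Fin M) (Fin M) ℝ)) * H p (Sum.inl 1)) -
            vrho * avg (fun p => chi hM n κ
            ((fun j => H p (Sum.inr j)) ᵥ* (g : Matrix (Fin M) (Fin M) ℝ)))| ≤
            e * avg (fun p => chi hM n κ
            ((fun j => H p (Sum.inr j)) ᵥ* (g : Matrix (Fin M) (Fin M) ℝ))) := by
  classical
  -- the three families of forms
  have hF1 : ∀ κ : Fin M0 → Fin (n + 1), IsForm (Sum.inl 0 : Fin 2 ⊕ Fin M) k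
      (fun x => chi hM n κ (fun i => x (Sum.inr i))) := fun κ =>
    (isForm_chi hM n κ).mono (by omega)
  have hF2 : ∀ κ : Fin M0 → Fin (n + 1), IsForm (Sum.inl 0 : Fin 2 ⊕ Fin M) k
      (fun x => chi hM n κ (fun i => x (Sum.inr i)) * dist2 n κ (fun i => x (Sum.inr i))) :=
    fun κ => ((isForm_chi hM n κ).mul (isForm_dist2 n κ)).mono hk
  have hF3 : ∀ κ : Fin M0 → Fin (n + 1), IsForm (Sum.inl 0 : Fin 2 ⊕ Fin M) k
      (fun x => chi hM n κ (fun i => x (Sum.inr i)) * x (Sum.inl 1)) :=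
    fun κ => ((isForm_chi hM n κ).mul (isForm_coord _ (Sum.inl 1))).mono (by omega)
  choose C1 hC1 L1 hL1 using fun κ => form_stable (hF1 κ)
  choose C2 hC2 L2 hL2 using fun κ => form_stable (hF2 κ)
  choose C3 hC3 L3 hL3 using fun κ => form_stable (hF3 κ)
  set C : ℝ := ∑ κ, (C1 κ + C2 κ + C3 κ) + 1 with hCdef
  have hCs : ∀ κ, C1 κ + C2 κ + C3 κ ≤ C := by
    intro κ
    have := Finset.single_le_sum (f := fun κ => C1 κ + C2 κ + C3 κ)
      (fun κ _ => by have := hC1 κ; have := hC2 κ; have := hC3 κ; positivity)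
      (Finset.mem_univ κ)
    rw [hCdef]; linarith
  have hC0 : 0 < C := by
    rw [hCdef]
    have : 0 ≤ ∑ κ, (C1 κ + C2 κ + C3 κ) := Finset.sum_nonneg fun κ _ => by
      have := hC1 κ; have := hC2 κ; have := hC3 κ; positivity
    linarith
  set NN : ℝ := ((n : ℝ) + 1) ^ M0 with hNN
  have hN1 : 0 < NN := by positivity
  set c : ℝ := 4 * M0 / n + α with hc
  have hn' : (0 : ℝ) < n := by exact_mod_cast hn
  have hc0 : 0 < c := by rw [hc]; positivity
  -- the size of the errors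
  set r : ℝ := min (1 / (8 * NN)) (min (e / (4 * NN * (4 * c + 2))) (e / (16 * NN))) with hr
  have hc42 : 0 < 4 * c + 2 := by linarith
  have hr0 : 0 < r := by rw [hr]; positivity
  have hr1 : r ≤ 1 / (8 * NN) := min_le_left _ _
  have hr2 : r ≤ e / (4 * NN * (4 * c + 2)) := (min_le_right _ _).trans (min_le_left _ _)
  have hr3 : r ≤ e / (16 * NN) := (min_le_right _ _).trans (min_le_right _ _)
  refine ⟨r / C, by positivity, ?_⟩
  rintro z ⟨Q0, _, _, H0, hH0, hdeg, hh0, hrest, hmom⟩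
  obtain ⟨κ, hκ1, hκ2⟩ := exists_kappa hM hn (fun p i => H0 p (Sum.inr i)) hh0 hα hrest
  -- errors at `κ`
  have hone : (1 : Matrix.orthogonalGroup (Fin M) ℝ) ∈ stab 2 k M z := Subgroup.one_mem _
  have hbound : ∀ D : ℝ, D ≤ C → D * (r / C) ≤ r := by
    intro D hD
    rw [mul_div_assoc']
    rw [div_le_iff₀ hC0]
    nlinarith
  have hb1 : C1 κ * (r / C) ≤ r := hbound _ (by have := hCs κ; have := hC2 κ; have := hC3 κ; linarith)
  have hb2 : C2 κ * (r / C) ≤ r := hbound _ (by have := hCs κ; have := hC1 κ; have := hC3 κ; linarith)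
  have hb3 : C3 κ * (r / C) ≤ r := hbound _ (by have := hCs κ; have := hC1 κ; have := hC2 κ; linarith)
  have e1 := hL1 κ z (r / C) 1 hone Q0 H0 hH0 hmom
  have e2 := hL2 κ z (r / C) 1 hone Q0 H0 hH0 hmom
  have e3 := hL3 κ z (r / C) 1 hone Q0 H0 hH0 hmom
  simp only [OneMemClass.coe_one, blk_one, Matrix.vecMul_one] at e1 e2 e3
  have e1' := e1.trans hb1
  have e2' := e2.trans hb2
  have e3' := e3.trans hb3
  set m0 : ℝ := avg (fun p => chi hM n κ (fun i => H0 p (Sum.inr i))) with hm0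
  set q0 : ℝ := avg (fun p => chi hM n κ (fun i => H0 p (Sum.inr i)) *
    dist2 n κ (fun i => H0 p (Sum.inr i))) with hq0
  set d0 : ℝ := avg (fun p => chi hM n κ (fun i => H0 p (Sum.inr i)) * H0 p (Sum.inl 1)) with hd0
  have hd0m : |d0| ≤ m0 := by
    rw [hd0, hm0]
    unfold avg
    rw [abs_div, abs_of_nonneg (Nat.cast_nonneg (Fintype.card Q0) : (0 : ℝ) ≤ _)]
    refine div_le_div_of_nonneg_right ?_ (Nat.cast_nonneg _)
    refine (Finset.abs_sum_le_sum_abs _ _).trans (Finset.sum_le_sum fun p _ => ?_)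
    rw [abs_mul, abs_of_nonneg (chi_nonneg hM κ (hh0 p))]
    calc chi hM n κ (fun i => H0 p (Sum.inr i)) * |H0 p (Sum.inl 1)|
        ≤ chi hM n κ (fun i => H0 p (Sum.inr i)) * 1 :=
          mul_le_mul_of_nonneg_left (hdeg p) (chi_nonneg hM κ (hh0 p))
      _ = _ := mul_one _
  have hhalf : 1 / (2 * NN) = 4 * (1 / (8 * NN)) := by ring
  have hm0' : 4 * (1 / (8 * NN)) ≤ m0 := by rw [← hhalf]; exact hκ1
  have hL1lo : 3 * (1 / (8 * NN)) ≤ L1 κ z := by
    have := (abs_le.1 e1').2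
    linarith
  have hpos8 : 0 < 1 / (8 * NN) := by positivity
  have hL1pos : 0 < L1 κ z := by linarith
  refine ⟨κ, L3 κ z / L1 κ z, ?_, ?_⟩
  · rw [abs_div, abs_of_pos hL1pos, div_le_iff₀ hL1pos]
    have h1 : |L3 κ z| ≤ |d0| + r := by
      have := abs_sub_abs_le_abs_sub (L3 κ z) d0
      rw [abs_sub_comm] at this
      linarith
    have h2 : m0 ≤ L1 κ z + r := by
      have := (abs_le.1 e1').2
      linarith
    linarith
  · intro Q _ _ H hH hmomH g hg
    have f1 := (hL1 κ z (r / C) g hg Q H hH hmomH).trans hb1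
    have f2 := (hL2 κ z (r / C) g hg Q H hH hmomH).trans hb2
    have f3 := (hL3 κ z (r / C) g hg Q H hH hmomH).trans hb3
    simp only [vecMul_blk_inl, vecMul_blk_inr] at f1 f2 f3
    set m : ℝ := avg (fun p => chi hM n κ
      ((fun j => H p (Sum.inr j)) ᵥ* (g : Matrix (Fin M) (Fin M) ℝ))) with hm
    set q : ℝ := avg (fun p => chi hM n κ ((fun j => H p (Sum.inr j)) ᵥ*
        (g : Matrix (Fin M) (Fin M) ℝ)) *
      dist2 n κ ((fun j => H p (Sum.inr j)) ᵥ* (g : Matrix (Fin M) (Fin M) ℝ))) with hq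
    set d : ℝ := avg (fun p => chi hM n κ ((fun j => H p (Sum.inr j)) ᵥ*
      (g : Matrix (Fin M) (Fin M) ℝ)) * H p (Sum.inl 1)) with hd
    change |m - L1 κ z| ≤ r at f1
    change |q - L2 κ z| ≤ r at f2
    change |d - L3 κ z| ≤ r at f3
    have f1' := abs_le.1 f1
    have f2' := abs_le.1 f2
    have f3' := abs_le.1 f3
    have e1'' := abs_le.1 e1'
    have e2'' := abs_le.1 e2'
    have e3'' := abs_le.1 e3'
    have hmlo : 2 * (1 / (8 * NN)) ≤ m := by linarith [f1'.1]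
    have hmlo' : 1 / (4 * NN) ≤ m := by
      have : 1 / (4 * NN) = 2 * (1 / (8 * NN)) := by ring
      rw [this]; exact hmlo
    have hmpos : 0 < m := by linarith
    refine ⟨hmlo', ?_, ?_⟩
    · -- cost
      have h1 : q ≤ q0 + 2 * r := by linarith [f2'.2, e2''.1]
      have h2 : q0 ≤ 2 * c * m0 := hκ2
      have h3 : m0 ≤ m + 2 * r := by linarith [f1'.1, e1''.2]
      have h4 : (4 * c + 2) * r ≤ e * m := by
        have h5 : (4 * c + 2) * r ≤ (4 * c + 2) * (e / (4 * NN * (4 * c + 2))) :=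
          mul_le_mul_of_nonneg_left hr2 (by positivity)
        have h6 : (4 * c + 2) * (e / (4 * NN * (4 * c + 2))) = e * (1 / (4 * NN)) :=
          frac_aux hc42.ne' hN1.ne'
        rw [h6] at h5
        exact h5.trans (mul_le_mul_of_nonneg_left hmlo' he.le)
      nlinarith
    · -- the degree
      have hvr : |L3 κ z / L1 κ z| ≤ 3 := by
        rw [abs_div, abs_of_pos hL1pos, div_le_iff₀ hL1pos]
        have h1 : |L3 κ z| ≤ |d0| + r := by
          have := abs_sub_abs_le_abs_sub (L3 κ z) d0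
          rw [abs_sub_comm] at this
          linarith
        have h2 : m0 ≤ L1 κ z + r := by linarith [e1''.2]
        linarith
      have h1 : d - L3 κ z / L1 κ z * m = (d - L3 κ z) - L3 κ z / L1 κ z * (m - L1 κ z) := by
        have h7 : L3 κ z / L1 κ z * L1 κ z = L3 κ z := div_mul_cancel₀ _ hL1pos.ne'
        linear_combination -h7
      rw [h1]
      have h2 : |(d - L3 κ z) - L3 κ z / L1 κ z * (m - L1 κ z)| ≤ r + 3 * r := by
        refine (abs_sub _ _).trans (add_le_add f3 ?_)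
        rw [abs_mul]
        exact mul_le_mul hvr f1 (abs_nonneg _) (by norm_num)
      refine h2.trans ?_
      have h5 : r + 3 * r ≤ 4 * (e / (16 * NN)) := by linarith
      have h6 : 4 * (e / (16 * NN)) = e * (1 / (4 * NN)) := frac_aux2 _ _
      rw [h6] at h5
      exact h5.trans (mul_le_mul_of_nonneg_left hmlo' he.le)

end Pool.Agent.SRL.Bern
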