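import Pool.Agent.SRL.DPot

/-!
Theorem D over an abstract scheme, part 4: the sets of dangerous pictures and their measure.
-/

set_option autoImplicit false
set_option linter.unusedSectionVars false
set_option linter.unusedVariables false

namespace Pool.Agent.SRL

open Finset

section dep

variable {B L X : Type} [DecidableEq B]

/-- `f` depends only on the state and on the letters of the classes in `R`. -/
def Dep (R : Finset B) (f : St B L X → ℝ) : Prop :=
  ∀ x φ ψ, (∀ b ∈ R, φ b = ψ b) → f (x, φ) = f (x, ψ)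

theorem Dep.indep {R : Finset B} {f : St B L X → ℝ} (h : Dep R f) {c : B} (hc : c ∉ R) :
    Indep c f := by
  intro x φ s
  apply h x
  intro b hb
  have hbc : b ≠ c := fun h' => hc (h' ▸ hb)
  exact Function.update_of_ne hbc _ _

theorem dep_of_indep [Fintype B] {R : Finset B} {f : St B L X → ℝ}
    (h : ∀ c, c ∉ R → Indep c f) : Dep R f := by
  intro x φ ψ hR
  have key : ∀ T : Finset B, (∀ c ∈ T, c ∉ R) →
      f (x, fun b => if b ∈ T then ψ b else φ b) = f (x, φ) := by
    intro T
    induction T using Finset.induction_on with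
    | empty => intro _; simp
    | insert c T hc ih =>
      intro hT
      rw [← ih (fun c' hc' => hT c' (Finset.mem_insert_of_mem hc'))]
      have h1 : (fun b => if b ∈ insert c T then ψ b else φ b) =
          Function.update (fun b => if b ∈ T then ψ b else φ b) c (ψ c) := by
        funext b
        by_cases hb : b = c
        · subst hb; simp
        · rw [Function.update_of_ne hb]; simp [hb]
      rw [h1]
      exact h c (hT c (Finset.mem_insert_self _ _)) x _ _
  rw [← key (univ \ R) (fun c hc => (Finset.mem_sdiff.1 hc).2)]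
  congr 1
  refine Prod.ext rfl ?_
  funext b
  by_cases hb : b ∈ R
  · simp [hb, hR b hb]
  · simp [hb]

open Classical in
/-- The indicator function. -/
noncomputable def ind {α : Type} (A : Set α) (a : α) : ℝ := if a ∈ A then 1 else 0

theorem ind_nonneg {α : Type} (A : Set α) (a : α) : 0 ≤ ind A a := by
  unfold ind; split_ifs <;> norm_num

theorem ind_le_one {α : Type} (A : Set α) (a : α) : ind A a ≤ 1 := by
  unfold ind; split_ifs <;> norm_num

theorem ind_of_mem {α : Type} {A : Set α} {a : α} (h : a ∈ A) : ind A a = 1 := by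
  unfold ind; rw [if_pos h]

theorem ind_of_notMem {α : Type} {A : Set α} {a : α} (h : a ∉ A) : ind A a = 0 := by
  unfold ind; rw [if_neg h]

theorem ind_congr {α β : Type} {A : Set α} {A' : Set β} {a : α} {b : β} (h : a ∈ A ↔ b ∈ A') :
    ind A a = ind A' b := by
  unfold ind
  by_cases ha : a ∈ A
  · rw [if_pos ha, if_pos (h.1 ha)]
  · rw [if_neg ha, if_neg (fun h' => ha (h.2 h'))]

theorem prob_eq {α : Type} [Fintype α] (A : Set α) : prob A = avg (ind A) := by
  unfold prob
  congr 1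

theorem prob_nonneg' {α : Type} [Fintype α] (A : Set α) : 0 ≤ prob A := by
  rw [prob_eq]; exact avg_nonneg' (ind_nonneg A)

theorem prob_mono' {α : Type} [Fintype α] {A A' : Set α} (h : A ⊆ A') : prob A ≤ prob A' := by
  rw [prob_eq, prob_eq]
  apply avg_mono'
  intro a
  by_cases ha : a ∈ A
  · rw [ind_of_mem ha, ind_of_mem (h ha)]
  · rw [ind_of_notMem ha]; exact ind_nonneg _ _

theorem avg_comp_equiv {α : Type} [Fintype α] (e : Equiv.Perm α) (u : α → ℝ) :
    avg (fun s => u (e s)) = avg u := avg_equiv e u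

theorem prob_preimage {α : Type} [Fintype α] (e : Equiv.Perm α) (A : Set α) :
    prob {a | e a ∈ A} = prob A := by
  rw [prob_eq, prob_eq, ← avg_equiv e (ind A)]
  congr 1

/-- Markov -/
theorem prob_markov {α : Type} [Fintype α] (g : α → ℝ) (hg : ∀ a, 0 ≤ g a) :
    prob {a | 1 / 8 < g a} ≤ 8 * avg g := by
  rw [← avg_mul_left']
  refine prob_le_avg _ _ (fun a => by have := hg a; positivity) (fun a ha => ?_)
  have : 1 / 8 < g a := ha
  linarith

end dep

namespace Scheme

variable {B C Cell L Om : Type} [DecidableEq B] {Sc : Scheme B C Cell}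

variable [Fintype B] [Fintype L]

/-- The functions after the rounds depend on the letters of the view only. -/
theorem Valid.dep_rds {win : ℕ} (hV : Sc.Valid win) (S : CS B L Om) {K : C} {r : ℕ}
    (hr : r ≤ Sc.st K) {f : St B L Om → ℝ} (hf : Dep (Sc.ls K (Sc.st K)) f) :
    Dep (Sc.ls K r) (S.rds (Sc.rem K r) f) :=
  dep_of_indep (hV.rem_indep (fun c hc => hf.indep hc) hr)

/-- `Bx` depends only on the letters in `T`. -/
theorem Bx_iff (BAD : Set (St B L Om)) (T : Finset B) {x : Om} {φ ψ : B → L}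
    (h : ∀ b ∈ T, φ b = ψ b) : (x, φ) ∈ Bx BAD T ↔ (x, ψ) ∈ Bx BAD T := by
  unfold Bx
  simp only [Set.mem_setOf_eq]
  constructor
  · intro h1 χ hχ
    exact h1 χ (fun b hb => (hχ b hb).trans (h b hb).symm)
  · intro h1 χ hχ
    exact h1 χ (fun b hb => (hχ b hb).trans (h b hb))

theorem Bx_subset (BAD : Set (St B L Om)) (T : Finset B) : Bx BAD T ⊆ BAD :=
  fun V hV => hV V.2 (fun _ _ => rfl)

variable (Sc)

/-- The pictures of `K` that are bad for the letter of `K` (or for `K`, if it has no round). -/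
noncomputable def base (BAD : Set (St B L Om)) (K : C) : Set (St B L Om) :=
  {V | (Sc.rd K < Sc.R ∧ 1 / 8 < avg (fun a : L => ind
      (Bx BAD (insert (Sc.cl (Sc.rd K)) (Sc.ls K (Sc.st K))))
        (V.1, Function.update V.2 (Sc.cl (Sc.rd K)) a))) ∨
    (¬ Sc.rd K < Sc.R ∧ V ∈ Bx BAD (Sc.ls K (Sc.st K)))}

theorem base_iff (BAD : Set (St B L Om)) (K : C) {x : Om} {φ ψ : B → L}
    (h : ∀ b ∈ Sc.ls K (Sc.st K), φ b = ψ b) :
    (x, φ) ∈ Sc.base BAD K ↔ (x, ψ) ∈ Sc.base BAD K := by
  unfold base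
  simp only [Set.mem_setOf_eq]
  rw [Bx_iff BAD _ h]
  have : (fun a : L => ind (Bx BAD (insert (Sc.cl (Sc.rd K)) (Sc.ls K (Sc.st K))))
        (x, Function.update φ (Sc.cl (Sc.rd K)) a)) =
      (fun a : L => ind (Bx BAD (insert (Sc.cl (Sc.rd K)) (Sc.ls K (Sc.st K))))
        (x, Function.update ψ (Sc.cl (Sc.rd K)) a)) := by
    funext a
    apply ind_congr
    apply Bx_iff
    intro b hb
    by_cases hbb : b = Sc.cl (Sc.rd K)
    · subst hbb; simp
    · rw [Function.update_of_ne hbb, Function.update_of_ne hbb]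
      rcases Finset.mem_insert.1 hb with h' | h'
      · exact absurd h' hbb
      · exact h b h'
  rw [this]

/-- The dangerous pictures of `K`. -/
noncomputable def DD {win : ℕ} (hV : Sc.Valid win) (S : CS B L Om) (BAD : Set (St B L Om)) (θ : ℝ)
    (K : C) : Set (St B L Om) :=
  {V | V ∈ Sc.base BAD K ∨ ∃ (K' : C) (_ : Sc.Meet K K') (_ : Sc.st K' = Sc.st K + win),
    θ < S.rds (Sc.rem K' (Sc.st K)) (ind (DD hV S BAD θ K'))
      (S.flipSet (Sc.lab K (Sc.fullP K') (Sc.st K)) V)}
termination_by Sc.R - Sc.st K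
decreasing_by
  classical
  have := hV.st_le_R K'
  have := hV.win_pos
  omega

variable {Sc}

theorem mem_DD {win : ℕ} (hV : Sc.Valid win) (S : CS B L Om) (BAD : Set (St B L Om)) (θ : ℝ)
    (K : C) (V : St B L Om) : V ∈ Sc.DD hV S BAD θ K ↔ V ∈ Sc.base BAD K ∨
      ∃ K', Sc.Meet K K' ∧ Sc.st K' = Sc.st K + win ∧
      θ < S.rds (Sc.rem K' (Sc.st K)) (ind (Sc.DD hV S BAD θ K'))
        (S.flipSet (Sc.lab K (Sc.fullP K') (Sc.st K)) V) := by
  rw [DD]
  simp only [Set.mem_setOf_eq, exists_prop]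

/-- a function of the letters of a later view, at a corner -/
theorem Valid.flip_dep {win : ℕ} (hV : Sc.Valid win) (S : CS B L Om) {K K' : C}
    (hm : Sc.Meet K K') (hst : Sc.st K ≤ Sc.st K') {g : St B L Om → ℝ}
    (hg : Dep (Sc.ls K' (Sc.st K)) g) {x : Om} {φ ψ : B → L}
    (h : ∀ b ∈ Sc.ls K (Sc.st K), φ b = ψ b) :
    g (S.flipSet (Sc.lab K (Sc.fullP K') (Sc.st K)) (x, φ)) =
      g (S.flipSet (Sc.lab K (Sc.fullP K') (Sc.st K)) (x, ψ)) := by
  obtain ⟨h1, h2⟩ := S.flipSet_congr (Sc.lab K (Sc.fullP K') (Sc.st K)) x φ ψ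
    (fun b hb => h b (lab_subset hb))
  rw [← Prod.mk.eta (p := S.flipSet (Sc.lab K (Sc.fullP K') (Sc.st K)) (x, φ)),
    ← Prod.mk.eta (p := S.flipSet (Sc.lab K (Sc.fullP K') (Sc.st K)) (x, ψ)), h1]
  apply hg
  intro b hb
  exact h2 b (h b (hV.ls_disj hm hst hb).2)

theorem Valid.DD_dep {win : ℕ} (hV : Sc.Valid win) (S : CS B L Om) (BAD : Set (St B L Om)) (θ : ℝ)
    (K : C) : Dep (Sc.ls K (Sc.st K)) (ind (Sc.DD hV S BAD θ K)) := by
  induction hn : Sc.R - Sc.st K using Nat.strong_induction_on generalizing K with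
  | _ n ih =>
    intro x φ ψ h
    apply ind_congr
    rw [mem_DD, mem_DD, Sc.base_iff BAD K h]
    have key : ∀ K', Sc.Meet K K' → Sc.st K' = Sc.st K + win →
        S.rds (Sc.rem K' (Sc.st K)) (ind (Sc.DD hV S BAD θ K'))
          (S.flipSet (Sc.lab K (Sc.fullP K') (Sc.st K)) (x, φ)) =
        S.rds (Sc.rem K' (Sc.st K)) (ind (Sc.DD hV S BAD θ K'))
          (S.flipSet (Sc.lab K (Sc.fullP K') (Sc.st K)) (x, ψ)) := by
      intro K' hm hst
      apply hV.flip_dep S hm (by omega) _ h
      apply hV.dep_rds S (by omega)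
      have h1 := hV.st_le_R K'
      have h2 := hV.win_pos
      exact ih (Sc.R - Sc.st K') (by omega) K' rfl
    constructor
    · rintro (h1 | ⟨K', h1, h2, h3⟩)
      · exact Or.inl h1
      · exact Or.inr ⟨K', h1, h2, by rw [← key K' h1 h2]; exact h3⟩
    · rintro (h1 | ⟨K', h1, h2, h3⟩)
      · exact Or.inl h1
      · exact Or.inr ⟨K', h1, h2, by rw [key K' h1 h2]; exact h3⟩

variable [Fintype Om] [Nonempty L]

/-- The base sets are small. -/
theorem prob_base (BAD : Set (St B L Om)) (K : C) : prob (Sc.base BAD K) ≤ 8 * prob BAD := by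
  by_cases h : Sc.rd K < Sc.R
  · have h1 : Sc.base BAD K ⊆ {V : St B L Om | 1 / 8 < avg (fun a : L => ind
      (Bx BAD (insert (Sc.cl (Sc.rd K)) (Sc.ls K (Sc.st K))))
        (V.1, Function.update V.2 (Sc.cl (Sc.rd K)) a))} := by
      rintro V (⟨_, h2⟩ | ⟨h2, _⟩)
      · exact h2
      · exact absurd h h2
    refine (prob_mono' h1).trans ((prob_markov _ (fun V => avg_nonneg' fun a =>
      ind_nonneg _ _)).trans ?_)
    have h2 : avg (fun V : St B L Om => avg (fun a : L => ind
      (Bx BAD (insert (Sc.cl (Sc.rd K)) (Sc.ls K (Sc.st K))))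
        (V.1, Function.update V.2 (Sc.cl (Sc.rd K)) a))) =
        avg (ind (Bx BAD (insert (Sc.cl (Sc.rd K)) (Sc.ls K (Sc.st K))))) := by
      unfold avg
      congr 1
      exact sum_avg_update (Sc.cl (Sc.rd K))
        (ind (Bx BAD (insert (Sc.cl (Sc.rd K)) (Sc.ls K (Sc.st K)))))
    rw [h2, ← prob_eq]
    have := prob_mono' (Bx_subset BAD (insert (Sc.cl (Sc.rd K)) (Sc.ls K (Sc.st K))))
    linarith
  · have h1 : Sc.base BAD K ⊆ BAD := by
      rintro V (⟨h2, _⟩ | ⟨_, h2⟩)
      · exact absurd h2 h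
      · exact Bx_subset _ _ h2
    have h2 := prob_mono' h1
    have h3 := prob_nonneg' BAD
    linarith

/-- Union bound. -/
theorem prob_union_sum {α ι : Type} [Fintype α] (A D : Set α) (F : Finset ι) (G : ι → Set α)
    (h : ∀ a ∈ A, a ∈ D ∨ ∃ i ∈ F, a ∈ G i) : prob A ≤ prob D + ∑ i ∈ F, prob (G i) := by
  have h1 : prob A ≤ avg (fun a => ind D a + ∑ i ∈ F, ind (G i) a) := by
    apply prob_le_avg
    · intro a
      have := ind_nonneg D a
      have : 0 ≤ ∑ i ∈ F, ind (G i) a := Finset.sum_nonneg fun i _ => ind_nonneg _ _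
      linarith
    · intro a ha
      have h2 : 0 ≤ ∑ i ∈ F, ind (G i) a := Finset.sum_nonneg fun i _ => ind_nonneg _ _
      have h3 := ind_nonneg D a
      rcases h a ha with h' | ⟨i, hi, h'⟩
      · rw [ind_of_mem h']; linarith
      · have h4 : ind (G i) a ≤ ∑ i ∈ F, ind (G i) a :=
          Finset.single_le_sum (fun i _ => ind_nonneg (G i) a) hi
        rw [ind_of_mem h'] at h4
        linarith
  refine h1.trans ?_
  rw [avg_add', prob_eq D]
  have h2 : avg (fun a => ∑ i ∈ F, ind (G i) a) = ∑ i ∈ F, prob (G i) := by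
    unfold avg
    rw [Finset.sum_comm, Finset.sum_div]
    refine Finset.sum_congr rfl fun i _ => ?_
    rw [prob_eq]
    rfl
  rw [h2]

/-- **The dangerous sets are small.** -/
theorem Valid.prob_DD [Nonempty Om] [Fintype C] [Fintype Cell] {win M : ℕ} (hV : Sc.Valid win)
    (hC : Sc.Counts win M) {S : CS B L Om} {sgn : Om → ℝ} {lam : ℝ} (hg : Gap S sgn lam)
    (hl : 0 ≤ lam) (hl1 : lam ≤ 1) (BAD : Set (St B L Om)) {θ κ del : ℝ} (hθ : 0 < θ)
    (hκ : 0 ≤ κ) (hB : prob BAD ≤ del) (h1 : 8 * del + M * (4 * lam ^ 2 * κ / θ ^ 2) ≤ κ)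
    (h2 : 4 * κ ≤ θ) (K : C) : prob (Sc.DD hV S BAD θ K) ≤ κ := by
  classical
  induction hn : Sc.R - Sc.st K using Nat.strong_induction_on generalizing K with
  | _ n ih =>
    have hstep : ∀ K', Sc.Meet K K' → Sc.st K' = Sc.st K + win →
        prob {V | θ < S.rds (Sc.rem K' (Sc.st K)) (ind (Sc.DD hV S BAD θ K'))
          (S.flipSet (Sc.lab K (Sc.fullP K') (Sc.st K)) V)} ≤ 4 * lam ^ 2 * κ / θ ^ 2 := by
      intro K' hm hst
      have i1 := hV.st_le_R K'
      have i2 := hV.win_pos
      have i3 := ih (Sc.R - Sc.st K') (by omega) K' rfl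
      rw [prob_eq] at i3
      refine (hV.measure_meet hg hl hl1 (ind_nonneg (Sc.DD hV S BAD θ K')) (ind_le_one _)
        (fun c hc => (hV.DD_dep S BAD θ K').indep hc) (by omega) hθ (by linarith)
        (Sc.lab K (Sc.fullP K') (Sc.st K))).trans ?_
      gcongr
    set F : Finset C := univ.filter (fun K' => Sc.Meet K K' ∧ Sc.st K' = Sc.st K + win) with hF
    have hcard : (F.card : ℝ) ≤ M := by
      have h3 : (F.card) ≤ M := by
        by_cases hR : Sc.rd K < Sc.R
        · have h4 := hC.cnt1 K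
          refine le_trans ?_ h4
          rw [← Set.ncard_coe_finset]
          apply Set.ncard_le_ncard _ (Set.toFinite _)
          intro K' hK'
          rw [hF, Finset.mem_coe, Finset.mem_filter] at hK'
          obtain ⟨_, h5, h6⟩ := hK'
          have h7 := hV.rd_lt K hR
          have h8 := hV.st_le K
          exact ⟨by omega, by omega, h5⟩
        · have h4 : F = ∅ := by
            rw [Finset.eq_empty_iff_forall_notMem]
            intro K' hK'
            rw [hF, Finset.mem_filter] at hK'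
            obtain ⟨_, h5, h6⟩ := hK'
            have h7 := hV.st_le_R K'
            have h8 := hV.win_pos
            rcases hV.dich K with h9 | h9
            · exact hR h9
            · omega
          rw [h4]; simp
      exact_mod_cast h3
    have hu := prob_union_sum (Sc.DD hV S BAD θ K) (Sc.base BAD K) F
      (fun K' => {V | θ < S.rds (Sc.rem K' (Sc.st K)) (ind (Sc.DD hV S BAD θ K'))
          (S.flipSet (Sc.lab K (Sc.fullP K') (Sc.st K)) V)}) (by
        intro V hVm
        rw [mem_DD] at hVm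
        rcases hVm with h' | ⟨K', h3, h4, h5⟩
        · exact Or.inl h'
        · exact Or.inr ⟨K', by rw [hF, Finset.mem_filter]; exact ⟨mem_univ _, h3, h4⟩, h5⟩)
    have hs : ∑ K' ∈ F, prob {V | θ < S.rds (Sc.rem K' (Sc.st K))
        (ind (Sc.DD hV S BAD θ K')) (S.flipSet (Sc.lab K (Sc.fullP K') (Sc.st K)) V)} ≤
        F.card * (4 * lam ^ 2 * κ / θ ^ 2) := by
      rw [← nsmul_eq_mul]
      apply Finset.sum_le_card_nsmul
      intro K' hK'
      rw [hF, Finset.mem_filter] at hK'
      exact hstep K' hK'.2.1 hK'.2.2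
    have hb := prob_base (Sc := Sc) BAD K
    have hpos : 0 ≤ 4 * lam ^ 2 * κ / θ ^ 2 := by positivity
    have : (F.card : ℝ) * (4 * lam ^ 2 * κ / θ ^ 2) ≤ M * (4 * lam ^ 2 * κ / θ ^ 2) :=
      mul_le_mul_of_nonneg_right hcard hpos
    linarith

end Scheme

end Pool.Agent.SRL
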