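import Pool.Agent.SRL.DPic

/-!
Theorem D over an abstract scheme: loads. A state is the state of a bounded number of atoms of the
cubes of one round, and the final state of a bounded number of cells.
-/

set_option autoImplicit false
set_option linter.unusedSectionVars false
set_option linter.unusedVariables false

namespace Pool.Agent.SRL

open Finset

namespace Scheme

variable {B C Cell L Om : Type} [DecidableEq B] {Sc : Scheme B C Cell}

/-- the last move of a cell before the round `r` -/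
theorem last_move {c : Cell} {r' : ℕ} (h' : Sc.ap r' c ≠ none) : ∀ r, r' < r →
    ∃ i, r' ≤ i ∧ i < r ∧ Sc.ap i c ≠ none ∧ ∀ j, i < j → j < r → Sc.ap j c = none := by
  intro r
  induction r with
  | zero => intro h; omega
  | succ r ih =>
    intro h
    by_cases hr : Sc.ap r c = none
    · have hne : r' ≠ r := fun he => h' (he ▸ hr)
      obtain ⟨i, h1, h2, h3, h4⟩ := ih (by omega)
      refine ⟨i, h1, by omega, h3, fun j hj hj' => ?_⟩
      by_cases hjr : j = r
      · rw [hjr]; exact hr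
      · exact h4 j hj (by omega)
    · exact ⟨r, by omega, by omega, hr, fun j hj hj' => by omega⟩

theorem ncard_cover {α ι : Type} [Finite α] (A : Set α) (I : Finset ι) (F : ι → Set α) (m : ℕ)
    (hF : ∀ i ∈ I, (F i).ncard ≤ m) (hA : A ⊆ ⋃ i ∈ I, F i) : A.ncard ≤ I.card * m := by
  classical
  refine (Set.ncard_le_ncard hA (Set.toFinite _)).trans ?_
  clear hA
  induction I using Finset.induction_on with
  | empty => simp
  | insert i I hi ih =>
    rw [Finset.set_biUnion_insert, Finset.card_insert_of_notMem hi, add_mul, one_mul, add_comm]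
    refine (Set.ncard_union_le _ _).trans (add_le_add (hF i (Finset.mem_insert_self _ _)) ?_)
    exact ih fun j hj => hF j (Finset.mem_insert_of_mem hj)

section

variable {S : CS B L Om} {root : Om} (W : WS S root) (l0 : L) (s : C → L)

/-- the state of a cell at the stage `r`, through its last move -/
theorem Valid.state_last {win : ℕ} (hV : Sc.Valid win) {c : Cell} {r r' : ℕ} (hr : r' < r)
    (h' : Sc.ap r' c ≠ none) : ∃ u, Sc.mem u c ∧ r' ≤ Sc.rd u ∧ Sc.rd u < r ∧ Sc.rd u < Sc.R ∧
      ∃ T ∈ Sc.vis u, Sc.tgt W l0 s u T (s u) = W.state (Sc.word s (fun r => Sc.ap r c) r) := by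
  obtain ⟨i, h1, h2, h3, h4⟩ := last_move h' r hr
  obtain ⟨u, hu⟩ := Option.ne_none_iff_exists'.mp h3
  obtain ⟨hrd, hmem, hR⟩ := hV.ap_rd i c u hu
  subst hrd
  refine ⟨u, hmem, h1, h2, hR, _, ⟨c, hmem, rfl⟩, ?_⟩
  rw [← hV.state_moved W l0 s hu]
  rw [Sc.word_none (L := L) (s := s) (c := c) (r := Sc.rd u + 1) (r' := r) (by omega)
    (fun j hj hj' => h4 j (by omega) hj')]

variable [Fintype B] [Fintype C] [Fintype Cell]

/-- The load of a state at the round `r`. -/
theorem Valid.loads_round {win M : ℕ} (hV : Sc.Valid win) (hC : Sc.Counts win M) {r : ℕ}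
    (hi : Sc.Inj W l0 s r) (hr : r ≤ Sc.R) (T : Finset B) (w : Om) :
    {K | Sc.rd K = r ∧ T ∈ Sc.vis K ∧ Sc.om W l0 s K T = w}.ncard ≤
      2 * win * 2 ^ Fintype.card B * M + M := by
  classical
  set F : ℕ × Finset B → Set C := fun p => {K | ∃ u, Sc.rd u = p.1 ∧ p.2 ∈ Sc.vis u ∧
    Sc.tgt W l0 s u p.2 (s u) = w ∧ Sc.rd u < Sc.st K ∧ Sc.st K ≤ Sc.rd u + win ∧ Sc.Meet u K}
    with hFdef
  have hsub : {K | Sc.rd K = r ∧ T ∈ Sc.vis K ∧ Sc.om W l0 s K T = w} ⊆
      (⋃ p ∈ Finset.Ico (r - 2 * win) r ×ˢ (Finset.univ : Finset (Finset B)), F p) ∪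
        {K | Sc.st K < win} := by
    rintro K ⟨h1, ⟨c, hc, hT⟩, h3⟩
    by_cases hw : Sc.st K < win
    · exact Or.inr hw
    · left
      push Not at hw
      obtain ⟨r', u', g1, g2, g3⟩ := hV.full K hw
      have hne : Sc.ap r' c ≠ none := by rw [g3 c hc]; exact Option.some_ne_none _
      obtain ⟨u, k1, k2, k3, k4, T', k5, k6⟩ := hV.state_last W l0 s g2 hne
      have hst : Sc.st K ≤ r := h1 ▸ hV.st_le K
      have hlow : r - 2 * win ≤ Sc.rd u := by
        rcases hV.dich K with hd | hd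
        · have := hV.rd_lt K hd
          omega
        · omega
      rw [Set.mem_iUnion₂]
      refine ⟨(Sc.rd u, T'), ?_, u, rfl, k5, ?_, k3, by omega, c, k1, hc⟩
      · rw [Finset.mem_product, Finset.mem_Ico]
        exact ⟨⟨hlow, by show Sc.rd u < r; omega⟩, Finset.mem_univ _⟩
      · rw [k6, hV.om_cell W l0 s hc, ← hT]
        exact h3
  have hF : ∀ p ∈ Finset.Ico (r - 2 * win) r ×ˢ (Finset.univ : Finset (Finset B)),
      (F p).ncard ≤ M := by
    rintro ⟨i, T'⟩ hp
    rw [Finset.mem_product, Finset.mem_Ico] at hp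
    have hir : i < r := hp.1.2
    by_cases hne : (F (i, T')).Nonempty
    · obtain ⟨K0, u0, a1, a2, a3, -⟩ := hne
      refine (Set.ncard_le_ncard ?_ (Set.toFinite _)).trans (hC.cnt1 u0)
      rintro K ⟨u, b1, b2, b3, b4, b5, b6⟩
      have : u = u0 := by
        by_contra hne
        exact hi u u0 (by rw [b1]; exact hir) (b1.trans a1.symm) hne T' b2 a2 (b3.trans a3.symm)
      subst this
      exact ⟨b4, b5, b6⟩
    · rw [Set.not_nonempty_iff_eq_empty] at hne
      rw [hne]
      simp
  have hcard : (Finset.Ico (r - 2 * win) r ×ˢ (Finset.univ : Finset (Finset B))).card ≤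
      2 * win * 2 ^ Fintype.card B := by
    rw [Finset.card_product, Nat.card_Ico, Finset.card_univ, Fintype.card_finset]
    exact Nat.mul_le_mul_right _ (by omega)
  calc {K | Sc.rd K = r ∧ T ∈ Sc.vis K ∧ Sc.om W l0 s K T = w}.ncard
      ≤ ((⋃ p ∈ Finset.Ico (r - 2 * win) r ×ˢ (Finset.univ : Finset (Finset B)), F p) ∪
        {K | Sc.st K < win}).ncard := Set.ncard_le_ncard hsub (Set.toFinite _)
    _ ≤ (⋃ p ∈ Finset.Ico (r - 2 * win) r ×ˢ (Finset.univ : Finset (Finset B)), F p).ncard +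
        {K | Sc.st K < win}.ncard := Set.ncard_union_le _ _
    _ ≤ 2 * win * 2 ^ Fintype.card B * M + M := by
        refine add_le_add ?_ hC.cnt0
        exact (ncard_cover _ _ F M hF le_rfl).trans (Nat.mul_le_mul_right _ hcard)

/-- The final load of a state. -/
theorem Valid.loads_cell {win M : ℕ} (hV : Sc.Valid win) (hC : Sc.Counts win M)
    (hi : Sc.Inj W l0 s Sc.R) (w : Om) :
    {c | Sc.cst W s c = w}.ncard ≤ win * 2 ^ Fintype.card B * M + M := by
  classical
  by_cases hR : Sc.R < win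
  · have h1 : {c | Sc.cst W s c = w}.ncard ≤ Fintype.card Cell := by
      rw [← Nat.card_eq_fintype_card]
      exact Set.ncard_le_card _
    have h2 := hC.cell0 hR
    omega
  · push Not at hR
    set F : ℕ × Finset B → Set Cell := fun p => {c | ∃ u, Sc.rd u = p.1 ∧ p.2 ∈ Sc.vis u ∧
      Sc.tgt W l0 s u p.2 (s u) = w ∧ Sc.R ≤ Sc.rd u + win ∧ Sc.mem u c} with hFdef
    have hsub : {c | Sc.cst W s c = w} ⊆
        ⋃ p ∈ Finset.Ico (Sc.R - win) Sc.R ×ˢ (Finset.univ : Finset (Finset B)), F p := by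
      intro c hc
      obtain ⟨K, hK, hKc⟩ := hV.fin c
      obtain ⟨r', u', g1, g2, g3⟩ := hV.full K (hK ▸ hR)
      rw [hK] at g1 g2
      have hne : Sc.ap r' c ≠ none := by rw [g3 c hKc]; exact Option.some_ne_none _
      obtain ⟨u, k1, k2, k3, k4, T', k5, k6⟩ := hV.state_last W l0 s g2 hne
      rw [Set.mem_iUnion₂]
      refine ⟨(Sc.rd u, T'), ?_, u, rfl, k5, ?_, by omega, k1⟩
      · rw [Finset.mem_product, Finset.mem_Ico]
        exact ⟨⟨by show Sc.R - win ≤ Sc.rd u; omega, k3⟩, Finset.mem_univ _⟩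
      · rw [k6]
        exact hc
    have hF : ∀ p ∈ Finset.Ico (Sc.R - win) Sc.R ×ˢ (Finset.univ : Finset (Finset B)),
        (F p).ncard ≤ M := by
      rintro ⟨i, T'⟩ hp
      rw [Finset.mem_product, Finset.mem_Ico] at hp
      have hir : i < Sc.R := hp.1.2
      by_cases hne : (F (i, T')).Nonempty
      · obtain ⟨c0, u0, a1, a2, a3, a4, -⟩ := hne
        refine (Set.ncard_le_ncard ?_ (Set.toFinite _)).trans (hC.cell1 u0 a4)
        rintro c ⟨u, b1, b2, b3, b4, b5⟩
        have : u = u0 := by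
          by_contra hne
          exact hi u u0 (by rw [b1]; exact hir) (b1.trans a1.symm) hne T' b2 a2 (b3.trans a3.symm)
        subst this
        exact b5
      · rw [Set.not_nonempty_iff_eq_empty] at hne
        rw [hne]
        simp
    have hcard : (Finset.Ico (Sc.R - win) Sc.R ×ˢ (Finset.univ : Finset (Finset B))).card ≤
        win * 2 ^ Fintype.card B := by
      rw [Finset.card_product, Nat.card_Ico, Finset.card_univ, Fintype.card_finset]
      exact Nat.mul_le_mul_right _ (by omega)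
    calc {c | Sc.cst W s c = w}.ncard ≤ (Finset.Ico (Sc.R - win) Sc.R ×ˢ
          (Finset.univ : Finset (Finset B))).card * M := ncard_cover _ _ F M hF hsub
      _ ≤ win * 2 ^ Fintype.card B * M := Nat.mul_le_mul_right _ hcard
      _ ≤ win * 2 ^ Fintype.card B * M + M := Nat.le_add_right _ _

/-- **Loads.** -/
theorem loads {win M : ℕ} (hV : Sc.Valid win) (hC : Sc.Counts win M) (r : ℕ)
    (hi : Sc.Inj W l0 s r) :
    (r ≤ Sc.R → ∀ (T : Finset B) (w : Om),
      {K | Sc.rd K = r ∧ T ∈ Sc.vis K ∧ Sc.om W l0 s K T = w}.ncard ≤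
        2 * win * 2 ^ Fintype.card B * M + M) ∧
    (r = Sc.R → ∀ w : Om, {c | Sc.cst W s c = w}.ncard ≤ win * 2 ^ Fintype.card B * M + M) :=
  ⟨fun hr T w => hV.loads_round W l0 s hC hi hr T w,
    fun hr w => hV.loads_cell W l0 s hC (hr ▸ hi) w⟩

end

end Scheme

end Pool.Agent.SRL
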