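import Mathlib

/-!
Lemma SDR of the page MP_971383_P3 (3.5): crowded sets and Rosenfeld counting.
-/

namespace Pool.Agent.SRL

open Finset

namespace Sdr

section Rosenfeld

variable {K L : Type*} [Fintype K] [DecidableEq K] [Fintype L] [DecidableEq L]

/-- Conflict free choices on `S`, equal to `l0` outside `S`. -/
noncomputable def good (P : K → Finset L) (cf : K → L → K → L → Prop) (l0 : L)
    (S : Finset K) : Finset (K → L) := by
  classical
  exact Finset.univ.filter (fun f =>
    (∀ k ∈ S, f k ∈ P k ∧ ∀ k' ∈ S, k ≠ k' → ¬ cf k (f k) k' (f k')) ∧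
      ∀ k, k ∉ S → f k = l0)

theorem mem_good {P : K → Finset L} {cf : K → L → K → L → Prop} {l0 : L}
    {S : Finset K} {f : K → L} : f ∈ good P cf l0 S ↔
      (∀ k ∈ S, f k ∈ P k ∧ ∀ k' ∈ S, k ≠ k' → ¬ cf k (f k) k' (f k')) ∧
      ∀ k, k ∉ S → f k = l0 := by
  classical
  simp [good]

/-- Number of conflicts. -/
noncomputable def conf (P : K → Finset L) (cf : K → L → K → L → Prop) (k : K) (s : L) :
    Finset (K × L) := by
  classical
  exact Finset.univ.filter (fun q => q.1 ≠ k ∧ q.2 ∈ P q.1 ∧ cf k s q.1 q.2)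

theorem mem_conf {P : K → Finset L} {cf : K → L → K → L → Prop} {k : K} {s : L}
    {q : K × L} : q ∈ conf P cf k s ↔ q.1 ≠ k ∧ q.2 ∈ P q.1 ∧ cf k s q.1 q.2 := by
  classical
  simp [conf]

theorem card_fix_le (P : K → Finset L) (cf : K → L → K → L → Prop) (l0 : L)
    (S : Finset K) (k : K) (s : L) :
    ((good P cf l0 S).filter (fun f => f k = s)).card ≤ (good P cf l0 (S.erase k)).card := by
  classical
  apply Finset.card_le_card_of_injOn (fun f => Function.update f k l0)
  · intro f hf
    have hf' := Finset.mem_filter.1 (Finset.mem_coe.1 hf)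
    obtain ⟨h1, h2⟩ := mem_good.1 hf'.1
    apply Finset.mem_coe.2
    refine mem_good.2 ⟨?_, ?_⟩
    · intro j hj
      have hj1 := Finset.mem_erase.1 hj
      have e1 : Function.update f k l0 j = f j := Function.update_of_ne hj1.1 _ _
      dsimp only
      rw [e1]
      refine ⟨(h1 j hj1.2).1, ?_⟩
      intro j' hj' hne
      have hj2 := Finset.mem_erase.1 hj'
      have e2 : Function.update f k l0 j' = f j' := Function.update_of_ne hj2.1 _ _
      rw [e2]
      exact (h1 j hj1.2).2 j' hj2.2 hne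
    · intro j hj
      by_cases hjk : j = k
      · subst hjk
        simp
      · dsimp only
        rw [Function.update_of_ne hjk]
        exact h2 j (fun h => hj (Finset.mem_erase.2 ⟨hjk, h⟩))
  · intro f hf g hg hfg
    have hf' := Finset.mem_filter.1 (Finset.mem_coe.1 hf)
    have hg' := Finset.mem_filter.1 (Finset.mem_coe.1 hg)
    funext j
    by_cases hjk : j = k
    · subst hjk
      rw [hf'.2, hg'.2]
    · have := congrFun hfg j
      simpa [Function.update_of_ne hjk] using this

theorem card_pairs (P : K → Finset L) (cf : K → L → K → L → Prop) (l0 : L)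
    (hsym : ∀ k s k' s', cf k s k' s' → cf k' s' k s)
    (S : Finset K) (k : K) (hk : k ∉ S) :
    (P k).card * (good P cf l0 S).card ≤ (good P cf l0 (insert k S)).card +
      ∑ s ∈ P k, ∑ q ∈ (conf P cf k s).filter (fun q => q.1 ∈ S),
        (good P cf l0 (S.erase q.1)).card := by
  classical
  rw [← Finset.card_product]
  set A : Finset (L × (K → L)) := P k ×ˢ good P cf l0 S with hA
  have hsplit : A.card = (A.filter (fun p => ∀ k' ∈ S, ¬ cf k p.1 k' (p.2 k'))).card +
      (A.filter (fun p => ¬ ∀ k' ∈ S, ¬ cf k p.1 k' (p.2 k'))).card := by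
    rw [Finset.card_filter_add_card_filter_not]
  rw [hsplit]
  refine Nat.add_le_add ?_ ?_
  · apply Finset.card_le_card_of_injOn (fun p => Function.update p.2 k p.1)
    · rintro ⟨s, f⟩ hp
      have hp' := Finset.mem_filter.1 (Finset.mem_coe.1 hp)
      obtain ⟨hs, hf⟩ := Finset.mem_product.1 hp'.1
      obtain ⟨h1, h2⟩ := mem_good.1 hf
      have hc := hp'.2
      apply Finset.mem_coe.2
      have ek : ∀ j ∈ S, Function.update f k s j = f j := by
        intro j hj
        exact Function.update_of_ne (fun h => hk (by rw [← h]; exact hj)) _ _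
      refine mem_good.2 ⟨?_, ?_⟩
      · intro j hj
        rcases Finset.mem_insert.1 hj with rfl | hjS
        · simp only [Function.update_self]
          refine ⟨hs, ?_⟩
          intro j' hj' hne
          rcases Finset.mem_insert.1 hj' with h | hjS'
          · exact absurd h.symm hne
          · rw [ek j' hjS']
            exact hc j' hjS'
        · dsimp only
          rw [ek j hjS]
          refine ⟨(h1 j hjS).1, ?_⟩
          intro j' hj' hne
          rcases Finset.mem_insert.1 hj' with h | hjS'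
          · subst h
            simp only [Function.update_self]
            intro h
            exact hc j hjS (hsym _ _ _ _ h)
          · rw [ek j' hjS']
            exact (h1 j hjS).2 j' hjS' hne
      · intro j hj
        have hj1 : j ≠ k := fun h => hj (by rw [h]; exact Finset.mem_insert_self _ _)
        dsimp only
        rw [Function.update_of_ne hj1]
        exact h2 j (fun h => hj (Finset.mem_insert_of_mem h))
    · rintro ⟨s, f⟩ hp ⟨s', f'⟩ hp' heq
      have hq := Finset.mem_filter.1 (Finset.mem_coe.1 hp)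
      have hq' := Finset.mem_filter.1 (Finset.mem_coe.1 hp')
      have hf := (mem_good.1 (Finset.mem_product.1 hq.1).2).2
      have hf' := (mem_good.1 (Finset.mem_product.1 hq'.1).2).2
      have e1 := congrFun heq k
      simp only [Function.update_self] at e1
      have e2 : f = f' := by
        funext j
        by_cases hj : j = k
        · subst hj
          have a1 := hf j hk
          have a2 := hf' j hk
          dsimp only at a1 a2
          rw [a1, a2]
        · have := congrFun heq j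
          simpa [Function.update_of_ne hj] using this
      rw [e1, e2]
  · have hsub : A.filter (fun p => ¬ ∀ k' ∈ S, ¬ cf k p.1 k' (p.2 k')) ⊆
        (P k).biUnion (fun s => ((conf P cf k s).filter (fun q => q.1 ∈ S)).biUnion
          (fun q => ((good P cf l0 S).filter (fun f => f q.1 = q.2)).image (fun f => (s, f)))) := by
      rintro ⟨s, f⟩ hp
      have hp' := Finset.mem_filter.1 hp
      obtain ⟨hs, hf⟩ := Finset.mem_product.1 hp'.1
      have hc := hp'.2
      push Not at hc
      obtain ⟨k', hk', hcf⟩ := hc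
      refine Finset.mem_biUnion.2 ⟨s, hs, Finset.mem_biUnion.2 ⟨(k', f k'), ?_, ?_⟩⟩
      · refine Finset.mem_filter.2 ⟨mem_conf.2 ⟨?_, ?_, hcf⟩, hk'⟩
        · intro h
          exact hk (by rw [← h]; exact hk')
        · exact ((mem_good.1 hf).1 k' hk').1
      · exact Finset.mem_image.2 ⟨f, Finset.mem_filter.2 ⟨hf, rfl⟩, rfl⟩
    refine (Finset.card_le_card hsub).trans ?_
    refine Finset.card_biUnion_le.trans ?_
    refine Finset.sum_le_sum (fun s _ => ?_)
    refine Finset.card_biUnion_le.trans ?_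
    refine Finset.sum_le_sum (fun q _ => ?_)
    exact Finset.card_image_le.trans (card_fix_le P cf l0 S q.1 q.2)

/-- Rosenfeld counting. -/
theorem rosenfeld_step (P : K → Finset L) (cf : K → L → K → L → Prop) (l0 : L)
    (hsym : ∀ k s k' s', cf k s k' s' → cf k' s' k s)
    (hP : ∀ k, Fintype.card L ≤ 2 * (P k).card)
    (hc : ∀ k, ∀ s ∈ P k, 8 * (conf P cf k s).card ≤ Fintype.card L) :
    ∀ (n : ℕ) (S : Finset K), S.card = n → ∀ k, k ∉ S →
      (P k).card * (good P cf l0 S).card ≤ 2 * (good P cf l0 (insert k S)).card := by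
  classical
  intro n
  induction n using Nat.strong_induction_on with
  | _ n ih =>
    intro S hS k hk
    set N := Fintype.card L with hN
    have hNpos : 0 < N := Fintype.card_pos_iff.2 ⟨l0⟩
    set C := (good P cf l0 S).card with hC
    have hbad : ∀ q ∈ S, N * (good P cf l0 (S.erase q)).card ≤ 4 * C := by
      intro q hq
      have h1 := ih (S.erase q).card (by rw [← hS]; exact Finset.card_erase_lt_of_mem hq)
        (S.erase q) rfl q (Finset.notMem_erase q S)
      rw [Finset.insert_erase hq] at h1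
      have h2 := hP q
      calc N * (good P cf l0 (S.erase q)).card
          ≤ (2 * (P q).card) * (good P cf l0 (S.erase q)).card := Nat.mul_le_mul_right _ h2
        _ = 2 * ((P q).card * (good P cf l0 (S.erase q)).card) := by ring
        _ ≤ 2 * (2 * C) := Nat.mul_le_mul_left _ h1
        _ = 4 * C := by ring
    have hmain := card_pairs P cf l0 hsym S k hk
    set B := ∑ s ∈ P k, ∑ q ∈ (conf P cf k s).filter (fun q => q.1 ∈ S),
        (good P cf l0 (S.erase q.1)).card with hB
    have hB1 : N * B ≤ ∑ s ∈ P k, (conf P cf k s).card * (4 * C) := by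
      rw [hB, Finset.mul_sum]
      refine Finset.sum_le_sum (fun s _ => ?_)
      rw [Finset.mul_sum]
      calc ∑ q ∈ (conf P cf k s).filter (fun q => q.1 ∈ S),
            N * (good P cf l0 (S.erase q.1)).card
          ≤ ∑ q ∈ (conf P cf k s).filter (fun q => q.1 ∈ S), 4 * C :=
            Finset.sum_le_sum (fun q hq => hbad q.1 (Finset.mem_filter.1 hq).2)
        _ = ((conf P cf k s).filter (fun q => q.1 ∈ S)).card * (4 * C) := by
            rw [Finset.sum_const, smul_eq_mul]
        _ ≤ (conf P cf k s).card * (4 * C) :=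
            Nat.mul_le_mul_right _ (Finset.card_le_card (Finset.filter_subset _ _))
    have hB2 : 2 * (N * B) ≤ (P k).card * (N * C) := by
      calc 2 * (N * B) ≤ 2 * ∑ s ∈ P k, (conf P cf k s).card * (4 * C) :=
            Nat.mul_le_mul_left _ hB1
        _ = ∑ s ∈ P k, (8 * (conf P cf k s).card) * C := by
            rw [Finset.mul_sum]
            refine Finset.sum_congr rfl (fun s _ => ?_)
            ring
        _ ≤ ∑ s ∈ P k, N * C :=
            Finset.sum_le_sum (fun s hs => Nat.mul_le_mul_right _ (hc k s hs))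
        _ = (P k).card * (N * C) := by rw [Finset.sum_const, smul_eq_mul]
    have hB3 : 2 * B ≤ (P k).card * C := by
      have : N * (2 * B) ≤ N * ((P k).card * C) := by
        calc N * (2 * B) = 2 * (N * B) := by ring
          _ ≤ (P k).card * (N * C) := hB2
          _ = N * ((P k).card * C) := by ring
      exact Nat.le_of_mul_le_mul_left this hNpos
    rw [← hC] at hmain
    omega

theorem rosenfeld (P : K → Finset L) (cf : K → L → K → L → Prop)
    (hL : Nonempty L)
    (hsym : ∀ k s k' s', cf k s k' s' → cf k' s' k s)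
    (hP : ∀ k, Fintype.card L ≤ 2 * (P k).card)
    (hc : ∀ k, ∀ s ∈ P k, 8 * (conf P cf k s).card ≤ Fintype.card L) :
    ∃ f : K → L, (∀ k, f k ∈ P k) ∧ ∀ k k', k ≠ k' → ¬ cf k (f k) k' (f k') := by
  classical
  obtain ⟨l0⟩ := hL
  have hpos : ∀ S : Finset K, 0 < (good P cf l0 S).card := by
    intro S
    induction S using Finset.induction_on with
    | empty =>
      refine Finset.card_pos.2 ⟨fun _ => l0, mem_good.2 ⟨?_, ?_⟩⟩
      · intro k hk
        simp at hk
      · intro k _
        rfl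
    | insert k S hk ih =>
      have h := rosenfeld_step P cf l0 hsym hP hc S.card S rfl k hk
      have hN : 0 < Fintype.card L := Fintype.card_pos_iff.2 ⟨l0⟩
      have hp : 0 < (P k).card := by
        have := hP k
        omega
      have : 0 < (P k).card * (good P cf l0 S).card := Nat.mul_pos hp ih
      omega
  obtain ⟨f, hf⟩ := Finset.card_pos.1 (hpos Finset.univ)
  obtain ⟨h1, _⟩ := mem_good.1 hf
  exact ⟨f, fun k => (h1 k (Finset.mem_univ k)).1,
    fun k k' hne => (h1 k (Finset.mem_univ k)).2 k' (Finset.mem_univ k') hne⟩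

end Rosenfeld

section Crowded

set_option linter.unusedSectionVars false

variable {Om L Kk Tt : Type*} [Fintype Om] [DecidableEq Om] [Fintype L] [DecidableEq L]
  [Fintype Kk] [DecidableEq Kk] [Fintype Tt] [DecidableEq Tt]

/-- Target of the letter `s` for the cube `k` and the label `T`. -/
def tgt (st : L → Om → Om) (om : Kk → Tt → Om) (pi : Kk → Tt → Equiv.Perm L)
    (k : Kk) (T : Tt) (s : L) : Om := st (pi k T s) (om k T)

variable (st : L → Om → Om) (vis : Kk → Finset Tt) (om : Kk → Tt → Om)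
  (pi : Kk → Tt → Equiv.Perm L)

/-- Pairs (cube of `S`, letter) with target `w`. -/
def hits (S : Finset Kk) (T : Tt) (w : Om) : Finset (Kk × L) :=
  Finset.univ.filter (fun q => q.1 ∈ S ∧ T ∈ vis q.1 ∧ tgt st om pi q.1 T q.2 = w)

/-- Letters of `k` with target in `Z`. -/
def into (k : Kk) (T : Tt) (Z : Finset Om) : Finset L :=
  Finset.univ.filter (fun s => tgt st om pi k T s ∈ Z)

/-- Crowded states. -/
def crowded (rho : ℕ) (S : Finset Kk) (T : Tt) : Finset Om :=
  Finset.univ.filter (fun w => Fintype.card L < 8 * rho * (hits st vis om pi S T w).card)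

/-- Cubes of `S` which see many crowded targets for the label `T`. -/
def bdT (rho : ℕ) (S : Finset Kk) (T : Tt) : Finset Kk :=
  S.filter (fun k => T ∈ vis k ∧
    Fintype.card L < 4 * rho * (into st om pi k T (crowded st vis om pi rho S T)).card)

/-- Bad cubes of `S`. -/
def bd (rho : ℕ) (S : Finset Kk) : Finset Kk :=
  Finset.univ.biUnion (fun T => bdT st vis om pi rho S T)

variable {st vis om pi}

/-- The mixing hypothesis. -/
def Mix (st : L → Om → Om) (lam : ℝ) : Prop :=
  ∀ (a : Om → ℝ), (∀ w, 0 ≤ a w) → ∀ Z : Finset Om,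
    ∑ w, a w * ((Finset.univ.filter (fun s => st s w ∈ Z)).card : ℝ) ≤
      (Fintype.card L : ℝ) * (2 * (∑ w, a w) * (Z.card : ℝ) / (Fintype.card Om : ℝ) +
        lam * Real.sqrt (∑ w, a w ^ 2) * Real.sqrt (Z.card : ℝ))

/-- The counting function of a set of cubes for a label. -/
noncomputable def cnt (vis : Kk → Finset Tt) (om : Kk → Tt → Om) (S : Finset Kk) (T : Tt)
    (w : Om) : ℝ :=
  ((S.filter (fun k => T ∈ vis k ∧ om k T = w)).card : ℝ)

theorem cnt_sum_mul (S : Finset Kk) (T : Tt) (g : Om → ℝ) :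
    ∑ w, cnt vis om S T w * g w = ∑ k ∈ S.filter (fun k => T ∈ vis k), g (om k T) := by
  classical
  have h1 : ∀ w, cnt vis om S T w * g w =
      ∑ k ∈ S.filter (fun k => T ∈ vis k), if om k T = w then g (om k T) else 0 := by
    intro w
    rw [← Finset.sum_filter, Finset.filter_filter]
    rw [Finset.sum_congr rfl (g := fun _ => g w)]
    · rw [Finset.sum_const, nsmul_eq_mul, cnt]
    · intro k hk
      rw [(Finset.mem_filter.1 hk).2.2]
  simp_rw [h1]
  rw [Finset.sum_comm]
  refine Finset.sum_congr rfl (fun k _ => ?_)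
  simp

theorem card_into_eq (k : Kk) (T : Tt) (Z : Finset Om) :
    (Finset.univ.filter (fun s => st s (om k T) ∈ Z)).card = (into st om pi k T Z).card := by
  classical
  symm
  apply Finset.card_bij (fun s _ => pi k T s)
  · intro s hs
    have := (Finset.mem_filter.1 hs).2
    exact Finset.mem_filter.2 ⟨Finset.mem_univ _, this⟩
  · intro s _ s' _ h
    exact (pi k T).injective h
  · intro s hs
    refine ⟨(pi k T).symm s, ?_, by simp⟩
    refine Finset.mem_filter.2 ⟨Finset.mem_univ _, ?_⟩
    have := (Finset.mem_filter.1 hs).2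
    simpa [tgt] using this

theorem mix_bound {lam : ℝ} (hl : 0 ≤ lam) {ell : ℕ}
    (hload : ∀ T w, (Finset.univ.filter (fun k => T ∈ vis k ∧ om k T = w)).card ≤ ell)
    (hmix : Mix st lam) (S : Finset Kk) (T : Tt) (Z : Finset Om) :
    ∑ k ∈ S.filter (fun k => T ∈ vis k), ((into st om pi k T Z).card : ℝ) ≤
      (Fintype.card L : ℝ) * (2 * (S.card : ℝ) * (Z.card : ℝ) / (Fintype.card Om : ℝ) +
        lam * Real.sqrt ((ell : ℝ) * S.card) * Real.sqrt (Z.card : ℝ)) := by
  classical
  have h1 := hmix (cnt vis om S T) (fun w => Nat.cast_nonneg _) Z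
  rw [cnt_sum_mul S T (fun w => ((Finset.univ.filter (fun s => st s w ∈ Z)).card : ℝ))] at h1
  have e1 : ∑ k ∈ S.filter (fun k => T ∈ vis k),
      ((Finset.univ.filter (fun s => st s (om k T) ∈ Z)).card : ℝ) =
      ∑ k ∈ S.filter (fun k => T ∈ vis k), ((into st om pi k T Z).card : ℝ) :=
    Finset.sum_congr rfl (fun k _ => by rw [card_into_eq (pi := pi) k T Z])
  rw [e1] at h1
  have h2 : ∑ w, cnt vis om S T w ≤ (S.card : ℝ) := by
    have := cnt_sum_mul (vis := vis) (om := om) S T (fun _ => (1 : ℝ))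
    simp only [mul_one] at this
    rw [this, Finset.sum_const, nsmul_eq_mul, mul_one]
    exact_mod_cast Finset.card_le_card (Finset.filter_subset _ _)
  have hle : ∀ w, cnt vis om S T w ≤ (ell : ℝ) := by
    intro w
    unfold cnt
    have : (S.filter (fun k => T ∈ vis k ∧ om k T = w)).card ≤ ell :=
      (Finset.card_le_card (Finset.filter_subset_filter _ (Finset.subset_univ S))).trans
        (hload T w)
    exact_mod_cast this
  have h3 : ∑ w, cnt vis om S T w ^ 2 ≤ (ell : ℝ) * (S.card : ℝ) := by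
    calc ∑ w, cnt vis om S T w ^ 2 ≤ ∑ w, (ell : ℝ) * cnt vis om S T w := by
          refine Finset.sum_le_sum (fun w _ => ?_)
          rw [sq]
          exact mul_le_mul_of_nonneg_right (hle w) (Nat.cast_nonneg _)
      _ = (ell : ℝ) * ∑ w, cnt vis om S T w := by rw [Finset.mul_sum]
      _ ≤ (ell : ℝ) * (S.card : ℝ) := mul_le_mul_of_nonneg_left h2 (Nat.cast_nonneg _)
  refine h1.trans ?_
  have hL0 : (0 : ℝ) ≤ (Fintype.card L : ℝ) := Nat.cast_nonneg _
  refine mul_le_mul_of_nonneg_left (add_le_add ?_ ?_) hL0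
  · have hO : (0 : ℝ) ≤ (Fintype.card Om : ℝ) := Nat.cast_nonneg _
    refine div_le_div_of_nonneg_right ?_ hO
    refine mul_le_mul_of_nonneg_right ?_ (Nat.cast_nonneg _)
    linarith
  · refine mul_le_mul_of_nonneg_right ?_ (Real.sqrt_nonneg _)
    exact mul_le_mul_of_nonneg_left (Real.sqrt_le_sqrt h3) hl

/-- `x ≤ c sqrt x * y` type inequality solved for `x`. -/
theorem solve_sqrt {x y c : ℝ} (hx : 0 ≤ x) (hy : 0 ≤ y) (hc : 0 ≤ c)
    (h : x ≤ c * (Real.sqrt x * Real.sqrt y)) : x ≤ c ^ 2 * y := by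
  by_cases h0 : x = 0
  · rw [h0]
    positivity
  · have hx' : 0 < x := lt_of_le_of_ne hx (Ne.symm h0)
    have hs : 0 < Real.sqrt x := Real.sqrt_pos.2 hx'
    have e : x = Real.sqrt x * Real.sqrt x := (Real.mul_self_sqrt hx).symm
    have h1 : Real.sqrt x ≤ c * Real.sqrt y := by
      have : Real.sqrt x * Real.sqrt x ≤ Real.sqrt x * (c * Real.sqrt y) := by
        calc Real.sqrt x * Real.sqrt x = x := e.symm
          _ ≤ c * (Real.sqrt x * Real.sqrt y) := h
          _ = Real.sqrt x * (c * Real.sqrt y) := by ring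
      exact le_of_mul_le_mul_left this hs
    calc x = Real.sqrt x * Real.sqrt x := e
      _ ≤ (c * Real.sqrt y) * (c * Real.sqrt y) :=
          mul_le_mul h1 h1 hs.le (mul_nonneg hc (Real.sqrt_nonneg _))
      _ = c ^ 2 * (Real.sqrt y * Real.sqrt y) := by ring
      _ = c ^ 2 * y := by rw [Real.mul_self_sqrt hy]

theorem sum_hits (S : Finset Kk) (T : Tt) (Z : Finset Om) :
    ∑ w ∈ Z, (hits st vis om pi S T w).card =
      ∑ k ∈ S.filter (fun k => T ∈ vis k), (into st om pi k T Z).card := by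
  classical
  have h1 : ∑ w ∈ Z, (hits st vis om pi S T w).card =
      (Finset.univ.filter (fun q : Kk × L => q.1 ∈ S ∧ T ∈ vis q.1 ∧
        tgt st om pi q.1 T q.2 ∈ Z)).card := by
    rw [← Finset.card_biUnion]
    · congr 1
      ext q
      simp only [hits, Finset.mem_biUnion, Finset.mem_filter, Finset.mem_univ, true_and]
      constructor
      · rintro ⟨w, hw, h1, h2, h3⟩
        exact ⟨h1, h2, h3 ▸ hw⟩
      · rintro ⟨h1, h2, h3⟩
        exact ⟨_, h3, h1, h2, rfl⟩
    · intro w _ w' _ hne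
      rw [Function.onFun, Finset.disjoint_left]
      intro q hq hq'
      have a1 := (Finset.mem_filter.1 hq).2.2.2
      have a2 := (Finset.mem_filter.1 hq').2.2.2
      exact hne (a1.symm.trans a2)
  have h2 : (Finset.univ.filter (fun q : Kk × L => q.1 ∈ S ∧ T ∈ vis q.1 ∧
        tgt st om pi q.1 T q.2 ∈ Z)) =
      ((S.filter (fun k => T ∈ vis k)).sigma (fun k => into st om pi k T Z)).map
        ⟨fun q : (_ : Kk) × L => (q.1, q.2), by
          rintro ⟨a, b⟩ ⟨c, d⟩ h
          simp only [Prod.mk.injEq] at h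
          obtain ⟨rfl, rfl⟩ := h
          rfl⟩ := by
    ext ⟨k, s⟩
    simp only [Finset.mem_filter, Finset.mem_univ, true_and, Finset.mem_map, Finset.mem_sigma,
      into, Function.Embedding.coeFn_mk]
    constructor
    · rintro ⟨h1, h2, h3⟩
      exact ⟨⟨k, s⟩, ⟨⟨h1, h2⟩, h3⟩, rfl⟩
    · rintro ⟨⟨k', s'⟩, ⟨⟨h1, h2⟩, h3⟩, h4⟩
      simp only [Prod.mk.injEq] at h4
      obtain ⟨rfl, rfl⟩ := h4
      exact ⟨h1, h2, h3⟩
  rw [h1, h2, Finset.card_map, Finset.card_sigma]

theorem card_crowded_le {lam : ℝ} (hl : 0 ≤ lam) {ell rho : ℕ} (hr : 1 ≤ rho)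
    [Nonempty L] [Nonempty Om]
    (hload : ∀ T w, (Finset.univ.filter (fun k => T ∈ vis k ∧ om k T = w)).card ≤ ell)
    (hmix : Mix st lam) (hK : 32 * rho * Fintype.card Kk ≤ Fintype.card Om)
    (S : Finset Kk) (T : Tt) :
    ((crowded st vis om pi rho S T).card : ℝ) ≤
      256 * (rho : ℝ) ^ 2 * lam ^ 2 * ell * S.card := by
  classical
  set Z := crowded st vis om pi rho S T with hZ
  have hN : (0 : ℝ) < (Fintype.card L : ℝ) := by exact_mod_cast Fintype.card_pos
  have hO : (0 : ℝ) < (Fintype.card Om : ℝ) := by exact_mod_cast Fintype.card_pos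
  have hrR : (1 : ℝ) ≤ (rho : ℝ) := by exact_mod_cast hr
  have hrpos : (0 : ℝ) < (rho : ℝ) := by linarith
  have hm := mix_bound (pi := pi) hl hload hmix S T Z
  have h1 : (Fintype.card L : ℝ) * Z.card ≤ 8 * (rho : ℝ) *
      ∑ k ∈ S.filter (fun k => T ∈ vis k), ((into st om pi k T Z).card : ℝ) := by
    have e : (∑ k ∈ S.filter (fun k => T ∈ vis k), ((into st om pi k T Z).card : ℝ)) =
        ∑ w ∈ Z, ((hits st vis om pi S T w).card : ℝ) := by
      have := sum_hits (st := st) (vis := vis) (om := om) (pi := pi) S T Z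
      exact_mod_cast this.symm
    rw [e, Finset.mul_sum]
    calc (Fintype.card L : ℝ) * Z.card = ∑ w ∈ Z, (Fintype.card L : ℝ) := by
          rw [Finset.sum_const, nsmul_eq_mul, mul_comm]
      _ ≤ ∑ w ∈ Z, 8 * (rho : ℝ) * ((hits st vis om pi S T w).card : ℝ) := by
          refine Finset.sum_le_sum (fun w hw => ?_)
          have := (Finset.mem_filter.1 hw).2
          exact_mod_cast this.le
  have hKs : 32 * (rho : ℝ) * (S.card : ℝ) ≤ (Fintype.card Om : ℝ) := by
    have a : S.card ≤ Fintype.card Kk := Finset.card_le_univ S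
    have b : 32 * rho * S.card ≤ Fintype.card Om := (Nat.mul_le_mul_left _ a).trans hK
    exact_mod_cast b
  -- main inequality
  set x : ℝ := (Z.card : ℝ) with hx
  set y : ℝ := (ell : ℝ) * (S.card : ℝ) with hy
  have hx0 : 0 ≤ x := Nat.cast_nonneg _
  have hy0 : 0 ≤ y := by positivity
  have h2 : (Fintype.card L : ℝ) * x ≤ (Fintype.card L : ℝ) * (8 * (rho : ℝ) *
      (2 * (S.card : ℝ) * x / (Fintype.card Om : ℝ) +
        lam * Real.sqrt y * Real.sqrt x)) := by
    calc (Fintype.card L : ℝ) * x ≤ 8 * (rho : ℝ) * ((Fintype.card L : ℝ) *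
        (2 * (S.card : ℝ) * x / (Fintype.card Om : ℝ) +
          lam * Real.sqrt y * Real.sqrt x)) :=
          h1.trans (mul_le_mul_of_nonneg_left hm (by positivity))
      _ = _ := by ring
  have h3 : x ≤ 8 * (rho : ℝ) *
      (2 * (S.card : ℝ) * x / (Fintype.card Om : ℝ) +
        lam * Real.sqrt y * Real.sqrt x) := le_of_mul_le_mul_left h2 hN
  have h4 : 2 * (S.card : ℝ) * x / (Fintype.card Om : ℝ) ≤ x / (16 * (rho : ℝ)) := by
    rw [div_le_div_iff₀ hO (by positivity)]
    calc 2 * (S.card : ℝ) * x * (16 * (rho : ℝ)) = (32 * (rho : ℝ) * (S.card : ℝ)) * x := by ring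
      _ ≤ (Fintype.card Om : ℝ) * x := mul_le_mul_of_nonneg_right hKs hx0
      _ = x * (Fintype.card Om : ℝ) := by ring
  have h5 : x ≤ x / 2 + 8 * (rho : ℝ) * lam * (Real.sqrt x * Real.sqrt y) := by
    calc x ≤ 8 * (rho : ℝ) * (x / (16 * (rho : ℝ)) + lam * Real.sqrt y * Real.sqrt x) :=
          h3.trans (mul_le_mul_of_nonneg_left (by linarith) (by positivity))
      _ = x / 2 + 8 * (rho : ℝ) * lam * (Real.sqrt x * Real.sqrt y) := by
          field_simp
          ring
  have h6 : x ≤ (16 * (rho : ℝ) * lam) * (Real.sqrt x * Real.sqrt y) := by linarith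
  have h7 := solve_sqrt hx0 hy0 (by positivity) h6
  calc x ≤ (16 * (rho : ℝ) * lam) ^ 2 * y := h7
    _ = 256 * (rho : ℝ) ^ 2 * lam ^ 2 * ell * S.card := by rw [hy]; ring

theorem card_bdT_le {lam : ℝ} (hl : 0 ≤ lam) {ell rho : ℕ} (hr : 1 ≤ rho)
    [Nonempty L] [Nonempty Om]
    (hload : ∀ T w, (Finset.univ.filter (fun k => T ∈ vis k ∧ om k T = w)).card ≤ ell)
    (hmix : Mix st lam) (hK : 32 * rho * Fintype.card Kk ≤ Fintype.card Om)
    (hlam : 128 * (rho : ℝ) ^ 2 * lam ^ 2 * ell ≤ 1)
    (S : Finset Kk) (T : Tt) :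
    ((bdT st vis om pi rho S T).card : ℝ) ≤
      16384 * (rho : ℝ) ^ 4 * lam ^ 4 * (ell : ℝ) ^ 2 * S.card := by
  classical
  set Z := crowded st vis om pi rho S T with hZ
  set D := bdT st vis om pi rho S T with hD
  have hN : (0 : ℝ) < (Fintype.card L : ℝ) := by exact_mod_cast Fintype.card_pos
  have hO : (0 : ℝ) < (Fintype.card Om : ℝ) := by exact_mod_cast Fintype.card_pos
  have hrR : (1 : ℝ) ≤ (rho : ℝ) := by exact_mod_cast hr
  have hrpos : (0 : ℝ) < (rho : ℝ) := by linarith
  have hm := mix_bound (pi := pi) hl hload hmix D T Z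
  have hZc := card_crowded_le (pi := pi) hl hr hload hmix hK S T
  rw [← hZ] at hZc
  have hKs : 32 * (rho : ℝ) * (S.card : ℝ) ≤ (Fintype.card Om : ℝ) := by
    have a : S.card ≤ Fintype.card Kk := Finset.card_le_univ S
    have b : 32 * rho * S.card ≤ Fintype.card Om := (Nat.mul_le_mul_left _ a).trans hK
    exact_mod_cast b
  have hZO : 16 * (rho : ℝ) * (Z.card : ℝ) ≤ (Fintype.card Om : ℝ) := by
    calc 16 * (rho : ℝ) * (Z.card : ℝ)
        ≤ 16 * (rho : ℝ) * (256 * (rho : ℝ) ^ 2 * lam ^ 2 * ell * S.card) :=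
          mul_le_mul_of_nonneg_left hZc (by positivity)
      _ = (128 * (rho : ℝ) ^ 2 * lam ^ 2 * ell) * (32 * (rho : ℝ) * (S.card : ℝ)) := by ring
      _ ≤ 1 * (32 * (rho : ℝ) * (S.card : ℝ)) :=
          mul_le_mul_of_nonneg_right hlam (by positivity)
      _ ≤ (Fintype.card Om : ℝ) := by linarith
  have hDvis : D.filter (fun k => T ∈ vis k) = D := by
    apply Finset.filter_true_of_mem
    intro k hk
    exact (Finset.mem_filter.1 hk).2.1
  rw [hDvis] at hm
  have h1 : (Fintype.card L : ℝ) * D.card ≤ 4 * (rho : ℝ) *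
      ∑ k ∈ D, ((into st om pi k T Z).card : ℝ) := by
    rw [Finset.mul_sum]
    calc (Fintype.card L : ℝ) * D.card = ∑ k ∈ D, (Fintype.card L : ℝ) := by
          rw [Finset.sum_const, nsmul_eq_mul, mul_comm]
      _ ≤ ∑ k ∈ D, 4 * (rho : ℝ) * ((into st om pi k T Z).card : ℝ) := by
          refine Finset.sum_le_sum (fun k hk => ?_)
          have := (Finset.mem_filter.1 hk).2.2
          exact_mod_cast this.le
  set x : ℝ := (D.card : ℝ) with hx
  set z : ℝ := (ell : ℝ) * (Z.card : ℝ) with hz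
  have hx0 : 0 ≤ x := Nat.cast_nonneg _
  have hz0 : 0 ≤ z := by positivity
  have hsq : Real.sqrt ((ell : ℝ) * x) * Real.sqrt (Z.card : ℝ) = Real.sqrt x * Real.sqrt z := by
    rw [hz, Real.sqrt_mul (Nat.cast_nonneg ell), Real.sqrt_mul (Nat.cast_nonneg ell)]
    ring
  have h2 : (Fintype.card L : ℝ) * x ≤ (Fintype.card L : ℝ) * (4 * (rho : ℝ) *
      (2 * x * (Z.card : ℝ) / (Fintype.card Om : ℝ) +
        lam * (Real.sqrt x * Real.sqrt z))) := by
    calc (Fintype.card L : ℝ) * x ≤ 4 * (rho : ℝ) * ((Fintype.card L : ℝ) *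
        (2 * x * (Z.card : ℝ) / (Fintype.card Om : ℝ) +
          lam * Real.sqrt ((ell : ℝ) * x) * Real.sqrt (Z.card : ℝ))) :=
          h1.trans (mul_le_mul_of_nonneg_left hm (by positivity))
      _ = (Fintype.card L : ℝ) * (4 * (rho : ℝ) *
      (2 * x * (Z.card : ℝ) / (Fintype.card Om : ℝ) +
        lam * (Real.sqrt ((ell : ℝ) * x) * Real.sqrt (Z.card : ℝ)))) := by ring
      _ = _ := by rw [hsq]
  have h3 : x ≤ 4 * (rho : ℝ) *
      (2 * x * (Z.card : ℝ) / (Fintype.card Om : ℝ) +
        lam * (Real.sqrt x * Real.sqrt z)) := le_of_mul_le_mul_left h2 hN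
  have h4 : 2 * x * (Z.card : ℝ) / (Fintype.card Om : ℝ) ≤ x / (8 * (rho : ℝ)) := by
    rw [div_le_div_iff₀ hO (by positivity)]
    calc 2 * x * (Z.card : ℝ) * (8 * (rho : ℝ)) = x * (16 * (rho : ℝ) * (Z.card : ℝ)) := by ring
      _ ≤ x * (Fintype.card Om : ℝ) := mul_le_mul_of_nonneg_left hZO hx0
  have h5 : x ≤ x / 2 + 4 * (rho : ℝ) * lam * (Real.sqrt x * Real.sqrt z) := by
    calc x ≤ 4 * (rho : ℝ) * (x / (8 * (rho : ℝ)) + lam * (Real.sqrt x * Real.sqrt z)) :=
          h3.trans (mul_le_mul_of_nonneg_left (by linarith) (by positivity))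
      _ = x / 2 + 4 * (rho : ℝ) * lam * (Real.sqrt x * Real.sqrt z) := by
          field_simp
          ring
  have h6 : x ≤ (8 * (rho : ℝ) * lam) * (Real.sqrt x * Real.sqrt z) := by linarith
  have h7 := solve_sqrt hx0 hz0 (by positivity) h6
  calc x ≤ (8 * (rho : ℝ) * lam) ^ 2 * z := h7
    _ = 64 * (rho : ℝ) ^ 2 * lam ^ 2 * ell * (Z.card : ℝ) := by rw [hz]; ring
    _ ≤ 64 * (rho : ℝ) ^ 2 * lam ^ 2 * ell *
        (256 * (rho : ℝ) ^ 2 * lam ^ 2 * ell * S.card) :=
        mul_le_mul_of_nonneg_left hZc (by positivity)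
    _ = 16384 * (rho : ℝ) ^ 4 * lam ^ 4 * (ell : ℝ) ^ 2 * S.card := by ring

theorem card_bd_lt {lam : ℝ} (hl : 0 ≤ lam) {ell rho : ℕ} (hr : 1 ≤ rho)
    [Nonempty L] [Nonempty Om] (hTt : Fintype.card Tt ≤ rho)
    (hload : ∀ T w, (Finset.univ.filter (fun k => T ∈ vis k ∧ om k T = w)).card ≤ ell)
    (hmix : Mix st lam) (hK : 32 * rho * Fintype.card Kk ≤ Fintype.card Om)
    (hlam : 32768 * (rho : ℝ) ^ 5 * (ell : ℝ) ^ 2 * lam ^ 4 ≤ 1)
    (S : Finset Kk) (hS : S.Nonempty) :
    (bd st vis om pi rho S).card < S.card := by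
  classical
  have hrR : (1 : ℝ) ≤ (rho : ℝ) := by exact_mod_cast hr
  have hlam2 : 128 * (rho : ℝ) ^ 2 * lam ^ 2 * ell ≤ 1 := by
    have h : (128 * (rho : ℝ) ^ 2 * lam ^ 2 * ell) ^ 2 ≤ 1 := by
      have e : (128 * (rho : ℝ) ^ 2 * lam ^ 2 * ell) ^ 2 =
          16384 * (rho : ℝ) ^ 4 * ((ell : ℝ) ^ 2 * lam ^ 4) := by ring
      have h0 : 0 ≤ (ell : ℝ) ^ 2 * lam ^ 4 := by positivity
      have h1 : (rho : ℝ) ^ 4 ≤ (rho : ℝ) ^ 5 := pow_le_pow_right₀ hrR (by norm_num)
      have h2 : (rho : ℝ) ^ 4 * ((ell : ℝ) ^ 2 * lam ^ 4) ≤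
          (rho : ℝ) ^ 5 * ((ell : ℝ) ^ 2 * lam ^ 4) := mul_le_mul_of_nonneg_right h1 h0
      have h3 : 0 ≤ (rho : ℝ) ^ 4 * ((ell : ℝ) ^ 2 * lam ^ 4) := by positivity
      rw [e]
      nlinarith
    have h0 : 0 ≤ 128 * (rho : ℝ) ^ 2 * lam ^ 2 * ell := by positivity
    nlinarith
  have hSp : (0 : ℝ) < (S.card : ℝ) := by exact_mod_cast hS.card_pos
  have h1 : ((bd st vis om pi rho S).card : ℝ) ≤
      ∑ T : Tt, 16384 * (rho : ℝ) ^ 4 * lam ^ 4 * (ell : ℝ) ^ 2 * S.card := by
    have a : (bd st vis om pi rho S).card ≤ ∑ T : Tt, (bdT st vis om pi rho S T).card :=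
      Finset.card_biUnion_le
    have b : ((bd st vis om pi rho S).card : ℝ) ≤
        ∑ T : Tt, ((bdT st vis om pi rho S T).card : ℝ) := by exact_mod_cast a
    exact b.trans (Finset.sum_le_sum (fun T _ =>
      card_bdT_le (pi := pi) hl hr hload hmix hK hlam2 S T))
  rw [Finset.sum_const, nsmul_eq_mul, Finset.card_univ] at h1
  have hT : (Fintype.card Tt : ℝ) ≤ (rho : ℝ) := by exact_mod_cast hTt
  have h0 : 0 ≤ 16384 * (rho : ℝ) ^ 4 * lam ^ 4 * (ell : ℝ) ^ 2 * (S.card : ℝ) := by positivity
  have h2 : ((bd st vis om pi rho S).card : ℝ) ≤ (S.card : ℝ) / 2 := by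
    calc ((bd st vis om pi rho S).card : ℝ)
        ≤ (Fintype.card Tt : ℝ) *
          (16384 * (rho : ℝ) ^ 4 * lam ^ 4 * (ell : ℝ) ^ 2 * S.card) := h1
      _ ≤ (rho : ℝ) * (16384 * (rho : ℝ) ^ 4 * lam ^ 4 * (ell : ℝ) ^ 2 * S.card) :=
          mul_le_mul_of_nonneg_right hT h0
      _ = (32768 * (rho : ℝ) ^ 5 * (ell : ℝ) ^ 2 * lam ^ 4) * (S.card / 2) := by ring
      _ ≤ 1 * ((S.card : ℝ) / 2) := mul_le_mul_of_nonneg_right hlam (by positivity)
      _ = (S.card : ℝ) / 2 := one_mul _
  have h3 : ((bd st vis om pi rho S).card : ℝ) < (S.card : ℝ) := by linarith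
  exact_mod_cast h3

/-- The chain of bad sets. -/
def chain (st : L → Om → Om) (vis : Kk → Finset Tt) (om : Kk → Tt → Om)
    (pi : Kk → Tt → Equiv.Perm L) (rho : ℕ) : ℕ → Finset Kk
  | 0 => Finset.univ
  | n + 1 => bd st vis om pi rho (chain st vis om pi rho n)

theorem bd_subset (rho : ℕ) (S : Finset Kk) : bd st vis om pi rho S ⊆ S := by
  intro k hk
  obtain ⟨T, _, hT⟩ := Finset.mem_biUnion.1 hk
  exact (Finset.mem_filter.1 hT).1

theorem chain_anti (rho : ℕ) {i j : ℕ} (hij : i ≤ j) :
    chain st vis om pi rho j ⊆ chain st vis om pi rho i := by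
  induction hij with
  | refl => exact fun _ h => h
  | step _ ih => exact (bd_subset rho _).trans ih

/-- Lemma SDR (3.5). -/
theorem lemma_sdr (st : L → Om → Om) (vis : Kk → Finset Tt) (om : Kk → Tt → Om)
    (pi : Kk → Tt → Equiv.Perm L) (P : Kk → Finset L) (rho ell : ℕ) (lam : ℝ)
    (hl : 0 ≤ lam) (hr : 1 ≤ rho) [Nonempty L] (hTt : Fintype.card Tt ≤ rho)
    (hload : ∀ T w, (Finset.univ.filter (fun k => T ∈ vis k ∧ om k T = w)).card ≤ ell)
    (hP : ∀ k, 3 * Fintype.card L ≤ 4 * (P k).card)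
    (hmix : Mix st lam) (hK : 32 * rho * Fintype.card Kk ≤ Fintype.card Om)
    (hlam : 32768 * (rho : ℝ) ^ 5 * (ell : ℝ) ^ 2 * lam ^ 4 ≤ 1) :
    ∃ s : Kk → L, (∀ k, s k ∈ P k) ∧ ∀ T k k', k ≠ k' → T ∈ vis k → T ∈ vis k' →
      st (pi k T (s k)) (om k T) ≠ st (pi k' T (s k')) (om k' T) := by
  classical
  have hNpos : 0 < Fintype.card L := Fintype.card_pos
  by_cases hne : Nonempty Om
  swap
  · have h0 : Fintype.card Om = 0 := by
      rw [Fintype.card_eq_zero_iff]
      exact not_nonempty_iff.1 hne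
    have h1 : Fintype.card Kk = 0 := by
      rw [h0] at hK
      have : 32 * rho * Fintype.card Kk = 0 := Nat.le_zero.1 hK
      rcases Nat.mul_eq_zero.1 this with h | h
      · omega
      · exact h
    have hE : IsEmpty Kk := Fintype.card_eq_zero_iff.1 h1
    exact ⟨fun k => (hE.false k).elim, fun k => (hE.false k).elim,
      fun T k => (hE.false k).elim⟩
  have hlt := fun S hS => card_bd_lt (pi := pi) hl hr hTt hload hmix hK hlam S hS
  -- the chain becomes empty
  have hcard : ∀ n, (chain st vis om pi rho n).card ≤ Fintype.card Kk - n := by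
    intro n
    induction n with
    | zero => simp [chain]
    | succ n ih =>
      by_cases he : (chain st vis om pi rho n).Nonempty
      · have := hlt _ he
        have e : chain st vis om pi rho (n + 1) = bd st vis om pi rho (chain st vis om pi rho n) :=
          rfl
        rw [e]
        omega
      · have e0 : chain st vis om pi rho n = ∅ := Finset.not_nonempty_iff_eq_empty.1 he
        have e : chain st vis om pi rho (n + 1) = ∅ := by
          have := bd_subset (st := st) (vis := vis) (om := om) (pi := pi) rho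
            (chain st vis om pi rho n)
          rw [e0] at this
          show bd st vis om pi rho (chain st vis om pi rho n) = ∅
          rw [e0]
          exact Finset.subset_empty.1 this
        rw [e]
        simp
  have hex : ∀ k, ∃ n, k ∉ chain st vis om pi rho (n + 1) := by
    intro k
    refine ⟨Fintype.card Kk, ?_⟩
    have h := hcard (Fintype.card Kk + 1)
    have h' : (chain st vis om pi rho (Fintype.card Kk + 1)).card = 0 := by omega
    rw [Finset.card_eq_zero.1 h']
    simp
  let idx : Kk → ℕ := fun k => Nat.find (hex k)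
  have hidx1 : ∀ k, k ∉ chain st vis om pi rho (idx k + 1) := fun k => Nat.find_spec (hex k)
  have hidx0 : ∀ k, k ∈ chain st vis om pi rho (idx k) := by
    intro k
    rcases Nat.eq_zero_or_pos (idx k) with h | h
    · rw [h]
      exact Finset.mem_univ k
    · have := Nat.find_min (hex k) (m := idx k - 1) (by
        show idx k - 1 < idx k
        omega)
      have e : idx k - 1 + 1 = idx k := by omega
      rw [e] at this
      exact not_not.1 this
  let Q : Kk → Finset L := fun k => (P k).filter (fun s => ∀ T ∈ vis k,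
    tgt st om pi k T s ∉ crowded st vis om pi rho (chain st vis om pi rho (idx k)) T)
  have hQP : ∀ k, ∀ s ∈ Q k, s ∈ P k := fun k s hs => (Finset.mem_filter.1 hs).1
  -- size of Q
  have hQ : ∀ k, Fintype.card L ≤ 2 * (Q k).card := by
    intro k
    have h1 : ∀ T ∈ vis k, 4 * rho *
        (into st om pi k T (crowded st vis om pi rho (chain st vis om pi rho (idx k)) T)).card ≤
          Fintype.card L := by
      intro T hT
      by_contra hcon
      push Not at hcon
      apply hidx1 k
      show k ∈ bd st vis om pi rho (chain st vis om pi rho (idx k))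
      refine Finset.mem_biUnion.2 ⟨T, Finset.mem_univ _, ?_⟩
      exact Finset.mem_filter.2 ⟨hidx0 k, hT, hcon⟩
    have h2 : P k ⊆ Q k ∪ (vis k).biUnion (fun T => into st om pi k T
        (crowded st vis om pi rho (chain st vis om pi rho (idx k)) T)) := by
      intro s hs
      by_cases hq : s ∈ Q k
      · exact Finset.mem_union_left _ hq
      · apply Finset.mem_union_right
        have : ¬ ∀ T ∈ vis k, tgt st om pi k T s ∉
            crowded st vis om pi rho (chain st vis om pi rho (idx k)) T :=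
          fun h => hq (Finset.mem_filter.2 ⟨hs, h⟩)
        push Not at this
        obtain ⟨T, hT, hT2⟩ := this
        exact Finset.mem_biUnion.2 ⟨T, hT, Finset.mem_filter.2 ⟨Finset.mem_univ _, hT2⟩⟩
    have h3 : (P k).card ≤ (Q k).card + ∑ T ∈ vis k, (into st om pi k T
        (crowded st vis om pi rho (chain st vis om pi rho (idx k)) T)).card :=
      (Finset.card_le_card h2).trans ((Finset.card_union_le _ _).trans
        (Nat.add_le_add_left Finset.card_biUnion_le _))
    have h4 : 4 * rho * ∑ T ∈ vis k, (into st om pi k T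
        (crowded st vis om pi rho (chain st vis om pi rho (idx k)) T)).card ≤
        rho * Fintype.card L := by
      rw [Finset.mul_sum]
      calc _ ≤ ∑ T ∈ vis k, Fintype.card L := Finset.sum_le_sum h1
        _ = (vis k).card * Fintype.card L := by rw [Finset.sum_const, smul_eq_mul]
        _ ≤ rho * Fintype.card L :=
          Nat.mul_le_mul_right _ ((Finset.card_le_univ _).trans hTt)
    set X := ∑ T ∈ vis k, (into st om pi k T
        (crowded st vis om pi rho (chain st vis om pi rho (idx k)) T)).card with hX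
    have h5 : 4 * X ≤ Fintype.card L := by
      have : rho * (4 * X) ≤ rho * Fintype.card L := by
        calc rho * (4 * X) = 4 * rho * X := by ring
          _ ≤ rho * Fintype.card L := h4
      exact Nat.le_of_mul_le_mul_left this hr
    have := hP k
    omega
  -- conflicts
  let cf : Kk → L → Kk → L → Prop := fun k s k' s' =>
    ∃ T, T ∈ vis k ∧ T ∈ vis k' ∧ tgt st om pi k T s = tgt st om pi k' T s'
  have hsym : ∀ k s k' s', cf k s k' s' → cf k' s' k s := by
    rintro k s k' s' ⟨T, h1, h2, h3⟩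
    exact ⟨T, h2, h1, h3.symm⟩
  have hconf : ∀ k, ∀ s ∈ Q k, 8 * (conf Q cf k s).card ≤ Fintype.card L := by
    intro k s hs
    have hT : ∀ T ∈ vis k, 8 * rho * (Finset.univ.filter (fun q : Kk × L =>
        T ∈ vis q.1 ∧ q.2 ∈ Q q.1 ∧ tgt st om pi q.1 T q.2 = tgt st om pi k T s)).card ≤
        Fintype.card L := by
      intro T hT
      set A := Finset.univ.filter (fun q : Kk × L =>
        T ∈ vis q.1 ∧ q.2 ∈ Q q.1 ∧ tgt st om pi q.1 T q.2 = tgt st om pi k T s) with hA
      have hAne : A.Nonempty := ⟨(k, s), Finset.mem_filter.2 ⟨Finset.mem_univ _, hT, hs, rfl⟩⟩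
      obtain ⟨q0, hq0, hmin⟩ := Finset.exists_min_image A (fun q => idx q.1) hAne
      have hq0' := (Finset.mem_filter.1 hq0).2
      have hnc := (Finset.mem_filter.1 hq0'.2.1).2 T hq0'.1
      rw [hq0'.2.2] at hnc
      have hle : 8 * rho * (hits st vis om pi (chain st vis om pi rho (idx q0.1)) T
          (tgt st om pi k T s)).card ≤ Fintype.card L := by
        by_contra hcon
        push Not at hcon
        exact hnc (Finset.mem_filter.2 ⟨Finset.mem_univ _, hcon⟩)
      refine (Nat.mul_le_mul_left _ (Finset.card_le_card ?_)).trans hle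
      intro q hq
      have hq' := (Finset.mem_filter.1 hq).2
      refine Finset.mem_filter.2 ⟨Finset.mem_univ _, ?_, hq'.1, hq'.2.2⟩
      exact chain_anti rho (hmin q hq) (hidx0 q.1)
    have hsub : conf Q cf k s ⊆ (vis k).biUnion (fun T => Finset.univ.filter (fun q : Kk × L =>
        T ∈ vis q.1 ∧ q.2 ∈ Q q.1 ∧ tgt st om pi q.1 T q.2 = tgt st om pi k T s)) := by
      intro q hq
      obtain ⟨_, h2, T, h3, h4, h5⟩ := mem_conf.1 hq
      exact Finset.mem_biUnion.2 ⟨T, h3, Finset.mem_filter.2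
        ⟨Finset.mem_univ _, h4, h2, h5.symm⟩⟩
    have h1 : (conf Q cf k s).card ≤ ∑ T ∈ vis k, (Finset.univ.filter (fun q : Kk × L =>
        T ∈ vis q.1 ∧ q.2 ∈ Q q.1 ∧ tgt st om pi q.1 T q.2 = tgt st om pi k T s)).card :=
      (Finset.card_le_card hsub).trans Finset.card_biUnion_le
    have h2 : 8 * rho * (conf Q cf k s).card ≤ rho * Fintype.card L := by
      calc 8 * rho * (conf Q cf k s).card
          ≤ 8 * rho * ∑ T ∈ vis k, (Finset.univ.filter (fun q : Kk × L =>
            T ∈ vis q.1 ∧ q.2 ∈ Q q.1 ∧ tgt st om pi q.1 T q.2 = tgt st om pi k T s)).card :=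
            Nat.mul_le_mul_left _ h1
        _ ≤ ∑ T ∈ vis k, Fintype.card L := by
            rw [Finset.mul_sum]
            exact Finset.sum_le_sum hT
        _ = (vis k).card * Fintype.card L := by rw [Finset.sum_const, smul_eq_mul]
        _ ≤ rho * Fintype.card L :=
          Nat.mul_le_mul_right _ ((Finset.card_le_univ _).trans hTt)
    have h3 : rho * (8 * (conf Q cf k s).card) ≤ rho * Fintype.card L := by
      calc rho * (8 * (conf Q cf k s).card) = 8 * rho * (conf Q cf k s).card := by ring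
        _ ≤ rho * Fintype.card L := h2
    exact Nat.le_of_mul_le_mul_left h3 hr
  obtain ⟨f, hf1, hf2⟩ := rosenfeld Q cf inferInstance hsym hQ hconf
  refine ⟨f, fun k => hQP k _ (hf1 k), ?_⟩
  intro T k k' hne' h1 h2 heq
  exact hf2 k k' hne' ⟨T, h1, h2, heq⟩

end Crowded

end Sdr

end Pool.Agent.SRL
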