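import Pool.Agent.SRL.Defs
import Pool.Agent.SRL.Sdr

/-!
# The mixing inequality from the spectral gap

`mix_of_gap`: the hypothesis `Mix` of the selection lemma holds for every class of a cube system
with a spectral gap.
-/

set_option autoImplicit false
set_option linter.unusedSectionVars false

namespace Pool.Agent.SRL

open Finset

section

variable {I L X : Type} [DecidableEq I] [Fintype I] [Fintype L] [Fintype X]

theorem A_state (S : CS I L X) (b : I) (g : X → ℝ) (V : St I L X) :
    S.A b (fun V => g V.1) V = avg (fun s : L => g (S.step b s V.1)) := by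
  unfold CS.A
  congr 1
  funext s
  simp [CS.flip]

theorem sum_state (g : X → ℝ) :
    ∑ V : St I L X, g V.1 = Fintype.card (I → L) * ∑ x, g x := by
  rw [Fintype.sum_prod_type]
  simp only [sum_const, card_univ, nsmul_eq_mul]
  rw [← mul_sum]

/-- the gap for functions of the state -/
theorem gap_state [Nonempty L] {S : CS I L X} {sgn : X → ℝ} {lam : ℝ} (h : Gap S sgn lam) (b : I)
    (g : X → ℝ) (h0 : ∑ x, g x = 0) (h1 : ∑ x, sgn x * g x = 0) :
    ∑ x, (avg (fun s : L => g (S.step b s x))) ^ 2 ≤ lam ^ 2 * ∑ x, g x ^ 2 := by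
  have hpos : (0 : ℝ) < Fintype.card (I → L) := by exact_mod_cast Fintype.card_pos
  have h2 := h.gap b (fun V => g V.1) (fun x φ s => rfl)
    (by rw [sum_state, h0, mul_zero]) (by rw [sum_state (fun x => sgn x * g x), h1, mul_zero])
  simp only [A_state] at h2
  rw [sum_state (fun x => (avg (fun s : L => g (S.step b s x))) ^ 2),
    sum_state (fun x => g x ^ 2)] at h2
  have h3 : (Fintype.card (I → L) : ℝ) * ∑ x, (avg (fun s : L => g (S.step b s x))) ^ 2 ≤
      Fintype.card (I → L) * (lam ^ 2 * ∑ x, g x ^ 2) := by
    linarith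
  exact le_of_mul_le_mul_left h3 hpos

/-- the part of a function which is not seen by the gap -/
theorem gap_split [Nonempty L] {S : CS I L X} {sgn : X → ℝ} {lam : ℝ} (h : Gap S sgn lam) (b : I)
    (g : X → ℝ) (hg : ∀ x, 0 ≤ g x) : ∃ r : X → ℝ,
      (∀ x, avg (fun s : L => g (S.step b s x)) ≤ 2 * (∑ x, g x) / Fintype.card X + r x) ∧
      ∑ x, r x ^ 2 ≤ lam ^ 2 * ∑ x, g x ^ 2 := by
  classical
  rcases isEmpty_or_nonempty X with hX | hX
  · exact ⟨fun _ => 0, fun x => (hX.false x).elim, by simp⟩
  have hN : (0 : ℝ) < Fintype.card X := by exact_mod_cast Fintype.card_pos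
  have hL : (0 : ℝ) < Fintype.card L := by exact_mod_cast Fintype.card_pos
  have hs : ∀ x, sgn x * sgn x = 1 := fun x => by
    rcases h.val x with h' | h' <;> rw [h'] <;> norm_num
  have hsum0 : 0 ≤ ∑ x, g x := sum_nonneg fun x _ => hg x
  -- average of a sum
  have havg_add : ∀ u v : L → ℝ, avg (fun s => u s + v s) = avg u + avg v := by
    intro u v
    unfold avg
    rw [sum_add_distrib, add_div]
  have havg_const : ∀ c : ℝ, avg (fun _ : L => c) = c := by
    intro c
    unfold avg
    rw [sum_const, card_univ, nsmul_eq_mul]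
    field_simp
  rcases h.alt with h1 | ⟨h1, h2⟩
  · -- one class
    set c := (∑ x, g x) / Fintype.card X with hc
    have h3 : ∑ x, (g x - c) = 0 := by
      rw [sum_sub_distrib, sum_const, card_univ, nsmul_eq_mul, hc]
      field_simp
      ring
    have h4 : ∑ x, sgn x * (g x - c) = 0 := by
      simp only [h1, one_mul]
      exact h3
    have h5 := gap_state h b (fun x => g x - c) h3 h4
    refine ⟨fun x => avg (fun s : L => g (S.step b s x) - c), fun x => ?_, h5.trans ?_⟩
    · have h6 : avg (fun s : L => g (S.step b s x)) =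
          c + avg (fun s : L => g (S.step b s x) - c) := by
        have h7 := havg_add (fun s : L => g (S.step b s x) - c) (fun _ => c)
        simp only [sub_add_cancel, havg_const] at h7
        rw [h7]
        ring
      rw [h6]
      have h8 : c ≤ 2 * (∑ x, g x) / Fintype.card X := by
        rw [hc]
        exact div_le_div_of_nonneg_right (by linarith) hN.le
      linarith
    · refine mul_le_mul_of_nonneg_left ?_ (sq_nonneg _)
      have h9 : ∑ x, (g x - c) ^ 2 = ∑ x, g x ^ 2 - c * ∑ x, g x - c * ∑ x, (g x - c) := by
        rw [mul_sum, mul_sum, ← sum_sub_distrib, ← sum_sub_distrib]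
        exact sum_congr rfl fun x _ => by ring
      rw [h9, h3]
      have : 0 ≤ c * ∑ x, g x := mul_nonneg (by positivity) hsum0
      linarith
  · -- two classes
    set c := (∑ x, g x) / Fintype.card X with hc
    set e := (∑ x, sgn x * g x) / Fintype.card X with he
    have h3 : ∑ x, (g x - c - e * sgn x) = 0 := by
      rw [sum_sub_distrib, sum_sub_distrib, sum_const, card_univ, nsmul_eq_mul, ← mul_sum, h1, hc]
      field_simp
      ring
    have h4 : ∑ x, sgn x * (g x - c - e * sgn x) = 0 := by
      have : ∀ x, sgn x * (g x - c - e * sgn x) = sgn x * g x - c * sgn x - e := by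
        intro x
        have := hs x
        linear_combination (-e) * this
      rw [sum_congr rfl fun x _ => this x, sum_sub_distrib, sum_sub_distrib, sum_const, card_univ,
        nsmul_eq_mul, ← mul_sum, h1, he]
      field_simp
      ring
    have h5 := gap_state h b (fun x => g x - c - e * sgn x) h3 h4
    have he' : |e| ≤ c := by
      rw [he, hc, abs_div, abs_of_pos hN]
      refine div_le_div_of_nonneg_right ?_ hN.le
      refine (abs_sum_le_sum_abs _ _).trans (sum_le_sum fun x _ => ?_)
      rw [abs_mul, abs_of_nonneg (hg x)]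
      rcases h.val x with h' | h' <;> rw [h'] <;> simp
    refine ⟨fun x => avg (fun s : L => g (S.step b s x) - c - e * sgn (S.step b s x)),
      fun x => ?_, h5.trans ?_⟩
    · have h6 : avg (fun s : L => g (S.step b s x)) =
          (c - e * sgn x) + avg (fun s : L => g (S.step b s x) - c - e * sgn (S.step b s x)) := by
        have h7 := havg_add (fun s : L => g (S.step b s x) - c - e * sgn (S.step b s x))
          (fun _ => c - e * sgn x)
        rw [havg_const] at h7
        have h8 : (fun s : L => g (S.step b s x) - c - e * sgn (S.step b s x) +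
            (c - e * sgn x)) = fun s : L => g (S.step b s x) := by
          funext s
          rw [h2 b s x]
          ring
        rw [h8] at h7
        rw [h7]
        ring
      rw [h6]
      have h8 : c - e * sgn x ≤ 2 * (∑ x, g x) / Fintype.card X := by
        have h9 : -(e * sgn x) ≤ |e| := by
          rcases h.val x with h' | h' <;> rw [h']
          · rw [mul_one]; exact neg_le_abs e
          · rw [mul_neg, mul_one, neg_neg]; exact le_abs_self e
        have h10 : 2 * (∑ x, g x) / Fintype.card X = c + c := by rw [hc]; ring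
        rw [h10]
        linarith
      linarith
    · refine mul_le_mul_of_nonneg_left ?_ (sq_nonneg _)
      have h9 : ∑ x, (g x - c - e * sgn x) ^ 2 = ∑ x, g x ^ 2 - c * ∑ x, g x -
          e * ∑ x, sgn x * g x - c * ∑ x, (g x - c - e * sgn x) -
          e * ∑ x, sgn x * (g x - c - e * sgn x) := by
        simp only [mul_sum]
        rw [← sum_sub_distrib, ← sum_sub_distrib, ← sum_sub_distrib, ← sum_sub_distrib]
        exact sum_congr rfl fun x _ => by ring
      rw [h9, h3, h4]
      have h10 : 0 ≤ c * ∑ x, g x := mul_nonneg (by positivity) hsum0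
      have h11 : 0 ≤ e * ∑ x, sgn x * g x := by
        have : ∑ x, sgn x * g x = e * Fintype.card X := by
          rw [he]; field_simp
        rw [this]
        have := mul_self_nonneg e
        nlinarith
      linarith

/-- The hypothesis `Mix` of the selection lemma follows from the spectral gap. -/
theorem mix_of_gap [DecidableEq X] {S : CS I L X} {sgn : X → ℝ} {lam : ℝ} (hl : 0 ≤ lam) (h : Gap S sgn lam)
    (b : I) : Sdr.Mix (fun s x => S.step b s x) lam := by
  intro a ha Z
  rcases isEmpty_or_nonempty L with hL | hL
  · have : Fintype.card L = 0 := Fintype.card_eq_zero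
    rw [this]
    simp
  have hL' : (0 : ℝ) < Fintype.card L := by exact_mod_cast Fintype.card_pos
  obtain ⟨r, hr1, hr2⟩ := gap_split h b (fun x => if x ∈ Z then (1 : ℝ) else 0)
    (fun x => by split_ifs <;> norm_num)
  have hsum : ∑ x, (if x ∈ Z then (1 : ℝ) else 0) = Z.card := by simp
  have hsum2 : ∑ x, (if x ∈ Z then (1 : ℝ) else 0) ^ 2 = Z.card := by
    rw [← hsum]
    refine sum_congr rfl fun x _ => ?_
    split_ifs <;> norm_num
  rw [hsum2] at hr2
  have hcard : ∀ x, (((univ : Finset L).filter (fun s => S.step b s x ∈ Z)).card : ℝ) =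
      Fintype.card L * avg (fun s : L => if S.step b s x ∈ Z then (1 : ℝ) else 0) := by
    intro x
    unfold avg
    rw [sum_boole]
    field_simp
  calc ∑ x, a x * (((univ : Finset L).filter (fun s => S.step b s x ∈ Z)).card : ℝ)
      ≤ ∑ x, a x * (Fintype.card L * (2 * (Z.card : ℝ) / Fintype.card X + r x)) := by
        refine sum_le_sum fun x _ => mul_le_mul_of_nonneg_left ?_ (ha x)
        rw [hcard]
        refine mul_le_mul_of_nonneg_left ?_ hL'.le
        have := hr1 x
        rwa [hsum] at this
    _ = Fintype.card L * (2 * (∑ x, a x) * Z.card / Fintype.card X + ∑ x, a x * r x) := by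
        have : ∀ x, a x * (Fintype.card L * (2 * (Z.card : ℝ) / Fintype.card X + r x)) =
            Fintype.card L * (2 * Z.card / Fintype.card X) * a x +
              Fintype.card L * (a x * r x) := fun x => by ring
        rw [sum_congr rfl fun x _ => this x, sum_add_distrib, ← mul_sum, ← mul_sum]
        ring
    _ ≤ Fintype.card L * (2 * (∑ x, a x) * Z.card / Fintype.card X +
          lam * Real.sqrt (∑ x, a x ^ 2) * Real.sqrt Z.card) := by
        refine mul_le_mul_of_nonneg_left (add_le_add le_rfl ?_) hL'.le
        have h1 := Real.sum_mul_le_sqrt_mul_sqrt univ a r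
        have h2 : Real.sqrt (∑ x, r x ^ 2) ≤ lam * Real.sqrt Z.card := by
          rw [← Real.sqrt_sq hl, ← Real.sqrt_mul (sq_nonneg _)]
          exact Real.sqrt_le_sqrt hr2
        calc ∑ x, a x * r x ≤ Real.sqrt (∑ x, a x ^ 2) * Real.sqrt (∑ x, r x ^ 2) := h1
          _ ≤ Real.sqrt (∑ x, a x ^ 2) * (lam * Real.sqrt Z.card) :=
            mul_le_mul_of_nonneg_left h2 (Real.sqrt_nonneg _)
          _ = _ := by ring

end

end Pool.Agent.SRL
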