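import Pool.Agent.SRL.DPic
import Pool.Agent.SRL.Mix

/-!
Theorem D over an abstract scheme: the choice of the letters of one round (Lemma SDR).
-/

set_option autoImplicit false
set_option linter.unusedSectionVars false
set_option linter.unusedVariables false

namespace Pool.Agent.SRL

open Finset

namespace Scheme

variable {B C Cell L Om : Type} [DecidableEq B] {Sc : Scheme B C Cell}
variable {S : CS B L Om} {root : Om} (W : WS S root) (l0 : L)

/-- The states of the atoms depend on the letters of the earlier rounds only. -/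
theorem Valid.om_congr {win : ℕ} (hV : Sc.Valid win) {s s' : C → L} (K : C) (T : Finset B)
    (hs : ∀ u, Sc.rd u < Sc.st K → s u = s' u) : Sc.om W l0 s K T = Sc.om W l0 s' K T := by
  unfold om
  rw [hV.V_congr W l0 s s' K (Sc.st K) le_rfl hs]

/-- The local letters at the atoms depend on the letters of the earlier rounds only. -/
theorem Valid.pi_congr {win : ℕ} (hV : Sc.Valid win) {s s' : C → L} (K : C) (T : Finset B)
    (hs : ∀ u, Sc.rd u < Sc.st K → s u = s' u) : Sc.pi W l0 s K T = Sc.pi W l0 s' K T := by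
  unfold pi
  rw [hV.lt_congr l0 s s' K (Sc.st K) le_rfl hs,
    Sc.word_congr s s' (Sc.fullP K) (Sc.fullP K) (Sc.st K) (fun _ _ => rfl)
      (fun i u hi hu => hs u (by rw [(hV.fullP_rd hu).1]; exact hi))]

theorem Valid.tgt_congr {win : ℕ} (hV : Sc.Valid win) {s s' : C → L} (K : C) (T : Finset B) (a : L)
    (hs : ∀ u, Sc.rd u < Sc.st K → s u = s' u) :
    Sc.tgt W l0 s K T a = Sc.tgt W l0 s' K T a := by
  unfold tgt
  rw [hV.om_congr W l0 K T hs, hV.pi_congr W l0 K T hs]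

theorem Valid.inj_congr {win : ℕ} (hV : Sc.Valid win) {s s' : C → L} {r : ℕ}
    (hs : ∀ u, Sc.rd u < r → s u = s' u) (hi : Sc.Inj W l0 s r) : Sc.Inj W l0 s' r := by
  intro K K' h1 h2 hne T hT hT'
  have a1 : ∀ u, Sc.rd u < Sc.st K → s u = s' u := fun u hu =>
    hs u (lt_of_lt_of_le hu ((hV.st_le K).trans h1.le))
  have a2 : ∀ u, Sc.rd u < Sc.st K' → s u = s' u := fun u hu =>
    hs u (lt_of_lt_of_le hu ((hV.st_le K').trans (h2 ▸ h1.le)))
  have h3 := hi K K' h1 h2 hne T hT hT'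
  rw [hV.tgt_congr W l0 K T _ a1, hV.tgt_congr W l0 K' T _ a2, hs K h1, hs K' (h2 ▸ h1)] at h3
  exact h3

/-- **One round.** -/
theorem Valid.round {win : ℕ} (hV : Sc.Valid win) [Fintype B] [Fintype C] [Fintype L]
    [Nonempty L] [Fintype Om] {sgn : Om → ℝ} {lam : ℝ} (hl : 0 ≤ lam) (hG : Gap S sgn lam)
    (s : C → L) (r : ℕ) (hi : Sc.Inj W l0 s r) (ell : ℕ)
    (hload : ∀ T w, {K | Sc.rd K = r ∧ T ∈ Sc.vis K ∧ Sc.om W l0 s K T = w}.ncard ≤ ell)
    (P : C → Finset L) (hP : ∀ K, Sc.rd K = r → 3 * Fintype.card L ≤ 4 * (P K).card)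
    (hK : 32 * 2 ^ Fintype.card B * {K | Sc.rd K = r}.ncard ≤ Fintype.card Om)
    (hlam : 32768 * ((2 : ℝ) ^ Fintype.card B) ^ 5 * (ell : ℝ) ^ 2 * lam ^ 4 ≤ 1) :
    ∃ s' : C → L, (∀ K, Sc.rd K ≠ r → s' K = s K) ∧ (∀ K, Sc.rd K = r → s' K ∈ P K) ∧
      Sc.Inj W l0 s' (r + 1) := by
  classical
  let Kk := {K : C // Sc.rd K = r}
  have hcardK : Fintype.card Kk = {K | Sc.rd K = r}.ncard := by
    rw [← Nat.card_eq_fintype_card]
    rfl
  obtain ⟨t, ht1, ht2⟩ := Sdr.lemma_sdr (fun a x => S.step (Sc.cl r) a x)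
    (fun k : Kk => Finset.univ.filter (fun T => T ∈ Sc.vis k.1))
    (fun k T => Sc.om W l0 s k.1 T) (fun k T => Sc.pi W l0 s k.1 T) (fun k => P k.1)
    (2 ^ Fintype.card B) ell lam hl Nat.one_le_two_pow
    (by rw [Fintype.card_finset])
    (by
      intro T w
      refine le_trans ?_ (hload T w)
      rw [← Set.ncard_coe_finset]
      refine (Set.ncard_image_of_injective _ Subtype.val_injective).symm.le.trans ?_
      refine Set.ncard_le_ncard ?_ (Set.toFinite _)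
      rintro _ ⟨k, hk, rfl⟩
      have hk' := (Finset.mem_filter.1 (Finset.mem_coe.1 hk)).2
      exact ⟨k.2, (Finset.mem_filter.1 hk'.1).2, hk'.2⟩)
    (fun k => hP k.1 k.2)
    (mix_of_gap hl hG (Sc.cl r))
    (by rw [hcardK]; exact hK)
    (by
      have : (((2 ^ Fintype.card B : ℕ)) : ℝ) = (2 : ℝ) ^ Fintype.card B := by push_cast; rfl
      rw [this]
      exact hlam)
  let s' : C → L := fun K => if h : Sc.rd K = r then t ⟨K, h⟩ else s K
  have hs1 : ∀ K, Sc.rd K ≠ r → s' K = s K := fun K h => dif_neg h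
  have hs2 : ∀ (K : C) (h : Sc.rd K = r), s' K = t ⟨K, h⟩ := fun K h => dif_pos h
  have hs3 : ∀ u, Sc.rd u < r → s u = s' u := fun u hu => (hs1 u hu.ne).symm
  refine ⟨s', hs1, fun K h => by rw [hs2 K h]; exact ht1 ⟨K, h⟩, ?_⟩
  intro K K' h1 h2 hne T hT hT'
  rcases Nat.lt_succ_iff_lt_or_eq.1 h1 with h | h
  · exact hV.inj_congr W l0 hs3 hi K K' h h2 hne T hT hT'
  · have h' : Sc.rd K' = r := h2 ▸ h
    have a1 : ∀ u, Sc.rd u < Sc.st K → s u = s' u := fun u hu =>
      hs3 u (lt_of_lt_of_le hu ((hV.st_le K).trans h.le))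
    have a2 : ∀ u, Sc.rd u < Sc.st K' → s u = s' u := fun u hu =>
      hs3 u (lt_of_lt_of_le hu ((hV.st_le K').trans h'.le))
    have h3 := ht2 T ⟨K, h⟩ ⟨K', h'⟩ (fun e => hne (congrArg Subtype.val e))
      (Finset.mem_filter.2 ⟨Finset.mem_univ _, hT⟩) (Finset.mem_filter.2 ⟨Finset.mem_univ _, hT'⟩)
    rw [← hV.tgt_congr W l0 K T _ a1, ← hV.tgt_congr W l0 K' T _ a2, hs2 K h, hs2 K' h']
    unfold tgt
    rw [h, h']
    exact h3

end Scheme

end Pool.Agent.SRL
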