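import Pool.Agent.SRL.Defs

/-!
Words in a cube system (universal cover): every family of words, one word for each class, has a
state, and the letters at that state are transported from the root.
-/

set_option autoImplicit false

namespace Pool.Agent.SRL

namespace Words

variable {B L X : Type} [DecidableEq B]

/-- Transport along a letter as a permutation of the letters. -/
def trP (S : CS B L X) (b e : B) (a : L) : Equiv.Perm L :=
  if h : b ≠ e then
    { toFun := S.tr b e a
      invFun := S.tr b e (S.inv b a)
      left_inv := fun x => S.tr_inv b e a x h
      right_inv := fun x => by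
        have := S.tr_inv b e (S.inv b a) x h
        rwa [S.inv_inv] at this }
  else 1

theorem trP_apply (S : CS B L X) {b e : B} (h : b ≠ e) (a x : L) : trP S b e a x = S.tr b e a x := by
  unfold trP
  rw [dif_pos h]
  rfl

open Classical in
/-- state and letters, recursion on the total length -/
noncomputable def core (S : CS B L X) (root : X) :
    ℕ → (B → List L) → X × (B → Equiv.Perm L)
  | 0, _ => (root, fun _ => 1)
  | n + 1, w =>
    (if h : ∃ p : B × L × List L, w p.1 = p.2.1 :: p.2.2 then
      S.step h.choose.1 ((core S root n (Function.update w h.choose.1 h.choose.2.2)).2 h.choose.1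
        h.choose.2.1) (core S root n (Function.update w h.choose.1 h.choose.2.2)).1
      else root,
     fun e => if h : ∃ p : B × L × List L, p.1 ≠ e ∧ w p.1 = p.2.1 :: p.2.2 then
      trP S h.choose.1 e ((core S root n (Function.update w h.choose.1 h.choose.2.2)).2 h.choose.1
        h.choose.2.1) * (core S root n (Function.update w h.choose.1 h.choose.2.2)).2 e
      else 1)

variable [Fintype B]

/-- total length -/
def tl (w : B → List L) : ℕ := ∑ b, (w b).length

theorem tl_cons (w : B → List L) (b : B) (s : L) :
    tl (Function.update w b (s :: w b)) = tl w + 1 := by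
  unfold tl
  have h1 : ∀ c, (Function.update w b (s :: w b) c).length = (w c).length + if c = b then 1 else 0 := by
    intro c
    by_cases h : c = b
    · subst h
      rw [Function.update_self, if_pos rfl, List.length_cons]
    · rw [Function.update_of_ne h, if_neg h, add_zero]
  rw [Finset.sum_congr rfl fun c _ => h1 c, Finset.sum_add_distrib, Finset.sum_ite_eq' Finset.univ b]
  simp

theorem tl_tail (w : B → List L) (b : B) (s : L) (u : List L) (h : w b = s :: u) :
    tl w = tl (Function.update w b u) + 1 := by
  have h1 := tl_cons (Function.update w b u) b s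
  rw [Function.update_self, Function.update_idem] at h1
  rw [← h1]
  congr 1
  rw [← h, Function.update_eq_self]

theorem core_cons (S : CS B L X) (root : X) (n : ℕ) : ∀ w : B → List L, tl w = n → ∀ (b : B) (s : L),
    (core S root (n + 1) (Function.update w b (s :: w b))).1 =
      S.step b ((core S root n w).2 b s) (core S root n w).1 ∧
    ∀ e, b ≠ e → (core S root (n + 1) (Function.update w b (s :: w b))).2 e =
      trP S b e ((core S root n w).2 b s) * (core S root n w).2 e := by
  induction n with
  | zero =>
    intro w hw b s
    have hw0 : ∀ c, w c = [] := by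
      intro c
      have h1 := (Finset.sum_eq_zero_iff.1 hw) c (Finset.mem_univ c)
      exact List.length_eq_zero_iff.1 h1
    set w' := Function.update w b (s :: w b) with hw'
    have key : ∀ p : B × L × List L, w' p.1 = p.2.1 :: p.2.2 → p.1 = b ∧ p.2.1 = s ∧ p.2.2 = w b := by
      rintro ⟨c, t, u⟩ h
      by_cases hc : c = b
      · subst hc
        rw [hw', Function.update_self] at h
        have h2 := List.cons.inj h
        exact ⟨rfl, h2.1.symm, h2.2.symm⟩
      · exfalso
        rw [hw', Function.update_of_ne hc, hw0 c] at h
        exact absurd h (by simp)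
    constructor
    · have hex : ∃ p : B × L × List L, w' p.1 = p.2.1 :: p.2.2 :=
        ⟨(b, s, w b), by rw [hw', Function.update_self]⟩
      obtain ⟨h1, h2, h3⟩ := key _ hex.choose_spec
      unfold core
      simp only
      rw [dif_pos hex]
      unfold core
      simp only [h1, h2, Equiv.Perm.coe_one, id_eq]
    · intro e hbe
      have hex : ∃ p : B × L × List L, p.1 ≠ e ∧ w' p.1 = p.2.1 :: p.2.2 :=
        ⟨(b, s, w b), hbe, by rw [hw', Function.update_self]⟩
      obtain ⟨h1, h2, h3⟩ := key _ hex.choose_spec.2
      unfold core
      simp only
      rw [dif_pos hex]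
      unfold core
      simp only [h1, h2, Equiv.Perm.coe_one, id_eq]
  | succ n ih =>
    intro w hw b s
    set w' := Function.update w b (s :: w b) with hw'
    -- a letter of another class
    have key : ∀ p : B × L × List L, w' p.1 = p.2.1 :: p.2.2 → p.1 ≠ b →
        ∃ w'' : B → List L, tl w'' = n ∧ w = Function.update w'' p.1 (p.2.1 :: w'' p.1) ∧
          Function.update w' p.1 p.2.2 = Function.update w'' b (s :: w'' b) := by
      rintro ⟨c, t, u⟩ h hc
      rw [hw', Function.update_of_ne hc] at h
      refine ⟨Function.update w c u, ?_, ?_, ?_⟩
      · have := tl_tail w c t u h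
        omega
      · show w = Function.update (Function.update w c u) c (t :: Function.update w c u c)
        rw [Function.update_self, Function.update_idem, ← h, Function.update_eq_self]
      · show Function.update w' c u = Function.update (Function.update w c u) b
          (s :: Function.update w c u b)
        rw [Function.update_of_ne (Ne.symm hc), hw', Function.update_comm hc]
    have same : ∀ p : B × L × List L, w' p.1 = p.2.1 :: p.2.2 → p.1 = b →
        p.2.1 = s ∧ Function.update w' p.1 p.2.2 = w := by
      rintro ⟨c, t, u⟩ h hc
      subst hc
      rw [hw', Function.update_self] at h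
      have h2 := List.cons.inj h
      refine ⟨h2.1.symm, ?_⟩
      have h3 : w c = u := h2.2
      show Function.update w' c u = w
      rw [← h3, hw', Function.update_idem, Function.update_eq_self]
    constructor
    · have hex : ∃ p : B × L × List L, w' p.1 = p.2.1 :: p.2.2 :=
        ⟨(b, s, w b), by rw [hw', Function.update_self]⟩
      have hsp := hex.choose_spec
      have hL : (core S root (n + 1 + 1) w').1 =
          S.step hex.choose.1 ((core S root (n + 1) (Function.update w' hex.choose.1
            hex.choose.2.2)).2 hex.choose.1 hex.choose.2.1)
            (core S root (n + 1) (Function.update w' hex.choose.1 hex.choose.2.2)).1 := by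
        rw [core]
        simp only
        rw [dif_pos hex]
      rw [hL]
      generalize hex.choose = p at hsp
      by_cases hp : p.1 = b
      · obtain ⟨h1, h2⟩ := same p hsp hp
        rw [h1, h2, hp]
      · obtain ⟨w'', h1, h2, h3⟩ := key p hsp hp
        rw [h3, h2]
        obtain ⟨i1, i2⟩ := ih w'' h1 b s
        obtain ⟨j1, j2⟩ := ih w'' h1 p.1 p.2.1
        rw [i1, i2 p.1 (Ne.symm hp), j1, j2 b hp, Equiv.Perm.mul_apply, Equiv.Perm.mul_apply,
          trP_apply S (Ne.symm hp), trP_apply S hp]
        exact S.sq b p.1 _ _ _ (Ne.symm hp)
    · intro e hbe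
      have hex : ∃ p : B × L × List L, p.1 ≠ e ∧ w' p.1 = p.2.1 :: p.2.2 :=
        ⟨(b, s, w b), hbe, by rw [hw', Function.update_self]⟩
      have hsp := hex.choose_spec
      have hL : (core S root (n + 1 + 1) w').2 e =
          trP S hex.choose.1 e ((core S root (n + 1) (Function.update w' hex.choose.1
            hex.choose.2.2)).2 hex.choose.1 hex.choose.2.1) *
            (core S root (n + 1) (Function.update w' hex.choose.1 hex.choose.2.2)).2 e := by
        rw [core]
        simp only
        rw [dif_pos hex]
      rw [hL]
      generalize hex.choose = p at hsp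
      by_cases hp : p.1 = b
      · obtain ⟨h1, h2⟩ := same p hsp.2 hp
        rw [h1, h2, hp]
      · obtain ⟨w'', h1, h2, h3⟩ := key p hsp.2 hp
        rw [h3, h2]
        obtain ⟨i1, i2⟩ := ih w'' h1 b s
        obtain ⟨j1, j2⟩ := ih w'' h1 p.1 p.2.1
        rw [i2 p.1 (Ne.symm hp), i2 e hbe, j2 b hp, j2 e hsp.1]
        ext x
        simp only [Equiv.Perm.mul_apply]
        rw [trP_apply S hsp.1, trP_apply S hbe, trP_apply S hbe, trP_apply S hsp.1,
          trP_apply S (Ne.symm hp), trP_apply S hp]
        exact S.cube b p.1 e _ _ _ (Ne.symm hp) hsp.1 hbe

end Words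

/-- **Words.** -/
theorem exists_words {B L X : Type} [DecidableEq B] [Fintype B] (S : CS B L X) (root : X) :
    ∃ (state : (B → List L) → X) (sigma : (B → List L) → B → Equiv.Perm L),
      state (fun _ => []) = root ∧
      (∀ (w : B → List L) (b : B) (s : L),
        state (Function.update w b (s :: w b)) = S.step b (sigma w b s) (state w)) ∧
      (∀ (w : B → List L) (b c : B) (s t : L), b ≠ c →
        sigma (Function.update w b (s :: w b)) c t = S.tr b c (sigma w b s) (sigma w c t)) := by
  refine ⟨fun w => (Words.core S root (Words.tl w) w).1,
    fun w b => (Words.core S root (Words.tl w) w).2 b, ?_, ?_, ?_⟩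
  · have h : Words.tl (fun _ : B => ([] : List L)) = 0 := by
      unfold Words.tl
      simp
    simp only [h]
    rfl
  · intro w b s
    simp only [Words.tl_cons]
    exact (Words.core_cons S root _ w rfl b s).1
  · intro w b c s t hbc
    simp only [Words.tl_cons]
    rw [(Words.core_cons S root _ w rfl b s).2 c hbc, Equiv.Perm.mul_apply,
      Words.trP_apply S hbc]

end Pool.Agent.SRL
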