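import Pool.Agent.SRL.Defs
import Pool.Agent.SRL.Words

/-!
Theorem D over an abstract scheme, part 1: words, pictures and the scheme (rounds instead of
levels).
-/

set_option autoImplicit false
set_option linter.unusedSectionVars false
set_option linter.unusedVariables false

namespace Pool.Agent.SRL

open Finset

/-- A word system with a given root (exists by `exists_words`). -/
structure WS {B L Om : Type} [DecidableEq B] (S : CS B L Om) (root : Om) where
  state : (B → List L) → Om
  sigma : (B → List L) → B → Equiv.Perm L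
  nil : state (fun _ => []) = root
  w1 : ∀ (w : B → List L) (b : B) (s : L),
    state (Function.update w b (s :: w b)) = S.step b (sigma w b s) (state w)
  w2 : ∀ (w : B → List L) (b c : B) (s t : L), b ≠ c →
    sigma (Function.update w b (s :: w b)) c t = S.tr b c (sigma w b s) (sigma w c t)

theorem exists_WS {B L Om : Type} [DecidableEq B] [Fintype B] (S : CS B L Om) (root : Om) :
    Nonempty (WS S root) := by
  obtain ⟨state, sigma, h0, h1, h2⟩ := exists_words S root
  exact ⟨⟨state, sigma, h0, h1, h2⟩⟩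

namespace WS

variable {B L Om : Type} [DecidableEq B] {S : CS B L Om} {root : Om} (W : WS S root)

/-- The word `w` with the letter `l b` added in every class `b` of `T`. -/
def ext (w : B → List L) (T : Finset B) (l : B → L) : B → List L :=
  fun b => if b ∈ T then l b :: w b else w b

theorem ext_empty (w : B → List L) (l : B → L) : ext w ∅ l = w := by
  funext b; simp [ext]

theorem ext_insert (w : B → List L) (T : Finset B) (l : B → L) {b : B} (hb : b ∉ T) :
    ext w (insert b T) l = Function.update (ext w T l) b (l b :: ext w T l b) := by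
  funext c
  by_cases hc : c = b
  · subst hc; simp [ext, hb]
  · rw [Function.update_of_ne hc]; simp [ext, hc]

/-- The picture at the word `w` with the letters `l`. -/
def pic (w : B → List L) (l : B → L) : St B L Om := (W.state w, fun b => W.sigma w b (l b))

/-- Corners of a picture. -/
theorem flip_pic (w : B → List L) (l : B → L) (T : Finset B) :
    (S.flipSet T (W.pic w l)).1 = W.state (ext w T l) ∧
      ∀ c, c ∉ T → (S.flipSet T (W.pic w l)).2 c = W.sigma (ext w T l) c (l c) := by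
  induction T using Finset.induction_on with
  | empty =>
    rw [S.flipSet_empty, ext_empty]
    exact ⟨rfl, fun c _ => rfl⟩
  | insert b T hb ih =>
    obtain ⟨i1, i2⟩ := ih
    rw [S.flipSet_insert hb, ext_insert w T l hb]
    constructor
    · rw [W.w1, ← i1, ← i2 b hb]
      rfl
    · intro c hc
      have hcb : c ≠ b := fun h => hc (h ▸ Finset.mem_insert_self _ _)
      have hcT : c ∉ T := fun h => hc (Finset.mem_insert_of_mem h)
      have : ((S.flipPerm b * S.flipSet T) (W.pic w l)).2 c =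
          S.tr b c ((S.flipSet T (W.pic w l)).2 b) ((S.flipSet T (W.pic w l)).2 c) := by
        show (S.flip b _).2 c = _
        simp [CS.flip, hcb]
      rw [this, i2 b hb, i2 c hcT]
      have h1 : ext w T l b = w b := by simp [ext, hb]
      exact (W.w2 _ b c (l b) (l c) (Ne.symm hcb)).symm

end WS

/-! ### Dependence of corners on the letters -/

theorem CS.flipSet_congr {B L Om : Type} [DecidableEq B] (S : CS B L Om) (T : Finset B) (x : Om)
    (φ φ' : B → L) (h : ∀ b ∈ T, φ b = φ' b) :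
    (S.flipSet T (x, φ)).1 = (S.flipSet T (x, φ')).1 ∧
      ∀ c, φ c = φ' c → (S.flipSet T (x, φ)).2 c = (S.flipSet T (x, φ')).2 c := by
  induction T using Finset.induction_on with
  | empty =>
    rw [S.flipSet_empty]
    exact ⟨rfl, fun c hc => hc⟩
  | insert b T hb ih =>
    obtain ⟨i1, i2⟩ := ih (fun c hc => h c (Finset.mem_insert_of_mem hc))
    have hb2 := i2 b (h b (Finset.mem_insert_self _ _))
    rw [S.flipSet_insert hb]
    constructor
    · show (S.flip b _).1 = (S.flip b _).1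
      simp only [CS.flip]
      rw [hb2, i1]
    · intro c hc
      show (S.flip b _).2 c = (S.flip b _).2 c
      simp only [CS.flip]
      by_cases hcb : c = b
      · subst hcb; simp [hb2]
      · simp only [if_neg hcb]
        rw [hb2, i2 c hc]

/-! ### The scheme -/

/-- The combinatorial scheme of a hierarchical disc. Time runs over rounds; in the round `r` the
letters of the cubes `K` with `rd K = r` are chosen, they all have the class `cl r`. The picture of
the cube `K` is complete at the stage `st K ≤ rd K`. `ap r c` is the cube of the round `r` whose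
letter moves the cell `c`. -/
structure Scheme (B C Cell : Type) where
  cl : ℕ → B
  R : ℕ
  st : C → ℕ
  rd : C → ℕ
  mem : C → Cell → Prop
  ap : ℕ → Cell → Option C

namespace Scheme

variable {B C Cell L Om : Type} [DecidableEq B] (Sc : Scheme B C Cell)

/-- All cells of `K` are moved by `u` in the round `r`. -/
def Full (K : C) (r : ℕ) (u : C) : Prop := ∀ c, Sc.mem K c → Sc.ap r c = some u

/-- Some but not all cells of `K` are moved by `u` in the round `r`. -/
def Leaf (K : C) (r : ℕ) (u : C) : Prop :=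
  (∃ c, Sc.mem K c ∧ Sc.ap r c = some u) ∧ ∃ c, Sc.mem K c ∧ Sc.ap r c ≠ some u

/-- Two cubes meet. -/
def Meet (K K' : C) : Prop := ∃ c, Sc.mem K c ∧ Sc.mem K' c

/-- The axioms (except the counts). -/
structure Valid (win : ℕ) : Prop where
  win_pos : 0 < win
  ap_rd : ∀ r c u, Sc.ap r c = some u → Sc.rd u = r ∧ Sc.mem u c ∧ r < Sc.R
  st_le : ∀ K, Sc.st K ≤ Sc.rd K
  rd_lt : ∀ K, Sc.rd K < Sc.R → Sc.rd K < Sc.st K + win
  dich : ∀ K, Sc.rd K < Sc.R ∨ Sc.st K = Sc.R
  ne : ∀ K, ∃ c, Sc.mem K c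
  uniq : ∀ K c c' r u u', Sc.mem K c → Sc.mem K c' → r < Sc.st K → Sc.ap r c = some u →
    Sc.ap r c' = some u' → u = u'
  cls : ∀ K r u, r < Sc.st K → Sc.Leaf K r u → Sc.rd K < Sc.R → Sc.cl r ≠ Sc.cl (Sc.rd K)
  app : ∀ K r v, Sc.Leaf K r v → ∀ r' c u, r < r' → r' < Sc.st K → Sc.mem K c →
    Sc.ap r' c = some u → Sc.cl r ≠ Sc.cl r'
  quiet : ∀ c u r, Sc.ap (Sc.rd u) c = some u → Sc.st u ≤ r → r < Sc.rd u → Sc.ap r c = none
  full : ∀ K, win ≤ Sc.st K → ∃ r u, Sc.st K ≤ r + win ∧ r < Sc.st K ∧ Sc.Full K r u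
  prof : ∀ K K', Sc.Meet K K' → Sc.st K ≤ Sc.st K' → ∀ c1, Sc.mem K' c1 →
    ∃ c2, Sc.mem K c2 ∧ ∀ r, r < Sc.st K → Sc.ap r c2 = Sc.ap r c1
  anc : ∀ K', win ≤ Sc.st K' → ∃ K, Sc.st K + win = Sc.st K' ∧ Sc.Meet K K'
  fin : ∀ c, ∃ K, Sc.st K = Sc.R ∧ Sc.mem K c

/-- The counts. -/
structure Counts [Fintype C] [Fintype Cell] (win M : ℕ) : Prop where
  one_le : 1 ≤ M
  cnt1 : ∀ u, {K | Sc.rd u < Sc.st K ∧ Sc.st K ≤ Sc.rd u + win ∧ Sc.Meet u K}.ncard ≤ M
  cnt0 : {K | Sc.st K < win}.ncard ≤ M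
  cell1 : ∀ u, Sc.R ≤ Sc.rd u + win → {c | Sc.mem u c}.ncard ≤ M
  cell0 : Sc.R < win → Fintype.card Cell ≤ M

variable {Sc}

theorem Valid.st_le_R {win : ℕ} (hV : Sc.Valid win) (K : C) : Sc.st K ≤ Sc.R := by
  rcases hV.dich K with h | h
  · exact (hV.st_le K).trans h.le
  · exact h.le

theorem Valid.full_uniq {win : ℕ} (hV : Sc.Valid win) {K : C} {r : ℕ} {u u' : C}
    (h : Sc.Full K r u) (h' : Sc.Full K r u') : u = u' := by
  obtain ⟨c, hc⟩ := hV.ne K
  have := (h c hc).symm.trans (h' c hc)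
  exact Option.some.inj this

theorem Valid.full_leaf {win : ℕ} (hV : Sc.Valid win) {K : C} {r : ℕ} {u u' : C}
    (hr : r < Sc.st K) (h : Sc.Full K r u) (h' : Sc.Leaf K r u') : False := by
  obtain ⟨⟨c, hc, hcu⟩, c', hc', hcu'⟩ := h'
  have h1 := hV.uniq K c c r u u' hc hc hr (h c hc) hcu
  subst h1
  exact hcu' (h c' hc')

theorem Valid.leaf_uniq {win : ℕ} (hV : Sc.Valid win) {K : C} {r : ℕ} {u u' : C}
    (hr : r < Sc.st K) (h : Sc.Leaf K r u) (h' : Sc.Leaf K r u') : u = u' := by
  obtain ⟨⟨c, hc, hcu⟩, _⟩ := h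
  obtain ⟨⟨c', hc', hcu'⟩, _⟩ := h'
  exact hV.uniq K c c' r u u' hc hc' hr hcu hcu'

/-- A cube seen in a round: full or leaf. -/
theorem full_or_leaf {K : C} {r : ℕ} {u : C} {c : Cell} (hc : Sc.mem K c)
    (h : Sc.ap r c = some u) : Sc.Full K r u ∨ Sc.Leaf K r u := by
  classical
  by_cases hf : Sc.Full K r u
  · exact Or.inl hf
  · right
    refine ⟨⟨c, hc, h⟩, ?_⟩
    unfold Full at hf
    push Not at hf
    exact hf

variable (Sc)

open Classical in
/-- profile of the full cubes -/
noncomputable def fullP (K : C) : ℕ → Option C := fun r =>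
  if h : ∃ u, Sc.Full K r u then some h.choose else none

theorem fullP_some {win : ℕ} (hV : Sc.Valid win) {K : C} {r : ℕ} {u : C} :
    Sc.fullP K r = some u ↔ Sc.Full K r u := by
  unfold fullP
  constructor
  · intro h
    split_ifs at h with h1
    rw [← Option.some.inj h]
    exact h1.choose_spec
  · intro h
    have h1 : ∃ u, Sc.Full K r u := ⟨u, h⟩
    rw [dif_pos h1]
    exact congrArg some (hV.full_uniq h1.choose_spec h)

/-- The word of a profile: the letters of the rounds `< r`. -/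
def word (s : C → L) (q : ℕ → Option C) : ℕ → (B → List L)
  | 0 => fun _ => []
  | r + 1 => (q r).elim (word s q r)
      (fun u => Function.update (word s q r) (Sc.cl r) (s u :: word s q r (Sc.cl r)))

theorem word_zero (s : C → L) (q : ℕ → Option C) : Sc.word s q 0 = fun _ => [] := rfl

theorem word_succ_none (s : C → L) (q : ℕ → Option C) (r : ℕ) (h : q r = none) :
    Sc.word s q (r + 1) = Sc.word s q r := by
  simp [word, h]

theorem word_succ_some (s : C → L) (q : ℕ → Option C) (r : ℕ) (u : C) (h : q r = some u) :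
    Sc.word s q (r + 1) =
      Function.update (Sc.word s q r) (Sc.cl r) (s u :: Sc.word s q r (Sc.cl r)) := by
  simp [word, h]

theorem word_congr (s s' : C → L) (q q' : ℕ → Option C) (r : ℕ) (hq : ∀ i, i < r → q i = q' i)
    (hs : ∀ i u, i < r → q i = some u → s u = s' u) : Sc.word s q r = Sc.word s' q' r := by
  induction r with
  | zero => rfl
  | succ r ih =>
    have ih' := ih (fun i hi => hq i (by omega)) (fun i u hi => hs i u (by omega))
    cases hqr : q r with
    | none =>
      rw [Sc.word_succ_none s q r hqr, Sc.word_succ_none s' q' r (by rw [← hq r (by omega), hqr]), ih']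
    | some u =>
      rw [Sc.word_succ_some s q r u hqr,
        Sc.word_succ_some s' q' r u (by rw [← hq r (by omega), hqr]), ih', hs r u (by omega) hqr]

open Classical in
/-- letters of the leaves of the rounds `< r` -/
noncomputable def lt (l0 : L) (s : C → L) (K : C) : ℕ → (B → L)
  | 0 => fun _ => l0
  | r + 1 => if h : ∃ u, Sc.Leaf K r u then Function.update (lt l0 s K r) (Sc.cl r) (s h.choose)
      else lt l0 s K r

open Classical in
/-- classes of the leaves of the rounds `< r` -/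
noncomputable def ls (K : C) : ℕ → Finset B
  | 0 => ∅
  | r + 1 => if ∃ u, Sc.Leaf K r u then insert (Sc.cl r) (ls K r) else ls K r

open Classical in
/-- classes of the leaves of `K` in the rounds `< r` which occur in the profile `q` -/
noncomputable def lab (K : C) (q : ℕ → Option C) : ℕ → Finset B
  | 0 => ∅
  | r + 1 => if ∃ u, Sc.Leaf K r u ∧ q r = some u then insert (Sc.cl r) (lab K q r) else lab K q r

variable {Sc}

theorem lt_leaf {win : ℕ} (hV : Sc.Valid win) (l0 : L) (s : C → L) {K : C} {r : ℕ} {u : C}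
    (hr : r < Sc.st K) (h : Sc.Leaf K r u) :
    Sc.lt l0 s K (r + 1) = Function.update (Sc.lt l0 s K r) (Sc.cl r) (s u) := by
  have h1 : ∃ u, Sc.Leaf K r u := ⟨u, h⟩
  rw [lt, dif_pos h1, hV.leaf_uniq hr h1.choose_spec h]

theorem lt_not {l0 : L} {s : C → L} {K : C} {r : ℕ} (h : ¬ ∃ u, Sc.Leaf K r u) :
    Sc.lt l0 s K (r + 1) = Sc.lt l0 s K r := by
  rw [lt, dif_neg h]

theorem ls_leaf {K : C} {r : ℕ} {u : C} (h : Sc.Leaf K r u) :
    Sc.ls K (r + 1) = insert (Sc.cl r) (Sc.ls K r) := by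
  rw [ls, if_pos ⟨u, h⟩]

theorem ls_not {K : C} {r : ℕ} (h : ¬ ∃ u, Sc.Leaf K r u) : Sc.ls K (r + 1) = Sc.ls K r := by
  rw [ls, if_neg h]

theorem lab_leaf {K : C} {q : ℕ → Option C} {r : ℕ} {u : C} (h : Sc.Leaf K r u)
    (hq : q r = some u) : Sc.lab K q (r + 1) = insert (Sc.cl r) (Sc.lab K q r) := by
  rw [lab, if_pos ⟨u, h, hq⟩]

theorem lab_not {K : C} {q : ℕ → Option C} {r : ℕ} (h : ¬ ∃ u, Sc.Leaf K r u ∧ q r = some u) :
    Sc.lab K q (r + 1) = Sc.lab K q r := by
  rw [lab, if_neg h]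

theorem mem_ls {K : C} {r : ℕ} {b : B} :
    b ∈ Sc.ls K r ↔ ∃ i u, i < r ∧ Sc.Leaf K i u ∧ Sc.cl i = b := by
  induction r with
  | zero => simp [ls]
  | succ r ih =>
    by_cases h : ∃ u, Sc.Leaf K r u
    · obtain ⟨u, hu⟩ := h
      rw [ls_leaf hu, Finset.mem_insert, ih]
      constructor
      · rintro (h | ⟨i, u', hi, h1, h2⟩)
        · exact ⟨r, u, by omega, hu, h.symm⟩
        · exact ⟨i, u', by omega, h1, h2⟩
      · rintro ⟨i, u', hi, h1, h2⟩
        by_cases hir : i = r
        · subst hir; exact Or.inl h2.symm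
        · exact Or.inr ⟨i, u', by omega, h1, h2⟩
    · rw [ls_not h, ih]
      constructor
      · rintro ⟨i, u', hi, h1, h2⟩
        exact ⟨i, u', by omega, h1, h2⟩
      · rintro ⟨i, u', hi, h1, h2⟩
        by_cases hir : i = r
        · subst hir; exact absurd ⟨u', h1⟩ h
        · exact ⟨i, u', by omega, h1, h2⟩

theorem mem_lab {K : C} {q : ℕ → Option C} {r : ℕ} {b : B} :
    b ∈ Sc.lab K q r ↔ ∃ i u, i < r ∧ Sc.Leaf K i u ∧ q i = some u ∧ Sc.cl i = b := by
  induction r with
  | zero => simp [lab]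
  | succ r ih =>
    by_cases h : ∃ u, Sc.Leaf K r u ∧ q r = some u
    · obtain ⟨u, hu, hq⟩ := h
      rw [lab_leaf hu hq, Finset.mem_insert, ih]
      constructor
      · rintro (h | ⟨i, u', hi, h1, h2⟩)
        · exact ⟨r, u, by omega, hu, hq, h.symm⟩
        · exact ⟨i, u', by omega, h1, h2⟩
      · rintro ⟨i, u', hi, h1, h2, h3⟩
        by_cases hir : i = r
        · subst hir; exact Or.inl h3.symm
        · exact Or.inr ⟨i, u', by omega, h1, h2, h3⟩
    · rw [lab_not h, ih]
      constructor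
      · rintro ⟨i, u', hi, h1, h2⟩
        exact ⟨i, u', by omega, h1, h2⟩
      · rintro ⟨i, u', hi, h1, h2⟩
        by_cases hir : i = r
        · subst hir; exact absurd ⟨u', h1, h2.1⟩ h
        · exact ⟨i, u', by omega, h1, h2⟩

theorem lab_subset {K : C} {q : ℕ → Option C} {r : ℕ} : Sc.lab K q r ⊆ Sc.ls K r := by
  intro b hb
  obtain ⟨i, u, h1, h2, h3, h4⟩ := mem_lab.1 hb
  exact mem_ls.2 ⟨i, u, h1, h2, h4⟩

theorem lab_congr {K : C} {q q' : ℕ → Option C} {r : ℕ} (h : ∀ i, i < r → q i = q' i) :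
    Sc.lab K q r = Sc.lab K q' r := by
  ext b
  rw [mem_lab, mem_lab]
  constructor
  · rintro ⟨i, u, h1, h2, h3, h4⟩
    exact ⟨i, u, h1, h2, by rw [← h i h1]; exact h3, h4⟩
  · rintro ⟨i, u, h1, h2, h3, h4⟩
    exact ⟨i, u, h1, h2, by rw [h i h1]; exact h3, h4⟩

/-- classes of the earlier leaves differ from the class of a round in which `K` sees a cube -/
theorem Valid.cl_notMem {win : ℕ} (hV : Sc.Valid win) {K : C} {r : ℕ} {u : C} {c : Cell}
    (hr : r < Sc.st K) (hc : Sc.mem K c) (h : Sc.ap r c = some u) : Sc.cl r ∉ Sc.ls K r := by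
  intro hb
  obtain ⟨i, v, h1, h2, h3⟩ := mem_ls.1 hb
  exact hV.app K i v h2 r c u h1 hr hc h h3

/-- A profile that is compatible with the view of `K`. -/
def Comp (Sc : Scheme B C Cell) (K : C) (q : ℕ → Option C) : Prop :=
  ∀ r, r < Sc.st K → (∀ u, Sc.Full K r u → q r = some u) ∧
    ∀ u, q r = some u → Sc.Full K r u ∨ Sc.Leaf K r u

theorem comp_cell {K : C} {c : Cell} (hc : Sc.mem K c) : Sc.Comp K (fun r => Sc.ap r c) :=
  fun _ _ => ⟨fun _ h => h c hc, fun _ h => full_or_leaf hc h⟩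

theorem Valid.full_mono {win : ℕ} (hV : Sc.Valid win) {K K' : C} (hm : Sc.Meet K K')
    (hst : Sc.st K ≤ Sc.st K') {r : ℕ} (hr : r < Sc.st K) {u : C} (h : Sc.Full K r u) :
    Sc.Full K' r u := by
  intro c1 hc1
  obtain ⟨c2, hc2, h2⟩ := hV.prof K K' hm hst c1 hc1
  rw [← h2 r hr]
  exact h c2 hc2

theorem Valid.leaf_mono {win : ℕ} (hV : Sc.Valid win) {K K' : C} (hm : Sc.Meet K K')
    (hst : Sc.st K ≤ Sc.st K') {r : ℕ} (hr : r < Sc.st K) {u : C} (h : Sc.Leaf K' r u) :
    Sc.Leaf K r u := by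
  obtain ⟨⟨c, hc, hcu⟩, c', hc', hcu'⟩ := h
  obtain ⟨c2, hc2, h2⟩ := hV.prof K K' hm hst c hc
  obtain ⟨c3, hc3, h3⟩ := hV.prof K K' hm hst c' hc'
  exact ⟨⟨c2, hc2, by rw [h2 r hr]; exact hcu⟩, c3, hc3, by rw [h3 r hr]; exact hcu'⟩

theorem Valid.comp_full {win : ℕ} (hV : Sc.Valid win) {K K' : C} (hm : Sc.Meet K K')
    (hst : Sc.st K ≤ Sc.st K') : Sc.Comp K (Sc.fullP K') := by
  intro r hr
  refine ⟨fun u hu => (Sc.fullP_some hV).2 (hV.full_mono hm hst hr hu), fun u hu => ?_⟩
  have hu' := (Sc.fullP_some hV).1 hu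
  obtain ⟨c1, hc1⟩ := hV.ne K'
  obtain ⟨c2, hc2, h2⟩ := hV.prof K K' hm hst c1 hc1
  exact full_or_leaf hc2 (by rw [h2 r hr]; exact hu' c1 hc1)

/-- **The word of a compatible profile.** -/
theorem Valid.word_ext {win : ℕ} (hV : Sc.Valid win) (l0 : L) (s : C → L) {K : C}
    {q : ℕ → Option C} (hq : Sc.Comp K q) : ∀ r, r ≤ Sc.st K →
      Sc.word s q r = WS.ext (Sc.word s (Sc.fullP K) r) (Sc.lab K q r) (Sc.lt l0 s K r) := by
  intro r
  induction r with
  | zero => intro _; funext b; simp [word, WS.ext, lab]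
  | succ r ih =>
    intro hr
    have ih := ih (by omega)
    have hrlt : r < Sc.st K := by omega
    obtain ⟨q1, q2⟩ := hq r hrlt
    by_cases hf : ∃ u, Sc.Full K r u
    · obtain ⟨u, hu⟩ := hf
      obtain ⟨c, hc⟩ := hV.ne K
      have hb : Sc.cl r ∉ Sc.ls K r := hV.cl_notMem hrlt hc (hu c hc)
      have hbl : Sc.cl r ∉ Sc.lab K q r := fun h => hb (lab_subset h)
      have hnl : ¬ ∃ u, Sc.Leaf K r u := fun ⟨u', h'⟩ => hV.full_leaf hrlt hu h'
      rw [Sc.word_succ_some s q r u (q1 u hu),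
        Sc.word_succ_some s (Sc.fullP K) r u ((Sc.fullP_some hV).2 hu),
        lab_not (fun ⟨u', h', _⟩ => hnl ⟨u', h'⟩), lt_not hnl, ih]
      funext b
      by_cases hbb : b = Sc.cl r
      · subst hbb; simp [WS.ext, hbl]
      · simp [WS.ext, hbb]
    · have hfn : Sc.fullP K r = none := by
        unfold fullP; rw [dif_neg hf]
      by_cases hl : ∃ u, Sc.Leaf K r u
      · obtain ⟨u, hu⟩ := hl
        obtain ⟨c, hc, hcu⟩ := hu.1
        have hb : Sc.cl r ∉ Sc.ls K r := hV.cl_notMem hrlt hc hcu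
        have hbl : Sc.cl r ∉ Sc.lab K q r := fun h => hb (lab_subset h)
        rw [Sc.word_succ_none s _ r hfn, lt_leaf hV l0 s hrlt hu]
        cases hqr : q r with
        | none =>
          rw [Sc.word_succ_none s q r hqr, lab_not (fun ⟨u', _, h'⟩ => by rw [hqr] at h'; simp at h'),
            ih]
          funext b
          by_cases hbb : b = Sc.cl r
          · subst hbb; simp [WS.ext, hbl]
          · simp [WS.ext, hbb]
        | some u' =>
          have hu' : u' = u := by
            rcases q2 u' hqr with h | h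
            · exact absurd ⟨u', h⟩ hf
            · exact hV.leaf_uniq hrlt h hu
          subst hu'
          rw [Sc.word_succ_some s q r u' hqr, lab_leaf hu hqr, ih]
          funext b
          by_cases hbb : b = Sc.cl r
          · subst hbb; simp [WS.ext, hbl]
          · simp [WS.ext, hbb]
      · have hqr : q r = none := by
          cases hqr : q r with
          | none => rfl
          | some u' =>
            rcases q2 u' hqr with h | h
            · exact absurd ⟨u', h⟩ hf
            · exact absurd ⟨u', h⟩ hl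
        rw [Sc.word_succ_none s q r hqr, Sc.word_succ_none s _ r hfn, lt_not hl,
          lab_not (fun ⟨u', h', _⟩ => hl ⟨u', h'⟩), ih]

/-- letters depend only on the cubes of earlier rounds -/
theorem Valid.lt_congr {win : ℕ} (hV : Sc.Valid win) (l0 : L) (s s' : C → L) (K : C) (r : ℕ)
    (hr : r ≤ Sc.st K) (hs : ∀ u, Sc.rd u < r → s u = s' u) : Sc.lt l0 s K r = Sc.lt l0 s' K r := by
  induction r with
  | zero => rfl
  | succ r ih =>
    have ih' := ih (by omega) (fun u hu => hs u (by omega))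
    by_cases h : ∃ u, Sc.Leaf K r u
    · obtain ⟨u, hu⟩ := h
      obtain ⟨c, hc, hcu⟩ := hu.1
      rw [lt_leaf hV l0 s (by omega) hu, lt_leaf hV l0 s' (by omega) hu, ih',
        hs u (by rw [(hV.ap_rd r c u hcu).1]; omega)]
    · rw [lt_not h, lt_not h, ih']

theorem Valid.fullP_rd {win : ℕ} (hV : Sc.Valid win) {K : C} {r : ℕ} {u : C}
    (h : Sc.fullP K r = some u) : Sc.rd u = r ∧ r < Sc.R ∧ Sc.Meet u K := by
  obtain ⟨c, hc⟩ := hV.ne K
  have := hV.ap_rd r c u ((Sc.fullP_some hV).1 h c hc)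
  exact ⟨this.1, this.2.2, c, this.2.1, hc⟩

/-- letters of a later view -/
theorem Valid.lt_sub {win : ℕ} (hV : Sc.Valid win) (l0 : L) (s : C → L) {K K' : C}
    (hm : Sc.Meet K K') (hst : Sc.st K ≤ Sc.st K') : ∀ r, r ≤ Sc.st K →
      ∀ b ∈ Sc.ls K' r, Sc.lt l0 s K' r b = Sc.lt l0 s K r b := by
  intro r
  induction r with
  | zero => intro _ b _; rfl
  | succ r ih =>
    intro hr b hb
    have ih := ih (by omega)
    have hrlt : r < Sc.st K := by omega
    by_cases hl' : ∃ u, Sc.Leaf K' r u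
    · obtain ⟨u, hu'⟩ := hl'
      have hu := hV.leaf_mono hm hst hrlt hu'
      rw [lt_leaf hV l0 s (by omega) hu', lt_leaf hV l0 s hrlt hu]
      by_cases hbb : b = Sc.cl r
      · subst hbb; simp
      · rw [Function.update_of_ne hbb, Function.update_of_ne hbb]
        rw [ls_leaf hu', Finset.mem_insert] at hb
        exact ih b (hb.resolve_left hbb)
    · rw [ls_not hl'] at hb
      rw [lt_not hl', ih b hb]
      by_cases hl : ∃ u, Sc.Leaf K r u
      · obtain ⟨u, hu⟩ := hl
        rw [lt_leaf hV l0 s hrlt hu]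
        have hbb : b ≠ Sc.cl r := by
          obtain ⟨i, v, h1, h2, h3⟩ := mem_ls.1 hb
          have h2' := hV.leaf_mono hm hst (by omega) h2
          obtain ⟨c, hc, hcu⟩ := hu.1
          rw [← h3]
          exact hV.app K i v h2' r c u h1 hrlt hc hcu
        rw [Function.update_of_ne hbb]
      · rw [lt_not hl]

/-- the leaves of a later view are not among the corners of the earlier one -/
theorem Valid.ls_disj {win : ℕ} (hV : Sc.Valid win) {K K' : C}
    (hm : Sc.Meet K K') (hst : Sc.st K ≤ Sc.st K') {b : B} (hb : b ∈ Sc.ls K' (Sc.st K)) :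
    b ∉ Sc.lab K (Sc.fullP K') (Sc.st K) ∧ b ∈ Sc.ls K (Sc.st K) := by
  obtain ⟨i, v, h1, h2, h3⟩ := mem_ls.1 hb
  have h2' := hV.leaf_mono hm hst h1 h2
  refine ⟨fun h => ?_, mem_ls.2 ⟨i, v, h1, h2', h3⟩⟩
  obtain ⟨j, u, j1, j2, j3, j4⟩ := mem_lab.1 h
  have j3' := (Sc.fullP_some hV).1 j3
  rcases lt_trichotomy i j with hij | hij | hij
  · obtain ⟨c, hc, hcu⟩ := j2.1
    exact hV.app K i v h2' j c u hij j1 hc hcu (h3.trans j4.symm)
  · subst hij
    exact hV.full_leaf (by omega) j3' h2
  · obtain ⟨c, hc, hcu⟩ := h2'.1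
    exact hV.app K j u j2 i c v hij h1 hc hcu (j4.trans h3.symm)

end Scheme

end Pool.Agent.SRL
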