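import Pool.Agent.SRL.Defs
import Pool.Agent.SRL.DScheme
import Pool.Agent.SRL.GeoDefs

/-!
Theorem D over the geometry of levels: words of level profiles and the statement of the process
theorem (interface between the process 3.6 and the gauge / composition part).
-/

set_option autoImplicit false
set_option linter.unusedSectionVars false
set_option linter.unusedVariables false

namespace Pool.Agent.SRL

open Finset

/-- The word of the levels `top, top - 1, ..., top - n + 1` of the profile `p` (finest level =
head of the list). -/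
def lwr {d : ℕ} {B L : Type} [DecidableEq B] (top : ℕ) (kap : ℕ → Cub d → B)
    (sL : ℕ → Cub d → L) (p : ℕ → Option (Cub d)) : ℕ → (B → List L)
  | 0 => fun _ => []
  | n + 1 => (p (top - n)).elim (lwr top kap sL p n)
      (fun u => Function.update (lwr top kap sL p n) (kap (top - n) u)
        (sL (top - n) u :: lwr top kap sL p n (kap (top - n) u)))

namespace Geo

variable {d h N n : ℕ} {B L : Type} [DecidableEq B] (E : Geo d h N n B)

/-- The word of the levels `1, ..., top` of the profile `p`. -/
def lw (sL : ℕ → Cub d → L) (p : ℕ → Option (Cub d)) : B → List L :=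
  lwr E.top E.kap sL p E.top

open Classical in
/-- The profile of the full levels (constant `some u`) of the cube of level `l` of `c`. -/
noncomputable def fullL (l : ℕ) (c : Fin d → Fin n) : ℕ → Option (Cub d) := fun j =>
  if l < j ∧ ¬ Act E.cub E.ap l c j then E.ap j c else none

end Geo

/-- Window facts: `V` is a picture (outside `BAD`) of the cube of level `l` of `c`: its state is
the state of the word of the full levels, and the letters of the visible leaves (and of the cube
itself, if `1 ≤ l`) are the raw letters `sL`. -/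
def IsWindow {d h N n : ℕ} {B L Om : Type} [DecidableEq B] (E : Geo d h N n B)
    {S : CS B L Om} {root : Om} (W : WS S root) (sL : ℕ → Cub d → L) (l : ℕ) (c : Fin d → Fin n)
    (V : St B L Om) : Prop :=
  V.1 = W.state (E.lw sL (E.fullL l c)) ∧
  (∀ j c' v, l < j → Act E.cub E.ap l c j → E.cub l c' = E.cub l c → E.ap j c' = some v →
    V.2 (E.kap j v) = W.sigma (E.lw sL (E.fullL l c)) (E.kap j v) (sL j v)) ∧
  (1 ≤ l → V.2 (E.kap l (E.cub l c)) =
    W.sigma (E.lw sL (E.fullL l c)) (E.kap l (E.cub l c)) (sL l (E.cub l c)))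

/-- The process theorem (Theorem D without the gauge). -/
def ProcessThm : Prop :=
  ∀ (d h N D : ℕ), 1 ≤ h → 1 ≤ N → 0 < D →
  ∃ (lam1 del1 c1 : ℝ) (l1 : ℕ), 0 < lam1 ∧ 0 < del1 ∧ 0 < c1 ∧
    ∀ (n : ℕ), 0 < n → ∀ (E : Geo d h N n (Fin D)) (L Om : Type) [Fintype L] [Nonempty L]
      [Fintype Om] (S : CS (Fin D) L Om) (sgn : Om → ℝ), Gap S sgn lam1 →
    ∀ BAD : Set (St (Fin D) L Om), prob BAD ≤ del1 →
    ((n : ℝ) ^ d ≤ c1 * Fintype.card Om) →
    ∃ (root : Om) (W : WS S root) (sL : ℕ → Cub d → L),
      (∀ l c, l ≤ E.top → ∃ V, V ∉ BAD ∧ IsWindow E W sL l c V) ∧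
      (∀ w : Om, {c | W.state (E.lw sL (fun j => E.ap j c)) = w}.ncard ≤ l1)

end Pool.Agent.SRL
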