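import Pool.Agent.SRL.DPic
import Pool.Agent.SRL.Process

/-!
Theorem D over an abstract scheme: the statement.
-/

set_option autoImplicit false
set_option linter.unusedSectionVars false
set_option linter.unusedVariables false

namespace Pool.Agent.SRL

open Finset

/-- Theorem D over an abstract scheme. -/
def SchemeThm : Prop :=
  ∀ (D win M : ℕ), 0 < D → 1 ≤ M →
  ∃ (lam1 del1 c1 : ℝ) (l1 : ℕ), 0 < lam1 ∧ 0 < del1 ∧ 0 < c1 ∧
    ∀ (C Cell : Type) [Fintype C] [Fintype Cell] (Sc : Scheme (Fin D) C Cell),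
      Sc.Valid win → Sc.Counts win M →
    ∀ (L Om : Type) [Fintype L] [Nonempty L] [Fintype Om] [Nonempty Om] (S : CS (Fin D) L Om)
      (sgn : Om → ℝ), Gap S sgn lam1 →
    ∀ BAD : Set (St (Fin D) L Om), prob BAD ≤ del1 →
    (∀ r, r < Sc.R → ({K | Sc.rd K = r}.ncard : ℝ) ≤ c1 * Fintype.card Om) →
    ∃ (root : Om) (W : WS S root) (s : C → L),
      (∀ K, ∃ V, V ∉ BAD ∧ V.1 = W.state (Sc.word s (Sc.fullP K) (Sc.st K)) ∧
        (∀ r u, r < Sc.st K → Sc.Leaf K r u →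
          V.2 (Sc.cl r) = W.sigma (Sc.word s (Sc.fullP K) (Sc.st K)) (Sc.cl r) (s u)) ∧
        (Sc.rd K < Sc.R → V.2 (Sc.cl (Sc.rd K)) =
          W.sigma (Sc.word s (Sc.fullP K) (Sc.st K)) (Sc.cl (Sc.rd K)) (s K))) ∧
      (∀ w : Om, {c | W.state (Sc.word s (fun r => Sc.ap r c) Sc.R) = w}.ncard ≤ l1)

end Pool.Agent.SRL
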