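import Pool.Agent.SRL.DDan
import Pool.Agent.SRL.DRound
import Pool.Agent.SRL.DLoads
import Pool.Agent.SRL.DSchemeThm

/-!
Theorem D over an abstract scheme, part 5: the process.
-/

set_option autoImplicit false
set_option linter.unusedSectionVars false
set_option linter.unusedVariables false

namespace Pool.Agent.SRL

open Finset

namespace Scheme

variable {B C Cell L Om : Type} [DecidableEq B] {Sc : Scheme B C Cell}
variable {S : CS B L Om} {root : Om} (W : WS S root) (l0 : L) (s : C → L)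

theorem lt_congr_seen {win : ℕ} (hV : Sc.Valid win) (s' : C → L) (K : C) (r : ℕ) (hr : r ≤ Sc.st K)
    (hs : ∀ i u, i < r → Sc.Leaf K i u → s u = s' u) : Sc.lt l0 s K r = Sc.lt l0 s' K r := by
  induction r with
  | zero => rfl
  | succ r ih =>
    have ih' := ih (by omega) (fun i u hi hu => hs i u (by omega) hu)
    by_cases h : ∃ u, Sc.Leaf K r u
    · obtain ⟨u, hu⟩ := h
      rw [lt_leaf hV l0 s (by omega) hu, lt_leaf hV l0 s' (by omega) hu, ih', hs r u (by omega) hu]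
    · rw [lt_not h, lt_not h, ih']

/-- The picture depends only on the letters of the cubes seen. -/
theorem V_congr_seen {win : ℕ} (hV : Sc.Valid win) (s' : C → L) (K : C) (r : ℕ)
    (hr : r ≤ Sc.st K) (hs : ∀ i u, i < r → (Sc.Full K i u ∨ Sc.Leaf K i u) → s u = s' u) :
    Sc.V W l0 s K r = Sc.V W l0 s' K r := by
  unfold V
  rw [lt_congr_seen l0 s hV s' K r hr (fun i u hi hu => hs i u hi (Or.inr hu)),
    Sc.word_congr s s' (Sc.fullP K) (Sc.fullP K) r (fun _ _ => rfl)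
      (fun i u hi hu => hs i u hi (Or.inl ((Sc.fullP_some hV).1 hu)))]

theorem lt_of_leaf {win : ℕ} (hV : Sc.Valid win) {K : C} {i : ℕ} {u : C} (hu : Sc.Leaf K i u) :
    ∀ r, i < r → r ≤ Sc.st K → Sc.lt l0 s K r (Sc.cl i) = s u := by
  intro r
  induction r with
  | zero => intro h; omega
  | succ r ih =>
    intro h1 h2
    by_cases hir : i = r
    · subst hir
      rw [lt_leaf hV l0 s (by omega) hu, Function.update_self]
    · have ih := ih (by omega) (by omega)
      by_cases hl : ∃ u, Sc.Leaf K r u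
      · obtain ⟨v, hv⟩ := hl
        obtain ⟨c, hc, hcv⟩ := hv.1
        have hne : Sc.cl i ≠ Sc.cl r := hV.app K i u hu r c v (by omega) (by omega) hc hcv
        rw [lt_leaf hV l0 s (by omega) hv, Function.update_of_ne hne, ih]
      · rw [lt_not hl, ih]

/-- The picture of `K` with the letter of `K`. -/
noncomputable def VL (K : C) (a : L) : St B L Om :=
  ((Sc.V W l0 s K (Sc.st K)).1, Function.update (Sc.V W l0 s K (Sc.st K)).2 (Sc.cl (Sc.rd K))
    (W.sigma (Sc.word s (Sc.fullP K) (Sc.st K)) (Sc.cl (Sc.rd K)) a))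

theorem VL_congr {win : ℕ} (hV : Sc.Valid win) (s' : C → L) (K : C) (a : L)
    (hs : ∀ u, Sc.rd u < Sc.st K → s u = s' u) : Sc.VL W l0 s K a = Sc.VL W l0 s' K a := by
  unfold VL
  rw [hV.V_congr W l0 s s' K (Sc.st K) le_rfl hs,
    Sc.word_congr s s' (Sc.fullP K) (Sc.fullP K) (Sc.st K) (fun _ _ => rfl)
      (fun i u hi hu => hs u (by rw [(hV.fullP_rd hu).1]; exact hi))]

variable [Fintype B] [Fintype L]

/-- The invariants after the rounds `< r`. -/
structure Inv {win : ℕ} (hV : Sc.Valid win) (W : WS S root) (l0 : L) (BAD : Set (St B L Om))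
    (θ C1 : ℝ) (s : C → L) (r : ℕ) : Prop where
  inj : Sc.Inj W l0 s r
  pot : ∀ K, r ≤ Sc.st K → Sc.st K ≤ r + win →
    Sc.pot W l0 s (ind (Sc.DD hV S BAD θ K)) K r ≤ C1 ^ (r + win - Sc.st K) * θ
  good : ∀ K, Sc.st K ≤ r → Sc.V W l0 s K (Sc.st K) ∉ Sc.DD hV S BAD θ K
  lett : ∀ K, Sc.rd K < r →
    Sc.VL W l0 s K (s K) ∉ Bx BAD (insert (Sc.cl (Sc.rd K)) (Sc.ls K (Sc.st K)))

/-- A picture with small potential is not dangerous. -/
theorem notMem_of_pot {win : ℕ} (hV : Sc.Valid win) (BAD : Set (St B L Om)) {θ C1 : ℝ}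
    (h1 : 1 ≤ C1) (hθ : 0 < θ) (h2 : C1 ^ win * θ < 1) {K : C} {r : ℕ} (hr : r = Sc.st K)
    (h : Sc.pot W l0 s (ind (Sc.DD hV S BAD θ K)) K r ≤ C1 ^ (r + win - Sc.st K) * θ) :
    Sc.V W l0 s K (Sc.st K) ∉ Sc.DD hV S BAD θ K := by
  subst hr
  intro hmem
  rw [pot_end, ind_of_mem hmem, Nat.add_sub_cancel_left] at h
  linarith

/-- A dangerous picture of a later window. -/
theorem pot_le_of_notMem {win : ℕ} (hV : Sc.Valid win) (BAD : Set (St B L Om)) {θ : ℝ} {K K' : C}
    (hm : Sc.Meet K K') (hst : Sc.st K' = Sc.st K + win)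
    (h : Sc.V W l0 s K (Sc.st K) ∉ Sc.DD hV S BAD θ K) :
    Sc.pot W l0 s (ind (Sc.DD hV S BAD θ K')) K' (Sc.st K) ≤ θ := by
  rw [hV.pot_meet W l0 s (fun c hc => (hV.DD_dep S BAD θ K').indep hc) hm (by omega)]
  by_contra hcon
  push Not at hcon
  apply h
  rw [mem_DD]
  exact Or.inr ⟨K', hm, hst, hcon⟩

/-- The bad letters of a cube are few. -/
theorem letters {win M : ℕ} [Fintype C] [Fintype Cell] [Nonempty L] (hV : Sc.Valid win)
    (hC : Sc.Counts win M) (BAD : Set (St B L Om)) {θ : ℝ} [DecidableEq C] (r : ℕ) (hrR : r < Sc.R)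
    (K : C) (hK : Sc.rd K = r) (hgood : Sc.V W l0 s K (Sc.st K) ∉ Sc.DD hV S BAD θ K) :
    ∃ P : Finset L, 3 * Fintype.card L ≤ 4 * P.card ∧ ∀ a ∈ P,
      Sc.VL W l0 s K a ∉ Bx BAD (insert (Sc.cl (Sc.rd K)) (Sc.ls K (Sc.st K))) ∧
      ∀ K', r < Sc.st K' → Sc.st K' ≤ r + win → (Sc.Full K' r K ∨ Sc.Leaf K' r K) →
        Sc.pot W l0 (Function.update s K a) (ind (Sc.DD hV S BAD θ K')) K' (r + 1) ≤
          (8 * M : ℝ) * Sc.pot W l0 s (ind (Sc.DD hV S BAD θ K')) K' r := by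
  classical
  set F : Finset C := univ.filter (fun K' => r < Sc.st K' ∧ Sc.st K' ≤ r + win ∧
    (Sc.Full K' r K ∨ Sc.Leaf K' r K)) with hF
  have hMpos : (0 : ℝ) < M := by exact_mod_cast hC.one_le
  have hFcard : (F.card : ℝ) ≤ M := by
    have h3 : F.card ≤ M := by
      have h4 := hC.cnt1 K
      refine le_trans ?_ h4
      rw [← Set.ncard_coe_finset]
      apply Set.ncard_le_ncard _ (Set.toFinite _)
      intro K' hK'
      rw [hF, Finset.mem_coe, Finset.mem_filter] at hK'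
      obtain ⟨_, h5, h6, h7⟩ := hK'
      have h8 : ∃ c, Sc.mem K' c ∧ Sc.ap r c = some K := by
        rcases h7 with h7 | h7
        · obtain ⟨c, hc⟩ := hV.ne K'
          exact ⟨c, hc, h7 c hc⟩
        · exact h7.1
      obtain ⟨c, hc, hc'⟩ := h8
      exact ⟨by omega, by omega, c, (hV.ap_rd r c K hc').2.1, hc⟩
    exact_mod_cast h3
  set bad1 : Finset L := univ.filter (fun a => Sc.VL W l0 s K a ∈
    Bx BAD (insert (Sc.cl (Sc.rd K)) (Sc.ls K (Sc.st K)))) with hbad1
  set bad2 : C → Finset L := fun K' => univ.filter (fun a =>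
    (8 * M : ℝ) * Sc.pot W l0 s (ind (Sc.DD hV S BAD θ K')) K' r <
      Sc.pot W l0 (Function.update s K a) (ind (Sc.DD hV S BAD θ K')) K' (r + 1)) with hbad2
  set P : Finset L := univ \ (bad1 ∪ F.biUnion bad2) with hP
  refine ⟨P, ?_, ?_⟩
  · -- counting
    have hb1 : (bad1.card : ℝ) ≤ Fintype.card L / 8 := by
      have h1 : Sc.V W l0 s K (Sc.st K) ∉ Sc.base BAD K := by
        intro h
        apply hgood
        rw [mem_DD]
        exact Or.inl h
      have h2 : avg (fun a : L => ind (Bx BAD (insert (Sc.cl (Sc.rd K)) (Sc.ls K (Sc.st K))))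
          ((Sc.V W l0 s K (Sc.st K)).1,
            Function.update (Sc.V W l0 s K (Sc.st K)).2 (Sc.cl (Sc.rd K)) a)) ≤ 1 / 8 := by
        by_contra hcon
        push Not at hcon
        exact h1 (Or.inl ⟨by omega, hcon⟩)
      rw [← avg_equiv (W.sigma (Sc.word s (Sc.fullP K) (Sc.st K)) (Sc.cl (Sc.rd K)))] at h2
      have h3 := card_mul_avg (fun a : L =>
        ind (Bx BAD (insert (Sc.cl (Sc.rd K)) (Sc.ls K (Sc.st K)))) (Sc.VL W l0 s K a))
      have h4 : ∑ a : L, ind (Bx BAD (insert (Sc.cl (Sc.rd K)) (Sc.ls K (Sc.st K))))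
          (Sc.VL W l0 s K a) = bad1.card := by
        unfold ind
        rw [Finset.sum_boole]
      rw [h4] at h3
      rw [← h3]
      have h5 : (0 : ℝ) ≤ Fintype.card L := Nat.cast_nonneg _
      calc (Fintype.card L : ℝ) * avg (fun a : L =>
          ind (Bx BAD (insert (Sc.cl (Sc.rd K)) (Sc.ls K (Sc.st K)))) (Sc.VL W l0 s K a))
          ≤ Fintype.card L * (1 / 8) := mul_le_mul_of_nonneg_left h2 h5
        _ = _ := by ring
    have hb2 : ∀ K' ∈ F, ((bad2 K').card : ℝ) ≤ Fintype.card L / (8 * M) := by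
      intro K' hK'
      rw [hF, Finset.mem_filter] at hK'
      obtain ⟨_, h5, h6, h7⟩ := hK'
      have h8 := hV.pot_see W l0 s (f := ind (Sc.DD hV S BAD θ K'))
        (fun c hc => (hV.DD_dep S BAD θ K').indep hc) h5 h7
      have h9 := markov_count
        (fun a : L => Sc.pot W l0 (Function.update s K a) (ind (Sc.DD hV S BAD θ K')) K' (r + 1))
        (fun a => pot_nonneg W l0 _ (ind_nonneg _) _ _) (C := 8 * M) (by positivity) (bad2 K')
        (by
          intro a ha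
          rw [hbad2] at ha
          have ha' := (Finset.mem_filter.1 ha).2
          rw [← h8]
          exact ha')
      rw [le_div_iff₀ (by positivity)]
      exact h9
    have hb3 : ((F.biUnion bad2).card : ℝ) ≤ Fintype.card L / 8 := by
      have h1 : (F.biUnion bad2).card ≤ ∑ K' ∈ F, (bad2 K').card := Finset.card_biUnion_le
      have h2 : ((F.biUnion bad2).card : ℝ) ≤ ∑ K' ∈ F, ((bad2 K').card : ℝ) := by
        exact_mod_cast h1
      refine h2.trans ?_
      have h3 : ∑ K' ∈ F, ((bad2 K').card : ℝ) ≤ F.card • (Fintype.card L / (8 * M) : ℝ) :=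
        Finset.sum_le_card_nsmul _ _ _ hb2
      rw [nsmul_eq_mul] at h3
      have h4 : (F.card : ℝ) * (Fintype.card L / (8 * M) : ℝ) ≤
          M * (Fintype.card L / (8 * M) : ℝ) :=
        mul_le_mul_of_nonneg_right hFcard (by positivity)
      have h5 : (M : ℝ) * (Fintype.card L / (8 * M) : ℝ) = Fintype.card L / 8 := by
        field_simp
      linarith
    have hPc : (Fintype.card L : ℝ) ≤ P.card + bad1.card + (F.biUnion bad2).card := by
      have h1 : Fintype.card L ≤ P.card + (bad1 ∪ F.biUnion bad2).card := by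
        rw [hP, Finset.card_sdiff_add_card_eq_card (Finset.subset_univ _), Finset.card_univ]
      have h2 := Finset.card_union_le bad1 (F.biUnion bad2)
      have h3 : Fintype.card L ≤ P.card + bad1.card + (F.biUnion bad2).card := by omega
      exact_mod_cast h3
    have : (3 * Fintype.card L : ℝ) ≤ 4 * P.card := by linarith
    exact_mod_cast this
  · intro a ha
    rw [hP, Finset.mem_sdiff, Finset.mem_union, not_or] at ha
    obtain ⟨_, ha1, ha2⟩ := ha
    refine ⟨fun h => ha1 (by rw [hbad1, Finset.mem_filter]; exact ⟨mem_univ _, h⟩), ?_⟩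
    intro K' h1 h2 h3
    by_contra hcon
    push Not at hcon
    apply ha2
    rw [Finset.mem_biUnion]
    refine ⟨K', by rw [hF, Finset.mem_filter]; exact ⟨mem_univ _, h1, h2, h3⟩, ?_⟩
    rw [hbad2]
    exact Finset.mem_filter.2 ⟨mem_univ _, hcon⟩

/-- **The step of the process.** -/
theorem step {win M : ℕ} [Fintype C] [Fintype Cell] [Nonempty L] [Fintype Om]
    (hV : Sc.Valid win) (hC : Sc.Counts win M) {sgn : Om → ℝ} {lam : ℝ} (hl : 0 ≤ lam)
    (hG : Gap S sgn lam) (BAD : Set (St B L Om)) {θ : ℝ} (hθ : 0 < θ)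
    (h2 : ((8 * M : ℕ) : ℝ) ^ win * θ < 1)
    (hK : ∀ r, r < Sc.R → 32 * 2 ^ Fintype.card B * {K | Sc.rd K = r}.ncard ≤ Fintype.card Om)
    (hlam : 32768 * ((2 : ℝ) ^ Fintype.card B) ^ 5 *
      ((2 * win * 2 ^ Fintype.card B * M + M : ℕ) : ℝ) ^ 2 * lam ^ 4 ≤ 1)
    (r : ℕ) (hr : r < Sc.R) (s : C → L) (hI : Inv hV W l0 BAD θ ((8 * M : ℕ) : ℝ) s r) :
    ∃ s', Inv hV W l0 BAD θ ((8 * M : ℕ) : ℝ) s' (r + 1) := by
  classical
  have hMpos : (1 : ℝ) ≤ M := by exact_mod_cast hC.one_le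
  have hC1 : (1 : ℝ) ≤ ((8 * M : ℕ) : ℝ) := by push_cast; linarith
  have hch : ∀ K : C, ∃ P : Finset L, Sc.rd K = r → 3 * Fintype.card L ≤ 4 * P.card ∧ ∀ a ∈ P,
      Sc.VL W l0 s K a ∉ Bx BAD (insert (Sc.cl (Sc.rd K)) (Sc.ls K (Sc.st K))) ∧
      ∀ K', r < Sc.st K' → Sc.st K' ≤ r + win → (Sc.Full K' r K ∨ Sc.Leaf K' r K) →
        Sc.pot W l0 (Function.update s K a) (ind (Sc.DD hV S BAD θ K')) K' (r + 1) ≤
          (8 * M : ℝ) * Sc.pot W l0 s (ind (Sc.DD hV S BAD θ K')) K' r := by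
    intro K
    by_cases h : Sc.rd K = r
    · obtain ⟨P, hP⟩ := letters W l0 s hV hC BAD (θ := θ) r hr K h
        (hI.good K ((hV.st_le K).trans h.le))
      exact ⟨P, fun _ => hP⟩
    · exact ⟨∅, fun h' => absurd h' h⟩
  choose P hP using hch
  obtain ⟨s', h3, h4, h5⟩ := hV.round W l0 hl hG s r hI.inj
    (2 * win * 2 ^ Fintype.card B * M + M) ((loads W l0 s hV hC r hI.inj).1 hr.le) P
    (fun K h => (hP K h).1) (hK r hr) hlam
  have hs : ∀ u, Sc.rd u < r → s u = s' u := fun u hu => (h3 u hu.ne).symm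
  -- potentials in the old windows
  have hp1 : ∀ K, r + 1 ≤ Sc.st K → Sc.st K ≤ r + win →
      Sc.pot W l0 s' (ind (Sc.DD hV S BAD θ K)) K (r + 1) ≤
        ((8 * M : ℕ) : ℝ) ^ (r + 1 + win - Sc.st K) * θ := by
    intro K k1 k2
    have hold := hI.pot K (by omega) k2
    have hexp : r + 1 + win - Sc.st K = (r + win - Sc.st K) + 1 := by omega
    rw [hexp, pow_succ]
    have hpow : 0 ≤ ((8 * M : ℕ) : ℝ) ^ (r + win - Sc.st K) * θ := by positivity
    by_cases hsee : ∃ u, Sc.Full K r u ∨ Sc.Leaf K r u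
    · obtain ⟨u, hu⟩ := hsee
      have hru : Sc.rd u = r := by
        rcases hu with hu | hu
        · obtain ⟨c, hc⟩ := hV.ne K
          exact (hV.ap_rd r c u (hu c hc)).1
        · obtain ⟨⟨c, hc, hcu⟩, _⟩ := hu
          exact (hV.ap_rd r c u hcu).1
      have hq := ((hP u hru).2 (s' u) (h4 u hru)).2 K (by omega) k2 hu
      have heq : Sc.pot W l0 (Function.update s u (s' u)) (ind (Sc.DD hV S BAD θ K)) K (r + 1) =
          Sc.pot W l0 s' (ind (Sc.DD hV S BAD θ K)) K (r + 1) := by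
        unfold Scheme.pot
        rw [V_congr_seen W l0 (Function.update s u (s' u)) hV s' K (r + 1) k1 ?_]
        intro i v hi hv
        have hrv : Sc.rd v = i := by
          rcases hv with hv | hv
          · obtain ⟨c, hc⟩ := hV.ne K
            exact (hV.ap_rd i c v (hv c hc)).1
          · obtain ⟨⟨c, hc, hcv⟩, _⟩ := hv
            exact (hV.ap_rd i c v hcv).1
        by_cases hvu : v = u
        · subst hvu; rw [Function.update_self]
        · rw [Function.update_of_ne hvu]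
          by_cases hir : i = r
          · subst hir
            exfalso
            apply hvu
            rcases hv with hv | hv <;> rcases hu with hu | hu
            · exact hV.full_uniq hv hu
            · exact (hV.full_leaf (by omega) hv hu).elim
            · exact (hV.full_leaf (by omega) hu hv).elim
            · exact hV.leaf_uniq (by omega) hv hu
          · exact hs v (by omega)
      rw [heq] at hq
      have h8 : (8 * M : ℝ) = ((8 * M : ℕ) : ℝ) := by push_cast; ring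
      rw [h8] at hq
      refine hq.trans ?_
      have := mul_le_mul_of_nonneg_left hold (by linarith : (0 : ℝ) ≤ ((8 * M : ℕ) : ℝ))
      linarith
    · have hf : ¬ ∃ u, Sc.Full K r u := fun ⟨u, hu⟩ => hsee ⟨u, Or.inl hu⟩
      have hlf : ¬ ∃ u, Sc.Leaf K r u := fun ⟨u, hu⟩ => hsee ⟨u, Or.inr hu⟩
      have heq : Sc.pot W l0 s' (ind (Sc.DD hV S BAD θ K)) K (r + 1) =
          Sc.pot W l0 s (ind (Sc.DD hV S BAD θ K)) K r := by
        rw [← hV.pot_none W l0 s' _ (by omega) hf hlf]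
        exact (hV.pot_congr W l0 s s' _ K r (by omega) hs).symm
      rw [heq]
      refine hold.trans ?_
      nlinarith
  have hg1 : ∀ K, Sc.st K ≤ r + 1 → Sc.V W l0 s' K (Sc.st K) ∉ Sc.DD hV S BAD θ K := by
    intro K hK
    by_cases h : Sc.st K ≤ r
    · rw [← hV.V_congr W l0 s s' K (Sc.st K) le_rfl (fun u hu => hs u (by omega))]
      exact hI.good K h
    · have h6 : Sc.st K = r + 1 := by omega
      have hw := hV.win_pos
      exact notMem_of_pot W l0 s' hV BAD hC1 hθ h2 (r := r + 1) h6.symm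
        (hp1 K (by omega) (by omega))
  refine ⟨s', h5, ?_, hg1, ?_⟩
  · intro K k1 k2
    by_cases h : Sc.st K ≤ r + win
    · exact hp1 K k1 h
    · have h6 : Sc.st K = r + 1 + win := by omega
      obtain ⟨K0, h7, h8⟩ := hV.anc K (by omega)
      have h9 : Sc.st K0 = r + 1 := by omega
      have h10 := pot_le_of_notMem W l0 s' hV BAD (θ := θ) h8 h7.symm (hg1 K0 (by omega))
      rw [h9] at h10
      rw [h6, Nat.sub_self, pow_zero, one_mul]
      exact h10
  · intro K hKr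
    have hst := hV.st_le K
    rw [← VL_congr W l0 s hV s' K (s' K) (fun u hu => hs u (by omega))]
    by_cases h : Sc.rd K = r
    · exact ((hP K h).2 (s' K) (h4 K h)).1
    · rw [h3 K h]
      exact hI.lett K (by omega)

/-- **The start.** -/
theorem start {win M : ℕ} [Fintype C] [Fintype Cell] [Nonempty L]
    (hV : Sc.Valid win) (BAD : Set (St B L Om)) {θ : ℝ} (hθ : 0 < θ) (hM : 1 ≤ M)
    (h2 : ((8 * M : ℕ) : ℝ) ^ win * θ < 1) (s : C → L)
    (hroot : ∀ K, Sc.st K < win → Sc.pot W l0 s (ind (Sc.DD hV S BAD θ K)) K 0 ≤ θ) :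
    Inv hV W l0 BAD θ ((8 * M : ℕ) : ℝ) s 0 := by
  have hMpos : (1 : ℝ) ≤ M := by exact_mod_cast hM
  have hC1 : (1 : ℝ) ≤ ((8 * M : ℕ) : ℝ) := by push_cast; linarith
  have hp : ∀ K, Sc.st K < win → Sc.pot W l0 s (ind (Sc.DD hV S BAD θ K)) K 0 ≤
      ((8 * M : ℕ) : ℝ) ^ (0 + win - Sc.st K) * θ := by
    intro K hK
    refine (hroot K hK).trans ?_
    have : (1 : ℝ) ≤ ((8 * M : ℕ) : ℝ) ^ (0 + win - Sc.st K) := one_le_pow₀ hC1
    nlinarith
  have hg : ∀ K, Sc.st K ≤ 0 → Sc.V W l0 s K (Sc.st K) ∉ Sc.DD hV S BAD θ K := by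
    intro K hK
    have hw := hV.win_pos
    exact notMem_of_pot W l0 s hV BAD hC1 hθ h2 (r := 0) (by omega) (hp K (by omega))
  refine ⟨fun K K' h => absurd h (Nat.not_lt_zero _), ?_, hg, fun K h => absurd h (Nat.not_lt_zero _)⟩
  intro K _ k2
  by_cases h : Sc.st K < win
  · exact hp K h
  · obtain ⟨K0, h7, h8⟩ := hV.anc K (by omega)
    have h9 : Sc.st K0 = 0 := by omega
    have h10 := pot_le_of_notMem W l0 s hV BAD (θ := θ) h8 h7.symm (hg K0 (by omega))
    rw [h9] at h10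
    have h11 : 0 + win - Sc.st K = 0 := by omega
    rw [h11, pow_zero, one_mul]
    exact h10

/-- **The root.** -/
theorem exists_root {win M : ℕ} [Fintype C] [Fintype Cell] [Nonempty L] [Fintype Om] [Nonempty Om]
    (hV : Sc.Valid win) (hC : Sc.Counts win M) (BAD : Set (St B L Om)) {θ κ : ℝ} (hκ : 0 ≤ κ)
    (hD : ∀ K, prob (Sc.DD hV S BAD θ K) ≤ κ) (hM : M * κ ≤ θ) :
    ∃ x : Om, ∀ K, Sc.st K < win → ∀ φ : B → L,
      S.rds (Sc.rem K 0) (ind (Sc.DD hV S BAD θ K)) (x, φ) ≤ θ := by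
  classical
  set F : Finset C := univ.filter (fun K => Sc.st K < win) with hF
  have hcard : (F.card : ℝ) ≤ M := by
    have h3 : F.card ≤ M := by
      refine le_trans ?_ hC.cnt0
      rw [← Set.ncard_coe_finset]
      apply Set.ncard_le_ncard _ (Set.toFinite _)
      intro K hK
      rw [hF, Finset.mem_coe, Finset.mem_filter] at hK
      exact hK.2
    exact_mod_cast h3
  have hN : (0 : ℝ) < Fintype.card (St B L Om) := by exact_mod_cast Fintype.card_pos
  have hsum : ∑ V : St B L Om, ∑ K ∈ F, S.rds (Sc.rem K 0) (ind (Sc.DD hV S BAD θ K)) V ≤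
      ∑ V : St B L Om, θ := by
    rw [Finset.sum_comm]
    have h1 : ∀ K ∈ F, ∑ V : St B L Om, S.rds (Sc.rem K 0) (ind (Sc.DD hV S BAD θ K)) V ≤
        Fintype.card (St B L Om) * κ := by
      intro K _
      rw [sum_rds, ← card_mul_avg, ← prob_eq]
      exact mul_le_mul_of_nonneg_left (hD K) hN.le
    refine (Finset.sum_le_card_nsmul _ _ _ h1).trans ?_
    rw [nsmul_eq_mul, Finset.sum_const, Finset.card_univ, nsmul_eq_mul]
    have h3 : (F.card : ℝ) * (Fintype.card (St B L Om) * κ) ≤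
        M * (Fintype.card (St B L Om) * κ) := mul_le_mul_of_nonneg_right hcard (by positivity)
    have h4 : (M : ℝ) * (Fintype.card (St B L Om) * κ) = Fintype.card (St B L Om) * (M * κ) := by
      ring
    have h5 := mul_le_mul_of_nonneg_left hM hN.le
    linarith
  obtain ⟨V, _, hVle⟩ := Finset.exists_le_of_sum_le (Finset.univ_nonempty) hsum
  refine ⟨V.1, fun K hK φ => ?_⟩
  have h1 : S.rds (Sc.rem K 0) (ind (Sc.DD hV S BAD θ K)) V ≤ θ := by
    refine le_trans ?_ hVle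
    exact Finset.single_le_sum (f := fun K => S.rds (Sc.rem K 0) (ind (Sc.DD hV S BAD θ K)) V)
      (fun K _ => S.rds_nonneg _ (ind_nonneg _) _)
      (by rw [hF, Finset.mem_filter]; exact ⟨mem_univ _, hK⟩)
  have h2 : Dep (Sc.ls K 0) (S.rds (Sc.rem K 0) (ind (Sc.DD hV S BAD θ K))) :=
    hV.dep_rds S (Nat.zero_le _) (hV.DD_dep S BAD θ K)
  have h3 := h2 V.1 φ V.2 (fun b hb => by simp [ls] at hb)
  rw [h3]
  exact h1

end Scheme

open Scheme in
/-- **Theorem D over an abstract scheme.** -/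
theorem scheme_thm : SchemeThm := by
  intro D win M hD hM
  have hMpos : (1 : ℝ) ≤ M := by exact_mod_cast hM
  set C1 : ℝ := ((8 * M : ℕ) : ℝ) with hC1
  have hC1' : 1 ≤ C1 := by rw [hC1]; push_cast; linarith
  have hpow : 1 ≤ C1 ^ win := one_le_pow₀ hC1'
  set θ : ℝ := 1 / (2 * C1 ^ win) with hθdef
  have hθ : 0 < θ := by positivity
  have hθ1 : θ ≤ 1 / 2 := by
    rw [hθdef]
    apply one_div_le_one_div_of_le (by norm_num)
    linarith
  set κ : ℝ := θ / (4 * M) with hκdef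
  have hκ : 0 < κ := by positivity
  set ell : ℕ := 2 * win * 2 ^ Fintype.card (Fin D) * M + M with hell
  have hell1 : (1 : ℝ) ≤ ell := by
    have : 1 ≤ ell := by omega
    exact_mod_cast this
  set Q : ℝ := 32768 * ((2 : ℝ) ^ Fintype.card (Fin D)) ^ 5 * (ell : ℝ) ^ 2 with hQ
  have hQpos : 0 < Q := by positivity
  set lam : ℝ := min (θ / (8 * M)) (1 / Q) with hlam
  have hlam0 : 0 < lam := lt_min (by positivity) (by positivity)
  have hlamA : lam ≤ θ / (8 * M) := min_le_left _ _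
  have hlamB : lam ≤ 1 / Q := min_le_right _ _
  have hlam1 : lam ≤ 1 := by
    refine hlamA.trans ?_
    rw [div_le_iff₀ (by positivity)]
    linarith
  have hlam4 : Q * lam ^ 4 ≤ 1 := by
    have h1 : lam ^ 4 ≤ lam := by
      calc lam ^ 4 = lam ^ 3 * lam := by ring
        _ ≤ 1 * lam := mul_le_mul_of_nonneg_right (pow_le_one₀ hlam0.le hlam1) hlam0.le
        _ = lam := one_mul _
    have h2 : Q * lam ^ 4 ≤ Q * (1 / Q) := mul_le_mul_of_nonneg_left (h1.trans hlamB) hQpos.le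
    rwa [mul_one_div_cancel hQpos.ne'] at h2
  have hmeas : 8 * (κ / 16) + M * (4 * lam ^ 2 * κ / θ ^ 2) ≤ κ := by
    have h1 : lam ^ 2 ≤ (θ / (8 * M)) ^ 2 := pow_le_pow_left₀ hlam0.le hlamA 2
    have h2 : M * (4 * lam ^ 2 * κ / θ ^ 2) ≤ M * (4 * (θ / (8 * M)) ^ 2 * κ / θ ^ 2) := by
      gcongr
    have h3 : (M : ℝ) * (4 * (θ / (8 * M)) ^ 2 * κ / θ ^ 2) = κ / (16 * M) := by
      field_simp
      ring
    have h4 : κ / (16 * M) ≤ κ / 2 := by
      apply div_le_div_of_nonneg_left hκ.le (by norm_num)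
      linarith
    rw [h3] at h2
    linarith
  have h4κ : 4 * κ ≤ θ := by
    rw [hκdef]
    rw [mul_div_assoc', div_le_iff₀ (by positivity)]
    nlinarith
  have hMκ : M * κ ≤ θ := by
    have : (M : ℝ) * κ = θ / 4 := by rw [hκdef]; field_simp
    rw [this]
    linarith
  have h2 : C1 ^ win * θ < 1 := by
    have : C1 ^ win * θ = 1 / 2 := by rw [hθdef]; field_simp
    rw [this]
    norm_num
  refine ⟨lam, κ / 16, 1 / (32 * 2 ^ Fintype.card (Fin D)),
    win * 2 ^ Fintype.card (Fin D) * M + M, hlam0, by positivity, by positivity, ?_⟩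
  intro C Cell _ _ Sc hV hC L Om _ _ _ _ S sgn hG BAD hBAD hcount
  have hK : ∀ r, r < Sc.R → 32 * 2 ^ Fintype.card (Fin D) * {K | Sc.rd K = r}.ncard ≤
      Fintype.card Om := by
    intro r hr
    have h := hcount r hr
    rw [div_mul_eq_mul_div, one_mul, le_div_iff₀ (by positivity)] at h
    have h' : (32 * 2 ^ Fintype.card (Fin D) * {K | Sc.rd K = r}.ncard : ℝ) ≤ Fintype.card Om := by
      linarith
    exact_mod_cast h'
  have hDD : ∀ K, prob (Sc.DD hV S BAD θ K) ≤ κ := fun K =>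
    hV.prob_DD hC hG hlam0.le hlam1 BAD hθ hκ.le hBAD hmeas h4κ K
  obtain ⟨root, hroot⟩ := exists_root (S := S) hV hC BAD hκ.le hDD hMκ
  obtain ⟨W⟩ := exists_WS S root
  obtain ⟨l0⟩ := ‹Nonempty L›
  have hW : ∀ K, Sc.st K < win → Sc.pot W l0 (fun _ => l0) (ind (Sc.DD hV S BAD θ K)) K 0 ≤ θ := by
    intro K hK
    unfold Scheme.pot
    have h3 : Sc.V W l0 (fun _ => l0) K 0 = (root, (Sc.V W l0 (fun _ => l0) K 0).2) :=
      Prod.ext W.nil rfl
    rw [h3]
    exact hroot K hK _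
  have hI : ∀ r, r ≤ Sc.R → ∃ s, Inv hV W l0 BAD θ C1 s r := by
    intro r
    induction r with
    | zero => intro _; exact ⟨_, start W l0 hV BAD hθ hM h2 _ hW⟩
    | succ r ih =>
      intro hr
      obtain ⟨s, hs⟩ := ih (by omega)
      exact step W l0 hV hC hlam0.le hG BAD hθ h2 hK hlam4 r (by omega) s hs
  obtain ⟨s, hs⟩ := hI Sc.R le_rfl
  refine ⟨root, W, s, ?_, ((loads W l0 s hV hC Sc.R hs.inj).2 rfl)⟩
  intro K
  have hleaf : ∀ r u, r < Sc.st K → Sc.Leaf K r u →
      (Sc.V W l0 s K (Sc.st K)).2 (Sc.cl r) =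
        W.sigma (Sc.word s (Sc.fullP K) (Sc.st K)) (Sc.cl r) (s u) := by
    intro r u hr hu
    show W.sigma _ (Sc.cl r) (Sc.lt l0 s K (Sc.st K) (Sc.cl r)) = _
    rw [lt_of_leaf l0 s hV hu (Sc.st K) hr le_rfl]
  by_cases hR : Sc.rd K < Sc.R
  · have h3 := hs.lett K hR
    unfold Bx at h3
    rw [Set.mem_setOf_eq] at h3
    push Not at h3
    obtain ⟨φ, h4, h5⟩ := h3
    refine ⟨_, h5, rfl, fun r u hr hu => ?_, fun _ => ?_⟩
    · show φ (Sc.cl r) = _
      have hne := hV.cls K r u hr hu hR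
      rw [h4 (Sc.cl r) (Finset.mem_insert_of_mem (mem_ls.2 ⟨r, u, hr, hu, rfl⟩))]
      show Function.update _ _ _ _ = _
      rw [Function.update_of_ne hne]
      exact hleaf r u hr hu
    · show φ (Sc.cl (Sc.rd K)) = _
      rw [h4 _ (Finset.mem_insert_self _ _)]
      show Function.update _ _ _ _ = _
      rw [Function.update_self]
  · have hst : Sc.st K = Sc.R := (hV.dich K).resolve_left hR
    have h3 := hs.good K hst.le
    rw [mem_DD, not_or] at h3
    have h4 : Sc.V W l0 s K (Sc.st K) ∉ Bx BAD (Sc.ls K (Sc.st K)) := fun h =>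
      h3.1 (Or.inr ⟨hR, h⟩)
    unfold Bx at h4
    rw [Set.mem_setOf_eq] at h4
    push Not at h4
    obtain ⟨φ, h5, h6⟩ := h4
    refine ⟨_, h6, rfl, fun r u hr hu => ?_, fun h => absurd h hR⟩
    show φ (Sc.cl r) = _
    rw [h5 (Sc.cl r) (mem_ls.2 ⟨r, u, hr, hu, rfl⟩)]
    exact hleaf r u hr hu

end Pool.Agent.SRL
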