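import Pool.Agent.SRL.DScheme

/-!
Theorem D over an abstract scheme, part 2: pictures of cubes, corners, targets, bad sets.
-/

set_option autoImplicit false
set_option linter.unusedSectionVars false
set_option linter.unusedVariables false

namespace Pool.Agent.SRL

open Finset

namespace Scheme

variable {B C Cell L Om : Type} [DecidableEq B] (Sc : Scheme B C Cell)
variable {S : CS B L Om} {root : Om} (W : WS S root) (l0 : L) (s : C → L)

/-- The partial picture of `K` at the stage `r ≤ st K`. -/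
noncomputable def V (K : C) (r : ℕ) : St B L Om :=
  W.pic (Sc.word s (Sc.fullP K) r) (Sc.lt l0 s K r)

/-- The labels of the cells of `K`. -/
def vis (K : C) : Set (Finset B) :=
  {T | ∃ c, Sc.mem K c ∧ T = Sc.lab K (fun r => Sc.ap r c) (Sc.st K)}

/-- The state of the atom `T` of `K` before the round of `K`. -/
noncomputable def om (K : C) (T : Finset B) : Om := (S.flipSet T (Sc.V W l0 s K (Sc.st K))).1

/-- The (raw letter to local letter) permutation at the atom `T` of `K`. -/
noncomputable def pi (K : C) (T : Finset B) : Equiv.Perm L :=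
  W.sigma (WS.ext (Sc.word s (Sc.fullP K) (Sc.st K)) T (Sc.lt l0 s K (Sc.st K))) (Sc.cl (Sc.rd K))

/-- The state of the atom `T` of `K` after the round of `K`, if the letter of `K` is `a`. -/
noncomputable def tgt (K : C) (T : Finset B) (a : L) : Om :=
  S.step (Sc.cl (Sc.rd K)) (Sc.pi W l0 s K T a) (Sc.om W l0 s K T)

/-- The rounds `< r` have injective targets. -/
def Inj (r : ℕ) : Prop :=
  ∀ K K', Sc.rd K < r → Sc.rd K = Sc.rd K' → K ≠ K' → ∀ T, T ∈ Sc.vis K → T ∈ Sc.vis K' →
    Sc.tgt W l0 s K T (s K) ≠ Sc.tgt W l0 s K' T (s K')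

/-- The final state of a cell. -/
noncomputable def cst (c : Cell) : Om := W.state (Sc.word s (fun r => Sc.ap r c) Sc.R)

/-- Extensions of the letters in the classes of `T` are all bad. -/
def Bx (BAD : Set (St B L Om)) (T : Finset B) : Set (St B L Om) :=
  {V | ∀ φ : B → L, (∀ b ∈ T, φ b = V.2 b) → (V.1, φ) ∈ BAD}

theorem om_eq (K : C) (T : Finset B) : Sc.om W l0 s K T =
    W.state (WS.ext (Sc.word s (Sc.fullP K) (Sc.st K)) T (Sc.lt l0 s K (Sc.st K))) :=
  (W.flip_pic _ _ _).1

variable {Sc}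

/-- The state of a cell of `K` when the picture of `K` is complete. -/
theorem Valid.om_cell {win : ℕ} (hV : Sc.Valid win) {K : C} {c : Cell} (hc : Sc.mem K c) :
    W.state (Sc.word s (fun r => Sc.ap r c) (Sc.st K)) =
      Sc.om W l0 s K (Sc.lab K (fun r => Sc.ap r c) (Sc.st K)) := by
  rw [om_eq, hV.word_ext l0 s (comp_cell hc) (Sc.st K) le_rfl]

/-- no move between the completion of the picture of `u` and its round, at the cells moved by `u` -/
theorem Valid.word_quiet {win : ℕ} (hV : Sc.Valid win) {c : Cell} {u : C}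
    (h : Sc.ap (Sc.rd u) c = some u) : ∀ r, Sc.st u ≤ r → r ≤ Sc.rd u →
      Sc.word s (fun r => Sc.ap r c) r = Sc.word s (fun r => Sc.ap r c) (Sc.st u) := by
  intro r hr
  induction r, hr using Nat.le_induction with
  | base => intro _; rfl
  | succ r hr ih =>
    intro hr'
    rw [Sc.word_succ_none s _ r (hV.quiet c u r h hr (by omega)), ih (by omega)]

/-- The state of a cell after it has been moved by `u`. -/
theorem Valid.state_moved {win : ℕ} (hV : Sc.Valid win) {c : Cell} {u : C}
    (h : Sc.ap (Sc.rd u) c = some u) :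
    W.state (Sc.word s (fun r => Sc.ap r c) (Sc.rd u + 1)) =
      Sc.tgt W l0 s u (Sc.lab u (fun r => Sc.ap r c) (Sc.st u)) (s u) := by
  have hc : Sc.mem u c := (hV.ap_rd _ c u h).2.1
  have hw := hV.word_quiet s h (Sc.rd u) (hV.st_le u) le_rfl
  rw [Sc.word_succ_some s _ (Sc.rd u) u h, W.w1]
  unfold tgt pi
  rw [← hV.om_cell W l0 s hc, hw, hV.word_ext l0 s (comp_cell hc) (Sc.st u) le_rfl]

/-- The word of a cell does not change in rounds in which it is not moved. -/
theorem word_none {c : Cell} {r r' : ℕ} (h : r ≤ r') (hn : ∀ i, r ≤ i → i < r' → Sc.ap i c = none) :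
    Sc.word s (fun r => Sc.ap r c) r' = Sc.word s (fun r => Sc.ap r c) r := by
  induction r', h using Nat.le_induction with
  | base => rfl
  | succ r' hr ih =>
    rw [Sc.word_succ_none s _ r' (hn r' hr (by omega)), ih (fun i hi hi' => hn i hi (by omega))]

/-- The picture of `K` is a picture of the letters of the earlier rounds only. -/
theorem Valid.V_congr {win : ℕ} (hV : Sc.Valid win) (s' : C → L) (K : C) (r : ℕ) (hr : r ≤ Sc.st K)
    (hs : ∀ u, Sc.rd u < r → s u = s' u) : Sc.V W l0 s K r = Sc.V W l0 s' K r := by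
  unfold V
  rw [hV.lt_congr l0 s s' K r hr hs,
    Sc.word_congr s s' (Sc.fullP K) (Sc.fullP K) r (fun _ _ => rfl)
      (fun i u hi hu => hs u (by rw [(hV.fullP_rd hu).1]; exact hi))]

/-- The picture of a later view. -/
theorem Valid.V_meet {win : ℕ} (hV : Sc.Valid win) {K K' : C} (hm : Sc.Meet K K')
    (hst : Sc.st K ≤ Sc.st K') :
    (Sc.V W l0 s K' (Sc.st K)).1 =
        (S.flipSet (Sc.lab K (Sc.fullP K') (Sc.st K)) (Sc.V W l0 s K (Sc.st K))).1 ∧
      ∀ b ∈ Sc.ls K' (Sc.st K), (Sc.V W l0 s K' (Sc.st K)).2 b =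
        (S.flipSet (Sc.lab K (Sc.fullP K') (Sc.st K)) (Sc.V W l0 s K (Sc.st K))).2 b := by
  have h1 := W.flip_pic (Sc.word s (Sc.fullP K) (Sc.st K)) (Sc.lt l0 s K (Sc.st K))
    (Sc.lab K (Sc.fullP K') (Sc.st K))
  have h2 := hV.word_ext l0 s (hV.comp_full hm hst) (Sc.st K) le_rfl
  rw [← h2] at h1
  refine ⟨h1.1.symm, fun b hb => ?_⟩
  have h3 := h1.2 b (hV.ls_disj hm hst hb).1
  have h4 := hV.lt_sub l0 s hm hst (Sc.st K) le_rfl b hb
  show W.sigma (Sc.word s (Sc.fullP K') (Sc.st K)) b (Sc.lt l0 s K' (Sc.st K) b) =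
    (S.flipSet (Sc.lab K (Sc.fullP K') (Sc.st K))
      (W.pic (Sc.word s (Sc.fullP K) (Sc.st K)) (Sc.lt l0 s K (Sc.st K)))).2 b
  rw [h3, h4]

end Scheme

end Pool.Agent.SRL
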