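import Mathlib
import Pool.Agent.SRL.Defs
import Pool.Agent.SRL.DScheme

/-!
# Rounds seen from a cube

The functions on pointed cubes that describe conditional probabilities are obtained by two kinds
of averages: a letter is added to the picture (`Rd.add`), or the picture is moved by a letter
(`Rd.move`). `rds_markov` is the measure bound, `rd_move_pic`, `rd_add_pic` and
`flipSet_pic` describe the operations in terms of words.
-/

set_option autoImplicit false
set_option linter.unusedSectionVars false
set_option linter.unusedVariables false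

namespace Pool.Agent.SRL

open Finset

/-- A round, seen from a cube. -/
inductive Rd (B : Type) : Type
  | add (b : B) : Rd B
  | move (b : B) : Rd B

namespace Rd

variable {B : Type} [DecidableEq B]

/-- The classes with a letter after the rounds. -/
def final : List (Rd B) → Finset B → Finset B
  | [], R => R
  | add b :: l, R => final l (insert b R)
  | move b :: l, R => final l R

/-- No move uses the class of a letter of the picture. -/
def ok : List (Rd B) → Finset B → Prop
  | [], R => True
  | add b :: l, R => ok l (insert b R)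
  | move b :: l, R => b ∉ R ∧ ok l R

/-- Number of moves. -/
def moves : List (Rd B) → ℕ
  | [] => 0
  | add b :: l => moves l
  | move b :: l => moves l + 1

end Rd

section avg

variable {α : Type} [Fintype α]

theorem avg_add' (u v : α → ℝ) : avg (fun s => u s + v s) = avg u + avg v := by
  unfold avg
  rw [sum_add_distrib, add_div]

theorem avg_mul_left' (c : ℝ) (u : α → ℝ) : avg (fun s => c * u s) = c * avg u := by
  unfold avg
  rw [← mul_sum, mul_div_assoc]

theorem avg_const' [Nonempty α] (c : ℝ) : avg (fun _ : α => c) = c := by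
  have h : (0 : ℝ) < Fintype.card α := by exact_mod_cast Fintype.card_pos
  unfold avg
  rw [sum_const, card_univ, nsmul_eq_mul]
  field_simp

theorem avg_nonneg' {u : α → ℝ} (h : ∀ s, 0 ≤ u s) : 0 ≤ avg u :=
  div_nonneg (sum_nonneg fun s _ => h s) (Nat.cast_nonneg _)

theorem avg_mono' {u v : α → ℝ} (h : ∀ s, u s ≤ v s) : avg u ≤ avg v :=
  div_le_div_of_nonneg_right (sum_le_sum fun s _ => h s) (Nat.cast_nonneg _)

theorem avg_equiv (e : Equiv.Perm α) (u : α → ℝ) : avg (fun s => u (e s)) = avg u := by
  unfold avg
  rw [Equiv.sum_comp e u]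

theorem avg_sq_le (u : α → ℝ) : (avg u) ^ 2 ≤ avg (fun s => u s ^ 2) := by
  rcases isEmpty_or_nonempty α with h | h
  · unfold avg
    simp
  have hc : (0 : ℝ) < Fintype.card α := by exact_mod_cast Fintype.card_pos
  have h1 := Finset.inner_mul_le_norm_mul_norm_aux u
  unfold avg
  rw [div_pow, div_le_div_iff₀ (by positivity) hc]
  nlinarith
where
  Finset.inner_mul_le_norm_mul_norm_aux (u : α → ℝ) :
      (∑ s, u s) ^ 2 ≤ Fintype.card α * ∑ s, u s ^ 2 := by
    have := sq_sum_le_card_mul_sum_sq (s := (univ : Finset α)) (f := u)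
    rwa [card_univ] at this

theorem card_mul_avg (u : α → ℝ) : (Fintype.card α : ℝ) * avg u = ∑ s, u s := by
  rcases isEmpty_or_nonempty α with h | h
  · unfold avg
    simp
  have hc : (0 : ℝ) < Fintype.card α := by exact_mod_cast Fintype.card_pos
  unfold avg
  field_simp

/-- Markov's inequality for the letters of one round. -/
theorem markov_count (g : α → ℝ) (hg : ∀ s, 0 ≤ g s) {C : ℝ} (hC : 0 < C) (P : Finset α)
    (hP : ∀ s ∈ P, C * avg g < g s) : (P.card : ℝ) * C ≤ Fintype.card α := by
  have h1 := card_mul_avg g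
  have h0 : 0 ≤ avg g := avg_nonneg' hg
  rcases h0.eq_or_lt with h2 | h2
  · rw [← h2, mul_zero] at h1
    have h3 : P = ∅ := by
      rw [Finset.eq_empty_iff_forall_notMem]
      intro s hs
      have h4 := hP s hs
      rw [← h2, mul_zero] at h4
      have h5 : g s ≤ ∑ t, g t := single_le_sum (fun t _ => hg t) (mem_univ s)
      linarith
    rw [h3, card_empty, Nat.cast_zero, zero_mul]
    positivity
  · have h3 : (P.card : ℝ) * (C * avg g) ≤ ∑ s, g s := by
      calc (P.card : ℝ) * (C * avg g) = ∑ s ∈ P, C * avg g := by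
            rw [sum_const, nsmul_eq_mul]
        _ ≤ ∑ s ∈ P, g s := sum_le_sum fun s hs => (hP s hs).le
        _ ≤ ∑ s, g s := sum_le_sum_of_subset_of_nonneg (subset_univ _) fun s _ _ => hg s
    rw [← h1] at h3
    have h4 : ((P.card : ℝ) * C) * avg g ≤ (Fintype.card α : ℝ) * avg g := by linarith
    exact le_of_mul_le_mul_right h4 h2

theorem prob_le_avg (s : Set α) (g : α → ℝ) (h0 : ∀ a, 0 ≤ g a) (h1 : ∀ a ∈ s, 1 ≤ g a) :
    prob s ≤ avg g := by
  classical
  unfold prob
  apply avg_mono'
  intro a
  split_ifs with h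
  · exact h1 a h
  · exact h0 a

end avg

section ops

variable {B L X : Type} [DecidableEq B] [Fintype L]

/-- The averaging operator of a round. -/
noncomputable def CS.rd (S : CS B L X) : Rd B → (St B L X → ℝ) → (St B L X → ℝ)
  | .add b, f => fun V => avg (fun s : L => f (V.1, Function.update V.2 b s))
  | .move b, f => S.A b f

/-- The averaging operators of a list of rounds (the head is the first, coarsest, round). -/
noncomputable def CS.rds (S : CS B L X) : List (Rd B) → (St B L X → ℝ) → (St B L X → ℝ)
  | [], f => f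
  | o :: l, f => S.rd o (S.rds l f)

theorem CS.rds_append (S : CS B L X) (l l' : List (Rd B)) (f : St B L X → ℝ) :
    S.rds (l ++ l') f = S.rds l (S.rds l' f) := by
  induction l with
  | nil => rfl
  | cons o l ih => simp only [List.cons_append, CS.rds, ih]

theorem CS.rd_nonneg (S : CS B L X) (o : Rd B) {f : St B L X → ℝ} (hf : ∀ V, 0 ≤ f V) (V) :
    0 ≤ S.rd o f V := by
  cases o with
  | add b => exact avg_nonneg' fun s => hf _
  | move b => exact avg_nonneg' fun s => hf _

theorem CS.rds_nonneg (S : CS B L X) (l : List (Rd B)) {f : St B L X → ℝ} (hf : ∀ V, 0 ≤ f V) :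
    ∀ V, 0 ≤ S.rds l f V := by
  induction l with
  | nil => exact hf
  | cons o l ih => exact S.rd_nonneg o ih

theorem CS.rd_le_one [Nonempty L] (S : CS B L X) (o : Rd B) {f : St B L X → ℝ}
    (hf : ∀ V, f V ≤ 1) (V) : S.rd o f V ≤ 1 := by
  cases o with
  | add b => exact (avg_mono' fun s => hf _).trans (avg_const' 1).le
  | move b => exact (avg_mono' fun s => hf _).trans (avg_const' 1).le

theorem CS.rds_le_one [Nonempty L] (S : CS B L X) (l : List (Rd B)) {f : St B L X → ℝ}
    (hf : ∀ V, f V ≤ 1) : ∀ V, S.rds l f V ≤ 1 := by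
  induction l with
  | nil => exact hf
  | cons o l ih => exact S.rd_le_one o ih

theorem indep_add (S : CS B L X) (b c : B) {f : St B L X → ℝ} (hf : c ≠ b → Indep c f) :
    Indep c (S.rd (.add b) f) := by
  intro x φ s
  simp only [CS.rd]
  congr 1
  funext t
  by_cases h : c = b
  · subst h
    rw [Function.update_idem]
  · rw [Function.update_comm h, hf h]

theorem indep_move (S : CS B L X) (b c : B) {f : St B L X → ℝ} (hf : Indep c f) :
    Indep c (S.rd (.move b) f) := by
  intro x φ s
  simp only [CS.rd, CS.A]
  congr 1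
  funext t
  by_cases h : c = b
  · subst h
    rw [Function.update_idem]
  · have h1 : S.flip b (x, Function.update (Function.update φ c s) b t) =
        ((S.flip b (x, Function.update φ b t)).1,
          Function.update (S.flip b (x, Function.update φ b t)).2 c (S.tr b c t s)) := by
      refine Prod.ext ?_ ?_
      · simp [CS.flip]
      · funext j
        by_cases hj : j = b
        · subst hj
          simp [CS.flip, Ne.symm h]
        · by_cases hj' : j = c
          · subst hj'
            simp [CS.flip, hj]
          · simp [CS.flip, hj, hj']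
    rw [h1, hf]

theorem indep_rds (S : CS B L X) {f : St B L X → ℝ} (l : List (Rd B)) :
    ∀ R : Finset B, Rd.ok l R → (∀ c, c ∉ Rd.final l R → Indep c f) →
      ∀ c, c ∉ R → Indep c (S.rds l f) := by
  induction l with
  | nil => intro R _ hf c hc; exact hf c hc
  | cons o l ih =>
    intro R hok hf c hc
    cases o with
    | add b =>
      refine indep_add S b c fun hcb => ?_
      exact ih (insert b R) hok hf c (by rw [mem_insert, not_or]; exact ⟨hcb, hc⟩)
    | move b =>
      exact indep_move S b c (ih R hok.2 hf c hc)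

variable [Fintype B] [Fintype X]

theorem sum_update (b : B) (g : (B → L) → ℝ) :
    ∑ φ : B → L, ∑ s : L, g (Function.update φ b s) = Fintype.card L * ∑ φ, g φ := by
  classical
  let e : Equiv.Perm ((B → L) × L) := Function.Involutive.toPerm
    (fun p => (Function.update p.1 b p.2, p.1 b)) (by
      intro p
      simp)
  have h1 : ∑ φ : B → L, ∑ s : L, g (Function.update φ b s) =
      ∑ p : (B → L) × L, g (e p).1 := by
    rw [Fintype.sum_prod_type]
    rfl
  rw [h1, Equiv.sum_comp e (fun p : (B → L) × L => g p.1), Fintype.sum_prod_type]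
  simp only [sum_const, card_univ, nsmul_eq_mul]
  rw [← mul_sum]

theorem sum_avg_update [Nonempty L] (b : B) (g : St B L X → ℝ) :
    ∑ V : St B L X, avg (fun s : L => g (V.1, Function.update V.2 b s)) = ∑ V, g V := by
  have hc : (0 : ℝ) < Fintype.card L := by exact_mod_cast Fintype.card_pos
  rw [Fintype.sum_prod_type, Fintype.sum_prod_type]
  refine sum_congr rfl fun x _ => ?_
  simp only [avg]
  rw [← sum_div, sum_update b (fun φ => g (x, φ))]
  field_simp

theorem sum_rd [Nonempty L] (S : CS B L X) (o : Rd B) (f : St B L X → ℝ) :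
    ∑ V, S.rd o f V = ∑ V, f V := by
  cases o with
  | add b => exact sum_avg_update b f
  | move b =>
    have h := sum_avg_update (X := X) b (fun V => f (S.flip b V))
    rw [show (∑ V, S.rd (.move b) f V) =
      ∑ V : St B L X, avg (fun s : L => f (S.flip b (V.1, Function.update V.2 b s))) from rfl, h]
    exact Equiv.sum_comp (S.flipPerm b) f

theorem sum_rds [Nonempty L] (S : CS B L X) (l : List (Rd B)) (f : St B L X → ℝ) :
    ∑ V, S.rds l f V = ∑ V, f V := by
  induction l with
  | nil => rfl
  | cons o l ih => rw [CS.rds, sum_rd, ih]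

theorem sum_sq_rd_add [Nonempty L] (S : CS B L X) (b : B) (f : St B L X → ℝ) :
    ∑ V, (S.rd (.add b) f V) ^ 2 ≤ ∑ V, f V ^ 2 := by
  calc ∑ V, (S.rd (.add b) f V) ^ 2
      ≤ ∑ V : St B L X, avg (fun s : L => f (V.1, Function.update V.2 b s) ^ 2) :=
        sum_le_sum fun V _ => avg_sq_le _
    _ = ∑ V, f V ^ 2 := sum_avg_update b (fun V => f V ^ 2)

/-- Decomposition of a function after some rounds. -/
theorem rds_decomp [Nonempty L] {S : CS B L X} {sgn : X → ℝ} {lam : ℝ} (hg : Gap S sgn lam)
    (f : St B L X → ℝ) (m c : ℝ) (h : St B L X → ℝ)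
    (hf : ∀ V, f V = m + c * sgn V.1 + h V) (hc : (∀ x, sgn x = 1) → c = 0)
    (h0 : ∑ V, h V = 0) (h1 : ∑ V, sgn V.1 * h V = 0) (l : List (Rd B)) :
    ∀ R : Finset B, Rd.ok l R → (∀ c, c ∉ Rd.final l R → Indep c f) →
    ∃ (c' : ℝ) (h' : St B L X → ℝ), |c'| = |c| ∧ ((∀ x, sgn x = 1) → c' = 0) ∧
      (∀ V, S.rds l f V = m + c' * sgn V.1 + h' V) ∧ ∑ V, h' V = 0 ∧
      ∑ V, sgn V.1 * h' V = 0 ∧
      ∑ V, h' V ^ 2 ≤ (lam ^ 2) ^ (Rd.moves l) * ∑ V, h V ^ 2 := by
  induction l with
  | nil =>
    intro R _ _
    exact ⟨c, h, rfl, hc, hf, h0, h1, by simp [Rd.moves]⟩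
  | cons o l ih =>
    intro R hok hind
    cases o with
    | add b =>
      obtain ⟨c', h', a1, a2, a3, a4, a5, a6⟩ := ih (insert b R) hok hind
      refine ⟨c', S.rd (.add b) h', a1, a2, fun V => ?_, ?_, ?_, ?_⟩
      · simp only [CS.rds, CS.rd, a3]
        rw [avg_add', avg_const']
      · rw [sum_rd, a4]
      · have : ∀ V : St B L X, sgn V.1 * S.rd (.add b) h' V =
            S.rd (.add b) (fun V => sgn V.1 * h' V) V := by
          intro V
          simp only [CS.rd]
          rw [avg_mul_left']
        rw [sum_congr rfl fun V _ => this V, sum_rd, a5]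
      · exact (sum_sq_rd_add S b h').trans a6
    | move b =>
      obtain ⟨c', h', a1, a2, a3, a4, a5, a6⟩ := ih R hok.2 hind
      have hI : Indep b (S.rds l f) := indep_rds S l R hok.2 hind b hok.1
      have hI' : Indep b h' := by
        intro x φ s
        have e1 := a3 (x, Function.update φ b s)
        have e2 := a3 (x, φ)
        have e3 := hI x φ s
        simp only at e1 e2
        linarith
      have h6 := hg.gap b h' hI' a4 a5
      have hlast : ∑ V, (S.rd (.move b) h' V) ^ 2 ≤
          (lam ^ 2) ^ (Rd.moves (Rd.move b :: l)) * ∑ V, h V ^ 2 := by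
        refine h6.trans ?_
        rw [Rd.moves, pow_succ]
        calc lam ^ 2 * ∑ V, h' V ^ 2 ≤ lam ^ 2 * ((lam ^ 2) ^ (Rd.moves l) * ∑ V, h V ^ 2) :=
              mul_le_mul_of_nonneg_left a6 (sq_nonneg _)
          _ = _ := by ring
      rcases hg.alt with hs | ⟨hs1, hs2⟩
      · have hc0 := a2 hs
        refine ⟨c', S.rd (.move b) h', a1, a2, fun V => ?_, ?_, ?_, hlast⟩
        · subst hc0
          simp only [CS.rds, CS.rd, CS.A]
          rw [← avg_const' (α := L) (m + 0 * sgn V.1), ← avg_add']
          congr 1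
          funext s
          rw [a3]
          ring
        · rw [sum_rd, a4]
        · simp only [hs, one_mul]
          rw [sum_rd, a4]
      · refine ⟨-c', S.rd (.move b) h', by rw [abs_neg, a1], fun hx => by rw [a2 hx, neg_zero],
          fun V => ?_, ?_, ?_, hlast⟩
        · simp only [CS.rds, CS.rd, CS.A]
          rw [← avg_const' (α := L) (m + -c' * sgn V.1), ← avg_add']
          congr 1
          funext s
          rw [a3]
          have : sgn (S.flip b (V.1, Function.update V.2 b s)).1 = - sgn V.1 := by
            simp only [CS.flip, Function.update_self]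
            exact hs2 _ _ _
          rw [this]
          ring
        · rw [sum_rd, a4]
        · have : ∀ V : St B L X, sgn V.1 * S.rd (.move b) h' V =
              - S.rd (.move b) (fun V => sgn V.1 * h' V) V := by
            intro V
            simp only [CS.rd, CS.A]
            rw [← avg_mul_left', ← neg_one_mul, ← avg_mul_left']
            congr 1
            funext s
            have : sgn (S.flip b (V.1, Function.update V.2 b s)).1 = - sgn V.1 := by
              simp only [CS.flip, Function.update_self]
              exact hs2 _ _ _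
            rw [this]
            ring
          rw [sum_congr rfl fun V _ => this V, sum_neg_distrib, sum_rd, a5, neg_zero]

/-- **Measure bound.** -/
theorem rds_markov [Nonempty L] [Nonempty X] {S : CS B L X} {sgn : X → ℝ} {lam : ℝ}
    (hg : Gap S sgn lam) (hl : 0 ≤ lam) (hl1 : lam ≤ 1)
    (f : St B L X → ℝ) (hf0 : ∀ V, 0 ≤ f V) (hf1 : ∀ V, f V ≤ 1)
    (l : List (Rd B)) (R : Finset B) (hok : Rd.ok l R)
    (hind : ∀ c, c ∉ Rd.final l R → Indep c f) (hm : 1 ≤ Rd.moves l)
    {θ : ℝ} (hθ : 0 < θ) (h4 : 4 * avg f ≤ θ) :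
    prob {V | θ < S.rds l f V} ≤ 4 * lam ^ 2 * avg f / θ ^ 2 := by
  classical
  have hN : (0 : ℝ) < Fintype.card (St B L X) := by exact_mod_cast Fintype.card_pos
  set N : ℝ := (Fintype.card (St B L X) : ℝ) with hNdef
  set m : ℝ := avg f with hm'
  have hmf : ∑ V, f V = N * m := (card_mul_avg f).symm
  have hm0 : 0 ≤ m := avg_nonneg' hf0
  have hss : ∀ x, sgn x * sgn x = 1 := fun x => by
    rcases hg.val x with h' | h' <;> rw [h'] <;> norm_num
  set c : ℝ := if (∀ x, sgn x = 1) then 0 else (∑ V : St B L X, sgn V.1 * f V) / N with hc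
  set h : St B L X → ℝ := fun V => f V - m - c * sgn V.1 with hh
  have hcm : |c| ≤ m := by
    rw [hc]
    split_ifs with h1
    · rw [abs_zero]; exact hm0
    · rw [abs_div, abs_of_pos hN, div_le_iff₀ hN, mul_comm m, ← hmf]
      refine (abs_sum_le_sum_abs _ _).trans (sum_le_sum fun V _ => ?_)
      rw [abs_mul, abs_of_nonneg (hf0 V)]
      rcases hg.val V.1 with h' | h' <;> rw [h'] <;> simp
  have hsum : ∑ V, h V = 0 ∧ ∑ V : St B L X, sgn V.1 * h V = 0 := by
    rcases hg.alt with hs | ⟨hs1, hs2⟩
    · have hc0 : c = 0 := by rw [hc, if_pos hs]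
      have h1 : ∑ V, h V = 0 := by
        simp only [hh, hc0, zero_mul, sub_zero]
        rw [sum_sub_distrib, sum_const, card_univ, nsmul_eq_mul, hmf]
        ring
      exact ⟨h1, by simp only [hs, one_mul]; exact h1⟩
    · have hS : ∑ V : St B L X, sgn V.1 = 0 := by
        rw [Fintype.sum_prod_type]
        simp only [sum_const, card_univ, nsmul_eq_mul]
        rw [← mul_sum, hs1, mul_zero]
      have hne : ¬ ∀ x, sgn x = 1 := by
        intro hx
        have : ∑ x, sgn x = Fintype.card X := by simp [hx]
        rw [hs1] at this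
        have h2 : (0 : ℝ) < Fintype.card X := by exact_mod_cast Fintype.card_pos
        linarith
      have hc1 : c * N = ∑ V : St B L X, sgn V.1 * f V := by
        rw [hc, if_neg hne]
        field_simp
      constructor
      · simp only [hh]
        rw [sum_sub_distrib, sum_sub_distrib, sum_const, card_univ, nsmul_eq_mul, hmf,
          ← mul_sum, hS]
        ring
      · have : ∀ V : St B L X, sgn V.1 * h V = sgn V.1 * f V - m * sgn V.1 - c := by
          intro V
          simp only [hh]
          linear_combination (-c) * hss V.1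
        rw [sum_congr rfl fun V _ => this V, sum_sub_distrib, sum_sub_distrib, sum_const,
          card_univ, nsmul_eq_mul, ← mul_sum, hS, ← hc1]
        ring
  have hsq : ∑ V, h V ^ 2 ≤ N * m := by
    have h1 : ∑ V, h V ^ 2 = ∑ V, f V ^ 2 - m * ∑ V, f V - c * ∑ V : St B L X, sgn V.1 * f V -
        m * ∑ V, h V - c * ∑ V : St B L X, sgn V.1 * h V := by
      simp only [mul_sum]
      rw [← sum_sub_distrib, ← sum_sub_distrib, ← sum_sub_distrib, ← sum_sub_distrib]
      refine sum_congr rfl fun V _ => ?_
      simp only [hh]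
      ring
    have h2 : ∑ V, f V ^ 2 ≤ ∑ V, f V := sum_le_sum fun V _ => by
      have := hf0 V
      have := hf1 V
      nlinarith
    have h3 : 0 ≤ m * ∑ V, f V := by rw [hmf]; positivity
    have h4 : 0 ≤ c * ∑ V : St B L X, sgn V.1 * f V := by
      by_cases hx : ∀ x, sgn x = 1
      · rw [hc, if_pos hx, zero_mul]
      · have hc1 : c * N = ∑ V : St B L X, sgn V.1 * f V := by
          rw [hc, if_neg hx]
          field_simp
        rw [← hc1]
        nlinarith [mul_self_nonneg c]
    rw [h1, hsum.1, hsum.2]
    linarith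
  obtain ⟨c', h', a1, a2, a3, a4, a5, a6⟩ := rds_decomp hg f m c h
    (fun V => by simp only [hh]; ring) (fun hx => by rw [hc, if_pos hx]) hsum.1 hsum.2 l R hok
    hind
  have hbound : ∀ V, S.rds l f V ≤ θ / 2 + h' V := by
    intro V
    rw [a3]
    have e1 : c' * sgn V.1 ≤ |c'| := by
      rcases hg.val V.1 with h' | h' <;> rw [h']
      · rw [mul_one]; exact le_abs_self _
      · rw [mul_neg, mul_one]; exact neg_le_abs _
    rw [a1] at e1
    linarith
  have h5 : prob {V | θ < S.rds l f V} ≤ avg (fun V => 4 / θ ^ 2 * h' V ^ 2) := by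
    apply prob_le_avg
    · intro V
      positivity
    · intro V hV
      have e1 : θ < S.rds l f V := hV
      have e2 : θ / 2 < h' V := by
        have := hbound V
        linarith
      have e3 : (θ / 2) ^ 2 ≤ h' V ^ 2 := pow_le_pow_left₀ (by positivity) e2.le 2
      rw [div_mul_eq_mul_div, le_div_iff₀ (by positivity)]
      nlinarith
  refine h5.trans ?_
  rw [avg_mul_left', avg]
  have h6 : (lam ^ 2) ^ (Rd.moves l) ≤ lam ^ 2 := by
    calc (lam ^ 2) ^ (Rd.moves l) ≤ (lam ^ 2) ^ 1 :=
          pow_le_pow_of_le_one (sq_nonneg _) (by nlinarith) hm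
      _ = lam ^ 2 := pow_one _
  have h7 : ∑ V, h' V ^ 2 ≤ lam ^ 2 * (N * m) := by
    refine a6.trans ?_
    calc (lam ^ 2) ^ (Rd.moves l) * ∑ V, h V ^ 2 ≤ lam ^ 2 * ∑ V, h V ^ 2 :=
          mul_le_mul_of_nonneg_right h6 (sum_nonneg fun V _ => sq_nonneg _)
      _ ≤ _ := mul_le_mul_of_nonneg_left hsq (sq_nonneg _)
  calc 4 / θ ^ 2 * ((∑ V, h' V ^ 2) / N) ≤ 4 / θ ^ 2 * ((lam ^ 2 * (N * m)) / N) := by
        gcongr
    _ = 4 * lam ^ 2 * m / θ ^ 2 := by
        field_simp

end ops

section pic

variable {B L X : Type} [DecidableEq B] [Fintype L] {S : CS B L X} {root : X} (W : WS S root)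

theorem WS.pic_update (w : B → List L) (r : B → L) (b : B) (s : L) :
    ((W.pic w r).1, Function.update (W.pic w r).2 b (W.sigma w b s)) =
      W.pic w (Function.update r b s) := by
  refine Prod.ext rfl ?_
  funext j
  by_cases hj : j = b
  · subst hj
    simp [WS.pic]
  · simp [WS.pic, Function.update_of_ne hj]

theorem WS.flip_pic_one (w : B → List L) (r : B → L) (b : B) :
    S.flip b (W.pic w r) = ((W.pic (Function.update w b (r b :: w b)) r).1,
      Function.update (W.pic (Function.update w b (r b :: w b)) r).2 b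
        (S.inv b (W.sigma w b (r b)))) := by
  refine Prod.ext ?_ ?_
  · simp only [CS.flip, WS.pic]
    rw [W.w1]
  · funext j
    by_cases hj : j = b
    · subst hj
      simp [CS.flip, WS.pic]
    · simp only [CS.flip, WS.pic, if_neg hj, Function.update_of_ne hj]
      rw [W.w2 w b j _ _ (Ne.symm hj)]

/-- An added letter, in terms of raw letters. -/
theorem WS.rd_add_pic (f : St B L X → ℝ) (w : B → List L) (r : B → L) (b : B) :
    S.rd (.add b) f (W.pic w r) = avg (fun s : L => f (W.pic w (Function.update r b s))) := by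
  simp only [CS.rd]
  rw [← avg_equiv (W.sigma w b)]
  congr 1
  funext s
  rw [W.pic_update]

/-- A move, in terms of raw letters. -/
theorem WS.rd_move_pic {f : St B L X → ℝ} {b : B} (hf : Indep b f) (w : B → List L)
    (r : B → L) :
    S.rd (.move b) f (W.pic w r) =
      avg (fun s : L => f (W.pic (Function.update w b (s :: w b)) r)) := by
  simp only [CS.rd, CS.A]
  rw [← avg_equiv (W.sigma w b)]
  congr 1
  funext s
  rw [W.pic_update, W.flip_pic_one, hf, Function.update_self]
  have h2 := W.pic_update (Function.update w b (s :: w b)) r b s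
  rw [← h2, hf]

/-- a function that does not depend on the classes of `T` -/
theorem indep_congr {f : St B L X → ℝ} (T : Finset B) (hf : ∀ c ∈ T, Indep c f) :
    ∀ (x : X) (φ ψ : B → L), (∀ c, c ∉ T → φ c = ψ c) → f (x, φ) = f (x, ψ) := by
  induction T using Finset.induction_on with
  | empty =>
    intro x φ ψ h
    have : φ = ψ := funext fun c => h c (notMem_empty c)
    rw [this]
  | insert b T' hb ih =>
    intro x φ ψ h
    rw [← hf b (mem_insert_self _ _) x φ (ψ b)]
    apply ih (fun c hc => hf c (mem_insert_of_mem hc))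
    intro c hc
    by_cases hcb : c = b
    · subst hcb; rw [Function.update_self]
    · rw [Function.update_of_ne hcb]
      exact h c (by rw [mem_insert, not_or]; exact ⟨hcb, hc⟩)

/-- The corner `T` of a picture, seen by a function that does not depend on the classes of `T`. -/
theorem WS.flipSet_pic_eq {f : St B L X → ℝ} {T : Finset B} (hf : ∀ c ∈ T, Indep c f)
    (w : B → List L) (r : B → L) :
    f (S.flipSet T (W.pic w r)) = f (W.pic (WS.ext w T r) r) := by
  obtain ⟨h1, h2⟩ := W.flip_pic w r T
  have h3 : S.flipSet T (W.pic w r) = ((S.flipSet T (W.pic w r)).1,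
      (S.flipSet T (W.pic w r)).2) := rfl
  rw [h3, h1]
  exact indep_congr T hf _ _ _ h2

/-- Measure preservation of the corner maps. -/
theorem prob_flipSet [Fintype B] [Fintype X] (S : CS B L X) (T : Finset B)
    (s : Set (St B L X)) : prob {V | S.flipSet T V ∈ s} = prob s := by
  classical
  unfold prob
  exact avg_equiv (S.flipSet T) (fun V => if V ∈ s then (1 : ℝ) else 0)

theorem avg_flipSet [Fintype B] [Fintype X] (S : CS B L X) (T : Finset B)
    (f : St B L X → ℝ) : avg (fun V => f (S.flipSet T V)) = avg f :=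
  avg_equiv (S.flipSet T) f

end pic

end Pool.Agent.SRL
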