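import Pool.Agent.SRL.DPic
import Pool.Agent.SRL.Ops

/-!
Theorem D over an abstract scheme, part 3: the rounds seen from a cube and the potential
(conditional probability) of a function of its picture.
-/

set_option autoImplicit false
set_option linter.unusedSectionVars false
set_option linter.unusedVariables false

namespace Pool.Agent.SRL

open Finset

namespace Rd

variable {B : Type} [DecidableEq B]

theorem final_append (l l' : List (Rd B)) : ∀ R : Finset B,
    final (l ++ l') R = final l' (final l R) := by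
  induction l with
  | nil => intro R; rfl
  | cons o l ih =>
    intro R
    cases o with
    | add b => exact ih _
    | move b => exact ih _

theorem ok_append (l l' : List (Rd B)) : ∀ R : Finset B, ok l R → ok l' (final l R) →
    ok (l ++ l') R := by
  induction l with
  | nil => intro R _ h; exact h
  | cons o l ih =>
    intro R h h'
    cases o with
    | add b => exact ih _ h h'
    | move b => exact ⟨h.1, ih _ h.2 h'⟩

theorem moves_append (l l' : List (Rd B)) : moves (l ++ l') = moves l + moves l' := by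
  induction l with
  | nil => simp [moves]
  | cons o l ih =>
    cases o with
    | add b => exact ih
    | move b =>
      show moves (l ++ l') + 1 = moves l + 1 + moves l'
      rw [ih]
      omega

end Rd

namespace Scheme

variable {B C Cell L Om : Type} [DecidableEq B] (Sc : Scheme B C Cell)

open Classical in
/-- The round `r` seen from `K`. -/
noncomputable def rdl (K : C) (r : ℕ) : List (Rd B) :=
  if ∃ u, Sc.Full K r u then [Rd.move (Sc.cl r)] else
    if ∃ u, Sc.Leaf K r u then [Rd.add (Sc.cl r)] else []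

/-- The rounds `r, ..., r + n - 1` seen from `K`. -/
noncomputable def remn (K : C) : ℕ → ℕ → List (Rd B)
  | r, 0 => []
  | r, n + 1 => Sc.rdl K r ++ remn K (r + 1) n

/-- The rounds `r, ..., st K - 1` seen from `K`. -/
noncomputable def rem (K : C) (r : ℕ) : List (Rd B) := Sc.remn K r (Sc.st K - r)

theorem rem_step {K : C} {r : ℕ} (hr : r < Sc.st K) :
    Sc.rem K r = Sc.rdl K r ++ Sc.rem K (r + 1) := by
  unfold rem
  have h : Sc.st K - r = (Sc.st K - (r + 1)) + 1 := by omega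
  rw [h, remn]

theorem rem_end (K : C) : Sc.rem K (Sc.st K) = [] := by
  unfold rem
  rw [Nat.sub_self, remn]

variable {Sc}

theorem rdl_full {K : C} {r : ℕ} {u : C} (h : Sc.Full K r u) :
    Sc.rdl K r = [Rd.move (Sc.cl r)] := by
  unfold rdl
  rw [if_pos ⟨u, h⟩]

theorem rdl_leaf {win : ℕ} (hV : Sc.Valid win) {K : C} {r : ℕ} {u : C} (hr : r < Sc.st K)
    (h : Sc.Leaf K r u) : Sc.rdl K r = [Rd.add (Sc.cl r)] := by
  unfold rdl
  rw [if_neg (fun ⟨u', h'⟩ => hV.full_leaf hr h' h), if_pos ⟨u, h⟩]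

theorem rdl_none {K : C} {r : ℕ} (h : ¬ ∃ u, Sc.Full K r u) (h' : ¬ ∃ u, Sc.Leaf K r u) :
    Sc.rdl K r = [] := by
  unfold rdl
  rw [if_neg h, if_neg h']

theorem Valid.rdl_ok {win : ℕ} (hV : Sc.Valid win) {K : C} {r : ℕ} (hr : r < Sc.st K) :
    Rd.ok (Sc.rdl K r) (Sc.ls K r) ∧ Rd.final (Sc.rdl K r) (Sc.ls K r) = Sc.ls K (r + 1) := by
  by_cases hf : ∃ u, Sc.Full K r u
  · obtain ⟨u, hu⟩ := hf
    obtain ⟨c, hc⟩ := hV.ne K
    have hnl : ¬ ∃ u, Sc.Leaf K r u := fun ⟨u', h'⟩ => hV.full_leaf hr hu h'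
    rw [rdl_full hu, ls_not hnl]
    exact ⟨⟨hV.cl_notMem hr hc (hu c hc), trivial⟩, rfl⟩
  · by_cases hl : ∃ u, Sc.Leaf K r u
    · obtain ⟨u, hu⟩ := hl
      rw [rdl_leaf hV hr hu, ls_leaf hu]
      exact ⟨trivial, rfl⟩
    · rw [rdl_none hf hl, ls_not hl]
      exact ⟨trivial, rfl⟩

theorem Valid.rem_ok {win : ℕ} (hV : Sc.Valid win) (K : C) : ∀ n r, r + n = Sc.st K →
    Rd.ok (Sc.rem K r) (Sc.ls K r) ∧ Rd.final (Sc.rem K r) (Sc.ls K r) = Sc.ls K (Sc.st K) := by
  intro n
  induction n with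
  | zero =>
    intro r hr
    have h : r = Sc.st K := by omega
    subst h
    rw [Sc.rem_end]
    exact ⟨trivial, rfl⟩
  | succ n ih =>
    intro r hr
    have hrlt : r < Sc.st K := by omega
    obtain ⟨i1, i2⟩ := ih (r + 1) (by omega)
    obtain ⟨j1, j2⟩ := hV.rdl_ok hrlt
    rw [Sc.rem_step hrlt]
    refine ⟨Rd.ok_append _ _ _ j1 (by rw [j2]; exact i1), ?_⟩
    rw [Rd.final_append, j2, i2]

theorem Valid.rem_moves_aux {win : ℕ} (hV : Sc.Valid win) (K : C) {r' : ℕ} {u : C}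
    (hr' : r' < Sc.st K) (hu : Sc.Full K r' u) : ∀ n r, r + n = r' → 1 ≤ Rd.moves (Sc.rem K r) := by
  intro n
  induction n with
  | zero =>
    intro r hr
    have h : r = r' := by omega
    subst h
    rw [Sc.rem_step hr', rdl_full hu, Rd.moves_append]
    show 1 ≤ 0 + 1 + _
    omega
  | succ n ih =>
    intro r hr
    rw [Sc.rem_step (by omega), Rd.moves_append]
    have := ih (r + 1) (by omega)
    omega

/-- at least one move in a window -/
theorem Valid.rem_moves {win : ℕ} (hV : Sc.Valid win) {K : C} {r : ℕ}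
    (h : r + win ≤ Sc.st K) : 1 ≤ Rd.moves (Sc.rem K r) := by
  obtain ⟨r', u, h1, h2, h3⟩ := hV.full K (by omega)
  exact hV.rem_moves_aux K h2 h3 (r' - r) r (by omega)

section pot

variable (Sc) [Fintype L] {S : CS B L Om} {root : Om} (W : WS S root) (l0 : L) (s : C → L)

/-- The conditional expectation of `f` (a function of the picture of `K`) given the letters of the
rounds `< r`. -/
noncomputable def pot (f : St B L Om → ℝ) (K : C) (r : ℕ) : ℝ :=
  S.rds (Sc.rem K r) f (Sc.V W l0 s K r)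

variable {Sc}

theorem pot_end (f : St B L Om → ℝ) (K : C) :
    Sc.pot W l0 s f K (Sc.st K) = f (Sc.V W l0 s K (Sc.st K)) := by
  unfold pot
  rw [Sc.rem_end]
  rfl

theorem pot_nonneg {f : St B L Om → ℝ} (hf : ∀ V, 0 ≤ f V) (K : C) (r : ℕ) :
    0 ≤ Sc.pot W l0 s f K r := S.rds_nonneg _ hf _

theorem pot_le_one [Nonempty L] {f : St B L Om → ℝ} (hf : ∀ V, f V ≤ 1) (K : C) (r : ℕ) :
    Sc.pot W l0 s f K r ≤ 1 := S.rds_le_one _ hf _

theorem Valid.pot_congr {win : ℕ} (hV : Sc.Valid win) (s' : C → L) (f : St B L Om → ℝ) (K : C)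
    (r : ℕ) (hr : r ≤ Sc.st K) (hs : ∀ u, Sc.rd u < r → s u = s' u) :
    Sc.pot W l0 s f K r = Sc.pot W l0 s' f K r := by
  unfold pot
  rw [hV.V_congr W l0 s s' K r hr hs]

/-- the function at the stage `r` does not depend on the classes without a leaf -/
theorem Valid.rem_indep {win : ℕ} (hV : Sc.Valid win) {f : St B L Om → ℝ} {K : C}
    (hf : ∀ c, c ∉ Sc.ls K (Sc.st K) → Indep c f) {r : ℕ} (hr : r ≤ Sc.st K) :
    ∀ c, c ∉ Sc.ls K r → Indep c (S.rds (Sc.rem K r) f) := by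
  obtain ⟨h1, h2⟩ := hV.rem_ok K (Sc.st K - r) r (by omega)
  exact indep_rds S _ _ h1 (by rw [h2]; exact hf)

/-- Nothing happens in a round in which `K` sees nothing. -/
theorem Valid.pot_none {win : ℕ} (hV : Sc.Valid win) (f : St B L Om → ℝ) {K : C} {r : ℕ}
    (hr : r < Sc.st K) (h : ¬ ∃ u, Sc.Full K r u) (h' : ¬ ∃ u, Sc.Leaf K r u) :
    Sc.pot W l0 s f K r = Sc.pot W l0 s f K (r + 1) := by
  unfold pot V
  have h1 : Sc.fullP K r = none := by
    unfold fullP
    rw [dif_neg h]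
  rw [Sc.rem_step hr, rdl_none h h', List.nil_append, Sc.word_succ_none s _ r h1, lt_not h']

/-- **One round.** -/
theorem Valid.pot_see [DecidableEq C] {win : ℕ} (hV : Sc.Valid win) {f : St B L Om → ℝ} {K : C}
    (hf : ∀ c, c ∉ Sc.ls K (Sc.st K) → Indep c f) {r : ℕ} (hr : r < Sc.st K) {u : C}
    (hu : Sc.Full K r u ∨ Sc.Leaf K r u) :
    Sc.pot W l0 s f K r = avg (fun a => Sc.pot W l0 (Function.update s u a) f K (r + 1)) := by
  have hrd : Sc.rd u = r := by
    rcases hu with hu | hu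
    · obtain ⟨c, hc⟩ := hV.ne K
      exact (hV.ap_rd r c u (hu c hc)).1
    · obtain ⟨⟨c, hc, hcu⟩, _⟩ := hu
      exact (hV.ap_rd r c u hcu).1
  have hagree : ∀ (a : L) (v : C), Sc.rd v < r → s v = Function.update s u a v := by
    intro a v hv
    have : v ≠ u := by
      rintro rfl
      omega
    rw [Function.update_of_ne this]
  have hword : ∀ a : L, Sc.word (Function.update s u a) (Sc.fullP K) r =
      Sc.word s (Sc.fullP K) r := fun a =>
    (Sc.word_congr s _ (Sc.fullP K) (Sc.fullP K) r (fun _ _ => rfl)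
      (fun i v hi hv => hagree a v (by rw [(hV.fullP_rd hv).1]; exact hi))).symm
  have hlt : ∀ a : L, Sc.lt l0 (Function.update s u a) K r = Sc.lt l0 s K r := fun a =>
    (hV.lt_congr l0 s _ K r hr.le (hagree a)).symm
  rcases hu with hu | hu
  · have hnl : ¬ ∃ u, Sc.Leaf K r u := fun ⟨u', h'⟩ => hV.full_leaf hr hu h'
    obtain ⟨c, hc⟩ := hV.ne K
    have hI : Indep (Sc.cl r) (S.rds (Sc.rem K (r + 1)) f) :=
      hV.rem_indep hf (by omega) _ (by rw [ls_not hnl]; exact hV.cl_notMem hr hc (hu c hc))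
    unfold pot V
    rw [Sc.rem_step hr, rdl_full hu]
    show S.rd (.move (Sc.cl r)) (S.rds (Sc.rem K (r + 1)) f) _ = _
    rw [W.rd_move_pic hI]
    congr 1
    funext a
    rw [Sc.word_succ_some _ _ r u ((Sc.fullP_some hV).2 hu), hword, lt_not hnl, hlt,
      Function.update_self]
  · have hnf : ¬ ∃ u, Sc.Full K r u := fun ⟨u', h'⟩ => hV.full_leaf hr h' hu
    have h1 : Sc.fullP K r = none := by
      unfold fullP
      rw [dif_neg hnf]
    unfold pot V
    rw [Sc.rem_step hr, rdl_leaf hV hr hu]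
    show S.rd (.add (Sc.cl r)) (S.rds (Sc.rem K (r + 1)) f) _ = _
    rw [W.rd_add_pic]
    congr 1
    funext a
    rw [Sc.word_succ_none _ _ r h1, hword, lt_leaf hV l0 _ hr hu, hlt, Function.update_self]

/-- **Transfer.** The potential of `K'` at the time when the picture of `K` is complete. -/
theorem Valid.pot_meet [Fintype B] {win : ℕ} (hV : Sc.Valid win) {f : St B L Om → ℝ} {K K' : C}
    (hf : ∀ c, c ∉ Sc.ls K' (Sc.st K') → Indep c f) (hm : Sc.Meet K K')
    (hst : Sc.st K ≤ Sc.st K') :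
    Sc.pot W l0 s f K' (Sc.st K) = S.rds (Sc.rem K' (Sc.st K)) f
      (S.flipSet (Sc.lab K (Sc.fullP K') (Sc.st K)) (Sc.V W l0 s K (Sc.st K))) := by
  obtain ⟨h1, h2⟩ := hV.V_meet W l0 s hm hst
  have h3 := hV.rem_indep (S := S) hf hst
  unfold pot
  set V1 := Sc.V W l0 s K' (Sc.st K) with hV1
  set V2 := S.flipSet (Sc.lab K (Sc.fullP K') (Sc.st K)) (Sc.V W l0 s K (Sc.st K)) with hV2
  have e1 : V1 = (V2.1, V1.2) := Prod.ext h1 rfl
  have e2 : V2 = (V2.1, V2.2) := rfl
  rw [e1]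
  conv_rhs => rw [e2]
  refine indep_congr (univ.filter fun c => c ∉ Sc.ls K' (Sc.st K))
    (fun c hc => h3 c (mem_filter.1 hc).2) V2.1 V1.2 V2.2 (fun c hc => ?_)
  apply h2
  by_contra hcon
  exact hc (mem_filter.2 ⟨mem_univ _, hcon⟩)

/-- Measure of the pictures of `K` for which the potential of `K'` is large. -/
theorem Valid.measure_meet [Fintype B] [Fintype Om] [Nonempty L] [Nonempty Om] {win : ℕ}
    (hV : Sc.Valid win) {sgn : Om → ℝ} {lam : ℝ} (hg : Gap S sgn lam) (hl : 0 ≤ lam)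
    (hl1 : lam ≤ 1) {f : St B L Om → ℝ} (hf0 : ∀ V, 0 ≤ f V) (hf1 : ∀ V, f V ≤ 1) {K' : C}
    (hf : ∀ c, c ∉ Sc.ls K' (Sc.st K') → Indep c f) {r : ℕ} (hr : r + win ≤ Sc.st K')
    {θ : ℝ} (hθ : 0 < θ) (h4 : 4 * avg f ≤ θ) (T : Finset B) :
    prob {V | θ < S.rds (Sc.rem K' r) f (S.flipSet T V)} ≤ 4 * lam ^ 2 * avg f / θ ^ 2 := by
  obtain ⟨h1, h2⟩ := hV.rem_ok K' (Sc.st K' - r) r (by omega)
  have h3 := rds_markov hg hl hl1 f hf0 hf1 (Sc.rem K' r) (Sc.ls K' r) h1
    (by rw [h2]; exact hf) (hV.rem_moves hr) hθ h4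
  rw [← prob_flipSet S T {V | θ < S.rds (Sc.rem K' r) f V}] at h3
  exact h3

end pot

end Scheme

end Pool.Agent.SRL
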