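import Pool.Agent.SRL.FDefs

/-! Block F: states with a soft frame. -/

set_option autoImplicit false

namespace Pool.Agent.SRL

namespace Fr

/-- states with a soft frame of error `s` for the model `(l, y)` -/
def HasF {B L X : Type} {J K : ℕ} (S : CS (Fin J ⊕ B) L X)
    (R : X × Fin K → X × Fin K → ℝ) {M k0 : ℕ} (l0 g s : ℝ) (l : Fin M → ℝ)
    (y : (Fin k0 → Fin 2 ⊕ Fin M) → ℝ) : Set (St (Fin J) L X) :=
  {ω | ∃ e : Fin M → Finset (Fin J) × Fin K → ℝ, SFrame l0 g s l y (kern S R ω ω) e}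

theorem win_mono {P Q : Type} [Fintype Q] {k0 : ℕ} {s s' : ℝ} (h0 : 0 ≤ s) (h : s ≤ s')
    {T : P → P → Q → Q → ℝ} (hT : Win k0 s T) : Win k0 s' T where
  nonneg := hT.nonneg
  le_one := hT.le_one
  symm := hT.symm
  tri := fun b c c' d => (hT.tri b c c' d).trans h
  deg := fun b c c' => (hT.deg b c c').trans h
  ten := fun S b b' c => (hT.ten S b b' c).trans (pow_le_pow_left₀ h0 h 2)

theorem sframe_mono {Q : Type} [Fintype Q] {M k0 : ℕ} {l0 g s s' : ℝ} (h : s ≤ s')
    {l : Fin M → ℝ} {y : (Fin k0 → Fin 2 ⊕ Fin M) → ℝ} {T : Q → Q → ℝ} {e : Fin M → Q → ℝ}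
    (hT : SFrame l0 g s l y T e) : SFrame l0 g s' l y T e where
  sup := hT.sup
  orth := fun i j => (hT.orth i j).trans h
  eig := fun i => (hT.eig i).trans h
  res := fun f => (hT.res f).trans
    (mul_le_mul_of_nonneg_right (by linarith) (Real.sqrt_nonneg _))
  mom := fun w => (hT.mom w).trans h

end Fr

end Pool.Agent.SRL
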