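import Pool.Agent.SRL.FDefs
import Pool.Agent.SRL.Flips
import Pool.Agent.SRL.Mix

/-!
# Spreading by one or two moves (row F7)
-/

set_option autoImplicit false
set_option linter.unusedSectionVars false
set_option linter.unusedVariables false

namespace Pool.Agent.SRL

open Finset

namespace Fr

namespace Sp

/-! ### probabilities -/

section prob

variable {α : Type} [Fintype α]

theorem prob_eq (s : Set α) [DecidablePred (· ∈ s)] :
    prob s = ((univ.filter (· ∈ s)).card : ℝ) / Fintype.card α := by
  classical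
  unfold prob avg
  congr 1
  rw [← sum_boole]
  refine sum_congr rfl fun a _ => ?_
  by_cases h : a ∈ s <;> simp [h]

theorem prob_sum (s : Set α) [∀ a, Decidable (a ∈ s)] :
    prob s = (∑ a, if a ∈ s then (1 : ℝ) else 0) / Fintype.card α := by
  unfold prob avg
  congr 1
  refine sum_congr rfl fun a _ => ?_
  by_cases h : a ∈ s <;> simp [h]

theorem prob_nonneg (s : Set α) : 0 ≤ prob s := by
  classical
  rw [prob_eq]
  positivity

theorem prob_le_one (s : Set α) : prob s ≤ 1 := by
  classical
  rw [prob_eq]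
  refine div_le_one_of_le₀ ?_ (by positivity)
  exact_mod_cast card_le_univ _

theorem prob_mono {s t : Set α} (h : s ⊆ t) : prob s ≤ prob t := by
  classical
  rw [prob_eq, prob_eq]
  refine div_le_div_of_nonneg_right ?_ (by positivity)
  exact_mod_cast card_le_card fun a ha => by
    rw [mem_filter] at ha ⊢
    exact ⟨ha.1, h ha.2⟩

theorem prob_union_le (s t : Set α) : prob (s ∪ t) ≤ prob s + prob t := by
  classical
  rw [prob_eq, prob_eq, prob_eq, ← add_div]
  refine div_le_div_of_nonneg_right ?_ (by positivity)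
  have : univ.filter (· ∈ s ∪ t) ⊆ univ.filter (· ∈ s) ∪ univ.filter (· ∈ t) := by
    intro a ha
    rw [mem_union, mem_filter, mem_filter]
    rw [mem_filter] at ha
    rcases ha.2 with h | h
    · exact Or.inl ⟨mem_univ _, h⟩
    · exact Or.inr ⟨mem_univ _, h⟩
  exact_mod_cast (card_le_card this).trans (card_union_le _ _)

theorem prob_disj {s t : Set α} (h : Disjoint s t) : prob (s ∪ t) = prob s + prob t := by
  classical
  rw [prob_eq, prob_eq, prob_eq, ← add_div]
  congr 1
  have h1 : univ.filter (· ∈ s ∪ t) = univ.filter (· ∈ s) ∪ univ.filter (· ∈ t) := by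
    ext a
    simp
  have h2 : Disjoint (univ.filter (· ∈ s)) (univ.filter (· ∈ t)) := by
    rw [disjoint_left]
    intro a ha hb
    rw [mem_filter] at ha hb
    exact Set.disjoint_left.mp h ha.2 hb.2
  rw [h1, card_union_of_disjoint h2]
  push_cast
  rfl

theorem prob_univ [Nonempty α] : prob (Set.univ : Set α) = 1 := by
  classical
  rw [prob_eq]
  have : univ.filter (· ∈ (Set.univ : Set α)) = univ := by ext a; simp
  rw [this, card_univ]
  exact div_self (by exact_mod_cast Fintype.card_ne_zero)

theorem prob_compl [Nonempty α] (s : Set α) : prob sᶜ = 1 - prob s := by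
  have h := prob_disj (disjoint_compl_right (a := s))
  rw [Set.union_compl_self, prob_univ] at h
  linarith

theorem prob_equiv {β : Type} [Fintype β] (e : α ≃ β) (s : Set β) :
    prob {a | e a ∈ s} = prob s := by
  classical
  rw [prob_eq, prob_eq, Fintype.card_congr e]
  congr 2
  refine card_bij (fun a _ => e a) ?_ ?_ ?_
  · intro a ha
    rw [mem_filter] at ha ⊢
    exact ⟨mem_univ _, ha.2⟩
  · intro a _ b _ h
    exact e.injective h
  · intro b hb
    rw [mem_filter] at hb
    exact ⟨e.symm b, mem_filter.mpr ⟨mem_univ _, by simpa using hb.2⟩, by simp⟩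

theorem prob_fst {β : Type} [Fintype β] [Nonempty β] (s : Set α) :
    prob {a : α × β | a.1 ∈ s} = prob s := by
  classical
  rw [prob_eq, prob_eq, Fintype.card_prod]
  have h1 : univ.filter (· ∈ {a : α × β | a.1 ∈ s}) = univ.filter (· ∈ s) ×ˢ (univ : Finset β) := by
    ext a
    simp
  rw [h1, card_product, card_univ]
  push_cast
  have : (Fintype.card β : ℝ) ≠ 0 := by exact_mod_cast Fintype.card_ne_zero
  field_simp

end prob

end Sp

open Sp

section

variable {B L X : Type} [DecidableEq B] [Fintype B] [Fintype L] [Fintype X] [Nonempty L]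
  [Nonempty X] {J : ℕ}

theorem gap_derived (S : CS (Fin J ⊕ B) L X) {sgn : X → ℝ} {lam : ℝ} (h : Gap S sgn lam) :
    Gap S.derived (fun ω : X × (Fin J → L) => sgn ω.1) lam := by
  refine ⟨fun ω => h.val ω.1, ?_, ?_⟩
  · rcases h.alt with h1 | ⟨h1, h2⟩
    · exact Or.inl fun ω => h1 ω.1
    · refine Or.inr ⟨?_, fun i a ω => h2 _ _ _⟩
      rw [Fintype.sum_prod_type]
      simp only [sum_const, card_univ, nsmul_eq_mul]
      rw [← mul_sum, h1, mul_zero]
  · intro b f hf h1 h2
    have e : ∀ g : St B L (St (Fin J) L X) → ℝ, ∑ V, g V = ∑ V : St (Fin J ⊕ B) L X, g (toDer V) :=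
      fun g => (Equiv.sum_comp (derEquiv (A := Fin J) (B := B) (L := L) (X := X)) g).symm
    have hA : ∀ V : St (Fin J ⊕ B) L X, S.derived.A b f (toDer V) =
        S.A (Sum.inr b) (fun V => f (toDer V)) V := by
      intro V
      unfold CS.A
      congr 1
      funext s
      have : ((toDer V).1, Function.update (toDer V).2 b s) =
          toDer (V.1, Function.update V.2 (Sum.inr b) s) := by
        refine Prod.ext (Prod.ext rfl ?_) ?_
        · funext a
          simp [toDer]
        · funext c
          by_cases hc : c = b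
          · subst hc; simp [toDer]
          · simp [toDer, hc]
      rw [this, derived_flip]
    have h3 := h.gap (Sum.inr b) (fun V => f (toDer V)) ?_ ?_ ?_
    · rw [e, e]
      simp only [hA]
      exact h3
    · intro x φ s
      have : toDer (x, Function.update φ (Sum.inr b) s) =
          ((x, fun a => φ (Sum.inl a)), Function.update (fun c => φ (Sum.inr c)) b s) := by
        refine Prod.ext (Prod.ext rfl ?_) ?_
        · funext a
          simp [toDer]
        · funext c
          by_cases hc : c = b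
          · subst hc; simp [toDer]
          · simp [toDer, hc]
      show f (toDer (x, Function.update φ (Sum.inr b) s)) = f (toDer (x, φ))
      rw [this]
      exact hf _ _ _
    · rw [← e]
      exact h1
    · have h4 := e (fun V => sgn V.1.1 * f V)
      rw [h2] at h4
      exact h4.symm

/-- states reached from `G0` by one move of class `b` inside a window of `Wd` -/
def reach (S : CS (Fin J ⊕ B) L X) (b : B) (Wd : Set (St B L (St (Fin J) L X)))
    (G0 : Set (St (Fin J) L X)) : Set (St (Fin J) L X) :=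
  {ω | ∃ V ∈ Wd, pos S V ∅ = ω ∧ pos S V {b} ∈ G0}

theorem pos_empty (S : CS (Fin J ⊕ B) L X) (V : St B L (St (Fin J) L X)) : pos S V ∅ = V.1 := by
  unfold pos
  rw [CS.flipSet_empty_apply]

theorem pos_singleton (S : CS (Fin J ⊕ B) L X) (V : St B L (St (Fin J) L X)) (b : B) :
    pos S V {b} = S.derived.step b (V.2 b) V.1 := by
  unfold pos
  rw [CS.flipSet_singleton]
  rfl

/-- the state of a position is uniformly distributed -/
theorem prob_pos (S : CS (Fin J ⊕ B) L X) (b : Finset B) (G0 : Set (St (Fin J) L X)) :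
    prob {V | pos S V b ∈ G0} = prob G0 := by
  have h1 : {V : St B L (St (Fin J) L X) | pos S V b ∈ G0} =
      {V | S.derived.flipSet b V ∈ {W : St B L (St (Fin J) L X) | W.1 ∈ G0}} := rfl
  rw [h1, prob_equiv (S.derived.flipSet b), prob_fst]

/-- the probability that the state lies in `P` and its neighbour in class `b` in `G` -/
theorem prob_pair (S : CS (Fin J ⊕ B) L X) (b : B) (P G : Set (St (Fin J) L X))
    [∀ x, Decidable (x ∈ P)] [∀ x, Decidable (x ∈ G)] :
    prob {V : St B L (St (Fin J) L X) | V.1 ∈ P ∧ S.derived.step b (V.2 b) V.1 ∈ G} =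
      (∑ ω, (if ω ∈ P then (1 : ℝ) else 0) *
        avg (fun s : L => if S.derived.step b s ω ∈ G then (1 : ℝ) else 0)) /
          Fintype.card (St (Fin J) L X) := by
  have hL : (Fintype.card L : ℝ) ≠ 0 := by exact_mod_cast Fintype.card_ne_zero
  have hBL : (Fintype.card (B → L) : ℝ) ≠ 0 := by exact_mod_cast Fintype.card_ne_zero
  rw [prob_sum, Fintype.card_prod, Fintype.sum_prod_type]
  have key : ∀ F : L → ℝ, ∑ φ : B → L, F (φ b) =
      (Fintype.card (B → L) : ℝ) * ((∑ s, F s) / Fintype.card L) := by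
    classical
    intro F
    have h1 : ∀ s : L, ((univ.filter fun φ : B → L => φ b = s).card : ℝ) * Fintype.card L =
        Fintype.card (B → L) := by
      intro s
      have h2 : ∀ s t : L, (univ.filter fun φ : B → L => φ b = s).card =
          (univ.filter fun φ : B → L => φ b = t).card := by
        intro s t
        refine card_bij (fun φ _ => Function.update φ b t) ?_ ?_ ?_
        · intro φ _
          rw [mem_filter]
          exact ⟨mem_univ _, by simp⟩
        · intro φ hφ ψ hψ h
          rw [mem_filter] at hφ hψ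
          funext c
          by_cases hc : c = b
          · subst hc; rw [hφ.2, hψ.2]
          · have := congrFun h c
            simpa [Function.update_of_ne hc] using this
        · intro ψ hψ
          rw [mem_filter] at hψ
          refine ⟨Function.update ψ b s, mem_filter.mpr ⟨mem_univ _, by simp⟩, ?_⟩
          funext c
          by_cases hc : c = b
          · subst hc; simp [hψ.2]
          · simp [Function.update_of_ne hc]
      have h3 : Fintype.card (B → L) = ∑ t : L, (univ.filter fun φ : B → L => φ b = t).card := by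
        rw [← card_univ]
        exact card_eq_sum_card_fiberwise fun φ _ => mem_univ _
      rw [h3, sum_congr rfl fun t _ => h2 t s, sum_const, card_univ, smul_eq_mul]
      push_cast
      ring
    have h4 : ∑ φ : B → L, F (φ b) = ∑ s : L, ((univ.filter fun φ : B → L => φ b = s).card : ℝ) *
        F s := by
      rw [← sum_fiberwise_of_maps_to (s := univ) (t := univ) (g := fun φ : B → L => φ b)
        (fun _ _ => mem_univ _)]
      refine sum_congr rfl fun s _ => ?_
      rw [sum_congr rfl fun φ hφ => by rw [(mem_filter.mp hφ).2], sum_const, nsmul_eq_mul]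
    rw [h4, sum_div, mul_sum]
    refine sum_congr rfl fun s _ => ?_
    rw [← h1 s]
    field_simp
  have h5 : ∀ ω : St (Fin J) L X, ∑ φ : B → L, (if (ω, φ) ∈ {V : St B L (St (Fin J) L X) |
      V.1 ∈ P ∧ S.derived.step b (V.2 b) V.1 ∈ G} then (1 : ℝ) else 0) =
      (Fintype.card (B → L) : ℝ) * ((if ω ∈ P then (1 : ℝ) else 0) *
        avg (fun s : L => if S.derived.step b s ω ∈ G then (1 : ℝ) else 0)) := by
    intro ω
    have h6 := key (fun s => (if ω ∈ P then (1 : ℝ) else 0) *
      (if S.derived.step b s ω ∈ G then (1 : ℝ) else 0))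
    have h7 : (∑ s : L, (if ω ∈ P then (1 : ℝ) else 0) *
        (if S.derived.step b s ω ∈ G then (1 : ℝ) else 0)) / Fintype.card L =
        (if ω ∈ P then (1 : ℝ) else 0) *
          avg (fun s : L => if S.derived.step b s ω ∈ G then (1 : ℝ) else 0) := by
      unfold avg
      rw [← mul_sum, mul_div_assoc]
    rw [h7] at h6
    rw [← h6]
    refine sum_congr rfl fun φ _ => ?_
    by_cases h1 : ω ∈ P <;> by_cases h2 : S.derived.step b (φ b) ω ∈ G <;> simp [h1, h2]
  rw [sum_congr rfl fun ω _ => h5 ω, ← mul_sum]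
  push_cast
  rw [mul_comm (Fintype.card (St (Fin J) L X) : ℝ), mul_div_mul_left _ _ hBL]

/-- one application of the gap: a set `P` which does not see `G` (up to the probability `δ`) -/
theorem pair_bound (S : CS (Fin J ⊕ B) L X) {sgn : X → ℝ} {lam : ℝ} (h : Gap S sgn lam) (b : B)
    (P G : Set (St (Fin J) L X)) (k δ : ℝ)
    (hk : (k = 1 ∧ ∀ x, sgn x = 1) ∨ (k = 2 ∧ (∑ x, sgn x = 0) ∧
      (∀ i a x, sgn (S.step i a x) = - sgn x) ∧
      ∃ e : ℝ, e * e = 1 ∧ (∀ ω ∈ P, sgn ω.1 = -e) ∧ ∀ ω ∈ G, sgn ω.1 = e))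
    (hδ : prob {V : St B L (St (Fin J) L X) | V.1 ∈ P ∧ S.derived.step b (V.2 b) V.1 ∈ G} ≤ δ) :
    (k - 1 / 2) * (prob P * prob G) ≤ δ + lam ^ 2 / 2 := by
  classical
  have hd := gap_derived S h
  have hN : (0 : ℝ) < Fintype.card (St (Fin J) L X) := by exact_mod_cast Fintype.card_pos
  set N : ℝ := (Fintype.card (St (Fin J) L X) : ℝ) with hNdef
  set gP : St (Fin J) L X → ℝ := fun ω => if ω ∈ P then 1 else 0 with hgP
  set gG : St (Fin J) L X → ℝ := fun ω => if ω ∈ G then 1 else 0 with hgG
  have hPs : prob P = (∑ ω, gP ω) / N := prob_sum P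
  have hGs : prob G = (∑ ω, gG ω) / N := prob_sum G
  have hP2 : ∑ ω, gP ω ^ 2 = ∑ ω, gP ω := sum_congr rfl fun ω _ => by
    rw [hgP]; dsimp only; split_ifs <;> norm_num
  have hG2 : ∑ ω, gG ω ^ 2 = ∑ ω, gG ω := sum_congr rfl fun ω _ => by
    rw [hgG]; dsimp only; split_ifs <;> norm_num
  have hP0 : 0 ≤ ∑ ω, gP ω := sum_nonneg fun ω _ => by rw [hgP]; dsimp only; split_ifs <;> norm_num
  have hG0 : 0 ≤ ∑ ω, gG ω := sum_nonneg fun ω _ => by rw [hgG]; dsimp only; split_ifs <;> norm_num
  have havg_add : ∀ u v : L → ℝ, avg (fun s => u s + v s) = avg u + avg v := by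
    intro u v
    unfold avg
    rw [sum_add_distrib, add_div]
  have havg_const : ∀ c : ℝ, avg (fun _ : L => c) = c := by
    intro c
    unfold avg
    rw [sum_const, card_univ, nsmul_eq_mul]
    have : (Fintype.card L : ℝ) ≠ 0 := by exact_mod_cast Fintype.card_ne_zero
    field_simp
  rw [prob_pair] at hδ
  -- the decomposition
  obtain ⟨r, hr1, hr2⟩ : ∃ r : St (Fin J) L X → ℝ,
      (∀ ω ∈ P, avg (fun s : L => gG (S.derived.step b s ω)) = k * prob G + r ω) ∧
      ∑ ω, r ω ^ 2 ≤ lam ^ 2 * ∑ ω, gG ω ^ 2 := by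
    rcases hk with ⟨hk1, hk2⟩ | ⟨hk1, hk2, hk3, e, he, hPe, hGe⟩
    · have h3 : ∑ ω, (gG ω - prob G) = 0 := by
        rw [sum_sub_distrib, sum_const, card_univ, nsmul_eq_mul, hGs]
        field_simp
        ring
      have h5 := gap_state hd b (fun ω => gG ω - prob G) h3 (by simp only [hk2, one_mul]; exact h3)
      refine ⟨fun ω => avg (fun s : L => gG (S.derived.step b s ω) - prob G), ?_, h5.trans ?_⟩
      · intro ω _
        have h7 := havg_add (fun s : L => gG (S.derived.step b s ω) - prob G) (fun _ => prob G)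
        simp only [sub_add_cancel, havg_const] at h7
        rw [h7, hk1]
        ring
      · refine mul_le_mul_of_nonneg_left ?_ (sq_nonneg _)
        have h9 : ∑ ω, (gG ω - prob G) ^ 2 = ∑ ω, gG ω ^ 2 - prob G * ∑ ω, gG ω -
            prob G * ∑ ω, (gG ω - prob G) := by
          rw [mul_sum, mul_sum, ← sum_sub_distrib, ← sum_sub_distrib]
          exact sum_congr rfl fun x _ => by ring
        rw [h9, h3]
        have : 0 ≤ prob G * ∑ ω, gG ω := mul_nonneg (prob_nonneg _) hG0
        linarith
    · have hsG : ∀ ω : St (Fin J) L X, sgn ω.1 * gG ω = e * gG ω := by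
        intro ω
        rw [hgG]
        dsimp only
        split_ifs with hω
        · rw [hGe ω hω]
        · ring
      have hsq : ∀ x, sgn x * sgn x = 1 := fun x => by
        rcases h.val x with h' | h' <;> rw [h'] <;> norm_num
      have hsum : ∑ ω : St (Fin J) L X, sgn ω.1 = 0 := by
        rw [Fintype.sum_prod_type]
        simp only [sum_const, card_univ, nsmul_eq_mul]
        rw [← mul_sum, hk2, mul_zero]
      have h3 : ∑ ω, (gG ω - prob G - e * prob G * sgn ω.1) = 0 := by
        rw [sum_sub_distrib, sum_sub_distrib, sum_const, card_univ, nsmul_eq_mul, ← mul_sum, hsum,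
          hGs]
        field_simp
        ring
      have h4 : ∑ ω, sgn ω.1 * (gG ω - prob G - e * prob G * sgn ω.1) = 0 := by
        have h5 : ∀ ω : St (Fin J) L X, sgn ω.1 * (gG ω - prob G - e * prob G * sgn ω.1) =
            e * (gG ω - prob G) - prob G * sgn ω.1 := by
          intro ω
          have h6 := hsG ω
          have h7 := hsq ω.1
          linear_combination h6 - e * prob G * h7
        rw [sum_congr rfl fun ω _ => h5 ω, sum_sub_distrib, ← mul_sum, ← mul_sum, hsum,
          sum_sub_distrib, sum_const, card_univ, nsmul_eq_mul, hGs]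
        field_simp
        ring
      have h5 := gap_state hd b (fun ω => gG ω - prob G - e * prob G * sgn ω.1) h3 h4
      refine ⟨fun ω => avg (fun s : L => gG (S.derived.step b s ω) - prob G -
        e * prob G * sgn (S.derived.step b s ω).1), ?_, h5.trans ?_⟩
      · intro ω hω
        have h7 := havg_add (fun s : L => gG (S.derived.step b s ω) - prob G -
          e * prob G * sgn (S.derived.step b s ω).1) (fun _ => 2 * prob G)
        rw [havg_const] at h7
        have h8 : (fun s : L => gG (S.derived.step b s ω) - prob G -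
            e * prob G * sgn (S.derived.step b s ω).1 + 2 * prob G) =
            fun s : L => gG (S.derived.step b s ω) := by
          funext s
          have h9 : sgn (S.derived.step b s ω).1 = e := by
            have : sgn (S.derived.step b s ω).1 = - sgn ω.1 := hk3 _ _ _
            rw [this, hPe ω hω, neg_neg]
          rw [h9]
          linear_combination (-prob G) * he
        rw [h8] at h7
        rw [h7, hk1]
        ring
      · refine mul_le_mul_of_nonneg_left ?_ (sq_nonneg _)
        have h9 : ∑ ω, (gG ω - prob G - e * prob G * sgn ω.1) ^ 2 = ∑ ω, gG ω ^ 2 -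
            prob G * ∑ ω, gG ω - (e * e) * prob G * ∑ ω, gG ω
            - prob G * ∑ ω, (gG ω - prob G - e * prob G * sgn ω.1) -
            e * prob G * ∑ ω, sgn ω.1 * (gG ω - prob G - e * prob G * sgn ω.1) := by
          simp only [mul_sum]
          rw [← sum_sub_distrib, ← sum_sub_distrib, ← sum_sub_distrib, ← sum_sub_distrib]
          refine sum_congr rfl fun ω _ => ?_
          have := hsG ω
          linear_combination (-e * prob G) * this
        rw [h9, h3, h4, he]
        have : 0 ≤ prob G * ∑ ω, gG ω := mul_nonneg (prob_nonneg _) hG0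
        linarith
  have h1 : ∑ ω, gP ω * avg (fun s : L => gG (S.derived.step b s ω)) =
      k * prob G * ∑ ω, gP ω + ∑ ω, gP ω * r ω := by
    rw [mul_sum, ← sum_add_distrib]
    refine sum_congr rfl fun ω _ => ?_
    by_cases hω : ω ∈ P
    · rw [hr1 ω hω]; ring
    · have : gP ω = 0 := by rw [hgP]; simp [hω]
      rw [this]; ring
  have h2 : (∑ ω, gP ω * r ω) ^ 2 ≤ (∑ ω, gP ω ^ 2) * ∑ ω, r ω ^ 2 :=
    sum_mul_sq_le_sq_mul_sq _ _ _
  rw [hP2] at h2
  rw [hG2] at hr2
  set p := prob P with hp
  set g := prob G with hg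
  have hp0 : 0 ≤ p := prob_nonneg _
  have hg0 : 0 ≤ g := prob_nonneg _
  have ePs : ∑ ω, gP ω = p * N := by rw [hPs]; field_simp
  have eGs : ∑ ω, gG ω = g * N := by rw [hGs]; field_simp
  set u := (∑ ω, gP ω * r ω) / N with hu
  have h3 : k * (p * g) + u ≤ δ := by
    have h4 : (∑ ω, gP ω * avg (fun s : L => gG (S.derived.step b s ω))) / N ≤ δ := hδ
    rw [h1, ePs, add_div, ← hu] at h4
    have h5 : k * g * (p * N) / N = k * (p * g) := by field_simp
    rw [h5] at h4
    exact h4
  have h4 : u ^ 2 ≤ lam ^ 2 * (p * g) := by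
    rw [hu, div_pow, div_le_iff₀ (by positivity)]
    calc (∑ ω, gP ω * r ω) ^ 2 ≤ (∑ ω, gP ω) * ∑ ω, r ω ^ 2 := h2
      _ ≤ (∑ ω, gP ω) * (lam ^ 2 * ∑ ω, gG ω) := mul_le_mul_of_nonneg_left hr2 hP0
      _ = lam ^ 2 * (p * g) * N ^ 2 := by rw [ePs, eGs]; ring
  have h5 : -u ≤ p * g / 2 + lam ^ 2 / 2 := by
    have h6 : u ^ 2 ≤ (p * g / 2 + lam ^ 2 / 2) ^ 2 := by
      nlinarith [sq_nonneg (p * g / 2 - lam ^ 2 / 2)]
    have h7 : 0 ≤ p * g / 2 + lam ^ 2 / 2 := by positivity
    exact (neg_le_abs u).trans (abs_le_of_sq_le_sq h6 h7)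
  linarith

theorem prob_out (S : CS (Fin J ⊕ B) L X) (b : B) (Wd : Set (St B L (St (Fin J) L X)))
    (P G0 : Set (St (Fin J) L X)) (hP : ∀ ω ∈ P, ω ∉ reach S b Wd G0) :
    prob {V : St B L (St (Fin J) L X) | V.1 ∈ P ∧ S.derived.step b (V.2 b) V.1 ∈ G0} ≤
      prob Wdᶜ := by
  refine prob_mono fun V hV => ?_
  intro hVW
  refine hP V.1 hV.1 ⟨V, hVW, pos_empty S V, ?_⟩
  rw [pos_singleton]
  exact hV.2

theorem spread (S : CS (Fin J ⊕ B) L X) {sgn : X → ℝ} {lam : ℝ} (h : Gap S sgn lam) (b : B)
    (Wd : Set (St B L (St (Fin J) L X))) (G0 : Set (St (Fin J) L X)) :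
    prob (reach S b Wd G0 ∪ reach S b Wd (reach S b Wd G0))ᶜ * prob G0 ≤
      5 * (lam ^ 2 + prob Wdᶜ) := by
  set δ := prob Wdᶜ with hδ
  have hδ0 : 0 ≤ δ := prob_nonneg _
  set G1 := reach S b Wd G0 with hG1
  set G2 := reach S b Wd G1 with hG2
  set Z := (G1 ∪ G2)ᶜ with hZ
  have hZ1 : ∀ ω ∈ Z, ω ∉ G1 := fun ω hω h' => hω (Or.inl h')
  have hZ2 : ∀ ω ∈ Z, ω ∉ G2 := fun ω hω h' => hω (Or.inr h')
  have hm1 : prob G0 ≤ 1 := prob_le_one _
  have hm0 : 0 ≤ prob G0 := prob_nonneg _
  have hl : 0 ≤ lam ^ 2 := sq_nonneg _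
  rcases h.alt with h1 | ⟨h1, h2⟩
  · have h3 := pair_bound S h b Z G0 1 δ (Or.inl ⟨rfl, h1⟩) (prob_out S b Wd Z G0 hZ1)
    linarith
  · -- the two classes
    have hpm : ∀ e : ℝ, e * e = 1 → ∀ Y : Set (St (Fin J) L X),
        prob Y = prob (Y ∩ {ω | sgn ω.1 = e}) + prob (Y ∩ {ω | sgn ω.1 = -e}) := by
      intro e he Y
      have hne : e ≠ -e := by
        intro h'
        have : e = 0 := by linarith
        rw [this] at he
        norm_num at he
      rw [← prob_disj]
      · congr 1
        ext ω
        simp only [Set.mem_union, Set.mem_inter_iff, Set.mem_ofPred_eq]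
        have h4 : sgn ω.1 = e ∨ sgn ω.1 = -e := by
          have he' : e = 1 ∨ e = -1 := mul_self_eq_one_iff.mp he
          rcases he' with he' | he' <;> rcases h.val ω.1 with h' | h' <;> rw [h', he'] <;> simp
        tauto
      · rw [Set.disjoint_left]
        intro ω h3 h4
        exact hne (h3.2.symm.trans h4.2)
    have hhalf : ∀ e : ℝ, e * e = 1 →
        prob {ω : St (Fin J) L X | sgn ω.1 = e} = 1 / 2 := by
      classical
      intro e he
      have hN : (0 : ℝ) < Fintype.card (St (Fin J) L X) := by exact_mod_cast Fintype.card_pos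
      have h3 := hpm e he Set.univ
      rw [prob_univ, Set.univ_inter, Set.univ_inter] at h3
      have hsum : ∑ ω : St (Fin J) L X, sgn ω.1 = 0 := by
        rw [Fintype.sum_prod_type]
        simp only [sum_const, card_univ, nsmul_eq_mul]
        rw [← mul_sum, h1, mul_zero]
      have h4 : e * prob {ω : St (Fin J) L X | sgn ω.1 = e} -
          e * prob {ω : St (Fin J) L X | sgn ω.1 = -e} = 0 := by
        rw [prob_sum, prob_sum, ← mul_div_assoc, ← mul_div_assoc, ← sub_div, mul_sum, mul_sum,
          ← sum_sub_distrib]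
        have h5 : ∀ ω : St (Fin J) L X, e * (if ω ∈ {ω : St (Fin J) L X | sgn ω.1 = e} then (1 : ℝ)
            else 0) - e * (if ω ∈ {ω : St (Fin J) L X | sgn ω.1 = -e} then (1 : ℝ) else 0) =
            sgn ω.1 := by
          intro ω
          simp only [Set.mem_ofPred_eq]
          have he' : e = 1 ∨ e = -1 := mul_self_eq_one_iff.mp he
          have hne : e ≠ -e := by
            intro h'
            have : e = 0 := by linarith
            rw [this] at he
            norm_num at he
          by_cases h8 : sgn ω.1 = e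
          · have h9 : ¬ sgn ω.1 = -e := by rw [h8]; exact hne
            rw [if_pos h8, if_neg h9, h8]; ring
          · have h9 : sgn ω.1 = -e := by
              rcases he' with he' | he'
              · rcases h.val ω.1 with h' | h'
                · exact absurd (h'.trans he'.symm) h8
                · rw [h', he']
              · rcases h.val ω.1 with h' | h'
                · rw [h', he', neg_neg]
                · exact absurd (h'.trans he'.symm) h8
            rw [if_neg h8, if_pos h9, h9]; ring
        rw [sum_congr rfl fun ω _ => h5 ω, hsum, zero_div]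
      have h6 : prob {ω : St (Fin J) L X | sgn ω.1 = e} =
          prob {ω : St (Fin J) L X | sgn ω.1 = -e} := by
        have h7 := congrArg (fun t => e * t) h4
        simp only [mul_zero, mul_sub, ← mul_assoc, he, one_mul] at h7
        linarith
      linarith
    -- the larger class of `G0`
    obtain ⟨e, he, hbig⟩ : ∃ e : ℝ, e * e = 1 ∧
        prob G0 / 2 ≤ prob (G0 ∩ {ω | sgn ω.1 = e}) := by
      have h3 := hpm 1 (by norm_num) G0
      by_cases h4 : prob G0 / 2 ≤ prob (G0 ∩ {ω | sgn ω.1 = 1})
      · exact ⟨1, by norm_num, h4⟩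
      · refine ⟨-1, by norm_num, ?_⟩
        linarith
    have he' : -e * -e = 1 := by rw [neg_mul_neg]; exact he
    set c := δ * (2 / 3) + lam ^ 2 / 3 with hc
    have pb : ∀ (e : ℝ), e * e = 1 → ∀ P G : Set (St (Fin J) L X),
        (∀ ω ∈ P, ω ∉ reach S b Wd G) →
        prob (P ∩ {ω | sgn ω.1 = -e}) * prob (G ∩ {ω | sgn ω.1 = e}) ≤ c := by
      intro e he P G hPG
      have h3 := pair_bound S h b (P ∩ {ω | sgn ω.1 = -e}) (G ∩ {ω | sgn ω.1 = e}) 2 δ
        (Or.inr ⟨rfl, h1, h2, e, he, fun ω hω => hω.2, fun ω hω => hω.2⟩)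
        ((prob_mono (t := {V : St B L (St (Fin J) L X) | V.1 ∈ P ∧
          S.derived.step b (V.2 b) V.1 ∈ G}) fun V hV => ⟨hV.1.1, hV.2.1⟩).trans
          (prob_out S b Wd P G hPG))
      rw [hc]
      linarith
    -- z_- m_+ <= c, y m_+ <= c, z_+ mu(G1 -) <= c
    have a1 := pb e he Z G0 hZ1
    have a2 := pb e he G1ᶜ G0 (fun ω hω => hω)
    have a3 := pb (-e) he' Z G1 hZ2
    rw [neg_neg] at a3
    have a4 := hpm e he Z
    have a5 : prob (G1ᶜ ∩ {ω | sgn ω.1 = -e}) + prob (G1 ∩ {ω | sgn ω.1 = -e}) = 1 / 2 := by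
      rw [← hhalf (-e) he', ← prob_disj]
      · congr 1
        ext ω
        simp only [Set.mem_union, Set.mem_inter_iff, Set.mem_ofPred_eq, Set.mem_compl_iff]
        tauto
      · rw [Set.disjoint_left]
        intro ω h3 h4
        exact h3.1 h4.1
    have a6 : prob (Z ∩ {ω | sgn ω.1 = e}) ≤ 1 / 2 := by
      rw [← hhalf e he]
      exact prob_mono fun ω hω => hω.2
    set zp := prob (Z ∩ {ω | sgn ω.1 = e}) with hzp
    set zm := prob (Z ∩ {ω | sgn ω.1 = -e}) with hzm
    set mp := prob (G0 ∩ {ω | sgn ω.1 = e}) with hmp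
    set y := prob (G1ᶜ ∩ {ω | sgn ω.1 = -e}) with hy
    set g := prob (G1 ∩ {ω | sgn ω.1 = -e}) with hg
    set m := prob G0 with hm
    have hzp0 : 0 ≤ zp := prob_nonneg _
    have hzm0 : 0 ≤ zm := prob_nonneg _
    have hy0 : 0 ≤ y := prob_nonneg _
    have hg0 : 0 ≤ g := prob_nonneg _
    have hc0 : 0 ≤ c := by rw [hc]; positivity
    have b1 : zm * m ≤ 2 * c := by nlinarith
    have b2 : zp * m ≤ 4 * c := by
      by_cases h8 : m ≤ 8 * c
      · nlinarith
      · push Not at h8
        have b3 : y * m ≤ 2 * c := by nlinarith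
        have b4 : y ≤ 1 / 4 := by
          by_contra h9
          push Not at h9
          nlinarith
        have b5 : 1 / 4 ≤ g := by linarith
        have b6 : zp ≤ 4 * c := by nlinarith
        nlinarith
    rw [a4]
    have b3 : (zp + zm) * m ≤ 6 * c := by nlinarith
    refine b3.trans ?_
    rw [hc]
    linarith

end

end Fr

end Pool.Agent.SRL
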