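import Pool.Agent.SRL.FBasic
import Pool.Agent.SRL.FDefs2
import Pool.Agent.SRL.FSpread

/-!
Block F, row F10c: most windows are regular and have soft frames at all positions.
-/

set_option autoImplicit false
set_option linter.unusedSectionVars false
set_option linter.unusedVariables false

namespace Pool.Agent.SRL

open Finset

namespace Fr

theorem hasF_mono {B L X : Type} {J K : ℕ} (S : CS (Fin J ⊕ B) L X)
    (R : X × Fin K → X × Fin K → ℝ) {M k0 : ℕ} {l0 g s s' : ℝ} (h : s ≤ s') (l : Fin M → ℝ)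
    (y : (Fin k0 → Fin 2 ⊕ Fin M) → ℝ) : HasF S R l0 g s l y ⊆ HasF S R l0 g s' l y := by
  rintro ω ⟨e, he⟩
  exact ⟨e, sframe_mono h he⟩

/-- union bound over a finite type -/
theorem prob_exists_le {α β : Type} [Fintype α] [Fintype β] [DecidableEq β] (s : β → Set α) :
    prob {a | ∃ b, a ∈ s b} ≤ ∑ b, prob (s b) := by
  have key : ∀ t : Finset β, prob {a | ∃ b ∈ t, a ∈ s b} ≤ ∑ b ∈ t, prob (s b) := by
    intro t
    induction t using Finset.induction_on with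
    | empty =>
      rw [Finset.sum_empty]
      have : {a | ∃ b ∈ (∅ : Finset β), a ∈ s b} = ∅ := by
        ext a
        simp
      rw [this]
      unfold prob avg
      simp
    | insert b t hb ih =>
      rw [Finset.sum_insert hb]
      have : {a | ∃ b' ∈ insert b t, a ∈ s b'} ⊆ s b ∪ {a | ∃ b' ∈ t, a ∈ s b'} := by
        rintro a ⟨b', hb', ha⟩
        rcases Finset.mem_insert.1 hb' with h | h
        · exact Or.inl (h ▸ ha)
        · exact Or.inr ⟨b', h, ha⟩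
      exact (Sp.prob_mono this).trans ((Sp.prob_union_le _ _).trans (by linarith))
  refine le_trans (Sp.prob_mono ?_) (key Finset.univ)
  rintro a ⟨b, hb⟩
  exact ⟨b, Finset.mem_univ _, hb⟩

/-- The statement of `SFrame.transport` for fixed constants. -/
def TranspAt (M k0 : ℕ) (l0 g C s0 : ℝ) : Prop :=
  ∀ {P Q : Type} [Fintype Q] [Nonempty Q]
    (T : P → P → Q → Q → ℝ) (s : ℝ), 0 ≤ s → s ≤ s0 → Win k0 s T →
    ∀ (l : Fin M → ℝ), (∀ i, l0 + g ≤ |l i| ∧ |l i| ≤ 1) →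
    ∀ (y : (Fin k0 → Fin 2 ⊕ Fin M) → ℝ) (b c : P) (e : Fin M → Q → ℝ),
    SFrame l0 g s l y (T c c) e →
    SFrame l0 g (C * s) l y (T b b) (fun i => (l i)⁻¹ • op (T b c) (e i))

section
variable {B L X : Type} [DecidableEq B] [Fintype B] {J K : ℕ} [NeZero K]

theorem reach_hasF {M k0 : ℕ} {l0 g C s0 : ℝ} (htr : TranspAt M k0 l0 g C s0)
    (S : CS (Fin J ⊕ B) L X) (R : X × Fin K → X × Fin K → ℝ) (l : Fin M → ℝ)
    (hl : ∀ i, l0 + g ≤ |l i| ∧ |l i| ≤ 1) (y : (Fin k0 → Fin 2 ⊕ Fin M) → ℝ) (s eps : ℝ)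
    (hs : s ≤ s0) (he : 0 ≤ eps) (hes : eps ≤ s) (b : B)
    (G0 : Set (St (Fin J) L X)) (hG : G0 ⊆ HasF S R l0 g s l y) :
    reach S b {V | Win k0 eps (wker S R V)} G0 ⊆ HasF S R l0 g (C * s) l y := by
  rintro ω ⟨V, hV, h1, h2⟩
  obtain ⟨e, he'⟩ := hG h2
  have h3 := htr (wker S R V) s (he.trans hes) hs (win_mono he hes hV) l hl y ∅ {b} e he'
  subst h1
  exact ⟨_, h3⟩

end

theorem bad_bound_of (D M k0 : ℕ) (hD : 0 < D) {l0 g : ℝ}
    (htr : ∃ C s0 : ℝ, 1 ≤ C ∧ 0 < s0 ∧ TranspAt M k0 l0 g C s0) :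
    ∃ C s0 : ℝ, 1 ≤ C ∧ 0 < s0 ∧ ∀ {J q n K : ℕ} [NeZero q] [NeZero n] [NeZero K]
      (S : CS (Fin J ⊕ Fin D) (Fin q) (Fin n)) (sgn : Fin n → ℝ) (lam : ℝ), Gap S sgn lam →
      ∀ (R : Fin n × Fin K → Fin n × Fin K → ℝ), Col R →
      ∀ (l : Fin M → ℝ), (∀ i, l0 + g ≤ |l i| ∧ |l i| ≤ 1) →
      ∀ (y : (Fin k0 → Fin 2 ⊕ Fin M) → ℝ) (s eps : ℝ), s ≤ s0 → 0 ≤ eps → eps ≤ s →
      prob {V | ¬ Win k0 eps (wker S R V)} ≤ eps →
      ∀ G0 : Set (St (Fin J) (Fin q) (Fin n)), G0 ⊆ HasF S R l0 g s l y →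
      prob {V | ¬ Win k0 eps (wker S R V) ∨ ∃ b, pos S V b ∉ HasF S R l0 g (C * s) l y} *
        prob G0 ≤ (1 + 5 * 2 ^ D) * (lam ^ 2 + eps) := by
  obtain ⟨C, s0, hC, hs0, htr⟩ := htr
  have hC0 : 0 < C := lt_of_lt_of_le one_pos hC
  refine ⟨C * C, s0 / C, by nlinarith, by positivity, ?_⟩
  intro J q n K _ _ _ S sgn lam hgap R hR l hl y s eps hs he hes hW G0 hG0
  have hs' : C * s ≤ s0 := by
    rw [le_div_iff₀ hC0] at hs
    linarith
  have hs0' : 0 ≤ s := he.trans hes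
  have hsC : s ≤ C * s := by nlinarith
  set b0 : Fin D := ⟨0, hD⟩
  set Wd : Set (St (Fin D) (Fin q) (St (Fin J) (Fin q) (Fin n))) :=
    {V | Win k0 eps (wker S R V)} with hWd
  have h1 : reach S b0 Wd G0 ⊆ HasF S R l0 g (C * s) l y :=
    reach_hasF htr S R l hl y s eps (hsC.trans hs') he hes b0 G0 hG0
  have h2 : reach S b0 Wd (reach S b0 Wd G0) ⊆ HasF S R l0 g (C * (C * s)) l y :=
    reach_hasF htr S R l hl y (C * s) eps hs' he (hes.trans hsC) b0 _ h1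
  have h3 : reach S b0 Wd G0 ∪ reach S b0 Wd (reach S b0 Wd G0) ⊆
      HasF S R l0 g (C * C * s) l y := by
    rw [mul_assoc]
    refine Set.union_subset (h1.trans (hasF_mono S R ?_ l y)) h2
    nlinarith
  have h4 := spread S hgap b0 Wd G0
  have h5 : prob (HasF S R l0 g (C * C * s) l y)ᶜ * prob G0 ≤ 5 * (lam ^ 2 + prob Wdᶜ) := by
    refine le_trans (mul_le_mul_of_nonneg_right (Sp.prob_mono ?_) (Sp.prob_nonneg _)) h4
    exact Set.compl_subset_compl.2 h3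
  have hWc : prob Wdᶜ ≤ eps := hW
  have h6 : prob {V : St (Fin D) (Fin q) (St (Fin J) (Fin q) (Fin n)) |
      ¬ Win k0 eps (wker S R V) ∨ ∃ b, pos S V b ∉ HasF S R l0 g (C * C * s) l y} ≤
      prob Wdᶜ + 2 ^ D * prob (HasF S R l0 g (C * C * s) l y)ᶜ := by
    have a1 : {V : St (Fin D) (Fin q) (St (Fin J) (Fin q) (Fin n)) |
        ¬ Win k0 eps (wker S R V) ∨ ∃ b, pos S V b ∉ HasF S R l0 g (C * C * s) l y} ⊆
        Wdᶜ ∪ {V | ∃ b, V ∈ {V | pos S V b ∈ (HasF S R l0 g (C * C * s) l y)ᶜ}} := by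
      rintro V (h | ⟨b, h⟩)
      · exact Or.inl h
      · exact Or.inr ⟨b, h⟩
    refine (Sp.prob_mono a1).trans ((Sp.prob_union_le _ _).trans ?_)
    refine add_le_add le_rfl ((prob_exists_le _).trans ?_)
    rw [Finset.sum_congr rfl (fun b _ => prob_pos S b (HasF S R l0 g (C * C * s) l y)ᶜ),
      Finset.sum_const, nsmul_eq_mul, Finset.card_univ, Fintype.card_finset, Fintype.card_fin]
    push_cast
    exact le_rfl
  have hG1 : prob G0 ≤ 1 := Sp.prob_le_one _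
  have hG2 : 0 ≤ prob G0 := Sp.prob_nonneg _
  have hp : 0 ≤ prob Wdᶜ := Sp.prob_nonneg _
  have h2D : (0 : ℝ) < 2 ^ D := by positivity
  calc prob {V : St (Fin D) (Fin q) (St (Fin J) (Fin q) (Fin n)) |
      ¬ Win k0 eps (wker S R V) ∨ ∃ b, pos S V b ∉ HasF S R l0 g (C * C * s) l y} * prob G0
      ≤ (prob Wdᶜ + 2 ^ D * prob (HasF S R l0 g (C * C * s) l y)ᶜ) * prob G0 :=
        mul_le_mul_of_nonneg_right h6 hG2
    _ = prob Wdᶜ * prob G0 + 2 ^ D * (prob (HasF S R l0 g (C * C * s) l y)ᶜ * prob G0) := by ring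
    _ ≤ eps * 1 + 2 ^ D * (5 * (lam ^ 2 + eps)) := by
        refine add_le_add (mul_le_mul hWc hG1 hG2 he) (mul_le_mul_of_nonneg_left ?_ h2D.le)
        exact h5.trans (by linarith)
    _ ≤ (1 + 5 * 2 ^ D) * (lam ^ 2 + eps) := by
        nlinarith [sq_nonneg lam]

end Fr

end Pool.Agent.SRL
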