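import Pool.Agent.SRL.FRes64

/-! Row F2: transport of soft frames. -/

set_option autoImplicit false

namespace Pool.Agent.SRL

open Finset

namespace Fr

section transport
variable {P Q : Type} [Fintype Q] [Nonempty Q] {M k0 : ℕ} {s l0 g : ℝ} {T : P → P → Q → Q → ℝ}
  {l : Fin M → ℝ} {y : (Fin k0 → Fin 2 ⊕ Fin M) → ℝ} {b c : P} {e : Fin M → Q → ℝ}

/-- products of bounded numbers -/
theorem abs_prod_fin_sub_le {n : ℕ} (x y : Fin n → ℝ) {B : ℝ} (hB : 1 ≤ B) (hx : ∀ t, |x t| ≤ B)
    (hy : ∀ t, |y t| ≤ B) : |∏ t, x t - ∏ t, y t| ≤ ∑ t, B ^ n * |x t - y t| := by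
  induction n with
  | zero => simp
  | succ n ih =>
    rw [Fin.prod_univ_succ, Fin.prod_univ_succ, Fin.sum_univ_succ]
    have h1 := ih (fun t => x t.succ) (fun t => y t.succ) (fun t => hx _) (fun t => hy _)
    have e1 : x 0 * ∏ t : Fin n, x t.succ - y 0 * ∏ t : Fin n, y t.succ =
        (x 0 - y 0) * ∏ t : Fin n, x t.succ +
          y 0 * (∏ t : Fin n, x t.succ - ∏ t : Fin n, y t.succ) := by ring
    rw [e1]
    refine (abs_add_le _ _).trans (add_le_add ?_ ?_)
    · rw [abs_mul, mul_comm]
      refine mul_le_mul_of_nonneg_right ?_ (abs_nonneg _)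
      rw [abs_prod]
      calc ∏ t : Fin n, |x t.succ| ≤ ∏ _t : Fin n, B :=
            prod_le_prod (fun _ _ => abs_nonneg _) fun t _ => hx _
        _ = B ^ n := by simp
        _ ≤ B ^ (n + 1) := pow_le_pow_right₀ hB (Nat.le_succ n)
    · rw [abs_mul]
      calc |y 0| * |∏ t : Fin n, x t.succ - ∏ t : Fin n, y t.succ|
          ≤ B * ∑ t : Fin n, B ^ n * |x t.succ - y t.succ| :=
            mul_le_mul (hy 0) h1 (abs_nonneg _) (by linarith)
        _ = ∑ t : Fin n, B ^ (n + 1) * |x t.succ - y t.succ| := by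
            rw [mul_sum]
            exact sum_congr rfl fun t _ => by ring

omit [Nonempty Q] in
theorem avg_abs_le_nrm64 (f : Q → ℝ) : avg (fun p => |f p|) ≤ nrm f := by
  have h := abs_avg_le_nrm (fun p => |f p|)
  have h1 : nrm (fun p => |f p|) = nrm f := by
    unfold nrm ip
    congr 2; funext p; exact abs_mul_abs_self _
  rw [h1] at h
  exact (le_abs_self _).trans h

omit [Nonempty Q] in
/-- moments of two families of bounded row vectors that are close in `L2` -/
theorem mom_near (h h' : Q → Fin 2 ⊕ Fin M → ℝ) {B δ : ℝ} (hB : 1 ≤ B)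
    (h1 : ∀ p o, |h p o| ≤ B) (h2 : ∀ p o, |h' p o| ≤ B)
    (h3 : ∀ o, nrm (fun p => h p o - h' p o) ≤ δ) (w : Fin k0 → Fin 2 ⊕ Fin M) :
    |mom k0 h w - mom k0 h' w| ≤ k0 * B ^ k0 * δ := by
  unfold mom
  rw [← avg_sub]
  refine (abs_avg_le _).trans ?_
  calc avg (fun p => |∏ t, h p (w t) - ∏ t, h' p (w t)|)
      ≤ avg (fun p => ∑ t, B ^ k0 * |h p (w t) - h' p (w t)|) := avg_mono fun p =>
        abs_prod_fin_sub_le _ _ hB (fun t => h1 p _) (fun t => h2 p _)
    _ = ∑ t, B ^ k0 * avg (fun p => |h p (w t) - h' p (w t)|) := by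
        rw [avg_sum]
        exact sum_congr rfl fun t _ => avg_mul_left _ _
    _ ≤ ∑ _t : Fin k0, B ^ k0 * δ := by
        refine sum_le_sum fun t _ => mul_le_mul_of_nonneg_left ?_ (by positivity)
        exact (avg_abs_le_nrm64 (fun p => h p (w t) - h' p (w t))).trans (h3 (w t))
    _ = k0 * B ^ k0 * δ := by
        rw [sum_const, card_univ, Fintype.card_fin, nsmul_eq_mul]; ring

/-- the row vector `(1, T_bc 1, T_bc e_1, ...)` -/
noncomputable def rowT (T : Q → Q → ℝ) (e : Fin M → Q → ℝ) (p : Q) : Fin 2 ⊕ Fin M → ℝ :=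
  Sum.elim ![1, op T 1 p] (fun i => op T (e i) p)

/-- the function whose image is a coordinate of `rowT` -/
def src (e : Fin M → Q → ℝ) : Fin 2 ⊕ Fin M → Q → ℝ := Sum.elim (fun _ => 1) e

theorem mom_rowT (T : Q → Q → ℝ) (e : Fin M → Q → ℝ) (w : Fin k0 → Fin 2 ⊕ Fin M) :
    mom k0 (rowT T e) w = avg (fun q : Fin k0 → Q =>
      (∏ t with w t ≠ Sum.inl 0, src e (w t) (q t)) *
        avg (fun p => ∏ t with w t ≠ Sum.inl 0, T p (q t))) := by
  unfold mom
  have h1 : ∀ p, ∏ t, rowT T e p (w t) = avg (fun q : Fin k0 → Q =>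
      (∏ t with w t ≠ Sum.inl 0, src e (w t) (q t)) * ∏ t with w t ≠ Sum.inl 0, T p (q t)) := by
    intro p
    have h2 : ∀ t, rowT T e p (w t) = avg (fun q : Q => if w t ≠ Sum.inl 0 then
        src e (w t) q * T p q else 1) := by
      intro t
      rcases hw : w t with i | i
      · fin_cases i
        · simp [rowT, avg_const]
        · simp only [rowT, Sum.elim_inl, src, op, Fin.mk_one, Fin.isValue, Matrix.cons_val_one,
            Matrix.cons_val_fin_one, Pi.one_apply, mul_one, one_mul]
          rfl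
      · simp only [rowT, Sum.elim_inr, src, op, ne_eq, reduceCtorEq, not_false_eq_true, if_true]
        congr 1; funext q; ring
    simp only [h2]
    rw [← avg_pi_prod]
    congr 1; funext q
    rw [prod_ite, prod_const_one, mul_one, prod_mul_distrib]
  simp only [h1]
  rw [avg_comm]
  congr 1; funext q
  rw [avg_mul_left]

omit [Nonempty Q] in
theorem avg_prod_filter [Nonempty Q] (w : Fin k0 → Fin 2 ⊕ Fin M) (f : Fin k0 → Q → ℝ) :
    avg (fun q : Fin k0 → Q => ∏ t with w t ≠ Sum.inl 0, f t (q t)) =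
      ∏ t with w t ≠ Sum.inl 0, avg (f t) := by
  have h1 : ∀ q : Fin k0 → Q, ∏ t with w t ≠ Sum.inl 0, f t (q t) =
      ∏ t, if w t ≠ Sum.inl 0 then f t (q t) else 1 := fun q => by
    rw [prod_ite, prod_const_one, mul_one]
  simp only [h1]
  have h2 := avg_pi_prod (fun t (q : Q) => if w t ≠ Sum.inl 0 then f t q else 1)
  rw [h2]
  have h3 : ∀ t, avg (fun q : Q => if w t ≠ Sum.inl 0 then f t q else 1) =
      if w t ≠ Sum.inl 0 then avg (f t) else 1 := by
    intro t
    by_cases h : w t ≠ Sum.inl 0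
    · simp only [if_pos h]
    · simp only [if_neg h]; exact avg_const 1
  simp only [h3]
  rw [prod_ite, prod_const_one, mul_one]

/-- transport of the raw moments -/
theorem mom_rowT_close (hW : Win k0 s T) (b b' c : P) (e : Fin M → Q → ℝ)
    (he2 : ∀ i, nrm (e i) ≤ 2) (w : Fin k0 → Fin 2 ⊕ Fin M) :
    |mom k0 (rowT (T b c) e) w - mom k0 (rowT (T b' c) e) w| ≤ 2 ^ k0 * s := by
  rw [mom_rowT, mom_rowT, ← avg_sub]
  set S : Finset (Fin k0) := univ.filter fun t => w t ≠ Sum.inl 0 with hS
  set Ffun : (Fin k0 → Q) → ℝ := fun q => ∏ t ∈ S, src e (w t) (q t) with hF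
  set Dfun : (Fin k0 → Q) → ℝ := fun q => avg (fun p => ∏ t ∈ S, T b c p (q t)) -
    avg (fun p => ∏ t ∈ S, T b' c p (q t)) with hD
  have e1 : (fun q : Fin k0 → Q => Ffun q * avg (fun p => ∏ t ∈ S, T b c p (q t)) -
      Ffun q * avg (fun p => ∏ t ∈ S, T b' c p (q t))) = fun q => Ffun q * Dfun q := by
    funext q; rw [hD]; ring
  have e2 : avg (fun q : Fin k0 → Q => Ffun q * avg (fun p => ∏ t ∈ S, T b c p (q t)) -
      Ffun q * avg (fun p => ∏ t ∈ S, T b' c p (q t))) = ip Ffun Dfun := by
    rw [e1]; rfl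
  rw [e2]
  refine (abs_ip_le _ _).trans ?_
  have hs0 : 0 ≤ s := (hs_nonneg _).trans (hW.tri b b b b)
  have h1 : nrm Dfun ≤ s := by
    rw [nrm, Real.sqrt_le_left hs0]
    have := hW.ten S b b' c
    have e3 : ip Dfun Dfun = avg (fun q : Fin k0 → Q => (Dfun q) ^ 2) := by
      unfold ip; congr 1; funext q; ring
    rw [e3]
    exact this
  have h2 : nrm Ffun ≤ 2 ^ k0 := by
    have h3 : nrm Ffun ^ 2 ≤ (2 ^ k0) ^ 2 := by
      rw [nrm_sq]
      have e3 : ip Ffun Ffun = ∏ t ∈ S, avg (fun q => src e (w t) q ^ 2) := by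
        have := avg_prod_filter w (fun t (q : Q) => src e (w t) q ^ 2)
        rw [hS, ← this]
        unfold ip
        congr 1; funext q
        rw [hF]
        simp only
        rw [← prod_mul_distrib]
        exact prod_congr rfl fun t _ => by ring
      rw [e3]
      have h4 : ∀ t ∈ S, avg (fun q => src e (w t) q ^ 2) ≤ 4 := by
        intro t _
        rcases hw : w t with i | i
        · simp only [src, Sum.elim_inl, Pi.one_apply, one_pow]
          rw [avg_const]; norm_num
        · simp only [src, Sum.elim_inr]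
          have h5 : avg (fun q => e i q ^ 2) = nrm (e i) ^ 2 := by
            rw [nrm_sq]; unfold ip; congr 1; funext q; ring
          rw [h5]
          have := pow_le_pow_left₀ (nrm_nonneg (e i)) (he2 i) 2
          linarith
      calc ∏ t ∈ S, avg (fun q => src e (w t) q ^ 2) ≤ ∏ _t ∈ S, (4 : ℝ) :=
            prod_le_prod (fun t _ => avg_nonneg fun _ => sq_nonneg _) h4
        _ = 4 ^ S.card := by simp
        _ ≤ 4 ^ k0 := pow_le_pow_right₀ (by norm_num) (by
            have := card_le_univ S; simpa using this)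
        _ = (2 ^ k0) ^ 2 := by rw [← pow_mul, mul_comm k0 2, pow_mul]; norm_num
    exact (abs_le_of_sq_le_sq' h3 (by positivity)).2
  exact mul_le_mul h2 h1 (nrm_nonneg _) (by positivity)

/-- Row F2: transport of soft frames. -/
theorem SFrame.transport (M k0 : ℕ) {l0 g : ℝ} (hg : 0 < g) (hl0 : g < l0) :
    ∃ C s0 : ℝ, 1 ≤ C ∧ 0 < s0 ∧ ∀ {P Q : Type} [Fintype Q] [Nonempty Q]
      (T : P → P → Q → Q → ℝ) (s : ℝ), 0 ≤ s → s ≤ s0 → Win k0 s T →
      ∀ (l : Fin M → ℝ), (∀ i, l0 + g ≤ |l i| ∧ |l i| ≤ 1) →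
      ∀ (y : (Fin k0 → Fin 2 ⊕ Fin M) → ℝ) (b c : P) (e : Fin M → Q → ℝ),
      SFrame l0 g s l y (T c c) e →
      SFrame l0 g (C * s) l y (T b b) (fun i => (l i)⁻¹ • op (T b c) (e i)) := by
  have hl00 : 0 < l0 := hg.trans hl0
  have hρ0 : 0 < l0 - g := by linarith
  set K := l0⁻¹ with hK
  have hK0 : 0 < K := inv_pos.2 hl00
  set R := l0 + 1 with hR
  have hM : (0 : ℝ) ≤ M := Nat.cast_nonneg M
  have hresC : 0 ≤ resC M K (l0 - g) R := by
    unfold resC c10 c6 c3; positivity
  set C := 1 + 9 * K ^ 2 + 3 * K + (1 + resC M K (l0 - g) R) +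
    (1 + 2 ^ k0 + 2 * (k0 * 2 ^ k0)) with hC
  have hk : (0 : ℝ) ≤ 2 ^ k0 := by positivity
  have hk' : (0 : ℝ) ≤ k0 * 2 ^ k0 := by positivity
  refine ⟨C, 1 / (2 * (M + 1)), ?_, by positivity, ?_⟩
  · rw [hC]; nlinarith [sq_nonneg K]
  intro P Q _ _ T s hs0 hs1 hW l hl y b c e hF
  have hs2 : (M : ℝ) * s ≤ 1 / 2 := by
    have h1 : (M + 1 : ℝ) * s ≤ 1 / 2 := by
      rw [le_div_iff₀ (by positivity)] at hs1
      linarith
    nlinarith
  have hs3 : s ≤ 1 := by
    refine hs1.trans ?_
    rw [div_le_one (by positivity)]; linarith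
  have hla : ∀ i, l0 ≤ |l i| := fun i => by have := (hl i).1; linarith
  have hlb : ∀ i, |l i| ≤ 1 := fun i => (hl i).2
  have he2 := soft_nrm hs0 hs2 hF.orth
  refine ⟨?_, ?_, ?_, ?_, ?_⟩
  · exact tr_sup hW hs0 hs2 hl00 hla hF.orth
  · intro i j
    refine (tr_orth hW hs0 hs2 hl00 hla hlb hF.orth hF.eig i j).trans ?_
    refine mul_le_mul_of_nonneg_right ?_ hs0
    rw [hC]; nlinarith [sq_nonneg K]
  · intro i
    refine (tr_eig hW hs0 hs2 hl00 hla hF.orth hF.eig i).trans ?_
    refine mul_le_mul_of_nonneg_right ?_ hs0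
    rw [hC]; nlinarith [sq_nonneg K]
  · intro f
    have h1 := tr_res (b := b) hW hs0 hs2 hs3 hl00 hla hlb hF.orth hF.eig (ρ := l0 - g + s)
      (ρ0 := l0 - g) (R := R) hρ0 (by linarith) (by rw [hR]; linarith) hF.res f
    refine h1.trans (mul_le_mul_of_nonneg_right ?_ (nrm_nonneg f))
    have h2 : (1 + resC M K (l0 - g) R) * s ≤ C * s := by
      refine mul_le_mul_of_nonneg_right ?_ hs0
      rw [hC]; nlinarith [sq_nonneg K]
    have h3 : (1 + resC M K (l0 - g) R) * s = s + resC M K (l0 - g) R * s := by ring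
    rw [h3] at h2
    linarith
  · intro w
    -- the three steps
    have hrow : ∀ p, row (T b b) l (fun i => (l i)⁻¹ • op (T b c) (e i)) p =
        Sum.elim ![1, op (T b b) 1 p] (fun i => op (T b c) (e i) p) := by
      intro p
      unfold row
      congr 1
      funext i
      have hli := ne_zero_of_le hl00 (hla i)
      show l i * ((l i)⁻¹ • op (T b c) (e i)) p = _
      rw [Pi.smul_apply, smul_eq_mul, ← mul_assoc, mul_inv_cancel₀ hli, one_mul]
    have hone : nrm (1 : Q → ℝ) ≤ 1 := nrm_le_of_abs_le fun q => by simp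
    have hb1 : ∀ (a d : P) (p : Q), |op (T a d) 1 p| ≤ 2 := fun a d p => by
      have := (abs_op_le (hW.nonneg a d) (hW.le_one a d) 1 p).trans hone
      linarith
    have hb2 : ∀ (a d : P) (i : Fin M) (p : Q), |op (T a d) (e i) p| ≤ 2 := fun a d i p =>
      (abs_op_le (hW.nonneg a d) (hW.le_one a d) (e i) p).trans (he2 i)
    have hb3 : ∀ (i : Fin M) (p : Q), |l i * e i p| ≤ 2 := by
      intro i p
      have h1 := single_le_sum (f := fun i => (l i * e i p) ^ 2) (fun i _ => sq_nonneg _)
        (mem_univ i)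
      have h2 := hF.sup p
      have h3 : (l i * e i p) ^ 2 ≤ 2 ^ 2 := by
        have h4 : (l i * e i p) ^ 2 ≤ 2 := h1.trans h2
        linarith
      exact abs_le_of_sq_le_sq h3 (by norm_num)
    have step1 : |mom k0 (row (T b b) l (fun i => (l i)⁻¹ • op (T b c) (e i))) w -
        mom k0 (rowT (T b c) e) w| ≤ k0 * 2 ^ k0 * s := by
      apply mom_near _ _ one_le_two
      · intro p o
        rw [hrow]
        rcases o with i | i
        · fin_cases i
          · simp
          · exact hb1 b b p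
        · exact hb2 b c i p
      · intro p o
        rcases o with i | i
        · fin_cases i
          · simp [rowT]
          · exact hb1 b c p
        · exact hb2 b c i p
      · intro o
        rcases o with i | i
        · fin_cases i
          · have : (fun p => row (T b b) l (fun i => (l i)⁻¹ • op (T b c) (e i)) p (Sum.inl 0) -
                rowT (T b c) e p (Sum.inl 0)) = 0 := by
              funext p; simp [row, rowT]
            simp only [Fin.zero_eta]
            rw [this, nrm_zero]; exact hs0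
          · exact hW.deg b b c
        · have : (fun p => row (T b b) l (fun i => (l i)⁻¹ • op (T b c) (e i)) p (Sum.inr i) -
              rowT (T b c) e p (Sum.inr i)) = 0 := by
            funext p
            rw [hrow]
            simp [rowT]
          rw [this, nrm_zero]; exact hs0
    have step2 := mom_rowT_close hW b c c e he2 w
    have step3 : |mom k0 (rowT (T c c) e) w - mom k0 (row (T c c) l e) w| ≤ k0 * 2 ^ k0 * s := by
      apply mom_near _ _ one_le_two
      · intro p o
        rcases o with i | i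
        · fin_cases i
          · simp [rowT]
          · exact hb1 c c p
        · exact hb2 c c i p
      · intro p o
        rcases o with i | i
        · fin_cases i
          · simp [row]
          · exact hb1 c c p
        · exact hb3 i p
      · intro o
        rcases o with i | i
        · fin_cases i
          · have : (fun p => rowT (T c c) e p (Sum.inl 0) - row (T c c) l e p (Sum.inl 0)) = 0 := by
              funext p; simp [row, rowT]
            simp only [Fin.zero_eta]
            rw [this, nrm_zero]; exact hs0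
          · have : (fun p => rowT (T c c) e p (Sum.inl 1) - row (T c c) l e p (Sum.inl 1)) = 0 := by
              funext p; simp [row, rowT]
            simp only [Fin.mk_one]
            rw [this, nrm_zero]; exact hs0
        · exact hF.eig i
    have step4 := hF.mom w
    have e1 : mom k0 (row (T b b) l (fun i => (l i)⁻¹ • op (T b c) (e i))) w - y w =
        (mom k0 (row (T b b) l (fun i => (l i)⁻¹ • op (T b c) (e i))) w -
          mom k0 (rowT (T b c) e) w) +
        (mom k0 (rowT (T b c) e) w - mom k0 (rowT (T c c) e) w) +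
        (mom k0 (rowT (T c c) e) w - mom k0 (row (T c c) l e) w) +
        (mom k0 (row (T c c) l e) w - y w) := by ring
    rw [e1]
    refine (abs_add_le _ _).trans ?_
    have a1 := (abs_add_le ((mom k0 (row (T b b) l (fun i => (l i)⁻¹ • op (T b c) (e i))) w -
          mom k0 (rowT (T b c) e) w) +
        (mom k0 (rowT (T b c) e) w - mom k0 (rowT (T c c) e) w))
        (mom k0 (rowT (T c c) e) w - mom k0 (row (T c c) l e) w))
    have a2 := (abs_add_le (mom k0 (row (T b b) l (fun i => (l i)⁻¹ • op (T b c) (e i))) w -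
          mom k0 (rowT (T b c) e) w)
        (mom k0 (rowT (T b c) e) w - mom k0 (rowT (T c c) e) w))
    have a3 : (1 + 2 ^ k0 + 2 * (k0 * 2 ^ k0)) * s ≤ C * s := by
      refine mul_le_mul_of_nonneg_right ?_ hs0
      rw [hC]; nlinarith [sq_nonneg K]
    have a4 : (1 + 2 ^ k0 + 2 * ((k0 : ℝ) * 2 ^ k0)) * s =
        s + 2 ^ k0 * s + k0 * 2 ^ k0 * s + k0 * 2 ^ k0 * s := by ring
    rw [a4] at a3
    linarith

end transport

end Fr

end Pool.Agent.SRL
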