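import Pool.Agent.SRL.FBad
import Pool.Agent.SRL.FTransport

/-!
Block F, row F10c: most windows are regular and have soft frames at all positions (final form).
-/

set_option autoImplicit false

namespace Pool.Agent.SRL

namespace Fr

theorem bad_bound (D M k0 : ℕ) (hD : 0 < D) {l0 g : ℝ} (hg : 0 < g) (hl0 : g < l0) :
    ∃ C s0 : ℝ, 1 ≤ C ∧ 0 < s0 ∧ ∀ {J q n K : ℕ} [NeZero q] [NeZero n] [NeZero K]
      (S : CS (Fin J ⊕ Fin D) (Fin q) (Fin n)) (sgn : Fin n → ℝ) (lam : ℝ), Gap S sgn lam →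
      ∀ (R : Fin n × Fin K → Fin n × Fin K → ℝ), Col R →
      ∀ (l : Fin M → ℝ), (∀ i, l0 + g ≤ |l i| ∧ |l i| ≤ 1) →
      ∀ (y : (Fin k0 → Fin 2 ⊕ Fin M) → ℝ) (s eps : ℝ), s ≤ s0 → 0 ≤ eps → eps ≤ s →
      prob {V | ¬ Win k0 eps (wker S R V)} ≤ eps →
      ∀ G0 : Set (St (Fin J) (Fin q) (Fin n)), G0 ⊆ HasF S R l0 g s l y →
      prob {V | ¬ Win k0 eps (wker S R V) ∨ ∃ b, pos S V b ∉ HasF S R l0 g (C * s) l y} *
        prob G0 ≤ (1 + 5 * 2 ^ D) * (lam ^ 2 + eps) :=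
  bad_bound_of D M k0 hD (SFrame.transport M k0 hg hl0)

end Fr

end Pool.Agent.SRL
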