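import Pool.Agent.SRL.FDefs

/-! Row F0: basic facts on averages, inner products and operators. -/

set_option autoImplicit false

namespace Pool.Agent.SRL

open Finset

namespace Fr

section
variable {Q : Type} [Fintype Q]

theorem avg_add (f g : Q → ℝ) : avg (fun p => f p + g p) = avg f + avg g := by
  simp only [avg, sum_add_distrib, add_div]
theorem avg_sub (f g : Q → ℝ) : avg (fun p => f p - g p) = avg f - avg g := by
  simp only [avg, sum_sub_distrib, sub_div]
theorem avg_mul_left (c : ℝ) (f : Q → ℝ) : avg (fun p => c * f p) = c * avg f := by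
  simp only [avg, ← mul_sum, mul_div_assoc]
theorem avg_mul_right (c : ℝ) (f : Q → ℝ) : avg (fun p => f p * c) = avg f * c := by
  simp only [avg, ← sum_mul]; ring
theorem avg_sum {ι : Type} (s : Finset ι) (f : ι → Q → ℝ) :
    avg (fun p => ∑ i ∈ s, f i p) = ∑ i ∈ s, avg (f i) := by
  simp only [avg]
  rw [sum_comm, sum_div]
theorem avg_mono {f g : Q → ℝ} (h : ∀ p, f p ≤ g p) : avg f ≤ avg g := by
  simp only [avg]
  exact div_le_div_of_nonneg_right (sum_le_sum fun p _ => h p) (Nat.cast_nonneg _)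
theorem avg_nonneg {f : Q → ℝ} (h : ∀ p, 0 ≤ f p) : 0 ≤ avg f := by
  simp only [avg]
  exact div_nonneg (sum_nonneg fun p _ => h p) (Nat.cast_nonneg _)
theorem avg_const [Nonempty Q] (c : ℝ) : avg (fun _ : Q => c) = c := by
  simp only [avg, sum_const, card_univ, nsmul_eq_mul]
  have : (Fintype.card Q : ℝ) ≠ 0 := by exact_mod_cast Fintype.card_ne_zero
  field_simp
theorem avg_comm {Q' : Type} [Fintype Q'] (f : Q → Q' → ℝ) :
    avg (fun p => avg fun q => f p q) = avg (fun q => avg fun p => f p q) := by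
  simp only [avg, ← sum_div]
  rw [sum_comm, div_div, div_div, mul_comm]
theorem abs_avg_le (f : Q → ℝ) : |avg f| ≤ avg (fun p => |f p|) := by
  simp only [avg]
  rw [abs_div, abs_of_nonneg (Nat.cast_nonneg (Fintype.card Q) : (0 : ℝ) ≤ _)]
  exact div_le_div_of_nonneg_right (abs_sum_le_sum_abs _ _) (Nat.cast_nonneg _)
/-- the average of a product over a power -/
theorem avg_pi_prod {k : ℕ} (f : Fin k → Q → ℝ) :
    avg (fun q : Fin k → Q => ∏ i, f i (q i)) = ∏ i, avg (f i) := by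
  simp only [avg]
  rw [Finset.prod_div_distrib, Finset.prod_univ_sum]
  simp only [Fintype.piFinset_univ, Fintype.card_pi, prod_const, card_univ, Fintype.card_fin,
    Nat.cast_pow]
theorem ip_comm (f g : Q → ℝ) : ip f g = ip g f := by
  simp only [ip, mul_comm]
theorem ip_add_left (f g h : Q → ℝ) : ip (f + g) h = ip f h + ip g h := by
  simp only [ip, Pi.add_apply, add_mul, avg_add]
theorem ip_sub_left (f g h : Q → ℝ) : ip (f - g) h = ip f h - ip g h := by
  simp only [ip, Pi.sub_apply, sub_mul, avg_sub]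
theorem ip_smul_left (c : ℝ) (f h : Q → ℝ) : ip (c • f) h = c * ip f h := by
  simp only [ip, Pi.smul_apply, smul_eq_mul, mul_assoc, avg_mul_left]
theorem ip_zero_left (h : Q → ℝ) : ip (0 : Q → ℝ) h = 0 := by
  simp [ip, avg]
theorem ip_sum_left {ι : Type} (s : Finset ι) (f : ι → Q → ℝ) (h : Q → ℝ) :
    ip (∑ i ∈ s, f i) h = ∑ i ∈ s, ip (f i) h := by
  classical
  induction s using Finset.induction_on with
  | empty => simp [ip_zero_left]
  | insert i s hi ih => rw [sum_insert hi, sum_insert hi, ip_add_left, ih]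
theorem ip_add_right (f g h : Q → ℝ) : ip h (f + g) = ip h f + ip h g := by
  rw [ip_comm, ip_add_left, ip_comm f, ip_comm g]
theorem ip_sub_right (f g h : Q → ℝ) : ip h (f - g) = ip h f - ip h g := by
  rw [ip_comm, ip_sub_left, ip_comm f, ip_comm g]
theorem ip_smul_right (c : ℝ) (f h : Q → ℝ) : ip h (c • f) = c * ip h f := by
  rw [ip_comm, ip_smul_left, ip_comm f]
theorem ip_sum_right {ι : Type} (s : Finset ι) (f : ι → Q → ℝ) (h : Q → ℝ) :
    ip h (∑ i ∈ s, f i) = ∑ i ∈ s, ip h (f i) := by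
  rw [ip_comm, ip_sum_left]
  exact sum_congr rfl fun i _ => ip_comm _ _
theorem ip_self_nonneg (f : Q → ℝ) : 0 ≤ ip f f := avg_nonneg fun p => mul_self_nonneg _
theorem nrm_nonneg (f : Q → ℝ) : 0 ≤ nrm f := Real.sqrt_nonneg _
theorem nrm_sq (f : Q → ℝ) : nrm f ^ 2 = ip f f := Real.sq_sqrt (ip_self_nonneg f)
theorem ip_sq_le (f g : Q → ℝ) : ip f g ^ 2 ≤ ip f f * ip g g := by
  simp only [ip, avg]
  rw [div_pow, div_mul_div_comm, ← sq]
  have h := Finset.sum_mul_sq_le_sq_mul_sq univ f g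
  have e1 : ∑ p, f p * f p = ∑ p, f p ^ 2 := sum_congr rfl fun p _ => by ring
  have e2 : ∑ p, g p * g p = ∑ p, g p ^ 2 := sum_congr rfl fun p _ => by ring
  rw [e1, e2]
  exact div_le_div_of_nonneg_right h (by positivity)
theorem abs_ip_le (f g : Q → ℝ) : |ip f g| ≤ nrm f * nrm g := by
  apply abs_le_of_sq_le_sq
  · rw [mul_pow, nrm_sq, nrm_sq]; exact ip_sq_le f g
  · exact mul_nonneg (nrm_nonneg _) (nrm_nonneg _)
theorem nrm_add_le (f g : Q → ℝ) : nrm (f + g) ≤ nrm f + nrm g := by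
  have h1 : nrm (f + g) ^ 2 ≤ (nrm f + nrm g) ^ 2 := by
    rw [nrm_sq, ip_add_left, ip_add_right, ip_add_right, ip_comm g f]
    have := (abs_le.1 (abs_ip_le f g)).2
    have e1 := nrm_sq f
    have e2 := nrm_sq g
    nlinarith
  exact (abs_le_of_sq_le_sq' h1 (add_nonneg (nrm_nonneg _) (nrm_nonneg _))).2
theorem nrm_smul (c : ℝ) (f : Q → ℝ) : nrm (c • f) = |c| * nrm f := by
  simp only [nrm]
  rw [ip_smul_left, ip_smul_right, ← mul_assoc, ← sq, Real.sqrt_mul (sq_nonneg c),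
    Real.sqrt_sq_eq_abs]
theorem nrm_neg (f : Q → ℝ) : nrm (-f) = nrm f := by
  have := nrm_smul (-1) f
  simpa using this
theorem nrm_sub_le (f g : Q → ℝ) : nrm (f - g) ≤ nrm f + nrm g := by
  rw [sub_eq_add_neg]
  refine (nrm_add_le _ _).trans ?_
  rw [nrm_neg]
theorem nrm_sub_comm (f g : Q → ℝ) : nrm (f - g) = nrm (g - f) := by
  rw [← nrm_neg (f - g), neg_sub]
theorem nrm_zero : nrm (0 : Q → ℝ) = 0 := by
  simp [nrm, ip_zero_left]
theorem nrm_sum_le {ι : Type} (s : Finset ι) (f : ι → Q → ℝ) :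
    nrm (∑ i ∈ s, f i) ≤ ∑ i ∈ s, nrm (f i) := by
  classical
  induction s using Finset.induction_on with
  | empty => simp [nrm_zero]
  | insert i s hi ih =>
    rw [sum_insert hi, sum_insert hi]
    exact (nrm_add_le _ _).trans (add_le_add le_rfl ih)
/-- triangle inequality through a middle function -/
theorem nrm_tri (f g h : Q → ℝ) : nrm (f - h) ≤ nrm (f - g) + nrm (g - h) := by
  have := nrm_add_le (f - g) (g - h)
  rwa [sub_add_sub_cancel] at this
theorem avg_sq_le (f : Q → ℝ) : avg f ^ 2 ≤ avg (fun p => f p ^ 2) := by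
  simp only [avg]
  rcases Nat.eq_zero_or_pos (Fintype.card Q) with h0 | h0
  · simp [h0]
  · have hN : (0 : ℝ) < Fintype.card Q := by exact_mod_cast h0
    rw [div_pow, div_le_div_iff₀ (by positivity) hN]
    have h := sq_sum_le_card_mul_sum_sq (s := (univ : Finset Q)) (f := f)
    rw [card_univ] at h
    calc (∑ a, f a) ^ 2 * (Fintype.card Q : ℝ)
        ≤ ((Fintype.card Q : ℝ) * ∑ a, f a ^ 2) * Fintype.card Q :=
          mul_le_mul_of_nonneg_right h hN.le
      _ = (∑ a, f a ^ 2) * (Fintype.card Q : ℝ) ^ 2 := by ring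
/-- for bounded functions -/
theorem nrm_le_of_abs_le [Nonempty Q] {f : Q → ℝ} {c : ℝ} (h : ∀ p, |f p| ≤ c) : nrm f ≤ c := by
  have hc : 0 ≤ c := (abs_nonneg _).trans (h (Classical.arbitrary Q))
  rw [nrm, Real.sqrt_le_left hc, ip]
  calc avg (fun p => f p * f p) ≤ avg (fun _ : Q => c ^ 2) := avg_mono fun p => by
        rw [← sq, ← sq_abs]; exact pow_le_pow_left₀ (abs_nonneg _) (h p) 2
    _ = c ^ 2 := avg_const _
theorem abs_avg_le_nrm (f : Q → ℝ) : |avg f| ≤ nrm f := by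
  apply abs_le_of_sq_le_sq _ (nrm_nonneg f)
  rw [nrm_sq, ip]
  refine (avg_sq_le f).trans (avg_mono fun p => by rw [sq])
theorem op_add (T : Q → Q → ℝ) (f g : Q → ℝ) : op T (f + g) = op T f + op T g := by
  funext p; simp only [op, Pi.add_apply, mul_add, avg_add]
theorem op_sub (T : Q → Q → ℝ) (f g : Q → ℝ) : op T (f - g) = op T f - op T g := by
  funext p; simp only [op, Pi.sub_apply, mul_sub, avg_sub]
theorem op_smul (T : Q → Q → ℝ) (c : ℝ) (f : Q → ℝ) : op T (c • f) = c • op T f := by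
  funext p
  simp only [op, Pi.smul_apply, smul_eq_mul]
  rw [← avg_mul_left]
  congr 1; funext q; ring
theorem op_zero (T : Q → Q → ℝ) : op T 0 = 0 := by
  funext p; simp [op, avg]
theorem op_sum {ι : Type} (T : Q → Q → ℝ) (s : Finset ι) (f : ι → Q → ℝ) :
    op T (∑ i ∈ s, f i) = ∑ i ∈ s, op T (f i) := by
  classical
  induction s using Finset.induction_on with
  | empty => simp [op_zero]
  | insert i s hi ih => rw [sum_insert hi, sum_insert hi, op_add, ih]
theorem op_comp (T S : Q → Q → ℝ) (f : Q → ℝ) : op (comp T S) f = op T (op S f) := by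
  funext p
  simp only [op, comp]
  have h1 : ∀ q, (avg fun q' => T p q' * S q' q) * f q = avg fun q' => T p q' * (S q' q * f q) := by
    intro q
    rw [← avg_mul_right]
    congr 1; funext q'; ring
  simp only [h1]
  rw [avg_comm]
  congr 1; funext q'
  rw [avg_mul_left]
theorem op_sub_left (T S : Q → Q → ℝ) (f : Q → ℝ) : op (T - S) f = op T f - op S f := by
  funext p; simp only [op, Pi.sub_apply, sub_mul, avg_sub]
theorem ip_op (T : Q → Q → ℝ) (f g : Q → ℝ) :
    ip f (op T g) = ip (op (fun p q => T q p) f) g := by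
  simp only [ip, op]
  have h1 : ∀ p, f p * avg (fun q => T p q * g q) = avg fun q => f p * (T p q * g q) :=
    fun p => (avg_mul_left _ _).symm
  have h2 : ∀ p, avg (fun q => T q p * f q) * g p = avg fun q => T q p * f q * g p :=
    fun p => (avg_mul_right _ _).symm
  simp only [h1, h2]
  rw [avg_comm]
  congr 1; funext q; congr 1; funext p; ring
theorem hs_nonneg (T : Q → Q → ℝ) : 0 ≤ hs T := Real.sqrt_nonneg _
theorem hs_sq (T : Q → Q → ℝ) : hs T ^ 2 = avg fun p => avg fun q => T p q ^ 2 :=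
  Real.sq_sqrt (avg_nonneg fun _ => avg_nonneg fun _ => sq_nonneg _)
theorem nrm_op_le (T : Q → Q → ℝ) (f : Q → ℝ) : nrm (op T f) ≤ hs T * nrm f := by
  have h1 : nrm (op T f) ^ 2 ≤ (hs T * nrm f) ^ 2 := by
    rw [mul_pow, hs_sq, nrm_sq, nrm_sq, ip, ← avg_mul_right]
    refine avg_mono fun p => ?_
    have h2 := ip_sq_le (T p) f
    rw [← sq]
    have e1 : ip (T p) f = op T f p := rfl
    have e2 : ip (T p) (T p) = avg fun q => T p q ^ 2 := by
      simp only [ip, sq]
    rw [e1, e2] at h2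
    exact h2
  exact (abs_le_of_sq_le_sq' h1 (mul_nonneg (hs_nonneg _) (nrm_nonneg _))).2
theorem hs_le_one [Nonempty Q] {T : Q → Q → ℝ} (h0 : ∀ p q, 0 ≤ T p q) (h1 : ∀ p q, T p q ≤ 1) :
    hs T ≤ 1 := by
  rw [hs, Real.sqrt_le_left zero_le_one]
  calc avg (fun p => avg fun q => T p q ^ 2) ≤ avg (fun _ : Q => avg fun _ : Q => (1 : ℝ) ^ 2) :=
        avg_mono fun p => avg_mono fun q => pow_le_pow_left₀ (h0 p q) (h1 p q) 2
    _ = 1 ^ 2 := by rw [avg_const, avg_const]
/-- sup bound of `T f` -/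
theorem abs_op_le [Nonempty Q] {T : Q → Q → ℝ} (h0 : ∀ p q, 0 ≤ T p q) (h1 : ∀ p q, T p q ≤ 1)
    (f : Q → ℝ) (p : Q) : |op T f p| ≤ nrm f := by
  have h2 := abs_ip_le (T p) f
  have h3 : nrm (T p) ≤ 1 := nrm_le_of_abs_le fun q => by
    rw [abs_of_nonneg (h0 p q)]; exact h1 p q
  have e1 : ip (T p) f = op T f p := rfl
  rw [e1] at h2
  calc |op T f p| ≤ nrm (T p) * nrm f := h2
    _ ≤ 1 * nrm f := mul_le_mul_of_nonneg_right h3 (nrm_nonneg _)
    _ = nrm f := one_mul _

theorem nrm_comb_soft {M : ℕ} {e : Fin M → Q → ℝ} {s : ℝ} (hs : 0 ≤ s)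
    (h : ∀ i j, |ip (e i) (e j) - if i = j then 1 else 0| ≤ s) (a : Fin M → ℝ) :
    nrm (∑ i, a i • e i) ^ 2 ≤ (1 + M * s) * ∑ i, a i ^ 2 := by
  rw [nrm_sq, ip_sum_left]
  have h1 : ∀ i, ip (a i • e i) (∑ j, a j • e j) = ∑ j, a i * a j * ip (e i) (e j) := by
    intro i
    rw [ip_sum_right]
    refine sum_congr rfl fun j _ => ?_
    rw [ip_smul_left, ip_smul_right]; ring
  simp only [h1]
  have h2 : ∑ i, ∑ j, a i * a j * ip (e i) (e j) =
      ∑ i, a i ^ 2 + ∑ i, ∑ j, a i * a j * (ip (e i) (e j) - if i = j then 1 else 0) := by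
    rw [← sum_add_distrib]
    refine sum_congr rfl fun i _ => ?_
    have : a i ^ 2 = ∑ j, a i * a j * (if i = j then 1 else 0) := by
      simp [sq]
    rw [this, ← sum_add_distrib]
    exact sum_congr rfl fun j _ => by ring
  rw [h2]
  have h3 : ∑ i, ∑ j, a i * a j * (ip (e i) (e j) - if i = j then 1 else 0) ≤
      ∑ i, ∑ j, |a i| * |a j| * s := by
    refine sum_le_sum fun i _ => sum_le_sum fun j _ => ?_
    refine (le_abs_self _).trans ?_
    rw [abs_mul, abs_mul]
    exact mul_le_mul_of_nonneg_left (h i j) (mul_nonneg (abs_nonneg _) (abs_nonneg _))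
  have h4 : ∑ i, ∑ j, |a i| * |a j| * s = (∑ i, |a i|) ^ 2 * s := by
    rw [sq, sum_mul_sum, sum_mul]
    exact sum_congr rfl fun i _ => by rw [sum_mul]
  have h5 : (∑ i, |a i|) ^ 2 ≤ M * ∑ i, a i ^ 2 := by
    have := sq_sum_le_card_mul_sum_sq (s := (univ : Finset (Fin M))) (f := fun i => |a i|)
    simpa [sq_abs] using this
  nlinarith [mul_le_mul_of_nonneg_right h5 hs]

/-- almost orthonormal families: coefficients -/
theorem bessel_soft {M : ℕ} {e : Fin M → Q → ℝ} {s : ℝ} (hs : 0 ≤ s)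
    (h : ∀ i j, |ip (e i) (e j) - if i = j then 1 else 0| ≤ s) (f : Q → ℝ) :
    (1 - M * s) * ∑ i, ip (e i) f ^ 2 ≤ nrm f ^ 2 := by
  set a : Fin M → ℝ := fun i => ip (e i) f with ha
  have h0 : 0 ≤ nrm (f - ∑ i, a i • e i) ^ 2 := sq_nonneg _
  have h1 : nrm (f - ∑ i, a i • e i) ^ 2 =
      nrm f ^ 2 - 2 * ∑ i, a i ^ 2 + nrm (∑ i, a i • e i) ^ 2 := by
    rw [nrm_sq, nrm_sq, nrm_sq, ip_sub_left, ip_sub_right, ip_sub_right,
      ip_comm (∑ i, a i • e i) f]
    have h2 : ip f (∑ i, a i • e i) = ∑ i, a i ^ 2 := by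
      rw [ip_sum_right]
      refine sum_congr rfl fun i _ => ?_
      rw [ip_smul_right, ip_comm f, sq]
    rw [h2]; ring
  have h3 := nrm_comb_soft hs h a
  rw [h1] at h0
  have h4 : ∑ i, ip (e i) f ^ 2 = ∑ i, a i ^ 2 := rfl
  rw [h4]
  nlinarith

end

end Fr

end Pool.Agent.SRL
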