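import Pool.Agent.SRL.FTrans

/-! Row F4: the part orthogonal to the frame is mapped to a small vector. -/

set_option autoImplicit false

namespace Pool.Agent.SRL

open Finset

namespace Fr

/-- the part orthogonal to the frame is mapped to a small vector -/
theorem offdiag (M k0 : ℕ) {l0 g : ℝ} (hg : 0 < g) (hl0 : g < l0) :
    ∃ s0 : ℝ, 0 < s0 ∧ ∀ {P Q : Type} [Fintype Q] [Nonempty Q]
      (T : P → P → Q → Q → ℝ) (s : ℝ), 0 ≤ s → s ≤ s0 → Win k0 s T →
      ∀ (l : Fin M → ℝ), (∀ i, l0 + g ≤ |l i| ∧ |l i| ≤ 1) →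
      ∀ (y : (Fin k0 → Fin 2 ⊕ Fin M) → ℝ) (b c : P) (e : Fin M → Q → ℝ),
      SFrame l0 g s l y (T c c) e →
      ∀ f : Q → ℝ, nrm (op (T b c) (f - ∑ i, ip (e i) f • e i)) ≤ l0 * nrm f := by
  have hM0 : (0 : ℝ) ≤ M := Nat.cast_nonneg _
  have hl00 : 0 < l0 := hg.trans hl0
  refine ⟨min (min 1 (g ^ 2 / 2)) (min (1 / (M + 1)) (g / (2 * (1 + 2 * M)))), ?_, ?_⟩
  · exact lt_min (lt_min one_pos (by positivity)) (lt_min (by positivity) (by positivity))
  intro P Q _ _ T s hs0 hs hW l hl y b c e he f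
  have hs1 : s ≤ 1 := hs.trans ((min_le_left _ _).trans (min_le_left _ _))
  have hs2 : s ≤ g ^ 2 / 2 := hs.trans ((min_le_left _ _).trans (min_le_right _ _))
  have hs3 : s ≤ 1 / (M + 1) := hs.trans ((min_le_right _ _).trans (min_le_left _ _))
  have hs4 : s ≤ g / (2 * (1 + 2 * M)) := hs.trans ((min_le_right _ _).trans (min_le_right _ _))
  have hMs : M * s ≤ 1 := by
    rw [le_div_iff₀ (by positivity)] at hs3
    nlinarith
  have hCs : (1 + 2 * M) * s ≤ g / 2 := by
    rw [le_div_iff₀ (by positivity)] at hs4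
    nlinarith
  set a : Fin M → ℝ := fun i => ip (e i) f with ha
  set x : Q → ℝ := f - ∑ i, ip (e i) f • e i with hx
  have hxa : x = f - ∑ i, a i • e i := rfl
  have hf0 := nrm_nonneg f
  have ha2 : ∀ i, |a i| ≤ 2 * nrm f := fun i =>
    (abs_ip_le _ _).trans (mul_le_mul_of_nonneg_right (T3.frame_nrm he hs1 i) hf0)
  -- the norm of `x`
  have hxn : nrm x ≤ nrm f := by
    have h1 : nrm x ^ 2 = nrm f ^ 2 - 2 * ∑ i, a i ^ 2 + nrm (∑ i, a i • e i) ^ 2 := by
      rw [hxa, nrm_sq, nrm_sq, nrm_sq, ip_sub_left, ip_sub_right, ip_sub_right,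
        ip_comm (∑ i, a i • e i) f]
      have h2 : ip f (∑ i, a i • e i) = ∑ i, a i ^ 2 := by
        rw [ip_sum_right]
        refine sum_congr rfl fun i _ => ?_
        rw [ip_smul_right, ip_comm f, sq]
      rw [h2]; ring
    have h3 := nrm_comb_soft hs0 he.orth a
    have h4 : 0 ≤ ∑ i, a i ^ 2 := sum_nonneg fun i _ => sq_nonneg _
    have h5 : nrm x ^ 2 ≤ nrm f ^ 2 := by
      rw [h1]; nlinarith
    exact (abs_le_of_sq_le_sq' h5 hf0).2
  -- `T c c x`
  have hTx : nrm (op (T c c) x) ≤ (l0 - g / 2) * nrm f := by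
    have h1 : op (T c c) x = (op (T c c) f - ∑ i, (l i * ip (e i) f) • e i) -
        ∑ i, a i • (op (T c c) (e i) - l i • e i) := by
      rw [hxa, op_sub, op_sum]
      simp only [op_smul, smul_sub, sum_sub_distrib, smul_smul]
      have : ∀ i, l i * ip (e i) f = a i * l i := fun i => mul_comm _ _
      simp only [this]
      abel
    have h2 : nrm (∑ i, a i • (op (T c c) (e i) - l i • e i)) ≤ M * (2 * nrm f * s) := by
      refine (nrm_sum_le _ _).trans ?_
      have h3 : ∀ i ∈ (univ : Finset (Fin M)),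
          nrm (a i • (op (T c c) (e i) - l i • e i)) ≤ 2 * nrm f * s := fun i _ => by
        rw [nrm_smul]
        exact mul_le_mul (ha2 i) (he.eig i) (nrm_nonneg _) (by positivity)
      refine (sum_le_sum h3).trans ?_
      rw [sum_const, card_univ, Fintype.card_fin, nsmul_eq_mul]
    rw [h1]
    have h4 := nrm_sub_le (op (T c c) f - ∑ i, (l i * ip (e i) f) • e i)
      (∑ i, a i • (op (T c c) (e i) - l i • e i))
    have h5 := he.res f
    calc _ ≤ (l0 - g + s) * nrm f + M * (2 * nrm f * s) := by linarith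
      _ = (l0 - g + (1 + 2 * M) * s) * nrm f := by ring
      _ ≤ (l0 - g / 2) * nrm f := mul_le_mul_of_nonneg_right (by linarith) hf0
  -- `T b c x`
  have hsq : nrm (op (T b c) x) ^ 2 ≤ (l0 * nrm f) ^ 2 := by
    have e1 : nrm (op (T b c) x) ^ 2 = ip (op (T c b) (op (T b c) x)) x := by
      rw [nrm_sq, T3.win_ip hW b c]
    have e2 : nrm (op (T c c) x) ^ 2 = ip (op (T c c) (op (T c c) x)) x := by
      rw [nrm_sq, T3.win_ip hW c c]
    have h1 := T3.win_tri hW c b c c x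
    have h2 := abs_ip_le (op (T c b) (op (T b c) x) - op (T c c) (op (T c c) x)) x
    rw [ip_sub_left, ← e1, ← e2] at h2
    have h3 := (abs_le.1 h2).2
    have hx0 := nrm_nonneg x
    have h4 : nrm (op (T c b) (op (T b c) x) - op (T c c) (op (T c c) x)) * nrm x ≤
        s * nrm f ^ 2 := by
      calc _ ≤ s * nrm x * nrm x := mul_le_mul_of_nonneg_right h1 hx0
        _ = s * nrm x ^ 2 := by ring
        _ ≤ s * nrm f ^ 2 := mul_le_mul_of_nonneg_left (pow_le_pow_left₀ hx0 hxn 2) hs0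
    have h5 : nrm (op (T c c) x) ^ 2 ≤ (l0 - g / 2) ^ 2 * nrm f ^ 2 := by
      rw [← mul_pow]
      exact pow_le_pow_left₀ (nrm_nonneg _) hTx 2
    have h6 : (l0 - g / 2) ^ 2 + s ≤ l0 ^ 2 := by nlinarith
    calc nrm (op (T b c) x) ^ 2 ≤ ((l0 - g / 2) ^ 2 + s) * nrm f ^ 2 := by linarith
      _ ≤ l0 ^ 2 * nrm f ^ 2 := mul_le_mul_of_nonneg_right h6 (sq_nonneg _)
      _ = (l0 * nrm f) ^ 2 := by ring
  exact (abs_le_of_sq_le_sq' hsq (by positivity)).2

end Fr

end Pool.Agent.SRL
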