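import Pool.Agent.SRL.FBasic
import Pool.Agent.SRL.FOff

/-! Row F9c: the main estimate (P1) for a cell. -/

set_option autoImplicit false

namespace Pool.Agent.SRL

open Finset
open Pool.Agent.Helper64.SRL (tact blk stab)

namespace Fr

/-! ### finite dimensional algebra -/

theorem cell_vm_inl {M : ℕ} (x : Fin 2 ⊕ Fin M → ℝ)
    (γ : Matrix (Fin M) (Fin M) ℝ) (i : Fin 2) :
    Matrix.vecMul x (blk 2 γ) (Sum.inl i) = x (Sum.inl i) := by
  simp only [Matrix.vecMul, dotProduct, blk, Fintype.sum_sum_type, Matrix.fromBlocks_apply₁₁,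
    Matrix.fromBlocks_apply₂₁, Matrix.zero_apply, mul_zero, sum_const_zero, add_zero,
    Matrix.one_apply]
  simp

theorem cell_vm_inr {M : ℕ} (x : Fin 2 ⊕ Fin M → ℝ)
    (γ : Matrix (Fin M) (Fin M) ℝ) (j : Fin M) :
    Matrix.vecMul x (blk 2 γ) (Sum.inr j) = ∑ m, x (Sum.inr m) * γ m j := by
  simp only [Matrix.vecMul, dotProduct, blk, Fintype.sum_sum_type, Matrix.fromBlocks_apply₁₂,
    Matrix.fromBlocks_apply₂₂, Matrix.zero_apply, mul_zero, sum_const_zero, zero_add]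

theorem cell_orth_sq {M : ℕ} (γ : Matrix (Fin M) (Fin M) ℝ) (h : γ.transpose * γ = 1)
    (x : Fin M → ℝ) : ∑ j, (∑ m, x m * γ m j) ^ 2 = ∑ m, x m ^ 2 := by
  have h' : γ * γ.transpose = 1 := by rwa [mul_eq_one_comm] at h
  have h1 : Matrix.vecMul x γ ⬝ᵥ Matrix.vecMul x γ = x ⬝ᵥ x := by
    conv_lhs => rw [← Matrix.mulVec_transpose γ x]
    rw [Matrix.dotProduct_mulVec, Matrix.vecMul_transpose, Matrix.mulVec_transpose,
      ← Matrix.vecMul_transpose, Matrix.vecMul_vecMul, h', Matrix.vecMul_one]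
  simpa [Matrix.vecMul, dotProduct, sq] using h1

theorem cell_orth_inv {M : ℕ} (γ : Matrix (Fin M) (Fin M) ℝ) (h : γ.transpose * γ = 1)
    (x : Fin M → ℝ) (i : Fin M) : ∑ j, γ i j * (∑ m, x m * γ m j) = x i := by
  have h' : γ * γ.transpose = 1 := by rwa [mul_eq_one_comm] at h
  have h1 : Matrix.mulVec γ (Matrix.vecMul x γ) = x := by
    rw [← Matrix.mulVec_transpose, Matrix.mulVec_mulVec, h', Matrix.one_mulVec]
  have h2 := congrFun h1 i
  simpa [Matrix.vecMul, Matrix.mulVec, dotProduct] using h2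

theorem cell_bilin {M : ℕ} (x y : Fin M → ℝ) (D : Fin M → Fin M → ℝ) :
    (∑ i, x i * ∑ m, y m * D m i) ^ 2 ≤ (∑ i, x i ^ 2) * ((∑ m, y m ^ 2) * ∑ m, ∑ i, D m i ^ 2) := by
  refine (Finset.sum_mul_sq_le_sq_mul_sq univ x _).trans ?_
  refine mul_le_mul_of_nonneg_left ?_ (sum_nonneg fun i _ => sq_nonneg _)
  rw [sum_comm, mul_sum]
  exact sum_le_sum fun i _ => Finset.sum_mul_sq_le_sq_mul_sq univ y _

theorem cell_swap {M : ℕ} (a x : Fin M → ℝ) (U γ : Matrix (Fin M) (Fin M) ℝ)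
    (h : γ.transpose * γ = 1) :
    ∑ j, (∑ i, a i * γ i j) * ∑ m, x m * (U * γ) m j = ∑ i, a i * ∑ m, x m * U m i := by
  have h1 : ∀ j, ∑ m, x m * (U * γ) m j = ∑ i, (∑ m, x m * U m i) * γ i j := by
    intro j
    have := congrFun (Matrix.vecMul_vecMul x U γ) j
    simpa [Matrix.vecMul, dotProduct] using this.symm
  simp only [h1]
  calc ∑ j, (∑ i, a i * γ i j) * ∑ i, (∑ m, x m * U m i) * γ i j
      = ∑ j, ∑ i, (∑ m, x m * U m i) * (γ i j * ∑ i, a i * γ i j) := by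
        refine sum_congr rfl fun j _ => ?_
        rw [mul_sum]
        exact sum_congr rfl fun i _ => by ring
    _ = ∑ i, (∑ m, x m * U m i) * ∑ j, γ i j * ∑ i, a i * γ i j := by
        rw [sum_comm]
        exact sum_congr rfl fun i _ => by rw [mul_sum]
    _ = ∑ i, a i * ∑ m, x m * U m i := by
        refine sum_congr rfl fun i _ => ?_
        rw [cell_orth_inv γ h a i]; ring

/-- The decomposition at a point. -/
theorem cell_point {M : ℕ} (a x c t : Fin M → ℝ) (A U γ γ' : Matrix (Fin M) (Fin M) ℝ)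
    (h : γ'.transpose * γ' = 1) :
    ∑ i, a i * t i - ∑ j, c j * ∑ i, a i * γ' i j =
      ∑ j, (∑ i, a i * γ' i j) * (∑ m, x m * γ m j - c j) +
      (∑ i, a i * (t i - ∑ m, x m * A m i) + ∑ i, a i * ∑ m, x m * (A m i - U m i) +
        ∑ j, (∑ i, a i * γ' i j) * ∑ m, x m * ((U * γ') m j - γ m j)) := by
  have h1 := cell_swap a x U γ' h
  have e1 : ∑ j, (∑ i, a i * γ' i j) * (∑ m, x m * γ m j - c j) =
      ∑ j, (∑ i, a i * γ' i j) * (∑ m, x m * γ m j) - ∑ j, c j * ∑ i, a i * γ' i j := by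
    rw [← sum_sub_distrib]
    exact sum_congr rfl fun j _ => by ring
  have e2 : ∑ i, a i * (t i - ∑ m, x m * A m i) = ∑ i, a i * t i - ∑ i, a i * ∑ m, x m * A m i := by
    rw [← sum_sub_distrib]
    exact sum_congr rfl fun j _ => by ring
  have e3 : ∑ i, a i * ∑ m, x m * (A m i - U m i) =
      ∑ i, a i * ∑ m, x m * A m i - ∑ i, a i * ∑ m, x m * U m i := by
    rw [← sum_sub_distrib]
    refine sum_congr rfl fun j _ => ?_
    rw [← mul_sub, ← sum_sub_distrib]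
    congr 1
    exact sum_congr rfl fun m _ => by ring
  have e4 : ∑ j, (∑ i, a i * γ' i j) * ∑ m, x m * ((U * γ') m j - γ m j) =
      ∑ j, (∑ i, a i * γ' i j) * ∑ m, x m * (U * γ') m j -
        ∑ j, (∑ i, a i * γ' i j) * ∑ m, x m * γ m j := by
    rw [← sum_sub_distrib]
    refine sum_congr rfl fun j _ => ?_
    rw [← mul_sub, ← sum_sub_distrib]
    congr 1
    exact sum_congr rfl fun m _ => by ring
  rw [e1, e2, e3, e4, h1]
  ring

/-! ### the estimate -/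

/-- F9c: the main estimate (P1). -/
theorem cell_p1 {k : ℕ} (θ : Param k) {ζ : ℝ} (hζ : 0 < ζ) (hζ1 : ζ ≤ 1) (hθ : θ.Ok ζ) :
    ∃ s0 : ℝ, 0 < s0 ∧ ∀ {P Q : Type} [Fintype Q] [Nonempty Q]
      (T : P → P → Q → Q → ℝ) (s : ℝ), 0 ≤ s → s ≤ s0 → Win (k + 2) s T →
      ∀ (l : Fin θ.M → ℝ), (∀ i, θ.l0 + θ.g ≤ |l i| ∧ |l i| ≤ 1) →
      ∀ (y : (Fin (k + 2) → Fin 2 ⊕ Fin θ.M) → ℝ) (b c : P) (f e : Fin θ.M → Q → ℝ),
      SFrame θ.l0 θ.g s l y (T b b) f → SFrame θ.l0 θ.g s l y (T c c) e →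
      ∀ (U γ γ' : Matrix (Fin θ.M) (Fin θ.M) ℝ), γ.transpose * γ = 1 → γ'.transpose * γ' = 1 →
      (∑ i, ∑ j, (trans l (T b c) f e i j - U i j) ^ 2 ≤ s ^ 2) →
      (∑ i, ∑ j, ((U * γ') i j - γ i j) ^ 2 ≤ s ^ 2) →
      θ.β / 2 ≤ avg (fun p => θ.W.ev (Matrix.vecMul (row (T b b) l f p) (blk 2 γ))) →
      avg (fun p => θ.W.ev (Matrix.vecMul (row (T b b) l f p) (blk 2 γ)) *
        ∑ j, (Matrix.vecMul (row (T b b) l f p) (blk 2 γ) (Sum.inr j) - θ.c j) ^ 2) ≤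
        2 * ζ * avg (fun p => θ.W.ev (Matrix.vecMul (row (T b b) l f p) (blk 2 γ))) →
      (∀ h : Q → ℝ, nrm h ≤ 1 →
        avg (fun p => θ.W.ev (Matrix.vecMul (row (T b b) l f p) (blk 2 γ)) *
          (op (T b c) h p - ip (∑ j, θ.c j • ∑ i, γ' i j • e i) h) ^ 2) ≤
        20 * ζ * avg (fun p => θ.W.ev (Matrix.vecMul (row (T b b) l f p) (blk 2 γ)))) := by
  obtain ⟨C, s1, hC, hs1, H1⟩ := trans_props θ.M (k + 2) hθ.g_pos hθ.g_lt
  obtain ⟨s2, hs2, H2⟩ := offdiag θ.M (k + 2) hθ.g_pos hθ.g_lt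
  have hβ := hθ.β_pos
  set M : ℝ := (θ.M : ℝ) with hM
  have hM0 : 0 ≤ M := Nat.cast_nonneg _
  set K : ℝ := 9 * (2 * M ^ 2 * C ^ 2 + 5) with hK
  have hK0 : 0 < K := by positivity
  refine ⟨min (min s1 s2) (min (1 / (11 * (M + 1))) (min 1 (ζ * θ.β / K))), ?_, ?_⟩
  · refine lt_min (lt_min hs1 hs2) (lt_min (by positivity) (lt_min one_pos (by positivity)))
  intro P Q _ _ T s hs0 hs hW l hl y b c f e hf he U γ γ' hγ hγ' hAU hUγ hmass hcell h hh
  have hsa : s ≤ s1 := hs.trans ((min_le_left _ _).trans (min_le_left _ _))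
  have hsb : s ≤ s2 := hs.trans ((min_le_left _ _).trans (min_le_right _ _))
  have hsc : s ≤ 1 / (11 * (M + 1)) := hs.trans ((min_le_right _ _).trans (min_le_left _ _))
  have hsd : s ≤ 1 :=
    hs.trans ((min_le_right _ _).trans ((min_le_right _ _).trans (min_le_left _ _)))
  have hse : s ≤ ζ * θ.β / K :=
    hs.trans ((min_le_right _ _).trans ((min_le_right _ _).trans (min_le_right _ _)))
  have hMs : M * s ≤ 1 / 11 := by
    rw [le_div_iff₀ (by positivity)] at hsc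
    nlinarith
  have hKs : K * s ^ 2 ≤ ζ * θ.β := by
    rw [le_div_iff₀ hK0] at hse
    have : s ^ 2 ≤ s := by nlinarith
    nlinarith
  -- the pieces
  set A := trans l (T b c) f e with hA
  obtain ⟨hr, -, -, -⟩ := H1 T s hs0 hsa hW l hl y b c f e hf he
  have hoff := H2 T s hs0 hsb hW l hl y b c e he h
  set a : Fin θ.M → ℝ := fun i => ip (e i) h with ha
  set α : Fin θ.M → ℝ := fun j => ∑ i, a i * γ' i j with hα
  set φ : Q → ℝ := fun p => θ.W.ev (Matrix.vecMul (row (T b b) l f p) (blk 2 γ)) with hφ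
  set x : Q → Fin θ.M → ℝ := fun p m => l m * f m p with hx
  have hrow : ∀ p j, Matrix.vecMul (row (T b b) l f p) (blk 2 γ) (Sum.inr j) =
      ∑ m, x p m * γ m j := fun p j => by
    rw [cell_vm_inr]; rfl
  have hx2 : ∀ p, ∑ m, x p m ^ 2 ≤ 2 := fun p => hf.sup p
  have hφ01 : ∀ p, 0 ≤ φ p ∧ φ p ≤ 1 := fun p => by
    refine hθ.w_mem _ ?_ ?_
    · rw [cell_vm_inl]; rfl
    · simp only [hrow]
      rw [cell_orth_sq γ hγ]
      exact hx2 p
  set Φ := avg φ with hΦ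
  have hΦ0 : 0 ≤ Φ := avg_nonneg fun p => (hφ01 p).1
  have ha2 : ∑ i, a i ^ 2 ≤ 11 / 10 := by
    have h1 := bessel_soft hs0 he.orth h
    have h2 : nrm h ^ 2 ≤ 1 := by
      have := nrm_nonneg h
      nlinarith
    have h3 : 0 ≤ ∑ i, a i ^ 2 := sum_nonneg fun i _ => sq_nonneg _
    have h4 : (1 - M * s) * ∑ i, a i ^ 2 ≤ 1 := h1.trans h2
    nlinarith
  have hα2 : ∑ j, α j ^ 2 ≤ 11 / 10 := by
    have := cell_orth_sq γ' hγ' a
    rw [show ∑ j, α j ^ 2 = ∑ i, a i ^ 2 from this]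
    exact ha2
  -- the functions
  set X : Q → ℝ := op (T b c) (h - ∑ i, ip (e i) h • e i) with hX
  set E1 : Q → ℝ := ∑ i, a i • (op (T b c) (e i) - ∑ m, (A m i * l m) • f m) with hE1
  set E2 : Q → ℝ := fun p => ∑ i, a i * ∑ m, x p m * (A m i - U m i) with hE2
  set E3 : Q → ℝ := fun p => ∑ j, α j * ∑ m, x p m * ((U * γ') m j - γ m j) with hE3
  set Dd : Q → ℝ := fun p => ∑ j, α j * (∑ m, x p m * γ m j - θ.c j) with hDd
  have hid : ∀ p, op (T b c) h p - ip (∑ j, θ.c j • ∑ i, γ' i j • e i) h =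
      Dd p + X p + (E1 p + E2 p + E3 p) := by
    intro p
    have e1 : op (T b c) h p = ∑ i, a i * op (T b c) (e i) p + X p := by
      have h1 : op (T b c) h = op (T b c) (h - ∑ i, ip (e i) h • e i) +
          ∑ i, ip (e i) h • op (T b c) (e i) := by
        rw [op_sub, op_sum]
        simp only [op_smul]
        abel
      rw [h1]
      simp only [Pi.add_apply, Finset.sum_apply, Pi.smul_apply, smul_eq_mul]
      rw [add_comm]
    have e2 : ip (∑ j, θ.c j • ∑ i, γ' i j • e i) h = ∑ j, θ.c j * ∑ i, a i * γ' i j := by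
      rw [ip_sum_left]
      refine sum_congr rfl fun j _ => ?_
      rw [ip_smul_left, ip_sum_left]
      congr 1
      refine sum_congr rfl fun i _ => ?_
      rw [ip_smul_left]; exact mul_comm _ _
    have e3 : E1 p = ∑ i, a i * (op (T b c) (e i) p - ∑ m, x p m * A m i) := by
      simp only [hE1, Finset.sum_apply, Pi.smul_apply, smul_eq_mul, Pi.sub_apply]
      refine sum_congr rfl fun i _ => ?_
      congr 2
      exact sum_congr rfl fun m _ => by simp only [hx]; ring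
    have h2 := cell_point a (x p) θ.c (fun i => op (T b c) (e i) p) A U γ γ' hγ'
    rw [e1, e2, e3]
    simp only [hDd, hE2, hE3, hα]
    linarith
  -- bounds of the pieces
  have bD : avg (fun p => φ p * Dd p ^ 2) ≤ 11 / 10 * (2 * ζ * Φ) := by
    have h1 : ∀ p, φ p * Dd p ^ 2 ≤ 11 / 10 * (φ p * ∑ j,
        (Matrix.vecMul (row (T b b) l f p) (blk 2 γ) (Sum.inr j) - θ.c j) ^ 2) := by
      intro p
      have h2 := Finset.sum_mul_sq_le_sq_mul_sq univ α (fun j => ∑ m, x p m * γ m j - θ.c j)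
      have h3 : 0 ≤ ∑ j, (∑ m, x p m * γ m j - θ.c j) ^ 2 := sum_nonneg fun _ _ => sq_nonneg _
      simp only [hrow]
      have h4 : Dd p ^ 2 ≤ 11 / 10 * ∑ j, (∑ m, x p m * γ m j - θ.c j) ^ 2 :=
        h2.trans (mul_le_mul_of_nonneg_right hα2 h3)
      calc φ p * Dd p ^ 2 ≤ φ p * (11 / 10 * ∑ j, (∑ m, x p m * γ m j - θ.c j) ^ 2) :=
            mul_le_mul_of_nonneg_left h4 (hφ01 p).1
        _ = _ := by ring
    calc avg (fun p => φ p * Dd p ^ 2) ≤ avg (fun p => 11 / 10 * (φ p * ∑ j,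
        (Matrix.vecMul (row (T b b) l f p) (blk 2 γ) (Sum.inr j) - θ.c j) ^ 2)) := avg_mono h1
      _ ≤ 11 / 10 * (2 * ζ * Φ) := by
        rw [avg_mul_left]
        exact mul_le_mul_of_nonneg_left hcell (by norm_num)
  have hsq : ∀ F : Q → ℝ, avg (fun p => φ p * F p ^ 2) ≤ avg (fun p => F p ^ 2) := fun F =>
    avg_mono fun p => by
      have := (hφ01 p).2
      nlinarith [sq_nonneg (F p)]
  have hnsq : ∀ F : Q → ℝ, avg (fun p => F p ^ 2) = nrm F ^ 2 := fun F => by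
    rw [nrm_sq, ip]; simp only [sq]
  have bX : avg (fun p => φ p * X p ^ 2) ≤ 2 * ζ * Φ := by
    refine (hsq X).trans ?_
    rw [hnsq]
    have h1 : nrm X ≤ θ.l0 := by
      have hl0 : 0 ≤ θ.l0 := (hθ.g_pos.trans hθ.g_lt).le
      calc nrm X ≤ θ.l0 * nrm h := hoff
        _ ≤ θ.l0 * 1 := mul_le_mul_of_nonneg_left hh hl0
        _ = θ.l0 := mul_one _
    have h2 : nrm X ^ 2 ≤ θ.l0 ^ 2 := pow_le_pow_left₀ (nrm_nonneg _) h1 2
    have h3 := hθ.l0_sq
    have h4 : ζ * (θ.β / 2) ≤ ζ * Φ := mul_le_mul_of_nonneg_left hmass hζ.le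
    linarith
  have bE1 : nrm E1 ^ 2 ≤ 2 * M ^ 2 * C ^ 2 * s ^ 2 := by
    have h1 : nrm E1 ≤ ∑ _i : Fin θ.M, (11 / 10 : ℝ) * (C * s) := by
      refine (nrm_sum_le _ _).trans (sum_le_sum fun i _ => ?_)
      rw [nrm_smul]
      have h2 : |a i| ≤ 11 / 10 := by
        have h3 : a i ^ 2 ≤ ∑ i, a i ^ 2 :=
          single_le_sum (f := fun i => a i ^ 2) (fun i _ => sq_nonneg _) (mem_univ i)
        refine abs_le_of_sq_le_sq ?_ (by norm_num)
        linarith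
      exact mul_le_mul h2 (hr i) (nrm_nonneg _) (by norm_num)
    rw [sum_const, card_univ, Fintype.card_fin, nsmul_eq_mul] at h1
    have h4 := pow_le_pow_left₀ (nrm_nonneg E1) h1 2
    have h5 : (M * (11 / 10 * (C * s))) ^ 2 ≤ 2 * M ^ 2 * C ^ 2 * s ^ 2 := by
      have : 0 ≤ (M * C * s) ^ 2 := sq_nonneg _
      nlinarith
    exact h4.trans h5
  have bE2 : ∀ p, E2 p ^ 2 ≤ 5 / 2 * s ^ 2 := fun p => by
    refine (cell_bilin a (x p) (fun m i => A m i - U m i)).trans ?_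
    have h1 : 0 ≤ ∑ m, x p m ^ 2 := sum_nonneg fun _ _ => sq_nonneg _
    have h2 : 0 ≤ ∑ m, ∑ i, (A m i - U m i) ^ 2 :=
      sum_nonneg fun _ _ => sum_nonneg fun _ _ => sq_nonneg _
    calc (∑ i, a i ^ 2) * ((∑ m, x p m ^ 2) * ∑ m, ∑ i, (A m i - U m i) ^ 2)
        ≤ 11 / 10 * (2 * s ^ 2) := mul_le_mul ha2 (mul_le_mul (hx2 p) hAU h2 (by norm_num))
          (mul_nonneg h1 h2) (by norm_num)
      _ ≤ 5 / 2 * s ^ 2 := by nlinarith [sq_nonneg s]
  have bE3 : ∀ p, E3 p ^ 2 ≤ 5 / 2 * s ^ 2 := fun p => by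
    refine (cell_bilin α (x p) (fun m i => (U * γ') m i - γ m i)).trans ?_
    have h1 : 0 ≤ ∑ m, x p m ^ 2 := sum_nonneg fun _ _ => sq_nonneg _
    have h2 : 0 ≤ ∑ m, ∑ i, ((U * γ') m i - γ m i) ^ 2 :=
      sum_nonneg fun _ _ => sum_nonneg fun _ _ => sq_nonneg _
    calc (∑ i, α i ^ 2) * ((∑ m, x p m ^ 2) * ∑ m, ∑ i, ((U * γ') m i - γ m i) ^ 2)
        ≤ 11 / 10 * (2 * s ^ 2) := mul_le_mul hα2 (mul_le_mul (hx2 p) hUγ h2 (by norm_num))
          (mul_nonneg h1 h2) (by norm_num)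
      _ ≤ 5 / 2 * s ^ 2 := by nlinarith [sq_nonneg s]
  have bE : avg (fun p => φ p * (E1 p + E2 p + E3 p) ^ 2) ≤
      3 * (2 * M ^ 2 * C ^ 2 * s ^ 2 + 5 * s ^ 2) := by
    refine (hsq (fun p => E1 p + E2 p + E3 p)).trans ?_
    calc avg (fun p => (E1 p + E2 p + E3 p) ^ 2)
        ≤ avg (fun p => 3 * (E1 p ^ 2 + 5 * s ^ 2)) := avg_mono fun p => by
          nlinarith [bE2 p, bE3 p, sq_nonneg (E1 p - E2 p), sq_nonneg (E1 p - E3 p),
            sq_nonneg (E2 p - E3 p)]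
      _ = 3 * (nrm E1 ^ 2 + 5 * s ^ 2) := by
          rw [avg_mul_left, avg_add, avg_const, hnsq]
      _ ≤ _ := by linarith
  calc avg (fun p => φ p * (op (T b c) h p - ip (∑ j, θ.c j • ∑ i, γ' i j • e i) h) ^ 2)
      ≤ avg (fun p => 3 * (φ p * Dd p ^ 2 + φ p * X p ^ 2 +
          φ p * (E1 p + E2 p + E3 p) ^ 2)) := avg_mono fun p => by
        rw [hid p]
        have h1 : (Dd p + X p + (E1 p + E2 p + E3 p)) ^ 2 ≤
            3 * (Dd p ^ 2 + X p ^ 2 + (E1 p + E2 p + E3 p) ^ 2) := by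
          nlinarith [sq_nonneg (Dd p - X p), sq_nonneg (Dd p - (E1 p + E2 p + E3 p)),
            sq_nonneg (X p - (E1 p + E2 p + E3 p))]
        calc φ p * (Dd p + X p + (E1 p + E2 p + E3 p)) ^ 2
            ≤ φ p * (3 * (Dd p ^ 2 + X p ^ 2 + (E1 p + E2 p + E3 p) ^ 2)) :=
              mul_le_mul_of_nonneg_left h1 (hφ01 p).1
          _ = _ := by ring
    _ = 3 * (avg (fun p => φ p * Dd p ^ 2) + avg (fun p => φ p * X p ^ 2) +
          avg (fun p => φ p * (E1 p + E2 p + E3 p) ^ 2)) := by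
        rw [avg_mul_left, avg_add, avg_add]
    _ ≤ 20 * ζ * Φ := by
        have h4 : ζ * (θ.β / 2) ≤ ζ * Φ := mul_le_mul_of_nonneg_left hmass hζ.le
        have h5 : 9 * (2 * M ^ 2 * C ^ 2 + 5) * s ^ 2 ≤ ζ * θ.β := hKs
        have h6 : 0 ≤ ζ * Φ := mul_nonneg hζ.le hΦ0
        nlinarith

end Fr

end Pool.Agent.SRL
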