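import Pool.Agent.SRL.FBasic

/-! Row F11a: weighted codegrees. -/

set_option autoImplicit false

namespace Pool.Agent.SRL

open Finset

namespace Fr

/-- averaging over one coordinate first -/
theorem avg_update {Q : Type} [Fintype Q] [Nonempty Q] {k : ℕ} (i : Fin k)
    (F : (Fin k → Q) → ℝ) :
    avg (fun p : Fin k → Q => avg (fun x => F (Function.update p i x))) = avg F := by
  classical
  have hc : (Fintype.card Q : ℝ) ≠ 0 := by
    exact_mod_cast Fintype.card_ne_zero
  let e := (Equiv.funSplitAt i Q)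
  have hu : ∀ (a : Q) (r : {j // j ≠ i} → Q) (x : Q),
      Function.update (e.symm (a, r)) i x = e.symm (x, r) := by
    intro a r x
    funext j
    by_cases hj : j = i
    · subst hj
      simp [e, Equiv.funSplitAt]
    · rw [Function.update_of_ne hj]
      simp [e, Equiv.funSplitAt, hj]
  have h1 : ∑ p : Fin k → Q, ∑ x, F (Function.update p i x) =
      Fintype.card Q * ∑ p, F p := by
    rw [← e.symm.sum_comp (fun p => ∑ x, F (Function.update p i x)), ← e.symm.sum_comp F,
      Fintype.sum_prod_type, Fintype.sum_prod_type]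
    simp only [hu]
    rw [sum_const, card_univ, nsmul_eq_mul, sum_comm]
  unfold avg
  rw [← sum_div, h1]
  field_simp

theorem abs_prod_sub_prod_le {ι : Type} (s : Finset ι) {a b : ι → ℝ} (ha0 : ∀ i, 0 ≤ a i)
    (ha1 : ∀ i, a i ≤ 1) (hb0 : ∀ i, 0 ≤ b i) (hb1 : ∀ i, b i ≤ 1) :
    |∏ i ∈ s, a i - ∏ i ∈ s, b i| ≤ ∑ i ∈ s, |a i - b i| := by
  classical
  induction s using Finset.induction_on with
  | empty => simp
  | insert i s hi ih =>
    rw [prod_insert hi, prod_insert hi, sum_insert hi]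
    have h1 : a i * ∏ j ∈ s, a j - b i * ∏ j ∈ s, b j =
        (a i - b i) * ∏ j ∈ s, a j + b i * (∏ j ∈ s, a j - ∏ j ∈ s, b j) := by ring
    rw [h1]
    refine (abs_add_le _ _).trans (add_le_add ?_ ?_)
    · rw [abs_mul, abs_of_nonneg (prod_nonneg fun j _ => ha0 j)]
      exact mul_le_of_le_one_right (abs_nonneg _) (prod_le_one (fun j _ => ha0 j) fun j _ => ha1 j)
    · rw [abs_mul, abs_of_nonneg (hb0 i)]
      exact (mul_le_of_le_one_left (abs_nonneg _) (hb1 i)).trans ih

theorem pow_avg_le {Q : Type} [Fintype Q] [Nonempty Q] {f : Q → ℝ} (hf : ∀ q, 0 ≤ f q) (n : ℕ) :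
    avg f ^ n ≤ avg (fun q => f q ^ n) := by
  have hc : (0 : ℝ) < Fintype.card Q := by exact_mod_cast Fintype.card_pos
  have h := Real.pow_arith_mean_le_arith_mean_pow univ (fun _ : Q => ((Fintype.card Q : ℝ))⁻¹) f
    (fun _ _ => by positivity) (by
      rw [sum_const, card_univ, nsmul_eq_mul]
      exact mul_inv_cancel₀ hc.ne') (fun q _ => hf q) n
  have e1 : ∀ g : Q → ℝ, ∑ q, (Fintype.card Q : ℝ)⁻¹ * g q = avg g := by
    intro g
    rw [← mul_sum, avg, div_eq_inv_mul]
  rw [e1, e1] at h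
  exact h

/-- Cauchy-Schwarz for a probability density. -/
theorem avg_abs_le_of_sq {Q : Type} [Fintype Q] {w X : Q → ℝ} (hw : ∀ p, 0 ≤ w p)
    (hw1 : avg w = 1) {ξ : ℝ} (hξ : 0 ≤ ξ) (h : avg (fun p => w p * X p ^ 2) ≤ ξ ^ 2) :
    avg (fun p => w p * |X p|) ≤ ξ := by
  set t := avg (fun p => w p * |X p|) with ht
  have h0 : 0 ≤ avg (fun p => w p * (|X p| - t) ^ 2) :=
    avg_nonneg fun p => mul_nonneg (hw p) (sq_nonneg _)
  have e : (fun p => w p * (|X p| - t) ^ 2) =
      fun p => (w p * X p ^ 2 - (2 * t) * (w p * |X p|)) + t ^ 2 * w p := by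
    funext p
    rw [← sq_abs (X p)]
    ring
  have e1 : avg (fun p => (2 * t) * (w p * |X p|)) = (2 * t) * t := avg_mul_left _ _
  have e2 : avg (fun p => t ^ 2 * w p) = t ^ 2 := by rw [avg_mul_left, hw1, mul_one]
  rw [e, avg_add, avg_sub, e1, e2] at h0
  have h2 : t ^ 2 ≤ ξ ^ 2 := by nlinarith
  exact le_of_sq_le_sq h2 hξ

theorem codegree {Q : Type} [Fintype Q] [Nonempty Q] {k : ℕ} (T : Fin k → Q → Q → ℝ)
    (h0 : ∀ i p q, 0 ≤ T i p q) (h1 : ∀ i p q, T i p q ≤ 1) (w : Fin k → Q → ℝ)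
    (hw0 : ∀ i p, 0 ≤ w i p) (hw1 : ∀ i, avg (w i) = 1) (u : Fin k → Q → ℝ) (u0 : Q → ℝ)
    (ξ : ℝ) (hξ : 0 ≤ ξ)
    (hp : ∀ i (f : Q → ℝ), nrm f ≤ 1 → avg (fun p => w i p * (op (T i) f p - ip u0 f) ^ 2) ≤ ξ ^ 2)
    (hd : ∀ i, 1 / 2 - ξ ≤ avg (fun p => w i p * op (T i) 1 p)) (hξ1 : ξ ≤ 1 / 2) (c : ℝ)
    (hc : c < (1 / 2 - ξ) ^ k - 4 * k * ξ) :
    avg (fun p : Fin k → Q => (∏ i, w i (p i)) *
      (open Classical in if avg (fun q => ∏ i, T i (p i) q) < c then (1 : ℝ) else 0)) *
      ((1 / 2 - ξ) ^ k - 4 * k * ξ - c) ≤ 4 * k * ξ := by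
  classical
  -- the mean functions
  let ρ : Fin k → Q → ℝ := fun i q => avg fun p => w i p * T i p q
  have hρ0 : ∀ i q, 0 ≤ ρ i q := fun i q => avg_nonneg fun p => mul_nonneg (hw0 i p) (h0 i p q)
  have hρ1 : ∀ i q, ρ i q ≤ 1 := fun i q => by
    rw [← hw1 i]
    exact avg_mono fun p => mul_le_of_le_one_right (hw0 i p) (h1 i p q)
  have hρ : ∀ i (f : Q → ℝ), ip (ρ i) f = avg fun p => w i p * op (T i) f p := by
    intro i f
    have e1 : ip (ρ i) f = avg fun q => avg fun p => w i p * (T i p q * f q) := by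
      unfold ip
      congr 1
      funext q
      simp only [ρ]
      rw [← avg_mul_right]
      congr 1
      funext p
      ring
    rw [e1, avg_comm]
    congr 1
    funext p
    rw [avg_mul_left]
    rfl
  have k1 : ∀ i (f : Q → ℝ), nrm f ≤ 1 →
      avg (fun p => w i p * |op (T i) f p - ip u0 f|) ≤ ξ :=
    fun i f hf => avg_abs_le_of_sq (hw0 i) (hw1 i) hξ (hp i f hf)
  have k2 : ∀ i (f : Q → ℝ), nrm f ≤ 1 → |ip (ρ i) f - ip u0 f| ≤ ξ := by
    intro i f hf
    have e1 : ip (ρ i) f - ip u0 f = avg fun p => w i p * (op (T i) f p - ip u0 f) := by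
      have : ip u0 f = avg fun p => w i p * ip u0 f := by
        rw [avg_mul_right, hw1 i, one_mul]
      conv_lhs => rw [this, hρ, ← avg_sub]
      congr 1
      funext p
      ring
    rw [e1]
    refine (abs_avg_le _).trans ((avg_mono fun p => ?_).trans (k1 i f hf))
    rw [abs_mul, abs_of_nonneg (hw0 i p)]
  have k3 : ∀ i (f : Q → ℝ), nrm f ≤ 1 →
      avg (fun p => w i p * |op (T i) f p - ip (ρ i) f|) ≤ 2 * ξ := by
    intro i f hf
    have e1 : avg (fun p => w i p * |op (T i) f p - ip (ρ i) f|) ≤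
        avg (fun p => w i p * |op (T i) f p - ip u0 f| + w i p * ξ) := by
      refine avg_mono fun p => ?_
      rw [← mul_add]
      refine mul_le_mul_of_nonneg_left ?_ (hw0 i p)
      have h2 : op (T i) f p - ip (ρ i) f =
          (op (T i) f p - ip u0 f) - (ip (ρ i) f - ip u0 f) := by ring
      rw [h2]
      exact (abs_sub _ _).trans (add_le_add le_rfl (k2 i f hf))
    refine e1.trans ?_
    rw [avg_add, avg_mul_right, hw1 i]
    have := k1 i f hf
    linarith
  have k4 : ∀ i, nrm (ρ i - u0) ≤ ξ := by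
    intro i
    set n := nrm (ρ i - u0) with hn
    have hn0 : 0 ≤ n := nrm_nonneg _
    rcases hn0.eq_or_lt with h | h
    · rw [← h]; exact hξ
    · have hf : nrm (n⁻¹ • (ρ i - u0)) ≤ 1 := by
        rw [nrm_smul, abs_of_pos (inv_pos.2 h), ← hn]
        exact (inv_mul_cancel₀ h.ne').le
      have h2 := k2 i _ hf
      rw [← ip_sub_left, ip_smul_right, ← nrm_sq, ← hn] at h2
      have h3 : n⁻¹ * n ^ 2 = n := by field_simp
      rw [h3, abs_of_pos h] at h2
      exact h2
  have k5 : ∀ i j, avg (fun q => |ρ i q - ρ j q|) ≤ 2 * ξ := by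
    intro i j
    have e1 : avg (fun q => |ρ i q - ρ j q|) ≤ nrm (fun q => |ρ i q - ρ j q|) :=
      (le_abs_self _).trans (abs_avg_le_nrm _)
    have e2 : nrm (fun q => |ρ i q - ρ j q|) = nrm (ρ i - ρ j) := by
      unfold nrm ip
      congr 2
      funext q
      rw [abs_mul_abs_self]
      rfl
    rw [e2] at e1
    refine e1.trans ((nrm_tri _ u0 _).trans ?_)
    have h2 := k4 i
    have h3 := k4 j
    rw [nrm_sub_comm] at h3
    linarith
  -- the mean codegree
  have k6 : (1 / 2 - ξ) ^ k - 2 * k * ξ ≤ avg (fun q => ∏ i, ρ i q) := by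
    rcases Nat.eq_zero_or_pos k with hk | hk
    · subst hk
      simp only [univ_eq_empty, prod_empty, pow_zero, Nat.cast_zero, mul_zero, zero_mul, sub_zero]
      rw [avg_const]
    · let i0 : Fin k := ⟨0, hk⟩
      have e1 : ∀ q, ρ i0 q ^ k - ∑ i, |ρ i q - ρ i0 q| ≤ ∏ i, ρ i q := by
        intro q
        have h2 := abs_prod_sub_prod_le univ (a := fun i => ρ i q) (b := fun _ : Fin k => ρ i0 q)
          (fun i => hρ0 i q) (fun i => hρ1 i q) (fun _ => hρ0 i0 q) (fun _ => hρ1 i0 q)
        rw [prod_const, card_univ, Fintype.card_fin] at h2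
        have := (abs_le.1 h2).1
        linarith
      have e2 : avg (fun q => ρ i0 q ^ k - ∑ i, |ρ i q - ρ i0 q|) ≤ avg (fun q => ∏ i, ρ i q) :=
        avg_mono e1
      rw [avg_sub, avg_sum] at e2
      have e3 : ∑ i, avg (fun q => |ρ i q - ρ i0 q|) ≤ 2 * k * ξ := by
        refine (sum_le_sum fun i _ => k5 i i0).trans ?_
        rw [sum_const, card_univ, Fintype.card_fin, nsmul_eq_mul]
        linarith
      have e4 : (1 / 2 - ξ) ^ k ≤ avg (fun q => ρ i0 q ^ k) := by
        refine le_trans ?_ (pow_avg_le (hρ0 i0) k)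
        refine pow_le_pow_left₀ (by linarith) ?_ k
        have h2 := hd i0
        rw [← hρ] at h2
        unfold ip at h2
        simpa using h2
      linarith
  -- telescoping
  let G : Fin k → (Fin k → Q) → Q → ℝ := fun i p q =>
    (∏ j ∈ univ.filter (· < i), ρ j q) * ∏ j ∈ univ.filter (i < ·), T j (p j) q
  have hG0 : ∀ i p q, 0 ≤ G i p q := fun i p q =>
    mul_nonneg (prod_nonneg fun j _ => hρ0 j q) (prod_nonneg fun j _ => h0 j _ q)
  have hG1 : ∀ i p q, G i p q ≤ 1 := fun i p q =>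
    mul_le_one₀ (prod_le_one (fun j _ => hρ0 j q) fun j _ => hρ1 j q)
      (prod_nonneg fun j _ => h0 j _ q) (prod_le_one (fun j _ => h0 j _ q) fun j _ => h1 j _ q)
  have hGn : ∀ i p, nrm (G i p) ≤ 1 := fun i p =>
    nrm_le_of_abs_le fun q => by rw [abs_of_nonneg (hG0 i p q)]; exact hG1 i p q
  have hGu : ∀ i p x, G i (Function.update p i x) = G i p := by
    intro i p x
    funext q
    simp only [G]
    congr 1
    refine prod_congr rfl fun j hj => ?_
    have : j ≠ i := (mem_filter.1 hj).2.ne'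
    rw [Function.update_of_ne this]
  let D : Fin k → (Fin k → Q) → ℝ := fun i p => op (T i) (G i p) (p i) - ip (ρ i) (G i p)
  have tel : ∀ p : Fin k → Q, avg (fun q => ∏ i, T i (p i) q) - avg (fun q => ∏ i, ρ i q) =
      ∑ i, D i p := by
    intro p
    have e1 : ∀ q, ∏ i, T i (p i) q - ∏ i, ρ i q =
        ∑ i, (T i (p i) q * G i p q - ρ i q * G i p q) := by
      intro q
      have h2 := Finset.prod_sub_ordered univ (fun i => T i (p i) q)
        (fun i => T i (p i) q - ρ i q)
      simp only [sub_sub_cancel] at h2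
      rw [h2, sub_sub_cancel]
      refine sum_congr rfl fun i _ => ?_
      simp only [G]
      ring
    rw [← avg_sub]
    have e2 : (fun q => ∏ i, T i (p i) q - ∏ i, ρ i q) =
        fun q => ∑ i, (T i (p i) q * G i p q - ρ i q * G i p q) := funext e1
    rw [e2, avg_sum]
    refine sum_congr rfl fun i _ => ?_
    rw [avg_sub]
    rfl
  have k7 : ∀ i, avg (fun p : Fin k → Q => (∏ j, w j (p j)) * |D i p|) ≤ 2 * ξ := by
    intro i
    rw [← avg_update i]
    have e1 : ∀ p : Fin k → Q,
        avg (fun x => (∏ j, w j (Function.update p i x j)) * |D i (Function.update p i x)|) ≤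
        (∏ j, (if j = i then (fun _ => (1 : ℝ)) else w j) (p j)) * (2 * ξ) := by
      intro p
      have e2 : ∀ x, (∏ j, w j (Function.update p i x j)) =
          w i x * ∏ j, (if j = i then (fun _ => (1 : ℝ)) else w j) (p j) := by
        intro x
        rw [← mul_prod_erase univ _ (mem_univ i), ← mul_prod_erase univ (fun j =>
          (if j = i then (fun _ => (1 : ℝ)) else w j) (p j)) (mem_univ i)]
        simp only [Function.update_self, if_true, one_mul]
        congr 1
        refine prod_congr rfl fun j hj => ?_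
        have hji : j ≠ i := ne_of_mem_erase hj
        rw [Function.update_of_ne hji, if_neg hji]
      have e3 : ∀ x, (∏ j, w j (Function.update p i x j)) * |D i (Function.update p i x)| =
          (∏ j, (if j = i then (fun _ => (1 : ℝ)) else w j) (p j)) *
            (w i x * |op (T i) (G i p) x - ip (ρ i) (G i p)|) := by
        intro x
        rw [e2]
        simp only [D, hGu, Function.update_self]
        ring
      simp only [e3]
      rw [avg_mul_left]
      refine mul_le_mul_of_nonneg_left (k3 i _ (hGn i p)) (prod_nonneg fun j _ => ?_)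
      by_cases hj : j = i
      · simp [hj]
      · simp only [if_neg hj]; exact hw0 j _
    refine (avg_mono e1).trans ?_
    rw [avg_mul_right, avg_pi_prod]
    have e4 : ∏ j, avg ((if j = i then (fun _ => (1 : ℝ)) else w j) : Q → ℝ) = 1 := by
      refine prod_eq_one fun j _ => ?_
      by_cases hj : j = i
      · rw [if_pos hj]; exact avg_const 1
      · rw [if_neg hj]; exact hw1 j
    rw [e4, one_mul]
  -- conclusion
  have k8 : avg (fun p : Fin k → Q => (∏ j, w j (p j)) *
      |avg (fun q => ∏ i, T i (p i) q) - avg (fun q => ∏ i, ρ i q)|) ≤ 2 * k * ξ := by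
    have e1 : avg (fun p : Fin k → Q => (∏ j, w j (p j)) *
        |avg (fun q => ∏ i, T i (p i) q) - avg (fun q => ∏ i, ρ i q)|) ≤
        avg (fun p : Fin k → Q => ∑ i, (∏ j, w j (p j)) * |D i p|) := by
      refine avg_mono fun p => ?_
      rw [tel, ← mul_sum]
      exact mul_le_mul_of_nonneg_left (abs_sum_le_sum_abs _ _) (prod_nonneg fun j _ => hw0 j _)
    refine e1.trans ?_
    rw [avg_sum]
    refine (sum_le_sum fun i _ => k7 i).trans ?_
    rw [sum_const, card_univ, Fintype.card_fin, nsmul_eq_mul]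
    linarith
  have hkξ : 0 ≤ (k : ℝ) * ξ := by positivity
  rw [← avg_mul_right]
  refine (avg_mono fun p => ?_).trans (k8.trans (by linarith))
  have hw : 0 ≤ ∏ j, w j (p j) := prod_nonneg fun j _ => hw0 j _
  rw [mul_assoc]
  refine mul_le_mul_of_nonneg_left ?_ hw
  split_ifs with hz
  · rw [one_mul, abs_sub_comm]
    refine le_trans ?_ (le_abs_self _)
    linarith
  · rw [zero_mul]
    exact abs_nonneg _

end Fr

end Pool.Agent.SRL
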