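import Pool.Agent.SRL.FBasic
import Pool.Agent.Helper64.SRL.Tensor

/-! Rows F9a, F9b: averages of weight functions are Lipschitz in the moments; moments of rotated
row vectors. -/

set_option autoImplicit false

namespace Pool.Agent.SRL

open Finset
open Pool.Agent.Helper64.SRL (tact stab prod_vecMul)

namespace Fr

/-- averages of products of linear forms -/
theorem avg_lin {Q N : Type} [Fintype Q] [Fintype N] {m : ℕ} (u : Fin m → N → ℝ)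
    (h : Q → N → ℝ) :
    avg (fun p => ∏ t, ∑ o, u t o * h p o) =
      ∑ w : Fin m → N, (∏ t, u t (w t)) * avg (fun p => ∏ t, h p (w t)) := by
  have h1 : (fun p => ∏ t, ∑ o, u t o * h p o) =
      fun p => ∑ w : Fin m → N, (∏ t, u t (w t)) * ∏ t, h p (w t) := by
    funext p
    rw [prod_univ_sum]
    simp only [Fintype.piFinset_univ]
    exact sum_congr rfl fun w _ => prod_mul_distrib
  rw [h1, avg_sum]
  exact sum_congr rfl fun w _ => avg_mul_left _ _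

theorem lin_lip {Q Q' : Type} [Fintype Q] [Fintype Q'] {M m : ℕ}
    (u : Fin m → Fin 2 ⊕ Fin M → ℝ) (h : Q → Fin 2 ⊕ Fin M → ℝ)
    (h' : Q' → Fin 2 ⊕ Fin M → ℝ) (s : ℝ) (H : ∀ w, |mom m h w - mom m h' w| ≤ s) :
    |avg (fun p => ∏ t, ∑ o, u t o * h p o) - avg (fun p => ∏ t, ∑ o, u t o * h' p o)| ≤
      (∑ w : Fin m → Fin 2 ⊕ Fin M, |∏ t, u t (w t)|) * s := by
  rw [avg_lin, avg_lin, ← sum_sub_distrib, sum_mul]
  refine (abs_sum_le_sum_abs _ _).trans (sum_le_sum fun w _ => ?_)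
  rw [← mul_sub, abs_mul]
  exact mul_le_mul_of_nonneg_left (H w) (abs_nonneg _)

/-- the linear forms of a weight function, with two more forms in front -/
theorem ev_two {k M : ℕ} (W : Wt k M) (a b : Fin 2 ⊕ Fin M → ℝ) (x : Fin 2 ⊕ Fin M → ℝ) :
    W.ev x * ((∑ o, a o * x o) * ∑ o, b o * x o) =
      W.cst * ∏ t : Fin (k + 2), ∑ o, (Fin.cons a (Fin.cons b W.v) :
        Fin (k + 2) → Fin 2 ⊕ Fin M → ℝ) t o * x o := by
  rw [Fin.prod_univ_succ, Fin.prod_univ_succ]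
  simp only [Fin.cons_zero, Fin.cons_succ, Wt.ev]
  ring

theorem sum_single {M : ℕ} (o : Fin 2 ⊕ Fin M) (x : Fin 2 ⊕ Fin M → ℝ) :
    ∑ o', (if o' = o then (1 : ℝ) else 0) * x o' = x o := by
  simp [ite_mul]

theorem two_lip {k M : ℕ} (W : Wt k M) (a b : Fin 2 ⊕ Fin M → ℝ) : ∃ C : ℝ, 0 ≤ C ∧
    ∀ {Q Q' : Type} [Fintype Q] [Fintype Q'] (h : Q → Fin 2 ⊕ Fin M → ℝ)
      (h' : Q' → Fin 2 ⊕ Fin M → ℝ) (s : ℝ), (∀ w, |mom (k + 2) h w - mom (k + 2) h' w| ≤ s) →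
    |avg (fun p => W.ev (h p) * ((∑ o, a o * h p o) * ∑ o, b o * h p o)) -
      avg (fun p => W.ev (h' p) * ((∑ o, a o * h' p o) * ∑ o, b o * h' p o))| ≤ C * s := by
  refine ⟨|W.cst| * ∑ w : Fin (k + 2) → Fin 2 ⊕ Fin M,
    |∏ t, (Fin.cons a (Fin.cons b W.v) : Fin (k + 2) → Fin 2 ⊕ Fin M → ℝ) t (w t)|,
    mul_nonneg (abs_nonneg _) (sum_nonneg fun _ _ => abs_nonneg _), ?_⟩
  intro Q Q' _ _ h h' s H
  simp only [ev_two]
  rw [avg_mul_left, avg_mul_left, ← mul_sub, abs_mul, mul_assoc]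
  exact mul_le_mul_of_nonneg_left (lin_lip _ h h' s H) (abs_nonneg _)

/-- F9a: averages of weight functions are Lipschitz in the moments (`k0 = k + 2`). -/
theorem ev_lip {k : ℕ} (θ : Param k) : ∃ C : ℝ, 0 ≤ C ∧ ∀ {Q Q' : Type} [Fintype Q] [Fintype Q']
    (h : Q → Fin 2 ⊕ Fin θ.M → ℝ) (h' : Q' → Fin 2 ⊕ Fin θ.M → ℝ) (s : ℝ),
    (∀ p, h p (Sum.inl 0) = 1) → (∀ p, h' p (Sum.inl 0) = 1) →
    (∀ w, |mom (k + 2) h w - mom (k + 2) h' w| ≤ s) →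
    |avg (fun p => θ.W.ev (h p)) - avg (fun p => θ.W.ev (h' p))| ≤ C * s ∧
    |avg (fun p => θ.W.ev (h p) * h p (Sum.inl 1)) -
      avg (fun p => θ.W.ev (h' p) * h' p (Sum.inl 1))| ≤ C * s ∧
    |avg (fun p => θ.W.ev (h p) * ∑ i, (h p (Sum.inr i) - θ.c i) ^ 2) -
      avg (fun p => θ.W.ev (h' p) * ∑ i, (h' p (Sum.inr i) - θ.c i) ^ 2)| ≤ C * s := by
  classical
  let δ : Fin 2 ⊕ Fin θ.M → Fin 2 ⊕ Fin θ.M → ℝ := fun o o' => if o' = o then 1 else 0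
  let ε : Fin θ.M → Fin 2 ⊕ Fin θ.M → ℝ := fun i o' =>
    δ (Sum.inr i) o' - θ.c i * δ (Sum.inl 0) o'
  obtain ⟨C0, hC0, H0⟩ := two_lip θ.W (δ (Sum.inl 0)) (δ (Sum.inl 0))
  obtain ⟨C1, hC1, H1⟩ := two_lip θ.W (δ (Sum.inl 1)) (δ (Sum.inl 0))
  have H2 : ∀ i, ∃ C : ℝ, 0 ≤ C ∧
    ∀ {Q Q' : Type} [Fintype Q] [Fintype Q'] (h : Q → Fin 2 ⊕ Fin θ.M → ℝ)
      (h' : Q' → Fin 2 ⊕ Fin θ.M → ℝ) (s : ℝ), (∀ w, |mom (k + 2) h w - mom (k + 2) h' w| ≤ s) →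
    |avg (fun p => θ.W.ev (h p) * ((∑ o, ε i o * h p o) * ∑ o, ε i o * h p o)) -
      avg (fun p => θ.W.ev (h' p) * ((∑ o, ε i o * h' p o) * ∑ o, ε i o * h' p o))| ≤ C * s :=
    fun i => two_lip θ.W (ε i) (ε i)
  choose C2 hC2 H2 using H2
  have hS : 0 ≤ ∑ i, C2 i := sum_nonneg fun i _ => hC2 i
  refine ⟨C0 + C1 + ∑ i, C2 i, by positivity, ?_⟩
  intro Q Q' _ _ h h' s hh hh' H
  have hs : 0 ≤ s := (abs_nonneg _).trans (H fun _ => Sum.inl 0)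
  have hd : ∀ (o : Fin 2 ⊕ Fin θ.M) (x : Fin 2 ⊕ Fin θ.M → ℝ), ∑ o', δ o o' * x o' = x o :=
    fun o x => sum_single o x
  have he : ∀ (i : Fin θ.M) (x : Fin 2 ⊕ Fin θ.M → ℝ), x (Sum.inl 0) = 1 →
      ∑ o', ε i o' * x o' = x (Sum.inr i) - θ.c i := by
    intro i x hx
    have : ∑ o', ε i o' * x o' = ∑ o', δ (Sum.inr i) o' * x o' -
        θ.c i * ∑ o', δ (Sum.inl 0) o' * x o' := by
      rw [mul_sum, ← sum_sub_distrib]
      refine sum_congr rfl fun o _ => ?_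
      simp only [ε]
      ring
    rw [this, hd, hd, hx, mul_one]
  have e0 := H0 h h' s H
  have e1 := H1 h h' s H
  simp only [hd, hh, hh', mul_one] at e0 e1
  refine ⟨e0.trans ?_, e1.trans ?_, ?_⟩
  · nlinarith
  · nlinarith
  · have e2 : ∀ i, |avg (fun p => θ.W.ev (h p) * (h p (Sum.inr i) - θ.c i) ^ 2) -
        avg (fun p => θ.W.ev (h' p) * (h' p (Sum.inr i) - θ.c i) ^ 2)| ≤ C2 i * s := by
      intro i
      have := H2 i h h' s H
      simp only [he i _ (hh _), he i _ (hh' _)] at this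
      simpa only [pow_two] using this
    have f1 : ∀ {R : Type} [Fintype R] (g : R → Fin 2 ⊕ Fin θ.M → ℝ),
        avg (fun p => θ.W.ev (g p) * ∑ i, (g p (Sum.inr i) - θ.c i) ^ 2) =
        ∑ i, avg (fun p => θ.W.ev (g p) * (g p (Sum.inr i) - θ.c i) ^ 2) := by
      intro R _ g
      rw [← avg_sum]
      congr 1
      funext p
      rw [mul_sum]
    rw [f1, f1, ← sum_sub_distrib]
    refine (abs_sum_le_sum_abs _ _).trans ((sum_le_sum fun i _ => e2 i).trans ?_)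
    rw [← sum_mul]
    nlinarith

/-- F9b: moments of the rotated row vectors. -/
theorem mom_vecMul {Q : Type} [Fintype Q] {M k0 : ℕ} (h : Q → Fin 2 ⊕ Fin M → ℝ)
    (A : Matrix (Fin M) (Fin M) ℝ) :
    mom k0 (fun p => Matrix.vecMul (h p) (Pool.Agent.Helper64.SRL.blk 2 A)) =
      tact k0 (Pool.Agent.Helper64.SRL.blk 2 A) (mom k0 h) := by
  funext w
  simp only [mom, tact]
  have h1 : (fun p => ∏ t, Matrix.vecMul (h p) (Pool.Agent.Helper64.SRL.blk 2 A) (w t)) =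
      fun p => ∑ w' : Fin k0 → Fin 2 ⊕ Fin M,
        (∏ t, Pool.Agent.Helper64.SRL.blk 2 A (w' t) (w t)) * ∏ t, h p (w' t) := by
    funext p
    exact prod_vecMul _ _ _
  rw [h1, avg_sum]
  exact sum_congr rfl fun w' _ => avg_mul_left _ _

end Fr

end Pool.Agent.SRL
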