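import Pool.Agent.SRL.FBasic

/-!
Block F, row F2m: moments of close families, and moments of a transported frame.
-/

set_option autoImplicit false
set_option linter.unusedVariables false

namespace Pool.Agent.SRL

open Finset

namespace Fr

theorem abs_prod_le {ι : Type} (S : Finset ι) (a : ι → ℝ) (c : ℝ)
    (h : ∀ i, |a i| ≤ c) : |∏ i ∈ S, a i| ≤ c ^ S.card := by
  rw [abs_prod]
  calc ∏ i ∈ S, |a i| ≤ ∏ i ∈ S, c := prod_le_prod (fun i _ => abs_nonneg _) fun i _ => h i
    _ = c ^ S.card := by rw [prod_const]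

theorem abs_prod_sub_prod_le {ι : Type} (S : Finset ι) (a b : ι → ℝ) (c : ℝ) (hc : 1 ≤ c)
    (ha : ∀ i, |a i| ≤ c) (hb : ∀ i, |b i| ≤ c) :
    |∏ i ∈ S, a i - ∏ i ∈ S, b i| ≤ c ^ S.card * ∑ i ∈ S, |a i - b i| := by
  classical
  induction S using Finset.induction_on with
  | empty => simp
  | insert j S hj ih =>
    rw [prod_insert hj, prod_insert hj, sum_insert hj, card_insert_of_notMem hj, pow_succ]
    have h1 : a j * ∏ i ∈ S, a i - b j * ∏ i ∈ S, b i =
        (a j - b j) * ∏ i ∈ S, a i + b j * (∏ i ∈ S, a i - ∏ i ∈ S, b i) := by ring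
    rw [h1]
    have h2 : |(a j - b j) * ∏ i ∈ S, a i| ≤ |a j - b j| * c ^ S.card := by
      rw [abs_mul]
      exact mul_le_mul_of_nonneg_left (abs_prod_le S a c ha) (abs_nonneg _)
    have h3 : |b j * (∏ i ∈ S, a i - ∏ i ∈ S, b i)| ≤
        c * (c ^ S.card * ∑ i ∈ S, |a i - b i|) := by
      rw [abs_mul]
      exact mul_le_mul (hb j) ih (abs_nonneg _) (by linarith)
    have h4 : |a j - b j| * c ^ S.card ≤ c ^ S.card * c * |a j - b j| := by
      have h5 : (0 : ℝ) ≤ c ^ S.card := by positivity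
      have h6 : 0 ≤ |a j - b j| * c ^ S.card := mul_nonneg (abs_nonneg _) h5
      nlinarith
    calc _ ≤ |(a j - b j) * ∏ i ∈ S, a i| + |b j * (∏ i ∈ S, a i - ∏ i ∈ S, b i)| :=
          abs_add_le _ _
      _ ≤ c ^ S.card * c * |a j - b j| + c * (c ^ S.card * ∑ i ∈ S, |a i - b i|) := by
          linarith
      _ = _ := by ring

theorem avg_abs_le_nrm {Q : Type} [Fintype Q] (f : Q → ℝ) : avg (fun p => |f p|) ≤ nrm f := by
  have h1 := abs_avg_le_nrm (fun p => |f p|)
  have h2 : nrm (fun p => |f p|) = nrm f := by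
    simp only [nrm, ip, abs_mul_abs_self]
  rw [h2] at h1
  exact (le_abs_self _).trans h1

/-- moments of two families of bounded row vectors that are close in `L2` -/
theorem mom_close {M k0 : ℕ} {Q : Type} [Fintype Q] [Nonempty Q]
    (h h' : Q → Fin 2 ⊕ Fin M → ℝ) (c s : ℝ) (hc : 1 ≤ c) (hs : 0 ≤ s)
    (h1 : ∀ p o, |h p o| ≤ c) (h2 : ∀ p o, |h' p o| ≤ c)
    (h3 : ∀ o, nrm (fun p => h p o - h' p o) ≤ s) (w : Fin k0 → Fin 2 ⊕ Fin M) :
    |mom k0 h w - mom k0 h' w| ≤ k0 * c ^ k0 * s := by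
  unfold mom
  rw [← avg_sub]
  calc |avg (fun p => ∏ t, h p (w t) - ∏ t, h' p (w t))|
      ≤ avg (fun p => |∏ t, h p (w t) - ∏ t, h' p (w t)|) := abs_avg_le _
    _ ≤ avg (fun p => c ^ k0 * ∑ t : Fin k0, |h p (w t) - h' p (w t)|) := by
        refine avg_mono fun p => ?_
        have := abs_prod_sub_prod_le (univ : Finset (Fin k0)) (fun t => h p (w t))
          (fun t => h' p (w t)) c hc (fun t => h1 p _) (fun t => h2 p _)
        rwa [card_univ, Fintype.card_fin] at this
    _ = c ^ k0 * ∑ t : Fin k0, avg (fun p => |h p (w t) - h' p (w t)|) := by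
        rw [avg_mul_left, avg_sum]
    _ ≤ c ^ k0 * ∑ t : Fin k0, s := by
        refine mul_le_mul_of_nonneg_left (sum_le_sum fun t _ => ?_) (by positivity)
        exact (avg_abs_le_nrm (fun p => h p (w t) - h' p (w t))).trans (h3 (w t))
    _ = k0 * c ^ k0 * s := by
        rw [sum_const, card_univ, Fintype.card_fin, nsmul_eq_mul]
        ring

/-- The functions in the coordinates of the row vector. -/
noncomputable def rowf {M : ℕ} {Q : Type} (e : Fin M → Q → ℝ) : Fin 2 ⊕ Fin M → Q → ℝ :=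
  Sum.elim (fun _ => 1) e

/-- The row vector at a position, seen from the position `c`. -/
noncomputable def rowx {M : ℕ} {Q : Type} [Fintype Q] (T : Q → Q → ℝ) (e : Fin M → Q → ℝ)
    (p : Q) : Fin 2 ⊕ Fin M → ℝ :=
  Sum.elim ![1, op T 1 p] (fun i => op T (e i) p)

theorem rowx_eq {M : ℕ} {Q : Type} [Fintype Q] (T : Q → Q → ℝ) (e : Fin M → Q → ℝ)
    (p : Q) (o : Fin 2 ⊕ Fin M) :
    rowx T e p o = if o = Sum.inl 0 then 1 else avg (fun q => T p q * rowf e o q) := by
  rcases o with o | o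
  · fin_cases o
    · simp [rowx]
    · simp [rowx, rowf, op]
  · simp [rowx, rowf, op]

/-- expansion of the moments -/
theorem mom_rowx {M k0 : ℕ} {Q : Type} [Fintype Q] [Nonempty Q] (T : Q → Q → ℝ)
    (e : Fin M → Q → ℝ) (w : Fin k0 → Fin 2 ⊕ Fin M) :
    mom k0 (rowx T e) w = avg (fun q : Fin k0 → Q =>
      (∏ t ∈ univ.filter (fun t => w t ≠ Sum.inl 0), rowf e (w t) (q t)) *
      avg (fun p => ∏ t ∈ univ.filter (fun t => w t ≠ Sum.inl 0), T p (q t))) := by
  classical
  unfold mom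
  have h1 : ∀ p, ∏ t, rowx T e p (w t) =
      avg (fun q : Fin k0 → Q => ∏ t, if w t = Sum.inl 0 then (1 : ℝ) else
        T p (q t) * rowf e (w t) (q t)) := by
    intro p
    rw [avg_pi_prod (fun t q => if w t = Sum.inl 0 then (1 : ℝ) else T p q * rowf e (w t) q)]
    refine prod_congr rfl fun t _ => ?_
    rw [rowx_eq]
    by_cases h : w t = Sum.inl 0
    · rw [if_pos h]
      simp only [if_pos h]
      rw [avg_const]
    · rw [if_neg h]
      simp only [if_neg h]
  simp only [h1]
  rw [avg_comm]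
  congr 1
  funext q
  rw [← avg_mul_left]
  congr 1
  funext p
  rw [← prod_mul_distrib, prod_filter]
  refine prod_congr rfl fun t _ => ?_
  by_cases h : w t = Sum.inl 0
  · simp [h]
  · simp only [if_neg h]
    rw [if_pos h, mul_comm]

theorem nrm_one {Q : Type} [Fintype Q] [Nonempty Q] : nrm (1 : Q → ℝ) = 1 := by
  simp only [nrm, ip, Pi.one_apply, mul_one]
  rw [avg_const, Real.sqrt_one]

/-- norm of a product over a power -/
theorem avg_prod_sq_le {M k0 : ℕ} {Q : Type} [Fintype Q] [Nonempty Q] (e : Fin M → Q → ℝ)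
    (he : ∀ i, nrm (e i) ≤ 2) (w : Fin k0 → Fin 2 ⊕ Fin M) (S : Finset (Fin k0)) :
    avg (fun q : Fin k0 → Q => (∏ t ∈ S, rowf e (w t) (q t)) ^ 2) ≤ (2 ^ k0) ^ 2 := by
  classical
  have h1 : ∀ q : Fin k0 → Q, (∏ t ∈ S, rowf e (w t) (q t)) ^ 2 =
      ∏ t, if t ∈ S then rowf e (w t) (q t) ^ 2 else 1 := by
    intro q
    rw [← prod_pow, prod_ite_mem, univ_inter]
  simp only [h1]
  rw [avg_pi_prod (fun t q => if t ∈ S then rowf e (w t) q ^ 2 else 1)]
  have h2 : ∀ t : Fin k0, avg (fun q : Q => if t ∈ S then rowf e (w t) q ^ 2 else 1) ≤ 2 ^ 2 := by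
    intro t
    by_cases ht : t ∈ S
    · simp only [if_pos ht]
      have h3 : avg (fun q : Q => rowf e (w t) q ^ 2) = nrm (rowf e (w t)) ^ 2 := by
        rw [nrm_sq]
        simp only [ip, sq]
      rw [h3]
      apply pow_le_pow_left₀ (nrm_nonneg _)
      rcases w t with o | o
      · have : rowf e (Sum.inl o) = (1 : Q → ℝ) := rfl
        rw [this, nrm_one]
        norm_num
      · exact he o
    · simp only [if_neg ht]
      rw [avg_const]
      norm_num
  calc ∏ t : Fin k0, avg (fun q : Q => if t ∈ S then rowf e (w t) q ^ 2 else 1)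
      ≤ ∏ t : Fin k0, (2 : ℝ) ^ 2 := by
        refine prod_le_prod (fun t _ => avg_nonneg fun q => ?_) fun t _ => h2 t
        split_ifs
        · exact sq_nonneg _
        · norm_num
    _ = (2 ^ k0) ^ 2 := by
        rw [prod_const, card_univ, Fintype.card_fin, ← pow_mul, ← pow_mul, mul_comm]

theorem nrm_le_two {M : ℕ} {Q : Type} [Fintype Q] [Nonempty Q] {e : Fin M → Q → ℝ} {s : ℝ}
    (hs : s ≤ 1) (h : ∀ i j, |ip (e i) (e j) - if i = j then 1 else 0| ≤ s) (i : Fin M) :
    nrm (e i) ≤ 2 := by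
  have h1 := h i i
  rw [if_pos rfl] at h1
  have h2 := (abs_le.1 h1).2
  have h3 : nrm (e i) ^ 2 ≤ 2 ^ 2 := by
    rw [nrm_sq]
    linarith
  exact le_of_sq_le_sq h3
where
  le_of_sq_le_sq {x : ℝ} (h : x ^ 2 ≤ 2 ^ 2) : x ≤ 2 := by nlinarith

theorem transport_mom (M k0 : ℕ) {l0 g : ℝ} (hg : 0 < g) (hl0 : g < l0) :
    ∃ C s0 : ℝ, 1 ≤ C ∧ 0 < s0 ∧ ∀ {P Q : Type} [Fintype Q] [Nonempty Q]
      (T : P → P → Q → Q → ℝ) (s : ℝ), 0 ≤ s → s ≤ s0 → Win k0 s T →
      ∀ (l : Fin M → ℝ), (∀ i, l0 + g ≤ |l i| ∧ |l i| ≤ 1) →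
      ∀ (y : (Fin k0 → Fin 2 ⊕ Fin M) → ℝ) (b c : P) (e : Fin M → Q → ℝ),
      SFrame l0 g s l y (T c c) e →
      ∀ w, |mom k0 (row (T b b) l (fun i => (l i)⁻¹ • op (T b c) (e i))) w -
        mom k0 (row (T c c) l e) w| ≤ C * s := by
  classical
  refine ⟨(2 * k0 + 1) * 2 ^ k0, 1, ?_, one_pos, ?_⟩
  · have h1 : (1 : ℝ) ≤ 2 ^ k0 := one_le_pow₀ (by norm_num)
    have h2 : (0 : ℝ) ≤ k0 := Nat.cast_nonneg _
    nlinarith
  intro P Q _ _ T s hs hs1 hW l hl y b c e hF w
  have hen : ∀ i, nrm (e i) ≤ 2 := nrm_le_two hs1 hF.orth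
  have hl0' : ∀ i, l i ≠ 0 := by
    intro i h0
    have h1 := (hl i).1
    rw [h0, abs_zero] at h1
    linarith
  -- sup bounds
  have hop1 : ∀ x x' p, |op (T x x') 1 p| ≤ 2 := by
    intro x x' p
    have := abs_op_le (hW.nonneg x x') (hW.le_one x x') 1 p
    rw [nrm_one] at this
    linarith
  have hxsup : ∀ x p o, |rowx (T x c) e p o| ≤ 2 := by
    intro x p o
    rcases o with o | o
    · fin_cases o
      · show |(1 : ℝ)| ≤ 2
        rw [abs_one]; norm_num
      · exact hop1 x c p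
    · exact (abs_op_le (hW.nonneg x c) (hW.le_one x c) (e o) p).trans (hen o)
  -- the moments at `b`
  have hb : |mom k0 (row (T b b) l (fun i => (l i)⁻¹ • op (T b c) (e i))) w -
      mom k0 (rowx (T b c) e) w| ≤ k0 * 2 ^ k0 * s := by
    have hrow : ∀ p i, row (T b b) l (fun i => (l i)⁻¹ • op (T b c) (e i)) p (Sum.inr i) =
        op (T b c) (e i) p := by
      intro p i
      simp only [row, Sum.elim_inr, Pi.smul_apply, smul_eq_mul]
      rw [← mul_assoc, mul_inv_cancel₀ (hl0' i), one_mul]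
    refine mom_close _ _ 2 s (by norm_num) hs ?_ (hxsup b) ?_ w
    · intro p o
      rcases o with o | o
      · fin_cases o
        · show |(1 : ℝ)| ≤ 2
          rw [abs_one]; norm_num
        · exact hop1 b b p
      · rw [hrow]
        exact hxsup b p (Sum.inr o)
    · intro o
      rcases o with o | o
      · fin_cases o
        · have : (fun p : Q => row (T b b) l (fun i => (l i)⁻¹ • op (T b c) (e i)) p
              (Sum.inl ((fun i => i) ⟨0, by norm_num⟩)) - rowx (T b c) e p
              (Sum.inl ((fun i => i) ⟨0, by norm_num⟩))) = (0 : Q → ℝ) := by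
            funext p
            show (1 : ℝ) - 1 = 0
            norm_num
          rw [this, nrm_zero]
          exact hs
        · exact hW.deg b b c
      · have : (fun p : Q => row (T b b) l (fun i => (l i)⁻¹ • op (T b c) (e i)) p
            (Sum.inr o) - rowx (T b c) e p (Sum.inr o)) = (0 : Q → ℝ) := by
          funext p
          rw [hrow]
          show op (T b c) (e o) p - op (T b c) (e o) p = 0
          ring
        rw [this, nrm_zero]
        exact hs
  -- the moments at `c`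
  have hcc : |mom k0 (row (T c c) l e) w - mom k0 (rowx (T c c) e) w| ≤ k0 * 2 ^ k0 * s := by
    refine mom_close _ _ 2 s (by norm_num) hs ?_ (hxsup c) ?_ w
    · intro p o
      rcases o with o | o
      · fin_cases o
        · show |(1 : ℝ)| ≤ 2
          rw [abs_one]; norm_num
        · exact hop1 c c p
      · show |l o * e o p| ≤ 2
        have h1 := hF.sup p
        have h2 : (l o * e o p) ^ 2 ≤ ∑ i, (l i * e i p) ^ 2 :=
          single_le_sum (f := fun i => (l i * e i p) ^ 2) (fun i _ => sq_nonneg _) (mem_univ o)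
        apply abs_le_of_sq_le_sq _ (by norm_num)
        linarith
    · intro o
      rcases o with o | o
      · fin_cases o
        · have : (fun p : Q => row (T c c) l e p
              (Sum.inl ((fun i => i) ⟨0, by norm_num⟩)) - rowx (T c c) e p
              (Sum.inl ((fun i => i) ⟨0, by norm_num⟩))) = (0 : Q → ℝ) := by
            funext p
            show (1 : ℝ) - 1 = 0
            norm_num
          rw [this, nrm_zero]
          exact hs
        · have : (fun p : Q => row (T c c) l e p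
              (Sum.inl ((fun i => i) ⟨1, by norm_num⟩)) - rowx (T c c) e p
              (Sum.inl ((fun i => i) ⟨1, by norm_num⟩))) = (0 : Q → ℝ) := by
            funext p
            show op (T c c) 1 p - op (T c c) 1 p = 0
            ring
          rw [this, nrm_zero]
          exact hs
      · have : (fun p : Q => row (T c c) l e p (Sum.inr o) - rowx (T c c) e p (Sum.inr o)) =
            l o • e o - op (T c c) (e o) := by
          funext p
          rfl
        rw [this, nrm_sub_comm]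
        exact hF.eig o
  -- comparison of the two
  have hbc : |mom k0 (rowx (T b c) e) w - mom k0 (rowx (T c c) e) w| ≤ 2 ^ k0 * s := by
    rw [mom_rowx, mom_rowx, ← avg_sub]
    set S : Finset (Fin k0) := univ.filter (fun t => w t ≠ Sum.inl 0) with hS
    set u : (Fin k0 → Q) → ℝ := fun q => ∏ t ∈ S, rowf e (w t) (q t) with hu
    set v : (Fin k0 → Q) → ℝ := fun q => avg (fun p => ∏ t ∈ S, T b c p (q t)) -
      avg (fun p => ∏ t ∈ S, T c c p (q t)) with hv
    have h1 : (fun q : Fin k0 → Q => (∏ t ∈ S, rowf e (w t) (q t)) *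
        avg (fun p => ∏ t ∈ S, T b c p (q t)) - (∏ t ∈ S, rowf e (w t) (q t)) *
        avg (fun p => ∏ t ∈ S, T c c p (q t))) = fun q => u q * v q := by
      funext q
      simp only [hu, hv]
      ring
    rw [h1]
    have h2 : |ip u v| ≤ nrm u * nrm v := abs_ip_le u v
    have h3 : nrm u ≤ 2 ^ k0 := by
      rw [nrm, Real.sqrt_le_left (by positivity)]
      have h4 := avg_prod_sq_le e hen w S
      have h5 : ip u u = avg (fun q : Fin k0 → Q => (∏ t ∈ S, rowf e (w t) (q t)) ^ 2) := by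
        simp only [ip, hu, sq]
      rw [h5]
      exact h4
    have h6 : nrm v ≤ s := by
      rw [nrm, Real.sqrt_le_left hs]
      have h4 := hW.ten S b c c
      have h5 : ip v v = avg (fun q : Fin k0 → Q => (avg (fun p => ∏ i ∈ S, T b c p (q i)) -
          avg (fun p => ∏ i ∈ S, T c c p (q i))) ^ 2) := by
        simp only [ip, hv, sq]
      rw [h5]
      exact h4
    calc |avg (fun q => u q * v q)| ≤ nrm u * nrm v := h2
      _ ≤ 2 ^ k0 * s := mul_le_mul h3 h6 (nrm_nonneg _) (by positivity)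
  have h7 := abs_le.1 hb
  have h8 := abs_le.1 hcc
  have h9 := abs_le.1 hbc
  have h10 : (2 * (k0 : ℝ) + 1) * 2 ^ k0 * s = k0 * 2 ^ k0 * s + 2 ^ k0 * s + k0 * 2 ^ k0 * s := by
    ring
  rw [h10, abs_le]
  constructor <;> linarith [h7.1, h7.2, h8.1, h8.2, h9.1, h9.2]

end Fr

end Pool.Agent.SRL
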