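import Pool.Agent.SRL.FBasic

/-!
Block F of MP_971383: the triangle relation of transition matrices (row F3t), with the two
auxiliary estimates `Tri.trans_comm`, `Tri.trans_res`.
-/

set_option autoImplicit false
set_option linter.unusedSectionVars false

namespace Pool.Agent.SRL

open Finset

namespace Fr

namespace Tri

section

variable {P Q : Type} [Fintype Q] [Nonempty Q]

theorem nrm_comb {M : ℕ} (a : Fin M → ℝ) (v : Fin M → Q → ℝ) (α β : ℝ) (hα : 0 ≤ α)
    (ha : ∀ i, |a i| ≤ α) (hv : ∀ i, nrm (v i) ≤ β) :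
    nrm (∑ i, a i • v i) ≤ M * (α * β) := by
  refine (nrm_sum_le _ _).trans ?_
  have h : ∀ i ∈ (Finset.univ : Finset (Fin M)), nrm (a i • v i) ≤ α * β := by
    intro i _
    rw [nrm_smul]
    exact mul_le_mul (ha i) (hv i) (nrm_nonneg _) hα
  refine (Finset.sum_le_sum h).trans ?_
  simp

variable {M k0 : ℕ} {s : ℝ} {T : P → P → Q → Q → ℝ}

theorem opn (hW : Win k0 s T) (b c : P) (f : Q → ℝ) : nrm (op (T b c) f) ≤ nrm f := by
  have h := nrm_op_le (T b c) f
  have h2 : hs (T b c) * nrm f ≤ 1 * nrm f :=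
    mul_le_mul_of_nonneg_right (hs_le_one (hW.nonneg b c) (hW.le_one b c)) (nrm_nonneg _)
  linarith

theorem ipsym (hW : Win k0 s T) (b c : P) (f h : Q → ℝ) :
    ip f (op (T b c) h) = ip (op (T c b) f) h := by
  rw [ip_op]
  have : (fun p q => T b c q p) = T c b := by
    funext p q
    exact hW.symm b c q p
  rw [this]

theorem trid (hW : Win k0 s T) (b c c' d : P) (f : Q → ℝ) :
    nrm (op (T b c) (op (T c d) f) - op (T b c') (op (T c' d) f)) ≤ s * nrm f := by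
  rw [← op_comp, ← op_comp, ← op_sub_left]
  exact (nrm_op_le _ _).trans (mul_le_mul_of_nonneg_right (hW.tri b c c' d) (nrm_nonneg _))

variable {l0 g : ℝ} {l : Fin M → ℝ} {y : (Fin k0 → Fin 2 ⊕ Fin M) → ℝ}

theorem nrm_e {K : Q → Q → ℝ} {e : Fin M → Q → ℝ} (he : SFrame l0 g s l y K e) (hs1 : s ≤ 1)
    (i : Fin M) : nrm (e i) ≤ 2 := by
  have h := he.orth i i
  simp only [if_true] at h
  have h2 := (abs_le.mp h).2
  rw [← nrm_sq] at h2
  have h3 := nrm_nonneg (e i)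
  nlinarith

theorem inv_le (hg : 0 < g) (hl0 : g < l0) (hl : ∀ i, l0 + g ≤ |l i| ∧ |l i| ≤ 1) (i : Fin M) :
    |(l i)⁻¹| ≤ (l0 + g)⁻¹ := by
  rw [abs_inv]
  exact inv_anti₀ (by linarith) (hl i).1

theorem l_ne (hg : 0 < g) (hl0 : g < l0) (hl : ∀ i, l0 + g ≤ |l i| ∧ |l i| ≤ 1) (i : Fin M) :
    l i ≠ 0 := by
  intro h
  have := (hl i).1
  rw [h, abs_zero] at this
  linarith

/-- The transported vector. -/
noncomputable def tv (l : Fin M → ℝ) (K : Q → Q → ℝ) (e : Fin M → Q → ℝ) (j : Fin M) : Q → ℝ :=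
  (l j)⁻¹ • op K (e j)

theorem trans_eq (l : Fin M → ℝ) (K : Q → Q → ℝ) (f e : Fin M → Q → ℝ) (i j : Fin M) :
    trans l K f e i j = ip (f i) (tv l K e j) := rfl

theorem nrm_tv (hg : 0 < g) (hl0 : g < l0) (hl : ∀ i, l0 + g ≤ |l i| ∧ |l i| ≤ 1)
    (hW : Win k0 s T) (hs1 : s ≤ 1) {b c : P} {e : Fin M → Q → ℝ}
    (he : SFrame l0 g s l y (T c c) e) (j : Fin M) :
    nrm (tv l (T b c) e j) ≤ 2 * (l0 + g)⁻¹ := by
  unfold tv
  rw [nrm_smul, mul_comm 2]
  exact mul_le_mul (inv_le hg hl0 hl j) ((opn hW b c _).trans (nrm_e he hs1 j)) (nrm_nonneg _)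
    (inv_nonneg.mpr (by linarith))

theorem eig_tv (hg : 0 < g) (hl0 : g < l0) (hl : ∀ i, l0 + g ≤ |l i| ∧ |l i| ≤ 1)
    (hs0 : 0 ≤ s) (hW : Win k0 s T) (hs1 : s ≤ 1) {b c : P} {e : Fin M → Q → ℝ}
    (he : SFrame l0 g s l y (T c c) e) (j : Fin M) :
    nrm (op (T b b) (tv l (T b c) e j) - l j • tv l (T b c) e j) ≤ 3 * (l0 + g)⁻¹ * s := by
  have hne := l_ne hg hl0 hl j
  have h1 : op (T b b) (tv l (T b c) e j) - l j • tv l (T b c) e j =
      (l j)⁻¹ • ((op (T b b) (op (T b c) (e j)) - op (T b c) (op (T c c) (e j))) +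
        op (T b c) (op (T c c) (e j) - l j • e j)) := by
    unfold tv
    rw [op_smul, op_sub, op_smul]
    funext p
    simp only [Pi.sub_apply, Pi.add_apply, Pi.smul_apply, smul_eq_mul]
    field_simp
    ring
  rw [h1, nrm_smul]
  have h2 : nrm ((op (T b b) (op (T b c) (e j)) - op (T b c) (op (T c c) (e j))) +
        op (T b c) (op (T c c) (e j) - l j • e j)) ≤ 3 * s := by
    refine (nrm_add_le _ _).trans ?_
    have h3 := trid hW b b c c (e j)
    have h4 := (opn hW b c (op (T c c) (e j) - l j • e j)).trans (he.eig j)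
    have h5 : s * nrm (e j) ≤ s * 2 := mul_le_mul_of_nonneg_left (nrm_e he hs1 j) hs0
    linarith
  calc |(l j)⁻¹| * _ ≤ (l0 + g)⁻¹ * (3 * s) :=
        mul_le_mul (inv_le hg hl0 hl j) h2 (nrm_nonneg _) (inv_nonneg.mpr (by linarith))
    _ = 3 * (l0 + g)⁻¹ * s := by ring

theorem abs_trans_le (hg : 0 < g) (hl0 : g < l0) (hl : ∀ i, l0 + g ≤ |l i| ∧ |l i| ≤ 1)
    (hW : Win k0 s T) (hs1 : s ≤ 1) {b c : P} {f e : Fin M → Q → ℝ}
    (hf : SFrame l0 g s l y (T b b) f) (he : SFrame l0 g s l y (T c c) e) (i j : Fin M) :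
    |trans l (T b c) f e i j| ≤ 4 * (l0 + g)⁻¹ := by
  rw [trans_eq]
  refine (abs_ip_le _ _).trans ?_
  calc nrm (f i) * nrm (tv l (T b c) e j) ≤ 2 * (2 * (l0 + g)⁻¹) :=
        mul_le_mul (nrm_e hf hs1 i) (nrm_tv hg hl0 hl hW hs1 he j) (nrm_nonneg _) (by norm_num)
    _ = 4 * (l0 + g)⁻¹ := by ring

/-- The transition matrix almost commutes with the eigenvalues. -/
theorem trans_comm (hg : 0 < g) (hl0 : g < l0) (hl : ∀ i, l0 + g ≤ |l i| ∧ |l i| ≤ 1)
    (hs0 : 0 ≤ s) (hW : Win k0 s T) (hs1 : s ≤ 1) {b c : P} {f e : Fin M → Q → ℝ}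
    (hf : SFrame l0 g s l y (T b b) f) (he : SFrame l0 g s l y (T c c) e) (i j : Fin M) :
    |trans l (T b c) f e i j * (l i - l j)| ≤ 8 * (l0 + g)⁻¹ * s := by
  have h1 : trans l (T b c) f e i j * (l i - l j) =
      ip (f i) (op (T b b) (tv l (T b c) e j) - l j • tv l (T b c) e j) -
        ip (op (T b b) (f i) - l i • f i) (tv l (T b c) e j) := by
    rw [ip_sub_right, ip_sub_left, ipsym hW, ip_smul_right, ip_smul_left, trans_eq]
    ring
  rw [h1]
  have h2 := abs_ip_le (f i) (op (T b b) (tv l (T b c) e j) - l j • tv l (T b c) e j)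
  have h3 := abs_ip_le (op (T b b) (f i) - l i • f i) (tv l (T b c) e j)
  have h4 : nrm (f i) * nrm (op (T b b) (tv l (T b c) e j) - l j • tv l (T b c) e j) ≤
      2 * (3 * (l0 + g)⁻¹ * s) :=
    mul_le_mul (nrm_e hf hs1 i) (eig_tv hg hl0 hl hs0 hW hs1 he j) (nrm_nonneg _) (by norm_num)
  have h5 : nrm (op (T b b) (f i) - l i • f i) * nrm (tv l (T b c) e j) ≤
      s * (2 * (l0 + g)⁻¹) :=
    mul_le_mul (hf.eig i) (nrm_tv hg hl0 hl hW hs1 he j) (nrm_nonneg _) hs0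
  have h6 := abs_sub (ip (f i) (op (T b b) (tv l (T b c) e j) - l j • tv l (T b c) e j))
    (ip (op (T b b) (f i) - l i • f i) (tv l (T b c) e j))
  nlinarith

/-- The transported vector is almost in the span of the frame. -/
theorem trans_res (hg : 0 < g) (hl0 : g < l0) (hl : ∀ i, l0 + g ≤ |l i| ∧ |l i| ≤ 1)
    (hs0 : 0 ≤ s) (hW : Win k0 s T) (hs1 : s ≤ 1) (hsg : s ≤ g) {b c : P} {f e : Fin M → Q → ℝ}
    (hf : SFrame l0 g s l y (T b b) f) (he : SFrame l0 g s l y (T c c) e) (j : Fin M) :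
    nrm (tv l (T b c) e j - ∑ i, trans l (T b c) f e i j • f i) ≤
      (8 * M ^ 2 + 20 * M + 3) * (l0 + g)⁻¹ / g * s := by
  set L : ℝ := (l0 + g)⁻¹ with hL
  have hL0 : 0 < L := inv_pos.mpr (by linarith)
  set t : Q → ℝ := tv l (T b c) e j with ht
  set A : Fin M → ℝ := fun i => trans l (T b c) f e i j with hA
  have hAi : ∀ i, A i = ip (f i) t := fun i => rfl
  have hAb : ∀ i, |A i| ≤ 4 * L := fun i => abs_trans_le hg hl0 hl hW hs1 hf he i j
  have hAc : ∀ i, |A i * (l i - l j)| ≤ 8 * L * s :=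
    fun i => trans_comm hg hl0 hl hs0 hW hs1 hf he i j
  have hfn : ∀ i, nrm (f i) ≤ 2 := fun i => nrm_e hf hs1 i
  set r : Q → ℝ := t - ∑ i, A i • f i with hr
  have hM : (0 : ℝ) ≤ M := Nat.cast_nonneg M
  -- inner products with the frame
  have hir : ∀ i, |ip (f i) r| ≤ M * (4 * L * s) := by
    intro i
    have h1 : ip (f i) r = -∑ k, A k * (ip (f i) (f k) - if i = k then 1 else 0) := by
      rw [hr, ip_sub_right, ip_sum_right]
      simp only [ip_smul_right, mul_sub, Finset.sum_sub_distrib, mul_ite, mul_one, mul_zero,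
        Finset.sum_ite_eq, Finset.mem_univ, if_true]
      rw [hAi i]
      ring
    rw [h1, abs_neg]
    refine (Finset.abs_sum_le_sum_abs _ _).trans ?_
    have h2 : ∀ k ∈ (Finset.univ : Finset (Fin M)),
        |A k * (ip (f i) (f k) - if i = k then 1 else 0)| ≤ 4 * L * s := by
      intro k _
      rw [abs_mul]
      exact mul_le_mul (hAb k) (hf.orth i k) (abs_nonneg _) (by positivity)
    refine (Finset.sum_le_sum h2).trans ?_
    simp
  -- `T r` is almost `l j • r`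
  have h1 : op (T b b) r - l j • r = (op (T b b) t - l j • t) -
      (∑ i, A i • (op (T b b) (f i) - l i • f i)) - ∑ i, (A i * (l i - l j)) • f i := by
    have e1 : op (T b b) r = op (T b b) t - ∑ i, A i • op (T b b) (f i) := by
      rw [hr, op_sub, op_sum]
      simp only [op_smul]
    rw [e1, hr]
    funext p
    simp only [Pi.sub_apply, Pi.smul_apply, Finset.sum_apply, smul_eq_mul, mul_sub,
      Finset.mul_sum, Finset.sum_sub_distrib, sub_mul]
    have e2 : ∑ i, l j * (A i * f i p) = ∑ i, A i * l j * f i p :=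
      Finset.sum_congr rfl fun i _ => by ring
    have e3 : ∑ i, A i * (l i * f i p) = ∑ i, A i * l i * f i p :=
      Finset.sum_congr rfl fun i _ => by ring
    rw [e2, e3]
    ring
  have h2 : nrm (op (T b b) r - l j • r) ≤ (3 + 20 * M) * L * s := by
    rw [h1]
    refine (nrm_sub_le _ _).trans ?_
    have a1 := nrm_sub_le (op (T b b) t - l j • t) (∑ i, A i • (op (T b b) (f i) - l i • f i))
    have a2 : nrm (op (T b b) t - l j • t) ≤ 3 * L * s := eig_tv hg hl0 hl hs0 hW hs1 he j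
    have a3 : nrm (∑ i, A i • (op (T b b) (f i) - l i • f i)) ≤ M * (4 * L * s) :=
      nrm_comb A (fun i => op (T b b) (f i) - l i • f i) (4 * L) s (by positivity) hAb
        (fun i => hf.eig i)
    have a4 : nrm (∑ i, (A i * (l i - l j)) • f i) ≤ M * (8 * L * s * 2) :=
      nrm_comb (fun i => A i * (l i - l j)) f (8 * L * s) 2 (by positivity) hAc hfn
    nlinarith
  have h3 : nrm (∑ i, (l i * ip (f i) r) • f i) ≤ M * (M * (4 * L * s) * 2) := by
    refine nrm_comb (fun i => l i * ip (f i) r) f (M * (4 * L * s)) 2 (by positivity) ?_ hfn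
    intro i
    rw [abs_mul]
    calc |l i| * |ip (f i) r| ≤ 1 * (M * (4 * L * s)) :=
          mul_le_mul (hl i).2 (hir i) (abs_nonneg _) (by norm_num)
      _ = M * (4 * L * s) := one_mul _
  have h4 := hf.res r
  have h5 : nrm (op (T b b) r) ≤ (l0 - g + s) * nrm r + M * (M * (4 * L * s) * 2) := by
    have h6 : op (T b b) r = (op (T b b) r - ∑ i, (l i * ip (f i) r) • f i) +
        ∑ i, (l i * ip (f i) r) • f i := by abel
    rw [h6]
    refine (nrm_add_le _ _).trans ?_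
    linarith
  have h6 : |l j| * nrm r ≤ nrm (op (T b b) r) + (3 + 20 * M) * L * s := by
    rw [← nrm_smul]
    have h7 : l j • r = op (T b b) r - (op (T b b) r - l j • r) := by abel
    rw [h7]
    refine (nrm_sub_le _ _).trans ?_
    linarith
  have h7 : (l0 + g) * nrm r ≤ |l j| * nrm r :=
    mul_le_mul_of_nonneg_right (hl j).1 (nrm_nonneg _)
  have h8 : s * nrm r ≤ g * nrm r := mul_le_mul_of_nonneg_right hsg (nrm_nonneg _)
  have h9 : g * nrm r ≤ (8 * M ^ 2 + 20 * M + 3) * L * s := by nlinarith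
  have h10 : (8 * (M : ℝ) ^ 2 + 20 * M + 3) * L / g * s =
      ((8 * (M : ℝ) ^ 2 + 20 * M + 3) * L * s) / g := by ring
  rw [h10, le_div_iff₀ hg]
  linarith

end

end Tri

/-- the triangle relation -/
theorem trans_tri (M k0 : ℕ) {l0 g : ℝ} (hg : 0 < g) (hl0 : g < l0) :
    ∃ C s0 : ℝ, 1 ≤ C ∧ 0 < s0 ∧ ∀ {P Q : Type} [Fintype Q] [Nonempty Q]
      (T : P → P → Q → Q → ℝ) (s : ℝ), 0 ≤ s → s ≤ s0 → Win k0 s T →
      ∀ (l : Fin M → ℝ), (∀ i, l0 + g ≤ |l i| ∧ |l i| ≤ 1) →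
      ∀ (y : (Fin k0 → Fin 2 ⊕ Fin M) → ℝ) (b c d : P) (f e h : Fin M → Q → ℝ),
      SFrame l0 g s l y (T b b) f → SFrame l0 g s l y (T c c) e → SFrame l0 g s l y (T d d) h →
      ∀ i j, |(trans l (T b c) f e * trans l (T c d) e h - trans l (T b d) f h) i j| ≤ C * s := by
  set L : ℝ := (l0 + g)⁻¹ with hL
  have hL0 : 0 < L := inv_pos.mpr (by linarith)
  set C1 : ℝ := (8 * M ^ 2 + 20 * M + 3) * L / g with hC1
  have hC10 : 0 ≤ C1 := by positivity
  refine ⟨1 + (32 * M * L ^ 3 + 2 * L * C1 + 6 * L ^ 2), min 1 g, ?_, lt_min one_pos hg, ?_⟩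
  · have : 0 ≤ 32 * (M : ℝ) * L ^ 3 + 2 * L * C1 + 6 * L ^ 2 := by positivity
    linarith
  intro P Q _ _ T s hs0 hs hW l hl y b c d f e h hf he hh i k
  have hs1 : s ≤ 1 := hs.trans (min_le_left _ _)
  have hsg : s ≤ g := hs.trans (min_le_right _ _)
  set B : Fin M → ℝ := fun j => trans l (T c d) e h j k with hB
  have hBc : ∀ j, |B j * (l j - l k)| ≤ 8 * L * s :=
    fun j => Tri.trans_comm hg hl0 hl hs0 hW hs1 he hh j k
  have hBr : nrm (Tri.tv l (T c d) h k - ∑ j, B j • e j) ≤ C1 * s :=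
    Tri.trans_res hg hl0 hl hs0 hW hs1 hsg he hh k
  have hfn := Tri.nrm_e hf hs1 i
  have hlk := Tri.l_ne hg hl0 hl k
  -- the product
  have e1 : (trans l (T b c) f e * trans l (T c d) e h - trans l (T b d) f h) i k =
      ip (f i) (∑ j, (B j * ((l j)⁻¹ - (l k)⁻¹)) • op (T b c) (e j)) -
      (l k)⁻¹ * ip (f i) (op (T b c) (Tri.tv l (T c d) h k - ∑ j, B j • e j)) +
      (l k)⁻¹ * (l k)⁻¹ * ip (f i) (op (T b c) (op (T c d) (h k)) -
        op (T b d) (op (T d d) (h k))) +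
      (l k)⁻¹ * (l k)⁻¹ * ip (f i) (op (T b d) (op (T d d) (h k) - l k • h k)) := by
    rw [Matrix.sub_apply, Matrix.mul_apply, ip_sum_right, op_sub, op_sum, ip_sub_right,
      ip_sub_right, ip_sum_right, op_sub, ip_sub_right, op_smul, ip_smul_right, Tri.trans_eq]
    have e2 : ∀ j, trans l (T b c) f e i j * trans l (T c d) e h j k =
        (l j)⁻¹ * B j * ip (f i) (op (T b c) (e j)) := by
      intro j
      rw [Tri.trans_eq, Tri.tv, ip_smul_right]
      ring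
    simp only [e2, op_smul, ip_smul_right, Tri.tv]
    have e3 : ∑ j, B j * ((l j)⁻¹ - (l k)⁻¹) * ip (f i) (op (T b c) (e j)) =
        ∑ j, (l j)⁻¹ * B j * ip (f i) (op (T b c) (e j)) -
        (l k)⁻¹ * ∑ j, B j * ip (f i) (op (T b c) (e j)) := by
      rw [Finset.mul_sum, ← Finset.sum_sub_distrib]
      exact Finset.sum_congr rfl fun j _ => by ring
    rw [e3]
    field_simp
    ring
  rw [e1]
  have hk := Tri.inv_le hg hl0 hl k
  have b1 : |ip (f i) (∑ j, (B j * ((l j)⁻¹ - (l k)⁻¹)) • op (T b c) (e j))| ≤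
      2 * (M * (8 * L ^ 3 * s * 2)) := by
    refine (abs_ip_le _ _).trans (mul_le_mul hfn ?_ (nrm_nonneg _) (by norm_num))
    refine Tri.nrm_comb (fun j => B j * ((l j)⁻¹ - (l k)⁻¹)) (fun j => op (T b c) (e j))
      (8 * L ^ 3 * s) 2 (by positivity) ?_ (fun j => (Tri.opn hW b c _).trans (Tri.nrm_e he hs1 j))
    intro j
    have hlj := Tri.l_ne hg hl0 hl j
    have c1 : B j * ((l j)⁻¹ - (l k)⁻¹) = -((B j * (l j - l k)) * ((l j)⁻¹ * (l k)⁻¹)) := by
      field_simp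
      ring
    rw [c1, abs_neg, abs_mul, abs_mul (l j)⁻¹]
    calc |B j * (l j - l k)| * (|(l j)⁻¹| * |(l k)⁻¹|) ≤ (8 * L * s) * (L * L) :=
          mul_le_mul (hBc j) (mul_le_mul (Tri.inv_le hg hl0 hl j) hk (abs_nonneg _) hL0.le)
            (mul_nonneg (abs_nonneg _) (abs_nonneg _)) (by positivity)
      _ = 8 * L ^ 3 * s := by ring
  have b2 : |(l k)⁻¹ * ip (f i) (op (T b c) (Tri.tv l (T c d) h k - ∑ j, B j • e j))| ≤
      L * (2 * (C1 * s)) := by
    rw [abs_mul]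
    refine mul_le_mul hk ?_ (abs_nonneg _) hL0.le
    refine (abs_ip_le _ _).trans (mul_le_mul hfn ?_ (nrm_nonneg _) (by norm_num))
    exact (Tri.opn hW b c _).trans hBr
  have b3 : |(l k)⁻¹ * (l k)⁻¹ * ip (f i) (op (T b c) (op (T c d) (h k)) -
        op (T b d) (op (T d d) (h k)))| ≤ L * L * (2 * (s * 2)) := by
    rw [abs_mul, abs_mul]
    refine mul_le_mul (mul_le_mul hk hk (abs_nonneg _) hL0.le) ?_ (abs_nonneg _) (by positivity)
    refine (abs_ip_le _ _).trans (mul_le_mul hfn ?_ (nrm_nonneg _) (by norm_num))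
    exact (Tri.trid hW b c d d (h k)).trans
      (mul_le_mul_of_nonneg_left (Tri.nrm_e hh hs1 k) hs0)
  have b4 : |(l k)⁻¹ * (l k)⁻¹ * ip (f i) (op (T b d) (op (T d d) (h k) - l k • h k))| ≤
      L * L * (2 * s) := by
    rw [abs_mul, abs_mul]
    refine mul_le_mul (mul_le_mul hk hk (abs_nonneg _) hL0.le) ?_ (abs_nonneg _) (by positivity)
    refine (abs_ip_le _ _).trans (mul_le_mul hfn ?_ (nrm_nonneg _) (by norm_num))
    exact (Tri.opn hW b d _).trans (hh.eig k)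
  rw [abs_le] at b1 b2 b3 b4 ⊢
  have hfin : (1 + (32 * M * L ^ 3 + 2 * L * C1 + 6 * L ^ 2)) * s =
      s + (2 * (M * (8 * L ^ 3 * s * 2)) + L * (2 * (C1 * s)) + L * L * (2 * (s * 2)) +
        L * L * (2 * s)) := by ring
  rw [hfin]
  constructor
  · linarith [b1.1, b2.2, b3.1, b4.1]
  · linarith [b1.2, b2.1, b3.2, b4.2]

end Fr

end Pool.Agent.SRL
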