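import Pool.Agent.SRL.FTrans
import Pool.Agent.SRL.FTri
import Pool.Agent.SRL.FCell
import Pool.Agent.SRL.FEv
import Pool.Agent.SRL.FDefs2

/-!
Block F: the output of the frames, given good windows with soft frames (row F10d).
-/

set_option autoImplicit false

namespace Pool.Agent.SRL

open Finset
open Pool.Agent.Helper64.SRL (tact blk stab fdist flen flen_one flen_inv flen_mul flen_conj
  flen_mul_inv flen_inv_mul stab_near mem_stab)

namespace Fr

/-! ### Frobenius norm -/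

/-- Frobenius norm. -/
noncomputable def fro {M : ℕ} (A : Matrix (Fin M) (Fin M) ℝ) : ℝ :=
  Real.sqrt (∑ i, ∑ j, A i j ^ 2)

theorem fro_nonneg {M : ℕ} (A : Matrix (Fin M) (Fin M) ℝ) : 0 ≤ fro A := Real.sqrt_nonneg _

theorem fro_sq {M : ℕ} (A : Matrix (Fin M) (Fin M) ℝ) : fro A ^ 2 = ∑ i, ∑ j, A i j ^ 2 :=
  Real.sq_sqrt (sum_nonneg fun _ _ => sum_nonneg fun _ _ => sq_nonneg _)

theorem fro_le_of_sq {M : ℕ} {A : Matrix (Fin M) (Fin M) ℝ} {c : ℝ} (hc : 0 ≤ c)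
    (h : ∑ i, ∑ j, A i j ^ 2 ≤ c ^ 2) : fro A ≤ c := Real.sqrt_le_iff.2 ⟨hc, h⟩

theorem fro_add_le {M : ℕ} (A B : Matrix (Fin M) (Fin M) ℝ) : fro (A + B) ≤ fro A + fro B := by
  have := norm_add_le (WithLp.toLp 2 (fun p : Fin M × Fin M => A p.1 p.2) :
    EuclideanSpace ℝ (Fin M × Fin M)) (WithLp.toLp 2 (fun p : Fin M × Fin M => B p.1 p.2))
  rw [EuclideanSpace.norm_eq, EuclideanSpace.norm_eq, EuclideanSpace.norm_eq] at this
  simpa [fro, Fintype.sum_prod_type] using this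

theorem fro_neg {M : ℕ} (A : Matrix (Fin M) (Fin M) ℝ) : fro (-A) = fro A := by
  simp [fro]

theorem fro_sub_comm {M : ℕ} (A B : Matrix (Fin M) (Fin M) ℝ) : fro (A - B) = fro (B - A) := by
  rw [← fro_neg, neg_sub]

theorem fro_mul_le {M : ℕ} (A B : Matrix (Fin M) (Fin M) ℝ) : fro (A * B) ≤ fro A * fro B := by
  refine fro_le_of_sq (mul_nonneg (fro_nonneg _) (fro_nonneg _)) ?_
  rw [mul_pow, fro_sq, fro_sq]
  calc ∑ i, ∑ j, (A * B) i j ^ 2 ≤ ∑ i, ∑ j, (∑ l, A i l ^ 2) * (∑ l, B l j ^ 2) := by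
        refine sum_le_sum fun i _ => sum_le_sum fun j _ => ?_
        rw [Matrix.mul_apply]
        exact sum_mul_sq_le_sq_mul_sq _ _ _
    _ = (∑ i, ∑ l, A i l ^ 2) * ∑ l, ∑ j, B l j ^ 2 := by
        rw [sum_comm (f := fun l j => B l j ^ 2), sum_mul]
        exact sum_congr rfl fun i _ => by rw [mul_sum]

theorem fro_mul_right {M : ℕ} (A g : Matrix (Fin M) (Fin M) ℝ) (hg : g * g.transpose = 1) :
    fro (A * g) = fro A := by
  have h := Pool.Agent.Helper64.SRL.sum_sq_mul_right A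
    ⟨g, (Matrix.mem_orthogonalGroup_iff (Fin M) ℝ).2 hg⟩
  unfold fro
  exact congrArg Real.sqrt h

theorem fro_mul_left {M : ℕ} (A g : Matrix (Fin M) (Fin M) ℝ) (hg : g.transpose * g = 1) :
    fro (g * A) = fro A := by
  have h := Pool.Agent.Helper64.SRL.sum_sq_mul_left A
    ⟨g, (Matrix.mem_orthogonalGroup_iff' (Fin M) ℝ).2 hg⟩
  unfold fro
  exact congrArg Real.sqrt h

theorem fdist_eq_fro {M : ℕ} (g h : Matrix.orthogonalGroup (Fin M) ℝ) :
    fdist g h = fro ((g : Matrix (Fin M) (Fin M) ℝ) - (h : Matrix (Fin M) (Fin M) ℝ)) := rfl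

/-- The rounded triangle relation. -/
theorem round_tri {M : ℕ} (A1 A2 A3 U1 U2 U3 : Matrix (Fin M) (Fin M) ℝ) {η : ℝ} (hη : 0 ≤ η)
    (hη1 : η ≤ 1) (h1 : fro (A1 - U1) ≤ η) (h2 : fro (A2 - U2) ≤ η) (h3 : fro (A3 - U3) ≤ η)
    (h : fro (A1 * A2 - A3) ≤ η) (o1 : U1.transpose * U1 = 1) (o2 : U2 * U2.transpose = 1) :
    fro (U1 * U2 - U3) ≤ 5 * η := by
  have e : U1 * U2 - U3 = -((A1 - U1) * U2) + (-(U1 * (A2 - U2)) + (-((A1 - U1) * (A2 - U2)) +
      ((A1 * A2 - A3) + (A3 - U3)))) := by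
    noncomm_ring
  rw [e]
  have a1 := fro_add_le (-((A1 - U1) * U2)) (-(U1 * (A2 - U2)) + (-((A1 - U1) * (A2 - U2)) +
      ((A1 * A2 - A3) + (A3 - U3))))
  have a2 := fro_add_le (-(U1 * (A2 - U2))) (-((A1 - U1) * (A2 - U2)) +
      ((A1 * A2 - A3) + (A3 - U3)))
  have a3 := fro_add_le (-((A1 - U1) * (A2 - U2))) ((A1 * A2 - A3) + (A3 - U3))
  have a4 := fro_add_le (A1 * A2 - A3) (A3 - U3)
  rw [fro_neg, fro_mul_right _ _ o2] at a1
  rw [fro_neg, fro_mul_left _ _ o1] at a2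
  rw [fro_neg] at a3
  have a5 := fro_mul_le (A1 - U1) (A2 - U2)
  have a6 : fro (A1 - U1) * fro (A2 - U2) ≤ η * 1 :=
    mul_le_mul h1 (h2.trans hη1) (fro_nonneg _) hη
  linarith

/-! ### rotated rows -/

theorem vecMul_blk_inl {M : ℕ} (x : Fin 2 ⊕ Fin M → ℝ) (A : Matrix (Fin M) (Fin M) ℝ)
    (i : Fin 2) : Matrix.vecMul x (blk 2 A) (Sum.inl i) = x (Sum.inl i) := by
  simp [Matrix.vecMul, dotProduct, blk, Matrix.one_apply]

theorem vecMul_blk_inr {M : ℕ} (x : Fin 2 ⊕ Fin M → ℝ) (A : Matrix (Fin M) (Fin M) ℝ)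
    (j : Fin M) : Matrix.vecMul x (blk 2 A) (Sum.inr j) = ∑ i, x (Sum.inr i) * A i j := by
  simp [Matrix.vecMul, dotProduct, blk]

theorem sum_sq_vecMul {M : ℕ} (x : Fin 2 ⊕ Fin M → ℝ) (A : Matrix (Fin M) (Fin M) ℝ)
    (hA : A * A.transpose = 1) :
    ∑ j, Matrix.vecMul x (blk 2 A) (Sum.inr j) ^ 2 = ∑ i, x (Sum.inr i) ^ 2 := by
  have h1 : ∀ j, Matrix.vecMul x (blk 2 A) (Sum.inr j) =
      Matrix.vecMul (fun i => x (Sum.inr i)) A j := by
    intro j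
    rw [vecMul_blk_inr]
    rfl
  simp only [h1]
  have h2 : ∑ j, Matrix.vecMul (fun i => x (Sum.inr i)) A j ^ 2 =
      dotProduct (Matrix.vecMul (fun i => x (Sum.inr i)) A)
        (Matrix.vecMul (fun i => x (Sum.inr i)) A) := by
    simp only [dotProduct, sq]
  have h3 : dotProduct (Matrix.vecMul (fun i => x (Sum.inr i)) A)
      (Matrix.vecMul (fun i => x (Sum.inr i)) A) =
      dotProduct (fun i => x (Sum.inr i)) (fun i => x (Sum.inr i)) := by
    rw [← Matrix.dotProduct_mulVec, ← Matrix.vecMul_transpose, Matrix.vecMul_vecMul, hA,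
      Matrix.vecMul_one]
  rw [h2, h3]
  simp only [dotProduct, sq]

theorem abs_blk_le {M : ℕ} (A : Matrix (Fin M) (Fin M) ℝ) (hA : A.transpose * A = 1)
    (o o' : Fin 2 ⊕ Fin M) : |blk 2 A o o'| ≤ 1 := by
  have h1 : ∀ i j, |A i j| ≤ 1 := by
    intro i j
    have h2 : (A.transpose * A) j j = 1 := by rw [hA, Matrix.one_apply_eq]
    rw [Matrix.mul_apply] at h2
    simp only [Matrix.transpose_apply] at h2
    have h3 : A i j * A i j ≤ ∑ l, A l j * A l j :=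
      single_le_sum (f := fun l => A l j * A l j) (fun l _ => mul_self_nonneg _) (mem_univ i)
    rw [h2] at h3
    have h4 : A i j ^ 2 ≤ 1 ^ 2 := by rw [one_pow, sq]; exact h3
    exact abs_le_of_sq_le_sq h4 zero_le_one
  rcases o with i | i <;> rcases o' with j | j
  · simp only [blk, Matrix.fromBlocks_apply₁₁, Matrix.one_apply]
    split_ifs <;> simp
  · simp [blk]
  · simp [blk]
  · simp only [blk, Matrix.fromBlocks_apply₂₂]
    exact h1 i j

theorem tact_close {M k0 : ℕ} (A : Matrix (Fin M) (Fin M) ℝ) (hA : A.transpose * A = 1)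
    (y z : (Fin k0 → Fin 2 ⊕ Fin M) → ℝ) {t : ℝ} (h : ∀ w, |y w - z w| ≤ t)
    (w : Fin k0 → Fin 2 ⊕ Fin M) :
    |tact k0 (blk 2 A) y w - tact k0 (blk 2 A) z w| ≤
      Fintype.card (Fin k0 → Fin 2 ⊕ Fin M) * t := by
  unfold tact
  rw [← sum_sub_distrib]
  refine (abs_sum_le_sum_abs _ _).trans ?_
  have h1 : ∀ v ∈ (univ : Finset (Fin k0 → Fin 2 ⊕ Fin M)),
      |(∏ i, blk 2 A (v i) (w i)) * y v - (∏ i, blk 2 A (v i) (w i)) * z v| ≤ t := by
    intro v _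
    rw [← mul_sub, abs_mul, abs_prod]
    have h2 : ∏ i, |blk 2 A (v i) (w i)| ≤ 1 :=
      prod_le_one (fun _ _ => abs_nonneg _) fun i _ => abs_blk_le A hA _ _
    calc (∏ i, |blk 2 A (v i) (w i)|) * |y v - z v| ≤ 1 * |y v - z v| :=
          mul_le_mul_of_nonneg_right h2 (abs_nonneg _)
      _ ≤ t := by rw [one_mul]; exact h v
  refine (sum_le_sum h1).trans ?_
  rw [sum_const, card_univ, nsmul_eq_mul]

/-! ### charts -/

section charts

variable {B L X : Type} {J K : ℕ}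

open Classical in
/-- A frame at every state that has one. -/
noncomputable def chart (S : CS (Fin J ⊕ B) L X) (R : X × Fin K → X × Fin K → ℝ) {M k0 : ℕ}
    (l0 g s : ℝ) (l : Fin M → ℝ) (y : (Fin k0 → Fin 2 ⊕ Fin M) → ℝ) (ω : St (Fin J) L X) :
    Fin M → Finset (Fin J) × Fin K → ℝ :=
  if h : ω ∈ HasF S R l0 g s l y then h.choose else fun _ _ => 0

theorem chart_spec (S : CS (Fin J ⊕ B) L X) (R : X × Fin K → X × Fin K → ℝ) {M k0 : ℕ}
    (l0 g s : ℝ) (l : Fin M → ℝ) (y : (Fin k0 → Fin 2 ⊕ Fin M) → ℝ) {ω : St (Fin J) L X}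
    (h : ω ∈ HasF S R l0 g s l y) :
    SFrame l0 g s l y (kern S R ω ω) (chart S R l0 g s l y ω) := by
  unfold chart
  rw [dif_pos h]
  exact h.choose_spec

open Classical in
/-- Rounding of a matrix to a subgroup of the orthogonal group. -/
noncomputable def rnd {M : ℕ} (H : Subgroup (Matrix.orthogonalGroup (Fin M) ℝ)) (η : ℝ)
    (A : Matrix (Fin M) (Fin M) ℝ) : H :=
  if h : ∃ g : H, fro (A - ((g : Matrix.orthogonalGroup (Fin M) ℝ) :
    Matrix (Fin M) (Fin M) ℝ)) ≤ η then h.choose else 1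

theorem rnd_spec {M : ℕ} (H : Subgroup (Matrix.orthogonalGroup (Fin M) ℝ)) (η : ℝ)
    (A : Matrix (Fin M) (Fin M) ℝ) (h : ∃ g : H, fro (A - ((g : Matrix.orthogonalGroup (Fin M) ℝ) :
      Matrix (Fin M) (Fin M) ℝ)) ≤ η) :
    fro (A - ((rnd H η A : Matrix.orthogonalGroup (Fin M) ℝ) : Matrix (Fin M) (Fin M) ℝ)) ≤ η := by
  unfold rnd
  rw [dif_pos h]
  exact h.choose_spec

end charts

theorem orth_left {M : ℕ} (g : Matrix.orthogonalGroup (Fin M) ℝ) :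
    (g : Matrix (Fin M) (Fin M) ℝ).transpose * (g : Matrix (Fin M) (Fin M) ℝ) = 1 :=
  (Matrix.mem_orthogonalGroup_iff' (Fin M) ℝ).1 g.2

theorem orth_right {M : ℕ} (g : Matrix.orthogonalGroup (Fin M) ℝ) :
    (g : Matrix (Fin M) (Fin M) ℝ) * (g : Matrix (Fin M) (Fin M) ℝ).transpose = 1 :=
  (Matrix.mem_orthogonalGroup_iff (Fin M) ℝ).1 g.2

/-- The weight of the cell in the rotated frame. -/
noncomputable def phi {Q : Type} [Fintype Q] {k : ℕ} (θ : Param k) (T : Q → Q → ℝ)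
    (l : Fin θ.M → ℝ) (e : Fin θ.M → Q → ℝ) (γ : Matrix (Fin θ.M) (Fin θ.M) ℝ) (p : Q) : ℝ :=
  θ.W.ev (Matrix.vecMul (row T l e p) (blk 2 γ))

/-- The cell of the reference state is transferred to every soft frame. -/
theorem cell_transfer {k : ℕ} (θ : Param k) (z : ℝ) (hz : 0 < z) (hz1 : z ≤ 1) (hθ : θ.Ok z) :
    ∃ δ : ℝ, 0 < δ ∧ ∀ {Q Q0 : Type} [Fintype Q] [Fintype Q0] (T : Q → Q → ℝ)
      (l : Fin θ.M → ℝ) (e : Fin θ.M → Q → ℝ) (y m : (Fin (k + 2) → Fin 2 ⊕ Fin θ.M) → ℝ)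
      (γ : Matrix (Fin θ.M) (Fin θ.M) ℝ), γ.transpose * γ = 1 →
      tact (k + 2) (blk 2 γ) m = m →
      (∀ w, |mom (k + 2) (row T l e) w - y w| ≤ δ) → (∀ w, |m w - y w| ≤ δ) →
      ∀ (h0 : Q0 → Fin 2 ⊕ Fin θ.M → ℝ), (∀ p, h0 p (Sum.inl 0) = 1) → mom (k + 2) h0 = y →
      θ.β ≤ avg (fun p => θ.W.ev (h0 p)) →
      avg (fun p => θ.W.ev (h0 p) * ∑ i, (h0 p (Sum.inr i) - θ.c i) ^ 2) ≤
        z * avg (fun p => θ.W.ev (h0 p)) →
      θ.β / 2 ≤ avg (phi θ T l e γ) ∧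
      avg (fun p => phi θ T l e γ p *
        ∑ j, (Matrix.vecMul (row T l e p) (blk 2 γ) (Sum.inr j) - θ.c j) ^ 2) ≤
        2 * z * avg (phi θ T l e γ) ∧
      |avg (phi θ T l e γ) - avg (fun p => θ.W.ev (h0 p))| ≤ z * θ.β / 8 ∧
      |avg (fun p => phi θ T l e γ p * op T 1 p) -
        avg (fun p => θ.W.ev (h0 p) * h0 p (Sum.inl 1))| ≤ z * θ.β / 8 := by
  obtain ⟨C, hC, H⟩ := ev_lip θ
  have hβ := hθ.β_pos
  set Ct : ℝ := ((Fintype.card (Fin (k + 2) → Fin 2 ⊕ Fin θ.M) : ℕ) : ℝ) with hCt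
  have hCt0 : 0 ≤ Ct := by positivity
  refine ⟨z * θ.β / (8 * ((C + 1) * (2 * Ct + 2))), by positivity, ?_⟩
  intro Q Q0 _ _ T l e y m γ hγ hm h1 h2 h0 h00 hy hc1 hc2
  set δ : ℝ := z * θ.β / (8 * ((C + 1) * (2 * Ct + 2))) with hδ
  have hδ0 : 0 < δ := by positivity
  have hrow0 : ∀ p, Matrix.vecMul (row T l e p) (blk 2 γ) (Sum.inl 0) = 1 := by
    intro p
    rw [vecMul_blk_inl]
    simp [row]
  have hmom : ∀ w, |mom (k + 2) (fun p => Matrix.vecMul (row T l e p) (blk 2 γ)) w -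
      mom (k + 2) h0 w| ≤ Ct * (2 * δ) + 2 * δ := by
    intro w
    rw [mom_vecMul, hy]
    have h3 : ∀ w, |mom (k + 2) (row T l e) w - m w| ≤ 2 * δ := by
      intro w
      have := abs_sub_le (mom (k + 2) (row T l e) w) (y w) (m w)
      have h4 := h1 w
      have h5 := h2 w
      rw [abs_sub_comm] at h5
      linarith
    have h6 := tact_close γ hγ _ _ h3 w
    rw [hm] at h6
    have h7 := abs_sub_le (tact (k + 2) (blk 2 γ) (mom (k + 2) (row T l e)) w) (m w) (y w)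
    have h8 := h2 w
    linarith
  obtain ⟨a1, a2, a3⟩ := H (fun p => Matrix.vecMul (row T l e p) (blk 2 γ)) h0
    (Ct * (2 * δ) + 2 * δ) hrow0 h00 hmom
  have hT : C * (Ct * (2 * δ) + 2 * δ) ≤ z * θ.β / 8 := by
    have e1 : Ct * (2 * δ) + 2 * δ = (2 * Ct + 2) * δ := by ring
    rw [e1, hδ]
    have h9 : C * ((2 * Ct + 2) * (z * θ.β / (8 * ((C + 1) * (2 * Ct + 2))))) =
        C / (C + 1) * (z * θ.β / 8) := by
      field_simp
    rw [h9]
    have h10 : C / (C + 1) ≤ 1 := by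
      rw [div_le_one (by linarith)]
      linarith
    calc C / (C + 1) * (z * θ.β / 8) ≤ 1 * (z * θ.β / 8) :=
          mul_le_mul_of_nonneg_right h10 (by positivity)
      _ = z * θ.β / 8 := one_mul _
  have b1 := (abs_le.1 (a1.trans hT)).1
  have b1' := (abs_le.1 (a1.trans hT)).2
  have b3 := (abs_le.1 (a3.trans hT)).2
  have hzβ : z * θ.β ≤ θ.β := by nlinarith
  have c1 : θ.β / 2 ≤ avg (phi θ T l e γ) := by
    have : avg (phi θ T l e γ) = avg (fun p => θ.W.ev (Matrix.vecMul (row T l e p) (blk 2 γ))) :=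
      rfl
    rw [this]
    linarith
  refine ⟨c1, ?_, a1.trans hT, ?_⟩
  · have e2 : avg (phi θ T l e γ) = avg (fun p => θ.W.ev (Matrix.vecMul (row T l e p) (blk 2 γ))) :=
      rfl
    have e3 : avg (fun p => phi θ T l e γ p *
        ∑ j, (Matrix.vecMul (row T l e p) (blk 2 γ) (Sum.inr j) - θ.c j) ^ 2) =
      avg (fun p => θ.W.ev (Matrix.vecMul (row T l e p) (blk 2 γ)) *
        ∑ i, (Matrix.vecMul (row T l e p) (blk 2 γ) (Sum.inr i) - θ.c i) ^ 2) := rfl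
    rw [e3]
    rw [e2] at c1 ⊢
    have h11 : z * avg (fun p => θ.W.ev (h0 p)) ≤
        z * (avg (fun p => θ.W.ev (Matrix.vecMul (row T l e p) (blk 2 γ))) + z * θ.β / 8) :=
      mul_le_mul_of_nonneg_left (by linarith) hz.le
    have h12 : z * (z * θ.β / 8) ≤ 1 * (z * θ.β / 8) :=
      mul_le_mul_of_nonneg_right hz1 (by positivity)
    have h13 : z * (θ.β / 2) ≤
        z * avg (fun p => θ.W.ev (Matrix.vecMul (row T l e p) (blk 2 γ))) :=
      mul_le_mul_of_nonneg_left c1 hz.le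
    nlinarith
  · have e4 : (fun p => phi θ T l e γ p * op T 1 p) = fun p =>
        θ.W.ev (Matrix.vecMul (row T l e p) (blk 2 γ)) *
          Matrix.vecMul (row T l e p) (blk 2 γ) (Sum.inl 1) := by
      funext p
      rw [vecMul_blk_inl]
      simp [row, phi]
    rw [e4]
    exact a2.trans hT

/-! ### the output -/

theorem phi_mem {Q : Type} [Fintype Q] {k : ℕ} (θ : Param k) {z : ℝ} (hθ : θ.Ok z) (T : Q → Q → ℝ)
    (l : Fin θ.M → ℝ) (e : Fin θ.M → Q → ℝ) (γ : Matrix (Fin θ.M) (Fin θ.M) ℝ)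
    (hγ : γ * γ.transpose = 1) (hsup : ∀ p, ∑ i, (l i * e i p) ^ 2 ≤ 2) (p : Q) :
    0 ≤ phi θ T l e γ p ∧ phi θ T l e γ p ≤ 1 := by
  refine hθ.w_mem _ ?_ ?_
  · rw [vecMul_blk_inl]
    simp [row]
  · rw [sum_sq_vecMul _ _ hγ]
    exact hsup p

theorem ratio_close {X Y X0 Y0 b t : ℝ} (hb : 0 < b) (hY : b ≤ Y) (hY0 : 0 < Y0) (hX0 : 0 ≤ X0)
    (hXY : X0 ≤ Y0) (h1 : |X - X0| ≤ t) (h2 : |Y - Y0| ≤ t) : |X / Y - X0 / Y0| ≤ 2 * t / b := by
  have hYp : 0 < Y := lt_of_lt_of_le hb hY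
  have e : X / Y - X0 / Y0 = ((X - X0) - X0 / Y0 * (Y - Y0)) / Y := by
    field_simp
    ring
  rw [e, abs_div, abs_of_pos hYp]
  have hr : |X0 / Y0| ≤ 1 := by
    rw [abs_of_nonneg (by positivity), div_le_one hY0]
    exact hXY
  have h3 : |(X - X0) - X0 / Y0 * (Y - Y0)| ≤ 2 * t := by
    have h4 := abs_sub (X - X0) (X0 / Y0 * (Y - Y0))
    have h5 : |X0 / Y0 * (Y - Y0)| ≤ 1 * t := by
      rw [abs_mul]
      exact mul_le_mul hr h2 (abs_nonneg _) zero_le_one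
    linarith
  have ht : 0 ≤ t := (abs_nonneg _).trans h1
  exact div_le_div₀ (by linarith) h3 hb hY

theorem frame_out {k : ℕ} (θ : Param k) (ζ Cd : ℝ) (hζ : 0 < ζ) (hζ1 : ζ ≤ 1) (hCd : 1 ≤ Cd)
    (hθ : θ.Ok (ζ / 100)) : ∃ s : ℝ, 0 < s ∧ ∀ {B L X : Type} [DecidableEq B] [Fintype B]
      [Fintype L] [Fintype X] {J K : ℕ} [NeZero K] (S : CS (Fin J ⊕ B) L X)
      (R : X × Fin K → X × Fin K → ℝ), Col R →
      ∀ (l : Fin θ.M → ℝ), (∀ i, θ.l0 + θ.g ≤ |l i| ∧ |l i| ≤ 1) →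
      ∀ (y : (Fin (k + 2) → Fin 2 ⊕ Fin θ.M) → ℝ), (∀ w, |y w| ≤ 1) →
      ∀ {Q0 : Type} [Fintype Q0] [Nonempty Q0] (h0 : Q0 → Fin 2 ⊕ Fin θ.M → ℝ),
      (∀ p, h0 p (Sum.inl 0) = 1) → (∀ p, 0 ≤ h0 p (Sum.inl 1) ∧ h0 p (Sum.inl 1) ≤ 1) →
      (∀ p, ∑ i, h0 p (Sum.inr i) ^ 2 ≤ 2) → mom (k + 2) h0 = y →
      θ.β ≤ avg (fun p => θ.W.ev (h0 p)) →
      avg (fun p => θ.W.ev (h0 p) * ∑ i, (h0 p (Sum.inr i) - θ.c i) ^ 2) ≤
        ζ / 100 * avg (fun p => θ.W.ev (h0 p)) →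
      ∀ BAD : Set (St B L (St (Fin J) L X)), prob BAD ≤ ζ →
      (∀ V, V ∉ BAD → Win (k + 2) s (wker S R V) ∧
        ∀ b, pos S V b ∈ HasF S R θ.l0 θ.g s l y) →
      ∃ (G : Type) (_ : Group G), Nonempty (FrameOut S R ζ Cd (θ.β / 2) G) := by
  classical
  have hz : 0 < ζ / 100 := by positivity
  have hz1 : ζ / 100 ≤ 1 := by linarith
  have hβ := hθ.β_pos
  have hg := hθ.g_pos
  have hgl := hθ.g_lt
  obtain ⟨C1, s1, hC1, hs1, H1⟩ := trans_props θ.M (k + 2) hg hgl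
  obtain ⟨C3, s3, hC3, hs3, H3⟩ := trans_tri θ.M (k + 2) hg hgl
  obtain ⟨s4, hs4, H4⟩ := cell_p1 θ hz hz1 hθ
  obtain ⟨δ, hδ, H5⟩ := cell_transfer θ (ζ / 100) hz hz1 hθ
  -- the rounding precision
  obtain ⟨η, hη, hη1, hη4, hηδ⟩ : ∃ η : ℝ, 0 < η ∧ η ≤ 1 ∧ 5 * Cd * η ≤ s4 ∧ η ≤ δ := by
    refine ⟨min 1 (min (s4 / (5 * Cd)) δ), by positivity, min_le_left _ _, ?_,
      (min_le_right _ _).trans (min_le_right _ _)⟩
    have : min 1 (min (s4 / (5 * Cd)) δ) ≤ s4 / (5 * Cd) :=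
      (min_le_right _ _).trans (min_le_left _ _)
    rw [le_div_iff₀ (by positivity)] at this
    linarith
  obtain ⟨eps, heps, Hst⟩ := stab_near 2 (k + 2) θ.M (c := 1) hη
  obtain ⟨s, hs, hss1, hss3, hss4, hsδ, hseps, hsC1, hsC3, hsζ⟩ : ∃ s : ℝ, 0 < s ∧ s ≤ s1 ∧
      s ≤ s3 ∧ s ≤ s4 ∧ s ≤ δ ∧ s ≤ eps ∧ C1 * s ≤ eps ∧ (θ.M : ℝ) * (C3 * s) ≤ η ∧
      s ≤ ζ * θ.β / 8 := by
    have hC1' : 0 < C1 := by linarith
    have hC3' : 0 < C3 := by linarith
    have hM : (0 : ℝ) ≤ θ.M := Nat.cast_nonneg _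
    refine ⟨min s1 (min s3 (min s4 (min δ (min (eps / C1) (min (η / ((θ.M + 1) * C3))
      (ζ * θ.β / 8)))))), by positivity, min_le_left _ _,
      (min_le_right _ _).trans (min_le_left _ _),
      (min_le_right _ _).trans ((min_le_right _ _).trans (min_le_left _ _)),
      (min_le_right _ _).trans ((min_le_right _ _).trans ((min_le_right _ _).trans
        (min_le_left _ _))), ?_, ?_, ?_, ?_⟩
    · refine ((min_le_right _ _).trans ((min_le_right _ _).trans ((min_le_right _ _).trans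
        ((min_le_right _ _).trans (min_le_left _ _))))).trans ?_
      exact div_le_self heps.le hC1
    · have h6 := (min_le_right s1 (min s3 (min s4 (min δ (min (eps / C1)
        (min (η / ((θ.M + 1) * C3)) (ζ * θ.β / 8))))))).trans ((min_le_right _ _).trans
        ((min_le_right _ _).trans ((min_le_right _ _).trans (min_le_left _ _))))
      rw [le_div_iff₀ hC1'] at h6
      linarith
    · have h6 := (min_le_right s1 (min s3 (min s4 (min δ (min (eps / C1)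
        (min (η / ((θ.M + 1) * C3)) (ζ * θ.β / 8))))))).trans ((min_le_right _ _).trans
        ((min_le_right _ _).trans ((min_le_right _ _).trans ((min_le_right _ _).trans
          (min_le_left _ _)))))
      rw [le_div_iff₀ (by positivity)] at h6
      have h7 : 0 < min s1 (min s3 (min s4 (min δ (min (eps / C1)
        (min (η / ((θ.M + 1) * C3)) (ζ * θ.β / 8)))))) := by positivity
      nlinarith [mul_pos h7 hC3']
    · exact (min_le_right _ _).trans ((min_le_right _ _).trans ((min_le_right _ _).trans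
        ((min_le_right _ _).trans ((min_le_right _ _).trans (min_le_right _ _)))))
  refine ⟨s, hs, ?_⟩
  intro B L X _ _ _ _ J K _ S R hR l hl y hy Q0 _ _ h0 h00 h0d h0s h0m hc1 hc2 BAD hBAD hgood
  obtain ⟨z, hz'1, hz'2, Hz⟩ := Hst y hy
  -- charts and transports
  let ch : St (Fin J) L X → Fin θ.M → Finset (Fin J) × Fin K → ℝ :=
    chart S R θ.l0 θ.g s l y
  have hch : ∀ ω, ω ∈ HasF S R θ.l0 θ.g s l y →
      SFrame θ.l0 θ.g s l y (kern S R ω ω) (ch ω) := fun ω h => chart_spec S R _ _ _ _ _ h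
  let H : Subgroup (Matrix.orthogonalGroup (Fin θ.M) ℝ) := stab 2 (k + 2) θ.M z
  let A : St (Fin J) L X → St (Fin J) L X → Matrix (Fin θ.M) (Fin θ.M) ℝ :=
    fun ω ω' => trans l (kern S R ω ω') (ch ω) (ch ω')
  let U : St (Fin J) L X → St (Fin J) L X → H := fun ω ω' => rnd H η (A ω ω')
  have hU : ∀ V, V ∉ BAD → ∀ b c : Finset B,
      fro (A (pos S V b) (pos S V c) - ((U (pos S V b) (pos S V c) :
        Matrix.orthogonalGroup (Fin θ.M) ℝ) : Matrix (Fin θ.M) (Fin θ.M) ℝ)) ≤ η := by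
    intro V hV b c
    obtain ⟨hW, hF⟩ := hgood V hV
    refine rnd_spec H η _ ?_
    obtain ⟨-, p2, p3, -⟩ := H1 (wker S R V) s hs.le hss1 hW l hl y b c (ch (pos S V b))
      (ch (pos S V c)) (hch _ (hF b)) (hch _ (hF c))
    obtain ⟨g, hg1, hg2⟩ := Hz (A (pos S V b) (pos S V c))
      (mom (k + 2) (row (wker S R V b b) l (ch (pos S V b))))
      (mom (k + 2) (row (wker S R V c c) l (ch (pos S V c))))
      (fun i j => (p2 i j).trans hsC1) (fun w => ((hch _ (hF b)).mom w).trans hseps)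
      (fun w => ((hch _ (hF c)).mom w).trans hseps) (fun w => (p3 w).trans hsC1)
    exact ⟨⟨g, hg1⟩, fro_le_of_sq hη.le hg2⟩
  -- weights
  let Φ : St (Fin J) L X → H → Finset (Fin J) × Fin K → ℝ := fun ω γ =>
    phi θ (kern S R ω ω) l (ch ω) ((γ : Matrix.orthogonalGroup (Fin θ.M) ℝ) :
      Matrix (Fin θ.M) (Fin θ.M) ℝ)
  have hΦ : ∀ ω, ω ∈ HasF S R θ.l0 θ.g s l y → ∀ γ : H, ∀ p, 0 ≤ Φ ω γ p ∧ Φ ω γ p ≤ 1 :=
    fun ω hω γ p => phi_mem θ hθ _ _ _ _ (orth_right _) (hch ω hω).sup p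
  have hcell : ∀ ω, ω ∈ HasF S R θ.l0 θ.g s l y → ∀ γ : H,
      θ.β / 2 ≤ avg (Φ ω γ) ∧
      avg (fun p => Φ ω γ p *
        ∑ j, (Matrix.vecMul (row (kern S R ω ω) l (ch ω) p) (blk 2
          ((γ : Matrix.orthogonalGroup (Fin θ.M) ℝ) : Matrix (Fin θ.M) (Fin θ.M) ℝ))
            (Sum.inr j) - θ.c j) ^ 2) ≤ 2 * (ζ / 100) * avg (Φ ω γ) ∧
      |avg (Φ ω γ) - avg (fun p => θ.W.ev (h0 p))| ≤ ζ / 100 * θ.β / 8 ∧
      |avg (fun p => Φ ω γ p * op (kern S R ω ω) 1 p) -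
        avg (fun p => θ.W.ev (h0 p) * h0 p (Sum.inl 1))| ≤ ζ / 100 * θ.β / 8 := by
    intro ω hω γ
    exact H5 (kern S R ω ω) l (ch ω) y z _ (orth_left _) (mem_stab.1 γ.2)
      (fun w => ((hch ω hω).mom w).trans hsδ) (fun w => (hz'2 w).trans hηδ) h0 h00 h0m hc1 hc2
  let Wt : St (Fin J) L X → H → Finset (Fin J) × Fin K → ℝ := fun ω γ p =>
    if ω ∈ HasF S R θ.l0 θ.g s l y then Φ ω γ p / avg (Φ ω γ) else 1
  have hWt : ∀ ω, ω ∈ HasF S R θ.l0 θ.g s l y → ∀ γ p, Wt ω γ p = Φ ω γ p / avg (Φ ω γ) := by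
    intro ω hω γ p
    simp only [Wt, if_pos hω]
  have hpos : ∀ ω, ω ∈ HasF S R θ.l0 θ.g s l y → ∀ γ : H, 0 < avg (Φ ω γ) := by
    intro ω hω γ
    have := (hcell ω hω γ).1
    linarith
  have hY0 : 0 < avg (fun p => θ.W.ev (h0 p)) := lt_of_lt_of_le hβ hc1
  have hev : ∀ p, 0 ≤ θ.W.ev (h0 p) ∧ θ.W.ev (h0 p) ≤ 1 := fun p => hθ.w_mem _ (h00 p) (h0s p)
  have hX0 : 0 ≤ avg (fun p => θ.W.ev (h0 p) * h0 p (Sum.inl 1)) :=
    avg_nonneg fun p => mul_nonneg (hev p).1 (h0d p).1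
  have hXY0 : avg (fun p => θ.W.ev (h0 p) * h0 p (Sum.inl 1)) ≤ avg (fun p => θ.W.ev (h0 p)) :=
    avg_mono fun p => mul_le_of_le_one_right (hev p).1 (h0d p).2
  refine ⟨H, inferInstance, ⟨{
    BAD := BAD
    bad := hBAD
    len := fun g => flen (g : Matrix.orthogonalGroup (Fin θ.M) ℝ)
    biinv := ⟨flen_one, fun g => flen_inv _, fun g h => flen_mul _ _, fun g h => flen_conj _ _⟩
    ζ1 := 5 * η
    ζ1_pos := by positivity
    U := U
    tri := ?_
    W := Wt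
    W_nonneg := ?_
    W_le := ?_
    W_avg := ?_
    u := fun ω γ => ∑ j, θ.c j • ∑ i, ((γ : Matrix.orthogonalGroup (Fin θ.M) ℝ) :
      Matrix (Fin θ.M) (Fin θ.M) ℝ) i j • ch ω i
    vrho := avg (fun p => θ.W.ev (h0 p) * h0 p (Sum.inl 1)) / avg (fun p => θ.W.ev (h0 p))
    p1 := ?_
    p2 := ?_ }⟩⟩
  · -- triangles
    intro V hV b c d
    obtain ⟨hW, hF⟩ := hgood V hV
    have h1 := H3 (wker S R V) s hs.le hss3 hW l hl y b c d _ _ _ (hch _ (hF b)) (hch _ (hF c))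
      (hch _ (hF d))
    have h2 : fro (A (pos S V b) (pos S V c) * A (pos S V c) (pos S V d) -
        A (pos S V b) (pos S V d)) ≤ η := by
      refine fro_le_of_sq hη.le ?_
      have h3 : ∀ i j, (A (pos S V b) (pos S V c) * A (pos S V c) (pos S V d) -
          A (pos S V b) (pos S V d)) i j ^ 2 ≤ (C3 * s) ^ 2 := by
        intro i j
        have := h1 i j
        exact sq_le_sq' (abs_le.1 this).1 (abs_le.1 this).2
      calc ∑ i, ∑ j, (A (pos S V b) (pos S V c) * A (pos S V c) (pos S V d) -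
          A (pos S V b) (pos S V d)) i j ^ 2 ≤ ∑ i : Fin θ.M, ∑ j : Fin θ.M, (C3 * s) ^ 2 :=
            sum_le_sum fun i _ => sum_le_sum fun j _ => h3 i j
        _ = ((θ.M : ℝ) * (C3 * s)) ^ 2 := by
            simp only [sum_const, card_univ, Fintype.card_fin, nsmul_eq_mul]; ring
        _ ≤ η ^ 2 := pow_le_pow_left₀ (by positivity) hsC3 2
    have h4 := round_tri _ _ _ _ _ _ hη.le hη1 (hU V hV b c) (hU V hV c d) (hU V hV b d) h2
      (orth_left _) (orth_right _)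
    show flen ((U (pos S V b) (pos S V c) * U (pos S V c) (pos S V d) *
      (U (pos S V b) (pos S V d))⁻¹ : H) : Matrix.orthogonalGroup (Fin θ.M) ℝ) ≤ 5 * η
    rw [Subgroup.coe_mul, Subgroup.coe_inv, flen_mul_inv, fdist_eq_fro]
    exact h4
  · intro ω γ p
    by_cases hω : ω ∈ HasF S R θ.l0 θ.g s l y
    · rw [hWt ω hω]
      exact div_nonneg (hΦ ω hω γ p).1 (hpos ω hω γ).le
    · simp only [Wt, if_neg hω]
      exact zero_le_one
  · intro ω γ p
    by_cases hω : ω ∈ HasF S R θ.l0 θ.g s l y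
    · rw [hWt ω hω, div_le_iff₀ (hpos ω hω γ)]
      have h1 := (hcell ω hω γ).1
      calc Φ ω γ p ≤ 1 := (hΦ ω hω γ p).2
        _ = (θ.β / 2)⁻¹ * (θ.β / 2) := (inv_mul_cancel₀ (by positivity)).symm
        _ ≤ (θ.β / 2)⁻¹ * avg (Φ ω γ) := mul_le_mul_of_nonneg_left h1 (by positivity)
    · simp only [Wt, if_neg hω]
      have : θ.β / 2 ≤ 1 := by linarith [hθ.β_le]
      exact (one_le_inv₀ (by positivity)).2 this
  · intro ω γ
    by_cases hω : ω ∈ HasF S R θ.l0 θ.g s l y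
    · have : Wt ω γ = fun p => Φ ω γ p * (avg (Φ ω γ))⁻¹ := by
        funext p
        rw [hWt ω hω, div_eq_mul_inv]
      rw [this, avg_mul_right, mul_inv_cancel₀ (hpos ω hω γ).ne']
    · have : Wt ω γ = fun _ => 1 := by
        funext p
        simp only [Wt, if_neg hω]
      rw [this, avg_const]
  · -- P1
    intro V hV b c γ γ' hlen f hf
    obtain ⟨hW, hF⟩ := hgood V hV
    have hb := hcell _ (hF b) γ
    have e1 : fro (((U (pos S V b) (pos S V c) : Matrix.orthogonalGroup (Fin θ.M) ℝ) :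
        Matrix (Fin θ.M) (Fin θ.M) ℝ) * ((γ' : Matrix.orthogonalGroup (Fin θ.M) ℝ) :
        Matrix (Fin θ.M) (Fin θ.M) ℝ) - ((γ : Matrix.orthogonalGroup (Fin θ.M) ℝ) :
        Matrix (Fin θ.M) (Fin θ.M) ℝ)) ≤ s4 := by
      have h1 : flen ((γ⁻¹ * U (pos S V b) (pos S V c) * γ' : H) :
          Matrix.orthogonalGroup (Fin θ.M) ℝ) ≤ Cd * (5 * η) := hlen
      rw [mul_assoc, Subgroup.coe_mul, Subgroup.coe_inv, flen_inv_mul, fdist_eq_fro,
        fro_sub_comm] at h1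
      refine le_trans ?_ (h1.trans (by linarith))
      exact le_of_eq (by rw [Subgroup.coe_mul]; rfl)
    have h2 := H4 (wker S R V) s4 hs4.le le_rfl (win_mono hs.le hss4 hW) l hl y b c
      (ch (pos S V b)) (ch (pos S V c)) (sframe_mono hss4 (hch _ (hF b)))
      (sframe_mono hss4 (hch _ (hF c)))
      ((U (pos S V b) (pos S V c) : Matrix.orthogonalGroup (Fin θ.M) ℝ) :
        Matrix (Fin θ.M) (Fin θ.M) ℝ)
      ((γ : Matrix.orthogonalGroup (Fin θ.M) ℝ) : Matrix (Fin θ.M) (Fin θ.M) ℝ)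
      ((γ' : Matrix.orthogonalGroup (Fin θ.M) ℝ) : Matrix (Fin θ.M) (Fin θ.M) ℝ)
      (orth_left _) (orth_left _)
      (by
        have h3 : fro (A (pos S V b) (pos S V c) - ((U (pos S V b) (pos S V c) :
          Matrix.orthogonalGroup (Fin θ.M) ℝ) : Matrix (Fin θ.M) (Fin θ.M) ℝ)) ≤ s4 := by
            refine (hU V hV b c).trans (le_trans ?_ hη4)
            nlinarith
        have h4 := pow_le_pow_left₀ (fro_nonneg _) h3 2
        rw [fro_sq] at h4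
        exact h4)
      (by
        have h4 := pow_le_pow_left₀ (fro_nonneg _) e1 2
        rw [fro_sq] at h4
        exact h4)
      hb.1 hb.2.1 f hf
    have h5 : (fun p => Wt (pos S V b) γ p * (op (wker S R V b c) f p -
        ip (∑ j, θ.c j • ∑ i, ((γ' : Matrix.orthogonalGroup (Fin θ.M) ℝ) :
      Matrix (Fin θ.M) (Fin θ.M) ℝ) i j • ch (pos S V c) i) f) ^ 2) =
        fun p => (avg (Φ (pos S V b) γ))⁻¹ * (Φ (pos S V b) γ p * (op (wker S R V b c) f p -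
        ip (∑ j, θ.c j • ∑ i, ((γ' : Matrix.orthogonalGroup (Fin θ.M) ℝ) :
      Matrix (Fin θ.M) (Fin θ.M) ℝ) i j • ch (pos S V c) i) f) ^ 2) := by
      funext p
      rw [hWt _ (hF b), div_eq_mul_inv]
      ring
    rw [h5, avg_mul_left]
    have hp := hpos _ (hF b) γ
    have h6 : (avg (Φ (pos S V b) γ))⁻¹ * avg (fun p => Φ (pos S V b) γ p *
        (op (wker S R V b c) f p - ip (∑ j, θ.c j • ∑ i,
          ((γ' : Matrix.orthogonalGroup (Fin θ.M) ℝ) :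
      Matrix (Fin θ.M) (Fin θ.M) ℝ) i j • ch (pos S V c) i) f) ^ 2) ≤
        (avg (Φ (pos S V b) γ))⁻¹ * (20 * (ζ / 100) * avg (Φ (pos S V b) γ)) :=
      mul_le_mul_of_nonneg_left h2 (by positivity)
    refine h6.trans ?_
    have h7 : (avg (Φ (pos S V b) γ))⁻¹ * (20 * (ζ / 100) * avg (Φ (pos S V b) γ)) =
        ζ / 5 := by
      field_simp
      ring
    rw [h7]
    linarith
  · -- P2
    intro V hV b c γ γ' _
    obtain ⟨hW, hF⟩ := hgood V hV
    have hb := hcell _ (hF b) γ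
    have hp := hpos _ (hF b) γ
    have h1 : (fun p => Wt (pos S V b) γ p * op (wker S R V b c) 1 p) =
        fun p => (Φ (pos S V b) γ p * op (wker S R V b c) 1 p) *
          (avg (Φ (pos S V b) γ))⁻¹ := by
      funext p
      rw [hWt _ (hF b), div_eq_mul_inv]
      ring
    rw [h1, avg_mul_right, ← div_eq_mul_inv]
    have h2 : |avg (fun p => Φ (pos S V b) γ p * op (wker S R V b c) 1 p) -
        avg (fun p => Φ (pos S V b) γ p * op (wker S R V b b) 1 p)| ≤ s := by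
      rw [← avg_sub]
      have e2 : (fun p => Φ (pos S V b) γ p * op (wker S R V b c) 1 p -
          Φ (pos S V b) γ p * op (wker S R V b b) 1 p) =
          fun p => Φ (pos S V b) γ p * (op (wker S R V b c) 1 - op (wker S R V b b) 1) p := by
        funext p
        rw [Pi.sub_apply]
        ring
      rw [e2]
      have h3 := abs_ip_le (Φ (pos S V b) γ) (op (wker S R V b c) 1 - op (wker S R V b b) 1)
      have h4 : nrm (Φ (pos S V b) γ) ≤ 1 := by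
        refine nrm_le_of_abs_le fun p => ?_
        rw [abs_of_nonneg (hΦ _ (hF b) γ p).1]
        exact (hΦ _ (hF b) γ p).2
      have h5 := hW.deg b c b
      calc |avg (fun p => Φ (pos S V b) γ p * (op (wker S R V b c) 1 -
          op (wker S R V b b) 1) p)| ≤ nrm (Φ (pos S V b) γ) *
            nrm (op (wker S R V b c) 1 - op (wker S R V b b) 1) := h3
        _ ≤ 1 * s := mul_le_mul h4 h5 (nrm_nonneg _) zero_le_one
        _ = s := one_mul _
    have h6 : |avg (fun p => Φ (pos S V b) γ p * op (wker S R V b c) 1 p) -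
        avg (fun p => θ.W.ev (h0 p) * h0 p (Sum.inl 1))| ≤ ζ * θ.β / 8 + ζ / 100 * θ.β / 8 := by
      have h7 := abs_sub_le (avg (fun p => Φ (pos S V b) γ p * op (wker S R V b c) 1 p))
        (avg (fun p => Φ (pos S V b) γ p * op (wker S R V b b) 1 p))
        (avg (fun p => θ.W.ev (h0 p) * h0 p (Sum.inl 1)))
      have h8 := hb.2.2.2
      have h9 : |avg (fun p => Φ (pos S V b) γ p * op (wker S R V b b) 1 p) -
        avg (fun p => θ.W.ev (h0 p) * h0 p (Sum.inl 1))| ≤ ζ / 100 * θ.β / 8 := h8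
      linarith
    have hζβ : 0 < ζ * θ.β := by positivity
    have h10 := ratio_close (t := ζ * θ.β / 8 + ζ / 100 * θ.β / 8) (by positivity : 0 < θ.β / 2)
      hb.1 hY0 hX0 hXY0 h6 (hb.2.2.1.trans (by nlinarith))
    refine h10.trans ?_
    rw [div_le_iff₀ (by positivity)]
    nlinarith

/-- Weaker constants. -/
def FrameOut.mono {B L X : Type} {J K : ℕ} [DecidableEq B] [Fintype B] [Fintype L] [Fintype X]
    {S : CS (Fin J ⊕ B) L X} {R : X × Fin K → X × Fin K → ℝ} {ζ ζ' Cd β β' : ℝ} {G : Type}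
    [Group G] (hβ : 0 < β') (h : β' ≤ β) (hζ : ζ ≤ ζ') (F : FrameOut S R ζ Cd β G) :
    FrameOut S R ζ' Cd β' G := { F with
  bad := F.bad.trans hζ
  W_le := fun ω γ p => (F.W_le ω γ p).trans (inv_anti₀ hβ h)
  p1 := fun V hV b c γ γ' h1 f hf => (F.p1 V hV b c γ γ' h1 f hf).trans hζ
  p2 := fun V hV b c γ γ' h1 => (F.p2 V hV b c γ γ' h1).trans hζ }

end Fr

end Pool.Agent.SRL
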