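import Pool.Agent.SRL.FParamSpec
import Pool.Agent.SRL.Bern

/-! Block F, row F6: frames with a good cell exist. -/

set_option autoImplicit false

namespace Pool.Agent.SRL.Fr.P6

open Finset

/-! ### Products of linear forms -/

section wt

variable {M : ℕ}

/-- `F` is a product of `k` linear forms (times a constant) on the row vectors. -/
def IsWt (k : ℕ) (F : (Fin 2 ⊕ Fin M → ℝ) → ℝ) : Prop :=
  ∃ W : Wt k M, ∀ x : Fin 2 ⊕ Fin M → ℝ, x (Sum.inl 0) = 1 → W.ev x = F x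

theorem IsWt.congr {k : ℕ} {F G : (Fin 2 ⊕ Fin M → ℝ) → ℝ} (hF : IsWt k F)
    (h : ∀ x : Fin 2 ⊕ Fin M → ℝ, x (Sum.inl 0) = 1 → F x = G x) : IsWt k G := by
  obtain ⟨W, hW⟩ := hF
  exact ⟨W, fun x hx => (hW x hx).trans (h x hx)⟩

theorem isWt_const (a : ℝ) : IsWt (M := M) 0 (fun _ => a) :=
  ⟨⟨a, fun t => t.elim0⟩, fun x _ => by simp [Wt.ev]⟩

theorem isWt_affine (i : Fin 2 ⊕ Fin M) (a d : ℝ) : IsWt 1 (fun x => a + d * x i) := by
  refine ⟨⟨1, fun _ o => (if o = Sum.inl 0 then a else 0) + (if o = i then d else 0)⟩,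
    fun x hx => ?_⟩
  simp only [Wt.ev, Finset.univ_unique, Finset.prod_singleton, one_mul, add_mul,
    Finset.sum_add_distrib, ite_mul, zero_mul, Finset.sum_ite_eq', Finset.mem_univ, if_true, hx,
    mul_one]

theorem IsWt.mul {k l : ℕ} {F G : (Fin 2 ⊕ Fin M → ℝ) → ℝ} (hF : IsWt k F) (hG : IsWt l G) :
    IsWt (k + l) (fun x => F x * G x) := by
  obtain ⟨W, hW⟩ := hF
  obtain ⟨Z, hZ⟩ := hG
  refine ⟨⟨W.cst * Z.cst, Fin.append W.v Z.v⟩, fun x hx => ?_⟩
  beta_reduce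
  rw [← hW x hx, ← hZ x hx]
  simp only [Wt.ev, Fin.prod_univ_add, Fin.append_left, Fin.append_right]
  ring

theorem IsWt.succ {k : ℕ} {F : (Fin 2 ⊕ Fin M → ℝ) → ℝ} (hF : IsWt k F) : IsWt (k + 1) F :=
  (hF.mul (isWt_affine (Sum.inl 0) 1 0)).congr fun x _ => by simp

theorem IsWt.mono {k l : ℕ} (hkl : k ≤ l) {F : (Fin 2 ⊕ Fin M → ℝ) → ℝ} (hF : IsWt k F) :
    IsWt l F := by
  induction l, hkl using Nat.le_induction with
  | base => exact hF
  | succ m _ ih => exact ih.succ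

theorem IsWt.prod {k : ℕ} {ι : Type} (s : Finset ι) {F : ι → (Fin 2 ⊕ Fin M → ℝ) → ℝ}
    (hF : ∀ i ∈ s, IsWt k (F i)) : IsWt (s.card * k) (fun x => ∏ i ∈ s, F i x) := by
  classical
  induction s using Finset.induction_on with
  | empty => exact ((isWt_const 1).mono (Nat.zero_le _)).congr fun x _ => by simp
  | insert a s ha ih =>
    refine (((hF a (Finset.mem_insert_self _ _)).mul
      (ih fun i hi => hF i (Finset.mem_insert_of_mem hi))).mono ?_).congr fun x _ => ?_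
    · rw [Finset.card_insert_of_notMem ha]
      exact le_of_eq (by ring)
    · rw [Finset.prod_insert ha]

theorem IsWt.pow {k : ℕ} {F : (Fin 2 ⊕ Fin M → ℝ) → ℝ} (hF : IsWt k F) (m : ℕ) :
    IsWt (m * k) (fun x => F x ^ m) := by
  have h := IsWt.prod (Finset.range m) (F := fun _ => F) (fun _ _ => hF)
  refine (h.mono (by simp)).congr fun x _ => ?_
  simp

theorem isWt_b (i : Fin 2 ⊕ Fin M) (n : ℕ) (ν : Fin (n + 1)) :
    IsWt n (fun x => Bern.b n ν (x i)) := by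
  have h1 := ((isWt_affine i (1 / 2) (1 / 4)).pow (ν : ℕ))
  have h2 := ((isWt_affine i (1 / 2) (-(1 / 4))).pow (n - (ν : ℕ)))
  have h3 := (isWt_const (M := M) (n.choose ν : ℝ)).mul (h1.mul h2)
  refine (h3.mono ?_).congr fun x _ => ?_
  · have := ν.2; omega
  · unfold Bern.b
    have e1 : (1 : ℝ) / 2 + 1 / 4 * x i = 1 / 2 + x i / 4 := by ring
    have e2 : (1 : ℝ) / 2 + -(1 / 4) * x i = 1 / 2 - x i / 4 := by ring
    rw [e1, e2]
    ring

theorem isWt_chi {M0 : ℕ} (hM : M0 ≤ M) (n : ℕ) (κ : Fin M0 → Fin (n + 1)) {k : ℕ}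
    (hk : n * M0 ≤ k) : IsWt k (fun x => Bern.chi hM n κ (fun i => x (Sum.inr i))) := by
  have h := IsWt.prod (k := n) (Finset.univ : Finset (Fin M0))
    (F := fun i x => Bern.b n (κ i) (x (Sum.inr (Fin.castLE hM i)))) (fun i _ => isWt_b _ _ _)
  refine (h.mono ?_).congr fun x _ => rfl
  rw [Finset.card_univ, Fintype.card_fin, mul_comm]
  exact hk

end wt

/-! ### Scales -/

section scales

/-- Bound for the number of eigenvalues above `L`. -/
noncomputable def cnt (L : ℝ) : ℕ := ⌊1 / L ^ 2⌋₊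

/-- Degree of the Bernstein polynomials at the scale `L`. -/
noncomputable def deg (ζ L : ℝ) : ℕ := ⌈16 * cnt L / ζ⌉₊ + 1

/-- Lower bound of the mass at the scale `L`. -/
noncomputable def mass (ζ L : ℝ) : ℝ := 1 / (2 * ((deg ζ L : ℝ) + 1) ^ cnt L)

/-- The next scale. -/
noncomputable def nxt (ζ L : ℝ) : ℝ := min (L / 2) (Real.sqrt (ζ * mass ζ L) / 2)

/-- The scales. -/
noncomputable def scl (ζ : ℝ) : ℕ → ℝ
  | 0 => 1
  | j + 1 => nxt ζ (scl ζ j)

theorem mass_pos (ζ L : ℝ) : 0 < mass ζ L := by unfold mass; positivity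

theorem mass_le (ζ L : ℝ) : mass ζ L ≤ 1 := by
  unfold mass
  rw [div_le_one (by positivity)]
  have h : (1 : ℝ) ≤ ((deg ζ L : ℝ) + 1) ^ cnt L :=
    one_le_pow₀ (by have : (0 : ℝ) ≤ deg ζ L := Nat.cast_nonneg _; linarith)
  linarith

theorem scl_pos {ζ : ℝ} (hζ : 0 < ζ) (j : ℕ) : 0 < scl ζ j := by
  induction j with
  | zero => exact one_pos
  | succ j ih =>
    change 0 < nxt ζ (scl ζ j)
    unfold nxt
    have := mass_pos ζ (scl ζ j)
    have h2 : 0 < Real.sqrt (ζ * mass ζ (scl ζ j)) := Real.sqrt_pos.2 (by positivity)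
    exact lt_min (by linarith) (by linarith)

theorem scl_succ_le (ζ : ℝ) (j : ℕ) : 2 * scl ζ (j + 1) ≤ scl ζ j := by
  have h : scl ζ (j + 1) ≤ scl ζ j / 2 := min_le_left _ _
  linarith

theorem scl_sq {ζ : ℝ} (hζ : 0 < ζ) (j : ℕ) :
    (2 * scl ζ (j + 1)) ^ 2 ≤ ζ * mass ζ (scl ζ j) := by
  have h : scl ζ (j + 1) ≤ Real.sqrt (ζ * mass ζ (scl ζ j)) / 2 := min_le_right _ _
  have h1 := scl_pos hζ (j + 1)
  have h2 : 0 ≤ ζ * mass ζ (scl ζ j) := by
    have := mass_pos ζ (scl ζ j)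
    positivity
  calc (2 * scl ζ (j + 1)) ^ 2 ≤ Real.sqrt (ζ * mass ζ (scl ζ j)) ^ 2 :=
        pow_le_pow_left₀ (by positivity) (by linarith) 2
    _ = _ := Real.sq_sqrt h2

theorem scl_anti {ζ : ℝ} (hζ : 0 < ζ) : Antitone (scl ζ) :=
  antitone_nat_of_succ_le fun j => by
    have := scl_succ_le ζ j
    have := scl_pos hζ (j + 1)
    linarith

variable {Q : Type} [Fintype Q]

/-- Number of eigenvalues above a cut. -/
theorem card_above {lam : Q → ℝ} (hlam : ∑ i, lam i ^ 2 ≤ 1) {c : ℝ} (hc : 0 < c) (s : Finset Q)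
    (hs : ∀ i ∈ s, c < |lam i|) : s.card ≤ cnt c := by
  unfold cnt
  refine Nat.le_floor ?_
  rw [le_div_iff₀ (by positivity)]
  calc (s.card : ℝ) * c ^ 2 = ∑ i ∈ s, c ^ 2 := by rw [Finset.sum_const, nsmul_eq_mul]
    _ ≤ ∑ i ∈ s, lam i ^ 2 := by
        refine Finset.sum_le_sum fun i hi => ?_
        rw [← sq_abs (lam i)]
        exact pow_le_pow_left₀ hc.le (hs i hi).le 2
    _ ≤ ∑ i, lam i ^ 2 := Finset.sum_le_univ_sum_of_nonneg fun i => sq_nonneg _
    _ ≤ 1 := hlam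

/-- A scale with little mass. -/
theorem popular {ζ : ℝ} (hζ : 0 < ζ) {S : ℕ} (hS : 4 / ζ < S) {lam : Q → ℝ}
    (hlam : ∑ i, lam i ^ 2 ≤ 1) :
    ∃ j : Fin S, ∑ i, (if scl ζ (j + 1) < |lam i| ∧ |lam i| ≤ scl ζ j then lam i ^ 2 else 0)
      ≤ ζ / 4 := by
  by_contra hcon
  push Not at hcon
  have hS0 : 0 < S := by
    have h1 : (0 : ℝ) < S := lt_trans (by positivity) hS
    exact_mod_cast h1
  have : Nonempty (Fin S) := ⟨⟨0, hS0⟩⟩
  have h1 := Finset.sum_lt_sum_of_nonempty (s := (Finset.univ : Finset (Fin S)))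
    Finset.univ_nonempty (fun j _ => hcon j)
  rw [Finset.sum_const, nsmul_eq_mul, Finset.card_univ, Fintype.card_fin, Finset.sum_comm] at h1
  have h2 : ∀ i : Q, ∑ j : Fin S, (if scl ζ (j + 1) < |lam i| ∧ |lam i| ≤ scl ζ j
      then lam i ^ 2 else 0) ≤ lam i ^ 2 := by
    intro i
    rw [← Finset.sum_filter, Finset.sum_const, nsmul_eq_mul]
    have h3 : (Finset.univ.filter fun j : Fin S =>
        scl ζ (j + 1) < |lam i| ∧ |lam i| ≤ scl ζ j).card ≤ 1 := by
      rw [Finset.card_le_one]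
      intro a ha b hb
      simp only [Finset.mem_filter, Finset.mem_univ, true_and] at ha hb
      by_contra hne
      rcases lt_or_gt_of_ne hne with hab | hab
      · have : scl ζ b ≤ scl ζ ((a : ℕ) + 1) := scl_anti hζ (by exact hab)
        linarith [ha.1, hb.2]
      · have : scl ζ a ≤ scl ζ ((b : ℕ) + 1) := scl_anti hζ (by exact hab)
        linarith [hb.1, ha.2]
    have h4 : ((Finset.univ.filter fun j : Fin S =>
        scl ζ (j + 1) < |lam i| ∧ |lam i| ≤ scl ζ j).card : ℝ) ≤ 1 := by exact_mod_cast h3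
    nlinarith [sq_nonneg (lam i)]
  have h3 := Finset.sum_le_sum fun i (_ : i ∈ (Finset.univ : Finset Q)) => h2 i
  have h4 : (1 : ℝ) < S * (ζ / 4) := by
    rw [div_lt_iff₀ hζ] at hS
    linarith
  linarith

/-- The gap above a cut. -/
noncomputable def gp (L : ℝ) : ℝ := L / (2 * ((cnt L : ℝ) + 1))

theorem gp_pos {L : ℝ} (hL : 0 < L) : 0 < gp L := by unfold gp; positivity

/-- The cut number `t`. -/
noncomputable def cut (L : ℝ) (t : ℕ) : ℝ := L + (2 * t + 1) * gp L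

theorem gp_mul {L : ℝ} : 2 * ((cnt L : ℝ) + 1) * gp L = L := by
  unfold gp
  have : (2 * ((cnt L : ℝ) + 1)) ≠ 0 := by positivity
  field_simp

theorem cut_lt {L : ℝ} (hL : 0 < L) {t : ℕ} (ht : t < cnt L + 1) : cut L t < 2 * L := by
  unfold cut
  have h1 : (t : ℝ) + 1 ≤ (cnt L : ℝ) + 1 := by exact_mod_cast ht
  have h2 := gp_pos hL
  have h3 := gp_mul (L := L)
  nlinarith

/-- There is a cut without eigenvalues nearby. -/
theorem exists_cut {lam : Q → ℝ} (hlam : ∑ i, lam i ^ 2 ≤ 1) {L : ℝ} (hL : 0 < L) :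
    ∃ t : Fin (cnt L + 1), ∀ i, |lam i| ≤ cut L t - gp L ∨ cut L t + gp L ≤ |lam i| := by
  classical
  by_contra hcon
  push Not at hcon
  choose f hf using hcon
  have hg := gp_pos hL
  have hinj : Function.Injective f := by
    intro a b hab
    by_contra hne
    have ha := hf a
    have hb := hf b
    rw [hab] at ha
    unfold cut at ha hb
    rcases lt_or_gt_of_ne hne with h | h
    · have h1 : ((a : ℕ) : ℝ) + 1 ≤ ((b : ℕ) : ℝ) := by exact_mod_cast h
      nlinarith [ha.1, ha.2, hb.1, hb.2]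
    · have h1 : ((b : ℕ) : ℝ) + 1 ≤ ((a : ℕ) : ℝ) := by exact_mod_cast h
      nlinarith [ha.1, ha.2, hb.1, hb.2]
  have h1 := card_above hlam hL (Finset.univ.image f) (by
    intro i hi
    obtain ⟨t, _, rfl⟩ := Finset.mem_image.1 hi
    have h2 := (hf t).1
    unfold cut at h2
    have h3 : (0 : ℝ) ≤ ((t : ℕ) : ℝ) := Nat.cast_nonneg _
    nlinarith)
  rw [Finset.card_image_of_injective _ hinj, Finset.card_univ, Fintype.card_fin] at h1
  omega

end scales

/-! ### The family of parameters -/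

section family

/-- The index of a parameter: scale, cut, numbers of small and large eigenvalues, cell. -/
abbrev Idx (ζ : ℝ) (S : ℕ) : Type :=
  Σ j : Fin S, Σ _t : Fin (cnt (scl ζ ((j : ℕ) + 1)) + 1),
    Σ _M1 : Fin (cnt (scl ζ ((j : ℕ) + 1)) + 1),
    Σ M0 : Fin (cnt (scl ζ (j : ℕ)) + 1), (Fin (M0 : ℕ) → Fin (deg ζ (scl ζ (j : ℕ)) + 1))

/-- Degree of all weight functions. -/
noncomputable def dgr (ζ : ℝ) (S : ℕ) : ℕ :=
  ∑ j : Fin S, deg ζ (scl ζ (j : ℕ)) * cnt (scl ζ (j : ℕ))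

theorem le_dgr (ζ : ℝ) {S : ℕ} (j : Fin S) (M0 : Fin (cnt (scl ζ (j : ℕ)) + 1)) :
    deg ζ (scl ζ (j : ℕ)) * (M0 : ℕ) ≤ dgr ζ S := by
  have h1 : (M0 : ℕ) ≤ cnt (scl ζ (j : ℕ)) := Nat.lt_succ_iff.1 M0.2
  calc deg ζ (scl ζ (j : ℕ)) * (M0 : ℕ) ≤ deg ζ (scl ζ (j : ℕ)) * cnt (scl ζ (j : ℕ)) :=
        Nat.mul_le_mul_left _ h1
    _ ≤ dgr ζ S := Finset.single_le_sum (f := fun j : Fin S =>
        deg ζ (scl ζ (j : ℕ)) * cnt (scl ζ (j : ℕ))) (fun _ _ => Nat.zero_le _)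
        (Finset.mem_univ j)

/-- The weight function of a cell. -/
noncomputable def wtOf (ζ : ℝ) (S : ℕ) (j : Fin S) (M0 : Fin (cnt (scl ζ (j : ℕ)) + 1)) (M1 : ℕ)
    (κ : Fin (M0 : ℕ) → Fin (deg ζ (scl ζ (j : ℕ)) + 1)) : Wt (dgr ζ S) ((M0 : ℕ) + M1) :=
  Classical.choose (isWt_chi (Nat.le_add_right (M0 : ℕ) M1) (deg ζ (scl ζ (j : ℕ))) κ
    (le_dgr ζ j M0))

theorem wtOf_ev (ζ : ℝ) (S : ℕ) (j : Fin S) (M0 : Fin (cnt (scl ζ (j : ℕ)) + 1)) (M1 : ℕ)
    (κ : Fin (M0 : ℕ) → Fin (deg ζ (scl ζ (j : ℕ)) + 1))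
    (x : Fin 2 ⊕ Fin ((M0 : ℕ) + M1) → ℝ) (hx : x (Sum.inl 0) = 1) :
    (wtOf ζ S j M0 M1 κ).ev x =
      Bern.chi (Nat.le_add_right (M0 : ℕ) M1) (deg ζ (scl ζ (j : ℕ))) κ
        (fun i => x (Sum.inr i)) :=
  Classical.choose_spec (isWt_chi (Nat.le_add_right (M0 : ℕ) M1) (deg ζ (scl ζ (j : ℕ))) κ
    (le_dgr ζ j M0)) x hx

/-- The parameter of an index. -/
noncomputable def prm (ζ : ℝ) (S : ℕ) (a : Idx ζ S) : Param (dgr ζ S) where
  M := (a.2.2.2.1 : ℕ) + (a.2.2.1 : ℕ)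
  l0 := cut (scl ζ ((a.1 : ℕ) + 1)) (a.2.1 : ℕ)
  g := gp (scl ζ ((a.1 : ℕ) + 1))
  β := mass ζ (scl ζ (a.1 : ℕ))
  W := wtOf ζ S a.1 a.2.2.2.1 (a.2.2.1 : ℕ) a.2.2.2.2
  c := Bern.h0 ((a.2.2.2.1 : ℕ) + (a.2.2.1 : ℕ)) (deg ζ (scl ζ (a.1 : ℕ))) a.2.2.2.2

theorem abs_le_two_of_sq {M : ℕ} {x : Fin M → ℝ} (h : ∑ i, x i ^ 2 ≤ 2) (i : Fin M) :
    |x i| ≤ 2 := by
  have h1 : x i ^ 2 ≤ 2 ^ 2 := by
    have := Finset.single_le_sum (f := fun i => x i ^ 2) (fun _ _ => sq_nonneg _)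
      (Finset.mem_univ i)
    linarith
  exact abs_le.2 (abs_le_of_sq_le_sq' h1 (by norm_num))

theorem abs_node_le (n : ℕ) (ν : Fin (n + 1)) : |Bern.node n ν| ≤ 2 := by
  unfold Bern.node
  rcases Nat.eq_zero_or_pos n with hn | hn
  · subst hn
    simp
  · have hn' : (0 : ℝ) < n := by exact_mod_cast hn
    have h1 : ((ν : ℕ) : ℝ) ≤ n := by exact_mod_cast Nat.lt_succ_iff.1 ν.2
    have h2 : (0 : ℝ) ≤ ((ν : ℕ) : ℝ) := Nat.cast_nonneg _
    have h3 : 4 * ((ν : ℕ) : ℝ) / n ≤ 4 := by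
      rw [div_le_iff₀ hn']; linarith
    have h4 : 0 ≤ 4 * ((ν : ℕ) : ℝ) / n := by positivity
    rw [abs_le]
    constructor <;> linarith

theorem abs_h0_le {M0 : ℕ} (M n : ℕ) (κ : Fin M0 → Fin (n + 1)) (i : Fin M) :
    |Bern.h0 M n κ i| ≤ 2 := by
  unfold Bern.h0
  split_ifs
  · exact abs_node_le _ _
  · simp

theorem prm_ok {ζ : ℝ} (hζ : 0 < ζ) (S : ℕ) (a : Idx ζ S) : (prm ζ S a).Ok ζ := by
  obtain ⟨j, t, M1, M0, κ⟩ := a
  have hL := scl_pos hζ ((j : ℕ) + 1)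
  have hg := gp_pos hL
  refine ⟨hg, ?_, mass_pos _ _, mass_le _ _, ?_, ?_, ?_⟩
  · change gp (scl ζ ((j : ℕ) + 1)) < cut (scl ζ ((j : ℕ) + 1)) (t : ℕ)
    unfold cut
    have h1 : (0 : ℝ) ≤ ((t : ℕ) : ℝ) := Nat.cast_nonneg _
    nlinarith
  · change cut (scl ζ ((j : ℕ) + 1)) (t : ℕ) ^ 2 ≤ ζ * mass ζ (scl ζ (j : ℕ))
    have h1 := cut_lt hL t.2
    have h2 : 0 ≤ cut (scl ζ ((j : ℕ) + 1)) (t : ℕ) := by
      unfold cut
      have h1 : (0 : ℝ) ≤ ((t : ℕ) : ℝ) := Nat.cast_nonneg _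
      positivity
    exact (pow_le_pow_left₀ h2 h1.le 2).trans (scl_sq hζ j)
  · intro x hx hx2
    change 0 ≤ (wtOf ζ S j M0 (M1 : ℕ) κ).ev x ∧ (wtOf ζ S j M0 (M1 : ℕ) κ).ev x ≤ 1
    rw [wtOf_ev ζ S j M0 (M1 : ℕ) κ x hx]
    have h1 : ∀ i, |x (Sum.inr i)| ≤ 2 := abs_le_two_of_sq (x := fun i => x (Sum.inr i)) hx2
    exact ⟨Bern.chi_nonneg _ _ h1, Bern.chi_le_one _ _ h1⟩
  · intro i
    exact abs_h0_le _ _ _ _

/-! ### The frame -/

variable {Q : Type} [Fintype Q] [Nonempty Q]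

/-- The frame of the eigenfunctions in a finite set. -/
theorem xframe_of [DecidableEq Q] {T : Q → Q → ℝ} (h0 : ∀ p q, 0 ≤ T p q)
    (h1 : ∀ p q, T p q ≤ 1) {lam : Q → ℝ} {v : Q → Q → ℝ}
    (hv : ∀ i j, ip (v i) (v j) = if i = j then 1 else 0)
    (he : ∀ i, op T (v i) = lam i • v i) (hf : ∀ f : Q → ℝ, f = ∑ i, ip (v i) f • v i)
    {M : ℕ} (u : Fin M → Q) (hu : Function.Injective u) {l0 g : ℝ} (hg : g ≤ l0)
    (hin : ∀ i, l0 + g ≤ |lam (u i)|) (hout : ∀ q, q ∉ Set.range u → |lam q| ≤ l0 - g) :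
    XFrame l0 g T (fun i => lam (u i)) (fun i => v (u i)) := by
  refine ⟨hin, ?_, ?_, fun i => he _, ?_⟩
  · intro i
    have h2 := sum_lam_sq_le h0 h1 hv he hf
    have h3 : lam (u i) ^ 2 ≤ 1 ^ 2 := by
      have := Finset.single_le_sum (f := fun i => lam i ^ 2) (fun _ _ => sq_nonneg _)
        (Finset.mem_univ (u i))
      linarith
    exact abs_le.2 (abs_le_of_sq_le_sq' h3 (by norm_num))
  · intro i j
    rw [hv]
    simp only [hu.eq_iff]
  · intro f
    have h2 := residual hv he hf (Finset.univ.image u) (c := l0 - g) (by linarith)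
      (fun q hq => hout q (by
        rintro ⟨i, rfl⟩
        exact hq (Finset.mem_image_of_mem u (Finset.mem_univ i)))) f
    rw [Finset.sum_image fun a _ b _ h => hu h] at h2
    exact h2

end family

end Pool.Agent.SRL.Fr.P6

namespace Pool.Agent.SRL.Fr

open Finset P6

/-- Row F6. -/
theorem exists_params (ζ : ℝ) (hζ : 0 < ζ) : ∃ (k n : ℕ) (Θ : Fin n → Param k),
    (∀ a, (Θ a).Ok ζ) ∧ ∀ (Q : Type) [Fintype Q] [Nonempty Q] (T : Q → Q → ℝ), Col T →
    ∃ (a : Fin n) (l : Fin (Θ a).M → ℝ) (e : Fin (Θ a).M → Q → ℝ),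
      XFrame (Θ a).l0 (Θ a).g T l e ∧
      (Θ a).β ≤ avg (fun p => (Θ a).W.ev (row T l e p)) ∧
      avg (fun p => (Θ a).W.ev (row T l e p) * ∑ i, (l i * e i p - (Θ a).c i) ^ 2) ≤
        ζ * avg (fun p => (Θ a).W.ev (row T l e p)) := by
  classical
  obtain ⟨S, hS⟩ := exists_nat_gt (4 / ζ)
  let E := Fintype.equivFin (Idx ζ S)
  refine ⟨dgr ζ S, Fintype.card (Idx ζ S), fun a => prm ζ S (E.symm a),
    fun a => prm_ok hζ S _, ?_⟩
  intro Q _ _ T hT
  suffices H : ∃ (a : Idx ζ S) (l : Fin (prm ζ S a).M → ℝ) (e : Fin (prm ζ S a).M → Q → ℝ),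
      XFrame (prm ζ S a).l0 (prm ζ S a).g T l e ∧
      (prm ζ S a).β ≤ avg (fun p => (prm ζ S a).W.ev (row T l e p)) ∧
      avg (fun p => (prm ζ S a).W.ev (row T l e p) * ∑ i, (l i * e i p - (prm ζ S a).c i) ^ 2) ≤
        ζ * avg (fun p => (prm ζ S a).W.ev (row T l e p)) by
    obtain ⟨a, ha⟩ := H
    refine ⟨E a, ?_⟩
    have h1 : E.symm (E a) = a := E.symm_apply_apply a
    beta_reduce
    rw [h1]
    exact ha
  obtain ⟨lam, v, hv, he, hf⟩ := P6.spectral T hT.symm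
  have hlam := sum_lam_sq_le hT.nonneg hT.le_one hv he hf
  have hrow := row_le_one hT.nonneg hT.le_one hv he hf
  obtain ⟨j, hj⟩ := P6.popular hζ hS hlam
  set L := scl ζ ((j : ℕ) + 1) with hLdef
  set L' := scl ζ (j : ℕ) with hLdef'
  have hLj : 0 < L' := scl_pos hζ (j : ℕ)
  have hL : 0 < L := scl_pos hζ ((j : ℕ) + 1)
  obtain ⟨t, ht⟩ := exists_cut hlam hL
  have hg := gp_pos hL
  have hcutL : L < cut L t := by
    unfold cut
    have h1 : (0 : ℝ) ≤ ((t : ℕ) : ℝ) := Nat.cast_nonneg _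
    nlinarith
  have hcutL' : cut L t < L' := by
    have h1 := cut_lt hL t.2
    have h2 := scl_succ_le ζ (j : ℕ)
    rw [← hLdef, ← hLdef'] at h2
    linarith
  -- the two groups of eigenvalues
  set A : Finset Q := Finset.univ.filter fun i => L' < |lam i| with hA
  set B : Finset Q := Finset.univ.filter fun i => cut L t < |lam i| ∧ |lam i| ≤ L' with hB
  have hAc : A.card ≤ cnt L' := card_above hlam hLj A fun i hi => (Finset.mem_filter.1 hi).2
  have hBc : B.card ≤ cnt L := card_above hlam hL B fun i hi =>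
    hcutL.trans (Finset.mem_filter.1 hi).2.1
  let uA : Fin A.card → Q := fun i => (A.equivFin.symm i : Q)
  let uB : Fin B.card → Q := fun i => (B.equivFin.symm i : Q)
  have huA : ∀ i, uA i ∈ A := fun i => (A.equivFin.symm i).2
  have huB : ∀ i, uB i ∈ B := fun i => (B.equivFin.symm i).2
  have huAi : Function.Injective uA := fun a b h => A.equivFin.symm.injective (Subtype.ext h)
  have huBi : Function.Injective uB := fun a b h => B.equivFin.symm.injective (Subtype.ext h)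
  have hAB : ∀ i ∈ A, i ∉ B := by
    intro i hi hi'
    have h1 := (Finset.mem_filter.1 hi).2
    have h2 := (Finset.mem_filter.1 hi').2.2
    linarith
  let u : Fin (A.card + B.card) → Q := Fin.append uA uB
  have hui : Function.Injective u := by
    intro a b
    refine Fin.addCases (fun a' => ?_) (fun a' => ?_) a <;>
      refine Fin.addCases (fun b' => ?_) (fun b' => ?_) b
    · intro h
      simp only [u, Fin.append_left] at h
      rw [huAi h]
    · intro h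
      simp only [u, Fin.append_left, Fin.append_right] at h
      exact absurd (h ▸ huB b') (hAB _ (huA a'))
    · intro h
      simp only [u, Fin.append_left, Fin.append_right] at h
      exact absurd (h ▸ huB a') (hAB _ (huA b'))
    · intro h
      simp only [u, Fin.append_right] at h
      rw [huBi h]
  have hrange : ∀ q, cut L t < |lam q| → q ∈ Set.range u := by
    intro q hq
    by_cases hq' : L' < |lam q|
    · have hqA : q ∈ A := Finset.mem_filter.2 ⟨Finset.mem_univ _, hq'⟩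
      refine ⟨Fin.castAdd _ (A.equivFin ⟨q, hqA⟩), ?_⟩
      simp [u, uA]
    · have hqB : q ∈ B := Finset.mem_filter.2 ⟨Finset.mem_univ _, hq, not_lt.1 hq'⟩
      refine ⟨Fin.natAdd _ (B.equivFin ⟨q, hqB⟩), ?_⟩
      simp [u, uB]
  have hbig : ∀ i, cut L t < |lam (u i)| := by
    intro i
    refine Fin.addCases (fun i' => ?_) (fun i' => ?_) i
    · simp only [u, Fin.append_left]
      exact hcutL'.trans (Finset.mem_filter.1 (huA i')).2
    · simp only [u, Fin.append_right]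
      exact (Finset.mem_filter.1 (huB i')).2.1
  have hXF : XFrame (cut L t) (gp L) T (fun i => lam (u i)) (fun i => v (u i)) := by
    refine xframe_of hT.nonneg hT.le_one hv he hf u hui ?_ ?_ ?_
    · have h1 : (0 : ℝ) ≤ ((t : ℕ) : ℝ) := Nat.cast_nonneg _
      unfold cut
      nlinarith
    · intro i
      rcases ht (u i) with h | h
      · have := hbig i
        linarith
      · exact h
    · intro q hq
      rcases ht q with h | h
      · exact h
      · exact absurd (hrange q (by linarith)) hq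
  -- the cell
  have hhh : ∀ (p : Q) (i : Fin (A.card + B.card)), |lam (u i) * v (u i) p| ≤ 2 := by
    intro p i
    have h1 : (lam (u i) * v (u i) p) ^ 2 ≤ 2 ^ 2 := by
      have := Finset.single_le_sum (f := fun i => (lam i * v i p) ^ 2) (fun _ _ => sq_nonneg _)
        (Finset.mem_univ (u i))
      linarith [hrow p]
    exact abs_le.2 (abs_le_of_sq_le_sq' h1 (by norm_num))
  have hav : ∀ q : Q, avg (fun p => (lam q * v q p) ^ 2) = lam q ^ 2 := by
    intro q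
    have h3 : (fun p => (lam q * v q p) ^ 2) = fun p => lam q ^ 2 * (v q p * v q p) := by
      funext p; ring
    rw [h3, avg_mul_left]
    have h4 := hv q q
    unfold ip at h4
    rw [h4]; simp
  have hrest : ∑ i : Fin (A.card + B.card), (if (i : ℕ) < A.card then 0 else
      avg (fun p => (lam (u i) * v (u i) p) ^ 2)) ≤ ζ / 4 := by
    rw [Fin.sum_univ_add]
    have e1 : ∑ i : Fin A.card, (if ((Fin.castAdd B.card i : Fin (A.card + B.card)) : ℕ) < A.card
        then (0 : ℝ) else avg (fun p => (lam (u (Fin.castAdd B.card i)) *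
          v (u (Fin.castAdd B.card i)) p) ^ 2)) = 0 := by
      refine Finset.sum_eq_zero fun i _ => ?_
      rw [if_pos (by simp)]
    rw [e1, zero_add]
    have e2 : ∀ i : Fin B.card, (if ((Fin.natAdd A.card i : Fin (A.card + B.card)) : ℕ) < A.card
        then (0 : ℝ) else avg (fun p => (lam (u (Fin.natAdd A.card i)) *
          v (u (Fin.natAdd A.card i)) p) ^ 2)) = lam (uB i) ^ 2 := by
      intro i
      rw [if_neg (by simp), hav]
      simp only [u, Fin.append_right]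
    rw [Finset.sum_congr rfl fun i _ => e2 i]
    have e3 : ∑ i : Fin B.card, lam (uB i) ^ 2 = ∑ q ∈ B, lam q ^ 2 := by
      rw [← Finset.sum_coe_sort B (fun q => lam q ^ 2)]
      exact Fintype.sum_equiv B.equivFin.symm _ _ fun i => rfl
    rw [e3]
    refine le_trans ?_ hj
    rw [← Finset.sum_filter]
    refine Finset.sum_le_sum_of_subset_of_nonneg ?_ fun _ _ _ => sq_nonneg _
    intro q hq
    have h1 := (Finset.mem_filter.1 hq).2
    exact Finset.mem_filter.2 ⟨Finset.mem_univ _, hcutL.trans h1.1, h1.2⟩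
  have hdeg : 0 < deg ζ L' := Nat.succ_pos _
  obtain ⟨κ, hκ1, hκ2⟩ := Bern.exists_kappa (Nat.le_add_right A.card B.card) hdeg
    (fun p i => lam (u i) * v (u i) p) hhh (α := ζ / 4) (by positivity) hrest
  let M0' : Fin (cnt L' + 1) := ⟨A.card, Nat.lt_succ_of_le hAc⟩
  let M1' : Fin (cnt L + 1) := ⟨B.card, Nat.lt_succ_of_le hBc⟩
  refine ⟨⟨j, t, M1', M0', κ⟩, fun i => lam (u i), fun i => v (u i), hXF, ?_, ?_⟩
  · change mass ζ L' ≤ avg (fun p => (wtOf ζ S j M0' (M1' : ℕ) κ).ev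
      (row T (fun i => lam (u i)) (fun i => v (u i)) p))
    have e1 : ∀ p, (wtOf ζ S j M0' (M1' : ℕ) κ).ev
        (row T (fun i => lam (u i)) (fun i => v (u i)) p) =
        Bern.chi (Nat.le_add_right A.card B.card) (deg ζ L') κ
          (fun i => lam (u i) * v (u i) p) := fun p => wtOf_ev ζ S j M0' (M1' : ℕ) κ _ rfl
    simp only [e1]
    refine le_trans ?_ hκ1
    unfold mass
    have h1 : (1 : ℝ) ≤ (deg ζ L' : ℝ) + 1 := by
      have : (0 : ℝ) ≤ deg ζ L' := Nat.cast_nonneg _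
      linarith
    have h2 : ((deg ζ L' : ℝ) + 1) ^ A.card ≤ ((deg ζ L' : ℝ) + 1) ^ cnt L' :=
      pow_le_pow_right₀ h1 hAc
    exact one_div_le_one_div_of_le (by positivity) (by linarith)
  · change avg (fun p => (wtOf ζ S j M0' (M1' : ℕ) κ).ev
      (row T (fun i => lam (u i)) (fun i => v (u i)) p) *
        ∑ i, (lam (u i) * v (u i) p - Bern.h0 (A.card + B.card) (deg ζ L') κ i) ^ 2) ≤
      ζ * avg (fun p => (wtOf ζ S j M0' (M1' : ℕ) κ).ev
      (row T (fun i => lam (u i)) (fun i => v (u i)) p))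
    have e1 : ∀ p, (wtOf ζ S j M0' (M1' : ℕ) κ).ev
        (row T (fun i => lam (u i)) (fun i => v (u i)) p) =
        Bern.chi (Nat.le_add_right A.card B.card) (deg ζ L') κ
          (fun i => lam (u i) * v (u i) p) := fun p => wtOf_ev ζ S j M0' (M1' : ℕ) κ _ rfl
    simp only [e1]
    have h1 : 2 * (4 * (A.card : ℝ) / (deg ζ L' : ℝ) + ζ / 4) ≤ ζ := by
      have h2 : (0 : ℝ) < deg ζ L' := by exact_mod_cast hdeg
      have h3 : 4 * (A.card : ℝ) / (deg ζ L' : ℝ) ≤ ζ / 4 := by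
        rw [div_le_iff₀ h2]
        have h4 : 16 * (cnt L' : ℝ) / ζ ≤ (deg ζ L' : ℝ) := by
          unfold deg
          push_cast
          have := Nat.le_ceil (16 * (cnt L' : ℝ) / ζ)
          linarith
        rw [div_le_iff₀ hζ] at h4
        have h5 : (A.card : ℝ) ≤ cnt L' := by exact_mod_cast hAc
        nlinarith
      linarith
    have h2 : 0 ≤ avg (fun p => Bern.chi (Nat.le_add_right A.card B.card) (deg ζ L') κ
          (fun i => lam (u i) * v (u i) p)) := avg_nonneg fun p => Bern.chi_nonneg _ _ (hhh p)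
    exact hκ2.trans (mul_le_mul_of_nonneg_right h1 h2)

end Pool.Agent.SRL.Fr
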