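import Pool.Agent.SRL.FBasic

/-! Block F, row F6d, part 1: the spectral theorem for a symmetric kernel. -/

set_option autoImplicit false

namespace Pool.Agent.SRL.Fr.P6

open Finset

section spec

variable {Q : Type} [Fintype Q] [Nonempty Q]

/-- Spectral theorem for symmetric kernels. -/
theorem spectral [DecidableEq Q] (T : Q → Q → ℝ) (hT : ∀ p q, T p q = T q p) :
    ∃ (lam : Q → ℝ) (v : Q → Q → ℝ), (∀ i j, ip (v i) (v j) = if i = j then 1 else 0) ∧
      (∀ i, op T (v i) = lam i • v i) ∧ (∀ f : Q → ℝ, f = ∑ i, ip (v i) f • v i) := by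
  set N : ℝ := (Fintype.card Q : ℝ) with hN
  have hN0 : 0 < N := by rw [hN]; exact_mod_cast Fintype.card_pos
  set A : Matrix Q Q ℝ := Matrix.of fun p q => T p q / N with hA
  have hAh : A.IsHermitian := by
    rw [Matrix.IsHermitian]
    ext p q
    simp [hA, hT p q]
  set U : Matrix Q Q ℝ := (hAh.eigenvectorUnitary : Matrix Q Q ℝ) with hU
  have hmem := (hAh.eigenvectorUnitary).2
  have hU1 : U * U.transpose = 1 := by
    have := (Matrix.mem_unitaryGroup_iff).1 hmem
    rwa [Matrix.star_eq_conjTranspose, Matrix.conjTranspose_eq_transpose_of_trivial] at this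
  have hU2 : U.transpose * U = 1 := by
    have := (Matrix.mem_unitaryGroup_iff').1 hmem
    rwa [Matrix.star_eq_conjTranspose, Matrix.conjTranspose_eq_transpose_of_trivial] at this
  have hs : Real.sqrt N * Real.sqrt N = N := Real.mul_self_sqrt hN0.le
  refine ⟨hAh.eigenvalues, fun i p => Real.sqrt N * U p i, ?_, ?_, ?_⟩
  · intro i j
    have h1 := congrFun (congrFun hU2 i) j
    rw [Matrix.mul_apply, Matrix.one_apply] at h1
    simp only [Matrix.transpose_apply] at h1
    rw [← h1]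
    unfold ip avg
    rw [div_eq_iff (by rw [← hN]; exact hN0.ne'), ← hN, Finset.sum_mul]
    refine Finset.sum_congr rfl fun p _ => ?_
    linear_combination (U p i * U p j) * hs
  · intro i
    funext p
    have h1 := congrFun (hAh.mulVec_eigenvectorBasis i) p
    rw [Matrix.mulVec, dotProduct] at h1
    have h2 : ∀ q, (hAh.eigenvectorBasis i).ofLp q = U q i := fun q => rfl
    simp only [h2, Pi.smul_apply, smul_eq_mul, hA, Matrix.of_apply] at h1
    unfold op avg
    rw [Pi.smul_apply, smul_eq_mul]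
    have h3 : hAh.eigenvalues i * (Real.sqrt N * U p i) =
        Real.sqrt N * (hAh.eigenvalues i * U p i) := by ring
    rw [h3, ← h1, ← hN, Finset.sum_div, Finset.mul_sum]
    refine Finset.sum_congr rfl fun q _ => ?_
    ring
  · intro f
    funext p
    have h1 : ∀ q, ∑ i, U q i * U p i = if q = p then 1 else 0 := by
      intro q
      have h2 := congrFun (congrFun hU1 q) p
      rw [Matrix.mul_apply, Matrix.one_apply] at h2
      simpa only [Matrix.transpose_apply] using h2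
    rw [Finset.sum_apply]
    simp only [Pi.smul_apply, smul_eq_mul]
    have h3 : ∀ i, ip (fun p => Real.sqrt N * U p i) f * (Real.sqrt N * U p i) =
        ∑ q, f q * (U q i * U p i) := by
      intro i
      unfold ip avg
      rw [← hN, Finset.sum_div, Finset.sum_mul]
      refine Finset.sum_congr rfl fun q _ => ?_
      have : Real.sqrt N * U q i * f q / N * (Real.sqrt N * U p i) =
          (Real.sqrt N * Real.sqrt N) / N * (f q * (U q i * U p i)) := by ring
      rw [this, hs, div_self hN0.ne', one_mul]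
    simp only [h3]
    rw [Finset.sum_comm]
    simp only [← Finset.mul_sum, h1]
    simp

/-- Orthonormal expansions. -/
theorem ip_expand [DecidableEq Q] {v : Q → Q → ℝ}
    (hv : ∀ i j, ip (v i) (v j) = if i = j then 1 else 0)
    (s : Finset Q) (a : Q → ℝ) :
    nrm (∑ i ∈ s, a i • v i) ^ 2 = ∑ i ∈ s, a i ^ 2 := by
  rw [nrm_sq, ip_sum_left]
  refine Finset.sum_congr rfl fun i hi => ?_
  rw [ip_sum_right, Finset.sum_eq_single i]
  · rw [ip_smul_left, ip_smul_right, hv]
    simp [sq]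
  · intro j _ hj
    rw [ip_smul_left, ip_smul_right, hv]
    simp [hj.symm]
  · intro h
    exact absurd hi h

theorem parseval [DecidableEq Q] {v : Q → Q → ℝ}
    (hv : ∀ i j, ip (v i) (v j) = if i = j then 1 else 0)
    (hf : ∀ f : Q → ℝ, f = ∑ i, ip (v i) f • v i) (f : Q → ℝ) :
    nrm f ^ 2 = ∑ i, ip (v i) f ^ 2 := by
  conv_lhs => rw [hf f]
  exact ip_expand hv Finset.univ _

/-- The rows: `∑ i, (lam i * v i p) ^ 2 ≤ 1`. -/
theorem row_le_one [DecidableEq Q] {T : Q → Q → ℝ} (h0 : ∀ p q, 0 ≤ T p q)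
    (h1 : ∀ p q, T p q ≤ 1) {lam : Q → ℝ} {v : Q → Q → ℝ}
    (hv : ∀ i j, ip (v i) (v j) = if i = j then 1 else 0)
    (he : ∀ i, op T (v i) = lam i • v i) (hf : ∀ f : Q → ℝ, f = ∑ i, ip (v i) f • v i) (p : Q) :
    ∑ i, (lam i * v i p) ^ 2 ≤ 1 := by
  have h2 : ∀ i, lam i * v i p = ip (v i) (T p) := by
    intro i
    have h3 := congrFun (he i) p
    rw [Pi.smul_apply, smul_eq_mul] at h3
    rw [← h3]
    unfold op ip
    congr 1
    funext q
    ring
  simp only [h2]
  rw [← parseval hv hf (T p)]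
  have h4 : nrm (T p) ≤ 1 := nrm_le_of_abs_le fun q => by
    rw [abs_of_nonneg (h0 p q)]; exact h1 p q
  have h5 := nrm_nonneg (T p)
  nlinarith

theorem sum_lam_sq_le [DecidableEq Q] {T : Q → Q → ℝ} (h0 : ∀ p q, 0 ≤ T p q)
    (h1 : ∀ p q, T p q ≤ 1) {lam : Q → ℝ} {v : Q → Q → ℝ}
    (hv : ∀ i j, ip (v i) (v j) = if i = j then 1 else 0)
    (he : ∀ i, op T (v i) = lam i • v i) (hf : ∀ f : Q → ℝ, f = ∑ i, ip (v i) f • v i) :
    ∑ i, lam i ^ 2 ≤ 1 := by
  have h2 : ∀ i, avg (fun p => (lam i * v i p) ^ 2) = lam i ^ 2 := by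
    intro i
    have h3 : (fun p => (lam i * v i p) ^ 2) = fun p => lam i ^ 2 * (v i p * v i p) := by
      funext p; ring
    rw [h3, avg_mul_left]
    have h4 := hv i i
    unfold ip at h4
    rw [h4]; simp
  calc ∑ i, lam i ^ 2 = ∑ i, avg (fun p => (lam i * v i p) ^ 2) :=
        Finset.sum_congr rfl fun i _ => (h2 i).symm
    _ = avg (fun p => ∑ i, (lam i * v i p) ^ 2) := (avg_sum _ _).symm
    _ ≤ avg (fun _ : Q => (1 : ℝ)) := avg_mono fun p => row_le_one h0 h1 hv he hf p
    _ = 1 := avg_const 1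

/-- Residual of the truncated expansion. -/
theorem residual [DecidableEq Q] {T : Q → Q → ℝ} {lam : Q → ℝ} {v : Q → Q → ℝ}
    (hv : ∀ i j, ip (v i) (v j) = if i = j then 1 else 0)
    (he : ∀ i, op T (v i) = lam i • v i) (hf : ∀ f : Q → ℝ, f = ∑ i, ip (v i) f • v i)
    (s : Finset Q) {c : ℝ} (hc : 0 ≤ c) (hs : ∀ i, i ∉ s → |lam i| ≤ c) (f : Q → ℝ) :
    nrm (op T f - ∑ i ∈ s, (lam i * ip (v i) f) • v i) ≤ c * nrm f := by
  have h1 : op T f = ∑ i, (lam i * ip (v i) f) • v i := by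
    conv_lhs => rw [hf f, op_sum]
    refine Finset.sum_congr rfl fun i _ => ?_
    rw [op_smul, he, smul_smul, mul_comm]
  have h2 : op T f - ∑ i ∈ s, (lam i * ip (v i) f) • v i =
      ∑ i ∈ sᶜ, (lam i * ip (v i) f) • v i := by
    rw [h1, ← Finset.sum_add_sum_compl s, add_sub_cancel_left]
  rw [h2]
  have h3 := ip_expand hv sᶜ (fun i => lam i * ip (v i) f)
  have h4 : ∑ i ∈ sᶜ, (lam i * ip (v i) f) ^ 2 ≤ c ^ 2 * nrm f ^ 2 := by
    rw [parseval hv hf f, Finset.mul_sum]
    refine (Finset.sum_le_sum (g := fun i => c ^ 2 * ip (v i) f ^ 2) fun i hi => ?_).trans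
      (Finset.sum_le_univ_sum_of_nonneg fun i => by positivity)
    rw [mul_pow]
    refine mul_le_mul_of_nonneg_right ?_ (sq_nonneg _)
    have h5 := hs i (Finset.mem_compl.1 hi)
    rw [← sq_abs (lam i)]
    exact pow_le_pow_left₀ (abs_nonneg _) h5 2
  have h6 : nrm (∑ i ∈ sᶜ, (lam i * ip (v i) f) • v i) ^ 2 ≤ (c * nrm f) ^ 2 := by
    rw [h3, mul_pow]; exact h4
  exact abs_le_of_sq_le_sq' h6 (mul_nonneg hc (nrm_nonneg f)) |>.2

end spec

end Pool.Agent.SRL.Fr.P6
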