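import Pool.Agent.SRL.FBasic

/-!
Block F: pigeonhole (row F10b).
-/

set_option autoImplicit false

namespace Pool.Agent.SRL

open Finset

namespace Fr

theorem prob_eq_sum {Ω : Type} [Fintype Ω] (s : Set Ω) :
    open Classical in prob s = ∑ ω, (if ω ∈ s then (1 : ℝ) else 0) / Fintype.card Ω := by
  classical
  unfold prob avg
  rw [sum_div]

/-- one of finitely many pieces is large -/
theorem pigeon {Ω T : Type} [Fintype Ω] [Fintype T] (G0 : Set Ω) (τ : Ω → T) (hT : 0 < Fintype.card T) :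
    ∃ t, prob G0 ≤ Fintype.card T * prob {ω | ω ∈ G0 ∧ τ ω = t} := by
  classical
  by_contra h
  push Not at h
  have h1 : ∑ t, (Fintype.card T * prob {ω | ω ∈ G0 ∧ τ ω = t}) < ∑ _t : T, prob G0 := by
    refine sum_lt_sum_of_nonempty ?_ fun t _ => h t
    rw [← card_pos]
    exact hT
  rw [sum_const, card_univ, nsmul_eq_mul, ← mul_sum] at h1
  have h2 : ∑ t, prob {ω | ω ∈ G0 ∧ τ ω = t} = prob G0 := by
    simp only [prob_eq_sum]
    rw [sum_comm]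
    refine sum_congr rfl fun ω _ => ?_
    rw [← sum_div]
    congr 1
    by_cases hω : ω ∈ G0
    · simp [hω]
    · simp [hω]
  rw [h2] at h1
  exact lt_irrefl _ h1

theorem popular (ι : Type) [Fintype ι] (r : ℝ) (hr : 0 < r) : ∃ N : ℕ, 0 < N ∧
    ∀ {Ω : Type} [Fintype Ω] (G0 : Set Ω) (x : Ω → ι → ℝ), (∀ ω ∈ G0, ∀ i, |x ω i| ≤ 1) →
      ∃ G1 ⊆ G0, prob G0 ≤ N * prob G1 ∧
        ∀ ω ∈ G1, ∀ ω' ∈ G1, ∀ i, |x ω i - x ω' i| ≤ r := by
  classical
  let m : ℕ := ⌊2 / r⌋₊ + 1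
  refine ⟨Fintype.card (ι → Fin m), Fintype.card_pos_iff.2 ⟨fun _ => ⟨0, Nat.succ_pos _⟩⟩, ?_⟩
  intro Ω _ G0 x hx
  let τ : Ω → ι → Fin m := fun ω i =>
    if h : ⌊(x ω i + 1) / r⌋₊ < m then ⟨⌊(x ω i + 1) / r⌋₊, h⟩ else ⟨0, Nat.succ_pos _⟩
  obtain ⟨t, ht⟩ := pigeon G0 τ (Fintype.card_pos_iff.2 ⟨fun _ => ⟨0, Nat.succ_pos _⟩⟩)
  refine ⟨{ω | ω ∈ G0 ∧ τ ω = t}, fun ω h => h.1, ht, ?_⟩
  intro ω hω ω' hω' i
  have hv : ∀ ω ∈ G0, ((τ ω i : Fin m) : ℕ) = ⌊(x ω i + 1) / r⌋₊ := by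
    intro ω hω
    have h1 : ⌊(x ω i + 1) / r⌋₊ < m := by
      refine Nat.lt_succ_of_le (Nat.floor_le_floor ?_)
      have := (abs_le.1 (hx ω hω i)).2
      exact div_le_div_of_nonneg_right (by linarith) hr.le
    simp only [τ, dif_pos h1]
  have h2 : ⌊(x ω i + 1) / r⌋₊ = ⌊(x ω' i + 1) / r⌋₊ := by
    rw [← hv ω hω.1, ← hv ω' hω'.1, hω.2, hω'.2]
  have p1 : 0 ≤ (x ω i + 1) / r := by
    have := (abs_le.1 (hx ω hω.1 i)).1
    exact div_nonneg (by linarith) hr.le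
  have p2 : 0 ≤ (x ω' i + 1) / r := by
    have := (abs_le.1 (hx ω' hω'.1 i)).1
    exact div_nonneg (by linarith) hr.le
  have a1 := Nat.floor_le p1
  have a2 := Nat.lt_floor_add_one ((x ω i + 1) / r)
  have b1 := Nat.floor_le p2
  have b2 := Nat.lt_floor_add_one ((x ω' i + 1) / r)
  rw [h2] at a1 a2
  have c1 : |(x ω i + 1) / r - (x ω' i + 1) / r| ≤ 1 := by
    rw [abs_le]
    constructor <;> linarith
  rw [← sub_div, abs_div, abs_of_pos hr, div_le_one hr] at c1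
  have e : x ω i + 1 - (x ω' i + 1) = x ω i - x ω' i := by ring
  rwa [e] at c1

/-- finitely many sets: one of them is large -/
theorem popular' {Ω : Type} [Fintype Ω] [Nonempty Ω] {n : ℕ} (G : Fin n → Set Ω)
    (h : ∀ ω, ∃ a, ω ∈ G a) : ∃ a, 1 ≤ n * prob (G a) := by
  classical
  choose τ hτ using h
  obtain ⟨ω0⟩ := (inferInstance : Nonempty Ω)
  have hn : 0 < Fintype.card (Fin n) := Fintype.card_pos_iff.2 ⟨τ ω0⟩
  obtain ⟨a, ha⟩ := pigeon (Set.univ : Set Ω) τ hn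
  refine ⟨a, ?_⟩
  have h1 : prob (Set.univ : Set Ω) = 1 := by
    unfold prob
    simp only [Set.mem_univ, if_true]
    exact avg_const 1
  have h2 : prob {ω | ω ∈ (Set.univ : Set Ω) ∧ τ ω = a} ≤ prob (G a) := by
    unfold prob
    refine avg_mono fun ω => ?_
    by_cases hω : τ ω = a
    · have : ω ∈ G a := hω ▸ hτ ω
      simp [hω, this]
    · simp only [Set.mem_univ, true_and, Set.mem_ofPred_eq, hω, if_false]
      split_ifs <;> norm_num
  rw [h1, Fintype.card_fin] at ha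
  exact ha.trans (mul_le_mul_of_nonneg_left h2 (Nat.cast_nonneg _))

end Fr

end Pool.Agent.SRL
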