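import Pool.Agent.SRL.FBasic

/-!
Row F2r of the linear size-Ramsey project: the residual estimate for transported frames.
-/

set_option autoImplicit false

namespace Pool.Agent.SRL

open Finset

namespace Fr

namespace F2r

/-- `y ^ 2 ≤ a ^ 2 F ^ 2 y + t F ^ 4` gives `y ≤ (a ^ 2 + t / a ^ 2) F ^ 2` -/
theorem quad {a F y t : ℝ} (ha : 0 < a) (ht : 0 ≤ t)
    (h : y ^ 2 ≤ a ^ 2 * F ^ 2 * y + t * F ^ 4) : y ≤ (a ^ 2 + t / a ^ 2) * F ^ 2 := by
  by_contra hn
  push Not at hn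
  have h1 : 0 ≤ t / a ^ 2 * F ^ 2 := by positivity
  have h0 : 0 ≤ a ^ 2 * F ^ 2 := by positivity
  have h2 : t / a ^ 2 * F ^ 2 < y - a ^ 2 * F ^ 2 := by linarith [add_mul (a ^ 2) (t / a ^ 2) (F ^ 2)]
  have h3 : a ^ 2 * F ^ 2 < y := by linarith
  have h4 : (a ^ 2 * F ^ 2) * (t / a ^ 2 * F ^ 2) < y * (y - a ^ 2 * F ^ 2) :=
    mul_lt_mul'' h3 h2 h0 h1
  have h5 : (a ^ 2 * F ^ 2) * (t / a ^ 2 * F ^ 2) = t * F ^ 4 := by
    field_simp
  nlinarith

section

variable {Q : Type} [Fintype Q]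

theorem op_le {T : Q → Q → ℝ} (hT : hs T ≤ 1) (f : Q → ℝ) : nrm (op T f) ≤ nrm f := by
  have := nrm_op_le T f
  nlinarith [nrm_nonneg f]

theorem comp_close {T S T' S' : Q → Q → ℝ} {s : ℝ}
    (h : hs (comp T S - comp T' S') ≤ s) (f : Q → ℝ) :
    nrm (op T (op S f) - op T' (op S' f)) ≤ s * nrm f := by
  rw [← op_comp, ← op_comp, ← op_sub_left]
  have := nrm_op_le (comp T S - comp T' S') f
  nlinarith [nrm_nonneg f]

/-- the abstract estimate -/
theorem core {M : ℕ} {l0 g s : ℝ} (hg : 0 < g) (hl0 : g < l0) (hs0 : 0 ≤ s) (hs1 : s ≤ 1)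
    {Tb Tc A B : Q → Q → ℝ} (nb : hs Tb ≤ 1) (nc : hs Tc ≤ 1) (nA : hs A ≤ 1) (nB : hs B ≤ 1)
    (sb : ∀ f h, ip f (op Tb h) = ip (op Tb f) h) (sc : ∀ f h, ip f (op Tc h) = ip (op Tc f) h)
    (sA : ∀ f h, ip f (op A h) = ip (op B f) h)
    (t1 : ∀ f, nrm (op Tb (op Tb f) - op A (op B f)) ≤ s * nrm f)
    (t2 : ∀ f, nrm (op B (op A f) - op Tc (op Tc f)) ≤ s * nrm f)
    (t3 : ∀ f, nrm (op Tb (op A f) - op A (op Tc f)) ≤ s * nrm f)
    {l : Fin M → ℝ} (hl : ∀ i, l0 + g ≤ |l i| ∧ |l i| ≤ 1) {e : Fin M → Q → ℝ}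
    (orth : ∀ i j, |ip (e i) (e j) - if i = j then 1 else 0| ≤ s)
    (eig : ∀ i, nrm (op Tc (e i) - l i • e i) ≤ s)
    (res : ∀ f : Q → ℝ, nrm (op Tc f - ∑ i, (l i * ip (e i) f) • e i) ≤ (l0 - g + s) * nrm f)
    (f : Q → ℝ) :
    ∃ y : ℝ,
      nrm (op Tb f - ∑ i, (l i * ip ((l i)⁻¹ • op A (e i)) f) • ((l i)⁻¹ • op A (e i))) ^ 2 ≤
        y + s * (1 + 12 * M * (l0 + g)⁻¹ + 4 * M ^ 2 * (1 + (l0 + g)⁻¹ + 8 * (l0 + g)⁻¹ ^ 2)) *
          nrm f ^ 2 ∧
      (0 ≤ y → y ^ 2 ≤ (l0 - g) ^ 2 * nrm f ^ 2 * y + s * (4 * M ^ 2 * (l0 - g) ^ 2 +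
        ((2 * (l0 - g) + 1) * (1 + 4 * M) ^ 2 + 8 * M ^ 2 * (l0 - g + 1) * (1 + 4 * M) +
          16 * M ^ 4 + (1 + 4 * M) ^ 2)) * nrm f ^ 4) := by
  set κ : ℝ := (l0 + g)⁻¹ with hκ
  set a : ℝ := l0 - g with ha
  have ha0 : 0 < a := by rw [ha]; linarith
  have hκ0 : 0 < κ := inv_pos.mpr (by linarith)
  have hli : ∀ i, l i ≠ 0 := fun i h => by
    have := (hl i).1
    rw [h, abs_zero] at this
    linarith
  have hlk : ∀ i, |(l i)⁻¹| ≤ κ := by
    intro i
    rw [abs_inv]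
    exact inv_anti₀ (by linarith) (hl i).1
  set F := nrm f with hF
  have hF0 : 0 ≤ F := nrm_nonneg f
  set gg := op B f with hgg
  have hG : nrm gg ≤ F := op_le nB f
  have hG0 : 0 ≤ nrm gg := nrm_nonneg _
  -- norms of `e i`
  have he : ∀ i, nrm (e i) ≤ 2 := by
    intro i
    have h1 := orth i i
    rw [if_pos rfl] at h1
    have h2 := nrm_sq (e i)
    have h3 := (abs_le.mp h1).2
    nlinarith [nrm_nonneg (e i)]
  have he0 : ∀ i, 0 ≤ nrm (e i) := fun i => nrm_nonneg _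
  set al : Fin M → ℝ := fun i => ip (e i) gg with hal
  have hal2 : ∀ i, |al i| ≤ 2 * F := by
    intro i
    have h1 := abs_ip_le (e i) gg
    have h2 := he i
    calc |al i| ≤ nrm (e i) * nrm gg := h1
      _ ≤ 2 * F := mul_le_mul (he i) hG hG0 (by norm_num)
  set h : Q → ℝ := gg - ∑ i, al i • e i with hh
  -- (1)
  have hb : ∀ i, |ip (e i) h| ≤ 2 * M * s * F := by
    intro i
    have h1 : ip (e i) h = - ∑ j, al j * (ip (e i) (e j) - if i = j then 1 else 0) := by
      rw [hh, ip_sub_right, ip_sum_right]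
      simp only [ip_smul_right, mul_sub, Finset.sum_sub_distrib]
      have : ∑ x, al x * (if i = x then (1 : ℝ) else 0) = al i := by simp
      rw [this]
      show al i - _ = _
      ring
    rw [h1, abs_neg]
    refine (Finset.abs_sum_le_sum_abs _ _).trans ?_
    have h2 : ∀ j ∈ (Finset.univ : Finset (Fin M)),
        |al j * (ip (e i) (e j) - if i = j then 1 else 0)| ≤ 2 * F * s := by
      intro j _
      rw [abs_mul]
      exact mul_le_mul (hal2 j) (orth i j) (abs_nonneg _) (by positivity)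
    refine (Finset.sum_le_sum h2).trans ?_
    rw [Finset.sum_const, Finset.card_univ, Fintype.card_fin, nsmul_eq_mul]
    nlinarith
  set x := nrm h with hx
  have hx0 : 0 ≤ x := nrm_nonneg _
  -- (y)
  have hy : ip gg h = nrm gg ^ 2 - ∑ i, al i ^ 2 := by
    rw [hh, ip_sub_right, ip_sum_right, nrm_sq]
    congr 1
    refine Finset.sum_congr rfl fun i _ => ?_
    rw [ip_smul_right, ip_comm gg (e i), sq]
  -- (2)
  have h2 : x ^ 2 = ip gg h - ∑ i, al i * ip (e i) h := by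
    rw [hx, nrm_sq]
    have : ip h h = ip gg h - ip (∑ i, al i • e i) h := by
      conv_lhs => rw [hh]
      rw [ip_sub_left]
    rw [this, ip_sum_left]
    congr 1
    exact Finset.sum_congr rfl fun i _ => ip_smul_left _ _ _
  have h2' : |∑ i, al i * ip (e i) h| ≤ 4 * M ^ 2 * s * F ^ 2 := by
    refine (Finset.abs_sum_le_sum_abs _ _).trans ?_
    have h3 : ∀ i ∈ (Finset.univ : Finset (Fin M)), |al i * ip (e i) h| ≤
        2 * F * (2 * M * s * F) := by
      intro i _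
      rw [abs_mul]
      exact mul_le_mul (hal2 i) (hb i) (abs_nonneg _) (by positivity)
    refine (Finset.sum_le_sum h3).trans ?_
    rw [Finset.sum_const, Finset.card_univ, Fintype.card_fin, nsmul_eq_mul]
    apply le_of_eq
    ring
  have h2a : x ^ 2 ≤ ip gg h + 4 * M ^ 2 * s * F ^ 2 := by
    have := (abs_le.mp h2').1
    linarith
  -- (3)
  have h3 : x ≤ (1 + 4 * M) * F := by
    have h4 : nrm (∑ i, al i • e i) ≤ 4 * M * F := by
      refine (nrm_sum_le _ _).trans ?_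
      have h5 : ∀ i ∈ (Finset.univ : Finset (Fin M)), nrm (al i • e i) ≤ 2 * F * 2 := by
        intro i _
        rw [nrm_smul]
        exact mul_le_mul (hal2 i) (he i) (he0 i) (by positivity)
      refine (Finset.sum_le_sum h5).trans ?_
      rw [Finset.sum_const, Finset.card_univ, Fintype.card_fin, nsmul_eq_mul]
      apply le_of_eq
      ring
    have h5 : x ≤ nrm gg + nrm (∑ i, al i • e i) := nrm_sub_le _ _
    linarith
  -- (4)
  have h4 : nrm (op Tc h) ≤ (a + s) * x + 4 * M ^ 2 * s * F := by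
    have h5 := res h
    have h6 : nrm (∑ i, (l i * ip (e i) h) • e i) ≤ 4 * M ^ 2 * s * F := by
      refine (nrm_sum_le _ _).trans ?_
      have h7 : ∀ i ∈ (Finset.univ : Finset (Fin M)), nrm ((l i * ip (e i) h) • e i) ≤
          1 * (2 * M * s * F) * 2 := by
        intro i _
        rw [nrm_smul, abs_mul]
        exact mul_le_mul (mul_le_mul (hl i).2 (hb i) (abs_nonneg _) (by norm_num)) (he i) (he0 i)
          (by positivity)
      refine (Finset.sum_le_sum h7).trans ?_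
      rw [Finset.sum_const, Finset.card_univ, Fintype.card_fin, nsmul_eq_mul]
      apply le_of_eq
      ring
    have h8 : nrm (op Tc h) ≤ nrm (op Tc h - ∑ i, (l i * ip (e i) h) • e i) +
        nrm (∑ i, (l i * ip (e i) h) • e i) := by
      have := nrm_add_le (op Tc h - ∑ i, (l i * ip (e i) h) • e i)
        (∑ i, (l i * ip (e i) h) • e i)
      rwa [sub_add_cancel] at this
    linarith
  -- (5)
  have h5 : nrm (op A h) ^ 2 ≤ nrm (op Tc h) ^ 2 + s * x ^ 2 := by
    rw [nrm_sq, nrm_sq, sA, ← sc]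
    have h6 : ip (op B (op A h)) h = ip h (op Tc (op Tc h)) +
        ip (op B (op A h) - op Tc (op Tc h)) h := by
      rw [ip_sub_left (op B (op A h)) (op Tc (op Tc h)) h, ip_comm h (op Tc (op Tc h))]
      ring
    have h7 := abs_ip_le (op B (op A h) - op Tc (op Tc h)) h
    have h8 := t2 h
    have h9 := le_abs_self (ip (op B (op A h) - op Tc (op Tc h)) h)
    rw [h6]
    nlinarith
  -- (6)
  have h6 : ip gg h ≤ F * nrm (op A h) := by
    rw [hgg, ← sA]
    exact (le_abs_self _).trans (abs_ip_le _ _)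
  -- (7)
  set E : Fin M → Q → ℝ := fun i => (l i)⁻¹ • op A (e i) with hE
  have hEf : ∀ i, l i * ip (E i) f = al i := by
    intro i
    show l i * ip ((l i)⁻¹ • op A (e i)) f = ip (e i) gg
    rw [ip_smul_left, ← mul_assoc, mul_inv_cancel₀ (hli i), one_mul, ip_comm, sA, ip_comm]
  have hEn : ∀ i, nrm (E i) ≤ 2 * κ := by
    intro i
    show nrm ((l i)⁻¹ • op A (e i)) ≤ 2 * κ
    rw [nrm_smul]
    have := (op_le nA (e i)).trans (he i)
    calc |(l i)⁻¹| * nrm (op A (e i)) ≤ κ * 2 :=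
          mul_le_mul (hlk i) this (nrm_nonneg _) hκ0.le
      _ = 2 * κ := by ring
  have hTE : ∀ i, nrm (op Tb (E i) - l i • E i) ≤ 3 * κ * s := by
    intro i
    have e1 : op Tb (E i) - l i • E i = (l i)⁻¹ • ((op Tb (op A (e i)) - op A (op Tc (e i))) +
        op A (op Tc (e i) - l i • e i)) := by
      show op Tb ((l i)⁻¹ • op A (e i)) - l i • ((l i)⁻¹ • op A (e i)) = _
      rw [op_smul, op_sub, op_smul, smul_smul, mul_inv_cancel₀ (hli i), one_smul, sub_add_sub_cancel,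
        smul_sub, smul_smul, inv_mul_cancel₀ (hli i), one_smul]
    rw [e1, nrm_smul]
    have e2 : nrm ((op Tb (op A (e i)) - op A (op Tc (e i))) +
        op A (op Tc (e i) - l i • e i)) ≤ 3 * s := by
      refine (nrm_add_le _ _).trans ?_
      have e3 := t3 (e i)
      have e4 := (op_le nA (op Tc (e i) - l i • e i)).trans (eig i)
      nlinarith [he i]
    calc |(l i)⁻¹| * nrm ((op Tb (op A (e i)) - op A (op Tc (e i))) +
          op A (op Tc (e i) - l i • e i)) ≤ κ * (3 * s) :=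
          mul_le_mul (hlk i) e2 (nrm_nonneg _) hκ0.le
      _ = 3 * κ * s := by ring
  have hEE : ∀ i j, |ip (E i) (E j) - if i = j then 1 else 0| ≤ (1 + κ + 8 * κ ^ 2) * s := by
    intro i j
    have e1 : ip (op A (e i)) (op A (e j)) = l j ^ 2 * ip (e i) (e j) +
        (ip (e i) (op B (op A (e j)) - op Tc (op Tc (e j))) +
          ip (e i) (op Tc (op Tc (e j) - l j • e j)) + l j * ip (e i) (op Tc (e j) - l j • e j)) := by
      rw [ip_comm, sA, ip_comm]
      simp only [ip_sub_right, op_sub, op_smul, ip_smul_right]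
      ring
    have e2 : |ip (e i) (op B (op A (e j)) - op Tc (op Tc (e j)))| ≤ 4 * s := by
      refine (abs_ip_le _ _).trans ?_
      have := t2 (e j)
      calc nrm (e i) * nrm (op B (op A (e j)) - op Tc (op Tc (e j))) ≤ 2 * (s * 2) :=
            mul_le_mul (he i) (this.trans (mul_le_mul_of_nonneg_left (he j) hs0)) (nrm_nonneg _)
              (by norm_num)
        _ = 4 * s := by ring
    have e3 : |ip (e i) (op Tc (op Tc (e j) - l j • e j))| ≤ 2 * s := by
      refine (abs_ip_le _ _).trans ?_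
      exact mul_le_mul (he i) ((op_le nc _).trans (eig j)) (nrm_nonneg _) (by norm_num)
    have e4 : |l j * ip (e i) (op Tc (e j) - l j • e j)| ≤ 2 * s := by
      rw [abs_mul]
      have : |ip (e i) (op Tc (e j) - l j • e j)| ≤ 2 * s :=
        (abs_ip_le _ _).trans (mul_le_mul (he i) (eig j) (nrm_nonneg _) (by norm_num))
      calc |l j| * |ip (e i) (op Tc (e j) - l j • e j)| ≤ 1 * (2 * s) :=
            mul_le_mul (hl j).2 this (abs_nonneg _) (by norm_num)
        _ = 2 * s := by ring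
    set r : ℝ := ip (e i) (op B (op A (e j)) - op Tc (op Tc (e j))) +
          ip (e i) (op Tc (op Tc (e j) - l j • e j)) + l j * ip (e i) (op Tc (e j) - l j • e j)
      with hr
    have e5 : |r| ≤ 8 * s := by
      have := abs_add_three (ip (e i) (op B (op A (e j)) - op Tc (op Tc (e j))))
        (ip (e i) (op Tc (op Tc (e j) - l j • e j))) (l j * ip (e i) (op Tc (e j) - l j • e j))
      linarith
    have e6 : ip (E i) (E j) - (if i = j then 1 else 0) =
        ((l i)⁻¹ * l j * ip (e i) (e j) - if i = j then 1 else 0) + (l i)⁻¹ * (l j)⁻¹ * r := by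
      show ip ((l i)⁻¹ • op A (e i)) ((l j)⁻¹ • op A (e j)) - _ = _
      rw [ip_smul_left, ip_smul_right, e1]
      have := hli j
      field_simp
      ring
    have e7 : |(l i)⁻¹ * l j * ip (e i) (e j) - if i = j then 1 else 0| ≤ (1 + κ) * s := by
      have e8 := orth i j
      by_cases hij : i = j
      · subst hij
        rw [if_pos rfl] at e8 ⊢
        rw [inv_mul_cancel₀ (hli i), one_mul]
        nlinarith
      · rw [if_neg hij] at e8 ⊢
        rw [sub_zero] at e8 ⊢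
        rw [abs_mul, abs_mul]
        have e9 : |(l i)⁻¹| * |l j| ≤ κ * 1 := mul_le_mul (hlk i) (hl j).2 (abs_nonneg _) hκ0.le
        calc |(l i)⁻¹| * |l j| * |ip (e i) (e j)| ≤ (κ * 1) * s :=
              mul_le_mul e9 e8 (abs_nonneg _) (by positivity)
          _ ≤ (1 + κ) * s := by nlinarith
    have e8 : |(l i)⁻¹ * (l j)⁻¹ * r| ≤ κ ^ 2 * (8 * s) := by
      rw [abs_mul, abs_mul, sq]
      exact mul_le_mul (mul_le_mul (hlk i) (hlk j) (abs_nonneg _) hκ0.le) e5 (abs_nonneg _)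
        (by positivity)
    rw [e6]
    refine (abs_add_le _ _).trans ?_
    nlinarith
  have hTf : ∀ i, |ip (op Tb f) (E i) - al i| ≤ 3 * κ * s * F := by
    intro i
    have e1 : ip (op Tb f) (E i) - al i = ip f (op Tb (E i) - l i • E i) := by
      rw [← sb, ip_sub_right, ip_smul_right, ip_comm f (E i), hEf]
    rw [e1]
    refine (abs_ip_le _ _).trans ?_
    calc F * nrm (op Tb (E i) - l i • E i) ≤ F * (3 * κ * s) :=
          mul_le_mul_of_nonneg_left (hTE i) hF0
      _ = 3 * κ * s * F := by ring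
  have hTT : nrm (op Tb f) ^ 2 ≤ nrm gg ^ 2 + s * F ^ 2 := by
    rw [nrm_sq, nrm_sq, ← sb]
    have e1 : ip f (op Tb (op Tb f)) = ip gg gg + ip f (op Tb (op Tb f) - op A (op B f)) := by
      rw [ip_sub_right, sA f (op B f)]
      ring
    have e2 := (le_abs_self _).trans (abs_ip_le f (op Tb (op Tb f) - op A (op B f)))
    have e3 := t1 f
    rw [e1]
    nlinarith
  have h7 : nrm (op Tb f - ∑ i, al i • E i) ^ 2 ≤ ip gg h +
      s * (1 + 12 * M * κ + 4 * M ^ 2 * (1 + κ + 8 * κ ^ 2)) * F ^ 2 := by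
    have e1 : nrm (op Tb f - ∑ i, al i • E i) ^ 2 = nrm (op Tb f) ^ 2 - ∑ i, al i ^ 2 -
        2 * ∑ i, al i * (ip (op Tb f) (E i) - al i) +
        ∑ i, ∑ j, al i * al j * (ip (E i) (E j) - if i = j then 1 else 0) := by
      have e2 : ∑ i, ∑ j, al i * al j * (ip (E i) (E j) - if i = j then 1 else 0) =
          ∑ i, ∑ j, al i * al j * ip (E i) (E j) - ∑ i, al i ^ 2 := by
        rw [← Finset.sum_sub_distrib]
        refine Finset.sum_congr rfl fun i _ => ?_
        simp only [mul_sub, Finset.sum_sub_distrib]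
        congr 1
        simp [sq]
      have e3 : ∑ i, al i * (ip (op Tb f) (E i) - al i) =
          ∑ i, al i * ip (op Tb f) (E i) - ∑ i, al i ^ 2 := by
        rw [← Finset.sum_sub_distrib]
        exact Finset.sum_congr rfl fun i _ => by ring
      rw [e2, e3, nrm_sq, nrm_sq, ip_sub_left, ip_sub_right, ip_sub_right, ip_sum_right, ip_sum_left,
        ip_sum_left]
      have e4 : ∑ i, ip (op Tb f) (al i • E i) = ∑ i, al i * ip (op Tb f) (E i) :=
        Finset.sum_congr rfl fun i _ => ip_smul_right _ _ _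
      have e5 : ∑ i, ip (al i • E i) (op Tb f) = ∑ i, al i * ip (op Tb f) (E i) :=
        Finset.sum_congr rfl fun i _ => by rw [ip_smul_left, ip_comm]
      have e6 : ∑ i, ip (al i • E i) (∑ j, al j • E j) =
          ∑ i, ∑ j, al i * al j * ip (E i) (E j) := by
        refine Finset.sum_congr rfl fun i _ => ?_
        rw [ip_sum_right]
        exact Finset.sum_congr rfl fun j _ => by rw [ip_smul_left, ip_smul_right]; ring
      rw [e4, e5, e6]
      ring
    have e2 : |∑ i, al i * (ip (op Tb f) (E i) - al i)| ≤ 6 * M * κ * s * F ^ 2 := by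
      refine (Finset.abs_sum_le_sum_abs _ _).trans ?_
      have e3 : ∀ i ∈ (Finset.univ : Finset (Fin M)), |al i * (ip (op Tb f) (E i) - al i)| ≤
          2 * F * (3 * κ * s * F) := by
        intro i _
        rw [abs_mul]
        exact mul_le_mul (hal2 i) (hTf i) (abs_nonneg _) (by positivity)
      refine (Finset.sum_le_sum e3).trans ?_
      rw [Finset.sum_const, Finset.card_univ, Fintype.card_fin, nsmul_eq_mul]
      apply le_of_eq
      ring
    have e3 : |∑ i, ∑ j, al i * al j * (ip (E i) (E j) - if i = j then 1 else 0)| ≤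
        4 * M ^ 2 * (1 + κ + 8 * κ ^ 2) * s * F ^ 2 := by
      refine (Finset.abs_sum_le_sum_abs _ _).trans ?_
      have e4 : ∀ i ∈ (Finset.univ : Finset (Fin M)),
          |∑ j, al i * al j * (ip (E i) (E j) - if i = j then 1 else 0)| ≤
          M * (2 * F * (2 * F) * ((1 + κ + 8 * κ ^ 2) * s)) := by
        intro i _
        refine (Finset.abs_sum_le_sum_abs _ _).trans ?_
        have e5 : ∀ j ∈ (Finset.univ : Finset (Fin M)),
            |al i * al j * (ip (E i) (E j) - if i = j then 1 else 0)| ≤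
            2 * F * (2 * F) * ((1 + κ + 8 * κ ^ 2) * s) := by
          intro j _
          rw [abs_mul, abs_mul]
          exact mul_le_mul (mul_le_mul (hal2 i) (hal2 j) (abs_nonneg _) (by positivity)) (hEE i j)
            (abs_nonneg _) (by positivity)
        refine (Finset.sum_le_sum e5).trans ?_
        rw [Finset.sum_const, Finset.card_univ, Fintype.card_fin, nsmul_eq_mul]
      refine (Finset.sum_le_sum e4).trans ?_
      rw [Finset.sum_const, Finset.card_univ, Fintype.card_fin, nsmul_eq_mul]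
      apply le_of_eq
      ring
    rw [e1, hy]
    have e4 := (abs_le.mp e2).1
    have e5 := (abs_le.mp e3).2
    nlinarith
  refine ⟨ip gg h, ?_, ?_⟩
  · have e1 : ∑ i, (l i * ip ((l i)⁻¹ • op A (e i)) f) • ((l i)⁻¹ • op A (e i)) =
        ∑ i, al i • E i := by
      refine Finset.sum_congr rfl fun i _ => ?_
      show (l i * ip (E i) f) • E i = _
      rw [hEf]
    rw [e1]
    exact h7
  · intro hy0
    set y := ip gg h with hyy
    have c1 : nrm (op A h) ^ 2 ≤ a ^ 2 * x ^ 2 + s * ((2 * a + 1) * (1 + 4 * M) ^ 2 +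
        8 * M ^ 2 * (a + 1) * (1 + 4 * M) + 16 * M ^ 4 + (1 + 4 * M) ^ 2) * F ^ 2 := by
      have e1 : nrm (op Tc h) ^ 2 ≤ ((a + s) * x + 4 * M ^ 2 * s * F) ^ 2 :=
        pow_le_pow_left₀ (nrm_nonneg _) h4 2
      have e2 : ((a + s) * x + 4 * M ^ 2 * s * F) ^ 2 = a ^ 2 * x ^ 2 + s * ((2 * a + s) * x ^ 2 +
          8 * M ^ 2 * (a + s) * (x * F) + 16 * M ^ 4 * s * F ^ 2) := by ring
      have hx2 : x ^ 2 ≤ (1 + 4 * M) ^ 2 * F ^ 2 := by
        have := pow_le_pow_left₀ hx0 h3 2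
        rwa [mul_pow] at this
      have hxF : x * F ≤ (1 + 4 * M) * F ^ 2 := by nlinarith
      have hM0 : (0 : ℝ) ≤ M := Nat.cast_nonneg M
      have e3 : (2 * a + s) * x ^ 2 ≤ (2 * a + 1) * ((1 + 4 * M) ^ 2 * F ^ 2) :=
        mul_le_mul (by linarith) hx2 (sq_nonneg _) (by linarith)
      have e4 : 8 * M ^ 2 * (a + s) * (x * F) ≤ 8 * M ^ 2 * (a + 1) * ((1 + 4 * M) * F ^ 2) := by
        apply mul_le_mul _ hxF (by positivity) (by positivity)
        apply mul_le_mul_of_nonneg_left (by linarith) (by positivity)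
      have e5 : 16 * (M : ℝ) ^ 4 * s * F ^ 2 ≤ 16 * M ^ 4 * 1 * F ^ 2 := by
        apply mul_le_mul_of_nonneg_right _ (sq_nonneg _)
        apply mul_le_mul_of_nonneg_left hs1 (by positivity)
      have e6 : (2 * a + s) * x ^ 2 + 8 * M ^ 2 * (a + s) * (x * F) + 16 * M ^ 4 * s * F ^ 2 + x ^ 2 ≤
          ((2 * a + 1) * (1 + 4 * M) ^ 2 +
          8 * M ^ 2 * (a + 1) * (1 + 4 * M) + 16 * M ^ 4 + (1 + 4 * M) ^ 2) * F ^ 2 := by
        linarith
      have e7 := mul_le_mul_of_nonneg_left e6 hs0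
      linarith
    have c2 : y ^ 2 ≤ F ^ 2 * nrm (op A h) ^ 2 := by
      rw [← mul_pow]
      exact pow_le_pow_left₀ hy0 h6 2
    have c3 : F ^ 2 * nrm (op A h) ^ 2 ≤ F ^ 2 * (a ^ 2 * (y + 4 * M ^ 2 * s * F ^ 2) +
        s * ((2 * a + 1) * (1 + 4 * M) ^ 2 +
        8 * M ^ 2 * (a + 1) * (1 + 4 * M) + 16 * M ^ 4 + (1 + 4 * M) ^ 2) * F ^ 2) := by
      apply mul_le_mul_of_nonneg_left _ (sq_nonneg _)
      have := mul_le_mul_of_nonneg_left h2a (sq_nonneg a)
      linarith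
    refine (c2.trans c3).trans (le_of_eq ?_)
    ring

end

end F2r

open F2r

theorem transport_res (M k0 : ℕ) {l0 g : ℝ} (hg : 0 < g) (hl0 : g < l0) :
    ∃ C s0 : ℝ, 1 ≤ C ∧ 0 < s0 ∧ ∀ {P Q : Type} [Fintype Q] [Nonempty Q]
      (T : P → P → Q → Q → ℝ) (s : ℝ), 0 ≤ s → s ≤ s0 → Win k0 s T →
      ∀ (l : Fin M → ℝ), (∀ i, l0 + g ≤ |l i| ∧ |l i| ≤ 1) →
      ∀ (y : (Fin k0 → Fin 2 ⊕ Fin M) → ℝ) (b c : P) (e : Fin M → Q → ℝ),
      SFrame l0 g s l y (T c c) e →
      ∀ f : Q → ℝ, nrm (op (T b b) f -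
        ∑ i, (l i * ip ((l i)⁻¹ • op (T b c) (e i)) f) • ((l i)⁻¹ • op (T b c) (e i))) ≤
        (l0 - g + C * s) * nrm f := by
  set a : ℝ := l0 - g with ha
  have ha0 : 0 < a := by rw [ha]; linarith
  set c3 : ℝ := 1 + 12 * M * (l0 + g)⁻¹ + 4 * M ^ 2 * (1 + (l0 + g)⁻¹ + 8 * (l0 + g)⁻¹ ^ 2) with hc3
  set c2 : ℝ := 4 * M ^ 2 * a ^ 2 + ((2 * a + 1) * (1 + 4 * M) ^ 2 +
    8 * M ^ 2 * (a + 1) * (1 + 4 * M) + 16 * M ^ 4 + (1 + 4 * M) ^ 2) with hc2
  have hκ : 0 < (l0 + g)⁻¹ := inv_pos.mpr (by linarith)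
  have hc3' : 0 ≤ c3 := by positivity
  have hc2' : 0 ≤ c2 := by positivity
  set c4 : ℝ := (c2 / a ^ 2 + c3) / (2 * a) with hc4
  have hc4' : 0 ≤ c4 := by positivity
  refine ⟨1 + c4, 1, by linarith, one_pos, ?_⟩
  intro P Q _ _ T s hs0 hs1 hW l hl y b c e he f
  have hn : ∀ u v : P, hs (T u v) ≤ 1 := fun u v =>
    hs_le_one (hW.nonneg u v) (hW.le_one u v)
  have hadj : ∀ (u v : P) (f h : Q → ℝ), ip f (op (T u v) h) = ip (op (T v u) f) h := by
    intro u v f h
    rw [ip_op]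
    have : (fun p q => T u v q p) = T v u := by
      funext p q
      exact hW.symm u v q p
    rw [this]
  obtain ⟨y, h1, h2⟩ := core hg hl0 hs0 hs1 (hn b b) (hn c c) (hn b c) (hn c b) (hadj b b)
    (hadj c c) (hadj b c) (fun f => comp_close (hW.tri b b c b) f)
    (fun f => comp_close (hW.tri c b c c) f) (fun f => comp_close (hW.tri b b c c) f) hl he.orth
    he.eig he.res f
  rw [← ha, ← hc2] at h2
  rw [← hc3] at h1
  have hF0 := nrm_nonneg f
  -- bound of the square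
  have h3 : y + s * c3 * nrm f ^ 2 ≤ (a ^ 2 + s * (c2 / a ^ 2 + c3)) * nrm f ^ 2 := by
    rcases le_or_gt 0 y with hy | hy
    · have h4 := quad ha0 (mul_nonneg hs0 hc2') (h2 hy)
      have h5 : s * c2 / a ^ 2 = s * (c2 / a ^ 2) := mul_div_assoc _ _ _
      rw [h5] at h4
      linarith
    · have h4 : 0 ≤ (a ^ 2 + s * (c2 / a ^ 2)) * nrm f ^ 2 := by positivity
      linarith
  have h4 : a ^ 2 + s * (c2 / a ^ 2 + c3) ≤ (a + (1 + c4) * s) ^ 2 := by
    have h5 : 2 * a * c4 = c2 / a ^ 2 + c3 := by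
      rw [hc4]
      field_simp
    rw [← h5]
    nlinarith [mul_nonneg hs0 hc4', mul_nonneg hs0 ha0.le, sq_nonneg ((1 + c4) * s)]
  have h5 : nrm (op (T b b) f - ∑ i, (l i * ip ((l i)⁻¹ • op (T b c) (e i)) f) •
      ((l i)⁻¹ • op (T b c) (e i))) ^ 2 ≤ ((a + (1 + c4) * s) * nrm f) ^ 2 := by
    rw [mul_pow]
    exact (h1.trans h3).trans (mul_le_mul_of_nonneg_right h4 (sq_nonneg _))
  exact le_of_sq_le_sq h5 (by positivity)

end Fr

end Pool.Agent.SRL
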