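import Pool.Agent.SRL.FBasic

/-! Row F2: transport of soft frames (residual, eigenvalues, orthogonality). -/

set_option autoImplicit false

namespace Pool.Agent.SRL

open Finset

namespace Fr

section soft
variable {Q : Type} [Fintype Q] {M : ℕ} {e : Fin M → Q → ℝ} {s : ℝ}

/-- soft orthogonal projection -/
noncomputable def pr (e : Fin M → Q → ℝ) (f : Q → ℝ) : Q → ℝ := ∑ i, ip (e i) f • e i

theorem soft_s_le (hs0 : 0 ≤ s) (hs1 : (M : ℝ) * s ≤ 1 / 2) (i : Fin M) : s ≤ 1 / 2 := by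
  have hM : (1 : ℝ) ≤ M := by exact_mod_cast (Fin.pos i)
  nlinarith

theorem soft_nrm (hs0 : 0 ≤ s) (hs1 : (M : ℝ) * s ≤ 1 / 2)
    (ho : ∀ i j, |ip (e i) (e j) - if i = j then 1 else 0| ≤ s) (i : Fin M) : nrm (e i) ≤ 2 := by
  have h1 := (abs_le.1 (ho i i)).2
  rw [if_pos rfl, ← nrm_sq] at h1
  have h2 := soft_s_le hs0 hs1 i
  have h3 := nrm_nonneg (e i)
  nlinarith

theorem soft_coef (hs0 : 0 ≤ s) (hs1 : (M : ℝ) * s ≤ 1 / 2)
    (ho : ∀ i j, |ip (e i) (e j) - if i = j then 1 else 0| ≤ s) (f : Q → ℝ) :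
    ∑ i, ip (e i) f ^ 2 ≤ 2 * nrm f ^ 2 := by
  have h1 := bessel_soft hs0 ho f
  have h2 : 0 ≤ ∑ i, ip (e i) f ^ 2 := sum_nonneg fun _ _ => sq_nonneg _
  nlinarith

theorem soft_coef1 (hs0 : 0 ≤ s) (hs1 : (M : ℝ) * s ≤ 1 / 2)
    (ho : ∀ i j, |ip (e i) (e j) - if i = j then 1 else 0| ≤ s) (i : Fin M) (f : Q → ℝ) :
    |ip (e i) f| ≤ 2 * nrm f :=
  (abs_ip_le _ _).trans (mul_le_mul_of_nonneg_right (soft_nrm hs0 hs1 ho i) (nrm_nonneg f))

theorem nrm_pr (hs0 : 0 ≤ s) (hs1 : (M : ℝ) * s ≤ 1 / 2)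
    (ho : ∀ i j, |ip (e i) (e j) - if i = j then 1 else 0| ≤ s) (f : Q → ℝ) :
    nrm (pr e f) ≤ 2 * nrm f := by
  have h1 := nrm_comb_soft hs0 ho (fun i => ip (e i) f)
  have h2 := soft_coef hs0 hs1 ho f
  have h3 : 0 ≤ ∑ i, ip (e i) f ^ 2 := sum_nonneg fun _ _ => sq_nonneg _
  have h4 : nrm (pr e f) ^ 2 ≤ (2 * nrm f) ^ 2 := by
    have : nrm (pr e f) ^ 2 ≤ (1 + M * s) * ∑ i, ip (e i) f ^ 2 := h1
    nlinarith [sq_nonneg (nrm f)]
  exact (abs_le_of_sq_le_sq' h4 (by have := nrm_nonneg f; linarith)).2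

theorem ip_pr (f h : Q → ℝ) : ip (pr e f) h = ∑ i, ip (e i) f * ip (e i) h := by
  rw [pr, ip_sum_left]
  exact sum_congr rfl fun i _ => ip_smul_left _ _ _

/-- coefficients of the complement are small -/
theorem ip_compl (hs0 : 0 ≤ s) (hs1 : (M : ℝ) * s ≤ 1 / 2)
    (ho : ∀ i j, |ip (e i) (e j) - if i = j then 1 else 0| ≤ s) (i : Fin M) (f : Q → ℝ) :
    |ip (e i) (f - pr e f)| ≤ 2 * M * s * nrm f := by
  have h1 : ip (e i) (f - pr e f) =
      - ∑ j, ip (e j) f * (ip (e i) (e j) - if i = j then 1 else 0) := by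
    rw [ip_sub_right, pr, ip_sum_right]
    have : ∑ j, ip (e j) f * (ip (e i) (e j) - if i = j then 1 else 0) =
        ∑ j, ip (e i) (ip (e j) f • e j) - ip (e i) f := by
      have e1 : ip (e i) f = ∑ j, ip (e j) f * (if i = j then 1 else 0) := by simp
      rw [e1, ← sum_sub_distrib]
      refine sum_congr rfl fun j _ => ?_
      rw [ip_smul_right]; ring
    rw [this]; ring
  rw [h1, abs_neg]
  refine (abs_sum_le_sum_abs _ _).trans ?_
  calc ∑ j, |ip (e j) f * (ip (e i) (e j) - if i = j then 1 else 0)|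
      ≤ ∑ _j : Fin M, 2 * nrm f * s := by
        refine sum_le_sum fun j _ => ?_
        rw [abs_mul]
        exact mul_le_mul (soft_coef1 hs0 hs1 ho j f) (ho i j) (abs_nonneg _)
          (by have := nrm_nonneg f; linarith)
    _ = 2 * M * s * nrm f := by
        rw [sum_const, card_univ, Fintype.card_fin, nsmul_eq_mul]; ring

end soft

section win
variable {P Q : Type} [Fintype Q] [Nonempty Q] {k0 : ℕ} {s : ℝ} {T : P → P → Q → Q → ℝ}

theorem win_hs (hW : Win k0 s T) (b c : P) : hs (T b c) ≤ 1 := hs_le_one (hW.nonneg b c) (hW.le_one b c)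

theorem win_op (hW : Win k0 s T) (b c : P) (f : Q → ℝ) : nrm (op (T b c) f) ≤ nrm f :=
  (nrm_op_le _ _).trans (by
    have := mul_le_mul_of_nonneg_right (win_hs hW b c) (nrm_nonneg f)
    rwa [one_mul] at this)

theorem win_tri (hW : Win k0 s T) (b c c' d : P) (f : Q → ℝ) :
    nrm (op (T b c) (op (T c d) f) - op (T b c') (op (T c' d) f)) ≤ s * nrm f := by
  rw [← op_comp, ← op_comp, ← op_sub_left]
  exact (nrm_op_le _ _).trans (mul_le_mul_of_nonneg_right (hW.tri b c c' d) (nrm_nonneg f))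

omit [Nonempty Q] in
theorem win_adj (hW : Win k0 s T) (b c : P) (f h : Q → ℝ) :
    ip (op (T b c) f) h = ip f (op (T c b) h) := by
  rw [ip_op]
  congr 1
  funext p
  simp only [op]
  congr 1; funext q
  rw [hW.symm b c p q]

end win

section transport
variable {P Q : Type} [Fintype Q] [Nonempty Q] {M k0 : ℕ} {s l0 g : ℝ} {T : P → P → Q → Q → ℝ}
  {l : Fin M → ℝ} {y : (Fin k0 → Fin 2 ⊕ Fin M) → ℝ} {b c : P} {e : Fin M → Q → ℝ}

theorem inv_abs_le {x l0 : ℝ} (h0 : 0 < l0) (h : l0 ≤ |x|) : |x⁻¹| ≤ l0⁻¹ := by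
  rw [abs_inv]
  exact inv_anti₀ h0 h

theorem ne_zero_of_le {x l0 : ℝ} (h0 : 0 < l0) (h : l0 ≤ |x|) : x ≠ 0 := by
  intro hx
  rw [hx, abs_zero] at h
  linarith

/-- `T_cc T_cc e_j` is close to `l_j ^ 2 e_j` -/
theorem eig_sq (hW : Win k0 s T) (hl1 : ∀ i, |l i| ≤ 1)
    (he : ∀ i, nrm (op (T c c) (e i) - l i • e i) ≤ s) (hs0 : 0 ≤ s) (j : Fin M) :
    nrm (op (T c c) (op (T c c) (e j)) - (l j) ^ 2 • e j) ≤ 2 * s := by
  have e1 : op (T c c) (op (T c c) (e j)) - (l j) ^ 2 • e j =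
      op (T c c) (op (T c c) (e j) - l j • e j) + l j • (op (T c c) (e j) - l j • e j) := by
    rw [op_sub, op_smul, smul_sub, smul_smul, sq]
    abel
  rw [e1]
  refine (nrm_add_le _ _).trans ?_
  have h1 := (win_op hW c c (op (T c c) (e j) - l j • e j)).trans (he j)
  have h2 : nrm (l j • (op (T c c) (e j) - l j • e j)) ≤ s := by
    rw [nrm_smul]
    calc |l j| * nrm (op (T c c) (e j) - l j • e j) ≤ 1 * s :=
          mul_le_mul (hl1 j) (he j) (nrm_nonneg _) zero_le_one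
      _ = s := one_mul s
  linarith

theorem tr_orth (hW : Win k0 s T) (hs0 : 0 ≤ s) (hs1 : (M : ℝ) * s ≤ 1 / 2) (hl00 : 0 < l0)
    (hl : ∀ i, l0 ≤ |l i|) (hl1 : ∀ i, |l i| ≤ 1)
    (ho : ∀ i j, |ip (e i) (e j) - if i = j then 1 else 0| ≤ s)
    (he : ∀ i, nrm (op (T c c) (e i) - l i • e i) ≤ s) (i j : Fin M) :
    |ip ((l i)⁻¹ • op (T b c) (e i)) ((l j)⁻¹ • op (T b c) (e j)) - if i = j then 1 else 0| ≤
      9 * l0⁻¹ ^ 2 * s := by
  have hlj := ne_zero_of_le hl00 (hl j)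
  have hli := ne_zero_of_le hl00 (hl i)
  set u : Q → ℝ := op (T c b) (op (T b c) (e j)) - (l j) ^ 2 • e j with hu
  have hu1 : nrm u ≤ 4 * s := by
    have h1 := win_tri hW c b c c (e j)
    have h2 := eig_sq hW hl1 he hs0 j
    have h3 := nrm_tri (op (T c b) (op (T b c) (e j))) (op (T c c) (op (T c c) (e j)))
      ((l j) ^ 2 • e j)
    have h4 := soft_nrm hs0 hs1 ho j
    nlinarith
  have hip : ip (op (T b c) (e i)) (op (T b c) (e j)) =
      (l j) ^ 2 * ip (e i) (e j) + ip (e i) u := by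
    rw [win_adj hW, hu, ip_sub_right, ip_smul_right]
    ring
  have h5 : |ip (e i) u| ≤ 8 * s := by
    refine (abs_ip_le _ _).trans ?_
    have := mul_le_mul (soft_nrm hs0 hs1 ho i) hu1 (nrm_nonneg _) (by norm_num)
    linarith
  have h6 : ip ((l i)⁻¹ • op (T b c) (e i)) ((l j)⁻¹ • op (T b c) (e j)) -
      (if i = j then 1 else 0) =
      (l i)⁻¹ * (l j)⁻¹ * ((l j) ^ 2 * (ip (e i) (e j) - if i = j then 1 else 0) +
        ip (e i) u) := by
    rw [ip_smul_left, ip_smul_right, hip]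
    by_cases hij : i = j
    · subst hij
      simp only [if_true]
      field_simp
      ring
    · simp only [if_neg hij]
      ring
  rw [h6, abs_mul, abs_mul]
  have h7 : |(l j) ^ 2 * (ip (e i) (e j) - if i = j then 1 else 0) + ip (e i) u| ≤ 9 * s := by
    refine (abs_add_le _ _).trans ?_
    have h8 : |(l j) ^ 2 * (ip (e i) (e j) - if i = j then 1 else 0)| ≤ 1 * s := by
      rw [abs_mul, abs_pow]
      exact mul_le_mul (pow_le_one₀ (abs_nonneg _) (hl1 j)) (ho i j) (abs_nonneg _) zero_le_one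
    linarith
  have h9 := inv_abs_le hl00 (hl i)
  have h10 := inv_abs_le hl00 (hl j)
  have hK : 0 < l0⁻¹ := inv_pos.2 hl00
  calc |(l i)⁻¹| * |(l j)⁻¹| * |(l j) ^ 2 * (ip (e i) (e j) - if i = j then 1 else 0) + ip (e i) u|
      ≤ l0⁻¹ * l0⁻¹ * (9 * s) :=
        mul_le_mul (mul_le_mul h9 h10 (abs_nonneg _) hK.le) h7 (abs_nonneg _) (by positivity)
    _ = 9 * l0⁻¹ ^ 2 * s := by ring

theorem tr_eig (hW : Win k0 s T) (hs0 : 0 ≤ s) (hs1 : (M : ℝ) * s ≤ 1 / 2) (hl00 : 0 < l0)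
    (hl : ∀ i, l0 ≤ |l i|)
    (ho : ∀ i j, |ip (e i) (e j) - if i = j then 1 else 0| ≤ s)
    (he : ∀ i, nrm (op (T c c) (e i) - l i • e i) ≤ s) (i : Fin M) :
    nrm (op (T b b) ((l i)⁻¹ • op (T b c) (e i)) - l i • ((l i)⁻¹ • op (T b c) (e i))) ≤
      3 * l0⁻¹ * s := by
  have hli := ne_zero_of_le hl00 (hl i)
  have e1 : op (T b b) ((l i)⁻¹ • op (T b c) (e i)) - l i • ((l i)⁻¹ • op (T b c) (e i)) =
      (l i)⁻¹ • (op (T b b) (op (T b c) (e i)) - l i • op (T b c) (e i)) := by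
    rw [op_smul, smul_sub, smul_smul, smul_smul, mul_comm]
  rw [e1, nrm_smul]
  have h1 := win_tri hW b b c c (e i)
  have h2 : nrm (op (T b c) (op (T c c) (e i)) - l i • op (T b c) (e i)) ≤ s := by
    rw [← op_smul, ← op_sub]
    exact (win_op hW b c _).trans (he i)
  have h3 := nrm_tri (op (T b b) (op (T b c) (e i))) (op (T b c) (op (T c c) (e i)))
      (l i • op (T b c) (e i))
  have h4 := soft_nrm hs0 hs1 ho i
  have h5 : nrm (op (T b b) (op (T b c) (e i)) - l i • op (T b c) (e i)) ≤ 3 * s := by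
    nlinarith
  calc |(l i)⁻¹| * nrm (op (T b b) (op (T b c) (e i)) - l i • op (T b c) (e i))
      ≤ l0⁻¹ * (3 * s) :=
        mul_le_mul (inv_abs_le hl00 (hl i)) h5 (nrm_nonneg _) (inv_pos.2 hl00).le
    _ = 3 * l0⁻¹ * s := by ring

theorem tr_sup (hW : Win k0 s T) (hs0 : 0 ≤ s) (hs1 : (M : ℝ) * s ≤ 1 / 2) (hl00 : 0 < l0)
    (hl : ∀ i, l0 ≤ |l i|)
    (ho : ∀ i j, |ip (e i) (e j) - if i = j then 1 else 0| ≤ s) (p : Q) :
    ∑ i, (l i * ((l i)⁻¹ • op (T b c) (e i)) p) ^ 2 ≤ 2 := by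
  have h1 : ∀ i, (l i * ((l i)⁻¹ • op (T b c) (e i)) p) = ip (e i) (T b c p) := by
    intro i
    have hli := ne_zero_of_le hl00 (hl i)
    rw [Pi.smul_apply, smul_eq_mul, ← mul_assoc, mul_inv_cancel₀ hli, one_mul, ip_comm]
    rfl
  simp only [h1]
  have h2 := soft_coef hs0 hs1 ho (T b c p)
  have h3 : nrm (T b c p) ≤ 1 := nrm_le_of_abs_le fun q => by
    rw [abs_of_nonneg (hW.nonneg b c p q)]; exact hW.le_one b c p q
  have h4 := nrm_nonneg (T b c p)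
  nlinarith

/-- the approximate inverse of `T_cc` on the frame -/
noncomputable def Rv (l : Fin M → ℝ) (e : Fin M → Q → ℝ) (v : Q → ℝ) : Q → ℝ :=
  ∑ i, ((l i)⁻¹ * ip (e i) v) • e i

/-- the residual operator of the transported frame -/
noncomputable def Nf (l : Fin M → ℝ) (e : Fin M → Q → ℝ) (T : P → P → Q → Q → ℝ) (b c : P)
    (f : Q → ℝ) : Q → ℝ :=
  op (T b b) f - ∑ i, (l i * ip ((l i)⁻¹ • op (T b c) (e i)) f) • ((l i)⁻¹ • op (T b c) (e i))

omit [Nonempty Q] in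
theorem Nf_eq (hW : Win k0 s T) (hl00 : 0 < l0) (hl : ∀ i, l0 ≤ |l i|) (f : Q → ℝ) :
    Nf l e T b c f = op (T b b) f - op (T b c) (Rv l e (op (T c b) f)) := by
  unfold Nf Rv
  congr 1
  rw [op_sum]
  refine sum_congr rfl fun i _ => ?_
  have hli := ne_zero_of_le hl00 (hl i)
  rw [op_smul, ip_smul_left, smul_smul, win_adj hW]
  congr 1
  field_simp

omit [Nonempty Q] in
theorem Nf_symm (hW : Win k0 s T) (f h : Q → ℝ) :
    ip (Nf l e T b c f) h = ip f (Nf l e T b c h) := by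
  unfold Nf
  rw [ip_sub_left, ip_sub_right, win_adj hW, ip_sum_left, ip_sum_right]
  congr 1
  refine sum_congr rfl fun i _ => ?_
  rw [ip_smul_left, ip_smul_right, ip_comm f]
  ring

theorem nrm_Rv (hs0 : 0 ≤ s) (hs1 : (M : ℝ) * s ≤ 1 / 2) (hl00 : 0 < l0)
    (hl : ∀ i, l0 ≤ |l i|)
    (ho : ∀ i j, |ip (e i) (e j) - if i = j then 1 else 0| ≤ s) (v : Q → ℝ) :
    nrm (Rv l e v) ≤ 2 * l0⁻¹ * nrm v := by
  have hK : 0 < l0⁻¹ := inv_pos.2 hl00
  have h1 := nrm_comb_soft hs0 ho (fun i => (l i)⁻¹ * ip (e i) v)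
  have h2 := soft_coef hs0 hs1 ho v
  have h3 : ∑ i, ((l i)⁻¹ * ip (e i) v) ^ 2 ≤ l0⁻¹ ^ 2 * ∑ i, ip (e i) v ^ 2 := by
    rw [mul_sum]
    refine sum_le_sum fun i _ => ?_
    rw [mul_pow]
    refine mul_le_mul_of_nonneg_right ?_ (sq_nonneg _)
    rw [← sq_abs]
    exact pow_le_pow_left₀ (abs_nonneg _) (inv_abs_le hl00 (hl i)) 2
  have h4 : nrm (Rv l e v) ^ 2 ≤ (2 * l0⁻¹ * nrm v) ^ 2 := by
    have h5 : nrm (Rv l e v) ^ 2 ≤ (1 + M * s) * ∑ i, ((l i)⁻¹ * ip (e i) v) ^ 2 := h1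
    have h6 : 0 ≤ ∑ i, ((l i)⁻¹ * ip (e i) v) ^ 2 := sum_nonneg fun _ _ => sq_nonneg _
    have h7 : l0⁻¹ ^ 2 * ∑ i, ip (e i) v ^ 2 ≤ l0⁻¹ ^ 2 * (2 * nrm v ^ 2) :=
      mul_le_mul_of_nonneg_left h2 (sq_nonneg _)
    have h8 : (1 + M * s) * ∑ i, ((l i)⁻¹ * ip (e i) v) ^ 2 ≤
        (3 / 2) * ∑ i, ((l i)⁻¹ * ip (e i) v) ^ 2 := mul_le_mul_of_nonneg_right (by linarith) h6
    have h9 : 0 ≤ (l0⁻¹ * nrm v) ^ 2 := sq_nonneg _
    nlinarith
  have h10 : 0 ≤ 2 * l0⁻¹ * nrm v := by have := nrm_nonneg v; positivity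
  exact (abs_le_of_sq_le_sq' h4 h10).2

/-- `T_cc R v` is close to `E v` -/
theorem op_Rv (hs0 : 0 ≤ s) (hs1 : (M : ℝ) * s ≤ 1 / 2) (hl00 : 0 < l0)
    (hl : ∀ i, l0 ≤ |l i|)
    (ho : ∀ i j, |ip (e i) (e j) - if i = j then 1 else 0| ≤ s)
    (he : ∀ i, nrm (op (T c c) (e i) - l i • e i) ≤ s) (v : Q → ℝ) :
    nrm (op (T c c) (Rv l e v) - pr e v) ≤ 2 * M * l0⁻¹ * s * nrm v := by
  have hK : 0 < l0⁻¹ := inv_pos.2 hl00
  have e1 : op (T c c) (Rv l e v) - pr e v =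
      ∑ i, ((l i)⁻¹ * ip (e i) v) • (op (T c c) (e i) - l i • e i) := by
    unfold Rv pr
    rw [op_sum, ← sum_sub_distrib]
    refine sum_congr rfl fun i _ => ?_
    have hli := ne_zero_of_le hl00 (hl i)
    rw [op_smul, smul_sub, smul_smul]
    congr 2
    field_simp
  rw [e1]
  refine (nrm_sum_le _ _).trans ?_
  calc ∑ i, nrm (((l i)⁻¹ * ip (e i) v) • (op (T c c) (e i) - l i • e i))
      ≤ ∑ _i : Fin M, l0⁻¹ * (2 * nrm v) * s := by
        refine sum_le_sum fun i _ => ?_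
        rw [nrm_smul, abs_mul]
        exact mul_le_mul (mul_le_mul (inv_abs_le hl00 (hl i)) (soft_coef1 hs0 hs1 ho i v)
          (abs_nonneg _) hK.le) (he i) (nrm_nonneg _)
          (by have := nrm_nonneg v; positivity)
    _ = 2 * M * l0⁻¹ * s * nrm v := by
        rw [sum_const, card_univ, Fintype.card_fin, nsmul_eq_mul]; ring

/-- constant of the residual estimate -/
noncomputable def c3 (M : ℕ) (K : ℝ) : ℝ := 1 + 2 * K + 2 * M * K
noncomputable def c6 (M : ℕ) (K : ℝ) : ℝ := c3 M K + 2 * M * (K * ((2 * M + 3) + 2 * c3 M K))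
noncomputable def c10 (M : ℕ) (R : ℝ) : ℝ := 4 * M ^ 2 * R ^ 2 + 24 * R * M ^ 2 + 16 * M ^ 4 + 9
noncomputable def resC (M : ℕ) (K ρ0 R : ℝ) : ℝ := (c10 M R / ρ0 ^ 2 + c6 M K) / (2 * ρ0)

theorem quad64 {ρ ρ0 x F A : ℝ} (hρ0 : 0 < ρ0) (hρ : ρ0 ≤ ρ) (hF : 0 ≤ F) (hA : 0 ≤ A)
    (h : x ^ 2 ≤ ρ ^ 2 * (x * F) + A * F ^ 2) : x ≤ (ρ ^ 2 + A / ρ0 ^ 2) * F := by
  by_contra hcon
  push Not at hcon
  have hB : 0 ≤ A / ρ0 ^ 2 := by positivity
  have hB2 : A ≤ A / ρ0 ^ 2 * ρ ^ 2 := by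
    have h1 : ρ0 ^ 2 ≤ ρ ^ 2 := pow_le_pow_left₀ hρ0.le hρ 2
    rw [div_mul_eq_mul_div, le_div_iff₀ (by positivity)]
    exact mul_le_mul_of_nonneg_left h1 hA
  set B := A / ρ0 ^ 2 with hBdef
  have h2 : 0 < x := lt_of_le_of_lt (by positivity) hcon
  have h3 : B * F < x - ρ ^ 2 * F := by linarith
  have h4 : x * (B * F) < x * (x - ρ ^ 2 * F) := mul_lt_mul_of_pos_left h3 h2
  have h5 : ρ ^ 2 * F ≤ x := by
    have : 0 ≤ B * F := by positivity
    linarith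
  have h6 : ρ ^ 2 * F * (B * F) ≤ x * (B * F) := mul_le_mul_of_nonneg_right h5 (by positivity)
  have h7 : A * F ^ 2 ≤ B * ρ ^ 2 * F ^ 2 := mul_le_mul_of_nonneg_right hB2 (sq_nonneg _)
  have h8 : x * (x - ρ ^ 2 * F) = x ^ 2 - ρ ^ 2 * (x * F) := by ring
  have h9 : ρ ^ 2 * F * (B * F) = B * ρ ^ 2 * F ^ 2 := by ring
  rw [h8] at h4
  rw [h9] at h6
  linarith

theorem fin64 {ρ ρ0 r c6' D s x F n : ℝ} (hρ0 : 0 < ρ0) (hρ : ρ0 ≤ ρ) (hF : 0 ≤ F) (hr : 0 ≤ r)
    (hs : 0 ≤ s) (h12 : x ≤ (ρ ^ 2 + D * s) * F) (h7 : n ^ 2 ≤ x * F + c6' * s * F ^ 2)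
    (hr2 : D + c6' = 2 * ρ0 * r) : n ^ 2 ≤ ((ρ + r * s) * F) ^ 2 := by
  have a1 : x * F ≤ (ρ ^ 2 + D * s) * F * F := mul_le_mul_of_nonneg_right h12 hF
  have a3 : (ρ ^ 2 + D * s) * F * F + c6' * s * F ^ 2 =
      (ρ ^ 2 + (2 * ρ0 * r) * s) * F ^ 2 := by rw [← hr2]; ring
  have a4 : ρ0 * (r * s) ≤ ρ * (r * s) := mul_le_mul_of_nonneg_right hρ (by positivity)
  have a5 : (ρ ^ 2 + (2 * ρ0 * r) * s) * F ^ 2 ≤ (ρ + r * s) ^ 2 * F ^ 2 := by
    refine mul_le_mul_of_nonneg_right ?_ (sq_nonneg _)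
    have a6 : (ρ + r * s) ^ 2 = ρ ^ 2 + 2 * (ρ * (r * s)) + (r * s) ^ 2 := by ring
    have a7 := sq_nonneg (r * s)
    rw [a6]
    linarith
  rw [mul_pow]
  linarith

theorem tr_res (hW : Win k0 s T) (hs0 : 0 ≤ s) (hs1 : (M : ℝ) * s ≤ 1 / 2) (hs2 : s ≤ 1)
    (hl00 : 0 < l0) (hl : ∀ i, l0 ≤ |l i|) (hl1 : ∀ i, |l i| ≤ 1)
    (ho : ∀ i j, |ip (e i) (e j) - if i = j then 1 else 0| ≤ s)
    (he : ∀ i, nrm (op (T c c) (e i) - l i • e i) ≤ s) {ρ ρ0 R : ℝ} (hρ0 : 0 < ρ0)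
    (hρ : ρ0 ≤ ρ) (hR : ρ ≤ R)
    (hres : ∀ f : Q → ℝ, nrm (op (T c c) f - ∑ i, (l i * ip (e i) f) • e i) ≤ ρ * nrm f)
    (f : Q → ℝ) :
    nrm (Nf l e T b c f) ≤ (ρ + resC M l0⁻¹ ρ0 R * s) * nrm f := by
  set K : ℝ := l0⁻¹ with hKdef
  have hK : 0 < K := inv_pos.2 hl00
  have hM : (0 : ℝ) ≤ M := Nat.cast_nonneg M
  set F := nrm f with hF
  have hF0 : 0 ≤ F := nrm_nonneg f
  set v := op (T c b) f with hv
  have hvF : nrm v ≤ F := win_op hW c b f
  set k := v - pr e v with hk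
  have hkF : nrm k ≤ 3 * F := by
    have h1 := nrm_sub_le v (pr e v)
    have h2 := nrm_pr hs0 hs1 ho v
    linarith
  have hR0 : nrm (Rv l e v) ≤ 2 * K * F := by
    refine (nrm_Rv hs0 hs1 hl00 hl ho v).trans ?_
    exact mul_le_mul_of_nonneg_left hvF (by positivity)
  have hRE : nrm (op (T c c) (Rv l e v) - pr e v) ≤ 2 * M * K * s * F := by
    refine (op_Rv hs0 hs1 hl00 hl ho he v).trans ?_
    exact mul_le_mul_of_nonneg_left hvF (by positivity)
  have hN := Nf_eq (e := e) (b := b) (c := c) hW hl00 hl f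
  rw [← hv] at hN
  set n := Nf l e T b c f with hn
  -- (3)
  have h3 : nrm (op (T c b) n - op (T c c) k) ≤ c3 M K * s * F := by
    have e1 : op (T c b) n - op (T c c) k =
        (op (T c b) (op (T b b) f) - op (T c c) (op (T c b) f)) -
        (op (T c b) (op (T b c) (Rv l e v)) - op (T c c) (op (T c c) (Rv l e v))) -
        op (T c c) (op (T c c) (Rv l e v) - pr e v) := by
      rw [hN, hk, op_sub, op_sub, op_sub, ← hv]
      abel
    rw [e1]
    refine (nrm_sub_le _ _).trans ?_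
    have h4 := nrm_sub_le (op (T c b) (op (T b b) f) - op (T c c) (op (T c b) f))
      (op (T c b) (op (T b c) (Rv l e v)) - op (T c c) (op (T c c) (Rv l e v)))
    have h5 := win_tri hW c b c b f
    have h6 := win_tri hW c b c c (Rv l e v)
    have h7 := win_op hW c c (op (T c c) (Rv l e v) - pr e v)
    have h8 : s * nrm (Rv l e v) ≤ s * (2 * K * F) := mul_le_mul_of_nonneg_left hR0 hs0
    have h9 : c3 M K * s * F = s * F + s * (2 * K * F) + 2 * M * K * s * F := by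
      unfold c3; ring
    rw [h9]
    linarith
  -- (4)
  have h4 : nrm (op (T b b) n - op (T b c) k) ≤ c3 M K * s * F := by
    have e1 : op (T b b) n - op (T b c) k =
        (op (T b b) (op (T b b) f) - op (T b c) (op (T c b) f)) -
        (op (T b b) (op (T b c) (Rv l e v)) - op (T b c) (op (T c c) (Rv l e v))) -
        op (T b c) (op (T c c) (Rv l e v) - pr e v) := by
      rw [hN, hk, op_sub, op_sub, op_sub, ← hv]
      abel
    rw [e1]
    refine (nrm_sub_le _ _).trans ?_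
    have h4 := nrm_sub_le (op (T b b) (op (T b b) f) - op (T b c) (op (T c b) f))
      (op (T b b) (op (T b c) (Rv l e v)) - op (T b c) (op (T c c) (Rv l e v)))
    have h5 := win_tri hW b b c b f
    have h6 := win_tri hW b b c c (Rv l e v)
    have h7 := win_op hW b c (op (T c c) (Rv l e v) - pr e v)
    have h8 : s * nrm (Rv l e v) ≤ s * (2 * K * F) := mul_le_mul_of_nonneg_left hR0 hs0
    have h9 : c3 M K * s * F = s * F + s * (2 * K * F) + 2 * M * K * s * F := by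
      unfold c3; ring
    rw [h9]
    linarith
  have hcompl : ∀ i, |ip (e i) k| ≤ 2 * M * s * F := fun i =>
    (ip_compl hs0 hs1 ho i v).trans (mul_le_mul_of_nonneg_left hvF (by positivity))
  have hc3 : 0 ≤ c3 M K := by unfold c3; positivity
  -- (5)
  have h5 : nrm (Rv l e (op (T c b) n)) ≤ 2 * M * (K * ((2 * M + 3) + 2 * c3 M K)) * s * F := by
    unfold Rv
    refine (nrm_sum_le _ _).trans ?_
    have hcoef : ∀ i, |ip (e i) (op (T c b) n)| ≤ ((2 * M + 3) + 2 * c3 M K) * s * F := by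
      intro i
      have a1 : ip (e i) (op (T c b) n) = ip (e i) (op (T c b) n - op (T c c) k) +
          (l i * ip (e i) k + ip (op (T c c) (e i) - l i • e i) k) := by
        rw [ip_sub_right, ip_sub_left, ip_smul_left, win_adj hW]
        ring
      rw [a1]
      have a2 : |ip (e i) (op (T c b) n - op (T c c) k)| ≤ 2 * (c3 M K * s * F) :=
        (soft_coef1 hs0 hs1 ho i _).trans (mul_le_mul_of_nonneg_left h3 (by norm_num))
      have a3 : |l i * ip (e i) k| ≤ 1 * (2 * M * s * F) := by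
        rw [abs_mul]
        exact mul_le_mul (hl1 i) (hcompl i) (abs_nonneg _) zero_le_one
      have a4 : |ip (op (T c c) (e i) - l i • e i) k| ≤ s * (3 * F) :=
        (abs_ip_le _ _).trans (mul_le_mul (he i) hkF (nrm_nonneg _) hs0)
      have a5 := abs_add_le (ip (e i) (op (T c b) n - op (T c c) k))
        (l i * ip (e i) k + ip (op (T c c) (e i) - l i • e i) k)
      have a6 := abs_add_le (l i * ip (e i) k) (ip (op (T c c) (e i) - l i • e i) k)
      have a7 : ((2 * M + 3) + 2 * c3 M K) * s * F =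
          2 * (c3 M K * s * F) + 1 * (2 * M * s * F) + s * (3 * F) := by ring
      rw [a7]
      linarith
    calc ∑ i, nrm (((l i)⁻¹ * ip (e i) (op (T c b) n)) • e i)
        ≤ ∑ _i : Fin M, (K * (((2 * M + 3) + 2 * c3 M K) * s * F)) * 2 := by
          refine sum_le_sum fun i _ => ?_
          rw [nrm_smul, abs_mul]
          exact mul_le_mul (mul_le_mul (inv_abs_le hl00 (hl i)) (hcoef i) (abs_nonneg _) hK.le)
            (soft_nrm hs0 hs1 ho i) (nrm_nonneg _) (by positivity)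
      _ = 2 * M * (K * ((2 * M + 3) + 2 * c3 M K)) * s * F := by
          rw [sum_const, card_univ, Fintype.card_fin, nsmul_eq_mul]; ring
  -- (6)
  have h6 : nrm (Nf l e T b c n - op (T b c) k) ≤ c6 M K * s * F := by
    rw [Nf_eq (e := e) (b := b) (c := c) hW hl00 hl n]
    have e1 : op (T b b) n - op (T b c) (Rv l e (op (T c b) n)) - op (T b c) k =
        (op (T b b) n - op (T b c) k) - op (T b c) (Rv l e (op (T c b) n)) := by abel
    rw [e1]
    have a1 := nrm_sub_le (op (T b b) n - op (T b c) k) (op (T b c) (Rv l e (op (T c b) n)))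
    have a2 := win_op hW b c (Rv l e (op (T c b) n))
    have a3 : c6 M K * s * F = c3 M K * s * F +
        2 * M * (K * ((2 * M + 3) + 2 * c3 M K)) * s * F := by unfold c6; ring
    rw [a3]
    linarith
  -- (7)
  set x := nrm (op (T b c) k) with hx
  have hx0 : 0 ≤ x := nrm_nonneg _
  have h7 : nrm n ^ 2 ≤ x * F + c6 M K * s * F ^ 2 := by
    rw [nrm_sq, hn, Nf_symm hW, ← hn]
    have a1 : ip f (Nf l e T b c n) = ip f (op (T b c) k) + ip f (Nf l e T b c n - op (T b c) k) := by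
      rw [ip_sub_right]; ring
    rw [a1]
    have a2 := (abs_le.1 (abs_ip_le f (op (T b c) k))).2
    have a3 := (abs_le.1 (abs_ip_le f (Nf l e T b c n - op (T b c) k))).2
    have a4 : nrm f * nrm (Nf l e T b c n - op (T b c) k) ≤ F * (c6 M K * s * F) :=
      mul_le_mul_of_nonneg_left h6 hF0
    nlinarith
  -- (8)
  have h8 : nrm k ^ 2 ≤ x * F + 4 * M ^ 2 * s * F ^ 2 := by
    have a1 : nrm k ^ 2 = ip (op (T b c) k) f - ip (pr e v) k := by
      rw [nrm_sq, win_adj hW, ← hv]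
      conv_lhs => rw [hk]
      rw [ip_sub_left, ip_comm v]
    rw [a1]
    have a2 := (abs_le.1 (abs_ip_le (op (T b c) k) f)).2
    have a3 : |ip (pr e v) k| ≤ 4 * M ^ 2 * s * F ^ 2 := by
      rw [ip_pr]
      refine (abs_sum_le_sum_abs _ _).trans ?_
      calc ∑ i, |ip (e i) v * ip (e i) k| ≤ ∑ _i : Fin M, (2 * F) * (2 * M * s * F) := by
            refine sum_le_sum fun i _ => ?_
            rw [abs_mul]
            refine mul_le_mul ?_ (hcompl i) (abs_nonneg _) (by positivity)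
            exact (soft_coef1 hs0 hs1 ho i v).trans (by linarith)
        _ = 4 * M ^ 2 * s * F ^ 2 := by
            rw [sum_const, card_univ, Fintype.card_fin, nsmul_eq_mul]; ring
    have a4 := (abs_le.1 a3).1
    linarith
  -- (10)
  have h10 : nrm (op (T c c) k) ≤ ρ * nrm k + 4 * M ^ 2 * s * F := by
    have a1 := hres k
    have a2 : nrm (∑ i, (l i * ip (e i) k) • e i) ≤ 4 * M ^ 2 * s * F := by
      refine (nrm_sum_le _ _).trans ?_
      calc ∑ i, nrm ((l i * ip (e i) k) • e i) ≤ ∑ _i : Fin M, (1 * (2 * M * s * F)) * 2 := by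
            refine sum_le_sum fun i _ => ?_
            rw [nrm_smul, abs_mul]
            exact mul_le_mul (mul_le_mul (hl1 i) (hcompl i) (abs_nonneg _) zero_le_one)
              (soft_nrm hs0 hs1 ho i) (nrm_nonneg _) (by positivity)
        _ = 4 * M ^ 2 * s * F := by
            rw [sum_const, card_univ, Fintype.card_fin, nsmul_eq_mul]; ring
    have a3 := nrm_add_le (op (T c c) k - ∑ i, (l i * ip (e i) k) • e i)
      (∑ i, (l i * ip (e i) k) • e i)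
    rw [sub_add_cancel] at a3
    linarith
  -- (9)
  have h9 : x ^ 2 ≤ nrm (op (T c c) k) ^ 2 + s * nrm k ^ 2 := by
    have a1 : x ^ 2 = ip k (op (T c b) (op (T b c) k)) := by
      rw [hx, nrm_sq, win_adj hW]
    have a2 : nrm (op (T c c) k) ^ 2 = ip k (op (T c c) (op (T c c) k)) := by
      rw [nrm_sq, win_adj hW]
    have a3 := (abs_le.1 (abs_ip_le k (op (T c b) (op (T b c) k) - op (T c c) (op (T c c) k)))).2
    rw [ip_sub_right, ← a1, ← a2] at a3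
    have a4 : nrm k * nrm (op (T c b) (op (T b c) k) - op (T c c) (op (T c c) k)) ≤
        nrm k * (s * nrm k) := mul_le_mul_of_nonneg_left (win_tri hW c b c c k) (nrm_nonneg k)
    nlinarith
  have hρpos : 0 < ρ := lt_of_lt_of_le hρ0 hρ
  have hR0' : 0 < R := lt_of_lt_of_le hρpos hR
  have hk0 : 0 ≤ nrm k := nrm_nonneg k
  -- combine
  have h11 : x ^ 2 ≤ ρ ^ 2 * (x * F) + c10 M R * s * F ^ 2 := by
    have b1 : nrm (op (T c c) k) ^ 2 ≤ (ρ * nrm k + 4 * M ^ 2 * s * F) ^ 2 :=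
      pow_le_pow_left₀ (nrm_nonneg _) h10 2
    have b2 : (ρ * nrm k + 4 * M ^ 2 * s * F) ^ 2 =
        ρ ^ 2 * nrm k ^ 2 + 8 * M ^ 2 * s * F * ρ * nrm k + 16 * M ^ 4 * s ^ 2 * F ^ 2 := by ring
    have b3 : 8 * M ^ 2 * s * F * ρ * nrm k ≤ 8 * M ^ 2 * s * F * R * (3 * F) := by
      refine mul_le_mul ?_ hkF hk0 (by positivity)
      exact mul_le_mul_of_nonneg_left hR (by positivity)
    have b4 : 16 * (M : ℝ) ^ 4 * s ^ 2 * F ^ 2 ≤ 16 * M ^ 4 * s * F ^ 2 := by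
      refine mul_le_mul_of_nonneg_right (mul_le_mul_of_nonneg_left ?_ (by positivity))
        (by positivity)
      nlinarith
    have b5 : s * nrm k ^ 2 ≤ 9 * s * F ^ 2 := by
      have : nrm k ^ 2 ≤ (3 * F) ^ 2 := pow_le_pow_left₀ hk0 hkF 2
      nlinarith [mul_le_mul_of_nonneg_left this hs0]
    have b6 : ρ ^ 2 * nrm k ^ 2 ≤ ρ ^ 2 * (x * F + 4 * M ^ 2 * s * F ^ 2) :=
      mul_le_mul_of_nonneg_left h8 (sq_nonneg _)
    have b7 : ρ ^ 2 * (4 * M ^ 2 * s * F ^ 2) ≤ R ^ 2 * (4 * M ^ 2 * s * F ^ 2) :=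
      mul_le_mul_of_nonneg_right (pow_le_pow_left₀ hρpos.le hR 2) (by positivity)
    have b8 : c10 M R * s * F ^ 2 = R ^ 2 * (4 * M ^ 2 * s * F ^ 2) +
        8 * M ^ 2 * s * F * R * (3 * F) + 16 * M ^ 4 * s * F ^ 2 + 9 * s * F ^ 2 := by
      unfold c10; ring
    rw [b8]
    linarith
  have hc10 : 0 ≤ c10 M R := by unfold c10; positivity
  have hc6 : 0 ≤ c6 M K := by unfold c6; positivity
  have h12 : x ≤ (ρ ^ 2 + c10 M R / ρ0 ^ 2 * s) * F := by
    have := quad64 hρ0 hρ hF0 (mul_nonneg hc10 hs0) h11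
    rwa [mul_div_right_comm] at this
  have hres0' : 0 ≤ resC M K ρ0 R := by unfold resC; positivity
  have h13 : nrm n ^ 2 ≤ ((ρ + resC M K ρ0 R * s) * F) ^ 2 := by
    refine fin64 hρ0 hρ hF0 hres0' hs0 h12 h7 ?_
    unfold resC; field_simp
  have hres0 : 0 ≤ resC M K ρ0 R := by unfold resC; positivity
  exact (abs_le_of_sq_le_sq' h13 (by positivity)).2

end transport

end Fr

end Pool.Agent.SRL
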