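import Mathlib

/-! Block F, row F6b: scales and gaps (helper31). -/

set_option autoImplicit false

namespace Pool.Agent.SRL

open Finset

namespace Fr

namespace Scl

/-- the sequence of scales -/
noncomputable def x (F : ℝ → ℝ) : ℕ → ℝ
  | 0 => 1
  | j + 1 => F (x F j) / 2

theorem x_pos {F : ℝ → ℝ} (hF : ∀ x, 0 < x → 0 < F x ∧ F x ≤ x) : ∀ j, 0 < x F j
  | 0 => by simp [x]
  | j + 1 => by
      have h := (hF _ (x_pos hF j)).1
      simp only [x]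
      linarith

theorem x_succ_le {F : ℝ → ℝ} (hF : ∀ x, 0 < x → 0 < F x ∧ F x ≤ x) (j : ℕ) :
    x F (j + 1) ≤ x F j := by
  have h0 := x_pos hF j
  have h := (hF _ h0).2
  simp only [x]
  linarith

theorem x_anti {F : ℝ → ℝ} (hF : ∀ x, 0 < x → 0 < F x ∧ F x ≤ x) : Antitone (x F) :=
  antitone_nat_of_succ_le (x_succ_le hF)

theorem x_le_one {F : ℝ → ℝ} (hF : ∀ x, 0 < x → 0 < F x ∧ F x ≤ x) (j : ℕ) : x F j ≤ 1 := by
  have h := x_anti hF (Nat.zero_le j)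
  simpa [x] using h

/-- number of candidates at scale `j` -/
noncomputable def M (F : ℝ → ℝ) (j : ℕ) : ℕ := ⌊1 / (x F (j + 1)) ^ 2⌋₊ + 1

theorem M_pos (F : ℝ → ℝ) (j : ℕ) : 0 < M F j := Nat.succ_pos _

theorem one_lt_M {F : ℝ → ℝ} (hF : ∀ x, 0 < x → 0 < F x ∧ F x ≤ x) (j : ℕ) :
    1 < (M F j : ℝ) * (x F (j + 1)) ^ 2 := by
  have h0 : 0 < (x F (j + 1)) ^ 2 := pow_pos (x_pos hF _) 2
  have h1 : 1 / (x F (j + 1)) ^ 2 < (M F j : ℝ) := by
    have := Nat.lt_floor_add_one (1 / (x F (j + 1)) ^ 2)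
    simpa [M] using this
  exact (div_lt_iff₀ h0).1 h1

/-- width of the candidate intervals -/
noncomputable def w (F : ℝ → ℝ) (j : ℕ) : ℝ := x F (j + 1) / M F j

theorem w_pos {F : ℝ → ℝ} (hF : ∀ x, 0 < x → 0 < F x ∧ F x ≤ x) (j : ℕ) : 0 < w F j :=
  div_pos (x_pos hF _) (by exact_mod_cast M_pos F j)

theorem M_mul_w {F : ℝ → ℝ} (j : ℕ) : (M F j : ℝ) * w F j = x F (j + 1) := by
  have : (M F j : ℝ) ≠ 0 := by exact_mod_cast (M_pos F j).ne'
  unfold w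
  field_simp

/-- one of the candidate intervals is free -/
theorem free {F : ℝ → ℝ} (hF : ∀ x, 0 < x → 0 < F x ∧ F x ≤ x) (j : ℕ) {ι : Type} [Fintype ι]
    (μ : ι → ℝ) (hμ : ∑ i, μ i ^ 2 ≤ 1) : ∃ m : Fin (M F j), ∀ i,
      x F (j + 1) + (m + 1) * w F j ≤ |μ i| ∨ |μ i| ≤ x F (j + 1) + m * w F j := by
  classical
  by_contra hcon
  push Not at hcon
  choose f hf using hcon
  have hw := w_pos hF j
  have hx := x_pos hF (j + 1)
  have hinj : Function.Injective f := by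
    intro m m' h
    by_contra hne
    have key : ∀ m m' : Fin (M F j), f m = f m' → ¬ (m < m') := by
      intro m m' h hlt
      have h1 := (hf m).1
      have h2 := (hf m').2
      rw [h] at h1
      have h3 : ((m : ℕ) : ℝ) + 1 ≤ ((m' : ℕ) : ℝ) := by exact_mod_cast hlt
      have h4 : (((m : ℕ) : ℝ) + 1) * w F j ≤ ((m' : ℕ) : ℝ) * w F j :=
        mul_le_mul_of_nonneg_right h3 hw.le
      linarith
    rcases lt_or_gt_of_ne hne with h' | h'
    · exact key m m' h h'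
    · exact key m' m h.symm h'
  have hge : ∀ m, (x F (j + 1)) ^ 2 ≤ μ (f m) ^ 2 := by
    intro m
    have h2 := (hf m).2
    have h3 : (0 : ℝ) ≤ ((m : ℕ) : ℝ) * w F j := by positivity
    have h4 : x F (j + 1) ≤ |μ (f m)| := by linarith
    calc (x F (j + 1)) ^ 2 ≤ |μ (f m)| ^ 2 := pow_le_pow_left₀ hx.le h4 2
      _ = μ (f m) ^ 2 := sq_abs _
  have h1 : ∑ m : Fin (M F j), μ (f m) ^ 2 ≤ ∑ i, μ i ^ 2 := by
    rw [← Finset.sum_image (f := fun i => μ i ^ 2) (s := Finset.univ) (g := f)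
      (fun a _ b _ h => hinj h)]
    exact Finset.sum_le_sum_of_subset_of_nonneg (Finset.subset_univ _)
      (fun i _ _ => sq_nonneg _)
  have h2 : (M F j : ℝ) * (x F (j + 1)) ^ 2 ≤ ∑ m : Fin (M F j), μ (f m) ^ 2 := by
    calc (M F j : ℝ) * (x F (j + 1)) ^ 2 = ∑ _m : Fin (M F j), (x F (j + 1)) ^ 2 := by
          simp
      _ ≤ _ := Finset.sum_le_sum fun m _ => hge m
  have h3 := one_lt_M hF j
  linarith

/-- one of the bands is light -/
theorem light {F : ℝ → ℝ} (hF : ∀ x, 0 < x → 0 < F x ∧ F x ≤ x) {ζ : ℝ} {K : ℕ}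
    (hK : 1 < K * ζ) {ι : Type} [Fintype ι] (μ : ι → ℝ) (hμ : ∑ i, μ i ^ 2 ≤ 1) :
    ∃ j : Fin K, ∑ i with x F (j + 1) ≤ |μ i| ∧ |μ i| < x F j, μ i ^ 2 ≤ ζ := by
  classical
  by_contra hcon
  push Not at hcon
  have h1 : (K : ℝ) * ζ ≤ ∑ j : Fin K,
      ∑ i with x F ((j : ℕ) + 1) ≤ |μ i| ∧ |μ i| < x F j, μ i ^ 2 := by
    calc (K : ℝ) * ζ = ∑ _j : Fin K, ζ := by simp
      _ ≤ _ := Finset.sum_le_sum fun j _ => (hcon j).le
  have h2 : ∑ j : Fin K, ∑ i with x F ((j : ℕ) + 1) ≤ |μ i| ∧ |μ i| < x F j, μ i ^ 2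
      ≤ ∑ i, μ i ^ 2 := by
    rw [← Finset.sum_biUnion]
    · exact Finset.sum_le_sum_of_subset_of_nonneg (Finset.subset_univ _)
        (fun i _ _ => sq_nonneg _)
    · intro j _ j' _ hne
      have key : ∀ j j' : Fin K, j < j' → ∀ i,
          (x F ((j : ℕ) + 1) ≤ |μ i| ∧ |μ i| < x F j) →
          ¬ (x F ((j' : ℕ) + 1) ≤ |μ i| ∧ |μ i| < x F j') := by
        intro j j' hlt i h h'
        have h3 : x F (j' : ℕ) ≤ x F ((j : ℕ) + 1) := x_anti hF (by exact_mod_cast hlt)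
        linarith [h.1, h'.2]
      simp only [Function.onFun]
      rw [Finset.disjoint_left]
      intro i hi hi'
      simp only [Finset.mem_filter, Finset.mem_univ, true_and] at hi hi'
      rcases lt_or_gt_of_ne hne with h | h
      · exact key j j' h i hi hi'
      · exact key j' j h i hi' hi
  linarith

/-- the centre of a candidate interval -/
noncomputable def cen (F : ℝ → ℝ) {K : ℕ} (p : Σ j : Fin K, Fin (M F j)) : ℝ :=
  x F (p.1 + 1) + ((p.2 : ℕ) + 1 / 2) * w F p.1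

end Scl

open Scl in
theorem scales (ζ : ℝ) (hζ : 0 < ζ) (F : ℝ → ℝ) (hF : ∀ x, 0 < x → 0 < F x ∧ F x ≤ x) :
    ∃ (n : ℕ) (hi l0 g : Fin n → ℝ), (∀ a, 0 < g a ∧ g a < l0 a ∧ l0 a ≤ F (hi a) ∧
      0 < hi a ∧ hi a ≤ 1) ∧
      ∀ {ι : Type} [Fintype ι] (μ : ι → ℝ), ∑ i, μ i ^ 2 ≤ 1 → ∃ a : Fin n,
        (∀ i, l0 a + g a ≤ |μ i| ∨ |μ i| ≤ l0 a - g a) ∧
        ∑ i with l0 a ≤ |μ i| ∧ |μ i| < hi a, μ i ^ 2 ≤ ζ := by
  classical
  obtain ⟨K, hK⟩ : ∃ K : ℕ, 1 < K * ζ := by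
    obtain ⟨K, hK⟩ := exists_nat_gt (1 / ζ)
    exact ⟨K, (div_lt_iff₀ hζ).1 hK⟩
  let e := Fintype.equivFin (Σ j : Fin K, Fin (M F j))
  refine ⟨Fintype.card (Σ j : Fin K, Fin (M F j)), fun a => x F (e.symm a).1,
    fun a => cen F (e.symm a),
    fun a => w F (e.symm a).1 / 2, ?_, ?_⟩
  · intro a
    beta_reduce
    generalize e.symm a = p
    obtain ⟨j, m⟩ := p
    have hw := w_pos hF j
    have hx := x_pos hF ((j : ℕ) + 1)
    have hx0 := x_pos hF (j : ℕ)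
    have hm0 : (0 : ℝ) ≤ ((m : ℕ) : ℝ) * w F j := by positivity
    have hm1 : ((m : ℕ) : ℝ) + 1 ≤ (M F j : ℝ) := by exact_mod_cast m.2
    have hm2 : (((m : ℕ) : ℝ) + 1) * w F j ≤ x F ((j : ℕ) + 1) := by
      rw [← M_mul_w]
      exact mul_le_mul_of_nonneg_right hm1 hw.le
    have hxx : x F ((j : ℕ) + 1) = F (x F j) / 2 := rfl
    refine ⟨half_pos hw, ?_, ?_, hx0, x_le_one hF _⟩
    · show w F j / 2 < x F ((j : ℕ) + 1) + (((m : ℕ) : ℝ) + 1 / 2) * w F j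
      linarith
    · show x F ((j : ℕ) + 1) + (((m : ℕ) : ℝ) + 1 / 2) * w F j ≤ F (x F j)
      linarith
  · intro ι _ μ hμ
    obtain ⟨j, hj⟩ := light hF hK μ hμ
    obtain ⟨m, hm⟩ := free hF j μ hμ
    refine ⟨e ⟨j, m⟩, ?_, ?_⟩
    · intro i
      simp only [Equiv.symm_apply_apply]
      simp only [cen]
      rcases hm i with h | h
      · left
        linarith
      · right
        linarith
    · simp only [Equiv.symm_apply_apply]
      simp only [cen]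
      refine le_trans (Finset.sum_le_sum_of_subset_of_nonneg ?_ (fun i _ _ => sq_nonneg _)) hj
      intro i hi
      simp only [Finset.mem_filter, Finset.mem_univ, true_and] at hi ⊢
      have hw := w_pos hF j
      have hm0 : (0 : ℝ) ≤ ((m : ℕ) : ℝ) * w F j := by positivity
      refine ⟨?_, hi.2⟩
      linarith [hi.1]

end Fr

end Pool.Agent.SRL
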