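import Mathlib
import Pool.Agent.SRL.FDefs

/-! Row F6a: the spectral theorem for symmetric kernels. -/

set_option autoImplicit false

namespace Pool.Agent.SRL

open Finset

namespace Fr

theorem spectral {Q : Type} [Fintype Q] [Nonempty Q] (T : Q → Q → ℝ) (hT : Col T) :
    ∃ (μ : Q → ℝ) (v : Q → Q → ℝ), (open Classical in
      ∀ i j, ip (v i) (v j) = if i = j then 1 else 0) ∧
      (∀ i, op T (v i) = μ i • v i) ∧ (∀ f : Q → ℝ, f = ∑ i, ip (v i) f • v i) ∧
      ∑ i, μ i ^ 2 ≤ 1 := by
  classical
  have hN : (0 : ℝ) < Fintype.card Q := by exact_mod_cast Fintype.card_pos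
  set N : ℝ := (Fintype.card Q : ℝ) with hNdef
  set r : ℝ := Real.sqrt N with hr
  have hrr : r * r = N := Real.mul_self_sqrt hN.le
  let A : Matrix Q Q ℝ := Matrix.of fun p q => T p q / N
  have hA : A.IsHermitian := by
    ext p q
    simp only [A, Matrix.conjTranspose_apply, Matrix.of_apply, star_trivial]
    rw [hT.symm]
  let b := hA.eigenvectorBasis
  let B : Q → Q → ℝ := fun i p => (b i).ofLp p
  have hin : ∀ x y : EuclideanSpace ℝ Q, inner ℝ x y = ∑ p, x.ofLp p * y.ofLp p := by
    intro x y
    rw [PiLp.inner_apply]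
    refine Finset.sum_congr rfl fun p _ => ?_
    simp [mul_comm]
  have hB : ∀ i j, ∑ p, B i p * B j p = if i = j then 1 else 0 := by
    intro i j
    have h1 := orthonormal_iff_ite.1 b.orthonormal i j
    rw [hin] at h1
    exact h1
  have hAB : ∀ i p, ∑ q, T p q / N * B i q = hA.eigenvalues i * B i p := by
    intro i p
    have h1 := congrFun (hA.mulVec_eigenvectorBasis i) p
    simp only [Matrix.mulVec, dotProduct, A, Matrix.of_apply, Pi.smul_apply, smul_eq_mul] at h1
    exact h1
  have hexp : ∀ (f : Q → ℝ) (p : Q), f p = ∑ i, (∑ q, B i q * f q) * B i p := by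
    intro f p
    have h1 := b.sum_repr' (WithLp.toLp 2 f : EuclideanSpace ℝ Q)
    have h2 := congrArg (fun x : EuclideanSpace ℝ Q => x.ofLp p) h1
    simp only [WithLp.ofLp_sum, Finset.sum_apply, WithLp.ofLp_smul, Pi.smul_apply, smul_eq_mul,
      hin] at h2
    exact h2.symm
  refine ⟨hA.eigenvalues, fun i p => r * B i p, ?_, ?_, ?_, ?_⟩
  · intro i j
    unfold ip avg
    have h1 : ∑ p, r * B i p * (r * B j p) = N * ∑ p, B i p * B j p := by
      rw [Finset.mul_sum, ← hrr]
      refine Finset.sum_congr rfl fun p _ => ?_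
      ring
    rw [h1, hB, ← hNdef]
    split_ifs <;> field_simp
  · intro i
    funext p
    unfold op avg
    simp only [Pi.smul_apply, smul_eq_mul]
    have h1 : (∑ q, T p q * (r * B i q)) / (Fintype.card Q : ℝ) = r * ∑ q, T p q / N * B i q := by
      rw [Finset.mul_sum, Finset.sum_div]
      refine Finset.sum_congr rfl fun q _ => ?_
      rw [← hNdef]
      ring
    rw [h1, hAB]
    ring
  · intro f
    funext p
    rw [Finset.sum_apply]
    conv_lhs => rw [hexp f p]
    refine Finset.sum_congr rfl fun i _ => ?_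
    simp only [Pi.smul_apply, smul_eq_mul]
    unfold ip avg
    have h1 : ∑ q, r * B i q * f q = r * ∑ q, B i q * f q := by
      rw [Finset.mul_sum]
      refine Finset.sum_congr rfl fun q _ => ?_
      ring
    rw [h1, ← hNdef]
    have h2 : r * (∑ q, B i q * f q) / N * (r * B i p) =
        (r * r) * ((∑ q, B i q * f q) * B i p) / N := by ring
    rw [h2, hrr]
    field_simp
  · have h1 : ∀ i, hA.eigenvalues i ^ 2 = ∑ p, (∑ q, T p q / N * B i q) ^ 2 := by
      intro i
      simp_rw [hAB]
      have h2 : ∑ p, (hA.eigenvalues i * B i p) ^ 2 = hA.eigenvalues i ^ 2 * ∑ p, B i p * B i p := by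
        rw [Finset.mul_sum]
        refine Finset.sum_congr rfl fun p _ => ?_
        ring
      rw [h2, hB, if_pos rfl, mul_one]
    simp_rw [h1]
    rw [Finset.sum_comm]
    have h3 : ∀ p, ∑ i, (∑ q, T p q / N * B i q) ^ 2 = ∑ q, (T p q / N) ^ 2 := by
      intro p
      have h4 := b.sum_sq_inner_right (WithLp.toLp 2 (fun q => T p q / N) : EuclideanSpace ℝ Q)
      rw [EuclideanSpace.real_norm_sq_eq] at h4
      simp only [hin] at h4
      rw [← h4]
      refine Finset.sum_congr rfl fun i _ => ?_
      congr 1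
      refine Finset.sum_congr rfl fun q _ => ?_
      exact mul_comm _ _
    simp_rw [h3]
    calc ∑ p, ∑ q, (T p q / N) ^ 2 ≤ ∑ _p : Q, ∑ _q : Q, 1 / N ^ 2 := by
          refine Finset.sum_le_sum fun p _ => Finset.sum_le_sum fun q _ => ?_
          rw [div_pow]
          gcongr
          exact pow_le_one₀ (hT.nonneg p q) (hT.le_one p q)
      _ = 1 := by
          simp only [Finset.sum_const, Finset.card_univ, nsmul_eq_mul, ← hNdef]
          field_simp

end Fr

end Pool.Agent.SRL
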