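import Mathlib
import Pool.Agent.SRL.Defs

/-!
Linear size-Ramsey number of grids: averages, resampling of blocks, Bessel inequality
(helper23, row P2).
-/

set_option autoImplicit false
set_option linter.unusedSectionVars false
set_option linter.unusedVariables false

namespace Pool.Agent.SRL

namespace Stt

open Finset

section avgs

variable {α β : Type} [Fintype α] [Fintype β]

theorem avg_add (f g : α → ℝ) : avg (fun a => f a + g a) = avg f + avg g := by
  simp only [avg, Finset.sum_add_distrib, add_div]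

theorem avg_sub (f g : α → ℝ) : avg (fun a => f a - g a) = avg f - avg g := by
  simp only [avg, Finset.sum_sub_distrib, sub_div]

theorem avg_mul_left (c : ℝ) (f : α → ℝ) : avg (fun a => c * f a) = c * avg f := by
  simp only [avg, ← Finset.mul_sum, mul_div_assoc]

theorem avg_mul_right (c : ℝ) (f : α → ℝ) : avg (fun a => f a * c) = avg f * c := by
  simp only [mul_comm _ c, avg_mul_left]

theorem avg_const [Nonempty α] (c : ℝ) : avg (fun _ : α => c) = c := by
  have h : (Fintype.card α : ℝ) ≠ 0 := Nat.cast_ne_zero.mpr Fintype.card_ne_zero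
  simp only [avg, Finset.sum_const, Finset.card_univ, nsmul_eq_mul]
  field_simp

theorem avg_zero : avg (fun _ : α => (0 : ℝ)) = 0 := by
  simp [avg]

theorem avg_mono {f g : α → ℝ} (h : ∀ a, f a ≤ g a) : avg f ≤ avg g := by
  unfold avg
  exact div_le_div_of_nonneg_right (Finset.sum_le_sum fun a _ => h a) (Nat.cast_nonneg _)

theorem avg_nonneg {f : α → ℝ} (h : ∀ a, 0 ≤ f a) : 0 ≤ avg f := by
  unfold avg
  exact div_nonneg (Finset.sum_nonneg fun a _ => h a) (Nat.cast_nonneg _)

theorem avg_equiv (e : α ≃ β) (f : β → ℝ) : avg (fun a => f (e a)) = avg f := by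
  unfold avg
  rw [Fintype.card_congr e, Equiv.sum_comp e f]

theorem avg_prod (f : α × β → ℝ) : avg f = avg (fun a => avg (fun b => f (a, b))) := by
  unfold avg
  rw [Fintype.card_prod, Fintype.sum_prod_type, ← Finset.sum_div, Nat.cast_mul, div_div,
    mul_comm (Fintype.card α : ℝ)]

theorem avg_comm (f : α → β → ℝ) :
    avg (fun a => avg (fun b => f a b)) = avg (fun b => avg (fun a => f a b)) := by
  rw [← avg_prod (fun p : α × β => f p.1 p.2), ← avg_prod (fun p : β × α => f p.2 p.1),
    ← avg_equiv (Equiv.prodComm β α) (fun p : α × β => f p.1 p.2)]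
  rfl

theorem avg_finsum {ι : Type} (s : Finset ι) (f : ι → α → ℝ) :
    avg (fun a => ∑ i ∈ s, f i a) = ∑ i ∈ s, avg (f i) := by
  unfold avg
  rw [Finset.sum_comm, Finset.sum_div]

theorem sum_eq_card_mul_avg [Nonempty α] (f : α → ℝ) : ∑ a, f a = Fintype.card α * avg f := by
  have h : (Fintype.card α : ℝ) ≠ 0 := Nat.cast_ne_zero.mpr Fintype.card_ne_zero
  unfold avg
  field_simp

theorem le_card_mul_avg [Nonempty α] {f : α → ℝ} (h : ∀ a, 0 ≤ f a) (a : α) :
    f a ≤ Fintype.card α * avg f := by
  rw [← sum_eq_card_mul_avg]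
  exact Finset.single_le_sum (fun b _ => h b) (Finset.mem_univ a)

theorem avg_fst [Nonempty β] (f : α → ℝ) : avg (fun p : α × β => f p.1) = avg f := by
  rw [avg_prod]
  exact congrArg avg (funext fun a => avg_const (α := β) (f a))

theorem avg_snd [Nonempty α] (f : β → ℝ) : avg (fun p : α × β => f p.2) = avg f := by
  rw [avg_prod]
  exact avg_const (α := α) (avg f)

end avgs

section blocks

variable {I Z C C' : Type} [Fintype I] [DecidableEq I] [Fintype Z] [Nonempty Z]
  [Fintype C] [DecidableEq C] [Fintype C'] [DecidableEq C']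

theorem extend_comp {c : C → I} (hc : Function.Injective c) (z : C → Z) (y : I → Z) :
    (Function.extend c z y) ∘ c = z := funext fun a => hc.extend_apply z y a

theorem extend_extend {c : C → I} (hc : Function.Injective c) (z : C → Z) (y : I → Z) :
    Function.extend c (y ∘ c) (Function.extend c z y) = y := by
  funext i
  by_cases h : ∃ a, c a = i
  · obtain ⟨a, rfl⟩ := h
    rw [hc.extend_apply]; rfl
  · rw [Function.extend_apply' _ _ _ h, Function.extend_apply' _ _ _ h]

/-- Exchange of the block `c` of `y` and `z`. -/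
noncomputable def swapE {c : C → I} (hc : Function.Injective c) :
    Equiv.Perm ((I → Z) × (C → Z)) where
  toFun p := (Function.extend c p.2 p.1, p.1 ∘ c)
  invFun p := (Function.extend c p.2 p.1, p.1 ∘ c)
  left_inv p := Prod.ext (extend_extend hc p.2 p.1) (extend_comp hc p.2 p.1)
  right_inv p := Prod.ext (extend_extend hc p.2 p.1) (extend_comp hc p.2 p.1)

/-- Conditional expectation given the block `c`. -/
noncomputable def cexp (c : C → I) (F : (I → Z) → ℝ) (z : C → Z) : ℝ :=
  avg (fun y : I → Z => F (Function.extend c z y))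

theorem avg_comp {c : C → I} (hc : Function.Injective c) (φ : (C → Z) → ℝ) :
    avg (fun y : I → Z => φ (y ∘ c)) = avg φ := by
  rw [← avg_fst (β := C → Z), ← avg_equiv (swapE hc), ← avg_snd (α := I → Z) (β := C → Z) φ]
  refine congrArg avg (funext fun p => ?_)
  show φ ((Function.extend c p.2 p.1) ∘ c) = φ p.2
  rw [extend_comp hc]

theorem avg_block_mul {c : C → I} (hc : Function.Injective c) (φ : (C → Z) → ℝ)
    (F : (I → Z) → ℝ) :
    avg (fun y : I → Z => φ (y ∘ c) * F y) = avg (fun z => φ z * cexp c F z) := by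
  rw [← avg_fst (β := C → Z) (fun y : I → Z => φ (y ∘ c) * F y), ← avg_equiv (swapE hc)]
  have h : (fun z => φ z * cexp c F z) =
      fun z => avg (fun y : I → Z => φ z * F (Function.extend c z y)) := by
    funext z
    rw [avg_mul_left]; rfl
  rw [h, avg_comm, ← avg_prod (fun p : (I → Z) × (C → Z) => φ p.2 * F (Function.extend c p.2 p.1))]
  refine congrArg avg (funext fun p => ?_)
  show φ ((Function.extend c p.2 p.1) ∘ c) * _ = φ p.2 * _
  rw [extend_comp hc]; rfl

theorem avg_block_mul_block {c : C → I} {c' : C' → I} (hc : Function.Injective c)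
    (hc' : Function.Injective c') (hdis : ∀ a b, c a ≠ c' b) (φ : (C → Z) → ℝ)
    (ψ : (C' → Z) → ℝ) :
    avg (fun y : I → Z => φ (y ∘ c) * ψ (y ∘ c')) = avg φ * avg ψ := by
  rw [avg_block_mul hc φ (fun y => ψ (y ∘ c'))]
  have h : ∀ z, cexp c (fun y : I → Z => ψ (y ∘ c')) z = avg ψ := by
    intro z
    unfold cexp
    rw [← avg_comp (Z := Z) hc' ψ]
    refine congrArg avg (funext fun y => congrArg ψ (funext fun b => ?_))
    show Function.extend c z y (c' b) = y (c' b)
    exact Function.extend_apply' _ _ _ (fun ⟨a, ha⟩ => hdis a b ha)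
  simp only [h]
  rw [avg_mul_right]

theorem avg_cexp {c : C → I} (hc : Function.Injective c) (F : (I → Z) → ℝ) :
    avg (cexp c F) = avg F := by
  have h := avg_block_mul hc (fun _ => (1 : ℝ)) F
  simp only [one_mul] at h
  exact h.symm

/-- Bessel inequality for disjoint blocks. -/
theorem bessel {m : ℕ} (c : Fin m → C → I) (hc : ∀ j, Function.Injective (c j))
    (hdis : ∀ j j', j ≠ j' → ∀ a b, c j a ≠ c j' b) (F : (I → Z) → ℝ) :
    ∑ j, avg (fun z => (cexp (c j) F z - avg F) ^ 2) ≤ avg (fun y => F y ^ 2) := by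
  set μ := avg F with hμ
  set g : Fin m → (C → Z) → ℝ := fun j z => cexp (c j) F z - μ with hg
  have hg0 : ∀ j, avg (g j) = 0 := by
    intro j
    rw [hg]
    simp only
    rw [avg_sub, avg_cexp (hc j) F, avg_const, ← hμ, sub_self]
  have h0 : 0 ≤ avg (fun y : I → Z => (F y - ∑ j, g j (y ∘ c j)) ^ 2) :=
    avg_nonneg fun y => sq_nonneg _
  have hexp : ∀ y : I → Z, (F y - ∑ j, g j (y ∘ c j)) ^ 2 =
      F y ^ 2 - 2 * (∑ j, g j (y ∘ c j) * F y) +
        ∑ j, ∑ j', g j (y ∘ c j) * g j' (y ∘ c j') := by
    intro y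
    rw [← Finset.sum_mul, ← Finset.sum_mul_sum]
    ring
  have h1 : ∀ j, avg (fun y : I → Z => g j (y ∘ c j) * F y) = avg (fun z => g j z ^ 2) := by
    intro j
    rw [avg_block_mul (hc j) (g j) F]
    have : (fun z => g j z * cexp (c j) F z) = fun z => g j z ^ 2 + μ * g j z := by
      funext z
      rw [hg]; simp only; ring
    rw [this, avg_add, avg_mul_left, hg0 j]
    ring
  have h2 : ∀ j j', avg (fun y : I → Z => g j (y ∘ c j) * g j' (y ∘ c j')) =
      if j = j' then avg (fun z => g j z ^ 2) else 0 := by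
    intro j j'
    by_cases h : j = j'
    · subst h
      rw [if_pos rfl, ← avg_comp (Z := Z) (hc j) (fun z => g j z ^ 2)]
      refine congrArg avg (funext fun y => ?_)
      ring
    · rw [if_neg h, avg_block_mul_block (hc j) (hc j') (hdis j j' h), hg0 j, zero_mul]
  simp only [hexp] at h0
  rw [avg_add, avg_sub, avg_mul_left, avg_finsum, avg_finsum] at h0
  simp only [h1, avg_finsum, h2] at h0
  simp only [Finset.sum_ite_eq, Finset.mem_univ, if_true] at h0
  linarith

end blocks

end Stt

end Pool.Agent.SRL
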