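import Mathlib
import Pool.Agent.SRL.StatAvg

/-!
Linear size-Ramsey number of grids: Poincare inequality and mixing (helper23, row P2).
-/

set_option autoImplicit false
set_option linter.unusedSectionVars false
set_option linter.unusedVariables false

namespace Pool.Agent.SRL

open Finset Stt

section spectral

variable {I L X : Type} [DecidableEq I] [Fintype I] [Fintype L] [Fintype X]

namespace Stt

/-- Exchange of the letter of class `b` and an extra letter. -/
def updE (b : I) : Equiv.Perm (St I L X × L) where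
  toFun p := ((p.1.1, Function.update p.1.2 b p.2), p.1.2 b)
  invFun p := ((p.1.1, Function.update p.1.2 b p.2), p.1.2 b)
  left_inv p := by simp
  right_inv p := by simp

/-- Resampling of the letter of class `b`. -/
theorem avg_upd [Nonempty L] (b : I) (F : St I L X → ℝ) :
    avg (fun V : St I L X => avg (fun s : L => F (V.1, Function.update V.2 b s))) = avg F := by
  rw [← avg_prod (fun p : St I L X × L => F (p.1.1, Function.update p.1.2 b p.2)),
    ← avg_fst (β := L) F, ← avg_equiv (updE b) (fun p : St I L X × L => F p.1)]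
  rfl

theorem avg_flip (S : CS I L X) (b : I) (F : St I L X → ℝ) :
    avg (fun V => F (S.flip b V)) = avg F := avg_equiv (S.flipPerm b) F

theorem A_indep (S : CS I L X) (b : I) (f : St I L X → ℝ) : Indep b (S.A b f) := by
  intro x φ s
  unfold CS.A
  simp only [Function.update_idem]

theorem avg_mul_A [Nonempty L] (S : CS I L X) (b : I) (f k : St I L X → ℝ) (hk : Indep b k) :
    avg (fun V => k V * S.A b f V) = avg (fun V => k V * f (S.flip b V)) := by
  rw [← avg_upd b (fun V => k V * f (S.flip b V))]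
  refine congrArg avg (funext fun V => ?_)
  have : ∀ s : L, k (V.1, Function.update V.2 b s) = k V := fun s => hk V.1 V.2 s
  simp only [this]
  rw [avg_mul_left]
  rfl

theorem avg_A [Nonempty L] (S : CS I L X) (b : I) (f : St I L X → ℝ) :
    avg (S.A b f) = avg f := by
  have h := avg_mul_A S b f (fun _ => 1) (fun _ _ _ => rfl)
  simp only [one_mul] at h
  rw [avg_flip] at h
  exact h

theorem avg_mul_sq_le {α : Type} [Fintype α] [Nonempty α] (f g : α → ℝ) :
    (avg (fun a => f a * g a)) ^ 2 ≤ avg (fun a => f a ^ 2) * avg (fun a => g a ^ 2) := by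
  have h := Finset.sum_mul_sq_le_sq_mul_sq Finset.univ f g
  have hc : (0 : ℝ) < Fintype.card α := Nat.cast_pos.mpr Fintype.card_pos
  unfold avg
  rw [div_pow, div_mul_div_comm, ← sq]
  exact div_le_div_of_nonneg_right h (by positivity)

/-- The core computation: `f = m + c σ + f0`, where the flips of class `b` change the sign of
`σ`. -/
theorem core [Nonempty L] [Nonempty X] (S : CS I L X) {lam : ℝ} (b : I)
    (f σ f0 : St I L X → ℝ) (m c : ℝ) (hf0 : Indep b f0) (hσi : Indep b σ)
    (hdec : ∀ V, f V = m + c * σ V + f0 V)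
    (hσ : ∀ V, σ (S.flip b V) = - σ V) (h1 : avg f0 = 0) (h2 : avg (fun V => σ V * f0 V) = 0)
    (h3 : avg σ = 0)
    (hgap : avg (fun V => (S.A b f0 V) ^ 2) ≤ lam ^ 2 * avg (fun V => f0 V ^ 2))
    (hl0 : 0 ≤ lam) :
    avg f = m ∧
    avg (fun V => f V ^ 2) = m ^ 2 + c ^ 2 * avg (fun V => σ V ^ 2) + avg (fun V => f0 V ^ 2) ∧
    2 * (1 - lam) * (avg (fun V => f V ^ 2) - m ^ 2) ≤
      avg (fun V => (f (S.flip b V) - f V) ^ 2) := by
  have hm : avg f = m := by
    have : f = fun V => (m + c * σ V) + f0 V := funext hdec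
    rw [this, avg_add, avg_add, avg_mul_left, avg_const, h1, h3]; ring
  have hsq : avg (fun V => f V ^ 2) =
      m ^ 2 + c ^ 2 * avg (fun V => σ V ^ 2) + avg (fun V => f0 V ^ 2) := by
    have : (fun V => f V ^ 2) = fun V => ((m ^ 2 + c ^ 2 * σ V ^ 2) + f0 V ^ 2) +
        ((2 * m * c) * σ V + (2 * m) * f0 V + (2 * c) * (σ V * f0 V)) := by
      funext V; rw [hdec V]; ring
    rw [this, avg_add, avg_add, avg_add, avg_add, avg_add, avg_mul_left, avg_mul_left,
      avg_mul_left, avg_mul_left, avg_const, h1, h2, h3]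
    ring
  refine ⟨hm, hsq, ?_⟩
  -- the cross term
  have hcross : avg (fun V => f V * f (S.flip b V)) =
      m ^ 2 - c ^ 2 * avg (fun V => σ V ^ 2) + avg (fun V => f0 V * S.A b f0 V) := by
    have e1 : (fun V => f V * f (S.flip b V)) = fun V =>
        ((m ^ 2 - c ^ 2 * σ V ^ 2) + f0 V * f0 (S.flip b V)) +
        (m * f0 V + m * f0 (S.flip b V) - c * (σ V * f0 V) -
          c * (σ (S.flip b V) * f0 (S.flip b V))) := by
      funext V; rw [hdec V, hdec (S.flip b V), hσ V]; ring
    have e2 : avg (fun V => f0 V * f0 (S.flip b V)) = avg (fun V => f0 V * S.A b f0 V) :=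
      (avg_mul_A S b f0 f0 hf0).symm
    have e3 : avg (fun V => f0 (S.flip b V)) = 0 := by rw [avg_flip]; exact h1
    have e4 : avg (fun V => σ (S.flip b V) * f0 (S.flip b V)) = 0 := by
      rw [avg_flip S b (fun V => σ V * f0 V)]; exact h2
    rw [e1, avg_add, avg_add, avg_sub, avg_sub, avg_sub, avg_add, avg_mul_left, avg_mul_left,
      avg_mul_left, avg_mul_left, avg_mul_left, avg_const, e2, e3, e4, h1, h2]
    ring
  have hq : 0 ≤ avg (fun V => σ V ^ 2) := avg_nonneg fun V => sq_nonneg _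
  have hz : 0 ≤ avg (fun V => f0 V ^ 2) := avg_nonneg fun V => sq_nonneg _
  have hcs : avg (fun V => f0 V * S.A b f0 V) ≤ lam * avg (fun V => f0 V ^ 2) := by
    have h := avg_mul_sq_le f0 (S.A b f0)
    have h' : (avg (fun V => f0 V * S.A b f0 V)) ^ 2 ≤ (lam * avg (fun V => f0 V ^ 2)) ^ 2 := by
      calc _ ≤ _ := h
        _ ≤ avg (fun V => f0 V ^ 2) * (lam ^ 2 * avg (fun V => f0 V ^ 2)) :=
          mul_le_mul_of_nonneg_left hgap hz
        _ = _ := by ring
    exact le_of_sq_le_sq_of_nonneg' h' (mul_nonneg hl0 hz)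
  have htot : avg (fun V => (f (S.flip b V) - f V) ^ 2) =
      2 * avg (fun V => f V ^ 2) - 2 * avg (fun V => f V * f (S.flip b V)) := by
    have e1 : (fun V => (f (S.flip b V) - f V) ^ 2) = fun V =>
        (f (S.flip b V) ^ 2 + f V ^ 2) - 2 * (f V * f (S.flip b V)) := by
      funext V; ring
    rw [e1, avg_sub, avg_add, avg_mul_left, avg_flip S b (fun V => f V ^ 2)]
    ring
  rw [htot, hcross, hsq]
  nlinarith [mul_nonneg (sq_nonneg c) hq, mul_nonneg hl0 (mul_nonneg (sq_nonneg c) hq)]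
where
  le_of_sq_le_sq_of_nonneg' {a b : ℝ} (h : a ^ 2 ≤ b ^ 2) (hb : 0 ≤ b) : a ≤ b :=
    le_trans (le_abs_self a) (abs_le_of_sq_le_sq h hb)

/-- The decomposition given by the gap. -/
theorem decomp [Nonempty L] [Nonempty X] (S : CS I L X) {sgn : X → ℝ} {lam : ℝ}
    (hg : Gap S sgn lam) (b : I) (f : St I L X → ℝ) (hf : Indep b f) :
    ∃ (σ f0 : St I L X → ℝ) (c : ℝ), Indep b f0 ∧ Indep b σ ∧
      (∀ V, f V = avg f + c * σ V + f0 V) ∧ (∀ V, σ (S.flip b V) = - σ V) ∧ avg f0 = 0 ∧
      avg (fun V => σ V * f0 V) = 0 ∧ avg σ = 0 ∧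
      avg (fun V => (S.A b f0 V) ^ 2) ≤ lam ^ 2 * avg (fun V => f0 V ^ 2) ∧
      (∀ V, σ V = 0 ∧ c = 0 ∨ (σ V) ^ 2 = 1 ∧ c = avg (fun V => σ V * f V)) ∧
      ((∀ V, σ V = 0 ∧ c = 0) ∨ ((∀ V, (σ V) ^ 2 = 1) ∧ c = avg (fun V => σ V * f V))) := by
  have hsum : ∀ F : St I L X → ℝ, ∑ V, F V = 0 ↔ avg F = 0 := by
    intro F
    have hc : (Fintype.card (St I L X) : ℝ) ≠ 0 := Nat.cast_ne_zero.mpr Fintype.card_ne_zero
    unfold avg
    constructor
    · intro h; rw [h, zero_div]
    · intro h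
      rcases div_eq_zero_iff.mp h with h | h
      · exact h
      · exact absurd h hc
  have hgap : ∀ f0 : St I L X → ℝ, Indep b f0 → avg f0 = 0 → avg (fun V => sgn V.1 * f0 V) = 0 →
      avg (fun V => (S.A b f0 V) ^ 2) ≤ lam ^ 2 * avg (fun V => f0 V ^ 2) := by
    intro f0 hi h1 h2
    have h := hg.gap b f0 hi ((hsum _).mpr h1) ((hsum _).mpr h2)
    unfold avg
    rw [← mul_div_assoc]
    exact div_le_div_of_nonneg_right h (Nat.cast_nonneg _)
  rcases hg.alt with hone | ⟨hbal, halt⟩
  · refine ⟨fun _ => 0, fun V => f V - avg f, 0, ?_, fun _ _ _ => rfl, fun V => by ring,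
      fun V => by simp, ?_, ?_, avg_zero, ?_, fun V => Or.inl ⟨rfl, rfl⟩,
      Or.inl fun V => ⟨rfl, rfl⟩⟩
    · intro x φ s; simp only [hf x φ s]
    · rw [avg_sub, avg_const, sub_self]
    · simp only [zero_mul]; exact avg_zero
    · refine hgap _ ?_ ?_ ?_
      · intro x φ s; simp only [hf x φ s]
      · rw [avg_sub, avg_const, sub_self]
      · simp only [hone, one_mul]
        rw [avg_sub, avg_const, sub_self]
  · set c := avg (fun V : St I L X => sgn V.1 * f V) with hc
    have hsq : ∀ x, sgn x ^ 2 = 1 := by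
      intro x
      rcases hg.val x with h | h <;> rw [h] <;> norm_num
    have h3 : avg (fun V : St I L X => sgn V.1) = 0 := by
      rw [← hsum]
      rw [Fintype.sum_prod_type]
      simp only [Finset.sum_const, nsmul_eq_mul]
      rw [← Finset.mul_sum, hbal, mul_zero]
    have hf0i : Indep b (fun V : St I L X => f V - avg f - c * sgn V.1) := by
      intro x φ s
      simp only [hf x φ s]
    have h1 : avg (fun V : St I L X => f V - avg f - c * sgn V.1) = 0 := by
      rw [avg_sub, avg_sub, avg_const, avg_mul_left, h3]; ring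
    have h2 : avg (fun V : St I L X => sgn V.1 * (f V - avg f - c * sgn V.1)) = 0 := by
      have e : (fun V : St I L X => sgn V.1 * (f V - avg f - c * sgn V.1)) =
          fun V => sgn V.1 * f V - avg f * sgn V.1 - c := by
        funext V
        have := hsq V.1
        linear_combination (-c) * this
      rw [e, avg_sub, avg_sub, avg_mul_left, h3, avg_const, ← hc]; ring
    refine ⟨fun V => sgn V.1, fun V => f V - avg f - c * sgn V.1, c, hf0i, fun _ _ _ => rfl,
      fun V => by ring, fun V => halt b _ _, h1, h2, h3, hgap _ hf0i h1 h2,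
      fun V => Or.inr ⟨hsq V.1, rfl⟩, Or.inr ⟨fun V => hsq V.1, rfl⟩⟩

end Stt

/-- Poincare inequality. -/
theorem poincare [Nonempty L] [Nonempty X] (S : CS I L X) {sgn : X → ℝ} {lam : ℝ}
    (hg : Gap S sgn lam) (h0 : 0 ≤ lam) (h1 : lam ≤ 1) (b : I) (f : St I L X → ℝ)
    (hf : Indep b f) :
    2 * (1 - lam) * (avg (fun V => f V ^ 2) - (avg f) ^ 2) ≤
      avg (fun V => (f (S.flip b V) - f V) ^ 2) := by
  obtain ⟨σ, f0, c, hf0, hσi, hdec, hσ, e1, e2, e3, hgap, -, -⟩ := decomp S hg b f hf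
  exact (core S b f σ f0 (avg f) c hf0 hσi hdec hσ e1 e2 e3 hgap h0).2.2

/-- Mixing. -/
theorem mixing [Nonempty L] [Nonempty X] (S : CS I L X) {sgn : X → ℝ} {lam : ℝ}
    (hg : Gap S sgn lam) (b : I) (f : St I L X → ℝ)
    (hf : Indep b f) (h0 : ∀ V, 0 ≤ f V) (h1 : ∀ V, f V ≤ 1) :
    ∃ g h : St I L X → ℝ, (∀ V, S.A b f V = g V + h V) ∧
      (∀ V, 0 ≤ g V ∧ g V ≤ 2 * avg f) ∧ Indep b g ∧ Indep b h ∧
      avg (fun V => h V ^ 2) ≤ lam ^ 2 * avg f := by
  obtain ⟨σ, f0, c, hf0, hσi, hdec, hσ, e1, e2, e3, hgap, -, halt⟩ := decomp S hg b f hf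
  have hm : 0 ≤ avg f := avg_nonneg h0
  refine ⟨fun V => avg f - c * σ V, S.A b f0, ?_, ?_, ?_, A_indep S b f0, ?_⟩
  · intro V
    have hσ' : ∀ s : L, σ (S.flip b (V.1, Function.update V.2 b s)) = - σ V := by
      intro s
      rw [hσ, hσi]
    have e : (fun s : L => f (S.flip b (V.1, Function.update V.2 b s))) =
        fun s => (avg f - c * σ V) + f0 (S.flip b (V.1, Function.update V.2 b s)) := by
      funext s
      rw [hdec, hσ' s]; ring
    unfold CS.A
    rw [e, avg_add, avg_const]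
  · intro V
    rcases halt with h | ⟨hs, hc⟩
    · simp only [(h V).2, zero_mul, sub_zero]
      exact ⟨hm, by linarith⟩
    · -- `avg f - c σ V = avg ((1 - σ V σ) f)`
      have e : avg f - c * σ V = avg (fun V' => (1 - σ V * σ V') * f V') := by
        have : (fun V' => (1 - σ V * σ V') * f V') =
            fun V' => f V' - σ V * (σ V' * f V') := by funext V'; ring
        rw [this, avg_sub, avg_mul_left, ← hc]; ring
      have hb : ∀ V', -1 ≤ σ V * σ V' ∧ σ V * σ V' ≤ 1 := by
        intro V'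
        have hsq : (σ V * σ V') ^ 2 = 1 := by rw [mul_pow, hs, hs, one_mul]
        have := abs_le_of_sq_le_sq (a := σ V * σ V') (b := 1) (by rw [hsq]; norm_num) (by norm_num)
        exact abs_le.mp this
      show 0 ≤ avg f - c * σ V ∧ avg f - c * σ V ≤ 2 * avg f
      rw [e]
      constructor
      · exact avg_nonneg fun V' => mul_nonneg (by linarith [(hb V').2]) (h0 V')
      · rw [← avg_mul_left]
        exact avg_mono fun V' => mul_le_mul_of_nonneg_right (by linarith [(hb V').1]) (h0 V')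
  · intro x φ s
    simp only [hσi x φ s]
  · have h2 := (core S (lam := |lam|) b f σ f0 (avg f) c hf0 hσi hdec hσ e1 e2 e3
      (by rw [sq_abs]; exact hgap) (abs_nonneg _)).2.1
    have hq : 0 ≤ avg (fun V => σ V ^ 2) := avg_nonneg fun V => sq_nonneg _
    have h3 : avg (fun V => f V ^ 2) ≤ avg f := avg_mono fun V => by
      have := mul_le_mul_of_nonneg_left (h1 V) (h0 V)
      nlinarith [h0 V, h1 V]
    have h4 : avg (fun V => f0 V ^ 2) ≤ avg f := by
      nlinarith [mul_nonneg (sq_nonneg c) hq, sq_nonneg (avg f)]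
    calc _ ≤ _ := hgap
      _ ≤ lam ^ 2 * avg f := mul_le_mul_of_nonneg_left h4 (sq_nonneg _)

end spectral

end Pool.Agent.SRL
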