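import Mathlib
import Pool.Agent.SRL.StatPoi
import Pool.Agent.SRL.Flips

/-!
Linear size-Ramsey number of grids: positions of a window, labelled statistics, choice of the base
classes (helper23, row P2).
-/

set_option autoImplicit false
set_option linter.unusedSectionVars false
set_option linter.unusedVariables false

namespace Pool.Agent.SRL

open Finset Stt

section flips

variable {I L X : Type} [DecidableEq I]

theorem CS.flipSet_disjUnion_apply (S : CS I L X) (T U : Finset I) (h : Disjoint T U)
    (V : St I L X) : S.flipSet (T.disjUnion U h) V = S.flipSet T (S.flipSet U V) := by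
  induction T using Finset.induction_on with
  | empty =>
    rw [S.flipSet_empty_apply, Finset.empty_disjUnion]
  | insert b T hb ih =>
    have hbU : b ∉ U := fun hb' => Finset.disjoint_left.mp h (Finset.mem_insert_self b T) hb'
    have hTU : Disjoint T U := Finset.disjoint_of_subset_left (Finset.subset_insert b T) h
    have e : (insert b T).disjUnion U h = insert b (T.disjUnion U hTU) := by
      ext a; simp [or_assoc]
    rw [e, S.flipSet_insert_apply (by simp [hb, hbU]), ih hTU, S.flipSet_insert_apply hb]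

end flips

section positions

variable {A B L X : Type} [DecidableEq A] [DecidableEq B]

/-- The cube `V` over `A ⊕ B` of a pointed `B`-cube of the derived system. -/
def whole (V : St B L (St A L X)) : St (A ⊕ B) L X := (V.1.1, Sum.elim V.1.2 V.2)

theorem whole_eq_ofDer (V : St B L (St A L X)) : whole V = ofDer V := rfl

/-- Inverse of `whole`. -/
def parts (V : St (A ⊕ B) L X) : St B L (St A L X) :=
  ((V.1, fun a => V.2 (Sum.inl a)), fun b => V.2 (Sum.inr b))

theorem parts_whole (V : St B L (St A L X)) : parts (whole V) = V := rfl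

theorem whole_parts (V : St (A ⊕ B) L X) : whole (parts V) = V := by
  refine Prod.ext rfl (funext fun i => ?_)
  rcases i with a | b <;> rfl

/-- `whole` as an equivalence. -/
def wholeE : St B L (St A L X) ≃ St (A ⊕ B) L X where
  toFun := whole
  invFun := parts
  left_inv := parts_whole
  right_inv := whole_parts

theorem whole_flip (S : CS (A ⊕ B) L X) (b : B) (V : St B L (St A L X)) :
    whole (S.derived.flip b V) = S.flip (Sum.inr b) (whole V) := by
  refine Prod.ext rfl (funext fun i => ?_)
  rcases i with a | c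
  · simp [whole, CS.flip, CS.derived]
  · by_cases h : c = b
    · subst h; simp [whole, CS.flip, CS.derived]
    · simp [whole, CS.flip, CS.derived, h]

/-- flips of the derived system -/
theorem whole_flipSet (S : CS (A ⊕ B) L X) (T : Finset B) (V : St B L (St A L X)) :
    whole (S.derived.flipSet T V) = S.flipSet (T.map Function.Embedding.inr) (whole V) := by
  induction T using Finset.induction_on with
  | empty => rw [Finset.map_empty, CS.flipSet_empty_apply, CS.flipSet_empty_apply]
  | insert b T hb ih =>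
    rw [S.derived.flipSet_insert_apply hb, whole_flip, ih, Finset.map_insert,
      S.flipSet_insert_apply (by simpa using hb)]
    rfl

/-- The `A`-part of a pointed cube. -/
def leftPart (V : St (A ⊕ B) L X) : St A L X := (V.1, fun a => V.2 (Sum.inl a))

theorem leftPart_flip (S : CS (A ⊕ B) L X) (a : A) (V : St (A ⊕ B) L X) :
    (S.comap Sum.inl Sum.inl_injective).flip a (leftPart V) =
      leftPart (S.flip (Sum.inl a) V) := by
  refine Prod.ext rfl (funext fun c => ?_)
  by_cases h : c = a
  · subst h; simp [leftPart, CS.flip, CS.comap]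
  · simp [leftPart, CS.flip, CS.comap, h]

theorem leftPart_flipSet (S : CS (A ⊕ B) L X) (T : Finset A) (V : St (A ⊕ B) L X) :
    (S.comap Sum.inl Sum.inl_injective).flipSet T (leftPart V) =
      leftPart (S.flipSet (T.map Function.Embedding.inl) V) := by
  induction T using Finset.induction_on with
  | empty => rw [Finset.map_empty, CS.flipSet_empty_apply, CS.flipSet_empty_apply]
  | insert b T hb ih =>
    rw [CS.flipSet_insert_apply _ hb, ih, leftPart_flip, Finset.map_insert,
      S.flipSet_insert_apply (by simpa using hb)]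
    rfl

theorem leftPart_whole (V : St B L (St A L X)) : leftPart (whole V) = V.1 := rfl

/-- The corner `(T, β)`: the vertex `p` of the fibre at the position `β`. -/
theorem vx_position {J K : ℕ} (S : CS (Fin J ⊕ B) L X) (V : St B L (St (Fin J) L X))
    (β : Finset B) (p : Finset (Fin J) × Fin K) :
    vx S (S.derived.flipSet β V).1 p = ((S.flipSet (p.1.disjSum β) (whole V)).1, p.2) := by
  unfold vx
  rw [← leftPart_whole (S.derived.flipSet β V), leftPart_flipSet, whole_flipSet]
  have e : p.1.disjSum β = (p.1.map Function.Embedding.inl).disjUnion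
      (β.map Function.Embedding.inr) (Finset.disjoint_map_inl_map_inr p.1 β) := rfl
  rw [e, S.flipSet_disjUnion_apply]
  rfl

end positions

section reindexing

variable {I I' L X : Type} [DecidableEq I] [DecidableEq I']

/-- The original cube of a cube of the reindexed system. -/
def orig (e : I' ≃ I) (V : St I' L X) : St I L X := (V.1, fun i => V.2 (e.symm i))

/-- `orig` as an equivalence. -/
def origE (e : I' ≃ I) : St I' L X ≃ St I L X where
  toFun := orig e
  invFun V := (V.1, fun i => V.2 (e i))
  left_inv V := by simp [orig]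
  right_inv V := by simp [orig]

theorem orig_flip (S : CS I L X) (e : I' ≃ I) (b : I') (V : St I' L X) :
    orig e ((S.reindex e).flip b V) = S.flip (e b) (orig e V) := by
  refine Prod.ext ?_ (funext fun i => ?_)
  · simp [orig, CS.flip, CS.reindex]
  · by_cases h : e.symm i = b
    · have h' : i = e b := by rw [← h]; simp
      subst h'
      simp [orig, CS.flip, CS.reindex]
    · have h' : i ≠ e b := fun h' => h (by rw [h']; simp)
      simp [orig, CS.flip, CS.reindex, h, h']

theorem orig_flipSet (S : CS I L X) (e : I' ≃ I) (T : Finset I') (V : St I' L X) :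
    orig e ((S.reindex e).flipSet T V) = S.flipSet (T.map e.toEmbedding) (orig e V) := by
  induction T using Finset.induction_on with
  | empty => rw [Finset.map_empty, CS.flipSet_empty_apply, CS.flipSet_empty_apply]
  | insert b T hb ih =>
    rw [CS.flipSet_insert_apply _ hb, orig_flip, ih, Finset.map_insert,
      S.flipSet_insert_apply (by simpa using hb)]
    rfl

end reindexing

section statistics

variable {L X : Type} {J D K : ℕ}

/-- The labelled statistic: average of `H` over `k` vertices of the fibres at the positions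
`β 0, ..., β (k-1)` of the window `V`. -/
noncomputable def tstat (S : CS (Fin J ⊕ Fin D) L X) {k : ℕ}
    (H : (Fin k → X × Fin K) → ℝ) (V : St (Fin D) L (St (Fin J) L X))
    (β : Fin k → Finset (Fin D)) : ℝ :=
  avg (fun p : Fin k → Finset (Fin J) × Fin K =>
    H (fun i => vx S (S.derived.flipSet (β i) V).1 (p i)))

namespace Stt

/-- The statistic as a function of all corner coordinates. -/
noncomputable def Fst (S : CS (Fin J ⊕ Fin D) L X) {k : ℕ}
    (H : (Fin k → X × Fin K) → ℝ) (U : St (Fin J ⊕ Fin D) L X)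
    (y : Fin J ⊕ Fin D → Fin k → Bool) : ℝ :=
  avg (fun κ : Fin k → Fin K =>
    H (fun i => ((S.flipSet (univ.filter (fun a => y a i = true)) U).1, κ i)))

/-- Sets of positions and Boolean arrays. -/
def arrE (J k : ℕ) : (Fin J → Fin k → Bool) ≃ (Fin k → Finset (Fin J)) where
  toFun w i := univ.filter (fun a => w a i = true)
  invFun T a i := decide (a ∈ T i)
  left_inv w := by funext a i; simp
  right_inv T := by funext i; ext a; simp

theorem tstat_eq_cexp (S : CS (Fin J ⊕ Fin D) L X) {k : ℕ}
    (H : (Fin k → X × Fin K) → ℝ) (c : Fin D → Fin J ⊕ Fin D) (hc : Function.Injective c)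
    (e : Equiv.Perm (Fin J ⊕ Fin D)) (he : ∀ a, e (Sum.inr a) = c a)
    (V : St (Fin D) L (St (Fin J) L X)) (β : Fin k → Finset (Fin D)) :
    tstat (S.reindex e) H V β =
      cexp c (Fst S H (orig e (whole V))) (fun a i => decide (a ∈ β i)) := by
  set U := orig e (whole V) with hU
  set Ψ : (Fin k → Finset (Fin J)) → ℝ := fun T => avg (fun κ : Fin k → Fin K =>
    H (fun i => ((S.flipSet (((T i).disjSum (β i)).map e.toEmbedding) U).1, κ i))) with hΨ
  have h1 : tstat (S.reindex e) H V β = avg Ψ := by
    unfold tstat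
    have hv : ∀ p : Fin k → Finset (Fin J) × Fin K,
        (fun i => vx (S.reindex e) ((S.reindex e).derived.flipSet (β i) V).1 (p i)) =
        fun i => ((S.flipSet (((p i).1.disjSum (β i)).map e.toEmbedding) U).1, (p i).2) := by
      intro p
      funext i
      rw [vx_position, hU, ← orig_flipSet]
      rfl
    simp only [hv]
    rw [← avg_equiv (Equiv.arrowProdEquivProdArrow (Fin k) (fun _ => Finset (Fin J))
      (fun _ => Fin K)).symm, avg_prod]
    rfl
  rw [h1]
  unfold cexp
  have hc' : Function.Injective (fun a : Fin J => e (Sum.inl a)) :=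
    e.injective.comp Sum.inl_injective
  have h2 : ∀ y : Fin J ⊕ Fin D → Fin k → Bool,
      Fst S H U (Function.extend c (fun a i => decide (a ∈ β i)) y) =
        Ψ (arrE J k (y ∘ fun a => e (Sum.inl a))) := by
    intro y
    have hs : ∀ i, (univ.filter (fun a => Function.extend c (fun a i => decide (a ∈ β i)) y a i =
        true)) = (((arrE J k (y ∘ fun a => e (Sum.inl a))) i).disjSum (β i)).map
          e.toEmbedding := by
      intro i
      ext a
      obtain ⟨a', rfl⟩ := e.surjective a
      rw [Finset.mem_map_equiv, Equiv.symm_apply_apply]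
      rcases a' with a' | a'
      · have hn : ¬ ∃ b, c b = e (Sum.inl a') := by
          rintro ⟨b, hb⟩
          rw [← he b] at hb
          exact absurd (e.injective hb) (by simp)
        rw [Finset.mem_filter, Function.extend_apply' _ _ _ hn]
        simp [arrE]
      · rw [Finset.mem_filter, he a', hc.extend_apply]
        simp
    unfold Fst
    rw [hΨ]
    simp only [hs]
  simp only [h2]
  rw [avg_comp (Z := Fin k → Bool) hc' (fun w => Ψ (arrE J k w)), avg_equiv (arrE J k) Ψ]

theorem abs_Fst_le (hK : 0 < K) (S : CS (Fin J ⊕ Fin D) L X) {k : ℕ}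
    (H : (Fin k → X × Fin K) → ℝ) (hH : ∀ v, |H v| ≤ 1) (U : St (Fin J ⊕ Fin D) L X)
    (y : Fin J ⊕ Fin D → Fin k → Bool) : (Fst S H U y) ^ 2 ≤ 1 := by
  have : Nonempty (Fin K) := ⟨⟨0, hK⟩⟩
  have h1 : Fst S H U y ≤ 1 := by
    calc Fst S H U y ≤ avg (fun _ : Fin k → Fin K => (1 : ℝ)) :=
          avg_mono fun κ => (abs_le.mp (hH _)).2
      _ = 1 := avg_const _
  have h2 : -1 ≤ Fst S H U y := by
    calc (-1 : ℝ) = avg (fun _ : Fin k → Fin K => (-1 : ℝ)) := (avg_const _).symm
      _ ≤ Fst S H U y := avg_mono fun κ => (abs_le.mp (hH _)).1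
  nlinarith

/-- A permutation with prescribed values on the right summand. -/
theorem exists_perm (c : Fin D → Fin J ⊕ Fin D) (hc : Function.Injective c) :
    ∃ e : Equiv.Perm (Fin J ⊕ Fin D), ∀ a, e (Sum.inr a) = c a := by
  classical
  let e0 : {x : Fin J ⊕ Fin D // x ∈ Set.range (Sum.inr : Fin D → Fin J ⊕ Fin D)} ≃
      {x : Fin J ⊕ Fin D // x ∈ Set.range c} :=
    (Equiv.ofInjective _ Sum.inr_injective).symm.trans (Equiv.ofInjective c hc)
  refine ⟨e0.extendSubtype, fun a => ?_⟩
  have hm : (Sum.inr a : Fin J ⊕ Fin D) ∈ Set.range (Sum.inr : Fin D → Fin J ⊕ Fin D) := ⟨a, rfl⟩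
  rw [Equiv.extendSubtype_apply_of_mem e0 _ hm]
  have : (Equiv.ofInjective (Sum.inr : Fin D → Fin J ⊕ Fin D) Sum.inr_injective).symm
      ⟨Sum.inr a, hm⟩ = a :=
    (Equiv.ofInjective _ Sum.inr_injective).symm_apply_eq.mpr rfl
  show ((Equiv.ofInjective c hc) ((Equiv.ofInjective (Sum.inr : Fin D → Fin J ⊕ Fin D)
    Sum.inr_injective).symm ⟨Sum.inr a, hm⟩) : Fin J ⊕ Fin D) = c a
  rw [this]; rfl

/-- The disjoint blocks of `D` classes. -/
def blk (J D : ℕ) (l : Fin ((J + D) / D)) (a : Fin D) : Fin J ⊕ Fin D :=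
  finSumFinEquiv.symm ⟨l.1 * D + a.1, by
    have h1 : (l.1 + 1) * D ≤ J + D := (Nat.mul_le_mul_right D l.2).trans (Nat.div_mul_le_self _ _)
    have h2 := a.2
    rw [Nat.add_mul, one_mul] at h1
    omega⟩

theorem blk_inj (J D : ℕ) (l l' : Fin ((J + D) / D)) (a a' : Fin D)
    (h : blk J D l a = blk J D l' a') : l = l' ∧ a = a' := by
  have h1 := finSumFinEquiv.symm.injective h
  have h2 : l.1 * D + a.1 = l'.1 * D + a'.1 := congrArg Fin.val h1
  have hD : 0 < D := a.pos
  have h3 : l.1 = l'.1 := by
    have e1 : (l.1 * D + a.1) / D = l.1 := by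
      rw [mul_comm, Nat.mul_add_div hD, Nat.div_eq_of_lt a.2, Nat.add_zero]
    have e2 : (l'.1 * D + a'.1) / D = l'.1 := by
      rw [mul_comm, Nat.mul_add_div hD, Nat.div_eq_of_lt a'.2, Nat.add_zero]
    rw [← e1, ← e2, h2]
  refine ⟨Fin.ext h3, Fin.ext ?_⟩
  rw [h3] at h2
  omega

end Stt

/-- Lemma S with the choice of the base classes: after a permutation `e` of the classes all
labelled statistics of a given finite family are almost independent of the labels, except for a
small proportion of the windows. -/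
theorem lemmaS [Fintype L] [Nonempty L] [Fintype X] [Nonempty X] (hD : 0 < D) (hK : 0 < K)
    (S : CS (Fin J ⊕ Fin D) L X) {ι : Type} [Fintype ι] (k : ι → ℕ) (k0 : ℕ)
    (hk : ∀ j, k j ≤ k0) (H : ∀ j, (Fin (k j) → X × Fin K) → ℝ) (hH : ∀ j v, |H j v| ≤ 1) :
    ∃ (e : Equiv.Perm (Fin J ⊕ Fin D)) (f : St (Fin D) L (St (Fin J) L X) → ℝ),
      (∀ V, 0 ≤ f V) ∧
      (∀ V j (β β' : Fin (k j) → Finset (Fin D)),
        (tstat (S.reindex e) (H j) V β - tstat (S.reindex e) (H j) V β') ^ 2 ≤ f V) ∧
      avg f * J ≤ D * (Fintype.card ι * (4 * 2 ^ (k0 * D))) := by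
  classical
  set m := (J + D) / D with hm
  set M : ℝ := 4 * 2 ^ (k0 * D) with hM
  have hM0 : 0 ≤ M := by positivity
  -- energy of the block `l` in the cube `U`
  set g : Fin m → St (Fin J ⊕ Fin D) L X → ι → ℝ := fun l U j =>
    avg (fun z => (cexp (blk J D l) (Fst S (H j) U) z - avg (Fst S (H j) U)) ^ 2) with hg
  have hg0 : ∀ l U j, 0 ≤ g l U j := fun l U j => avg_nonneg fun z => sq_nonneg _
  have hinj : ∀ l, Function.Injective (blk J D l) := fun l a a' h => (blk_inj J D l l a a' h).2
  have hbes : ∀ U j, ∑ l, g l U j ≤ 1 := by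
    intro U j
    have h := bessel (Z := Fin (k j) → Bool) (fun l : Fin m => blk J D l) hinj
      (fun l l' hl a b h => hl (blk_inj J D l l' a b h).1) (Fst S (H j) U)
    refine h.trans ?_
    calc avg (fun y => Fst S (H j) U y ^ 2)
        ≤ avg (fun _ : Fin J ⊕ Fin D → Fin (k j) → Bool => (1 : ℝ)) :=
          avg_mono fun y => abs_Fst_le hK S (H j) (hH j) U y
      _ = 1 := avg_const _
  have htot : ∑ l, avg (fun U => ∑ j, M * g l U j) ≤ Fintype.card ι * M := by
    rw [← avg_finsum]
    calc avg (fun U => ∑ l, ∑ j, M * g l U j)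
        ≤ avg (fun _ : St (Fin J ⊕ Fin D) L X => (Fintype.card ι * M : ℝ)) := by
          refine avg_mono fun U => ?_
          rw [Finset.sum_comm]
          calc ∑ j, ∑ l, M * g l U j = ∑ j, M * ∑ l, g l U j := by
                simp only [Finset.mul_sum]
            _ ≤ ∑ _j : ι, M * 1 :=
                Finset.sum_le_sum fun j _ => mul_le_mul_of_nonneg_left (hbes U j) hM0
            _ = Fintype.card ι * M := by simp
      _ = _ := avg_const _
  have hmpos : 0 < m := Nat.div_pos (Nat.le_add_left D J) hD
  have : Nonempty (Fin m) := ⟨⟨0, hmpos⟩⟩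
  obtain ⟨l, -, hl⟩ := Finset.exists_min_image (Finset.univ : Finset (Fin m))
    (fun l => avg (fun U => ∑ j, M * g l U j)) Finset.univ_nonempty
  have hml : (m : ℝ) * avg (fun U => ∑ j, M * g l U j) ≤ Fintype.card ι * M := by
    refine le_trans ?_ htot
    have := Finset.card_nsmul_le_sum (Finset.univ : Finset (Fin m))
      (fun l => avg (fun U => ∑ j, M * g l U j)) _ hl
    simpa [nsmul_eq_mul] using this
  obtain ⟨e, he⟩ := exists_perm (blk J D l) (hinj l)
  refine ⟨e, fun V => ∑ j, M * g l (orig e (whole V)) j, ?_, ?_, ?_⟩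
  · exact fun V => Finset.sum_nonneg fun j _ => mul_nonneg hM0 (hg0 _ _ _)
  · intro V j β β'
    rw [tstat_eq_cexp S (H j) (blk J D l) (hinj l) e he V β,
      tstat_eq_cexp S (H j) (blk J D l) (hinj l) e he V β']
    set U := orig e (whole V) with hU
    set μ := avg (Fst S (H j) U) with hμ
    have hcard : (Fintype.card (Fin D → Fin (k j) → Bool) : ℝ) ≤ 2 ^ (k0 * D) := by
      have : Fintype.card (Fin D → Fin (k j) → Bool) = 2 ^ (k j * D) := by
        simp [Fintype.card_pi, pow_mul]
      rw [this]
      push_cast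
      exact pow_le_pow_right₀ (by norm_num) (Nat.mul_le_mul_right D (hk j))
    have hz : ∀ z, (cexp (blk J D l) (Fst S (H j) U) z - μ) ^ 2 ≤ 2 ^ (k0 * D) * g l U j := by
      intro z
      refine (le_card_mul_avg (f := fun z => (cexp (blk J D l) (Fst S (H j) U) z - μ) ^ 2)
        (fun z => sq_nonneg _) z).trans ?_
      exact mul_le_mul_of_nonneg_right hcard (hg0 l U j)
    have h1 := hz (fun a i => decide (a ∈ β i))
    have h2 := hz (fun a i => decide (a ∈ β' i))
    have h3 : M * g l U j ≤ ∑ j, M * g l U j :=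
      Finset.single_le_sum (f := fun j => M * g l U j)
        (fun j _ => mul_nonneg hM0 (hg0 _ _ _)) (Finset.mem_univ j)
    refine le_trans ?_ h3
    rw [hM]
    generalize cexp (blk J D l) (Fst S (H j) U) (fun a i => decide (a ∈ β i)) = u at h1 ⊢
    generalize cexp (blk J D l) (Fst S (H j) U) (fun a i => decide (a ∈ β' i)) = v at h2 ⊢
    nlinarith [sq_nonneg ((u - μ) + (v - μ))]
  · have hav : avg (fun V : St (Fin D) L (St (Fin J) L X) => ∑ j, M * g l (orig e (whole V)) j) =
        avg (fun U => ∑ j, M * g l U j) :=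
      avg_equiv ((wholeE (A := Fin J) (B := Fin D) (L := L) (X := X)).trans (origE e))
        (fun U => ∑ j, M * g l U j)
    rw [hav]
    have hJ : (J : ℝ) ≤ D * m := by
      have h : J + D < D * (m + 1) := by
        rw [hm]
        exact Nat.lt_mul_div_succ (J + D) hD
      have h' : J ≤ D * m := by
        rw [Nat.mul_add, mul_one] at h
        omega
      exact_mod_cast h'
    have h0 : 0 ≤ avg (fun U => ∑ j, M * g l U j) :=
      avg_nonneg fun U => Finset.sum_nonneg fun j _ => mul_nonneg hM0 (hg0 _ _ _)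
    calc avg (fun U => ∑ j, M * g l U j) * J ≤ avg (fun U => ∑ j, M * g l U j) * (D * m) :=
          mul_le_mul_of_nonneg_left hJ h0
      _ = D * (m * avg (fun U => ∑ j, M * g l U j)) := by ring
      _ ≤ D * (Fintype.card ι * M) := mul_le_mul_of_nonneg_left hml (Nat.cast_nonneg D)

/-- Markov form of `lemmaS`. -/
theorem lemmaS_prob [Fintype L] [Nonempty L] [Fintype X] [Nonempty X] (hD : 0 < D) (hK : 0 < K)
    (hJ : 0 < J) (S : CS (Fin J ⊕ Fin D) L X) {ι : Type} [Fintype ι] (k : ι → ℕ) (k0 : ℕ)
    (hk : ∀ j, k j ≤ k0) (H : ∀ j, (Fin (k j) → X × Fin K) → ℝ) (hH : ∀ j v, |H j v| ≤ 1)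
    (eps : ℝ) (heps : 0 < eps) :
    ∃ e : Equiv.Perm (Fin J ⊕ Fin D),
      prob {V : St (Fin D) L (St (Fin J) L X) | ∃ j, ∃ β β' : Fin (k j) → Finset (Fin D),
        eps < |tstat (S.reindex e) (H j) V β - tstat (S.reindex e) (H j) V β'|} ≤
      D * (Fintype.card ι * (4 * 2 ^ (k0 * D))) / (eps ^ 2 * J) := by
  classical
  obtain ⟨e, f, hf0, hf, hav⟩ := lemmaS hD hK S k k0 hk H hH
  refine ⟨e, ?_⟩
  have hJ' : (0 : ℝ) < J := Nat.cast_pos.mpr hJ
  have h1 : eps ^ 2 * prob {V : St (Fin D) L (St (Fin J) L X) |
      ∃ j, ∃ β β' : Fin (k j) → Finset (Fin D),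
        eps < |tstat (S.reindex e) (H j) V β - tstat (S.reindex e) (H j) V β'|} ≤ avg f := by
    unfold prob
    rw [← avg_mul_left]
    refine avg_mono fun V => ?_
    split_ifs with h
    · obtain ⟨j, β, β', h⟩ := h
      rw [mul_one]
      refine le_trans ?_ (hf V j β β')
      rw [← sq_abs (tstat (S.reindex e) (H j) V β - tstat (S.reindex e) (H j) V β')]
      exact pow_le_pow_left₀ heps.le h.le 2
    · rw [mul_zero]; exact hf0 V
  rw [le_div_iff₀ (by positivity)]
  nlinarith

end statistics

end Pool.Agent.SRL
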