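import Pool.Agent.SRL.FDefs
import Pool.Agent.SRL.Stat

/-! Row F8a: labelled statistics of a window; Lemma S with the choice of the base classes. -/

set_option autoImplicit false
set_option linter.unusedSectionVars false
set_option linter.unusedVariables false

namespace Pool.Agent.SRL

open Finset

namespace Fr

section
variable {B L X : Type} [DecidableEq B] {J K : ℕ}

/-- labelled statistics -/
noncomputable def stat (S : CS (Fin J ⊕ B) L X) (V : St B L (St (Fin J) L X)) {k : ℕ}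
    (H : (Fin k → X × Fin K) → ℝ) (β : Fin k → Finset B) : ℝ :=
  avg fun p : Fin k → Finset (Fin J) × Fin K => H (fun i => vx S (pos S V (β i)) (p i))

/-- all graph statistics on `k` vertices are the same for all positions, up to `τ` -/
def Reg (S : CS (Fin J ⊕ B) L X) (R : X × Fin K → X × Fin K → ℝ) (k : ℕ) (τ : ℝ)
    (V : St B L (St (Fin J) L X)) : Prop :=
  ∀ (E : Finset (Fin k × Fin k)) (β β' : Fin k → Finset B),
    |stat S V (fun v => ∏ x ∈ E, R (v x.1) (v x.2)) β -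
      stat S V (fun v => ∏ x ∈ E, R (v x.1) (v x.2)) β'| ≤ τ

theorem stat_eq_tstat {D : ℕ} (S : CS (Fin J ⊕ Fin D) L X) (V : St (Fin D) L (St (Fin J) L X))
    {k : ℕ} (H : (Fin k → X × Fin K) → ℝ) (β : Fin k → Finset (Fin D)) :
    stat S V H β = tstat S H V β := rfl

theorem abs_graph_le {Y : Type} {R : Y → Y → ℝ} (hR : Col R) {k : ℕ}
    (E : Finset (Fin k × Fin k)) (v : Fin k → Y) : |∏ x ∈ E, R (v x.1) (v x.2)| ≤ 1 := by
  rw [abs_of_nonneg (Finset.prod_nonneg fun x _ => hR.nonneg _ _)]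
  exact Finset.prod_le_one (fun x _ => hR.nonneg _ _) (fun x _ => hR.le_one _ _)

/-- F8a -/
theorem reg_base (D k : ℕ) (τ : ℝ) (hτ : 0 < τ) : ∃ J : ℕ, ∀ (q n K : ℕ) [NeZero q]
    [NeZero n] [NeZero K] (S : CS (Fin J ⊕ Fin D) (Fin q) (Fin n))
    (R : Fin n × Fin K → Fin n × Fin K → ℝ), Col R → ∃ e : Equiv.Perm (Fin J ⊕ Fin D),
    prob {V : St (Fin D) (Fin q) (St (Fin J) (Fin q) (Fin n)) |
      ¬ Reg (S.reindex e) R k τ V} ≤ τ := by
  classical
  rcases Nat.eq_zero_or_pos D with hD | hD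
  · subst hD
    refine ⟨0, fun q n K _ _ _ S R hR => ⟨Equiv.refl _, ?_⟩⟩
    have h : {V : St (Fin 0) (Fin q) (St (Fin 0) (Fin q) (Fin n)) |
        ¬ Reg (S.reindex (Equiv.refl _)) R k τ V} = ∅ := by
      ext V
      simp only [Set.mem_setOf_eq, Set.mem_empty_iff_false, iff_false, not_not]
      intro E β β'
      have : β = β' := by
        funext i
        ext a
        exact a.elim0
      rw [this, sub_self, abs_zero]
      exact hτ.le
    rw [h]
    simp [prob, avg, hτ.le]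
  · set A : ℝ := D * (Fintype.card (Finset (Fin k × Fin k)) * (4 * 2 ^ (k * D))) with hA
    have hA0 : 0 ≤ A := by positivity
    obtain ⟨J, hJ⟩ := exists_nat_gt (A / τ ^ 3)
    have hJ1 : (J : ℝ) ≤ (J + 1 : ℕ) := by push_cast; linarith
    refine ⟨J + 1, fun q n K _ _ _ S R hR => ?_⟩
    obtain ⟨e, he⟩ := lemmaS_prob (K := K) hD (Nat.pos_of_ne_zero (NeZero.ne K))
      (Nat.succ_pos J) S (ι := Finset (Fin k × Fin k)) (fun _ => k) k (fun _ => le_rfl)
      (fun E v => ∏ x ∈ E, R (v x.1) (v x.2)) (fun E v => abs_graph_le hR E v) τ hτ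
    refine ⟨e, ?_⟩
    have hset : {V : St (Fin D) (Fin q) (St (Fin (J + 1)) (Fin q) (Fin n)) |
        ¬ Reg (S.reindex e) R k τ V} =
        {V | ∃ E : Finset (Fin k × Fin k), ∃ β β' : Fin k → Finset (Fin D),
          τ < |tstat (S.reindex e) (fun v => ∏ x ∈ E, R (v x.1) (v x.2)) V β -
            tstat (S.reindex e) (fun v => ∏ x ∈ E, R (v x.1) (v x.2)) V β'|} := by
      ext V
      simp only [Set.mem_setOf_eq, Reg, not_forall, not_le, stat_eq_tstat]
    rw [hset]
    refine he.trans ?_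
    rw [div_le_iff₀ (by positivity)]
    have h3 : A ≤ τ ^ 3 * J := by
      have := (div_lt_iff₀ (by positivity)).mp hJ
      linarith
    have h4 : τ ^ 3 * (J : ℝ) ≤ τ ^ 3 * (J + 1 : ℕ) :=
      mul_le_mul_of_nonneg_left hJ1 (by positivity)
    have h5 : τ * (τ ^ 2 * ((J + 1 : ℕ) : ℝ)) = τ ^ 3 * (J + 1 : ℕ) := by ring
    have h6 : (J.succ : ℕ) = J + 1 := rfl
    calc _ = A := rfl
      _ ≤ τ ^ 3 * J := h3
      _ ≤ τ ^ 3 * (J + 1 : ℕ) := h4
      _ = τ * (τ ^ 2 * ((J + 1 : ℕ) : ℝ)) := h5.symm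
end

end Fr

end Pool.Agent.SRL
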