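import Pool.Agent.SRL.FBasic
import Pool.Agent.SRL.FEv
import Pool.Agent.SRL.FMom

/-! Row F3: transition matrices between soft frames. -/

set_option autoImplicit false
set_option linter.unusedSectionVars false

namespace Pool.Agent.SRL

open Finset
open Pool.Agent.Helper64.SRL (tact blk)

namespace Fr

namespace T3

section trans

variable {P Q : Type} [Fintype Q] [Nonempty Q] {M k0 : ℕ} {T : P → P → Q → Q → ℝ} {s : ℝ}

theorem win_op (hT : Win k0 s T) (b c : P) (h : Q → ℝ) : nrm (op (T b c) h) ≤ nrm h := by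
  have h1 := nrm_op_le (T b c) h
  have h2 := hs_le_one (hT.nonneg b c) (hT.le_one b c)
  nlinarith [nrm_nonneg h]

theorem win_tri (hT : Win k0 s T) (b c c' d : P) (h : Q → ℝ) :
    nrm (op (T b c) (op (T c d) h) - op (T b c') (op (T c' d) h)) ≤ s * nrm h := by
  rw [← op_comp, ← op_comp, ← op_sub_left]
  exact (nrm_op_le _ _).trans (mul_le_mul_of_nonneg_right (hT.tri b c c' d) (nrm_nonneg h))

theorem win_ip (hT : Win k0 s T) (b c : P) (f h : Q → ℝ) :
    ip f (op (T b c) h) = ip (op (T c b) f) h := by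
  rw [ip_op]
  congr 2
  funext p q
  exact hT.symm b c q p

theorem frame_nrm {l0 g : ℝ} {l : Fin M → ℝ} {y : (Fin k0 → Fin 2 ⊕ Fin M) → ℝ}
    {Tc : Q → Q → ℝ} {e : Fin M → Q → ℝ} (he : SFrame l0 g s l y Tc e) (hs1 : s ≤ 1)
    (j : Fin M) : nrm (e j) ≤ 2 := by
  have h1 := he.orth j j
  rw [if_pos rfl] at h1
  have h2 := (abs_le.mp h1).2
  have h3 := nrm_sq (e j)
  have h4 := nrm_nonneg (e j)
  by_contra h
  push Not at h
  nlinarith

/-- An approximate eigenvector with a large eigenvalue is close to the span of a soft frame. -/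
theorem near_span {l0 g : ℝ} (hg : 0 < g) {l : Fin M → ℝ} {y : (Fin k0 → Fin 2 ⊕ Fin M) → ℝ}
    {T : P → P → Q → Q → ℝ} {s' : ℝ} (hT : Win k0 s' T) {b : P} {f : Fin M → Q → ℝ}
    (hf : SFrame l0 g s l y (T b b) f) (hs0 : 0 ≤ s) (hs1 : s ≤ 1) (hsg : s ≤ g)
    (hl : ∀ i, |l i| ≤ 1) (F : Q → ℝ) (μ c1 c2 : ℝ) (hμ : l0 + g ≤ |μ|)
    (hF : nrm F ≤ c1) (hE : nrm (op (T b b) F - μ • F) ≤ c2 * s) :
    (∀ k, |ip (f k) F * (μ - l k)| ≤ (2 * c2 + c1) * s) ∧
    nrm (F - ∑ k, ip (f k) F • f k) ≤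
      (4 * M ^ 2 * c1 + 4 * M * c1 + 4 * M * c2 + c2) / g * s := by
  have hc1 : 0 ≤ c1 := (nrm_nonneg F).trans hF
  have hfn : ∀ k, nrm (f k) ≤ 2 := frame_nrm hf hs1
  have hc2 : 0 ≤ c2 * s := (nrm_nonneg _).trans hE
  have ha : ∀ k, |ip (f k) F| ≤ 2 * c1 := fun k =>
    (abs_ip_le _ _).trans (mul_le_mul (hfn k) hF (nrm_nonneg _) (by norm_num))
  -- part (a)
  have hA : ∀ k, |ip (f k) F * (μ - l k)| ≤ (2 * c2 + c1) * s := by
    intro k
    have h1 : ip (f k) F * (μ - l k) =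
        - ip (f k) (op (T b b) F - μ • F) + ip (op (T b b) (f k) - l k • f k) F := by
      rw [ip_sub_right, ip_smul_right, ip_sub_left, ip_smul_left, win_ip hT]
      ring
    rw [h1]
    refine (abs_add_le _ _).trans ?_
    rw [abs_neg]
    have h2 : |ip (f k) (op (T b b) F - μ • F)| ≤ 2 * (c2 * s) :=
      (abs_ip_le _ _).trans (mul_le_mul (hfn k) hE (nrm_nonneg _) (by norm_num))
    have h3 : |ip (op (T b b) (f k) - l k • f k) F| ≤ s * c1 :=
      (abs_ip_le _ _).trans (mul_le_mul (hf.eig k) hF (nrm_nonneg _) hs0)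
    linarith
  refine ⟨hA, ?_⟩
  set N : Q → ℝ := F - ∑ k, ip (f k) F • f k with hN
  -- coefficients of N
  have hcoef : ∀ i, |ip (f i) N| ≤ M * (2 * c1 * s) := by
    intro i
    have h1 : ip (f i) N = - ∑ k, ip (f k) F * (ip (f i) (f k) - if i = k then 1 else 0) := by
      rw [hN, ip_sub_right, ip_sum_right]
      simp only [ip_smul_right, mul_sub, Finset.sum_sub_distrib]
      have h2 : ∑ k, ip (f k) F * (if i = k then (1 : ℝ) else 0) = ip (f i) F := by
        simp
      rw [h2]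
      ring
    rw [h1, abs_neg]
    refine (Finset.abs_sum_le_sum_abs _ _).trans ?_
    have h3 : ∀ k ∈ (univ : Finset (Fin M)),
        |ip (f k) F * (ip (f i) (f k) - if i = k then 1 else 0)| ≤ 2 * c1 * s := by
      intro k _
      rw [abs_mul]
      exact mul_le_mul (ha k) (hf.orth i k) (abs_nonneg _) (by positivity)
    refine (Finset.sum_le_sum h3).trans ?_
    simp
  -- T N - μ N
  have hTN : nrm (op (T b b) N - μ • N) ≤
      c2 * s + (M * (2 * c1 * s) + M * ((2 * c2 + c1) * s * 2)) := by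
    have h1 : op (T b b) N - μ • N = (op (T b b) F - μ • F) -
        (∑ k, ip (f k) F • (op (T b b) (f k) - l k • f k) -
          ∑ k, (ip (f k) F * (μ - l k)) • f k) := by
      rw [hN, op_sub, op_sum]
      simp only [op_smul, smul_sub, Finset.smul_sum, Finset.sum_sub_distrib, smul_smul, mul_sub,
        sub_smul]
      have h2 : ∀ k, μ * ip (f k) F = ip (f k) F * μ := fun k => mul_comm _ _
      simp only [h2]
      abel
    rw [h1]
    refine (nrm_sub_le _ _).trans (add_le_add hE ((nrm_sub_le _ _).trans (add_le_add ?_ ?_)))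
    · refine (nrm_sum_le _ _).trans ?_
      have h3 : ∀ k ∈ (univ : Finset (Fin M)),
          nrm (ip (f k) F • (op (T b b) (f k) - l k • f k)) ≤ 2 * c1 * s := by
        intro k _
        rw [nrm_smul]
        exact mul_le_mul (ha k) (hf.eig k) (nrm_nonneg _) (by positivity)
      refine (Finset.sum_le_sum h3).trans ?_
      simp
    · refine (nrm_sum_le _ _).trans ?_
      have h3 : ∀ k ∈ (univ : Finset (Fin M)),
          nrm ((ip (f k) F * (μ - l k)) • f k) ≤ (2 * c2 + c1) * s * 2 := by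
        intro k _
        rw [nrm_smul]
        exact mul_le_mul (hA k) (hfn k) (nrm_nonneg _) ((abs_nonneg _).trans (hA k))
      refine (Finset.sum_le_sum h3).trans ?_
      simp
  -- residual estimate
  have hres : nrm (op (T b b) N) ≤ (l0 - g + s) * nrm N + M * (M * (2 * c1 * s) * 2) := by
    have h1 := hf.res N
    have h2 : nrm (op (T b b) N) ≤ nrm (op (T b b) N - ∑ i, (l i * ip (f i) N) • f i) +
        nrm (∑ i, (l i * ip (f i) N) • f i) := by
      have h3 := nrm_add_le (op (T b b) N - ∑ i, (l i * ip (f i) N) • f i)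
        (∑ i, (l i * ip (f i) N) • f i)
      rwa [sub_add_cancel] at h3
    refine h2.trans (add_le_add h1 ?_)
    refine (nrm_sum_le _ _).trans ?_
    have h3 : ∀ k ∈ (univ : Finset (Fin M)),
        nrm ((l k * ip (f k) N) • f k) ≤ M * (2 * c1 * s) * 2 := by
      intro k _
      rw [nrm_smul, abs_mul]
      refine mul_le_mul ?_ (hfn k) (nrm_nonneg _) (by positivity)
      calc |l k| * |ip (f k) N| ≤ 1 * (M * (2 * c1 * s)) :=
            mul_le_mul (hl k) (hcoef k) (abs_nonneg _) (by norm_num)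
        _ = M * (2 * c1 * s) := one_mul _
    refine (Finset.sum_le_sum h3).trans ?_
    simp
  have hmu : |μ| * nrm N ≤ nrm (op (T b b) N) + nrm (op (T b b) N - μ • N) := by
    rw [← nrm_smul]
    have h1 := nrm_sub_le (op (T b b) N) (op (T b b) N - μ • N)
    rwa [sub_sub_cancel] at h1
  have hNn := nrm_nonneg N
  have h5 : (l0 + g) * nrm N ≤ |μ| * nrm N := mul_le_mul_of_nonneg_right hμ hNn
  have h6 : g * nrm N ≤ (4 * M ^ 2 * c1 + 4 * M * c1 + 4 * M * c2 + c2) * s := by
    have h7 : s * nrm N ≤ g * nrm N := mul_le_mul_of_nonneg_right hsg hNn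
    nlinarith
  rw [div_mul_eq_mul_div, le_div_iff₀ hg]
  linarith

section one

variable {l0 g : ℝ} {l : Fin M → ℝ} {y : (Fin k0 → Fin 2 ⊕ Fin M) → ℝ} {b c : P}
  {f e : Fin M → Q → ℝ} {K : ℝ}

/-- The transported vector. -/
theorem nrm_tv (hT : Win k0 s T) (he : SFrame l0 g s l y (T c c) e) (hs1 : s ≤ 1)
    (hK : ∀ i, |(l i)⁻¹| ≤ K) (j : Fin M) : nrm ((l j)⁻¹ • op (T b c) (e j)) ≤ 2 * K := by
  rw [nrm_smul]
  have h1 := (win_op hT b c (e j)).trans (frame_nrm he hs1 j)
  calc |(l j)⁻¹| * nrm (op (T b c) (e j)) ≤ K * 2 :=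
        mul_le_mul (hK j) h1 (nrm_nonneg _) ((abs_nonneg _).trans (hK j))
    _ = 2 * K := mul_comm _ _

/-- The transported vector is an approximate eigenvector. -/
theorem eig_tv (hT : Win k0 s T) (he : SFrame l0 g s l y (T c c) e) (hs0 : 0 ≤ s) (hs1 : s ≤ 1)
    (hK : ∀ i, |(l i)⁻¹| ≤ K) (j : Fin M) :
    nrm (op (T b b) ((l j)⁻¹ • op (T b c) (e j)) - l j • ((l j)⁻¹ • op (T b c) (e j))) ≤
      3 * K * s := by
  have h1 : op (T b b) ((l j)⁻¹ • op (T b c) (e j)) - l j • ((l j)⁻¹ • op (T b c) (e j)) =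
      (l j)⁻¹ • ((op (T b b) (op (T b c) (e j)) - op (T b c) (op (T c c) (e j))) +
        op (T b c) (op (T c c) (e j) - l j • e j)) := by
    rw [op_smul, op_sub, op_smul, smul_add, smul_sub, smul_sub, smul_smul, smul_smul,
      mul_comm (l j)⁻¹ (l j)]
    abel
  rw [h1, nrm_smul]
  have h2 : nrm ((op (T b b) (op (T b c) (e j)) - op (T b c) (op (T c c) (e j))) +
        op (T b c) (op (T c c) (e j) - l j • e j)) ≤ s * 2 + s := by
    refine (nrm_add_le _ _).trans (add_le_add ?_ ?_)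
    · exact (win_tri hT b b c c (e j)).trans
        (mul_le_mul_of_nonneg_left (frame_nrm he hs1 j) hs0)
    · exact (win_op hT b c _).trans (he.eig j)
  calc _ ≤ K * (s * 2 + s) :=
        mul_le_mul (hK j) h2 (nrm_nonneg _) ((abs_nonneg _).trans (hK j))
    _ = 3 * K * s := by ring

/-- Gram matrix of the transported vectors. -/
theorem gram_tv (hT : Win k0 s T) (he : SFrame l0 g s l y (T c c) e) (hs0 : 0 ≤ s) (hs1 : s ≤ 1)
    (hK0 : 0 ≤ K) (hK : ∀ i, |(l i)⁻¹| ≤ K) (hl : ∀ i, l i ≠ 0) (hl1 : ∀ i, |l i| ≤ 1)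
    (i j : Fin M) :
    |ip ((l i)⁻¹ • op (T b c) (e i)) ((l j)⁻¹ • op (T b c) (e j)) - if i = j then 1 else 0| ≤
      (8 * K ^ 2 + 1) * s := by
  have hn := frame_nrm he hs1
  have h1 : ip ((l i)⁻¹ • op (T b c) (e i)) ((l j)⁻¹ • op (T b c) (e j)) - ip (e i) (e j) =
      (l i)⁻¹ * (l j)⁻¹ *
        (ip (e i) (op (T c b) (op (T b c) (e j)) - op (T c c) (op (T c c) (e j))) +
          (ip (op (T c c) (e i) - l i • e i) (op (T c c) (e j)) +
            l i * ip (e i) (op (T c c) (e j) - l j • e j))) := by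
    rw [ip_sub_right, win_ip hT c b, win_ip hT c c (e i) (op (T c c) (e j)), ip_sub_left,
      ip_smul_left, ip_sub_right, ip_smul_right, ip_smul_left, ip_smul_right]
    have h2 : (l i)⁻¹ * (l i) = 1 := inv_mul_cancel₀ (hl i)
    have h3 : (l j)⁻¹ * (l j) = 1 := inv_mul_cancel₀ (hl j)
    have h4 : (l i)⁻¹ * (l j)⁻¹ * (l i * (l j * ip (e i) (e j))) = ip (e i) (e j) := by
      calc (l i)⁻¹ * (l j)⁻¹ * (l i * (l j * ip (e i) (e j))) =
          ((l i)⁻¹ * (l i)) * ((l j)⁻¹ * (l j)) * ip (e i) (e j) := by ring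
        _ = ip (e i) (e j) := by rw [h2, h3]; ring
    linear_combination h4
  have h5 : |ip (e i) (op (T c b) (op (T b c) (e j)) - op (T c c) (op (T c c) (e j)))| ≤
      2 * (s * 2) :=
    (abs_ip_le _ _).trans (mul_le_mul (hn i) ((win_tri hT c b c c (e j)).trans
      (mul_le_mul_of_nonneg_left (hn j) hs0)) (nrm_nonneg _) (by norm_num))
  have h6 : |ip (op (T c c) (e i) - l i • e i) (op (T c c) (e j))| ≤ s * 2 :=
    (abs_ip_le _ _).trans (mul_le_mul (he.eig i) ((win_op hT c c (e j)).trans (hn j))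
      (nrm_nonneg _) hs0)
  have h7 : |l i * ip (e i) (op (T c c) (e j) - l j • e j)| ≤ 1 * (2 * s) := by
    rw [abs_mul]
    exact mul_le_mul (hl1 i) ((abs_ip_le _ _).trans (mul_le_mul (hn i) (he.eig j)
      (nrm_nonneg _) (by norm_num))) (abs_nonneg _) (by norm_num)
  have h8 : |ip ((l i)⁻¹ • op (T b c) (e i)) ((l j)⁻¹ • op (T b c) (e j)) - ip (e i) (e j)| ≤
      K * K * (2 * (s * 2) + (s * 2 + 1 * (2 * s))) := by
    rw [h1, abs_mul, abs_mul]
    refine mul_le_mul (mul_le_mul (hK i) (hK j) (abs_nonneg _) hK0) ?_ (abs_nonneg _)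
      (by positivity)
    exact (abs_add_le _ _).trans (add_le_add h5 ((abs_add_le _ _).trans (add_le_add h6 h7)))
  have h9 := he.orth i j
  calc |ip ((l i)⁻¹ • op (T b c) (e i)) ((l j)⁻¹ • op (T b c) (e j)) - if i = j then 1 else 0|
      = |(ip ((l i)⁻¹ • op (T b c) (e i)) ((l j)⁻¹ • op (T b c) (e j)) - ip (e i) (e j)) +
        (ip (e i) (e j) - if i = j then 1 else 0)| := by congr 1; ring
    _ ≤ K * K * (2 * (s * 2) + (s * 2 + 1 * (2 * s))) + s :=
        (abs_add_le _ _).trans (add_le_add h8 h9)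
    _ = (8 * K ^ 2 + 1) * s := by ring

/-- The two basic estimates: the transported vector is close to its projection to the frame, and
the coefficients between different eigenvalues are small. -/
theorem basic (hg : 0 < g) (hlg : 0 < l0 + g) (hT : Win k0 s T)
    (hf : SFrame l0 g s l y (T b b) f)
    (he : SFrame l0 g s l y (T c c) e) (hs0 : 0 ≤ s) (hs1 : s ≤ 1) (hsg : s ≤ g)
    (hl : ∀ i, l0 + g ≤ |l i| ∧ |l i| ≤ 1) (j : Fin M) :
    (∀ k, |ip (f k) ((l j)⁻¹ • op (T b c) (e j)) * (l j - l k)| ≤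
      (2 * (3 * (l0 + g)⁻¹) + 2 * (l0 + g)⁻¹) * s) ∧
    nrm ((l j)⁻¹ • op (T b c) (e j) -
      ∑ k, ip (f k) ((l j)⁻¹ • op (T b c) (e j)) • f k) ≤
      (4 * (M : ℝ) ^ 2 * (2 * (l0 + g)⁻¹) + 4 * M * (2 * (l0 + g)⁻¹) +
        4 * M * (3 * (l0 + g)⁻¹) + 3 * (l0 + g)⁻¹) / g * s := by
  have hKi : ∀ i, |(l i)⁻¹| ≤ (l0 + g)⁻¹ := by
    intro i
    rw [abs_inv]
    exact inv_anti₀ hlg (hl i).1
  have hlne : ∀ i, l i ≠ 0 := fun i => abs_pos.mp (hlg.trans_le (hl i).1)
  exact near_span hg hT hf hs0 hs1 hsg (fun i => (hl i).2) _ (l j) _ _ (hl j).1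
    (nrm_tv hT he hs1 hKi j) (eig_tv hT he hs0 hs1 hKi j)

end one

end trans

end T3

open T3

/-- The transported vectors are close to the span of the frame. -/
theorem trans_res (M k0 : ℕ) {l0 g : ℝ} (hg : 0 < g) (hl0 : g < l0) :
    ∃ C s0 : ℝ, 1 ≤ C ∧ 0 < s0 ∧ ∀ {P Q : Type} [Fintype Q] [Nonempty Q]
      (T : P → P → Q → Q → ℝ) (s : ℝ), 0 ≤ s → s ≤ s0 → Win k0 s T →
      ∀ (l : Fin M → ℝ), (∀ i, l0 + g ≤ |l i| ∧ |l i| ≤ 1) →
      ∀ (y : (Fin k0 → Fin 2 ⊕ Fin M) → ℝ) (b c : P) (f e : Fin M → Q → ℝ),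
      SFrame l0 g s l y (T b b) f → SFrame l0 g s l y (T c c) e →
      ∀ j, nrm ((l j)⁻¹ • op (T b c) (e j) - ∑ i, trans l (T b c) f e i j • f i) ≤ C * s := by
  have hlg : 0 < l0 + g := by linarith
  set D : ℝ := (4 * (M : ℝ) ^ 2 * (2 * (l0 + g)⁻¹) + 4 * M * (2 * (l0 + g)⁻¹) +
        4 * M * (3 * (l0 + g)⁻¹) + 3 * (l0 + g)⁻¹) / g with hD
  have hDn : 0 ≤ D := by rw [hD]; positivity
  refine ⟨1 + D, min 1 g, by linarith, lt_min one_pos hg, ?_⟩
  intro P Q _ _ T s hs0 hs hT l hl y b c f e hf he j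
  refine ((basic hg hlg hT hf he hs0 (hs.trans (min_le_left _ _)) (hs.trans (min_le_right _ _))
    hl j).2).trans ?_
  exact mul_le_mul_of_nonneg_right (by linarith) hs0

/-- The transition matrix almost commutes with the diagonal matrix of the eigenvalues. -/
theorem trans_comm (M k0 : ℕ) {l0 g : ℝ} (hg : 0 < g) (hl0 : g < l0) :
    ∃ C s0 : ℝ, 1 ≤ C ∧ 0 < s0 ∧ ∀ {P Q : Type} [Fintype Q] [Nonempty Q]
      (T : P → P → Q → Q → ℝ) (s : ℝ), 0 ≤ s → s ≤ s0 → Win k0 s T →
      ∀ (l : Fin M → ℝ), (∀ i, l0 + g ≤ |l i| ∧ |l i| ≤ 1) →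
      ∀ (y : (Fin k0 → Fin 2 ⊕ Fin M) → ℝ) (b c : P) (f e : Fin M → Q → ℝ),
      SFrame l0 g s l y (T b b) f → SFrame l0 g s l y (T c c) e →
      ∀ i j, |trans l (T b c) f e i j * (l i - l j)| ≤ C * s := by
  have hlg : 0 < l0 + g := by linarith
  set D : ℝ := 2 * (3 * (l0 + g)⁻¹) + 2 * (l0 + g)⁻¹ with hD
  have hDn : 0 ≤ D := by rw [hD]; positivity
  refine ⟨1 + D, min 1 g, by linarith, lt_min one_pos hg, ?_⟩
  intro P Q _ _ T s hs0 hs hT l hl y b c f e hf he i j
  have h1 := (basic hg hlg hT hf he hs0 (hs.trans (min_le_left _ _))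
    (hs.trans (min_le_right _ _)) hl j).1 i
  have h2 : |trans l (T b c) f e i j * (l i - l j)| =
      |ip (f i) ((l j)⁻¹ • op (T b c) (e j)) * (l j - l i)| := by
    rw [abs_mul, abs_mul, abs_sub_comm (l i) (l j)]
    rfl
  rw [h2]
  exact h1.trans (mul_le_mul_of_nonneg_right (by linarith) hs0)

theorem trans_props (M k0 : ℕ) {l0 g : ℝ} (hg : 0 < g) (hl0 : g < l0) :
    ∃ C s0 : ℝ, 1 ≤ C ∧ 0 < s0 ∧ ∀ {P Q : Type} [Fintype Q] [Nonempty Q]
      (T : P → P → Q → Q → ℝ) (s : ℝ), 0 ≤ s → s ≤ s0 → Win k0 s T →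
      ∀ (l : Fin M → ℝ), (∀ i, l0 + g ≤ |l i| ∧ |l i| ≤ 1) →
      ∀ (y : (Fin k0 → Fin 2 ⊕ Fin M) → ℝ) (b c : P) (f e : Fin M → Q → ℝ),
      SFrame l0 g s l y (T b b) f → SFrame l0 g s l y (T c c) e →
      (∀ j, nrm (op (T b c) (e j) - ∑ i, (trans l (T b c) f e i j * l i) • f i) ≤ C * s) ∧
      (∀ i j, |((trans l (T b c) f e).transpose * trans l (T b c) f e - 1) i j| ≤ C * s) ∧
      (∀ w, |tact k0 (blk 2 (trans l (T b c) f e)) (mom k0 (row (T b b) l f)) w -
        mom k0 (row (T c c) l e) w| ≤ C * s) ∧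
      (∀ i j, |trans l (T b c) f e i j| ≤ 2) := by
  obtain ⟨C', s0', hC', hs0', hmom⟩ := transport_mom M k0 hg hl0
  set K : ℝ := (l0 + g)⁻¹ with hKdef
  have hlg : 0 < l0 + g := by linarith
  have hK0 : 0 < K := inv_pos.mpr hlg
  set c1 : ℝ := 2 * K with hc1
  set c2 : ℝ := 3 * K with hc2
  set D2 : ℝ := (4 * (M : ℝ) ^ 2 * c1 + 4 * M * c1 + 4 * M * c2 + c2) / g with hD2
  set D1 : ℝ := 2 * c2 + c1 with hD1
  have hD1n : 0 ≤ D1 := by rw [hD1, hc1, hc2]; positivity
  have hD2n : 0 ≤ D2 := by rw [hD2, hc1, hc2]; positivity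
  set E1 : ℝ := D2 + M * (D1 * 2) with hE1
  have hE1n : 0 ≤ E1 := by rw [hE1]; positivity
  set E2 : ℝ := (8 * K ^ 2 + 1) + 2 * K * D2 with hE2
  have hE2n : 0 ≤ E2 := by rw [hE2]; positivity
  set E3 : ℝ := k0 * (4 * M + 2 : ℝ) ^ k0 * E1 + C' with hE3
  have hE3n : 0 ≤ E3 := by rw [hE3]; positivity
  refine ⟨1 + E1 + E2 + E3, min (min 1 g) (min s0' (8 * K ^ 2 + 1)⁻¹), by linarith, ?_, ?_⟩
  · refine lt_min (lt_min one_pos hg) (lt_min hs0' (by positivity))
  intro P Q _ _ T s hs0 hs hT l hl y b c f e hf he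
  have hs1 : s ≤ 1 := hs.trans ((min_le_left _ _).trans (min_le_left _ _))
  have hsg : s ≤ g := hs.trans ((min_le_left _ _).trans (min_le_right _ _))
  have hss : s ≤ s0' := hs.trans ((min_le_right _ _).trans (min_le_left _ _))
  have hsK : (8 * K ^ 2 + 1) * s ≤ 1 := by
    have h1 : s ≤ (8 * K ^ 2 + 1)⁻¹ := hs.trans ((min_le_right _ _).trans (min_le_right _ _))
    have h2 : 0 < 8 * K ^ 2 + 1 := by positivity
    calc (8 * K ^ 2 + 1) * s ≤ (8 * K ^ 2 + 1) * (8 * K ^ 2 + 1)⁻¹ :=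
          mul_le_mul_of_nonneg_left h1 h2.le
      _ = 1 := mul_inv_cancel₀ h2.ne'
  have hl1 : ∀ i, |l i| ≤ 1 := fun i => (hl i).2
  have hlp : ∀ i, 0 < |l i| := fun i => hlg.trans_le (hl i).1
  have hlne : ∀ i, l i ≠ 0 := fun i => abs_pos.mp (hlp i)
  have hKi : ∀ i, |(l i)⁻¹| ≤ K := by
    intro i
    rw [abs_inv]
    exact inv_anti₀ hlg (hl i).1
  have hfn : ∀ k, nrm (f k) ≤ 2 := frame_nrm hf hs1
  -- the transported vectors
  set F : Fin M → Q → ℝ := fun j => (l j)⁻¹ • op (T b c) (e j) with hF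
  have hlF : ∀ j, l j • F j = op (T b c) (e j) := by
    intro j
    rw [hF]
    simp only [smul_smul]
    rw [mul_inv_cancel₀ (hlne j), one_smul]
  have hnF : ∀ j, nrm (F j) ≤ c1 := fun j => nrm_tv hT he hs1 hKi j
  have hns : ∀ j, (∀ k, |ip (f k) (F j) * (l j - l k)| ≤ D1 * s) ∧
      nrm (F j - ∑ k, ip (f k) (F j) • f k) ≤ D2 * s := by
    intro j
    exact near_span hg hT hf hs0 hs1 hsg hl1 (F j) (l j) c1 c2 (hl j).1 (hnF j)
      (eig_tv hT he hs0 hs1 hKi j)
  have hA : ∀ i j, trans l (T b c) f e i j = ip (f i) (F j) := fun i j => rfl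
  -- (1)
  have P1 : ∀ j, nrm (op (T b c) (e j) - ∑ i, (trans l (T b c) f e i j * l i) • f i) ≤
      E1 * s := by
    intro j
    have h1 : op (T b c) (e j) - ∑ i, (trans l (T b c) f e i j * l i) • f i =
        l j • (F j - ∑ k, ip (f k) (F j) • f k) +
          ∑ k, (ip (f k) (F j) * (l j - l k)) • f k := by
      rw [smul_sub, hlF, Finset.smul_sum]
      simp only [smul_smul, mul_sub, sub_smul, Finset.sum_sub_distrib, hA]
      have h2 : ∀ k, l j * ip (f k) (F j) = ip (f k) (F j) * l j := fun k => mul_comm _ _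
      simp only [h2]
      abel
    rw [h1]
    refine (nrm_add_le _ _).trans ?_
    have h3 : nrm (l j • (F j - ∑ k, ip (f k) (F j) • f k)) ≤ 1 * (D2 * s) := by
      rw [nrm_smul]
      exact mul_le_mul (hl1 j) (hns j).2 (nrm_nonneg _) (by norm_num)
    have h4 : nrm (∑ k, (ip (f k) (F j) * (l j - l k)) • f k) ≤ M * (D1 * s * 2) := by
      refine (nrm_sum_le _ _).trans ?_
      have h5 : ∀ k ∈ (univ : Finset (Fin M)),
          nrm ((ip (f k) (F j) * (l j - l k)) • f k) ≤ D1 * s * 2 := by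
        intro k _
        rw [nrm_smul]
        exact mul_le_mul ((hns j).1 k) (hfn k) (nrm_nonneg _) (by positivity)
      refine (Finset.sum_le_sum h5).trans ?_
      simp
    calc _ ≤ 1 * (D2 * s) + M * (D1 * s * 2) := add_le_add h3 h4
      _ = E1 * s := by rw [hE1]; ring
  -- (2)
  have P2 : ∀ i j, |((trans l (T b c) f e).transpose * trans l (T b c) f e - 1) i j| ≤
      E2 * s := by
    intro i j
    have h1 : ((trans l (T b c) f e).transpose * trans l (T b c) f e - 1) i j =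
        (ip (F i) (F j) - if i = j then 1 else 0) -
          ip (F i) (F j - ∑ k, ip (f k) (F j) • f k) := by
      rw [ip_sub_right, ip_sum_right]
      simp only [ip_smul_right]
      rw [Matrix.sub_apply, Matrix.mul_apply, Matrix.one_apply]
      simp only [Matrix.transpose_apply, hA]
      have h2 : ∀ k, ip (f k) (F j) * ip (F i) (f k) = ip (f k) (F i) * ip (f k) (F j) := by
        intro k
        rw [ip_comm (F i) (f k)]
        ring
      simp only [h2]
      ring
    rw [h1]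
    have h3 : |ip (F i) (F j) - if i = j then 1 else 0| ≤ (8 * K ^ 2 + 1) * s :=
      gram_tv hT he hs0 hs1 hK0.le hKi hlne hl1 i j
    have h4 : |ip (F i) (F j - ∑ k, ip (f k) (F j) • f k)| ≤ c1 * (D2 * s) :=
      (abs_ip_le _ _).trans (mul_le_mul (hnF i) (hns j).2 (nrm_nonneg _) (by positivity))
    refine (abs_sub _ _).trans ?_
    calc _ ≤ (8 * K ^ 2 + 1) * s + c1 * (D2 * s) := add_le_add h3 h4
      _ = E2 * s := by rw [hE2, hc1]; ring
  -- (4)
  have P4 : ∀ i j, |trans l (T b c) f e i j| ≤ 2 := by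
    intro i j
    rw [hA]
    have h1 : |ip (f i) (F j)| ≤ nrm (f i) * nrm (F j) := abs_ip_le _ _
    have h2 : nrm (f i) ^ 2 ≤ 2 := by
      rw [nrm_sq]
      have h3 := hf.orth i i
      rw [if_pos rfl] at h3
      linarith [(abs_le.mp h3).2]
    have h4 : nrm (F j) ^ 2 ≤ 2 := by
      rw [nrm_sq]
      have h5 : |ip (F j) (F j) - if j = j then 1 else 0| ≤ (8 * K ^ 2 + 1) * s :=
        gram_tv hT he hs0 hs1 hK0.le hKi hlne hl1 j j
      rw [if_pos rfl] at h5
      linarith [(abs_le.mp h5).2]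
    have h6 := nrm_nonneg (f i)
    have h7 := nrm_nonneg (F j)
    nlinarith [sq_nonneg (nrm (f i) - nrm (F j))]
  -- (3)
  have P3 : ∀ w, |tact k0 (blk 2 (trans l (T b c) f e)) (mom k0 (row (T b b) l f)) w -
        mom k0 (row (T c c) l e) w| ≤ E3 * s := by
    intro w
    rw [← mom_vecMul]
    have h1 := hmom T s hs0 hss hT l hl y b c e he w
    set h : Q → Fin 2 ⊕ Fin M → ℝ := fun p =>
      Matrix.vecMul (row (T b b) l f p) (blk 2 (trans l (T b c) f e)) with hh
    set h' : Q → Fin 2 ⊕ Fin M → ℝ := row (T b b) l F with hh'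
    have hl' : ∀ p (i : Fin 2), h p (Sum.inl i) = row (T b b) l f p (Sum.inl i) := by
      intro p i
      rw [hh]
      simp only [Matrix.vecMul, dotProduct, Fintype.sum_sum_type, Pool.Agent.Helper64.SRL.blk,
        Matrix.fromBlocks_apply₁₁, Matrix.fromBlocks_apply₂₁, Matrix.one_apply, mul_ite, mul_one,
        mul_zero, Finset.sum_ite_eq', Finset.mem_univ, if_true, Matrix.zero_apply,
        Finset.sum_const_zero, add_zero, Finset.sum_ite_eq]
    have hr' : ∀ p (j : Fin M), h p (Sum.inr j) =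
        (∑ i, (trans l (T b c) f e i j * l i) • f i) p := by
      intro p j
      rw [hh]
      simp only [Matrix.vecMul, dotProduct, Fintype.sum_sum_type, Pool.Agent.Helper64.SRL.blk,
        Matrix.fromBlocks_apply₁₂, Matrix.fromBlocks_apply₂₂, Matrix.zero_apply, mul_zero,
        Finset.sum_const_zero, zero_add, Finset.sum_apply, Pi.smul_apply, smul_eq_mul]
      apply Finset.sum_congr rfl
      intro i _
      show l i * f i p * _ = _
      ring
    have hF' : ∀ p (j : Fin M), h' p (Sum.inr j) = op (T b c) (e j) p := by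
      intro p j
      show l j * F j p = _
      rw [← hlF j]
      rfl
    have hb0 : ∀ p (i : Fin 2), |row (T b b) l f p (Sum.inl i)| ≤ 1 := by
      intro p i
      have hone : nrm (1 : Q → ℝ) ≤ 1 := nrm_le_of_abs_le (fun p => by simp)
      fin_cases i
      · show |(1 : ℝ)| ≤ 1
        simp
      · show |op (T b b) 1 p| ≤ 1
        exact (abs_op_le (hT.nonneg b b) (hT.le_one b b) 1 p).trans hone
    have hM0 : (0 : ℝ) ≤ M := Nat.cast_nonneg M
    have hbh : ∀ p o, |h p o| ≤ 4 * M + 2 := by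
      intro p o
      rcases o with i | j
      · rw [hl']
        have := hb0 p i
        linarith
      · rw [hr', Finset.sum_apply]
        refine (Finset.abs_sum_le_sum_abs _ _).trans ?_
        have h5 : ∀ i ∈ (univ : Finset (Fin M)),
            |((trans l (T b c) f e i j * l i) • f i) p| ≤ 4 := by
          intro i _
          have h6 : |l i * f i p| ≤ 2 := by
            have h7 := hf.sup p
            have h8 : (l i * f i p) ^ 2 ≤ 2 := le_trans
              (Finset.single_le_sum (f := fun i => (l i * f i p) ^ 2)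
                (fun i _ => sq_nonneg _) (Finset.mem_univ i)) h7
            rw [← sq_abs] at h8
            nlinarith [abs_nonneg (l i * f i p)]
          have h9 : ((trans l (T b c) f e i j * l i) • f i) p =
              trans l (T b c) f e i j * (l i * f i p) := by
            simp only [Pi.smul_apply, smul_eq_mul]
            ring
          rw [h9, abs_mul]
          calc |trans l (T b c) f e i j| * |l i * f i p| ≤ 2 * 2 :=
                mul_le_mul (P4 i j) h6 (abs_nonneg _) (by norm_num)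
            _ = 4 := by norm_num
        refine (Finset.sum_le_sum h5).trans ?_
        simp
        linarith
    have hbh' : ∀ p o, |h' p o| ≤ 4 * M + 2 := by
      intro p o
      rcases o with i | j
      · have h5 : h' p (Sum.inl i) = row (T b b) l f p (Sum.inl i) := rfl
        rw [h5]
        have := hb0 p i
        linarith
      · rw [hF']
        have h6 := (abs_op_le (hT.nonneg b c) (hT.le_one b c) (e j) p).trans (frame_nrm he hs1 j)
        linarith
    have hcl : ∀ o, nrm (fun p => h p o - h' p o) ≤ E1 * s := by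
      intro o
      rcases o with i | j
      · have h5 : (fun p => h p (Sum.inl i) - h' p (Sum.inl i)) = 0 := by
          funext p
          rw [hl' p i]
          exact sub_self _
        rw [h5, nrm_zero]
        positivity
      · have h5 : (fun p => h p (Sum.inr j) - h' p (Sum.inr j)) =
            (∑ i, (trans l (T b c) f e i j * l i) • f i) - op (T b c) (e j) := by
          funext p
          rw [hr' p j, hF' p j]
          rfl
        rw [h5, nrm_sub_comm]
        exact P1 j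
    have h2 := mom_close h h' (4 * M + 2) (E1 * s) (by linarith) (by positivity) hbh hbh' hcl w
    calc |mom k0 h w - mom k0 (row (T c c) l e) w|
        = |(mom k0 h w - mom k0 h' w) + (mom k0 h' w - mom k0 (row (T c c) l e) w)| := by
          congr 1; ring
      _ ≤ k0 * (4 * M + 2 : ℝ) ^ k0 * (E1 * s) + C' * s :=
          (abs_add_le _ _).trans (add_le_add h2 h1)
      _ = E3 * s := by rw [hE3]; ring
  refine ⟨fun j => (P1 j).trans ?_, fun i j => (P2 i j).trans ?_, fun w => (P3 w).trans ?_, P4⟩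
  · exact mul_le_mul_of_nonneg_right (by linarith) hs0
  · exact mul_le_mul_of_nonneg_right (by linarith) hs0
  · exact mul_le_mul_of_nonneg_right (by linarith) hs0

end Fr

end Pool.Agent.SRL
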