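import Pool.Agent.SRL.FStat
import Pool.Agent.SRL.FBasic

/-! Row F8b: statistics give regular windows; the choice of the base classes. -/

set_option autoImplicit false

namespace Pool.Agent.SRL

open Finset

namespace Fr

section avgs

variable {Q : Type} [Fintype Q]

theorem avg_equiv {Ω Ω' : Type} [Fintype Ω] [Fintype Ω'] (e : Ω ≃ Ω') (f : Ω' → ℝ) :
    avg (fun p => f (e p)) = avg f := by
  unfold avg
  rw [Fintype.card_congr e, Equiv.sum_comp e f]

theorem avg_prod {Ω Ω' : Type} [Fintype Ω] [Fintype Ω'] (f : Ω × Ω' → ℝ) :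
    avg f = avg fun a => avg fun b => f (a, b) := by
  unfold avg
  rw [Fintype.card_prod, Fintype.sum_prod_type, Nat.cast_mul]
  simp only [← sum_div]
  rw [div_div, mul_comm]

theorem avg_append {k m : ℕ} (f : (Fin (k + m) → Q) → ℝ) :
    avg f = avg fun u : Fin k → Q => avg fun v : Fin m → Q => f (Fin.append u v) := by
  rw [← avg_equiv (Fin.appendEquiv k m) f, avg_prod]
  rfl

theorem avg_cons {k : ℕ} (f : (Fin (k + 1) → Q) → ℝ) :
    avg f = avg fun a => avg fun p : Fin k → Q => f (Fin.cons a p) := by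
  rw [← avg_equiv (Fin.consEquiv fun _ => Q) f, avg_prod]
  rfl

theorem avg_nil (f : (Fin 0 → Q) → ℝ) : avg f = f ![] := by
  unfold avg
  simp only [univ_unique, sum_singleton, Fintype.card_unique, Nat.cast_one, div_one]
  exact congrArg f (Subsingleton.elim _ _)

theorem avg_four (f : (Fin 4 → Q) → ℝ) :
    avg f = avg fun a => avg fun b => avg fun c => avg fun d => f ![a, b, c, d] := by
  rw [avg_cons]
  simp only [avg_cons, avg_nil]
  rfl

theorem sq_avg_sub (A B : Q → ℝ) : (avg A - avg B) ^ 2 =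
    avg (fun q => avg fun q' => A q * A q') - 2 * avg (fun q => avg fun q' => A q * B q') +
      avg (fun q => avg fun q' => B q * B q') := by
  simp only [avg_mul_left, avg_mul_right]
  ring

end avgs

section

variable {B L X : Type} [DecidableEq B] {J K : ℕ}

/-- graph statistics in terms of the kernels of the window -/
theorem stat_graph (S : CS (Fin J ⊕ B) L X) (R : X × Fin K → X × Fin K → ℝ)
    (V : St B L (St (Fin J) L X)) {k : ℕ} (E : Finset (Fin k × Fin k)) (β : Fin k → Finset B) :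
    stat S V (fun v => ∏ x ∈ E, R (v x.1) (v x.2)) β =
      avg fun p : Fin k → Finset (Fin J) × Fin K =>
        ∏ x ∈ E, wker S R V (β x.1) (β x.2) (p x.1) (p x.2) := rfl

/-- embedding of the last four vertices -/
def em (k0 : ℕ) : Fin 4 × Fin 4 ↪ Fin (k0 + 4) × Fin (k0 + 4) :=
  Function.Embedding.prodMap (Fin.natAddEmb k0) (Fin.natAddEmb k0)

theorem stat_four [NeZero K] (S : CS (Fin J ⊕ B) L X) (R : X × Fin K → X × Fin K → ℝ)
    (V : St B L (St (Fin J) L X)) (k0 : ℕ) (E : Finset (Fin 4 × Fin 4)) (β : Fin 4 → Finset B) :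
    stat S V (fun v => ∏ x ∈ E.map (em k0), R (v x.1) (v x.2))
      (Fin.append (fun _ : Fin k0 => (∅ : Finset B)) β) =
      avg fun p : Fin 4 → Finset (Fin J) × Fin K =>
        ∏ x ∈ E, wker S R V (β x.1) (β x.2) (p x.1) (p x.2) := by
  rw [stat_graph, avg_append]
  have h : ∀ (u : Fin k0 → Finset (Fin J) × Fin K) (v : Fin 4 → Finset (Fin J) × Fin K),
      ∏ x ∈ E.map (em k0), wker S R V
        (Fin.append (fun _ : Fin k0 => (∅ : Finset B)) β x.1)
        (Fin.append (fun _ : Fin k0 => (∅ : Finset B)) β x.2)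
        (Fin.append u v x.1) (Fin.append u v x.2) =
      ∏ x ∈ E, wker S R V (β x.1) (β x.2) (v x.1) (v x.2) := by
    intro u v
    rw [prod_map]
    refine prod_congr rfl fun x _ => ?_
    simp only [em, Function.Embedding.prodMap, Function.Embedding.coeFn_mk, Prod.map_fst,
      Prod.map_snd, Fin.natAddEmb_apply, Fin.append_right]
  simp only [h]
  exact avg_const _

theorem reg_tri [NeZero K] (S : CS (Fin J ⊕ B) L X) (R : X × Fin K → X × Fin K → ℝ)
    (k0 : ℕ) (τ : ℝ) (V : St B L (St (Fin J) L X)) (h : Reg S R (k0 + 4) τ V)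
    (b c c' d : Finset B) :
    hs (comp (wker S R V b c) (wker S R V c d) - comp (wker S R V b c') (wker S R V c' d)) ^ 2 ≤
      2 * τ := by
  set T := wker S R V with hT
  have key : ∀ x y : Finset B,
      stat S V (fun v => ∏ x ∈ ({(0, 2), (2, 1), (0, 3), (3, 1)} :
        Finset (Fin 4 × Fin 4)).map (em k0), R (v x.1) (v x.2))
        (Fin.append (fun _ : Fin k0 => (∅ : Finset B)) ![b, d, x, y]) =
      avg fun p => avg fun r => avg fun q => avg fun q' =>
        (T b x p q * T x d q r) * (T b y p q' * T y d q' r) := by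
    intro x y
    rw [stat_four, avg_four]
    refine congrArg avg (funext fun p => congrArg avg (funext fun r => congrArg avg
      (funext fun q => congrArg avg (funext fun q' => ?_))))
    rw [prod_insert (by decide), prod_insert (by decide), prod_insert (by decide),
      prod_singleton]
    show T b x p q * (T x d q r * (T b y p q' * T y d q' r)) = _
    ring
  have h1 := (abs_le.1 (h (({(0, 2), (2, 1), (0, 3), (3, 1)} :
    Finset (Fin 4 × Fin 4)).map (em k0)) (Fin.append (fun _ : Fin k0 => (∅ : Finset B)) ![b, d, c, c])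
    (Fin.append (fun _ : Fin k0 => (∅ : Finset B)) ![b, d, c, c']))).2
  have h2 := (abs_le.1 (h (({(0, 2), (2, 1), (0, 3), (3, 1)} :
    Finset (Fin 4 × Fin 4)).map (em k0)) (Fin.append (fun _ : Fin k0 => (∅ : Finset B)) ![b, d, c', c'])
    (Fin.append (fun _ : Fin k0 => (∅ : Finset B)) ![b, d, c, c']))).2
  rw [key, key] at h1 h2
  rw [hs_sq]
  have h3 : (avg fun p => avg fun r => (comp (T b c) (T c d) - comp (T b c') (T c' d)) p r ^ 2) =
      (avg fun p => avg fun r => avg fun q => avg fun q' =>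
        (T b c p q * T c d q r) * (T b c p q' * T c d q' r)) -
      2 * (avg fun p => avg fun r => avg fun q => avg fun q' =>
        (T b c p q * T c d q r) * (T b c' p q' * T c' d q' r)) +
      (avg fun p => avg fun r => avg fun q => avg fun q' =>
        (T b c' p q * T c' d q r) * (T b c' p q' * T c' d q' r)) := by
    have h4 : ∀ p r, (comp (T b c) (T c d) - comp (T b c') (T c' d)) p r ^ 2 =
        avg (fun q => avg fun q' => (T b c p q * T c d q r) * (T b c p q' * T c d q' r)) -
        2 * avg (fun q => avg fun q' => (T b c p q * T c d q r) * (T b c' p q' * T c' d q' r)) +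
        avg (fun q => avg fun q' => (T b c' p q * T c' d q r) * (T b c' p q' * T c' d q' r)) :=
      fun p r => sq_avg_sub _ _
    simp only [h4, avg_add, avg_sub, avg_mul_left]
  rw [h3]
  linarith

theorem reg_deg [NeZero K] (S : CS (Fin J ⊕ B) L X) (R : X × Fin K → X × Fin K → ℝ)
    (k0 : ℕ) (τ : ℝ) (V : St B L (St (Fin J) L X)) (h : Reg S R (k0 + 4) τ V)
    (b c c' : Finset B) :
    nrm (op (wker S R V b c) 1 - op (wker S R V b c') 1) ^ 2 ≤ 2 * τ := by
  set T := wker S R V with hT
  have key : ∀ x y : Finset B,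
      stat S V (fun v => ∏ x ∈ ({(0, 1), (0, 2)} :
        Finset (Fin 4 × Fin 4)).map (em k0), R (v x.1) (v x.2))
        (Fin.append (fun _ : Fin k0 => (∅ : Finset B)) ![b, x, y, y]) =
      avg fun p => avg fun q => avg fun q' => T b x p q * T b y p q' := by
    intro x y
    rw [stat_four, avg_four]
    refine congrArg avg (funext fun p => congrArg avg (funext fun r => congrArg avg
      (funext fun q => ?_)))
    have h5 : ∀ r' : Finset (Fin J) × Fin K, ∏ z ∈ ({(0, 1), (0, 2)} : Finset (Fin 4 × Fin 4)),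
        T (![b, x, y, y] z.1) (![b, x, y, y] z.2) (![p, r, q, r'] z.1) (![p, r, q, r'] z.2) =
        T b x p r * T b y p q := by
      intro r'
      rw [prod_insert (by decide), prod_singleton]
      rfl
    simp only [← hT, h5]
    exact avg_const _
  have h1 := (abs_le.1 (h (({(0, 1), (0, 2)} :
    Finset (Fin 4 × Fin 4)).map (em k0)) (Fin.append (fun _ : Fin k0 => (∅ : Finset B)) ![b, c, c, c])
    (Fin.append (fun _ : Fin k0 => (∅ : Finset B)) ![b, c, c', c']))).2
  have h2 := (abs_le.1 (h (({(0, 1), (0, 2)} :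
    Finset (Fin 4 × Fin 4)).map (em k0)) (Fin.append (fun _ : Fin k0 => (∅ : Finset B)) ![b, c', c', c'])
    (Fin.append (fun _ : Fin k0 => (∅ : Finset B)) ![b, c, c', c']))).2
  rw [key, key] at h1 h2
  rw [nrm_sq]
  have h3 : ip (op (T b c) 1 - op (T b c') 1) (op (T b c) 1 - op (T b c') 1) =
      (avg fun p => avg fun q => avg fun q' => T b c p q * T b c p q') -
      2 * (avg fun p => avg fun q => avg fun q' => T b c p q * T b c' p q') +
      (avg fun p => avg fun q => avg fun q' => T b c' p q * T b c' p q') := by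
    have h4 : ∀ p, (op (T b c) 1 - op (T b c') 1) p * (op (T b c) 1 - op (T b c') 1) p =
        avg (fun q => avg fun q' => T b c p q * T b c p q') -
        2 * avg (fun q => avg fun q' => T b c p q * T b c' p q') +
        avg (fun q => avg fun q' => T b c' p q * T b c' p q') := by
      intro p
      rw [← sq_avg_sub, ← sq]
      simp only [op, Pi.sub_apply, Pi.one_apply, mul_one]
    simp only [ip, h4, avg_add, avg_sub, avg_mul_left]
  rw [h3]
  linarith

theorem reg_ten [NeZero K] (S : CS (Fin J ⊕ B) L X) (R : X × Fin K → X × Fin K → ℝ)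
    (k0 : ℕ) (τ : ℝ) (V : St B L (St (Fin J) L X)) (h : Reg S R (k0 + 4) τ V)
    (s : Finset (Fin k0)) (b b' c : Finset B) :
    avg (fun q : Fin k0 → Finset (Fin J) × Fin K =>
      (avg (fun p => ∏ i ∈ s, wker S R V b c p (q i)) -
        avg (fun p => ∏ i ∈ s, wker S R V b' c p (q i))) ^ 2) ≤ 2 * τ := by
  classical
  set T := wker S R V with hT
  let n0 : Fin (k0 + 4) := Fin.natAdd k0 0
  let n1 : Fin (k0 + 4) := Fin.natAdd k0 1
  let f0 : Fin k0 ↪ Fin (k0 + 4) × Fin (k0 + 4) :=
    ⟨fun i => (n0, Fin.castAdd 4 i), fun i j hij => Fin.castAdd_injective _ _ (Prod.ext_iff.1 hij).2⟩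
  let f1 : Fin k0 ↪ Fin (k0 + 4) × Fin (k0 + 4) :=
    ⟨fun i => (n1, Fin.castAdd 4 i), fun i j hij => Fin.castAdd_injective _ _ (Prod.ext_iff.1 hij).2⟩
  have hdisj : Disjoint (s.map f0) (s.map f1) := by
    rw [disjoint_left]
    intro x hx hx'
    obtain ⟨i, -, hi⟩ := mem_map.1 hx
    obtain ⟨j, -, hj⟩ := mem_map.1 hx'
    rw [← hj] at hi
    have h1 : n0 = n1 := (Prod.ext_iff.1 hi).1
    have h2 : (0 : Fin 4) = 1 := Fin.natAdd_injective _ _ h1
    exact absurd h2 (by decide)
  have key : ∀ x y : Finset B,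
      stat S V (fun v => ∏ x ∈ s.map f0 ∪ s.map f1, R (v x.1) (v x.2))
        (Fin.append (fun _ : Fin k0 => c) ![x, y, x, x]) =
      avg fun q : Fin k0 → Finset (Fin J) × Fin K => avg fun p => avg fun p' =>
        (∏ i ∈ s, T x c p (q i)) * (∏ i ∈ s, T y c p' (q i)) := by
    intro x y
    rw [stat_graph, avg_append]
    refine congrArg avg (funext fun q => ?_)
    rw [avg_four]
    refine congrArg avg (funext fun p => congrArg avg (funext fun p' => ?_))
    have h5 : ∀ r r' : Finset (Fin J) × Fin K,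
        ∏ z ∈ s.map f0 ∪ s.map f1, wker S R V
          (Fin.append (fun _ : Fin k0 => c) ![x, y, x, x] z.1)
          (Fin.append (fun _ : Fin k0 => c) ![x, y, x, x] z.2)
          (Fin.append q ![p, p', r, r'] z.1) (Fin.append q ![p, p', r, r'] z.2) =
        (∏ i ∈ s, T x c p (q i)) * (∏ i ∈ s, T y c p' (q i)) := by
      intro r r'
      rw [prod_union hdisj, prod_map, prod_map]
      congr 1
      · refine prod_congr rfl fun i _ => ?_
        simp only [f0, n0, Function.Embedding.coeFn_mk, Fin.append_left, Fin.append_right]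
        rfl
      · refine prod_congr rfl fun i _ => ?_
        simp only [f1, n1, Function.Embedding.coeFn_mk, Fin.append_left, Fin.append_right]
        rfl
    simp only [h5, avg_const]
  have h1 := (abs_le.1 (h (s.map f0 ∪ s.map f1) (Fin.append (fun _ : Fin k0 => c) ![b, b, b, b])
    (Fin.append (fun _ : Fin k0 => c) ![b, b', b, b]))).2
  have h2 := (abs_le.1 (h (s.map f0 ∪ s.map f1) (Fin.append (fun _ : Fin k0 => c) ![b', b', b', b'])
    (Fin.append (fun _ : Fin k0 => c) ![b, b', b, b]))).2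
  rw [key, key] at h1 h2
  have h3 : avg (fun q : Fin k0 → Finset (Fin J) × Fin K =>
      (avg (fun p => ∏ i ∈ s, T b c p (q i)) - avg (fun p => ∏ i ∈ s, T b' c p (q i))) ^ 2) =
      (avg fun q : Fin k0 → Finset (Fin J) × Fin K => avg fun p => avg fun p' =>
        (∏ i ∈ s, T b c p (q i)) * (∏ i ∈ s, T b c p' (q i))) -
      2 * (avg fun q : Fin k0 → Finset (Fin J) × Fin K => avg fun p => avg fun p' =>
        (∏ i ∈ s, T b c p (q i)) * (∏ i ∈ s, T b' c p' (q i))) +
      (avg fun q : Fin k0 → Finset (Fin J) × Fin K => avg fun p => avg fun p' =>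
        (∏ i ∈ s, T b' c p (q i)) * (∏ i ∈ s, T b' c p' (q i))) := by
    simp only [sq_avg_sub, avg_add, avg_sub, avg_mul_left]
  rw [h3]
  linarith

/-- F8b -/
theorem win_of_reg [NeZero K] (S : CS (Fin J ⊕ B) L X) (R : X × Fin K → X × Fin K → ℝ)
    (hR : Col R) (k0 : ℕ) (τ : ℝ) (V : St B L (St (Fin J) L X)) (h : Reg S R (k0 + 4) τ V) :
    Win k0 (2 * Real.sqrt τ) (wker S R V) := by
  have hτ : 0 ≤ τ := (abs_nonneg _).trans (h ∅ (fun _ => ∅) (fun _ => ∅))
  have e1 : (2 * Real.sqrt τ) ^ 2 = 4 * τ := by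
    rw [mul_pow, Real.sq_sqrt hτ]
    norm_num
  have h0 : 0 ≤ 2 * Real.sqrt τ := by positivity
  refine ⟨fun b c p q => hR.nonneg _ _, fun b c p q => hR.le_one _ _, fun b c p q => hR.symm _ _,
    fun b c c' d => ?_, fun b c c' => ?_, fun s b b' c => ?_⟩
  · refine abs_le_of_sq_le_sq' ?_ h0 |>.2
    rw [e1]
    exact (reg_tri S R k0 τ V h b c c' d).trans (by linarith)
  · refine abs_le_of_sq_le_sq' ?_ h0 |>.2
    rw [e1]
    exact (reg_deg S R k0 τ V h b c c').trans (by linarith)
  · rw [e1]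
    exact (reg_ten S R k0 τ V h s b b' c).trans (by linarith)

end

theorem choose_base (D k0 : ℕ) (eps : ℝ) (heps : 0 < eps) : ∃ J : ℕ, ∀ (q n K : ℕ) [NeZero q]
    [NeZero n] [NeZero K] (S : CS (Fin J ⊕ Fin D) (Fin q) (Fin n))
    (R : Fin n × Fin K → Fin n × Fin K → ℝ), Col R → ∃ e : Equiv.Perm (Fin J ⊕ Fin D),
    prob {V : St (Fin D) (Fin q) (St (Fin J) (Fin q) (Fin n)) |
      ¬ Win k0 eps (wker (S.reindex e) R V)} ≤ eps := by
  classical
  obtain ⟨τ, hτ, hτ1, hτ2⟩ : ∃ τ : ℝ, 0 < τ ∧ τ ≤ eps ∧ 2 * Real.sqrt τ ≤ eps := by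
    refine ⟨min eps ((eps / 2) ^ 2), by positivity, min_le_left _ _, ?_⟩
    have h1 : Real.sqrt (min eps ((eps / 2) ^ 2)) ≤ eps / 2 :=
      Real.sqrt_le_iff.2 ⟨by positivity, min_le_right _ _⟩
    linarith
  obtain ⟨J, hJ⟩ := reg_base D (k0 + 4) τ hτ
  refine ⟨J, fun q n K _ _ _ S R hR => ?_⟩
  obtain ⟨e, he⟩ := hJ q n K S R hR
  refine ⟨e, le_trans ?_ (he.trans hτ1)⟩
  unfold prob
  refine avg_mono fun V => ?_
  by_cases hV : Reg (S.reindex e) R (k0 + 4) τ V
  · have h1 : Win k0 eps (wker (S.reindex e) R V) := by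
      have h2 := win_of_reg (S.reindex e) R hR k0 τ V hV
      have h3 : 0 ≤ 2 * Real.sqrt τ := by positivity
      exact ⟨h2.nonneg, h2.le_one, h2.symm, fun b c c' d => (h2.tri b c c' d).trans hτ2,
        fun b c c' => (h2.deg b c c').trans hτ2,
        fun s b b' c => (h2.ten s b b' c).trans (pow_le_pow_left₀ h3 hτ2 2)⟩
    simp [hV, h1]
  · simp only [Set.mem_ofPred_eq, hV, not_false_eq_true, if_true]
    split_ifs <;> norm_num

end Fr

end Pool.Agent.SRL
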