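import Pool.Agent.SRL.FMom

/-!
Block F, row F10a: exact frames: bounds, and exact frames are soft frames of close models.
-/

set_option autoImplicit false
set_option linter.unusedVariables false

namespace Pool.Agent.SRL

open Finset

namespace Fr

theorem xframe_bessel {M : ℕ} {l0 g : ℝ} {Q : Type} [Fintype Q] {T : Q → Q → ℝ}
    {l : Fin M → ℝ} {e : Fin M → Q → ℝ} (h : XFrame l0 g T l e) (f : Q → ℝ) :
    ∑ i, ip (e i) f ^ 2 ≤ nrm f ^ 2 := by
  have h1 := bessel_soft (e := e) (s := 0) le_rfl (fun i j => by rw [h.orth i j]; simp) f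
  simpa using h1

theorem xframe_sup {M : ℕ} {l0 g : ℝ} {Q : Type} [Fintype Q] [Nonempty Q] (T : Q → Q → ℝ)
    (hT : Col T) (l : Fin M → ℝ) (e : Fin M → Q → ℝ) (h : XFrame l0 g T l e) (p : Q) :
    ∑ i, (l i * e i p) ^ 2 ≤ 1 := by
  have h1 := xframe_bessel h (T p)
  have h2 : nrm (T p) ≤ 1 := nrm_le_of_abs_le fun q => by
    rw [abs_of_nonneg (hT.nonneg p q)]; exact hT.le_one p q
  have h3 : nrm (T p) ^ 2 ≤ 1 := by
    have := nrm_nonneg (T p)
    nlinarith
  refine le_trans (le_of_eq ?_) (h1.trans h3)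
  refine sum_congr rfl fun i _ => ?_
  have h4 : op T (e i) p = l i * e i p := by
    rw [h.eig i]; rfl
  have h5 : op T (e i) p = ip (e i) (T p) := by
    rw [ip_comm]; rfl
  rw [← h4, h5]

theorem xframe_row_le {M : ℕ} {l0 g : ℝ} {Q : Type} [Fintype Q] [Nonempty Q] (T : Q → Q → ℝ)
    (hT : Col T) (l : Fin M → ℝ) (e : Fin M → Q → ℝ) (h : XFrame l0 g T l e) (p : Q)
    (o : Fin 2 ⊕ Fin M) : |row T l e p o| ≤ 1 := by
  rcases o with o | o
  · fin_cases o
    · simp [row]
    · have h1 := abs_op_le hT.nonneg hT.le_one 1 p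
      rw [nrm_one] at h1
      simpa [row] using h1
  · have h1 := xframe_sup T hT l e h p
    have h2 : (l o * e o p) ^ 2 ≤ 1 :=
      (single_le_sum (f := fun i => (l i * e i p) ^ 2) (fun i _ => sq_nonneg _)
        (mem_univ o)).trans h1
    have h3 : |l o * e o p| ≤ 1 := by
      rw [← sq_abs] at h2
      have := abs_nonneg (l o * e o p)
      nlinarith
    simpa [row] using h3

theorem xframe_mom_le {M : ℕ} (k0 : ℕ) {l0 g : ℝ} {Q : Type} [Fintype Q] [Nonempty Q]
    (T : Q → Q → ℝ) (hT : Col T) (l : Fin M → ℝ) (e : Fin M → Q → ℝ) (h : XFrame l0 g T l e)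
    (w : Fin k0 → Fin 2 ⊕ Fin M) : |mom k0 (row T l e) w| ≤ 1 := by
  unfold mom
  refine (abs_avg_le _).trans ?_
  calc avg (fun p => |∏ t, row T l e p (w t)|) ≤ avg (fun _ : Q => (1 : ℝ)) :=
        avg_mono fun p => by
          have := abs_prod_le (univ : Finset (Fin k0)) (fun t => row T l e p (w t)) 1
            (fun t => xframe_row_le T hT l e h p (w t))
          simpa using this
    _ = 1 := avg_const _

theorem xframe_soft (M k0 : ℕ) {l0 g : ℝ} (hg : 0 < g) (hl0 : g < l0) :
    ∃ C s0 : ℝ, 1 ≤ C ∧ 0 < s0 ∧ ∀ {Q : Type} [Fintype Q] [Nonempty Q] (T : Q → Q → ℝ), Col T →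
      ∀ (l l' : Fin M → ℝ) (e : Fin M → Q → ℝ) (r : ℝ), 0 ≤ r → r ≤ s0 → XFrame l0 g T l' e →
      (∀ i, |l' i - l i| ≤ r) → ∀ y : (Fin k0 → Fin 2 ⊕ Fin M) → ℝ,
      (∀ w, |mom k0 (row T l' e) w - y w| ≤ r) → SFrame l0 g (C * r) l y T e := by
  have hl : 0 < l0 := hg.trans hl0
  refine ⟨k0 * 2 ^ k0 + 1, l0 / 4, ?_, by positivity, ?_⟩
  · have : (0 : ℝ) ≤ k0 * 2 ^ k0 := by positivity
    linarith
  intro Q _ _ T hT l l' e r hr hr0 h hll y hy
  have hC : r ≤ (k0 * 2 ^ k0 + 1) * r := by
    have : (0 : ℝ) ≤ k0 * 2 ^ k0 * r := by positivity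
    linarith
  have hne : ∀ i, nrm (e i) = 1 := by
    intro i
    have h1 := nrm_sq (e i)
    rw [h.orth i i, if_pos rfl] at h1
    have h2 := nrm_nonneg (e i)
    nlinarith
  -- the supremum
  have hle : ∀ i p, (l i * e i p) ^ 2 ≤ 2 * (l' i * e i p) ^ 2 := by
    intro i p
    have h1 := h.ge i
    have h2 : |l i| ≤ |l' i| + r := by
      have h3 := abs_sub_abs_le_abs_sub (l i) (l' i)
      rw [abs_sub_comm] at h3
      have := hll i
      linarith
    have h3 : |l i| ≤ 5 / 4 * |l' i| := by linarith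
    have h4 : l i ^ 2 ≤ 2 * l' i ^ 2 := by
      rw [← sq_abs (l i), ← sq_abs (l' i)]
      have := abs_nonneg (l i)
      have := abs_nonneg (l' i)
      nlinarith
    rw [mul_pow, mul_pow, ← mul_assoc]
    exact mul_le_mul_of_nonneg_right h4 (sq_nonneg _)
  have hsup : ∀ p, ∑ i, (l i * e i p) ^ 2 ≤ 2 := by
    intro p
    calc ∑ i, (l i * e i p) ^ 2 ≤ ∑ i, 2 * (l' i * e i p) ^ 2 := sum_le_sum fun i _ => hle i p
      _ = 2 * ∑ i, (l' i * e i p) ^ 2 := by rw [mul_sum]
      _ ≤ 2 * 1 := mul_le_mul_of_nonneg_left (xframe_sup T hT l' e h p) (by norm_num)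
      _ = 2 := by norm_num
  refine ⟨hsup, ?_, ?_, ?_, ?_⟩
  · intro i j
    rw [h.orth i j, sub_self, abs_zero]
    exact hr.trans hC
  · intro i
    rw [h.eig i, ← sub_smul, nrm_smul, hne i, mul_one]
    exact (hll i).trans hC
  · intro f
    have h1 : op T f - ∑ i, (l i * ip (e i) f) • e i =
        (op T f - ∑ i, (l' i * ip (e i) f) • e i) + ∑ i, ((l' i - l i) * ip (e i) f) • e i := by
      have : ∑ i, ((l' i - l i) * ip (e i) f) • e i =
          ∑ i, (l' i * ip (e i) f) • e i - ∑ i, (l i * ip (e i) f) • e i := by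
        rw [← sum_sub_distrib]
        refine sum_congr rfl fun i _ => ?_
        rw [← sub_smul, sub_mul]
      rw [this]
      abel
    have h2 : nrm (∑ i, ((l' i - l i) * ip (e i) f) • e i) ^ 2 ≤ (r * nrm f) ^ 2 := by
      have h3 := nrm_comb_soft (e := e) (s := 0) le_rfl (fun i j => by rw [h.orth i j]; simp)
        (fun i => (l' i - l i) * ip (e i) f)
      rw [mul_zero, add_zero, one_mul] at h3
      refine h3.trans ?_
      calc ∑ i, ((l' i - l i) * ip (e i) f) ^ 2 ≤ ∑ i, r ^ 2 * ip (e i) f ^ 2 := by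
            refine sum_le_sum fun i _ => ?_
            rw [mul_pow]
            refine mul_le_mul_of_nonneg_right ?_ (sq_nonneg _)
            rw [← sq_abs]
            exact pow_le_pow_left₀ (abs_nonneg _) (hll i) 2
        _ = r ^ 2 * ∑ i, ip (e i) f ^ 2 := by rw [mul_sum]
        _ ≤ r ^ 2 * nrm f ^ 2 := mul_le_mul_of_nonneg_left (xframe_bessel h f) (sq_nonneg _)
        _ = (r * nrm f) ^ 2 := by ring
    have h3 : nrm (∑ i, ((l' i - l i) * ip (e i) f) • e i) ≤ r * nrm f :=
      (abs_le_of_sq_le_sq' h2 (mul_nonneg hr (nrm_nonneg _))).2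
    rw [h1]
    calc _ ≤ nrm (op T f - ∑ i, (l' i * ip (e i) f) • e i) +
          nrm (∑ i, ((l' i - l i) * ip (e i) f) • e i) := nrm_add_le _ _
      _ ≤ (l0 - g) * nrm f + r * nrm f := add_le_add (h.res f) h3
      _ ≤ (l0 - g) * nrm f + (k0 * 2 ^ k0 + 1) * r * nrm f := by
        have := mul_le_mul_of_nonneg_right hC (nrm_nonneg f)
        linarith
      _ = _ := by ring
  · intro w
    have h1 := mom_close (k0 := k0) (row T l e) (row T l' e) 2 r (by norm_num) hr
      (fun p o => by
        rcases o with o | o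
        · fin_cases o
          · simp [row]
          · have h1 := abs_op_le hT.nonneg hT.le_one 1 p
            rw [nrm_one] at h1
            have h2 : |op T 1 p| ≤ 2 := h1.trans (by norm_num)
            simpa [row] using h2
        · have h2 : (l o * e o p) ^ 2 ≤ 2 :=
            (single_le_sum (f := fun i => (l i * e i p) ^ 2) (fun i _ => sq_nonneg _)
              (mem_univ o)).trans (hsup p)
          have h3 : |l o * e o p| ≤ 2 := by
            rw [← sq_abs] at h2
            have := abs_nonneg (l o * e o p)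
            nlinarith
          simpa [row] using h3)
      (fun p o => (xframe_row_le T hT l' e h p o).trans (by norm_num))
      (fun o => by
        rcases o with o | o
        · have : (fun p => row T l e p (Sum.inl o) - row T l' e p (Sum.inl o)) = (0 : Q → ℝ) := by
            funext p
            simp [row]
          rw [this, nrm_zero]
          exact hr
        · have : (fun p => row T l e p (Sum.inr o) - row T l' e p (Sum.inr o)) =
              (l o - l' o) • e o := by
            funext p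
            simp [row, sub_mul]
          rw [this, nrm_smul, hne o, mul_one, abs_sub_comm]
          exact hll o) w
    have h2 := hy w
    calc |mom k0 (row T l e) w - y w| ≤
        |mom k0 (row T l e) w - mom k0 (row T l' e) w| + |mom k0 (row T l' e) w - y w| :=
          abs_sub_le _ _ _
      _ ≤ k0 * 2 ^ k0 * r + r := add_le_add h1 h2
      _ = (k0 * 2 ^ k0 + 1) * r := by ring

end Fr

end Pool.Agent.SRL
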