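import Pool.Agent.SRL.FOut
import Pool.Agent.SRL.FX
import Pool.Agent.SRL.FParam
import Pool.Agent.SRL.GapOps
import Pool.Agent.SRL.FBad2
import Pool.Agent.SRL.FPop
import Pool.Agent.SRL.FWin

/-!
Block F: the theorem `frames` (row F10e).
-/

set_option autoImplicit false

namespace Pool.Agent.SRL

open Finset

namespace Fr

theorem prob_nonneg' {Ω : Type} [Fintype Ω] (s : Set Ω) : 0 ≤ prob s := by
  classical
  unfold prob
  refine avg_nonneg fun p => ?_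
  split_ifs <;> norm_num

theorem nonempty_of_prob {Ω : Type} [Fintype Ω] {s : Set Ω} (h : 0 < prob s) : s.Nonempty := by
  classical
  by_contra hs
  rw [Set.not_nonempty_iff_eq_empty] at hs
  rw [hs] at h
  simp [prob, avg] at h

theorem exists_pos_le {n : ℕ} (f : Fin n → ℝ) (hf : ∀ a, 0 < f a) : ∃ m : ℝ, 0 < m ∧ ∀ a, m ≤ f a := by
  refine ⟨1 / (1 + ∑ a, 1 / f a), ?_, fun a => ?_⟩
  · have : 0 ≤ ∑ a, 1 / f a := sum_nonneg fun a _ => (one_div_pos.2 (hf a)).le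
    positivity
  · have h1 : 1 / f a ≤ ∑ b, 1 / f b :=
      single_le_sum (f := fun b => 1 / f b) (fun b _ => (one_div_pos.2 (hf b)).le) (mem_univ a)
    have h2 : 0 < 1 / f a := one_div_pos.2 (hf a)
    calc 1 / (1 + ∑ a, 1 / f a) ≤ 1 / (1 / f a) :=
          one_div_le_one_div_of_le h2 (by linarith)
      _ = f a := one_div_one_div _

/-- the exact frames of a state -/
def XCell {k : ℕ} (θ : Param k) (z : ℝ) {Q : Type} [Fintype Q] (T : Q → Q → ℝ)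
    (l : Fin θ.M → ℝ) (e : Fin θ.M → Q → ℝ) : Prop :=
  XFrame θ.l0 θ.g T l e ∧ θ.β ≤ avg (fun p => θ.W.ev (row T l e p)) ∧
    avg (fun p => θ.W.ev (row T l e p) * ∑ i, (l i * e i p - θ.c i) ^ 2) ≤
      z * avg (fun p => θ.W.ev (row T l e p))

theorem per_param {k : ℕ} (θ : Param k) (D : ℕ) (hD : 0 < D) (ζ Cd : ℝ) (hζ : 0 < ζ) (hζ1 : ζ ≤ 1)
    (hCd : 1 ≤ Cd) (hθ : θ.Ok (ζ / 100)) : ∃ (N : ℕ) (s : ℝ), 0 < N ∧ 0 < s ∧
    ∀ {J q n K : ℕ} [NeZero q] [NeZero n] [NeZero K]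
      (S : CS (Fin J ⊕ Fin D) (Fin q) (Fin n)) (sgn : Fin n → ℝ) (lam : ℝ), Gap S sgn lam →
      ∀ (R : Fin n × Fin K → Fin n × Fin K → ℝ), Col R → ∀ eps : ℝ, 0 ≤ eps → eps ≤ s →
      prob {V | ¬ Win (k + 2) eps (wker S R V)} ≤ eps →
      ∀ G0 : Set (St (Fin J) (Fin q) (Fin n)),
      (∀ ω ∈ G0, ∃ l e, XCell θ (ζ / 100) (kern S R ω ω) l e) → 0 < prob G0 →
      (1 + 5 * 2 ^ D) * (lam ^ 2 + eps) * N ≤ ζ * prob G0 →
      ∃ (G : Type) (_ : Group G), Nonempty (FrameOut S R ζ Cd (θ.β / 2) G) := by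
  classical
  obtain ⟨s1, hs1, HO⟩ := frame_out θ ζ Cd hζ hζ1 hCd hθ
  obtain ⟨C2, s2, hC2, hs2, HB⟩ := bad_bound D θ.M (k + 2) hD hθ.g_pos hθ.g_lt
  obtain ⟨C3, s3, hC3, hs3, HX⟩ := xframe_soft θ.M (k + 2) hθ.g_pos hθ.g_lt
  have hC2' : 0 < C2 := by linarith
  have hC3' : 0 < C3 := by linarith
  obtain ⟨s', hs', hs'1, hs'2⟩ : ∃ s' : ℝ, 0 < s' ∧ C2 * s' ≤ s1 ∧ s' ≤ s2 := by
    refine ⟨min (s1 / C2) s2, by positivity, ?_, min_le_right _ _⟩
    have := min_le_left (s1 / C2) s2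
    rw [le_div_iff₀ hC2'] at this
    linarith
  obtain ⟨r, hr, hr1, hr2⟩ : ∃ r : ℝ, 0 < r ∧ C3 * r ≤ s' ∧ r ≤ s3 := by
    refine ⟨min (s' / C3) s3, by positivity, ?_, min_le_right _ _⟩
    have := min_le_left (s' / C3) s3
    rw [le_div_iff₀ hC3'] at this
    linarith
  obtain ⟨N, hN, HP⟩ := popular (Fin θ.M ⊕ (Fin (k + 2) → Fin 2 ⊕ Fin θ.M)) r hr
  have hs's1 : s' ≤ s1 := by nlinarith
  refine ⟨N, s', hN, hs', ?_⟩
  intro J q n K _ _ _ S sgn lam hgap R hR eps heps heps1 hW G0 hG0 hπ0 hcond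
  have hker : ∀ ω : St (Fin J) (Fin q) (Fin n), Col (kern S R ω ω) := fun ω =>
    ⟨fun u v => hR.nonneg _ _, fun u v => hR.le_one _ _, fun u v => hR.symm _ _⟩
  choose! l e hX using hG0
  let x : St (Fin J) (Fin q) (Fin n) → Fin θ.M ⊕ (Fin (k + 2) → Fin 2 ⊕ Fin θ.M) → ℝ :=
    fun ω => Sum.elim (l ω) (mom (k + 2) (row (kern S R ω ω) (l ω) (e ω)))
  have hx : ∀ ω ∈ G0, ∀ i, |x ω i| ≤ 1 := by
    intro ω hω i
    rcases i with i | i
    · exact (hX ω hω).1.le i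
    · exact xframe_mom_le (k + 2) _ (hker ω) _ _ (hX ω hω).1 i
  obtain ⟨G1, hG1, hπ, hcl⟩ := HP G0 x hx
  have hN' : (0 : ℝ) < N := by exact_mod_cast hN
  have hπ1 : 0 < prob G1 := by
    by_contra h
    have h1 : prob G1 = 0 := le_antisymm (not_lt.1 h) (prob_nonneg' _)
    rw [h1, mul_zero] at hπ
    linarith
  obtain ⟨ω0, hω0⟩ := nonempty_of_prob hπ1
  have hX0 := hX ω0 (hG1 hω0)
  have hl : ∀ i, θ.l0 + θ.g ≤ |l ω0 i| ∧ |l ω0 i| ≤ 1 := fun i =>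
    ⟨hX0.1.ge i, hX0.1.le i⟩
  have hF : G1 ⊆ HasF S R θ.l0 θ.g s' (l ω0) (mom (k + 2) (row (kern S R ω0 ω0) (l ω0) (e ω0))) := by
    intro ω hω
    have h1 := HX (kern S R ω ω) (hker ω) (l ω0) (l ω) (e ω) r hr.le hr2 (hX ω (hG1 hω)).1
      (fun i => hcl ω hω ω0 hω0 (Sum.inl i))
      (mom (k + 2) (row (kern S R ω0 ω0) (l ω0) (e ω0)))
      (fun w => hcl ω hω ω0 hω0 (Sum.inr w))
    exact ⟨e ω, sframe_mono hr1 h1⟩
  have hbad := HB S sgn lam hgap R hR (l ω0) hl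
    (mom (k + 2) (row (kern S R ω0 ω0) (l ω0) (e ω0))) s' eps hs'2 heps heps1 hW G1 hF
  have hbad2 : prob {V | ¬ Win (k + 2) eps (wker S R V) ∨ ∃ b, pos S V b ∉
      HasF S R θ.l0 θ.g (C2 * s') (l ω0)
        (mom (k + 2) (row (kern S R ω0 ω0) (l ω0) (e ω0)))} ≤ ζ := by
    have h1 : ζ * prob G0 ≤ ζ * (N * prob G1) := mul_le_mul_of_nonneg_left hπ hζ.le
    have h2 : (1 + 5 * 2 ^ D) * (lam ^ 2 + eps) * N ≤ ζ * prob G1 * N := by
      calc _ ≤ ζ * prob G0 := hcond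
        _ ≤ ζ * (N * prob G1) := h1
        _ = ζ * prob G1 * N := by ring
    have h3 := le_of_mul_le_mul_right h2 hN'
    exact le_of_mul_le_mul_right (hbad.trans h3) hπ1
  refine HO S R hR (l ω0) hl _ (xframe_mom_le (k + 2) _ (hker ω0) _ _ hX0.1)
    (row (kern S R ω0 ω0) (l ω0) (e ω0)) ?_ ?_ ?_ rfl hX0.2.1 ?_ _ hbad2 ?_
  · intro p
    simp [row]
  · intro p
    have e1 : row (kern S R ω0 ω0) (l ω0) (e ω0) p (Sum.inl 1) = op (kern S R ω0 ω0) 1 p := by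
      simp [row]
    rw [e1]
    constructor
    · exact avg_nonneg fun q => mul_nonneg ((hker ω0).nonneg _ _) zero_le_one
    · have h2 : op (kern S R ω0 ω0) 1 p ≤ avg (fun _ : Finset (Fin J) × Fin K => (1 : ℝ)) := by
        refine avg_mono fun q => ?_
        rw [Pi.one_apply, mul_one]
        exact (hker ω0).le_one _ _
      rwa [avg_const] at h2
  · intro p
    have h1 := xframe_sup _ (hker ω0) _ _ hX0.1 p
    have h2 : ∑ i, row (kern S R ω0 ω0) (l ω0) (e ω0) p (Sum.inr i) ^ 2 =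
        ∑ i, (l ω0 i * e ω0 i p) ^ 2 := sum_congr rfl fun i _ => rfl
    rw [h2]
    linarith
  · exact hX0.2.2
  · intro V hV
    simp only [Set.mem_ofPred_eq, not_or, not_not, not_exists] at hV
    refine ⟨win_mono heps (heps1.trans hs's1) hV.1, fun b => ?_⟩
    obtain ⟨f, hf⟩ := hV.2 b
    exact ⟨f, sframe_mono hs'1 hf⟩

end Fr

open Fr in
/-- The theorem of block F. -/
theorem frames (D : ℕ) (hD : 0 < D) (ζ Cd : ℝ) (hζ : 0 < ζ) (hCd : 1 ≤ Cd) :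
    ∃ (J : ℕ) (β lam0 : ℝ), 0 < β ∧ 0 < lam0 ∧ ∀ (q n K : ℕ) [NeZero q] [NeZero n] [NeZero K]
      (S : CS (Fin J ⊕ Fin D) (Fin q) (Fin n)) (sgn : Fin n → ℝ), Gap S sgn lam0 →
      ∀ (R : Fin n × Fin K → Fin n × Fin K → ℝ), Col R →
      ∃ (e : Equiv.Perm (Fin J ⊕ Fin D)) (G : Type) (_ : Group G),
        Nonempty (FrameOut (S.reindex e) R ζ Cd β G) := by
  classical
  have hζ0 : 0 < min ζ 1 := by positivity
  have hζ01 : min ζ 1 ≤ 1 := min_le_right _ _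
  obtain ⟨k, n, Θ, hΘ, hex⟩ := exists_params (min ζ 1 / 100) (by positivity)
  choose N s hN hs H using fun a => per_param (Θ a) D hD (min ζ 1) Cd hζ0 hζ01 hCd (hΘ a)
  obtain ⟨β, hβ, hβle⟩ := exists_pos_le (fun a => (Θ a).β / 2) fun a =>
    half_pos (hΘ a).β_pos
  obtain ⟨sm, hsm, hsmle⟩ := exists_pos_le s hs
  -- the total number of types
  set P : ℝ := (1 + 5 * 2 ^ D) * ((∑ a, (N a : ℝ)) + 1) * (n + 1) with hP
  have hP0 : 0 < P := by
    have : 0 ≤ ∑ a, (N a : ℝ) := sum_nonneg fun a _ => Nat.cast_nonneg _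
    positivity
  set c : ℝ := min sm (min 1 (min ζ 1 / (2 * P))) with hc
  have hc0 : 0 < c := by positivity
  have hcsm : c ≤ sm := min_le_left _ _
  have hc1 : c ≤ 1 := (min_le_right _ _).trans (min_le_left _ _)
  have hcP : 2 * P * c ≤ min ζ 1 := by
    have h1 : c ≤ min ζ 1 / (2 * P) := (min_le_right _ _).trans (min_le_right _ _)
    rw [le_div_iff₀ (by positivity)] at h1
    linarith
  obtain ⟨J, hJ⟩ := choose_base D (k + 2) c hc0
  refine ⟨J, β, c, hβ, hc0, ?_⟩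
  intro q nx K _ _ _ S sgn hgap R hR
  obtain ⟨e, he⟩ := hJ q nx K S R hR
  have hgap' : Gap (S.reindex e) sgn c := gap_reindex hgap e
  have hker : ∀ ω : St (Fin J) (Fin q) (Fin nx), Col (kern (S.reindex e) R ω ω) := fun ω =>
    ⟨fun u v => hR.nonneg _ _, fun u v => hR.le_one _ _, fun u v => hR.symm _ _⟩
  obtain ⟨a, ha⟩ := popular' (fun a : Fin n => {ω : St (Fin J) (Fin q) (Fin nx) |
    ∃ l e', XCell (Θ a) (min ζ 1 / 100) (kern (S.reindex e) R ω ω) l e'}) (by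
      intro ω
      obtain ⟨a, l, e', h1, h2, h3⟩ := hex _ (kern (S.reindex e) R ω ω) (hker ω)
      exact ⟨a, l, e', h1, h2, h3⟩)
  have hn : (0 : ℝ) ≤ n := Nat.cast_nonneg n
  have hprob := prob_nonneg' {ω : St (Fin J) (Fin q) (Fin nx) |
    ∃ l e', XCell (Θ a) (min ζ 1 / 100) (kern (S.reindex e) R ω ω) l e'}
  have hpos : 0 < prob {ω : St (Fin J) (Fin q) (Fin nx) |
      ∃ l e', XCell (Θ a) (min ζ 1 / 100) (kern (S.reindex e) R ω ω) l e'} := by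
    rcases hprob.lt_or_eq with h | h
    · exact h
    · rw [← h, mul_zero] at ha
      linarith
  have hcond : (1 + 5 * 2 ^ D) * (c ^ 2 + c) * (N a : ℝ) ≤ min ζ 1 *
      prob {ω : St (Fin J) (Fin q) (Fin nx) |
        ∃ l e', XCell (Θ a) (min ζ 1 / 100) (kern (S.reindex e) R ω ω) l e'} := by
    have h1 : c ^ 2 + c ≤ 2 * c := by nlinarith
    have h2 : (N a : ℝ) ≤ (∑ a, (N a : ℝ)) + 1 := by
      have := single_le_sum (f := fun a => (N a : ℝ)) (fun b _ => Nat.cast_nonneg _) (mem_univ a)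
      linarith
    have h3 : (1 + 5 * 2 ^ D) * (c ^ 2 + c) * (N a : ℝ) * (n + 1) ≤ min ζ 1 := by
      have h4 : (0 : ℝ) < 1 + 5 * 2 ^ D := by positivity
      calc (1 + 5 * 2 ^ D) * (c ^ 2 + c) * (N a : ℝ) * (n + 1)
          ≤ (1 + 5 * 2 ^ D) * (2 * c) * ((∑ a, (N a : ℝ)) + 1) * (n + 1) := by
            refine mul_le_mul_of_nonneg_right ?_ (by positivity)
            refine mul_le_mul ?_ h2 (Nat.cast_nonneg _) (by positivity)
            exact mul_le_mul_of_nonneg_left h1 h4.le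
        _ = 2 * P * c := by rw [hP]; ring
        _ ≤ min ζ 1 := hcP
    have h5 : (1 : ℝ) ≤ (n + 1) * prob {ω : St (Fin J) (Fin q) (Fin nx) |
        ∃ l e', XCell (Θ a) (min ζ 1 / 100) (kern (S.reindex e) R ω ω) l e'} := by
      linarith
    have h6 : 0 ≤ (1 + 5 * 2 ^ D) * (c ^ 2 + c) * (N a : ℝ) := by positivity
    calc (1 + 5 * 2 ^ D) * (c ^ 2 + c) * (N a : ℝ)
        ≤ (1 + 5 * 2 ^ D) * (c ^ 2 + c) * (N a : ℝ) * ((n + 1) *
          prob {ω : St (Fin J) (Fin q) (Fin nx) |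
            ∃ l e', XCell (Θ a) (min ζ 1 / 100) (kern (S.reindex e) R ω ω) l e'}) :=
          le_mul_of_one_le_right h6 h5
      _ = (1 + 5 * 2 ^ D) * (c ^ 2 + c) * (N a : ℝ) * (n + 1) *
          prob {ω : St (Fin J) (Fin q) (Fin nx) |
            ∃ l e', XCell (Θ a) (min ζ 1 / 100) (kern (S.reindex e) R ω ω) l e'} := by ring
      _ ≤ _ := mul_le_mul_of_nonneg_right h3 hprob
  obtain ⟨G, hG, ⟨F⟩⟩ := H a (S.reindex e) sgn c hgap' R hR c hc0.le (hcsm.trans (hsmle a)) he _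
    (fun ω hω => hω) hpos hcond
  exact ⟨e, G, hG, ⟨FrameOut.mono hβ (hβle a) (min_le_left _ _) F⟩⟩

end Pool.Agent.SRL
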