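import Pool.Agent.SRL.Process
import Pool.Agent.SRL.Interface
import Pool.Agent.Helper64.Gauge.Stars
import Pool.Agent.Helper64.SRL.Tensor

/-!
The gauge lemma over the geometry of levels, and the composition
geometry + process + gauge = `DiscGaugeThm`.
-/

set_option autoImplicit false
set_option linter.unusedSectionVars false
set_option linter.unusedVariables false

namespace Pool.Agent.SRL

open Finset
open Pool.Agent.Helper47.SizeRamsey
open Pool.Agent.Helper64.Gauge (off supp low act off_self off_ne mem_supp supp_off low_mem low_le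
  low_eq mem_act low_lt_of_mem_act)

namespace GG

/-! ### Words of profiles -/

section words

variable {d : ℕ} {B L : Type} [DecidableEq B] (top : ℕ) (kap : ℕ → Cub d → B)
  (sL : ℕ → Cub d → L)

open Classical in
/-- classes of the levels in `(a, top]` which are on in `p` and off in `q` -/
noncomputable def tset (p q : ℕ → Option (Cub d)) (a : ℕ) : Finset B :=
  ((Finset.Ioc a top).filter (fun j => p j ≠ none ∧ q j = none)).image
    (fun j => kap j ((p j).getD 0))

theorem mem_tset {p q : ℕ → Option (Cub d)} {a : ℕ} {b : B} :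
    b ∈ tset top kap p q a ↔
      ∃ j u, a < j ∧ j ≤ top ∧ p j = some u ∧ q j = none ∧ kap j u = b := by
  classical
  unfold tset
  rw [Finset.mem_image]
  constructor
  · rintro ⟨j, hj, hb⟩
    rw [Finset.mem_filter, Finset.mem_Ioc] at hj
    obtain ⟨⟨h1, h2⟩, h3, h4⟩ := hj
    cases hp : p j with
    | none => exact absurd hp h3
    | some u =>
      rw [hp] at hb
      exact ⟨j, u, h1, h2, hp, h4, hb⟩
  · rintro ⟨j, u, h1, h2, h3, h4, h5⟩
    refine ⟨j, ?_, ?_⟩
    · rw [Finset.mem_filter, Finset.mem_Ioc]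
      exact ⟨⟨h1, h2⟩, by rw [h3]; simp, h4⟩
    · rw [h3]; exact h5

theorem tset_congr {p p' q q' : ℕ → Option (Cub d)} {a : ℕ}
    (hp : ∀ j, a < j → j ≤ top → p j = p' j) (hq : ∀ j, a < j → j ≤ top → q j = q' j) :
    tset top kap p q a = tset top kap p' q' a := by
  ext b
  rw [mem_tset, mem_tset]
  constructor
  · rintro ⟨j, u, h1, h2, h3, h4, h5⟩
    exact ⟨j, u, h1, h2, by rw [← hp j h1 h2]; exact h3, by rw [← hq j h1 h2]; exact h4, h5⟩
  · rintro ⟨j, u, h1, h2, h3, h4, h5⟩
    exact ⟨j, u, h1, h2, by rw [hp j h1 h2]; exact h3, by rw [hq j h1 h2]; exact h4, h5⟩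

theorem lwr_congr {p p' : ℕ → Option (Cub d)} (m : ℕ) (hm : m ≤ top)
    (hp : ∀ j, top - m < j → j ≤ top → p j = p' j) :
    lwr top kap sL p m = lwr top kap sL p' m := by
  induction m with
  | zero => rfl
  | succ m ih =>
    have ih' := ih (by omega) (fun j h1 h2 => hp j (by omega) h2)
    have h1 := hp (top - m) (by omega) (by omega)
    show (p (top - m)).elim _ _ = (p' (top - m)).elim _ _
    rw [h1, ih']

/-- the word of a profile `p` which contains the profile `q` -/
theorem lwr_ext {p q : ℕ → Option (Cub d)} {l : B → L}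
    (hqp : ∀ j u, q j = some u → p j = some u)
    (hcls : ∀ j u, p j = some u → q j = none → ∀ i u', i < j → p i = some u' →
      kap i u' ≠ kap j u)
    (hl : ∀ j u, 1 ≤ j → j ≤ top → p j = some u → q j = none → l (kap j u) = sL j u) :
    ∀ m, m ≤ top → lwr top kap sL p m =
      WS.ext (lwr top kap sL q m) (tset top kap p q (top - m)) l := by
  intro m
  induction m with
  | zero =>
    intro _
    have : tset top kap p q (top - 0) = ∅ := by
      rw [Finset.eq_empty_iff_forall_notMem]
      intro b hb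
      obtain ⟨j, u, h1, h2, _⟩ := (mem_tset top kap).1 hb
      omega
    rw [this, WS.ext_empty]
    rfl
  | succ m ih =>
    intro hm
    have ih' := ih (by omega)
    set j := top - m with hj
    have hj1 : 1 ≤ j := by omega
    have hjt : j ≤ top := by omega
    have hnew : ∀ b : B, b ∈ tset top kap p q (top - (m + 1)) ↔
        (∃ u, p j = some u ∧ q j = none ∧ kap j u = b) ∨ b ∈ tset top kap p q j := by
      intro b
      rw [mem_tset, mem_tset]
      constructor
      · rintro ⟨i, u, h1, h2, h3, h4, h5⟩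
        by_cases hij : i = j
        · subst hij; exact Or.inl ⟨u, h3, h4, h5⟩
        · exact Or.inr ⟨i, u, by omega, h2, h3, h4, h5⟩
      · rintro (⟨u, h3, h4, h5⟩ | ⟨i, u, h1, h2, h3, h4, h5⟩)
        · exact ⟨j, u, by omega, hjt, h3, h4, h5⟩
        · exact ⟨i, u, by omega, h2, h3, h4, h5⟩
    have hnot : ∀ u, p j = some u → kap j u ∉ tset top kap p q j := by
      intro u hu hb
      obtain ⟨i, v, h1, h2, h3, h4, h5⟩ := (mem_tset top kap).1 hb
      exact hcls i v h3 h4 j u h1 hu h5.symm
    have hps : lwr top kap sL p (m + 1) = (p j).elim (lwr top kap sL p m)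
      (fun u => Function.update (lwr top kap sL p m) (kap j u)
        (sL j u :: lwr top kap sL p m (kap j u))) := rfl
    have hqs : lwr top kap sL q (m + 1) = (q j).elim (lwr top kap sL q m)
      (fun u => Function.update (lwr top kap sL q m) (kap j u)
        (sL j u :: lwr top kap sL q m (kap j u))) := rfl
    rw [hps, hqs]
    cases hp : p j with
    | none =>
      have hq : q j = none := by
        cases hq : q j with
        | none => rfl
        | some u => rw [hqp j u hq] at hp; exact absurd hp (by simp)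
      rw [hq]
      have hT : tset top kap p q (top - (m + 1)) = tset top kap p q j := by
        ext b
        rw [hnew b]
        constructor
        · rintro (⟨u, h1, _⟩ | h)
          · rw [hp] at h1; exact absurd h1 (by simp)
          · exact h
        · exact Or.inr
      rw [hT]
      exact ih'
    | some u =>
      have hb := hnot u hp
      cases hq : q j with
      | some v =>
        have huv : v = u := by
          have := hqp j v hq
          rw [hp] at this
          exact (Option.some.inj this).symm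
        subst huv
        have hT : tset top kap p q (top - (m + 1)) = tset top kap p q j := by
          ext b
          rw [hnew b]
          constructor
          · rintro (⟨u, _, h1, _⟩ | h)
            · rw [hq] at h1; exact absurd h1 (by simp)
            · exact h
          · exact Or.inr
        rw [hT]
        show Function.update (lwr top kap sL p m) (kap j v) (sL j v :: lwr top kap sL p m (kap j v))
          = WS.ext (Function.update (lwr top kap sL q m) (kap j v)
            (sL j v :: lwr top kap sL q m (kap j v))) _ l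
        rw [ih']
        funext b
        by_cases hbb : b = kap j v
        · subst hbb; simp [WS.ext, hb]
        · simp [WS.ext, hbb]
      | none =>
        have hT : tset top kap p q (top - (m + 1)) = insert (kap j u) (tset top kap p q j) := by
          ext b
          rw [hnew b, Finset.mem_insert]
          constructor
          · rintro (⟨u', h1, _, h2⟩ | h)
            · rw [hp] at h1
              rw [← Option.some.inj h1] at h2
              exact Or.inl h2.symm
            · exact Or.inr h
          · rintro (h | h)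
            · exact Or.inl ⟨u, hp, hq, h.symm⟩
            · exact Or.inr h
        rw [hT]
        show Function.update (lwr top kap sL p m) (kap j u) (sL j u :: lwr top kap sL p m (kap j u))
          = WS.ext (lwr top kap sL q m) _ l
        rw [WS.ext_insert _ _ _ hb, ih', hl j u hj1 hjt hp hq]

end words

/-! ### Profiles of regions and windows -/

section windows

variable {d h N n : ℕ} {B L Om : Type} [DecidableEq B] (E : Geo d h N n B)

open Classical in
/-- profile of the levels `≥ i` not in `O` -/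
noncomputable def prf (i : ℕ) (c : Fin d → Fin n) (O : Finset ℕ) : ℕ → Option (Cub d) := fun j =>
  if i ≤ j ∧ j ≤ E.top ∧ j ∉ O then some (E.cub j c) else none

theorem prf_some {i : ℕ} {c : Fin d → Fin n} {O : Finset ℕ} {j : ℕ} {u : Cub d} :
    prf E i c O j = some u ↔ (i ≤ j ∧ j ≤ E.top ∧ j ∉ O) ∧ E.cub j c = u := by
  unfold prf
  by_cases hh : i ≤ j ∧ j ≤ E.top ∧ j ∉ O
  · rw [if_pos hh]; simp [hh]
  · rw [if_neg hh]; simp [hh]

theorem fullL_some {i : ℕ} {c : Fin d → Fin n} {j : ℕ} {u : Cub d} :
    E.fullL i c j = some u ↔ (i < j ∧ ¬ Act E.cub E.ap i c j) ∧ E.ap j c = some u := by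
  unfold Geo.fullL
  by_cases hh : i < j ∧ ¬ Act E.cub E.ap i c j
  · rw [if_pos hh]; simp [hh]
  · rw [if_neg hh]; simp [hh]

theorem ap_range {j : ℕ} {c : Fin d → Fin n} {u : Cub d} (hu : E.ap j c = some u) :
    1 ≤ j ∧ j ≤ E.top := by
  constructor
  · by_contra h0
    have : j = 0 := by omega
    subst this
    rw [E.ap_zero] at hu; exact absurd hu (by simp)
  · by_contra h0
    rw [E.ap_top j c (by omega)] at hu; exact absurd hu (by simp)

/-- the levels that may be off in a region of the cube `(i, c)` -/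
def OK (i : ℕ) (c : Fin d → Fin n) (O : Finset ℕ) : Prop :=
  ∀ j ∈ O, j = i ∨ (i < j ∧ Act E.cub E.ap i c j)

/-- classes of the on levels beyond the full ones -/
noncomputable def TT (i : ℕ) (c : Fin d → Fin n) (O : Finset ℕ) : Finset B :=
  tset E.top E.kap (prf E i c O) (E.fullL i c) 0

theorem on_dich {i : ℕ} {c : Fin d → Fin n} {O : Finset ℕ} {j : ℕ} {u : Cub d}
    (h1 : 1 ≤ j) (hp : prf E i c O j = some u) (hq : E.fullL i c j = none) :
    j = i ∨ (i < j ∧ Act E.cub E.ap i c j) := by
  obtain ⟨⟨h2, h3, _⟩, _⟩ := (prf_some E).1 hp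
  by_cases hij : j = i
  · exact Or.inl hij
  right
  refine ⟨by omega, ?_⟩
  by_contra hA
  have := (fullL_some E (i := i) (c := c) (j := j) (u := E.cub j c)).2
    ⟨⟨by omega, hA⟩, E.ap_eq j c h1 h3⟩
  rw [hq] at this
  exact absurd this (by simp)

theorem hqp {i : ℕ} {c : Fin d → Fin n} {O : Finset ℕ} (hO : OK E i c O) (j : ℕ) (u : Cub d)
    (hq : E.fullL i c j = some u) : prf E i c O j = some u := by
  obtain ⟨⟨h1, h2⟩, h3⟩ := (fullL_some E).1 hq
  have h4 := ap_range E h3
  refine (prf_some E).2 ⟨⟨h1.le, h4.2, fun hj => ?_⟩, E.ap_some j c u h3⟩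
  rcases hO j hj with h5 | h5
  · omega
  · exact h2 h5.2

/-- the class of an on level differs from the classes of the finer on levels -/
theorem kap_on {i : ℕ} {c : Fin d → Fin n} {j i' : ℕ} (h1 : 1 ≤ j)
    (hj : j = i ∨ (i < j ∧ Act E.cub E.ap i c j)) (hi : i ≤ i') (hij : i' < j)
    (hjt : j ≤ E.top) : E.kap i' (E.cub i' c) ≠ E.kap j (E.cub j c) := by
  rcases hj with hj | hj
  · omega
  · exact E.kap_lt hi hij hj.2 rfl rfl rfl (E.ap_eq j c h1 hjt)

theorem hcls {i : ℕ} {c : Fin d → Fin n} {O : Finset ℕ} (j : ℕ) (u : Cub d)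
    (hp : prf E i c O j = some u) (hq : E.fullL i c j = none) (i' : ℕ) (u' : Cub d)
    (hij : i' < j) (hp' : prf E i c O i' = some u') : E.kap i' u' ≠ E.kap j u := by
  have h0 : 1 ≤ j := by omega
  have h1 := on_dich E h0 hp hq
  obtain ⟨⟨a1, a2, _⟩, a4⟩ := (prf_some E).1 hp
  obtain ⟨⟨b1, b2, _⟩, b4⟩ := (prf_some E).1 hp'
  rw [← a4, ← b4]
  exact kap_on E h0 h1 b1 hij a2

/-- switching a level off removes its class -/
theorem TT_insert {i : ℕ} {c : Fin d → Fin n} {O : Finset ℕ} {a : ℕ} (haO : a ∉ O)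
    (ha1 : 1 ≤ a) (hat : a ≤ E.top) (ha : a = i ∨ (i < a ∧ Act E.cub E.ap i c a)) :
    TT E i c O = insert (E.kap a (E.cub a c)) (TT E i c (insert a O)) ∧
      E.kap a (E.cub a c) ∉ TT E i c (insert a O) := by
  have hia : i ≤ a := by rcases ha with h | h <;> omega
  constructor
  · ext b
    unfold TT
    rw [Finset.mem_insert, mem_tset, mem_tset]
    constructor
    · rintro ⟨j, u, h1, h2, h3, h4, h5⟩
      obtain ⟨⟨a1, a2, a3⟩, a4⟩ := (prf_some E).1 h3
      by_cases hja : j = a
      · subst hja; left; rw [← h5, a4]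
      · right
        refine ⟨j, u, h1, h2, (prf_some E).2 ⟨⟨a1, a2, ?_⟩, a4⟩, h4, h5⟩
        rw [Finset.mem_insert]
        rintro (h | h)
        · exact hja h
        · exact a3 h
    · rintro (h | ⟨j, u, h1, h2, h3, h4, h5⟩)
      · refine ⟨a, E.cub a c, by omega, hat, (prf_some E).2 ⟨⟨hia, hat, haO⟩, rfl⟩, ?_, h.symm⟩
        cases hq : E.fullL i c a with
        | none => rfl
        | some v =>
          obtain ⟨⟨g1, g2⟩, _⟩ := (fullL_some E).1 hq
          rcases ha with h | h
          · omega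
          · exact absurd h.2 g2
      · obtain ⟨⟨a1, a2, a3⟩, a4⟩ := (prf_some E).1 h3
        exact ⟨j, u, h1, h2, (prf_some E).2 ⟨⟨a1, a2, fun h => a3 (Finset.mem_insert_of_mem h)⟩,
          a4⟩, h4, h5⟩
  · intro hb
    unfold TT at hb
    obtain ⟨j, u, h1, h2, h3, h4, h5⟩ := (mem_tset _ _).1 hb
    obtain ⟨⟨a1, a2, a3⟩, a4⟩ := (prf_some E).1 h3
    have hja : j ≠ a := fun h => a3 (h ▸ Finset.mem_insert_self _ _)
    have hd := on_dich E (by omega) h3 h4
    rw [← a4] at h5
    rcases lt_or_gt_of_ne hja with hlt | hlt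
    · exact kap_on E ha1 ha a1 hlt hat h5
    · exact kap_on E (by omega) hd hia hlt a2 h5.symm

variable {S : CS B L Om} {root : Om} (W : WS S root) (sL : ℕ → Cub d → L)

/-- Corners of a window. -/
theorem window_corner {i : ℕ} {c : Fin d → Fin n} {V : St B L Om} (hV : IsWindow E W sL i c V)
    {O : Finset ℕ} (hO : OK E i c O) :
    (S.flipSet (TT E i c O) V).1 = W.state (E.lw sL (prf E i c O)) ∧
    ∀ a, 1 ≤ a → a ≤ E.top → (a = i ∨ (i < a ∧ Act E.cub E.ap i c a)) →
      ∀ c', E.cub i c' = E.cub i c → (a = i → E.cub a c' = E.cub a c) →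
      E.kap a (E.cub a c') ∉ TT E i c O →
      (S.flipSet (TT E i c O) V).2 (E.kap a (E.cub a c')) =
        W.sigma (E.lw sL (prf E i c O)) (E.kap a (E.cub a c')) (sL a (E.cub a c')) := by
  obtain ⟨v1, v2, v3⟩ := hV
  set w := E.lw sL (E.fullL i c) with hw
  set l : B → L := fun b => (W.sigma w b).symm (V.2 b) with hl
  have hpic : V = W.pic w l := by
    refine Prod.ext v1 ?_
    funext b
    show V.2 b = W.sigma w b ((W.sigma w b).symm (V.2 b))
    rw [Equiv.apply_symm_apply]
  have hll : ∀ a, 1 ≤ a → a ≤ E.top → (a = i ∨ (i < a ∧ Act E.cub E.ap i c a)) →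
      ∀ c', E.cub i c' = E.cub i c → (a = i → E.cub a c' = E.cub a c) →
      l (E.kap a (E.cub a c')) = sL a (E.cub a c') := by
    intro a h1 h2 h3 c' h4 h5
    show (W.sigma w _).symm (V.2 _) = _
    rw [Equiv.symm_apply_eq]
    rcases h3 with h3 | h3
    · have h6 := h5 h3
      subst h3
      rw [h6]
      exact v3 h1
    · exact v2 a c' (E.cub a c') h3.1 h3.2 h4 (E.ap_eq a c' h1 h2)
  have hext := lwr_ext E.top E.kap sL (p := prf E i c O) (q := E.fullL i c) (l := l)
    (hqp E hO) (hcls E) (by
      intro j u h1 h2 hp hq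
      have h3 := on_dich E h1 hp hq
      obtain ⟨_, h4⟩ := (prf_some E).1 hp
      rw [← h4]
      exact hll j h1 h2 h3 c rfl (fun _ => rfl)) E.top le_rfl
  rw [Nat.sub_self] at hext
  have hext' : E.lw sL (prf E i c O) = WS.ext w (TT E i c O) l := hext
  obtain ⟨f1, f2⟩ := W.flip_pic w l (TT E i c O)
  rw [← hpic] at f1 f2
  rw [hext']
  refine ⟨f1, ?_⟩
  intro a h1 h2 h3 c' h4 h5 h6
  rw [f2 _ h6, hll a h1 h2 h3 c' h4 h5]

end windows

/-! ### Regions -/

section regions

variable {d h N n : ℕ} {B : Type} (E : Geo d h N n B)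

open Classical in
/-- region: levels `≥ i` not in `O` -/
noncomputable def reg (i : ℕ) (c : Fin d → Fin n) (O : Finset ℕ) : ℕ → Option (ℕ × Cub d) :=
  fun j => if i ≤ j ∧ j ≤ E.top ∧ j ∉ O then some (j, E.cub j c) else none

theorem reg_some {i : ℕ} {c : Fin d → Fin n} {O : Finset ℕ} {j : ℕ} {x : ℕ × Cub d} :
    reg E i c O j = some x ↔ (i ≤ j ∧ j ≤ E.top ∧ j ∉ O) ∧ (j, E.cub j c) = x := by
  unfold reg
  by_cases hh : i ≤ j ∧ j ≤ E.top ∧ j ∉ O
  · rw [if_pos hh]; simp [hh]
  · rw [if_neg hh]; simp [hh]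

theorem reg_on {i : ℕ} {c : Fin d → Fin n} {O : Finset ℕ} {j : ℕ}
    (hh : i ≤ j ∧ j ≤ E.top ∧ j ∉ O) : reg E i c O j = some (j, E.cub j c) :=
  (reg_some E).2 ⟨hh, rfl⟩

theorem reg_off {i : ℕ} {c : Fin d → Fin n} {O : Finset ℕ} {j : ℕ}
    (hh : ¬ (i ≤ j ∧ j ≤ E.top ∧ j ∉ O)) : reg E i c O j = none := by
  unfold reg; rw [if_neg hh]

theorem off_reg (i : ℕ) (c : Fin d → Fin n) (O : Finset ℕ) (a : ℕ) :
    off a (reg E i c O) = reg E i c (insert a O) := by
  funext j
  by_cases hja : j = a
  · subst hja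
    rw [off_self, reg_off E]
    rintro ⟨_, _, h⟩
    exact h (Finset.mem_insert_self _ _)
  · rw [off_ne hja]
    by_cases hh : i ≤ j ∧ j ≤ E.top ∧ j ∉ O
    · rw [reg_on E hh, reg_on E ⟨hh.1, hh.2.1, fun h => by
        rw [Finset.mem_insert] at h
        rcases h with h | h
        · exact hja h
        · exact hh.2.2 h⟩]
    · rw [reg_off E hh, reg_off E (fun h => hh ⟨h.1, h.2.1, fun h' =>
        h.2.2 (Finset.mem_insert_of_mem h')⟩)]

theorem mem_supp_reg {i : ℕ} {c : Fin d → Fin n} {O : Finset ℕ} {j : ℕ} :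
    j ∈ supp (E.top + 1) (reg E i c O) ↔ i ≤ j ∧ j ≤ E.top ∧ j ∉ O := by
  rw [mem_supp]
  constructor
  · rintro ⟨h1, h2⟩
    by_contra hh
    rw [reg_off E hh] at h2
    simp at h2
  · intro hh
    rw [reg_on E hh]
    exact ⟨by omega, rfl⟩

open Classical in
/-- active levels of a cube -/
noncomputable def AC (x : ℕ × Cub d) : Finset ℕ :=
  (Finset.range (E.top + 1)).filter
    (fun j => x.1 < j ∧ ∃ c0, E.cub x.1 c0 = x.2 ∧ Act E.cub E.ap x.1 c0 j)

theorem mem_AC {i : ℕ} {c : Fin d → Fin n} {j : ℕ} :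
    j ∈ AC E (i, E.cub i c) ↔ i < j ∧ Act E.cub E.ap i c j := by
  classical
  unfold AC
  rw [Finset.mem_filter, Finset.mem_range]
  constructor
  · rintro ⟨_, h1, c0, h2, h3⟩
    exact ⟨h1, E.act_congr h2 h3⟩
  · rintro ⟨h1, h2⟩
    exact ⟨by have := (E.act_le_top h2).2; omega, h1, c, rfl, h2⟩

theorem low_reg {i : ℕ} {c : Fin d → Fin n} {O : Finset ℕ} (hi : i ≤ E.top) (hO : i ∉ O) :
    low (E.top + 1) (reg E i c O) = i :=
  low_eq ((mem_supp_reg E).2 ⟨le_rfl, hi, hO⟩) (fun j hj => ((mem_supp_reg E).1 hj).1)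

theorem mem_act_reg {i : ℕ} {c : Fin d → Fin n} {O : Finset ℕ} (hi : i ≤ E.top) (hO : i ∉ O)
    {j : ℕ} : j ∈ act (E.top + 1) (AC E) (reg E i c O) ↔
      j ∉ O ∧ i < j ∧ Act E.cub E.ap i c j := by
  rw [mem_act, low_reg E hi hO, mem_supp_reg, reg_on E ⟨le_rfl, hi, hO⟩]
  constructor
  · rintro ⟨⟨h1, h2⟩, x, h3, h4⟩
    rw [← Option.some.inj h3, mem_AC] at h4
    exact ⟨h2.2.2, h4⟩
  · rintro ⟨h1, h2, h3⟩
    refine ⟨⟨by omega, by omega, (E.act_le_top h3).2, h1⟩, _, rfl, ?_⟩
    rw [mem_AC]
    exact ⟨h2, h3⟩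

/-- realised regions -/
def Rz (s : ℕ → Option (ℕ × Cub d)) : Prop :=
  (∃ i c O, 1 ≤ i ∧ i ≤ E.top ∧ (∀ j ∈ O, i < j ∧ Act E.cub E.ap i c j) ∧ s = reg E i c O) ∨
    s = fun _ => none

theorem supp_none (L : ℕ) : supp L (fun _ => (none : Option (ℕ × Cub d))) = ∅ := by
  ext j; simp [mem_supp]

theorem act_none (L : ℕ) : act L (AC E) (fun _ => (none : Option (ℕ × Cub d))) = ∅ := by
  ext j
  rw [mem_act, supp_none]
  simp

/-- the region without its lowest level -/
theorem off_low_reg {i : ℕ} {c : Fin d → Fin n} {O : Finset ℕ} (hi1 : 1 ≤ i) (hi : i ≤ E.top)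
    (hO : ∀ j ∈ O, i < j ∧ Act E.cub E.ap i c j) :
    (reg E i c (insert i O) = fun _ => none) ∨
    ∃ i' O', i < i' ∧ i' ≤ E.top ∧ i' ∉ O ∧ (∀ j ∈ O', j ∈ O) ∧ (∀ j ∈ O, i' < j → j ∈ O') ∧
      (∀ j ∈ O', i' < j ∧ Act E.cub E.ap i' c j) ∧
      reg E i c (insert i O) = reg E i' c O' := by
  classical
  by_cases hne : (supp (E.top + 1) (reg E i c (insert i O))).Nonempty
  · right
    have h1 := low_mem hne
    have h1' := (mem_supp_reg E).1 h1
    set i' := low (E.top + 1) (reg E i c (insert i O)) with hi'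
    have hlt : i < i' := by
      have : i' ≠ i := fun h => h1'.2.2 (by rw [h]; exact Finset.mem_insert_self _ _)
      omega
    have hnO : i' ∉ O := fun h => h1'.2.2 (Finset.mem_insert_of_mem h)
    refine ⟨i', O.filter (fun j => i' < j), hlt, h1'.2.1, hnO,
      fun j hj => (Finset.mem_filter.1 hj).1, fun j hj hj' => Finset.mem_filter.2 ⟨hj, hj'⟩, ?_, ?_⟩
    · intro j hj
      obtain ⟨g1, g2⟩ := Finset.mem_filter.1 hj
      exact ⟨g2, E.transfer_act hlt.le (by omega) g2 (hO j g1).2⟩
    · funext j
      by_cases hj : i' ≤ j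
      · by_cases hh : i ≤ j ∧ j ≤ E.top ∧ j ∉ insert i O
        · rw [reg_on E hh, reg_on E ⟨hj, hh.2.1, fun h => hh.2.2
            (Finset.mem_insert_of_mem (Finset.mem_filter.1 h).1)⟩]
        · rw [reg_off E hh, reg_off E]
          rintro ⟨g1, g2, g3⟩
          apply hh
          refine ⟨by omega, g2, fun h => ?_⟩
          rw [Finset.mem_insert] at h
          rcases h with h | h
          · omega
          · rcases Nat.eq_or_lt_of_le hj with h5 | h5
            · rw [← h5] at h; exact hnO h
            · exact g3 (Finset.mem_filter.2 ⟨h, h5⟩)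
      · rw [reg_off E (i := i') (fun h => hj h.1)]
        by_contra hcon
        have : j ∈ supp (E.top + 1) (reg E i c (insert i O)) := by
          rw [mem_supp_reg]
          by_contra hh
          exact hcon (reg_off E hh)
        exact hj (low_le this)
  · left
    funext j
    by_contra hcon
    apply hne
    refine ⟨j, ?_⟩
    rw [mem_supp_reg]
    by_contra hh
    exact hcon (reg_off E hh)

theorem stars_geo : Pool.Agent.Helper64.Gauge.Geo (E.top + 1) (AC E) (Rz E) d where
  off_act := by
    intro s hs a ha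
    rcases hs with ⟨i, c, O, h1, h2, h3, rfl⟩ | rfl
    · have hiO : i ∉ O := fun h => absurd (h3 i h).1 (lt_irrefl _)
      rw [mem_act_reg E h2 hiO] at ha
      left
      refine ⟨i, c, insert a O, h1, h2, ?_, off_reg E i c O a⟩
      intro j hj
      rw [Finset.mem_insert] at hj
      rcases hj with rfl | hj
      · exact ha.2
      · exact h3 j hj
    · rw [act_none] at ha
      exact absurd ha (Finset.notMem_empty _)
  off_low := by
    intro s hs hne
    rcases hs with ⟨i, c, O, h1, h2, h3, rfl⟩ | rfl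
    · have hiO : i ∉ O := fun h => absurd (h3 i h).1 (lt_irrefl _)
      rw [low_reg E h2 hiO, off_reg]
      rcases off_low_reg E h1 h2 h3 with h | ⟨i', O', g1, g2, g3, g4, g5, g6, g7⟩
      · right; exact h
      · left
        exact ⟨i', c, O', by omega, g2, g6, g7⟩
    · rw [supp_none] at hne
      exact absurd hne (by simp)
  shrink := by
    intro s hs a ha
    rcases hs with ⟨i, c, O, h1, h2, h3, rfl⟩ | rfl
    · have hiO : i ∉ O := fun h => absurd (h3 i h).1 (lt_irrefl _)
      have ha' := (mem_act_reg E h2 hiO).1 ha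
      have hat := (E.act_le_top ha'.2.2).2
      rw [low_reg E h2 hiO, off_reg]
      rcases off_low_reg E h1 h2 h3 with h | ⟨i', O', g1, g2, g3, g4, g5, g6, g7⟩
      · exfalso
        have : reg E i c (insert i O) a = some (a, E.cub a c) := by
          apply reg_on E
          refine ⟨by omega, hat, fun h => ?_⟩
          rw [Finset.mem_insert] at h
          rcases h with h | h
          · omega
          · exact ha'.1 h
        rw [h] at this
        simp at this
      · have hi'O' : i' ∉ O' := fun h => absurd (g6 i' h).1 (lt_irrefl _)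
        rw [g7, low_reg E g2 hi'O', mem_act_reg E g2 hi'O']
        have haon : reg E i c (insert i O) a = some (a, E.cub a c) := by
          apply reg_on E
          refine ⟨by omega, hat, fun h => ?_⟩
          rw [Finset.mem_insert] at h
          rcases h with h | h
          · omega
          · exact ha'.1 h
        rw [g7] at haon
        obtain ⟨⟨k1, k2, k3⟩, _⟩ := (reg_some E).1 haon
        rcases Nat.eq_or_lt_of_le k1 with h | h
        · left; exact h.symm
        · right
          exact ⟨k3, h, E.transfer_act g1.le (by omega) h ha'.2.2⟩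
    · rw [act_none] at ha
      exact absurd ha (Finset.notMem_empty _)
  card_le := by
    classical
    intro s hs
    rcases hs with ⟨i, c, O, h1, h2, h3, rfl⟩ | rfl
    · have hiO : i ∉ O := fun h => absurd (h3 i h).1 (lt_irrefl _)
      have hfin : {j | i < j ∧ Act E.cub E.ap i c j}.Finite :=
        (Set.finite_Iic E.top).subset (fun j hj => (E.act_le_top hj.2).2)
      have hsub : ((act (E.top + 1) (AC E) (reg E i c O) : Finset ℕ) : Set ℕ) ⊆
          {j | i < j ∧ Act E.cub E.ap i c j} := by
        intro j hj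
        exact ((mem_act_reg E h2 hiO).1 (Finset.mem_coe.1 hj)).2
      have := Set.ncard_le_ncard hsub hfin
      rw [Set.ncard_coe_finset] at this
      exact this.trans (E.act_card i c)
    · rw [act_none]; simp

end regions

end GG

end Pool.Agent.SRL
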