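import Pool.Agent.SRL.HostTp

/-! # Host: number of letters -/

set_option autoImplicit false
set_option linter.unusedSectionVars false
set_option linter.unusedVariables false

namespace Pool.Agent.SRL

open Polynomial

/-- roots of the equation `x ^ d = c` in a finite field -/
theorem exists_pow_eq {E : Type} [Field E] [Fintype E] {d m : ℕ} (hd : 0 < d) (hm : 0 < m)
    (hdiv : d * m ∣ Fintype.card E - 1) (c : E) (hc : c ≠ 0) (hcm : c ^ m = 1) :
    ∃ x : E, x ^ d = c := by
  classical
  obtain ⟨g, hg⟩ := IsCyclic.exists_generator (α := Eˣ)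
  have hN : orderOf g = Fintype.card E - 1 := by
    rw [orderOf_eq_card_of_forall_mem_zpowers hg, Nat.card_eq_fintype_card, Fintype.card_units]
  obtain ⟨j, hj⟩ := (Subgroup.mem_zpowers_iff.1 (hg (Units.mk0 c hc)))
  have hpos : 0 < Fintype.card E - 1 := by
    rw [← Fintype.card_units]
    exact Fintype.card_pos
  have h1 : g ^ (j * m : ℤ) = 1 := by
    rw [zpow_mul, hj]
    refine Units.ext ?_
    push_cast
    simpa using hcm
  have h2 : ((Fintype.card E - 1 : ℕ) : ℤ) ∣ j * m := by
    rw [← hN]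
    exact orderOf_dvd_iff_zpow_eq_one.2 h1
  have h3 : ((d * m : ℕ) : ℤ) ∣ j * m := dvd_trans (by exact_mod_cast hdiv) h2
  have h4 : (d : ℤ) ∣ j := by
    push_cast at h3
    exact Int.dvd_of_mul_dvd_mul_right (by exact_mod_cast hm.ne') h3
  obtain ⟨i, hi⟩ := h4
  refine ⟨((g ^ i : Eˣ) : E), ?_⟩
  have h5 : (g ^ i) ^ d = Units.mk0 c hc := by
    rw [← hj, hi, mul_comm, zpow_mul, zpow_natCast]
  have h6 := congrArg (fun u : Eˣ => (u : E)) h5
  simpa using h6

theorem card_pow_eq {E : Type} [Field E] [Fintype E] [DecidableEq E] {d m : ℕ} (hd : 0 < d)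
    (hm : 0 < m) (hdiv : d * m ∣ Fintype.card E - 1) (c : E) (hc : c ≠ 0) (hcm : c ^ m = 1) :
    Fintype.card {x : E // x ^ d = c} = d := by
  classical
  obtain ⟨g, hg⟩ := IsCyclic.exists_generator (α := Eˣ)
  have hN : orderOf g = Fintype.card E - 1 := by
    rw [orderOf_eq_card_of_forall_mem_zpowers hg, Nat.card_eq_fintype_card, Fintype.card_units]
  have hpos : 0 < Fintype.card E - 1 := by
    rw [← Fintype.card_units]
    exact Fintype.card_pos
  have hd1 : d ∣ Fintype.card E - 1 := dvd_trans (Dvd.intro _ rfl) hdiv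
  obtain ⟨e, he⟩ := hd1
  have hprim : IsPrimitiveRoot g (Fintype.card E - 1) := by
    rw [← hN]
    exact IsPrimitiveRoot.orderOf g
  have hprim2 : IsPrimitiveRoot (g ^ e) d := hprim.pow hpos (by rw [he, mul_comm])
  have hprim3 : IsPrimitiveRoot ((g ^ e : Eˣ) : E) d := IsPrimitiveRoot.coe_units_iff.2 hprim2
  have h1 := hprim3.card_nthRoots c
  rw [if_pos (exists_pow_eq hd hm hdiv c hc hcm)] at h1
  have h2 : (nthRoots d c).Nodup := hprim3.nthRoots_nodup hc
  rw [Fintype.card_of_subtype (nthRoots d c).toFinset]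
  · rw [Multiset.toFinset_card_of_nodup h2, h1]
  · intro x
    rw [Multiset.mem_toFinset, mem_nthRoots hd]

/-- there are `p + 1` letters in every class -/
theorem card_Nm (p : ℕ) [hp : Fact p.Prime] {E : Type} [Field E] [Fintype E] [DecidableEq E]
    [CharP E p] (hE : p ^ 2 - 1 ∣ Fintype.card E - 1) (τ : E) (hτ : τ ≠ 0) (hτp : τ ^ p = τ) :
    Fintype.card (Nm p τ) = p + 1 := by
  have h2 := hp.out.two_le
  refine card_pow_eq (m := p - 1) (by omega) (by omega) ?_ _ (inv_ne_zero hτ) ?_
  · have : (p + 1) * (p - 1) = p ^ 2 - 1 := by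
      have := Nat.sq_sub_sq p 1
      rw [one_pow] at this
      exact this.symm
    rwa [this]
  · rw [inv_pow]
    have : τ ^ (p - 1) * τ = 1 * τ := by
      rw [← pow_succ, Nat.sub_add_cancel (by omega), hτp, one_mul]
    rw [mul_right_cancel₀ hτ this, inv_one]

end Pool.Agent.SRL
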