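import Mathlib
import Pool.Agent.SRL.HostDefs

/-!
# Host of the linear size-Ramsey theorem: the counting lemma (row H2)

`ZS p τ P l` is the set of the elements `a + b F` (`a`, `b` with coefficients fixed by the square of
the Frobenius) of reduced norm `(1 - X / τ) ^ (2 l)`, of degree at most `l`, with `a (0) = 1`, which
are central modulo `P`.
-/

set_option autoImplicit false
set_option linter.unusedSectionVars false
set_option linter.unusedVariables false

namespace Pool.Agent.SRL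

open Polynomial

/-- The elements counted by row H2. -/
def ZS (p : ℕ) [Fact p.Prime] {E : Type} [Field E] [CharP E p] [Algebra (ZMod p) E]
    (τ : ZMod p) (P : (ZMod p)[X]) (l : ℕ) : Set (E[X] × E[X]) :=
  {z | bar p (bar p z.1) = z.1 ∧ bar p (bar p z.2) = z.2 ∧ z.1.natDegree ≤ l ∧
    z.2.degree < (l : WithBot ℕ) ∧
    z.1 * bar p z.1 - X * z.2 * bar p z.2 =
      (1 - C (algebraMap (ZMod p) E τ⁻¹) * X) ^ (2 * l) ∧
    z.1.eval 0 = 1 ∧ P.map (algebraMap (ZMod p) E) ∣ z.2 ∧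
    P.map (algebraMap (ZMod p) E) ∣ z.1 - bar p z.1}

namespace HC

/-! ### Finite counting tools -/

theorem ncard_le_of_fibre {α β : Type*} {s : Set α} (hs : s.Finite) (f : α → β) {t : Set β}
    (ht : t.Finite) (hf : ∀ x ∈ s, f x ∈ t) (n : ℕ)
    (hn : ∀ y ∈ t, {x | x ∈ s ∧ f x = y}.ncard ≤ n) : s.ncard ≤ n * t.ncard := by
  classical
  rw [Set.ncard_eq_toFinset_card s hs, Set.ncard_eq_toFinset_card t ht]
  refine Finset.card_le_mul_card_image_of_maps_to (f := f) (fun x hx => ?_) n (fun y hy => ?_)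
  · exact ht.mem_toFinset.mpr (hf x (hs.mem_toFinset.mp hx))
  · have h1 := hn y (ht.mem_toFinset.mp hy)
    have h2 : ({x | x ∈ s ∧ f x = y} : Set α) = ((hs.toFinset.filter (fun x => f x = y)) : Set α) := by
      ext x; simp
    rw [h2, Set.ncard_coe_finset] at h1
    exact h1

theorem card_normalizedFactors_le {E : Type} [Field E] [DecidableEq E] (g : E[X]) (hg : g ≠ 0) :
    Multiset.card (UniqueFactorizationMonoid.normalizedFactors g) ≤ g.natDegree := by
  have h1 : g.natDegree = (UniqueFactorizationMonoid.normalizedFactors g).prod.natDegree :=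
    (natDegree_eq_of_degree_eq (degree_eq_degree_of_associated
      (UniqueFactorizationMonoid.prod_normalizedFactors hg))).symm
  rw [h1, natDegree_multiset_prod _ (UniqueFactorizationMonoid.zero_notMem_normalizedFactors g)]
  have h2 : Multiset.card (UniqueFactorizationMonoid.normalizedFactors g)
      = Multiset.card ((UniqueFactorizationMonoid.normalizedFactors g).map natDegree) := by simp
  rw [h2]
  have h3 := Multiset.card_nsmul_le_sum (s := (UniqueFactorizationMonoid.normalizedFactors g).map natDegree)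
    (a := 1) (by
      intro x hx
      obtain ⟨f, hf, rfl⟩ := Multiset.mem_map.mp hx
      exact (UniqueFactorizationMonoid.irreducible_of_normalized_factor f hf).natDegree_pos)
  simpa using h3

theorem monic_dvd_finite_card {E : Type} [Field E] (g : E[X]) (hg : g ≠ 0) :
    {b : E[X] | b.Monic ∧ b ∣ g}.Finite ∧ {b : E[X] | b.Monic ∧ b ∣ g}.ncard ≤ 2 ^ g.natDegree := by
  classical
  have hinj : Set.InjOn (fun b : E[X] => UniqueFactorizationMonoid.normalizedFactors b)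
      {b : E[X] | b.Monic ∧ b ∣ g} := by
    intro b hb c hc hbc
    have h1 : Associated b c := by
      have e1 := UniqueFactorizationMonoid.prod_normalizedFactors hb.1.ne_zero
      have e2 := UniqueFactorizationMonoid.prod_normalizedFactors hc.1.ne_zero
      simp only at hbc
      rw [hbc] at e1
      exact e1.symm.trans e2
    exact eq_of_monic_of_associated hb.1 hc.1 h1
  have hmaps : ∀ b ∈ {b : E[X] | b.Monic ∧ b ∣ g},
      UniqueFactorizationMonoid.normalizedFactors b ∈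
        (((UniqueFactorizationMonoid.normalizedFactors g).powerset.toFinset : Finset _) :
          Set (Multiset E[X])) := by
    intro b hb
    simp only [Finset.mem_coe, Multiset.mem_toFinset, Multiset.mem_powerset]
    exact (UniqueFactorizationMonoid.dvd_iff_normalizedFactors_le_normalizedFactors
      hb.1.ne_zero hg).mp hb.2
  have hfin : {b : E[X] | b.Monic ∧ b ∣ g}.Finite :=
    Set.Finite.of_finite_image ((Finset.finite_toSet _).subset
      (by rintro _ ⟨b, hb, rfl⟩; exact hmaps b hb)) hinj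
  refine ⟨hfin, ?_⟩
  have h1 : {b : E[X] | b.Monic ∧ b ∣ g}.ncard ≤
      ((((UniqueFactorizationMonoid.normalizedFactors g).powerset.toFinset : Finset _) :
          Set (Multiset E[X]))).ncard :=
    Set.ncard_le_ncard_of_injOn _ hmaps hinj (Finset.finite_toSet _)
  rw [Set.ncard_coe_finset] at h1
  refine h1.trans ((Multiset.toFinset_card_le _).trans ?_)
  rw [Multiset.card_powerset]
  exact Nat.pow_le_pow_right (by norm_num) (card_normalizedFactors_le g hg)

theorem bar_mul (p : ℕ) [Fact p.Prime] {E : Type} [Field E] [CharP E p] (f g : E[X]) :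
    bar p (f * g) = bar p f * bar p g := Polynomial.map_mul _

theorem natDegree_bar (p : ℕ) [Fact p.Prime] {E : Type} [Field E] [CharP E p] (f : E[X]) :
    (bar p f).natDegree = f.natDegree :=
  Polynomial.natDegree_map_eq_of_injective (frobenius_inj E p) f

theorem bar_eq_zero (p : ℕ) [Fact p.Prime] {E : Type} [Field E] [CharP E p] {f : E[X]} :
    bar p f = 0 ↔ f = 0 := by
  unfold bar
  exact Polynomial.map_eq_zero_iff (frobenius_inj E p)

theorem leadingCoeff_bar (p : ℕ) [Fact p.Prime] {E : Type} [Field E] [CharP E p] (f : E[X]) :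
    (bar p f).leadingCoeff = f.leadingCoeff ^ p := by
  unfold bar
  rw [Polynomial.leadingCoeff_map_of_injective (frobenius_inj E p)]
  rfl

/-- The norm fibre: the number of `b` with `b * bar b = g`. -/
theorem norm_fibre (p : ℕ) [Fact p.Prime] {E : Type} [Field E] [CharP E p]
    (g : E[X]) (n : ℕ) (hn : g ≠ 0 → g.natDegree ≤ n) :
    {b : E[X] | b * bar p b = g}.Finite ∧
      {b : E[X] | b * bar p b = g}.ncard ≤ 2 ^ n * (p + 1) := by
  classical
  by_cases hg : g = 0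
  · subst hg
    have h1 : {b : E[X] | b * bar p b = 0} = {0} := by
      ext b
      simp only [Set.mem_ofPred_eq, mul_eq_zero, bar_eq_zero, or_self, Set.mem_singleton_iff]
    rw [h1]
    refine ⟨Set.finite_singleton _, ?_⟩
    rw [Set.ncard_singleton]
    have : 0 < 2 ^ n * (p + 1) := by positivity
    omega
  · have hgn := hn hg
    have hb0 : ∀ b : E[X], b * bar p b = g → b ≠ 0 := by
      rintro b hb rfl
      simp at hb
      exact hg hb.symm
    set T : Set (E[X] × E) := {b : E[X] | b.Monic ∧ b ∣ g} ×ˢ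
      ((nthRootsFinset (p + 1) g.leadingCoeff : Finset E) : Set E) with hT
    obtain ⟨hf1, hc1⟩ := monic_dvd_finite_card g hg
    have hTf : T.Finite := hf1.prod (Finset.finite_toSet _)
    have hTc : T.ncard ≤ 2 ^ n * (p + 1) := by
      rw [hT, Set.ncard_prod]
      refine Nat.mul_le_mul (hc1.trans (Nat.pow_le_pow_right (by norm_num) hgn)) ?_
      rw [Set.ncard_coe_finset, nthRootsFinset_def]
      exact (Multiset.toFinset_card_le _).trans (card_nthRoots _ _)
    have hmaps : ∀ b ∈ {b : E[X] | b * bar p b = g},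
        ((b * C (b.leadingCoeff)⁻¹, b.leadingCoeff) : E[X] × E) ∈ T := by
      intro b hb
      have hb' : b * bar p b = g := hb
      have hbne := hb0 b hb'
      refine ⟨⟨monic_mul_leadingCoeff_inv hbne, ?_⟩, ?_⟩
      · have h1 : b ∣ g := ⟨bar p b, hb'.symm⟩
        refine dvd_trans ?_ h1
        refine ⟨C b.leadingCoeff, ?_⟩
        rw [mul_assoc, ← C_mul, inv_mul_cancel₀ (leadingCoeff_ne_zero.mpr hbne), C_1, mul_one]
      · rw [Finset.mem_coe, mem_nthRootsFinset (Nat.succ_pos p)]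
        rw [← hb', leadingCoeff_mul, leadingCoeff_bar, pow_succ, mul_comm]
    have hinj : Set.InjOn (fun b : E[X] => ((b * C (b.leadingCoeff)⁻¹, b.leadingCoeff) : E[X] × E))
        {b : E[X] | b * bar p b = g} := by
      intro b hb c hc hbc
      have hbne := hb0 b hb
      have hcne := hb0 c hc
      simp only [Prod.mk.injEq] at hbc
      obtain ⟨e1, e2⟩ := hbc
      have e3 : b * C (b.leadingCoeff)⁻¹ * C b.leadingCoeff = c * C (c.leadingCoeff)⁻¹ * C c.leadingCoeff := by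
        rw [e1, e2]
      rw [mul_assoc, mul_assoc, ← C_mul, ← C_mul, inv_mul_cancel₀ (leadingCoeff_ne_zero.mpr hbne),
        inv_mul_cancel₀ (leadingCoeff_ne_zero.mpr hcne), C_1, mul_one, mul_one] at e3
      exact e3
    refine ⟨Set.Finite.of_finite_image (hTf.subset (by rintro _ ⟨b, hb, rfl⟩; exact hmaps b hb)) hinj,
      (Set.ncard_le_ncard_of_injOn _ hmaps hinj hTf).trans hTc⟩

/-! ### Congruence classes of polynomials over the prime field -/

section cong

variable {F : Type} [Field F] [Fintype F]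

theorem degreeLT_finite_card (n : ℕ) :
    {f : F[X] | f.degree < (n : WithBot ℕ)}.Finite ∧
      {f : F[X] | f.degree < (n : WithBot ℕ)}.ncard = Fintype.card F ^ n := by
  classical
  have e : {f : F[X] | f.degree < (n : WithBot ℕ)} ≃ (Fin n → F) :=
    ((Equiv.setCongr (by ext f; simp [mem_degreeLT])).trans (degreeLTEquiv F n).toEquiv :
      {f : F[X] | f.degree < (n : WithBot ℕ)} ≃ (Fin n → F))
  have : Finite {f : F[X] | f.degree < (n : WithBot ℕ)} := Finite.of_equiv _ e.symm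
  refine ⟨Set.toFinite _, ?_⟩
  rw [← Nat.card_coe_set_eq, Nat.card_congr e, Nat.card_eq_fintype_card, Fintype.card_fun,
    Fintype.card_fin]

/-- Polynomials of degree at most `l` which are congruent modulo a monic `M` of degree `m ≤ l` and
have the same coefficient at `l`. -/
theorem cong_card (M : F[X]) (hM : M.Monic) (l : ℕ) (hml : M.natDegree ≤ l) (c : F) (S : Set F[X])
    (hS : ∀ f ∈ S, ∀ g ∈ S, M ∣ f - g) (hd : ∀ f ∈ S, f.natDegree ≤ l) (hc : ∀ f ∈ S, f.coeff l = c) :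
    S.Finite ∧ S.ncard ≤ Fintype.card F ^ (l - M.natDegree) := by
  classical
  rcases S.eq_empty_or_nonempty with hS0 | ⟨f0, hf0⟩
  · rw [hS0]; simp
  obtain ⟨hfin, hcard⟩ := degreeLT_finite_card (F := F) (l - M.natDegree)
  rw [← hcard]
  have hdvd : ∀ f ∈ S, M * ((f - f0) /ₘ M) = f - f0 := by
    intro f hf
    have h1 := (modByMonic_eq_zero_iff_dvd hM).mpr (hS f hf f0 hf0)
    have h2 := modByMonic_add_div (f - f0) M
    rw [h1, zero_add] at h2
    exact h2
  have hmaps : ∀ f ∈ S, (f - f0) /ₘ M ∈ {f : F[X] | f.degree < ((l - M.natDegree : ℕ) : WithBot ℕ)} := by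
    intro f hf
    show ((f - f0) /ₘ M).degree < _
    by_cases hq : (f - f0) /ₘ M = 0
    · rw [hq, degree_zero]; exact WithBot.bot_lt_coe _
    rw [degree_eq_natDegree hq, Nat.cast_lt]
    by_contra hcon
    push Not at hcon
    have h1 : (f - f0).natDegree = M.natDegree + ((f - f0) /ₘ M).natDegree := by
      conv_lhs => rw [← hdvd f hf]
      exact hM.natDegree_mul' hq
    have h2 : (f - f0).natDegree ≤ l := (natDegree_sub_le _ _).trans (max_le (hd f hf) (hd f0 hf0))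
    have h3 : (f - f0).natDegree = l := by omega
    have h4 : (f - f0).coeff l = 0 := by rw [coeff_sub, hc f hf, hc f0 hf0, sub_self]
    have h5 : f - f0 = 0 := by
      rw [← leadingCoeff_eq_zero, leadingCoeff, h3, h4]
    rw [h5, zero_divByMonic] at hq
    exact hq rfl
  have hinj : Set.InjOn (fun f : F[X] => (f - f0) /ₘ M) S := by
    intro f hf g hg hfg
    have h1 := hdvd f hf
    have h2 := hdvd g hg
    simp only at hfg
    rw [hfg, h2] at h1
    have h3 : g = f := by linear_combination h1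
    exact h3.symm
  exact ⟨Set.Finite.of_finite_image (hfin.subset (by rintro _ ⟨b, hb, rfl⟩; exact hmaps b hb)) hinj,
    Set.ncard_le_ncard_of_injOn _ hmaps hinj hfin⟩

theorem cong_card_one (M : F[X]) (hM : M.Monic) (l : ℕ) (hml : l < M.natDegree) (S : Set F[X])
    (hS : ∀ f ∈ S, ∀ g ∈ S, M ∣ f - g) (hd : ∀ f ∈ S, f.natDegree ≤ l) :
    S.Finite ∧ S.ncard ≤ 1 := by
  have h0 : S.Subsingleton := by
    intro f hf g hg
    have h1 := hS f hf g hg
    have h2 : (f - g).natDegree < M.natDegree :=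
      ((natDegree_sub_le _ _).trans (max_le (hd f hf) (hd g hg))).trans_lt hml
    exact sub_eq_zero.mp (eq_zero_of_dvd_of_natDegree_lt h1 h2)
  have := h0.finite.to_subtype
  exact ⟨h0.finite, Set.ncard_le_one_iff_subsingleton.mpr h0⟩

end cong


/-! ### Rational parts -/

section parts

variable (p : ℕ) [Fact p.Prime] {E : Type} [Field E] [CharP E p] [Algebra (ZMod p) E]

theorem algMap_pow (x : ZMod p) : (algebraMap (ZMod p) E x) ^ p = algebraMap (ZMod p) E x := by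
  rw [← map_pow, ZMod.pow_card]

theorem bar_map (f : (ZMod p)[X]) :
    bar p (f.map (algebraMap (ZMod p) E)) = f.map (algebraMap (ZMod p) E) := by
  unfold bar
  ext n
  rw [coeff_map, coeff_map]
  exact algMap_pow p _

theorem exists_lo (f : E[X]) (hf : bar p f = f) :
    ∃ g : (ZMod p)[X], g.map (algebraMap (ZMod p) E) = f := by
  rw [← Polynomial.mem_lifts, Polynomial.lifts_iff_coeff_lifts]
  intro n
  have h1 : (f.coeff n) ^ p = f.coeff n := by
    have h2 := congrArg (fun g => Polynomial.coeff g n) hf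
    simp only [bar, coeff_map] at h2
    exact h2
  have h3 : f.coeff n ∈ (⊥ : Subfield E) := (Subfield.mem_bot_iff_pow_eq_self E p).mpr h1
  rw [mem_bot_iff_intCast p] at h3
  obtain ⟨m, hm⟩ := h3
  exact ⟨(m : ZMod p), by rw [map_intCast, hm]⟩

theorem exists_e (δ : E) (hδp : δ ^ p = -δ) : ∃ e : ZMod p, algebraMap (ZMod p) E e = δ ^ 2 := by
  have h3 : δ ^ 2 ∈ (⊥ : Subfield E) := (Subfield.mem_bot_iff_pow_eq_self E p).mpr (by
    rw [← pow_mul, mul_comm, pow_mul, hδp, neg_sq])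
  rw [mem_bot_iff_intCast p] at h3
  obtain ⟨m, hm⟩ := h3
  exact ⟨(m : ZMod p), by rw [map_intCast, hm]⟩

/-- Rational and irrational part of a polynomial. -/
theorem exists_parts (hp : 3 ≤ p) (δ : E) (hδ : δ ≠ 0) (hδp : δ ^ p = -δ) (f : E[X])
    (hf : bar p (bar p f) = f) :
    ∃ g h : (ZMod p)[X], f = g.map (algebraMap (ZMod p) E) + C δ * h.map (algebraMap (ZMod p) E) ∧
      bar p f = g.map (algebraMap (ZMod p) E) - C δ * h.map (algebraMap (ZMod p) E) := by
  have h2 : (2 : E) ≠ 0 := by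
    intro h
    have h3 : ((2 : ℕ) : E) = 0 := by exact_mod_cast h
    rw [CharP.cast_eq_zero_iff E p] at h3
    have := Nat.le_of_dvd (by norm_num) h3
    omega
  have hbC : ∀ c : E, bar p (C c) = C (c ^ p) := by
    intro c
    unfold bar
    rw [map_C]; rfl
  have hbadd : ∀ x y : E[X], bar p (x + y) = bar p x + bar p y := fun x y => Polynomial.map_add _
  have hbsub : ∀ x y : E[X], bar p (x - y) = bar p x - bar p y := fun x y => Polynomial.map_sub _
  have h2p : (2 : E) ^ p = 2 := by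
    have := algMap_pow p (E := E) (2 : ZMod p)
    rwa [map_ofNat] at this
  obtain ⟨g, hg⟩ := exists_lo p (C (2 : E)⁻¹ * (f + bar p f)) (by
    rw [bar_mul, hbC, hbadd, hf, inv_pow, h2p, add_comm (bar p f)])
  obtain ⟨h, hh⟩ := exists_lo p (C (2 * δ)⁻¹ * (f - bar p f)) (by
    rw [bar_mul, hbC, hbsub, hf, inv_pow, mul_pow, h2p, hδp, mul_neg, inv_neg, C_neg]
    ring)
  refine ⟨g, h, ?_, ?_⟩
  · rw [hg, hh]
    have e1 : (C δ : E[X]) * (C (2 * δ)⁻¹ * (f - bar p f)) = C (2 : E)⁻¹ * (f - bar p f) := by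
      rw [← mul_assoc, ← C_mul]
      congr 2
      field_simp
    have e2 : (C (2 : E)⁻¹ : E[X]) * (f + bar p f) + C (2 : E)⁻¹ * (f - bar p f)
        = (C (2 : E)⁻¹ * C 2) * f := by
      have : (C (2 : E) : E[X]) = 2 := map_ofNat C 2
      rw [this]; ring
    rw [e1, e2, ← C_mul, inv_mul_cancel₀ h2, C_1, one_mul]
  · rw [hg, hh]
    have e1 : (C δ : E[X]) * (C (2 * δ)⁻¹ * (f - bar p f)) = C (2 : E)⁻¹ * (f - bar p f) := by
      rw [← mul_assoc, ← C_mul]
      congr 2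
      field_simp
    have e2 : (C (2 : E)⁻¹ : E[X]) * (f + bar p f) - C (2 : E)⁻¹ * (f - bar p f)
        = (C (2 : E)⁻¹ * C 2) * bar p f := by
      have : (C (2 : E) : E[X]) = 2 := map_ofNat C 2
      rw [this]; ring
    rw [e1, e2, ← C_mul, inv_mul_cancel₀ h2, C_1, one_mul]

/-- Structure of the elements of `ZS`. -/
theorem decomp (hp : 3 ≤ p) (δ : E) (hδ : δ ≠ 0) (hδp : δ ^ p = -δ) (e : ZMod p)
    (he : algebraMap (ZMod p) E e = δ ^ 2) (τ : ZMod p) (P : (ZMod p)[X]) (l : ℕ) (z : E[X] × E[X])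
    (hz : z ∈ ZS p τ P l) :
    ∃ g h : (ZMod p)[X],
      z.1 = g.map (algebraMap (ZMod p) E) + C δ * h.map (algebraMap (ZMod p) E) ∧
      g.natDegree ≤ l ∧ h.natDegree ≤ l ∧ g.eval 0 = 1 ∧ h.eval 0 = 0 ∧ P ∣ h ∧
      (g ^ 2 - C e * h ^ 2 - (1 - C τ⁻¹ * X) ^ (2 * l)).map (algebraMap (ZMod p) E)
        = X * z.2 * bar p z.2 := by
  obtain ⟨h1, h2, h3, h4, h5, h6, h7, h8⟩ := hz
  obtain ⟨g, h, hg, hh⟩ := exists_parts p hp δ hδ hδp z.1 h1
  have h2ne : (2 : E) ≠ 0 := by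
    intro h
    have h3 : ((2 : ℕ) : E) = 0 := by exact_mod_cast h
    rw [CharP.cast_eq_zero_iff E p] at h3
    have := Nat.le_of_dvd (by norm_num) h3
    omega
  have hC2 : (C (2 : E) : E[X]) = 2 := map_ofNat C 2
  have eg : C (2 : E) * g.map (algebraMap (ZMod p) E) = z.1 + bar p z.1 := by
    rw [hh]; conv_rhs => rw [hg]
    rw [hC2]; ring
  have eh : C (2 * δ) * h.map (algebraMap (ZMod p) E) = z.1 - bar p z.1 := by
    rw [hh]; conv_rhs => rw [hg]
    rw [C_mul, hC2]; ring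
  have h2δ : (2 * δ) ≠ 0 := mul_ne_zero h2ne hδ
  have dz : (bar p z.1).natDegree ≤ l := by rw [natDegree_bar]; exact h3
  have dg : g.natDegree ≤ l := by
    have := natDegree_C_mul (a := (2 : E)) h2ne (p := g.map (algebraMap (ZMod p) E))
    rw [← natDegree_map (algebraMap (ZMod p) E), ← this, eg]
    exact (natDegree_add_le _ _).trans (max_le h3 dz)
  have dh : h.natDegree ≤ l := by
    have := natDegree_C_mul (a := (2 * δ : E)) h2δ (p := h.map (algebraMap (ZMod p) E))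
    rw [← natDegree_map (algebraMap (ZMod p) E), ← this, eh]
    exact (natDegree_sub_le _ _).trans (max_le h3 dz)
  have hb0 : (bar p z.1).eval 0 = 1 := by
    unfold bar
    rw [← coeff_zero_eq_eval_zero, coeff_map, coeff_zero_eq_eval_zero, h6]
    exact map_one _
  have g0 : g.eval 0 = 1 := by
    have h9 := congrArg (Polynomial.eval 0) eg
    rw [eval_mul, eval_C, eval_add, h6, hb0] at h9
    have h10 : (g.map (algebraMap (ZMod p) E)).eval 0 = 1 := by
      apply mul_left_cancel₀ h2ne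
      rw [h9]; norm_num
    rw [← coeff_zero_eq_eval_zero, coeff_map, coeff_zero_eq_eval_zero] at h10
    apply (algebraMap (ZMod p) E).injective
    rw [h10, map_one]
  have hh0 : h.eval 0 = 0 := by
    have h9 := congrArg (Polynomial.eval 0) eh
    rw [eval_mul, eval_C, eval_sub, h6, hb0, sub_self] at h9
    have h10 : (h.map (algebraMap (ZMod p) E)).eval 0 = 0 := (mul_eq_zero.mp h9).resolve_left h2δ
    rw [← coeff_zero_eq_eval_zero, coeff_map, coeff_zero_eq_eval_zero] at h10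
    apply (algebraMap (ZMod p) E).injective
    rw [h10, map_zero]
  have hPh : P ∣ h := by
    rw [← map_dvd_map' (algebraMap (ZMod p) E)]
    rw [← eh] at h8
    have hu : IsUnit (C (2 * δ) : E[X]) := isUnit_C.mpr (Ne.isUnit h2δ)
    exact (hu.dvd_mul_left).mp h8
  refine ⟨g, h, hg, dg, dh, g0, hh0, hPh, ?_⟩
  have h9 : (X : E[X]) * z.2 * bar p z.2 = z.1 * bar p z.1 - (1 - C (algebraMap (ZMod p) E τ⁻¹) * X) ^ (2 * l) := by
    rw [← h5]; ring
  rw [h9, hh]
  conv_rhs => rw [hg]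
  rw [Polynomial.map_sub, Polynomial.map_sub, Polynomial.map_pow, Polynomial.map_mul, Polynomial.map_pow,
    Polynomial.map_pow, Polynomial.map_sub, Polynomial.map_one, Polynomial.map_mul, map_C, map_C, map_X,
    he, C_pow]
  ring

end parts


/-! ### Pairs of rational polynomials -/

section pairs

variable (p : ℕ) [Fact p.Prime]

/-- The pairs (rational part, irrational part). -/
def PS (τ e : ZMod p) (Q : (ZMod p)[X]) (l : ℕ) : Set ((ZMod p)[X] × (ZMod p)[X]) :=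
  {w | w.1.natDegree ≤ l ∧ w.2.natDegree ≤ l ∧ w.1.eval 0 = 1 ∧ w.2.eval 0 = 0 ∧ Q ∣ w.2 ∧
    Q ^ 2 ∣ w.1 ^ 2 - (1 - C τ⁻¹ * X) ^ (2 * l) ∧
    (w.1.coeff l) ^ 2 - e * (w.2.coeff l) ^ 2 = (τ⁻¹) ^ (2 * l)}

theorem deg_le_finite {F : Type} [Field F] [Finite F] (l : ℕ) : {f : F[X] | f.natDegree ≤ l}.Finite := by
  have := Fintype.ofFinite F
  refine (degreeLT_finite_card (F := F) (l + 1)).1.subset ?_
  intro f hf
  show f.degree < _
  have h1 : f.degree ≤ (l : WithBot ℕ) := natDegree_le_iff_degree_le.mp hf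
  exact h1.trans_lt (by exact_mod_cast Nat.lt_succ_self l)

theorem PS_finite (τ e : ZMod p) (Q : (ZMod p)[X]) (l : ℕ) : (PS p τ e Q l).Finite :=
  ((deg_le_finite l).prod (deg_le_finite l)).subset (fun w hw => ⟨hw.1, hw.2.1⟩)

theorem natDegree_pi (τ : ZMod p) : (1 - C τ⁻¹ * X : (ZMod p)[X]).natDegree ≤ 1 := by
  refine (natDegree_sub_le _ _).trans (max_le (by simp) ((natDegree_C_mul_le _ _).trans natDegree_X_le))

variable {E : Type} [Field E] [CharP E p] [Algebra (ZMod p) E]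

theorem top_coeff (τ e : ZMod p) (l : ℕ) (g h : (ZMod p)[X]) (b : E[X]) (hg : g.natDegree ≤ l)
    (hh : h.natDegree ≤ l) (hb : b.degree < (l : WithBot ℕ))
    (heq : (g ^ 2 - C e * h ^ 2 - (1 - C τ⁻¹ * X) ^ (2 * l)).map (algebraMap (ZMod p) E)
        = X * b * bar p b) :
    (g.coeff l) ^ 2 - e * (h.coeff l) ^ 2 = (τ⁻¹) ^ (2 * l) := by
  have h1 : (X * b * bar p b).coeff (2 * l) = 0 := by
    by_cases hb0 : b = 0
    · rw [hb0]; simp
    apply coeff_eq_zero_of_natDegree_lt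
    have h2 : b.natDegree < l := by
      rw [degree_eq_natDegree hb0] at hb
      exact_mod_cast hb
    have h3 : (X * b * bar p b).natDegree ≤ 1 + b.natDegree + b.natDegree := by
      refine natDegree_mul_le.trans ?_
      rw [natDegree_bar]
      have := natDegree_mul_le (p := (X : E[X])) (q := b)
      rw [natDegree_X] at this
      omega
    omega
  rw [← heq, coeff_map, map_eq_zero_iff _ (algebraMap (ZMod p) E).injective] at h1
  rw [coeff_sub, coeff_sub, coeff_C_mul, coeff_pow_of_natDegree_le hg, coeff_pow_of_natDegree_le hh] at h1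
  have h2 := coeff_pow_of_natDegree_le (m := 2 * l) (natDegree_pi p τ)
  rw [mul_one] at h2
  rw [h2, coeff_sub, coeff_one, coeff_C_mul, coeff_X_one] at h1
  simp only [one_ne_zero, if_false, zero_sub, mul_one] at h1
  rw [Even.neg_pow (by exact even_two_mul l)] at h1
  linear_combination h1

theorem sq_dvd (τ e : ZMod p) (Q : (ZMod p)[X]) (l : ℕ) (g h : (ZMod p)[X]) (b : E[X])
    (hQh : Q ∣ h) (hQb : Q.map (algebraMap (ZMod p) E) ∣ b)
    (heq : (g ^ 2 - C e * h ^ 2 - (1 - C τ⁻¹ * X) ^ (2 * l)).map (algebraMap (ZMod p) E)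
        = X * b * bar p b) :
    Q ^ 2 ∣ g ^ 2 - (1 - C τ⁻¹ * X) ^ (2 * l) := by
  have h1 : Q ^ 2 ∣ g ^ 2 - C e * h ^ 2 - (1 - C τ⁻¹ * X) ^ (2 * l) := by
    rw [← map_dvd_map' (algebraMap (ZMod p) E), heq, Polynomial.map_pow]
    have h2 : Q.map (algebraMap (ZMod p) E) ∣ bar p b := by
      obtain ⟨c, hc⟩ := hQb
      refine ⟨bar p c, ?_⟩
      rw [hc, bar_mul, bar_map]
    rw [mul_assoc, sq]
    exact Dvd.dvd.mul_left (mul_dvd_mul hQb h2) X
  have h3 : Q ^ 2 ∣ C e * h ^ 2 := Dvd.dvd.mul_left (pow_dvd_pow_of_dvd hQh 2) _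
  have h4 := dvd_add h1 h3
  have h5 : g ^ 2 - C e * h ^ 2 - (1 - C τ⁻¹ * X) ^ (2 * l) + C e * h ^ 2
      = g ^ 2 - (1 - C τ⁻¹ * X) ^ (2 * l) := by ring
  rwa [h5] at h4

theorem ZS_finite [Finite E] (τ : ZMod p) (Q : (ZMod p)[X]) (l : ℕ) :
    (ZS (E := E) p τ Q l).Finite := by
  refine ((deg_le_finite l).prod (deg_le_finite l)).subset (fun w hw => ⟨hw.2.2.1, ?_⟩)
  show w.2.natDegree ≤ l
  exact natDegree_le_of_degree_le hw.2.2.2.1.le

/-- The number of elements over a given pair of parts. -/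
theorem ZS_le_PS [Finite E] (hp : 3 ≤ p) (δ : E) (hδ : δ ≠ 0) (hδp : δ ^ p = -δ) (e : ZMod p)
    (he : algebraMap (ZMod p) E e = δ ^ 2) (τ : ZMod p) (Q : (ZMod p)[X]) (l : ℕ) :
    (ZS (E := E) p τ Q l).ncard ≤ 4 ^ l * (p + 1) * (PS p τ e Q l).ncard := by
  classical
  have hdec := fun z (hz : z ∈ ZS (E := E) p τ Q l) => decomp p hp δ hδ hδp e he τ Q l z hz
  choose! G H hGH using hdec
  refine ncard_le_of_fibre (ZS_finite p τ Q l) (fun z => (G z, H z)) (PS_finite p τ e Q l) ?_ _ ?_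
  · intro z hz
    obtain ⟨h1, h2, h3, h4, h5, h6, h7⟩ := hGH z hz
    exact ⟨h2, h3, h4, h5, h6, sq_dvd p τ e Q l _ _ z.2 h6 hz.2.2.2.2.2.2.1 h7,
      top_coeff p τ e l _ _ z.2 h2 h3 hz.2.2.2.1 h7⟩
  · rintro ⟨g, h⟩ -
    set S : Set (E[X] × E[X]) := {z | z ∈ ZS (E := E) p τ Q l ∧ (G z, H z) = (g, h)} with hS
    rcases S.eq_empty_or_nonempty with hS0 | ⟨z0, hz0⟩
    · rw [hS0, Set.ncard_empty]; positivity
    have hSe : ∀ z ∈ S, X * z.2 * bar p z.2 = X * z0.2 * bar p z0.2 ∧ z.1 = z0.1 := by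
      intro z hz
      obtain ⟨hz1, hz2⟩ := hz
      obtain ⟨hz01, hz02⟩ := hz0
      simp only [Prod.mk.injEq] at hz2 hz02
      obtain ⟨h1, h2, h3, h4, h5, h6, h7⟩ := hGH z hz1
      obtain ⟨h1', h2', h3', h4', h5', h6', h7'⟩ := hGH z0 hz01
      rw [hz2.1, hz2.2] at h1 h7
      rw [hz02.1, hz02.2] at h1' h7'
      exact ⟨h7.symm.trans h7', h1.trans h1'.symm⟩
    have hmaps : ∀ z ∈ S, z.2 ∈ {b : E[X] | b * bar p b = z0.2 * bar p z0.2} := by
      intro z hz
      have h1 := (hSe z hz).1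
      rw [mul_assoc, mul_assoc] at h1
      exact mul_left_cancel₀ X_ne_zero h1
    have hinj : Set.InjOn (fun z : E[X] × E[X] => z.2) S := by
      intro z hz w hw hzw
      exact Prod.ext ((hSe z hz).2.trans (hSe w hw).2.symm) hzw
    obtain ⟨hf, hc⟩ := norm_fibre p (z0.2 * bar p z0.2) (2 * l) (by
      intro hne
      have hb0 : z0.2 ≠ 0 := by rintro h; rw [h, zero_mul] at hne; exact hne rfl
      have h1 := hz0.1.2.2.2.1
      rw [degree_eq_natDegree hb0, Nat.cast_lt] at h1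
      refine natDegree_mul_le.trans ?_
      rw [natDegree_bar]
      omega)
    refine (Set.ncard_le_ncard_of_injOn _ hmaps hinj hf).trans (hc.trans ?_)
    rw [pow_mul]
    norm_num

end pairs


/-! ### Counting the pairs -/

section count

variable (p : ℕ) [Fact p.Prime]

theorem two_ne (hp : 3 ≤ p) : (2 : ZMod p) ≠ 0 := by
  intro h
  have h3 : ((2 : ℕ) : ZMod p) = 0 := by exact_mod_cast h
  rw [ZMod.natCast_eq_zero_iff] at h3
  have := Nat.le_of_dvd (by norm_num) h3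
  omega

theorem not_dvd_pi (τ : ZMod p) (hτ : τ ≠ 0) (f : (ZMod p)[X]) (hf : Irreducible f)
    (h1 : f.eval τ ≠ 0) : ¬ f ∣ (1 - C τ⁻¹ * X : (ZMod p)[X]) := by
  rintro ⟨q, hq⟩
  have e0 : (1 - C τ⁻¹ * X : (ZMod p)[X]).eval τ = 0 := by
    simp [inv_mul_cancel₀ hτ]
  have e1 : (1 - C τ⁻¹ * X : (ZMod p)[X]) ≠ 0 := by
    intro h
    have := congrArg (Polynomial.eval 0) h
    simp at this
  have hq0 : q ≠ 0 := by rintro rfl; rw [mul_zero] at hq; exact e1 hq
  have hd := congrArg natDegree hq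
  rw [natDegree_mul hf.ne_zero hq0] at hd
  have h2 := natDegree_pi p τ
  have h3 := hf.natDegree_pos
  have h4 : q.natDegree = 0 := by omega
  rw [hq, eval_mul] at e0
  have h5 : q.eval τ = 0 := (mul_eq_zero.mp e0).resolve_left h1
  rw [eq_C_of_natDegree_eq_zero h4, eval_C] at h5
  rw [eq_C_of_natDegree_eq_zero h4, h5, C_0] at hq0
  exact hq0 rfl

theorem dichotomy (hp : 3 ≤ p) (τ : ZMod p) (hτ : τ ≠ 0) (Q : (ZMod p)[X]) (l : ℕ) (g : (ZMod p)[X])
    (hQ : Q ^ 2 ∣ g ^ 2 - (1 - C τ⁻¹ * X) ^ (2 * l)) (f : (ZMod p)[X]) (hf : Irreducible f)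
    (h1 : f.eval τ ≠ 0) (hfQ : f ∣ Q) :
    f ^ 2 ∣ g - (1 - C τ⁻¹ * X) ^ l ∨ f ^ 2 ∣ g + (1 - C τ⁻¹ * X) ^ l := by
  have h2 : f ^ 2 ∣ (g - (1 - C τ⁻¹ * X) ^ l) * (g + (1 - C τ⁻¹ * X) ^ l) := by
    have e : (g - (1 - C τ⁻¹ * X) ^ l) * (g + (1 - C τ⁻¹ * X) ^ l)
        = g ^ 2 - (1 - C τ⁻¹ * X) ^ (2 * l) := by rw [mul_comm 2 l, pow_mul]; ring
    rw [e]
    exact (pow_dvd_pow_of_dvd hfQ 2).trans hQ
  by_cases h3 : f ∣ g - (1 - C τ⁻¹ * X) ^ l
  · left
    have h4 : ¬ f ∣ g + (1 - C τ⁻¹ * X) ^ l := by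
      intro h5
      have h6 := dvd_sub h5 h3
      have e : g + (1 - C τ⁻¹ * X) ^ l - (g - (1 - C τ⁻¹ * X) ^ l) = C 2 * (1 - C τ⁻¹ * X) ^ l := by
        rw [map_ofNat C 2]; ring
      rw [e] at h6
      have hu : IsUnit (C (2 : ZMod p)) := isUnit_C.mpr (Ne.isUnit (two_ne p hp))
      rw [hu.dvd_mul_left] at h6
      exact not_dvd_pi p τ hτ f hf h1 (hf.prime.dvd_of_dvd_pow h6)
    have h5 : IsCoprime (f ^ 2) (g + (1 - C τ⁻¹ * X) ^ l) :=
      ((hf.coprime_iff_not_dvd).mpr h4).pow_left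
    exact h5.dvd_of_dvd_mul_right h2
  · right
    have h5 : IsCoprime (f ^ 2) (g - (1 - C τ⁻¹ * X) ^ l) :=
      ((hf.coprime_iff_not_dvd).mpr h3).pow_left
    exact h5.dvd_of_dvd_mul_left h2

theorem X_coprime (f : (ZMod p)[X]) (h0 : f.eval 0 ≠ 0) : IsCoprime (X : (ZMod p)[X]) f := by
  rw [irreducible_X.coprime_iff_not_dvd, X_dvd_iff, coeff_zero_eq_eval_zero]
  exact h0

variable {ι : Type} [Fintype ι] (P : ι → (ZMod p)[X]) (hirr : ∀ i, Irreducible (P i))
  (hmon : ∀ i, (P i).Monic) (hinj : Function.Injective P) (h0 : ∀ i, (P i).eval 0 ≠ 0)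

include hirr hmon hinj in
theorem pairwise_cop : Pairwise (fun i j => IsCoprime (P i ^ 2) (P j ^ 2)) := by
  intro i j hij
  refine IsCoprime.pow ?_
  rw [(hirr i).coprime_iff_not_dvd]
  intro h
  have h1 : Associated (P i) (P j) := (hirr i).associated_of_dvd (hirr j) h
  exact hij (hinj (eq_of_monic_of_associated (hmon i) (hmon j) h1))

include hirr hmon hinj h0 in
open Classical in
theorem class_dvd (hp : 3 ≤ p) (τ : ZMod p) (hτ : τ ≠ 0) (h1 : ∀ i, (P i).eval τ ≠ 0) (l : ℕ)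
    (g g' : (ZMod p)[X])
    (hg : (∏ i, P i) ^ 2 ∣ g ^ 2 - (1 - C τ⁻¹ * X) ^ (2 * l))
    (hg' : (∏ i, P i) ^ 2 ∣ g' ^ 2 - (1 - C τ⁻¹ * X) ^ (2 * l))
    (hgg : g.eval 0 = g'.eval 0)
    (hset : ∀ i, P i ^ 2 ∣ g - (1 - C τ⁻¹ * X) ^ l ↔ P i ^ 2 ∣ g' - (1 - C τ⁻¹ * X) ^ l) :
    X * (∏ i, P i) ^ 2 ∣ g - g' := by
  have hPi : ∀ i, P i ^ 2 ∣ g - g' := by
    intro i
    have hd : P i ∣ ∏ i, P i := Finset.dvd_prod_of_mem _ (Finset.mem_univ i)
    rcases dichotomy p hp τ hτ _ l g hg (P i) (hirr i) (h1 i) hd with h2 | h2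
    · have h3 := (hset i).mp h2
      have h4 := dvd_sub h2 h3
      have e : g - (1 - C τ⁻¹ * X) ^ l - (g' - (1 - C τ⁻¹ * X) ^ l) = g - g' := by ring
      rwa [e] at h4
    · by_cases h5 : P i ^ 2 ∣ g' - (1 - C τ⁻¹ * X) ^ l
      · have h3 := (hset i).mpr h5
        have h4 := dvd_sub h3 h5
        have e : g - (1 - C τ⁻¹ * X) ^ l - (g' - (1 - C τ⁻¹ * X) ^ l) = g - g' := by ring
        rwa [e] at h4
      · have h3 := (dichotomy p hp τ hτ _ l g' hg' (P i) (hirr i) (h1 i) hd).resolve_left h5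
        have h4 := dvd_sub h2 h3
        have e : g + (1 - C τ⁻¹ * X) ^ l - (g' + (1 - C τ⁻¹ * X) ^ l) = g - g' := by ring
        rwa [e] at h4
  have hQ : (∏ i, P i) ^ 2 ∣ g - g' := by
    rw [← Finset.prod_pow]
    exact Fintype.prod_dvd_of_coprime (pairwise_cop p P hirr hmon hinj) hPi
  have hX : (X : (ZMod p)[X]) ∣ g - g' := by
    rw [X_dvd_iff, coeff_zero_eq_eval_zero, eval_sub, hgg, sub_self]
  have hcop : IsCoprime (X : (ZMod p)[X]) ((∏ i, P i) ^ 2) :=
    (IsCoprime.prod_right (fun i _ => X_coprime p (P i) (h0 i))).pow_right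
  exact hcop.mul_dvd hX hQ

include h0 in
theorem class_dvd2 (h h' : (ZMod p)[X]) (hh : (∏ i, P i) ∣ h) (hh' : (∏ i, P i) ∣ h')
    (e : h.eval 0 = 0) (e' : h'.eval 0 = 0) : X * (∏ i, P i) ∣ h - h' := by
  have hX : (X : (ZMod p)[X]) ∣ h - h' := by
    rw [X_dvd_iff, coeff_zero_eq_eval_zero, eval_sub, e, e', sub_self]
  have hcop : IsCoprime (X : (ZMod p)[X]) (∏ i, P i) :=
    IsCoprime.prod_right (fun i _ => X_coprime p (P i) (h0 i))
  exact hcop.mul_dvd hX (dvd_sub hh hh')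

include hmon in
theorem monic_M (k : ℕ) : (X * (∏ i, P i) ^ k : (ZMod p)[X]).Monic ∧
    (X * (∏ i, P i) ^ k : (ZMod p)[X]).natDegree = k * (∏ i, P i).natDegree + 1 := by
  have hQ : (∏ i, P i).Monic := monic_prod_of_monic _ _ (fun i _ => hmon i)
  refine ⟨monic_X.mul (hQ.pow k), ?_⟩
  rw [monic_X.natDegree_mul (hQ.pow k), natDegree_X, hQ.natDegree_pow]
  ring

/-- The conic. -/
theorem conic_card {E : Type} [Field E] [CharP E p] [Algebra (ZMod p) E] (hp : 3 ≤ p) (δ : E)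
    (hδ : δ ≠ 0) (hδp : δ ^ p = -δ) (e : ZMod p) (he : algebraMap (ZMod p) E e = δ ^ 2) (c : ZMod p) :
    {x : ZMod p × ZMod p | x.1 ^ 2 - e * x.2 ^ 2 = c}.ncard ≤ p + 1 := by
  classical
  set φ := algebraMap (ZMod p) E with hφ
  have h2 : (2 : E) ≠ 0 := by
    have := two_ne p hp
    intro h
    apply this
    apply φ.injective
    rw [map_ofNat, map_zero, h]
  have hfr : ∀ x : ZMod p × ZMod p, (φ x.1 + δ * φ x.2) ^ p = φ x.1 - δ * φ x.2 := by
    intro x
    rw [add_pow_char, mul_pow, hδp, algMap_pow, algMap_pow]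
    ring
  have hmaps : ∀ x ∈ {x : ZMod p × ZMod p | x.1 ^ 2 - e * x.2 ^ 2 = c},
      φ x.1 + δ * φ x.2 ∈ ((nthRootsFinset (p + 1) (φ c) : Finset E) : Set E) := by
    intro x hx
    have hx' : x.1 ^ 2 - e * x.2 ^ 2 = c := hx
    rw [Finset.mem_coe, mem_nthRootsFinset (Nat.succ_pos p), pow_succ, hfr, ← hx', map_sub, map_mul,
      map_pow, map_pow, he]
    ring
  have hinj : Set.InjOn (fun x : ZMod p × ZMod p => φ x.1 + δ * φ x.2)
      {x : ZMod p × ZMod p | x.1 ^ 2 - e * x.2 ^ 2 = c} := by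
    intro x _ y _ hxy
    simp only at hxy
    have h3 := congrArg (fun t => t ^ p) hxy
    simp only [hfr] at h3
    have h4 : φ x.1 = φ y.1 := by
      apply mul_left_cancel₀ h2
      linear_combination hxy + h3
    have h5 : φ x.2 = φ y.2 := by
      apply mul_left_cancel₀ hδ
      apply mul_left_cancel₀ h2
      linear_combination hxy - h3
    exact Prod.ext (φ.injective h4) (φ.injective h5)
  refine (Set.ncard_le_ncard_of_injOn _ hmaps hinj (Finset.finite_toSet _)).trans ?_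
  rw [Set.ncard_coe_finset, nthRootsFinset_def]
  exact (Multiset.toFinset_card_le _).trans (card_nthRoots _ _)

theorem ncard_le_prod {α β : Type*} (s : Set (α × β)) (hs : s.Finite) (m n : ℕ)
    (h1 : (Prod.fst '' s).ncard ≤ m) (h2 : (Prod.snd '' s).ncard ≤ n) : s.ncard ≤ m * n := by
  have h3 : s ⊆ (Prod.fst '' s) ×ˢ (Prod.snd '' s) := fun x hx =>
    ⟨Set.mem_image_of_mem _ hx, Set.mem_image_of_mem _ hx⟩
  refine (Set.ncard_le_ncard h3 ((hs.image _).prod (hs.image _))).trans ?_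
  rw [Set.ncard_prod]
  exact Nat.mul_le_mul h1 h2

section cases

variable (hp : 3 ≤ p) (τ : ZMod p) (hτ : τ ≠ 0) (h1 : ∀ i, (P i).eval τ ≠ 0) (e : ZMod p) (l : ℕ)

open Classical in
/-- The set of the factors on which the rational part is `+ π ^ l`. -/
noncomputable def sgnSet (w : (ZMod p)[X] × (ZMod p)[X]) : Finset ι :=
  Finset.univ.filter (fun i => P i ^ 2 ∣ w.1 - (1 - C τ⁻¹ * X) ^ l)

theorem sgnSet_iff (w w' : (ZMod p)[X] × (ZMod p)[X]) (h : sgnSet p P τ l w = sgnSet p P τ l w') (i : ι) :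
    P i ^ 2 ∣ w.1 - (1 - C τ⁻¹ * X) ^ l ↔ P i ^ 2 ∣ w'.1 - (1 - C τ⁻¹ * X) ^ l := by
  have h2 : i ∈ sgnSet p P τ l w ↔ i ∈ sgnSet p P τ l w' := by rw [h]
  simpa [sgnSet] using h2

include hirr hmon hinj h0 hp hτ h1 in
theorem fst_dvd (s : Finset ι) :
    ∀ f ∈ Prod.fst '' {w | w ∈ PS p τ e (∏ i, P i) l ∧ sgnSet p P τ l w = s},
    ∀ g ∈ Prod.fst '' {w | w ∈ PS p τ e (∏ i, P i) l ∧ sgnSet p P τ l w = s},
      X * (∏ i, P i) ^ 2 ∣ f - g := by
  rintro _ ⟨w, ⟨hw, hws⟩, rfl⟩ _ ⟨w', ⟨hw', hws'⟩, rfl⟩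
  exact class_dvd p P hirr hmon hinj h0 hp τ hτ h1 l w.1 w'.1 hw.2.2.2.2.2.1 hw'.2.2.2.2.2.1
    (hw.2.2.1.trans hw'.2.2.1.symm) (sgnSet_iff p P τ l w w' (hws.trans hws'.symm))

include h0 in
theorem snd_dvd :
    ∀ f ∈ Prod.snd '' PS p τ e (∏ i, P i) l, ∀ g ∈ Prod.snd '' PS p τ e (∏ i, P i) l,
      X * (∏ i, P i) ^ 1 ∣ f - g := by
  rintro _ ⟨w, hw, rfl⟩ _ ⟨w', hw', rfl⟩
  rw [pow_one]
  exact class_dvd2 p P h0 w.2 w'.2 hw.2.2.2.2.1 hw'.2.2.2.2.1 hw.2.2.2.1 hw'.2.2.2.1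

theorem card_finset_univ : (Set.univ : Set (Finset ι)).ncard = 2 ^ Fintype.card ι := by
  rw [Set.ncard_univ, Nat.card_eq_fintype_card, Fintype.card_finset]

include hirr hmon hinj h0 hp hτ h1 in
/-- Case `l = u`. -/
theorem PS_eq (hl : l = (∏ i, P i).natDegree) :
    (PS p τ e (∏ i, P i) l).ncard ≤ 2 ^ Fintype.card ι := by
  obtain ⟨hM2, hd2⟩ := monic_M p P hmon 2
  obtain ⟨hM1, hd1⟩ := monic_M p P hmon 1
  have h := ncard_le_of_fibre (PS_finite p τ e (∏ i, P i) l) (sgnSet p P τ l)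
    (t := (Set.univ : Set (Finset ι))) (Set.toFinite _) (fun _ _ => Set.mem_univ _) 1 (by
      intro s _
      have hf : {w | w ∈ PS p τ e (∏ i, P i) l ∧ sgnSet p P τ l w = s}.Finite :=
        (PS_finite p τ e (∏ i, P i) l).subset (fun w hw => hw.1)
      have := ncard_le_prod _ hf 1 1
        (cong_card_one _ hM2 l (by rw [hd2]; omega) _
          (fst_dvd p P hirr hmon hinj h0 hp τ hτ h1 e l s)
          (by rintro _ ⟨w, hw, rfl⟩; exact hw.1.1)).2
        (cong_card_one _ hM1 l (by rw [hd1]; omega) _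
          (by
            rintro _ ⟨w, hw, rfl⟩ _ ⟨w', hw', rfl⟩
            exact snd_dvd p P h0 τ e l _ ⟨w, hw.1, rfl⟩ _ ⟨w', hw'.1, rfl⟩)
          (by rintro _ ⟨w, hw, rfl⟩; exact hw.1.2.1)).2
      simpa using this)
  rw [card_finset_univ, one_mul] at h
  exact h

include hirr hmon hinj h0 hp hτ h1 in
/-- Case `u < l ≤ 2 u`. -/
theorem PS_mid (he : e ≠ 0) (hl : (∏ i, P i).natDegree < l) (hl2 : l ≤ 2 * (∏ i, P i).natDegree) :
    (PS p τ e (∏ i, P i) l).ncard ≤
      (2 * p ^ (l - (∏ i, P i).natDegree - 1)) * 2 ^ Fintype.card ι := by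
  classical
  obtain ⟨hM2, hd2⟩ := monic_M p P hmon 2
  obtain ⟨hM1, hd1⟩ := monic_M p P hmon 1
  have h := ncard_le_of_fibre (PS_finite p τ e (∏ i, P i) l) (sgnSet p P τ l)
    (t := (Set.univ : Set (Finset ι))) (Set.toFinite _) (fun _ _ => Set.mem_univ _)
    (2 * p ^ (l - (∏ i, P i).natDegree - 1)) (by
      intro s _
      set S := {w | w ∈ PS p τ e (∏ i, P i) l ∧ sgnSet p P τ l w = s} with hSdef
      have hf : S.Finite := (PS_finite p τ e (∏ i, P i) l).subset (fun w hw => hw.1)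
      have hfst := (cong_card_one _ hM2 l (by rw [hd2]; omega) _
          (fst_dvd p P hirr hmon hinj h0 hp τ hτ h1 e l s)
          (by rintro _ ⟨w, hw, rfl⟩; exact hw.1.1))
      have hfst1 : (Prod.fst '' S).Subsingleton := by
        have := hfst.1.to_subtype
        exact Set.ncard_le_one_iff_subsingleton.mp hfst.2
      have hsnd : (Prod.snd '' S).ncard ≤ p ^ (l - (∏ i, P i).natDegree - 1) * 2 := by
        rcases S.eq_empty_or_nonempty with hS0 | ⟨w0, hw0⟩
        · rw [hS0, Set.image_empty, Set.ncard_empty]; positivity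
        set c : ZMod p := ((w0.1.coeff l) ^ 2 - (τ⁻¹) ^ (2 * l)) / e with hc
        have hroot : ∀ f ∈ Prod.snd '' S, f.coeff l ∈ ((nthRootsFinset 2 c : Finset (ZMod p)) : Set (ZMod p)) := by
          rintro _ ⟨w, hw, rfl⟩
          rw [Finset.mem_coe, mem_nthRootsFinset (by norm_num : 0 < 2), hc, eq_div_iff he]
          have h3 := hw.1.2.2.2.2.2.2
          have h4 : w.1 = w0.1 := hfst1 ⟨w, hw, rfl⟩ ⟨w0, hw0, rfl⟩
          rw [h4] at h3
          linear_combination -h3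
        have hcard2 : (((nthRootsFinset 2 c : Finset (ZMod p)) : Set (ZMod p))).ncard ≤ 2 := by
          rw [Set.ncard_coe_finset, nthRootsFinset_def]
          exact (Multiset.toFinset_card_le _).trans (card_nthRoots _ _)
        refine (ncard_le_of_fibre (hf.image _) (fun f => f.coeff l)
          (t := ((nthRootsFinset 2 c : Finset (ZMod p)) : Set (ZMod p))) (Finset.finite_toSet _) hroot
          (p ^ (l - (∏ i, P i).natDegree - 1)) ?_).trans (Nat.mul_le_mul le_rfl hcard2)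
        intro y _
        have h5 := (cong_card _ hM1 l (by rw [hd1]; omega) y
          {x | x ∈ Prod.snd '' S ∧ x.coeff l = y}
          (by
            rintro _ ⟨⟨w, hw, rfl⟩, _⟩ _ ⟨⟨w', hw', rfl⟩, _⟩
            exact snd_dvd p P h0 τ e l _ ⟨w, hw.1, rfl⟩ _ ⟨w', hw'.1, rfl⟩)
          (by rintro _ ⟨⟨w, hw, rfl⟩, _⟩; exact hw.1.2.1) (fun f hf => hf.2)).2
        rw [hd1, ZMod.card] at h5
        have e5 : l - (1 * (∏ i, P i).natDegree + 1) = l - (∏ i, P i).natDegree - 1 := by omega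
        rwa [e5] at h5
      have := ncard_le_prod _ hf 1 (p ^ (l - (∏ i, P i).natDegree - 1) * 2) hfst.2 hsnd
      rw [one_mul, mul_comm] at this
      exact this)
  rw [card_finset_univ] at h
  exact h

include hirr hmon hinj h0 hp hτ h1 in
/-- Case `l ≥ 2 u + 1`. -/
theorem PS_big {E : Type} [Field E] [CharP E p] [Algebra (ZMod p) E] (δ : E)
    (hδ : δ ≠ 0) (hδp : δ ^ p = -δ) (he : algebraMap (ZMod p) E e = δ ^ 2)
    (hl : 2 * (∏ i, P i).natDegree + 1 ≤ l) :
    (PS p τ e (∏ i, P i) l).ncard ≤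
      p ^ (2 * l - 3 * (∏ i, P i).natDegree - 2) * (2 ^ Fintype.card ι * (p + 1)) := by
  classical
  obtain ⟨hM2, hd2⟩ := monic_M p P hmon 2
  obtain ⟨hM1, hd1⟩ := monic_M p P hmon 1
  set T : Set (Finset ι × (ZMod p × ZMod p)) :=
    (Set.univ : Set (Finset ι)) ×ˢ {x : ZMod p × ZMod p | x.1 ^ 2 - e * x.2 ^ 2 = (τ⁻¹) ^ (2 * l)} with hT
  have h := ncard_le_of_fibre (PS_finite p τ e (∏ i, P i) l)
    (fun w => ((sgnSet p P τ l w, (w.1.coeff l, w.2.coeff l)) : Finset ι × (ZMod p × ZMod p)))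
    (t := T) (Set.toFinite _) (fun w hw => ⟨Set.mem_univ _, hw.2.2.2.2.2.2⟩)
    (p ^ (2 * l - 3 * (∏ i, P i).natDegree - 2)) (by
      rintro ⟨s, x, y⟩ _
      set S := {w | w ∈ PS p τ e (∏ i, P i) l ∧
        ((sgnSet p P τ l w, (w.1.coeff l, w.2.coeff l)) : Finset ι × (ZMod p × ZMod p)) = (s, x, y)}
        with hSdef
      have hS : ∀ w ∈ S, w ∈ PS p τ e (∏ i, P i) l ∧ sgnSet p P τ l w = s ∧ w.1.coeff l = x ∧
          w.2.coeff l = y := by
        intro w hw
        have h2 := hw.2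
        simp only [Prod.mk.injEq] at h2
        exact ⟨hw.1, h2.1, h2.2.1, h2.2.2⟩
      have hf : S.Finite := (PS_finite p τ e (∏ i, P i) l).subset (fun w hw => hw.1)
      have hfst := (cong_card _ hM2 l (by rw [hd2]; omega) x (Prod.fst '' S)
          (by
            rintro _ ⟨w, hw, rfl⟩ _ ⟨w', hw', rfl⟩
            exact fst_dvd p P hirr hmon hinj h0 hp τ hτ h1 e l s _ ⟨w, ⟨(hS w hw).1, (hS w hw).2.1⟩, rfl⟩
              _ ⟨w', ⟨(hS w' hw').1, (hS w' hw').2.1⟩, rfl⟩)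
          (by rintro _ ⟨w, hw, rfl⟩; exact hw.1.1)
          (by rintro _ ⟨w, hw, rfl⟩; exact (hS w hw).2.2.1)).2
      have hsnd := (cong_card _ hM1 l (by rw [hd1]; omega) y (Prod.snd '' S)
          (by
            rintro _ ⟨w, hw, rfl⟩ _ ⟨w', hw', rfl⟩
            exact snd_dvd p P h0 τ e l _ ⟨w, hw.1, rfl⟩ _ ⟨w', hw'.1, rfl⟩)
          (by rintro _ ⟨w, hw, rfl⟩; exact hw.1.2.1)
          (by rintro _ ⟨w, hw, rfl⟩; exact (hS w hw).2.2.2)).2
      rw [hd2, ZMod.card] at hfst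
      rw [hd1, ZMod.card] at hsnd
      refine (ncard_le_prod _ hf _ _ hfst hsnd).trans (le_of_eq ?_)
      rw [← pow_add]
      congr 1
      omega)
  have hTc : T.ncard ≤ 2 ^ Fintype.card ι * (p + 1) := by
    rw [hT, Set.ncard_prod, card_finset_univ]
    exact Nat.mul_le_mul le_rfl (conic_card p hp δ hδ hδp e he _)
  exact h.trans (Nat.mul_le_mul le_rfl hTc)

/-- Case `l < u`. -/
theorem ZS_lt {E : Type} [Field E] [CharP E p] [Algebra (ZMod p) E] (hp : 3 ≤ p) (δ : E)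
    (hδ : δ ≠ 0) (hδp : δ ^ p = -δ) (τ : ZMod p) (Q : (ZMod p)[X]) (hQ0 : Q ≠ 0) (l : ℕ)
    (hl : l < Q.natDegree) (z : E[X] × E[X]) (hz : z ∈ ZS p τ Q l) :
    z = ((1 - C (algebraMap (ZMod p) E τ⁻¹) * X) ^ l, 0) := by
  obtain ⟨e, he⟩ := exists_e p δ hδp
  obtain ⟨g, h, hg, dg, dh, g0, hh0, hPh, heq⟩ := decomp p hp δ hδ hδp e he τ Q l z hz
  have hsq := sq_dvd p τ e Q l g h z.2 hPh hz.2.2.2.2.2.2.1 heq
  have hdeg : (g ^ 2 - (1 - C τ⁻¹ * X) ^ (2 * l) : (ZMod p)[X]).natDegree < (Q ^ 2).natDegree := by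
    rw [natDegree_pow]
    have h2 : (g ^ 2).natDegree ≤ 2 * l := by
      rw [natDegree_pow]; omega
    have h3 : ((1 - C τ⁻¹ * X : (ZMod p)[X]) ^ (2 * l)).natDegree ≤ 2 * l := by
      rw [natDegree_pow]
      have := natDegree_pi p τ
      nlinarith
    have h4 := natDegree_sub_le (g ^ 2) ((1 - C τ⁻¹ * X : (ZMod p)[X]) ^ (2 * l))
    omega
  have hzero : g ^ 2 - (1 - C τ⁻¹ * X) ^ (2 * l) = 0 := eq_zero_of_dvd_of_natDegree_lt hsq hdeg
  have heq2 : (-(C e * h ^ 2)).map (algebraMap (ZMod p) E) = X * z.2 * bar p z.2 := by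
    rw [← heq]
    congr 1
    linear_combination -hzero
  have e0 : e ≠ 0 := by
    rintro rfl
    rw [map_zero] at he
    exact hδ (pow_eq_zero_iff (two_ne_zero)|>.mp he.symm)
  have hb : z.2 = 0 := by
    by_contra hb
    have d1 : (X * z.2 * bar p z.2).natDegree = 1 + z.2.natDegree + z.2.natDegree := by
      rw [natDegree_mul (mul_ne_zero X_ne_zero hb) (fun h => hb ((bar_eq_zero p).mp h)),
        natDegree_mul X_ne_zero hb, natDegree_X, natDegree_bar]
    rw [← heq2, natDegree_map, natDegree_neg, natDegree_C_mul e0, natDegree_pow] at d1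
    omega
  have hh : h = 0 := by
    rw [hb] at heq2
    simp only [mul_zero, zero_mul] at heq2
    rw [Polynomial.map_eq_zero, neg_eq_zero, mul_eq_zero, C_eq_zero] at heq2
    exact pow_eq_zero_iff (two_ne_zero)|>.mp (heq2.resolve_left e0)
  have hg2 : g = (1 - C τ⁻¹ * X) ^ l := by
    have h5 : (g - (1 - C τ⁻¹ * X) ^ l) * (g + (1 - C τ⁻¹ * X) ^ l) = 0 := by
      rw [← hzero, mul_comm 2 l, pow_mul]; ring
    rcases mul_eq_zero.mp h5 with h6 | h6
    · exact sub_eq_zero.mp h6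
    · exfalso
      have h7 := congrArg (Polynomial.eval 0) h6
      rw [eval_add, g0] at h7
      simp only [eval_pow, eval_sub, eval_one, eval_mul, eval_C, eval_X, mul_zero, sub_zero, one_pow,
        eval_zero] at h7
      apply two_ne p hp
      rw [← h7]; norm_num
  refine Prod.ext ?_ hb
  rw [hg, hg2, hh]
  simp [Polynomial.map_pow]

end cases

end count

end HC

/-- **Counting lemma** (row H2), the four ranges of `l`, `u = natDegree (∏ P i)`. -/
theorem ZS_count {p : ℕ} [Fact p.Prime] (hp : 3 ≤ p) {E : Type} [Field E] [Finite E] [CharP E p]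
    [Algebra (ZMod p) E] (hδ : ∃ δ : E, δ ≠ 0 ∧ δ ^ p = -δ) (τ : ZMod p) (hτ : τ ≠ 0)
    {ι : Type} [Fintype ι] (P : ι → (ZMod p)[X]) (hirr : ∀ i, Irreducible (P i))
    (hmon : ∀ i, (P i).Monic) (hinj : Function.Injective P) (h0 : ∀ i, (P i).eval 0 ≠ 0)
    (h1 : ∀ i, (P i).eval τ ≠ 0) (l : ℕ) :
    (ZS (E := E) p τ (∏ i, P i) l).Finite ∧
    (l < (∏ i, P i).natDegree → ∀ z ∈ ZS (E := E) p τ (∏ i, P i) l,
      z = ((1 - C (algebraMap (ZMod p) E τ⁻¹) * X) ^ l, 0)) ∧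
    (l = (∏ i, P i).natDegree → (ZS (E := E) p τ (∏ i, P i) l).ncard ≤
      2 ^ Fintype.card ι * 4 ^ l * (p + 1)) ∧
    ((∏ i, P i).natDegree < l → l ≤ 2 * (∏ i, P i).natDegree →
      (ZS (E := E) p τ (∏ i, P i) l).ncard ≤
        2 ^ Fintype.card ι * 4 ^ l * (2 * (p + 1) * p ^ (l - (∏ i, P i).natDegree - 1))) ∧
    (2 * (∏ i, P i).natDegree + 1 ≤ l → (ZS (E := E) p τ (∏ i, P i) l).ncard ≤
      2 ^ Fintype.card ι * 4 ^ l * ((p + 1) ^ 2 * p ^ (2 * l - 3 * (∏ i, P i).natDegree - 2))) := by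
  obtain ⟨δ, hδ0, hδp⟩ := hδ
  obtain ⟨e, he⟩ := HC.exists_e p δ hδp
  have e0 : e ≠ 0 := by
    rintro rfl
    rw [map_zero] at he
    exact hδ0 (pow_eq_zero_iff (two_ne_zero)|>.mp he.symm)
  have hQ : (∏ i, P i).Monic := monic_prod_of_monic _ _ (fun i _ => hmon i)
  have hle := HC.ZS_le_PS (E := E) p hp δ hδ0 hδp e he τ (∏ i, P i) l
  refine ⟨HC.ZS_finite p τ _ l, fun hl z hz => HC.ZS_lt p hp δ hδ0 hδp τ _ hQ.ne_zero l hl z hz,
    fun hl => ?_, fun hl hl2 => ?_, fun hl => ?_⟩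
  · refine (hle.trans (Nat.mul_le_mul le_rfl
      (HC.PS_eq p P hirr hmon hinj h0 hp τ hτ h1 e l hl))).trans (le_of_eq ?_)
    ring
  · refine (hle.trans (Nat.mul_le_mul le_rfl
      (HC.PS_mid p P hirr hmon hinj h0 hp τ hτ h1 e l e0 hl hl2))).trans (le_of_eq ?_)
    ring
  · refine (hle.trans (Nat.mul_le_mul le_rfl
      (HC.PS_big p P hirr hmon hinj h0 hp τ hτ h1 e l δ hδ0 hδp he hl))).trans (le_of_eq ?_)
    ring

end Pool.Agent.SRL
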