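import Pool.Agent.SRL.HostTp

/-! # Host: the group of the names of a class (cross ratio) -/

set_option autoImplicit false
set_option linter.unusedSectionVars false
set_option linter.unusedVariables false

namespace Pool.Agent.SRL.HX

open Polynomial

section cross

variable {E : Type} [Field E] {P : Type}

/-- product of differences -/
def cA (v : P → E) (x y z w : P) : E := (v x - v z) * (v y - v w)

/-- product of differences -/
def cB (v : P → E) (x y z w : P) : E := (v x - v w) * (v y - v z)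

/-- the permutation preserves the cross ratio -/
def Pres (v : P → E) (π : Equiv.Perm P) : Prop :=
  ∀ x y z w, cA v x y z w * cB v (π x) (π y) (π z) (π w) =
    cB v x y z w * cA v (π x) (π y) (π z) (π w)

/-- permutations preserving the cross ratio -/
def crG (v : P → E) (hv : Function.Injective v) : Subgroup (Equiv.Perm P) where
  carrier := {π | Pres v π}
  one_mem' := by
    intro x y z w
    simp only [Equiv.Perm.one_apply]
    ring
  mul_mem' := by
    intro a b ha hb x y z w
    have h1 := hb x y z w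
    have h2 := ha (b x) (b y) (b z) (b w)
    simp only [Equiv.Perm.mul_apply]
    by_cases hA : cA v (b x) (b y) (b z) (b w) = 0
    · rcases mul_eq_zero.1 hA with h | h
      · have h3 : x = z := b.injective (hv (sub_eq_zero.1 h))
        subst h3
        simp [cA, cB]
      · have h3 : y = w := b.injective (hv (sub_eq_zero.1 h))
        subst h3
        simp [cA, cB]
    by_cases hB : cB v (b x) (b y) (b z) (b w) = 0
    · rcases mul_eq_zero.1 hB with h | h
      · have h3 : x = w := b.injective (hv (sub_eq_zero.1 h))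
        subst h3
        simp [cA, cB]
      · have h3 : y = z := b.injective (hv (sub_eq_zero.1 h))
        subst h3
        simp [cA, cB]
    apply mul_left_cancel₀ (mul_ne_zero hA hB)
    linear_combination (cA v (b x) (b y) (b z) (b w) * cB v (a (b x)) (a (b y)) (a (b z)) (a (b w))) * h1 +
      (cB v x y z w * cA v (b x) (b y) (b z) (b w)) * h2
  inv_mem' := by
    intro a ha x y z w
    have h := ha (a⁻¹ x) (a⁻¹ y) (a⁻¹ z) (a⁻¹ w)
    have hi : ∀ x, a (a⁻¹ x) = x := fun x => a.apply_symm_apply x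
    rw [hi, hi, hi, hi] at h
    linear_combination - h

theorem mem_crG_of (v : P → E) (hv : Function.Injective v) (π : Equiv.Perm P) (Δ : E) (u : P → E)
    (h : ∀ x y, v (π x) - v (π y) = Δ * (v x - v y) * u x * u y) : π ∈ crG v hv := by
  intro x y z w
  rw [cA, cB, cA, cB, h, h, h, h]
  ring

/-- preserving permutations are determined by the images of three points -/
theorem crG_ext (v : P → E) (hv : Function.Injective v) {π σ : Equiv.Perm P} (hπ : π ∈ crG v hv)
    (hσ : σ ∈ crG v hv) {x y z : P} (hxy : x ≠ y) (hxz : x ≠ z) (hyz : y ≠ z) (h1 : π x = σ x)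
    (h2 : π y = σ y) (h3 : π z = σ z) : π = σ := by
  refine Equiv.ext fun w => ?_
  have e1 := hπ x y z w
  have e2 := hσ x y z w
  rw [← h1, ← h2, ← h3] at e2
  simp only [cA, cB] at e1 e2
  have n1 : v (π x) - v (π y) ≠ 0 := sub_ne_zero.2 (hv.ne (π.injective.ne hxy))
  have n2 : v (π x) - v (π z) ≠ 0 := sub_ne_zero.2 (hv.ne (π.injective.ne hxz))
  have n3 : v (π y) - v (π z) ≠ 0 := sub_ne_zero.2 (hv.ne (π.injective.ne hyz))
  have m1 : v x - v y ≠ 0 := sub_ne_zero.2 (hv.ne hxy)
  have m2 : v x - v z ≠ 0 := sub_ne_zero.2 (hv.ne hxz)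
  have m3 : v y - v z ≠ 0 := sub_ne_zero.2 (hv.ne hyz)
  set c1 := (v x - v z) * (v y - v w) * (v (π y) - v (π z)) with hc1
  set c2 := (v x - v w) * (v y - v z) * (v (π x) - v (π z)) with hc2
  have f1 : c1 * (v (π x) - v (π w)) = c2 * (v (π y) - v (π w)) := by
    rw [hc1, hc2]; linear_combination e1
  have f2 : c1 * (v (π x) - v (σ w)) = c2 * (v (π y) - v (σ w)) := by
    rw [hc1, hc2]; linear_combination e2
  have hne : c1 - c2 ≠ 0 := by
    intro h0
    have h0' : c1 = c2 := sub_eq_zero.1 h0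
    have : c1 * (v (π x) - v (π y)) = 0 := by
      rw [← h0'] at f1; linear_combination f1
    have hc10 : c1 = 0 := (mul_eq_zero.1 this).resolve_right n1
    have hc20 : c2 = 0 := by rw [← h0', hc10]
    rw [hc1] at hc10
    rw [hc2] at hc20
    have g1 : v y - v w = 0 := by
      rcases mul_eq_zero.1 hc10 with h | h
      · rcases mul_eq_zero.1 h with h | h
        · exact absurd h m2
        · exact h
      · exact absurd h n3
    have g2 : v x - v w = 0 := by
      rcases mul_eq_zero.1 hc20 with h | h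
      · rcases mul_eq_zero.1 h with h | h
        · exact h
        · exact absurd h m3
      · exact absurd h n2
    exact m1 (by linear_combination g2 - g1)
  apply hv
  apply mul_left_cancel₀ hne
  linear_combination f2 - f1

/-- number of preserving permutations -/
theorem card_crG_le [Fintype P] (v : P → E) (hv : Function.Injective v) (h3 : 3 ≤ Fintype.card P) :
    Nat.card (crG v hv) ≤ Fintype.card P * (Fintype.card P - 1) * (Fintype.card P - 2) := by
  classical
  obtain ⟨e⟩ : Nonempty (Fin 3 ↪ P) := by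
    rw [Function.Embedding.nonempty_iff_card_le, Fintype.card_fin]
    exact h3
  have h01 : e 0 ≠ e 1 := e.injective.ne (by decide)
  have h02 : e 0 ≠ e 2 := e.injective.ne (by decide)
  have h12 : e 1 ≠ e 2 := e.injective.ne (by decide)
  have hinj : Function.Injective (fun π : crG v hv => e.trans π.1.toEmbedding) := by
    intro a b hab
    have h : ∀ i, a.1 (e i) = b.1 (e i) := fun i => congrArg (fun f : Fin 3 ↪ P => f i) hab
    exact Subtype.ext (crG_ext v hv a.2 b.2 h01 h02 h12 (h 0) (h 1) (h 2))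
  have hc := Nat.card_le_card_of_injective _ hinj
  rw [Nat.card_eq_fintype_card (α := Fin 3 ↪ P), Fintype.card_embedding_eq, Fintype.card_fin] at hc
  refine hc.trans (le_of_eq ?_)
  simp only [Nat.descFactorial]
  simp only [Nat.sub_zero, mul_one]
  ring

/-- from transitivity of the stabilisers to double transitivity -/
theorem twoTrans_of [Fintype P] (G : Subgroup (Equiv.Perm P)) (h3 : 3 ≤ Fintype.card P)
    (h : ∀ x0 y y' : P, y ≠ x0 → y' ≠ x0 → ∃ g ∈ G, g x0 = x0 ∧ g y = y') :
    ∀ x y x' y' : P, x ≠ y → x' ≠ y' → ∃ g ∈ G, g x = x' ∧ g y = y' := by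
  classical
  intro x y x' y' hxy hxy'
  obtain ⟨g1, hg1, h1⟩ : ∃ g ∈ G, g x = x' := by
    by_cases hx : x = x'
    · exact ⟨1, G.one_mem, hx⟩
    · obtain ⟨z, hz⟩ : ∃ z, z ∉ ({x, x'} : Finset P) := by
        by_contra hcon
        push Not at hcon
        have h5 : (Finset.univ : Finset P) ⊆ {x, x'} := fun z _ => hcon z
        have h4 : Fintype.card P ≤ 2 := (Finset.card_le_card h5).trans Finset.card_le_two
        omega
      simp only [Finset.mem_insert, Finset.mem_singleton, not_or] at hz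
      obtain ⟨g, hg, _, h2⟩ := h z x x' (Ne.symm hz.1) (Ne.symm hz.2)
      exact ⟨g, hg, h2⟩
  have h2 : g1 y ≠ x' := by
    rw [← h1]
    exact g1.injective.ne hxy.symm
  obtain ⟨g2, hg2, h3, h4⟩ := h x' (g1 y) y' h2 hxy'.symm
  exact ⟨g2 * g1, G.mul_mem hg2 hg1, by simp [h1, h3], by simp [h4]⟩

end cross

section unip

variable (p : ℕ) [hp : Fact p.Prime] {E : Type} [Field E] [CharP E p]

/-- coordinate of a unit: `w = 1 / (ρ - 1)`, `w + w ^ p = -1` -/
theorem w_add {ρ : E} (h : ρ * ρ ^ p = 1) (h1 : ρ ≠ 1) : (ρ - 1)⁻¹ + ((ρ - 1)⁻¹) ^ p = -1 := by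
  have h0 : ρ ≠ 0 := by
    rintro rfl
    simp at h
  have hp' : ρ ^ p = ρ⁻¹ := eq_inv_of_mul_eq_one_right h
  have h2 : ρ - 1 ≠ 0 := sub_ne_zero.2 h1
  have h3 : 1 - ρ ≠ 0 := sub_ne_zero.2 (Ne.symm h1)
  rw [inv_pow, pow_p_sub, one_pow, hp']
  have h4 : ρ⁻¹ - 1 ≠ 0 := by
    intro h5
    have : ρ⁻¹ = 1 := sub_eq_zero.1 h5
    exact h1 (inv_eq_one.1 this)
  have e1 : ρ⁻¹ - 1 = (1 - ρ) / ρ := by field_simp
  rw [e1, inv_div]
  field_simp
  ring

theorem den_ne {ρ c : E} (hpo : Odd p) (h : ρ * ρ ^ p = 1) (hc : c ^ p = -c) :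
    1 + c * (ρ - 1) ≠ 0 := by
  by_cases h1 : ρ = 1
  · simp [h1]
  intro h0
  have h2 : ρ - 1 ≠ 0 := sub_ne_zero.2 h1
  have h3 : (ρ - 1)⁻¹ = -c := by
    rw [inv_eq_iff_eq_inv, ← one_div, eq_div_iff]
    · linear_combination - h0
    · intro h4
      rw [neg_eq_zero] at h4
      rw [h4] at h0
      simp at h0
  have h4 := w_add p h h1
  rw [h3, hpo.neg_pow, hc, neg_neg, neg_add_cancel] at h4
  exact one_ne_zero (neg_eq_zero.1 h4.symm)

/-- the unipotent map preserves the norm -/
theorem unip_norm {ρ c : E} (hpo : Odd p) (h : ρ * ρ ^ p = 1) (hc : c ^ p = -c) :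
    (1 + (ρ - 1) / (1 + c * (ρ - 1))) * (1 + (ρ - 1) / (1 + c * (ρ - 1))) ^ p = 1 := by
  have h0 : ρ ≠ 0 := by
    rintro rfl
    simp at h
  have hp' : ρ ^ p = ρ⁻¹ := eq_inv_of_mul_eq_one_right h
  have hd := den_ne p hpo h hc
  have hd' : (1 + c * (ρ - 1)) ^ p = (ρ + c * (ρ - 1)) / ρ := by
    rw [pow_p_add, mul_pow, pow_p_sub, hc, hp', one_pow]
    field_simp
    ring
  have hd2 : ρ + c * (ρ - 1) ≠ 0 := by
    intro h1
    rw [h1, zero_div] at hd'
    exact hd (pow_eq_zero_iff hp.out.ne_zero |>.1 hd')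
  have e1 : (1 + (ρ - 1) / (1 + c * (ρ - 1))) ^ p = (1 + c * (ρ - 1)) / (ρ + c * (ρ - 1)) := by
    rw [pow_p_add, div_pow, pow_p_sub, one_pow, hd', hp']
    field_simp
    ring
  rw [e1]
  generalize hX : 1 + c * (ρ - 1) = X at hd
  generalize hY : ρ + c * (ρ - 1) = Y at hd2
  have : Y = X + (ρ - 1) := by rw [← hX, ← hY]; ring
  field_simp
  rw [this]

/-- the cross ratio group of the names is doubly transitive -/
theorem crG_trans [Fintype E] (hpo : Odd p) {τ : E} (hτ : τ ≠ 0) {P : Type} [Fintype P]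
    (e : P ≃ Nm p τ) (x0 y y' : P) (hy : y ≠ x0) (hy' : y' ≠ x0) :
    ∃ g ∈ crG (fun x : P => (e x).1) (fun a b h => e.injective (Subtype.ext h)),
      g x0 = x0 ∧ g y = y' := by
  set v : P → E := fun x => (e x).1 with hv
  have hinj : Function.Injective v := fun a b h => e.injective (Subtype.ext h)
  have hnm : ∀ x, v x * (v x) ^ p = τ⁻¹ := fun x => nm_mul p (e x).2
  have hv0 : ∀ x, v x ≠ 0 := fun x => nm_ne p hτ (e x).2
  have hrho : ∀ x, (v x / v x0) * (v x / v x0) ^ p = 1 := by
    intro x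
    rw [div_pow, div_mul_div_comm, hnm, hnm, div_self (inv_ne_zero hτ)]
  have hne : ∀ x, x ≠ x0 → v x / v x0 ≠ 1 := by
    intro x hx h
    rw [div_eq_one_iff_eq (hv0 x0)] at h
    exact hx (hinj h)
  set c : E := (v y' / v x0 - 1)⁻¹ - (v y / v x0 - 1)⁻¹ with hcdef
  have hc : c ^ p = -c := by
    have h1 := w_add p (hrho y) (hne y hy)
    have h2 := w_add p (hrho y') (hne y' hy')
    rw [hcdef, pow_p_sub]
    linear_combination h2 - h1
  -- the map on values
  have hex : ∀ x, ∃ z : P, v z = v x0 * (1 + (v x / v x0 - 1) / (1 + c * (v x / v x0 - 1))) := by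
    intro x
    refine ⟨e.symm ⟨v x0 * (1 + (v x / v x0 - 1) / (1 + c * (v x / v x0 - 1))), ?_⟩, ?_⟩
    · have h1 := unip_norm p hpo (hrho x) hc
      have h2 := hnm x0
      rw [pow_succ, mul_comm, mul_pow]
      calc v x0 * (1 + (v x / v x0 - 1) / (1 + c * (v x / v x0 - 1))) *
            ((v x0) ^ p * (1 + (v x / v x0 - 1) / (1 + c * (v x / v x0 - 1))) ^ p)
          = (v x0 * (v x0) ^ p) * ((1 + (v x / v x0 - 1) / (1 + c * (v x / v x0 - 1))) *
            (1 + (v x / v x0 - 1) / (1 + c * (v x / v x0 - 1))) ^ p) := by ring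
        _ = τ⁻¹ := by rw [h1, h2, mul_one]
    · simp only [hv, Equiv.apply_symm_apply]
  choose π hπ using hex
  have hdiff : ∀ x z, v (π x) - v (π z) = 1 * (v x - v z) * (1 + c * (v x / v x0 - 1))⁻¹ *
      (1 + c * (v z / v x0 - 1))⁻¹ := by
    intro x z
    have d1 := den_ne p hpo (hrho x) hc
    have d2 := den_ne p hpo (hrho z) hc
    have d0 := hv0 x0
    have e1 : v x = v x0 * (v x / v x0) := by field_simp
    have e2 : v z = v x0 * (v z / v x0) := by field_simp
    rw [hπ, hπ]
    conv_rhs => rw [e1, e2]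
    rw [← e1, ← e2]
    generalize v x / v x0 = r at *
    generalize v z / v x0 = s at *
    generalize hR : 1 + c * (r - 1) = R at *
    generalize hS : 1 + c * (s - 1) = S at *
    have : (r - 1) * S - (s - 1) * R = r - s := by rw [← hR, ← hS]; ring
    field_simp
    linear_combination (v x0) * this - e1 + e2
  have hpinj : Function.Injective π := by
    intro x z h
    have h1 := hdiff x z
    rw [h, sub_self] at h1
    have d1 := inv_ne_zero (den_ne p hpo (hrho x) hc)
    have d2 := inv_ne_zero (den_ne p hpo (hrho z) hc)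
    have h2 : v x - v z = 0 := by
      rcases mul_eq_zero.1 h1.symm with h3 | h3
      · rcases mul_eq_zero.1 h3 with h4 | h4
        · simpa using h4
        · exact absurd h4 d1
      · exact absurd h3 d2
    exact hinj (sub_eq_zero.1 h2)
  set g : Equiv.Perm P := Equiv.ofBijective π (Finite.injective_iff_bijective.1 hpinj) with hg
  have hgx : ∀ x, g x = π x := fun x => rfl
  refine ⟨g, mem_crG_of v hinj g 1 (fun x => (1 + c * (v x / v x0 - 1))⁻¹) ?_, ?_, ?_⟩
  · intro x z
    rw [hgx, hgx]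
    exact hdiff x z
  · apply hinj
    rw [hgx, hπ, div_self (hv0 x0)]
    simp
  · apply hinj
    rw [hgx, hπ]
    have d1 := den_ne p hpo (hrho y) hc
    have n1 : v y / v x0 - 1 ≠ 0 := sub_ne_zero.2 (hne y hy)
    have n2 : v y' / v x0 - 1 ≠ 0 := sub_ne_zero.2 (hne y' hy')
    have d0 := hv0 x0
    have e2 : v y' = v x0 * (v y' / v x0) := by field_simp
    rw [e2]
    congr 1
    generalize v y / v x0 = r at *
    generalize v y' / v x0 = s at *
    have h1 : 1 + c * (r - 1) = (r - 1) / (s - 1) := by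
      rw [hcdef]
      field_simp
      ring
    rw [h1, div_div_eq_mul_div, mul_comm, mul_div_assoc, div_self n1]
    ring

end unip

end Pool.Agent.SRL.HX
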