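import Pool.Agent.SRL.HostSys

/-! # Host: evaluation of words -/

set_option autoImplicit false
set_option linter.unusedSectionVars false
set_option linter.unusedVariables false

namespace Pool.Agent.SRL.HE

open Polynomial

section bars

variable (p : ℕ) [hp : Fact p.Prime] {E : Type} [Field E] [CharP E p]

theorem bar_C (x : E) : bar p (C x) = C (x ^ p) := by
  rw [bar, Polynomial.map_C, frobenius_def]

theorem bar_X : bar p (X : E[X]) = X := by
  rw [bar, Polynomial.map_X]

theorem bar_add (f g : E[X]) : bar p (f + g) = bar p f + bar p g := Polynomial.map_add _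

theorem bar_sub (f g : E[X]) : bar p (f - g) = bar p f - bar p g := Polynomial.map_sub _

theorem bar_mul (f g : E[X]) : bar p (f * g) = bar p f * bar p g := Polynomial.map_mul _

theorem bar_one : bar p (1 : E[X]) = 1 := Polynomial.map_one _

theorem bar_zero : bar p (0 : E[X]) = 0 := Polynomial.map_zero _

theorem bar_bar_zz (v : List E) (hv : ∀ η ∈ v, (η ^ p) ^ p = η) :
    bar p (bar p (zz p v).1) = (zz p v).1 ∧ bar p (bar p (zz p v).2) = (zz p v).2 := by
  induction v with
  | nil => simp [zz, bar_one, bar_zero]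
  | cons η v ih =>
    obtain ⟨h1, h2⟩ := ih (fun x hx => hv x (List.mem_cons_of_mem _ hx))
    have h3 := hv η List.mem_cons_self
    constructor
    · simp only [zz, bar_add, bar_mul, bar_C, bar_X, h1, h2, h3]
    · simp only [zz, bar_add, bar_mul, bar_C, h1, h2, h3]

/-- polynomials fixed by `bar` come from the prime field -/
theorem exists_map_eq [Algebra (ZMod p) E] (f : E[X]) (hf : bar p f = f) :
    ∃ g : (ZMod p)[X], g.map (algebraMap (ZMod p) E) = f := by
  rw [← Polynomial.mem_lifts, Polynomial.lifts_iff_coeff_lifts]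
  intro n
  have h1 : (f.coeff n) ^ p = f.coeff n := by
    conv_rhs => rw [← hf]
    rw [bar, Polynomial.coeff_map, frobenius_def]
  have h2 : f.coeff n ∈ (⊥ : Subfield E) := (Subfield.mem_bot_iff_pow_eq_self E p).2 h1
  rw [← ZMod.fieldRange_castHom_eq_bot p] at h2
  obtain ⟨c, hc⟩ := h2
  refine ⟨c, ?_⟩
  rw [← hc]
  exact congrArg (fun f : ZMod p →+* E => f c) (Subsingleton.elim _ _)

theorem dvd_of_fixed [Algebra (ZMod p) E] (f : E[X]) (hf : bar p f = f) (α : E)
    (h : f.eval α = 0) : (minpoly (ZMod p) α).map (algebraMap (ZMod p) E) ∣ f := by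
  obtain ⟨g, rfl⟩ := exists_map_eq p f hf
  refine Polynomial.map_dvd _ (minpoly.dvd _ _ ?_)
  rwa [Polynomial.aeval_def, Polynomial.eval₂_eq_eval_map]

theorem minpoly_dvd_of [Algebra (ZMod p) E] (hp2 : p ≠ 2) {δ : E} (hδ : δ ≠ 0) (hδp : δ ^ p = -δ)
    (f : E[X]) (hf : bar p (bar p f) = f) (α : E) (h1 : f.eval α = 0)
    (h2 : (bar p f).eval α = 0) : (minpoly (ZMod p) α).map (algebraMap (ZMod p) E) ∣ f := by
  have h20 : (2 : E) ≠ 0 := by
    intro h0
    have : ((2 : ℕ) : E) = 0 := by exact_mod_cast h0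
    rw [CharP.cast_eq_zero_iff E p] at this
    exact hp2 ((Nat.prime_dvd_prime_iff_eq hp.out Nat.prime_two).1 this)
  have hA : bar p (f + bar p f) = f + bar p f := by
    rw [bar_add, hf, add_comm]
  have hB : bar p (C δ * (f - bar p f)) = C δ * (f - bar p f) := by
    rw [bar_mul, bar_sub, bar_C, hδp, hf, C_neg]
    ring
  have dA := dvd_of_fixed p _ hA α (by rw [eval_add, h1, h2, add_zero])
  have dB := dvd_of_fixed p _ hB α (by rw [eval_mul, eval_sub, h1, h2, sub_zero, mul_zero])
  have dB' : (minpoly (ZMod p) α).map (algebraMap (ZMod p) E) ∣ f - bar p f := by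
    have := Dvd.dvd.mul_left dB (C δ⁻¹)
    rwa [← mul_assoc, ← C_mul, inv_mul_cancel₀ hδ, C_1, one_mul] at this
  have dC := (dA.add dB').mul_left (C (2 : E)⁻¹)
  have e1 : f + bar p f + (f - bar p f) = C (2 : E) * f := by
    have : (C (2 : E) : E[X]) = 2 := map_ofNat (C : E →+* E[X]) 2
    rw [this]; ring
  rwa [e1, ← mul_assoc, ← C_mul, inv_mul_cancel₀ h20, C_1, one_mul] at dC

/-- product of the letters -/
theorem gm_prod (α β : E) (v : List E) (hv : ∀ η ∈ v, (η ^ p) ^ p = η) :
    (v.map (gm p α β)).prod = !![β⁻¹ ^ v.length * (zz p v).1.eval α,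
      β⁻¹ ^ v.length * (α * (zz p v).2.eval α);
      β⁻¹ ^ v.length * (bar p (zz p v).2).eval α, β⁻¹ ^ v.length * (bar p (zz p v).1).eval α] := by
  induction v with
  | nil =>
    simp [zz, bar_one, bar_zero, Matrix.one_fin_two]
  | cons η v ih =>
    have hv' : ∀ x ∈ v, (x ^ p) ^ p = x := fun x hx => hv x (List.mem_cons_of_mem _ hx)
    obtain ⟨h1, h2⟩ := bar_bar_zz p v hv'
    rw [List.map_cons, List.prod_cons, ih hv', gm, Matrix.mul_fin_two]
    simp only [zz, bar_add, bar_mul, bar_C, bar_X, h1, h2, List.length_cons, eval_add, eval_mul,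
      eval_C, eval_X]
    ext i j
    fin_cases i <;> fin_cases j
    · simp
      ring
    · simp
      ring
    · simp
      ring
    · simp
      ring

/-- words with product one are central modulo the minimal polynomial -/
theorem central_of_prod [Algebra (ZMod p) E] (hp2 : p ≠ 2) {δ : E} (hδ : δ ≠ 0)
    (hδp : δ ^ p = -δ) {α β : E} (hα : α ≠ 0) (hβ : β ≠ 0) (v : List E)
    (hv : ∀ η ∈ v, (η ^ p) ^ p = η) (h : (v.map (gm p α β)).prod = 1) :
    Central p (minpoly (ZMod p) α) v := by
  obtain ⟨h1, h2⟩ := bar_bar_zz p v hv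
  rw [gm_prod p α β v hv] at h
  have hb : β⁻¹ ^ v.length ≠ 0 := pow_ne_zero _ (inv_ne_zero hβ)
  have e00 := congrFun (congrFun h 0) 0
  have e01 := congrFun (congrFun h 0) 1
  have e10 := congrFun (congrFun h 1) 0
  have e11 := congrFun (congrFun h 1) 1
  simp at e00 e01 e10 e11
  have f01 : (zz p v).2.eval α = 0 := by
    rcases e01 with h | h | h
    · exact absurd h.1 hβ
    · exact absurd h hα
    · exact h
  have f10 : (bar p (zz p v).2).eval α = 0 := by
    rcases e10 with h | h
    · exact absurd h.1 hβ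
    · exact h
  have f00 : (zz p v).1.eval α = (bar p (zz p v).1).eval α := by
    have : (β ^ v.length)⁻¹ * (zz p v).1.eval α = (β ^ v.length)⁻¹ * (bar p (zz p v).1).eval α := by
      rw [e00, e11]
    exact mul_left_cancel₀ (inv_ne_zero (pow_ne_zero _ hβ)) this
  refine ⟨minpoly_dvd_of p hp2 hδ hδp _ h2 α f01 f10, ?_⟩
  refine minpoly_dvd_of p hp2 hδ hδp _ ?_ α ?_ ?_
  · rw [bar_sub, bar_sub, h1]
  · rw [eval_sub, f00, sub_self]
  · rw [bar_sub, eval_sub, h1, f00, sub_self]

/-- action of a word on the names of a class `τ` -/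
theorem act_names {τ : E} (hτ : τ ≠ 0) {L : Type} {P : Type} (val : P → E) (let' : L → E)
    (hval : ∀ x, val x ^ (p + 1) = τ⁻¹) (T : L → Equiv.Perm P) (hlet : ∀ s, (let' s ^ p) ^ p = let' s)
    (hT : ∀ s x, val (T s x) * (1 - τ * let' s ^ p * val x) = val x - let' s)
    (v : List L) (x : P) :
    val (act T v x) * ((zz p (v.map let')).1.eval τ -
      τ * (bar p (zz p (v.map let')).2).eval τ * val x) =
      (bar p (zz p (v.map let')).1).eval τ * val x - (zz p (v.map let')).2.eval τ := by
  induction v generalizing x with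
  | nil => simp [act, zz, bar_one, bar_zero]
  | cons s v ih =>
    obtain ⟨h1, h2⟩ := bar_bar_zz p (v.map let') (by
      intro η hη
      obtain ⟨s, _, rfl⟩ := List.mem_map.1 hη
      exact hlet s)
    have ih' := ih (T s x)
    have ht := hT s x
    simp only [act, List.map_cons, zz, bar_add, bar_mul, bar_C, bar_X, h1, h2, eval_add, eval_mul,
      eval_C, eval_X]
    generalize (zz p (List.map let' v)).1.eval τ = a at *
    generalize (bar p (zz p (List.map let' v)).1).eval τ = a' at *
    generalize (zz p (List.map let' v)).2.eval τ = b at *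
    generalize (bar p (zz p (List.map let' v)).2).eval τ = b' at *
    generalize val (act T v (T s x)) = y at *
    generalize val (T s x) = z at *
    generalize val x = w at *
    generalize let' s = η at *
    generalize η ^ p = η' at *
    linear_combination (1 - τ * η' * w) * ih' + (a' + y * τ * b') * ht

/-- a quadratic polynomial with three different roots -/
theorem quad_zero {a b c x y z : E} (hxy : x ≠ y) (hxz : x ≠ z) (hyz : y ≠ z)
    (hx : a * x ^ 2 + b * x + c = 0) (hy : a * y ^ 2 + b * y + c = 0)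
    (hz : a * z ^ 2 + b * z + c = 0) : a = 0 ∧ b = 0 ∧ c = 0 := by
  have h1 : (x - y) * (a * (x + y) + b) = 0 := by linear_combination hx - hy
  have h2 : (x - z) * (a * (x + z) + b) = 0 := by linear_combination hx - hz
  have h1' := (mul_eq_zero.1 h1).resolve_left (sub_ne_zero.2 hxy)
  have h2' := (mul_eq_zero.1 h2).resolve_left (sub_ne_zero.2 hxz)
  have h3 : (y - z) * a = 0 := by linear_combination h1' - h2'
  have ha := (mul_eq_zero.1 h3).resolve_left (sub_ne_zero.2 hyz)
  have hb : b = 0 := by rw [ha, zero_mul, zero_add] at h1'; exact h1'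
  refine ⟨ha, hb, ?_⟩
  rw [ha, hb] at hx
  simpa using hx

/-- if a word acts trivially on three names of the class `τ`, it is central modulo `X - τ` -/
theorem central_of_act {τ : E} (hτ : τ ≠ 0) {L : Type} {P : Type} (val : P → E) (let' : L → E)
    (hval : ∀ x, val x ^ (p + 1) = τ⁻¹) (hinj : Function.Injective val)
    (T : L → Equiv.Perm P) (hlet : ∀ s, (let' s ^ p) ^ p = let' s)
    (hT : ∀ s x, val (T s x) * (1 - τ * let' s ^ p * val x) = val x - let' s)
    (v : List L) (x y z : P) (hxy : x ≠ y) (hxz : x ≠ z) (hyz : y ≠ z)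
    (hx : ∀ x, act T v x = x) :
    (X - C τ) ∣ (zz p (v.map let')).2 ∧
      (X - C τ) ∣ (zz p (v.map let')).1 - bar p (zz p (v.map let')).1 := by
  have key : ∀ x : P, τ * (bar p (zz p (v.map let')).2).eval τ * val x ^ 2 +
      ((bar p (zz p (v.map let')).1).eval τ - (zz p (v.map let')).1.eval τ) * val x +
      - (zz p (v.map let')).2.eval τ = 0 := by
    intro x
    have h := act_names p hτ val let' hval T hlet hT v x
    rw [hx x] at h
    linear_combination - h
  obtain ⟨h1, h2, h3⟩ := quad_zero (hinj.ne hxy) (hinj.ne hxz) (hinj.ne hyz) (key x) (key y) (key z)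
  rw [dvd_iff_isRoot, dvd_iff_isRoot, IsRoot.def, IsRoot.def, eval_sub]
  exact ⟨neg_eq_zero.1 h3, by rw [← neg_sub, h2, neg_zero]⟩

/-- the transport as a Moebius map -/
theorem tp_moebius {η φ τ τ' : E} (hne : τ ≠ τ') (hτ' : τ' ≠ 0)
    (h : η ^ (p + 1) = τ⁻¹) (h' : φ ^ (p + 1) = τ'⁻¹) :
    tp p η φ * (1 - τ' * η ^ p * φ) = φ - η := by
  have h4 := nm_sub_p p hne h h'
  have h5 : φ * φ ^ p = τ'⁻¹ := nm_mul p h'
  have h6 : τ' * (φ * φ ^ p) = 1 := by rw [h5, mul_inv_cancel₀ hτ']
  unfold tp
  rw [div_mul_eq_mul_div, div_eq_iff h4]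
  linear_combination ((φ - η) * η ^ p) * h6

theorem moebius_ne {η φ τ τ' : E} (hne : τ ≠ τ') (hτ' : τ' ≠ 0)
    (h : η ^ (p + 1) = τ⁻¹) (h' : φ ^ (p + 1) = τ'⁻¹) :
    1 - τ' * η ^ p * φ ≠ 0 := by
  intro h0
  have := tp_moebius p hne hτ' h h'
  rw [h0, mul_zero] at this
  exact nm_sub p hne h h' (by rw [← neg_sub, ← this, neg_zero])

end bars

end Pool.Agent.SRL.HE
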