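import Pool.Agent.SRL.HostDefs

/-!
# Host: induction on the names

The averaging operator over the labels commutes with the averages over single names; splitting off
the mean of one name after the other reduces the bound to functions with mean zero in every name
of a set `U` and independent of the other names.
-/

set_option autoImplicit false
set_option linter.unusedSectionVars false
set_option linter.unusedVariables false

namespace Pool.Agent.SRL

section names

variable {I P L : Type} [DecidableEq I] [Fintype I] [Fintype P] [Fintype L]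

/-- The exchange `(φ, x) ↦ (update φ j x, φ j)`. -/
def nmSwap (j : I) : Equiv.Perm ((I → P) × P) where
  toFun := fun a => (Function.update a.1 j a.2, a.1 j)
  invFun := fun a => (Function.update a.1 j a.2, a.1 j)
  left_inv := by
    intro a
    simp
  right_inv := by
    intro a
    simp

theorem nm_sum_update (j : I) (F : (I → P) → ℝ) :
    ∑ φ, ∑ x, F (Function.update φ j x) = Fintype.card P * ∑ φ, F φ := by
  rw [← Fintype.sum_prod_type' (fun (φ : I → P) (x : P) => F (Function.update φ j x))]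
  have h1 := Equiv.sum_comp (nmSwap (P := P) j) (fun a : (I → P) × P => F a.1)
  have h2 : ∑ a : (I → P) × P, F (Function.update a.1 j a.2) =
      ∑ a : (I → P) × P, F ((nmSwap (P := P) j a).1) := rfl
  rw [h2, h1, Fintype.sum_prod_type]
  simp [Finset.mul_sum]

/-- Mean over the name `j`. -/
noncomputable def nmE (j : I) (h : (I → P) → ℝ) : (I → P) → ℝ :=
  fun φ => (∑ x, h (Function.update φ j x)) / Fintype.card P

/-- Average over the labels. -/
noncomputable def nmA (T : I → L → Equiv.Perm P) (h : (I → P) → ℝ) : (I → P) → ℝ :=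
  fun φ => (∑ s, h (fun j => T j s (φ j))) / Fintype.card L

theorem nmE_update_self (j : I) (h : (I → P) → ℝ) (φ : I → P) (x : P) :
    nmE j h (Function.update φ j x) = nmE j h φ := by
  simp [nmE]

theorem nmE_update_ne {i j : I} (hij : i ≠ j) (h : (I → P) → ℝ)
    (hi : ∀ φ x, h (Function.update φ i x) = h φ) (φ : I → P) (x : P) :
    nmE j h (Function.update φ i x) = nmE j h φ := by
  unfold nmE
  congr 1
  refine Finset.sum_congr rfl fun y _ => ?_
  rw [Function.update_comm hij, hi]

theorem nmE_mean_self [Nonempty P] (j : I) (h : (I → P) → ℝ) (φ : I → P) :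
    ∑ x, (h (Function.update φ j x) - nmE j h (Function.update φ j x)) = 0 := by
  rw [Finset.sum_sub_distrib]
  simp only [nmE_update_self]
  have hc : (Fintype.card P : ℝ) ≠ 0 := Nat.cast_ne_zero.2 Fintype.card_ne_zero
  rw [Finset.sum_const, Finset.card_univ, nsmul_eq_mul, nmE]
  field_simp
  ring

theorem nmE_mean_ne {i j : I} (hij : i ≠ j) (h : (I → P) → ℝ)
    (hi : ∀ φ, ∑ x, h (Function.update φ i x) = 0) (φ : I → P) :
    ∑ x, nmE j h (Function.update φ i x) = 0 := by
  unfold nmE
  rw [← Finset.sum_div, Finset.sum_comm]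
  have : ∀ y, ∑ x, h (Function.update (Function.update φ i x) j y) = 0 := by
    intro y
    have := hi (Function.update φ j y)
    rw [← this]
    refine Finset.sum_congr rfl fun x _ => ?_
    rw [Function.update_comm hij]
  simp [this]

theorem nmE_sum [Nonempty P] (j : I) (h : (I → P) → ℝ) : ∑ φ, nmE j h φ = ∑ φ, h φ := by
  unfold nmE
  rw [← Finset.sum_div, nm_sum_update]
  have hc : (Fintype.card P : ℝ) ≠ 0 := Nat.cast_ne_zero.2 Fintype.card_ne_zero
  field_simp

theorem nm_orth [Nonempty P] (j : I) (f g : (I → P) → ℝ)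
    (hf : ∀ φ x, f (Function.update φ j x) = f φ)
    (hg : ∀ φ, ∑ x, g (Function.update φ j x) = 0) : ∑ φ, f φ * g φ = 0 := by
  have h1 := nm_sum_update j (fun φ => f φ * g φ)
  have h2 : ∑ φ, ∑ x, f (Function.update φ j x) * g (Function.update φ j x) = 0 := by
    refine Finset.sum_eq_zero fun φ _ => ?_
    simp only [hf]
    rw [← Finset.mul_sum, hg, mul_zero]
  have hc : (Fintype.card P : ℝ) ≠ 0 := Nat.cast_ne_zero.2 Fintype.card_ne_zero
  rw [h2] at h1
  exact (mul_eq_zero.1 h1.symm).resolve_left hc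

theorem nm_pyth [Nonempty P] (j : I) (f g : (I → P) → ℝ)
    (hf : ∀ φ x, f (Function.update φ j x) = f φ)
    (hg : ∀ φ, ∑ x, g (Function.update φ j x) = 0) :
    ∑ φ, (f φ + g φ) ^ 2 = ∑ φ, f φ ^ 2 + ∑ φ, g φ ^ 2 := by
  have h := nm_orth j f g hf hg
  have : ∀ φ, (f φ + g φ) ^ 2 = f φ ^ 2 + g φ ^ 2 + 2 * (f φ * g φ) := fun φ => by ring
  simp only [this]
  rw [Finset.sum_add_distrib, Finset.sum_add_distrib, ← Finset.mul_sum, h]
  ring

theorem nm_tr_update (T : I → L → Equiv.Perm P) (s : L) (j : I) (φ : I → P) (x : P) :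
    (fun i => T i s (Function.update φ j x i)) =
      Function.update (fun i => T i s (φ i)) j (T j s x) := by
  funext i
  by_cases hi : i = j
  · subst hi
    simp
  · simp [hi]

theorem nmA_indep (T : I → L → Equiv.Perm P) (j : I) (h : (I → P) → ℝ)
    (hf : ∀ φ x, h (Function.update φ j x) = h φ) (φ : I → P) (x : P) :
    nmA T h (Function.update φ j x) = nmA T h φ := by
  unfold nmA
  congr 1
  refine Finset.sum_congr rfl fun s _ => ?_
  rw [nm_tr_update, hf]

theorem nmA_mean (T : I → L → Equiv.Perm P) (j : I) (h : (I → P) → ℝ)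
    (hg : ∀ φ, ∑ x, h (Function.update φ j x) = 0) (φ : I → P) :
    ∑ x, nmA T h (Function.update φ j x) = 0 := by
  unfold nmA
  rw [← Finset.sum_div, Finset.sum_comm]
  have : ∀ s, ∑ x, h (fun i => T i s (Function.update φ j x i)) = 0 := by
    intro s
    simp only [nm_tr_update]
    rw [Equiv.sum_comp (T j s) (fun y => h (Function.update (fun i => T i s (φ i)) j y))]
    exact hg _
  simp [this]

theorem nmA_add (T : I → L → Equiv.Perm P) (f g : (I → P) → ℝ) (φ : I → P) :
    nmA T (fun ψ => f ψ + g ψ) φ = nmA T f φ + nmA T g φ := by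
  unfold nmA
  rw [Finset.sum_add_distrib, add_div]

/-- A function that is independent of the names outside of `U`. -/
theorem nm_indep (U : Finset I) (h : (I → P) → ℝ)
    (hi : ∀ j, j ∉ U → ∀ φ x, h (Function.update φ j x) = h φ) (φ ψ : I → P)
    (hφ : ∀ j ∈ U, φ j = ψ j) : h φ = h ψ := by
  have key : ∀ W : Finset I, (∀ j ∈ W, j ∉ U) →
      h (fun i => if i ∈ W then ψ i else φ i) = h φ := by
    intro W
    induction W using Finset.induction_on with
    | empty => intro _; simp
    | insert j W hj ih =>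
      intro hW
      rw [← ih (fun i hi' => hW i (Finset.mem_insert_of_mem hi')),
        ← hi j (hW j (Finset.mem_insert_self j W)) (fun i => if i ∈ W then ψ i else φ i) (ψ j)]
      congr 1
      funext i
      by_cases hij : i = j
      · subst hij
        simp
      · simp [Finset.mem_insert, hij]
  rw [← key Uᶜ (fun j hj => Finset.mem_compl.1 hj)]
  congr 1
  funext i
  by_cases hiU : i ∈ U
  · simp [hiU, hφ i hiU]
  · simp [hiU]

/-- Sum of a function of the names of `U`. -/
theorem nm_sum_restrict (U : Finset I) (F : (U → P) → ℝ) :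
    ∑ φ : I → P, F (fun j => φ j) =
      Fintype.card ({i : I // ¬ i ∈ U} → P) * ∑ y : U → P, F y := by
  have h1 := Equiv.sum_comp (Equiv.piEquivPiSubtypeProd (fun i => i ∈ U) (fun _ : I => P))
    (fun a => F a.1)
  have h2 : ∑ φ : I → P, F (fun j => φ j) =
      ∑ φ : I → P, F ((Equiv.piEquivPiSubtypeProd (fun i => i ∈ U) (fun _ : I => P) φ).1) := rfl
  rw [h2, h1, Fintype.sum_prod_type]
  simp only [Finset.sum_const, Finset.card_univ, nsmul_eq_mul, Finset.mul_sum]

theorem nm_base [Nonempty P] [Nonempty L] (T : I → L → Equiv.Perm P) (b : I) (lam : ℝ)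
    (hU : ∀ U : Finset I, U.Nonempty → b ∉ U → ∀ f : (U → P) → ℝ,
      (∀ j y, ∑ x, f (Function.update y j x) = 0) →
      ∑ y : U → P, ((∑ s, f (fun j => T j s (y j))) / Fintype.card L) ^ 2 ≤ lam ^ 2 * ∑ y, f y ^ 2)
    (U : Finset I) (hb : b ∉ U) (h : (I → P) → ℝ)
    (hi : ∀ j, j ∉ U → ∀ φ x, h (Function.update φ j x) = h φ)
    (hz : ∀ j ∈ U, ∀ φ, ∑ x, h (Function.update φ j x) = 0) (h0 : ∑ φ, h φ = 0) :
    ∑ φ, nmA T h φ ^ 2 ≤ lam ^ 2 * ∑ φ, h φ ^ 2 := by
  rcases U.eq_empty_or_nonempty with hU0 | hUn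
  · subst hU0
    have hc : ∀ φ ψ, h φ = h ψ := fun φ ψ => nm_indep ∅ h hi φ ψ (by simp)
    have hz0 : ∀ φ, h φ = 0 := by
      intro φ
      have h1 : ∑ ψ : I → P, h ψ = ∑ _ψ : I → P, h φ := Finset.sum_congr rfl fun ψ _ => hc ψ φ
      rw [h0, Finset.sum_const, Finset.card_univ, nsmul_eq_mul] at h1
      have hc : (Fintype.card (I → P) : ℝ) ≠ 0 := Nat.cast_ne_zero.2 Fintype.card_ne_zero
      exact (mul_eq_zero.1 h1.symm).resolve_left hc
    simp [nmA, hz0]
  · obtain ⟨p0⟩ := (inferInstance : Nonempty P)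
    set f : (U → P) → ℝ := fun y => h (fun i => if hi' : i ∈ U then y ⟨i, hi'⟩ else p0) with hf
    have hhf : ∀ φ, h φ = f (fun j => φ j) := by
      intro φ
      rw [hf]
      refine nm_indep U h hi φ _ (fun j hj => ?_)
      simp [hj]
    have hmean : ∀ j y, ∑ x, f (Function.update y j x) = 0 := by
      intro j y
      have h1 := hz j j.2 (fun i => if hi' : i ∈ U then y ⟨i, hi'⟩ else p0)
      rw [← h1]
      refine Finset.sum_congr rfl fun x _ => ?_
      rw [hf]
      refine nm_indep U h hi _ _ (fun i hiU => ?_)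
      by_cases hij : i = j
      · subst hij
        simp
      · have : (⟨i, hiU⟩ : U) ≠ j := fun e => hij (by rw [← e])
        simp [hij, this, hiU]
    have h1 := hU U hUn hb f hmean
    have e1 : ∑ φ, nmA T h φ ^ 2 = Fintype.card ({i : I // ¬ i ∈ U} → P) *
        ∑ y : U → P, ((∑ s, f (fun j => T j s (y j))) / Fintype.card L) ^ 2 := by
      rw [← nm_sum_restrict U
        (fun y => ((∑ s, f (fun j => T j s (y j))) / Fintype.card L) ^ 2)]
      refine Finset.sum_congr rfl fun φ _ => ?_
      unfold nmA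
      simp only [hhf]
    have e2 : ∑ φ, h φ ^ 2 = Fintype.card ({i : I // ¬ i ∈ U} → P) * ∑ y : U → P, f y ^ 2 := by
      rw [← nm_sum_restrict U (fun y => f y ^ 2)]
      refine Finset.sum_congr rfl fun φ _ => ?_
      rw [hhf]
    rw [e1, e2]
    have hK : (0 : ℝ) ≤ Fintype.card ({i : I // ¬ i ∈ U} → P) := Nat.cast_nonneg _
    nlinarith [mul_le_mul_of_nonneg_left h1 hK]

theorem nm_step [Nonempty P] [Nonempty L] (T : I → L → Equiv.Perm P) (b : I) (lam : ℝ)
    (hU : ∀ U : Finset I, U.Nonempty → b ∉ U → ∀ f : (U → P) → ℝ,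
      (∀ j y, ∑ x, f (Function.update y j x) = 0) →
      ∑ y : U → P, ((∑ s, f (fun j => T j s (y j))) / Fintype.card L) ^ 2 ≤ lam ^ 2 * ∑ y, f y ^ 2)
    (R : Finset I) : ∀ (U : Finset I), b ∉ U → b ∉ R → ∀ h : (I → P) → ℝ,
    (∀ j, j ∉ U → j ∉ R → ∀ φ x, h (Function.update φ j x) = h φ) →
    (∀ j ∈ U, ∀ φ, ∑ x, h (Function.update φ j x) = 0) → ∑ φ, h φ = 0 →
    ∑ φ, nmA T h φ ^ 2 ≤ lam ^ 2 * ∑ φ, h φ ^ 2 := by
  induction R using Finset.induction_on with
  | empty =>
    intro U hb _ h hi hz h0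
    exact nm_base T b lam hU U hb h (fun j hj => hi j hj (by simp)) hz h0
  | insert j R hj ih =>
    intro U hb hbR h hi hz h0
    have hbR' : b ∉ R := fun hh => hbR (Finset.mem_insert_of_mem hh)
    have hbj : b ≠ j := fun hh => hbR (by rw [hh]; exact Finset.mem_insert_self j R)
    by_cases hjU : j ∈ U
    · refine ih U hb hbR' h (fun i hiU hiR => hi i hiU ?_) hz h0
      rw [Finset.mem_insert, not_or]
      exact ⟨fun e => hiU (e ▸ hjU), hiR⟩
    · set f := nmE j h with hf
      set g : (I → P) → ℝ := fun φ => h φ - nmE j h φ with hg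
      have hfg : ∀ φ, h φ = f φ + g φ := fun φ => by rw [hf, hg]; ring
      have hfi : ∀ φ x, f (Function.update φ j x) = f φ := fun φ x => nmE_update_self j h φ x
      have hgz : ∀ φ, ∑ x, g (Function.update φ j x) = 0 := fun φ => nmE_mean_self j h φ
      have h1 : ∑ φ, nmA T f φ ^ 2 ≤ lam ^ 2 * ∑ φ, f φ ^ 2 := by
        refine ih U hb hbR' f (fun i hiU hiR => ?_) (fun i hiU => ?_) ?_
        · by_cases hij : i = j
          · subst hij
            exact hfi
          · refine nmE_update_ne hij h (hi i hiU ?_)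
            rw [Finset.mem_insert, not_or]
            exact ⟨hij, hiR⟩
        · have hij : i ≠ j := fun e => hjU (e ▸ hiU)
          exact nmE_mean_ne hij h (hz i hiU)
        · rw [hf, nmE_sum, h0]
      have h2 : ∑ φ, nmA T g φ ^ 2 ≤ lam ^ 2 * ∑ φ, g φ ^ 2 := by
        refine ih (insert j U) ?_ hbR' g (fun i hiU hiR => ?_) (fun i hiU => ?_) ?_
        · rw [Finset.mem_insert, not_or]
          exact ⟨hbj, hb⟩
        · rw [Finset.mem_insert, not_or] at hiU
          have hiI : i ∉ insert j R := by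
            rw [Finset.mem_insert, not_or]
            exact ⟨hiU.1, hiR⟩
          intro φ x
          rw [hg]
          simp only
          rw [hi i hiU.2 hiI, nmE_update_ne hiU.1 h (hi i hiU.2 hiI)]
        · intro φ
          by_cases hij : i = j
          · subst hij
            exact hgz φ
          · have hiU' : i ∈ U := (Finset.mem_insert.1 hiU).resolve_left hij
            rw [hg]
            simp only [Finset.sum_sub_distrib]
            rw [hz i hiU' φ, nmE_mean_ne hij h (hz i hiU') φ]
            ring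
        · rw [hg]
          simp only [Finset.sum_sub_distrib]
          rw [nmE_sum, h0]
          ring
      have e1 : ∑ φ, h φ ^ 2 = ∑ φ, f φ ^ 2 + ∑ φ, g φ ^ 2 := by
        rw [← nm_pyth j f g hfi hgz]
        exact Finset.sum_congr rfl fun φ _ => by rw [hfg]
      have e2 : ∑ φ, nmA T h φ ^ 2 = ∑ φ, nmA T f φ ^ 2 + ∑ φ, nmA T g φ ^ 2 := by
        rw [← nm_pyth j (nmA T f) (nmA T g) (nmA_indep T j f hfi) (nmA_mean T j g hgz)]
        refine Finset.sum_congr rfl fun φ _ => ?_
        rw [← nmA_add]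
        congr 2
        funext ψ
        exact hfg ψ
      rw [e1, e2, mul_add]
      exact add_le_add h1 h2

/-- H4c: names part, from functions with mean zero in every name of `U` to all functions. -/
theorem names_induction {I P L : Type} [DecidableEq I] [Fintype I] [Fintype P] [Fintype L]
    [Nonempty P] [Nonempty L] (T : I → L → Equiv.Perm P) (b : I) (lam : ℝ) (hlam : 0 ≤ lam)
    (hU : ∀ U : Finset I, U.Nonempty → b ∉ U → ∀ f : (U → P) → ℝ,
      (∀ j y, ∑ x, f (Function.update y j x) = 0) →
      ∑ y : U → P, ((∑ s, f (fun j => T j s (y j))) / Fintype.card L) ^ 2 ≤ lam ^ 2 * ∑ y, f y ^ 2)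
    (h : (I → P) → ℝ) (hb : ∀ φ x, h (Function.update φ b x) = h φ) (h0 : ∑ φ, h φ = 0) :
    ∑ φ : I → P, ((∑ s, h (fun j => T j s (φ j))) / Fintype.card L) ^ 2 ≤
      lam ^ 2 * ∑ φ, h φ ^ 2 := by
  refine nm_step T b lam hU (Finset.univ.erase b) ∅ (by simp) (by simp) h ?_ (by simp) h0
  intro j _ hj
  have : j = b := by
    by_contra hne
    exact hj (by simp [hne])
  subst this
  exact hb

end names

end Pool.Agent.SRL
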