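import Pool.Agent.SRL.HostRet
import Pool.Agent.SRL.HostCount

set_option autoImplicit false
set_option linter.unusedSectionVars false
set_option linter.unusedVariables false

namespace Pool.Agent.SRL

open Polynomial

theorem zr_eq {p : ℕ} [Fact p.Prime] {E : Type} [Field E] [CharP E p] [Algebra (ZMod p) E] (τ : ZMod p)
    (P : (ZMod p)[X]) (l : ℕ) :
    ZR p (algebraMap (ZMod p) E τ) (P.map (algebraMap (ZMod p) E)) l = ZS (E := E) p τ P l := by
  unfold ZR ZS
  rw [← map_inv₀]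

open Classical in
/-- H2 + H3: number of words of even length that are central modulo `P`, `P` a product of distinct monic irreducible
polynomials over the prime field, prime to `X` and to `X - τ`. -/
theorem ret_count {p : ℕ} [Fact p.Prime] (hp : 3 ≤ p) {E : Type} [Field E] [Fintype E] [CharP E p]
    [Algebra (ZMod p) E] (hδ : ∃ δ : E, δ ≠ 0 ∧ δ ^ p = -δ) (τ : ZMod p) (hτ : τ ≠ 0)
    {ι : Type} [Fintype ι] (P : ι → (ZMod p)[X]) (hirr : ∀ i, Irreducible (P i)) (hmon : ∀ i, (P i).Monic)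
    (hinj : Function.Injective P) (h0 : ∀ i, (P i).eval 0 ≠ 0) (h1 : ∀ i, (P i).eval τ ≠ 0)
    (k : ℕ) (hu : 1 ≤ (∏ i, P i).natDegree) (hk : 3 * (∏ i, P i).natDegree ≤ k) :
    wsum (2 * k) (fun v : List (Nm p (algebraMap (ZMod p) E τ)) =>
      if Central p (∏ i, P i) (v.map Subtype.val) then 1 else 0) ≤
      64 ^ k * 2 ^ Fintype.card ι * ((p : ℝ) + 1) ^ (2 * k) / (p : ℝ) ^ (3 * (∏ i, P i).natDegree) := by
  have hτ' : algebraMap (ZMod p) E τ ≠ 0 := by
    rwa [Ne, map_eq_zero_iff _ (algebraMap (ZMod p) E).injective]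
  have hτp : (algebraMap (ZMod p) E τ) ^ p = algebraMap (ZMod p) E τ := by
    rw [← map_pow, ZMod.pow_card]
  have hcop : IsCoprime ((∏ i, P i).map (algebraMap (ZMod p) E)) (1 - C (algebraMap (ZMod p) E τ)⁻¹ * X) := by
    have e1 : (1 - C (algebraMap (ZMod p) E τ)⁻¹ * X : E[X]) =
        C (-(algebraMap (ZMod p) E τ)⁻¹) * (X - C (algebraMap (ZMod p) E τ)) := by
      rw [mul_sub, ← C_mul, neg_mul, inv_mul_cancel₀ hτ', C_neg, C_neg, C_1]
      ring
    rw [e1]
    have hun : IsUnit (C (-(algebraMap (ZMod p) E τ)⁻¹) : E[X]) :=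
      isUnit_C.2 (isUnit_iff_ne_zero.2 (neg_ne_zero.2 (inv_ne_zero hτ')))
    refine IsCoprime.mul_right ?_ ?_
    · exact (isCoprime_one_right (x := (∏ i, P i).map (algebraMap (ZMod p) E))).of_isCoprime_of_dvd_right hun.dvd
    · refine ((irreducible_X_sub_C _).coprime_iff_not_dvd.2 ?_).symm
      rw [dvd_iff_isRoot, IsRoot.def, eval_map_algebraMap, aeval_algebraMap_apply, map_eq_zero_iff _
        (algebraMap (ZMod p) E).injective, coe_aeval_eq_eval, eval_prod, Finset.prod_eq_zero_iff]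
      rintro ⟨i, _, hi⟩
      exact h1 i hi
  have hc := fun l => ZS_count hp hδ τ hτ P hirr hmon hinj h0 h1 l
  refine ret_of_count p hp hτ' hτp (∏ i, P i) hcop (Fintype.card ι) (∏ i, P i).natDegree hu
    (fun l hl hlu z hz => ?_) ?_ (fun l hl hl2 => ?_) (fun l hl => ?_) k hk
  · rw [zr_eq] at hz
    rw [Set.mem_singleton_iff, (hc l).2.1 hlu z hz, map_inv₀]
  · rw [zr_eq]
    exact (hc _).2.2.1 rfl
  · rw [zr_eq]
    exact ((hc l).2.2.2.1 hl hl2).trans (le_of_eq (by ring))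
  · rw [zr_eq]
    exact ((hc l).2.2.2.2 hl).trans (le_of_eq (by ring))

end Pool.Agent.SRL
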