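import Mathlib

/-! # Splitting off the functions of the names -/

set_option autoImplicit false
set_option linter.unusedSectionVars false
set_option linter.unusedVariables false

namespace Pool.Agent.SRL

open Finset

/-- Orthogonality. -/
theorem sum_add_sq {X Y : Type} [Fintype X] [Fintype Y] (a : X × Y → ℝ) (c : Y → ℝ)
    (ha : ∀ y, ∑ x, a (x, y) = 0) :
    ∑ V : X × Y, (a V + c V.2) ^ 2 = ∑ V, a V ^ 2 + Fintype.card X * ∑ y, c y ^ 2 := by
  rw [Fintype.sum_prod_type_right, Fintype.sum_prod_type_right, Finset.mul_sum,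
    ← Finset.sum_add_distrib]
  refine Finset.sum_congr rfl fun y _ => ?_
  have h1 : ∀ x, (a (x, y) + c y) ^ 2 = a (x, y) ^ 2 + (2 * c y) * a (x, y) + c y ^ 2 := by
    intro x; ring
  rw [Finset.sum_congr rfl fun x _ => h1 x, Finset.sum_add_distrib, Finset.sum_add_distrib,
    ← Finset.mul_sum, ha, Finset.sum_const, Finset.card_univ, nsmul_eq_mul]
  ring

/-- H4d: splitting off the functions of the names. -/
theorem split_X {X Y L : Type} [Fintype X] [Nonempty X] [Fintype Y] [Fintype L] [Nonempty L]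
    (g : L → Equiv.Perm X) (T : L → Equiv.Perm Y) (lam : ℝ) (hlam : 0 ≤ lam)
    (h1 : ∀ f : X × Y → ℝ, (∀ y, ∑ x, f (x, y) = 0) →
      ∑ V : X × Y, ((∑ s, f (g s V.1, T s V.2)) / Fintype.card L) ^ 2 ≤ lam ^ 2 * ∑ V, f V ^ 2)
    (f : X × Y → ℝ)
    (h0 : ∑ y : Y, ((∑ s, (∑ x, f (x, T s y)) / Fintype.card X) / Fintype.card L) ^ 2 ≤
      lam ^ 2 * ∑ y, ((∑ x, f (x, y)) / Fintype.card X) ^ 2) :
    ∑ V : X × Y, ((∑ s, f (g s V.1, T s V.2)) / Fintype.card L) ^ 2 ≤ lam ^ 2 * ∑ V, f V ^ 2 := by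
  have hX : (0 : ℝ) < Fintype.card X := by exact_mod_cast Fintype.card_pos
  have hL : (0 : ℝ) < Fintype.card L := by exact_mod_cast Fintype.card_pos
  set F : Y → ℝ := fun y => (∑ x, f (x, y)) / Fintype.card X with hF
  set f1 : X × Y → ℝ := fun V => f V - F V.2 with hf1
  have hz : ∀ y, ∑ x, f1 (x, y) = 0 := by
    intro y
    simp only [hf1, hF]
    rw [Finset.sum_sub_distrib, Finset.sum_const, Finset.card_univ, nsmul_eq_mul]
    field_simp
    ring
  have hk := h1 f1 hz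
  have e1 : ∀ V : X × Y, (∑ s, f (g s V.1, T s V.2)) / Fintype.card L =
      (fun V : X × Y => (∑ s, f1 (g s V.1, T s V.2)) / Fintype.card L) V +
      (fun y => (∑ s, F (T s y)) / Fintype.card L) V.2 := by
    intro V
    simp only [hf1]
    rw [Finset.sum_sub_distrib]
    ring
  have e2 : ∀ V : X × Y, f V = f1 V + F V.2 := fun V => by simp [hf1]
  have hz2 : ∀ y, ∑ x, (fun V : X × Y => (∑ s, f1 (g s V.1, T s V.2)) / Fintype.card L)
      (x, y) = 0 := by
    intro y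
    show ∑ x, (∑ s, f1 (g s x, T s y)) / Fintype.card L = 0
    rw [← Finset.sum_div, Finset.sum_comm]
    have h2 : ∀ s, ∑ x, f1 (g s x, T s y) = 0 := by
      intro s
      exact (Equiv.sum_comp (g s) (fun x => f1 (x, T s y))).trans (hz _)
    simp [h2]
  have h3 := sum_add_sq (fun V : X × Y => (∑ s, f1 (g s V.1, T s V.2)) / Fintype.card L)
    (fun y => (∑ s, F (T s y)) / Fintype.card L) hz2
  have h4 := sum_add_sq f1 F hz
  have h5 : ∑ V : X × Y, ((∑ s, f (g s V.1, T s V.2)) / Fintype.card L) ^ 2 =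
      ∑ V : X × Y, ((∑ s, f1 (g s V.1, T s V.2)) / Fintype.card L +
        (∑ s, F (T s V.2)) / Fintype.card L) ^ 2 :=
    Finset.sum_congr rfl fun V _ => by rw [e1 V]
  have h6 : ∑ V : X × Y, f V ^ 2 = ∑ V : X × Y, (f1 V + F V.2) ^ 2 :=
    Finset.sum_congr rfl fun V _ => by rw [← e2 V]
  rw [h5, h6, h4]
  refine (le_of_eq h3).trans ?_
  have h0' : (Fintype.card X : ℝ) * ∑ y, ((∑ s, F (T s y)) / Fintype.card L) ^ 2 ≤
      (Fintype.card X : ℝ) * (lam ^ 2 * ∑ y, F y ^ 2) := mul_le_mul_of_nonneg_left h0 hX.le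
  calc _ ≤ lam ^ 2 * ∑ V, f1 V ^ 2 + (Fintype.card X : ℝ) * (lam ^ 2 * ∑ y, F y ^ 2) :=
        add_le_add hk h0'
    _ = _ := by ring

end Pool.Agent.SRL
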