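import Pool.Agent.SRL.HostTr

/-!
# The names part of the gap
-/

set_option autoImplicit false
set_option linter.unusedSectionVars false
set_option linter.unusedVariables false

namespace Pool.Agent.SRL.TrN

open Finset Pool.Agent.SRL.Tr

section kernel

variable {U P : Type} [Fintype U] [DecidableEq U] [Fintype P] [DecidableEq P]

/-- Mean zero in every coordinate. -/
def MZ (f : (U → P) → ℝ) : Prop := ∀ j y, ∑ x, f (Function.update y j x) = 0

variable (G : U → Subgroup (Equiv.Perm P))

/-- Coordinatewise action. -/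
def gact (g : ∀ j, G j) : Equiv.Perm (U → P) :=
  Equiv.piCongrRight (fun j => ((g j : G j) : Equiv.Perm P))

theorem gact_apply (g : ∀ j, G j) (y : U → P) (j : U) :
    gact G g y j = ((g j : G j) : Equiv.Perm P) (y j) := rfl

theorem gact_mul (g h : ∀ j, G j) (y : U → P) : gact G (g * h) y = gact G g (gact G h y) := by
  funext j
  simp [gact_apply]

theorem gact_update (g : ∀ j, G j) (y : U → P) (j : U) (x : P) :
    gact G g (Function.update y j x) =
      Function.update (gact G g y) j (((g j : G j) : Equiv.Perm P) x) := by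
  funext i
  by_cases h : i = j
  · subst h; simp [gact_apply]
  · simp [gact_apply, h]

variable [∀ j, Fintype (G j)]

/-- The invariant kernel of `f`. -/
def Ker (f : (U → P) → ℝ) (y y' : U → P) : ℝ :=
  ∑ g : (∀ j, G j), f (gact G g y) * f (gact G g y')

theorem Ker_gact (f : (U → P) → ℝ) (h : ∀ j, G j) (y y' : U → P) :
    Ker G f (gact G h y) (gact G h y') = Ker G f y y' := by
  unfold Ker
  rw [← Equiv.sum_comp (Equiv.mulRight h) (fun g => f (gact G g y) * f (gact G g y'))]
  refine Finset.sum_congr rfl fun g _ => ?_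
  simp only [Equiv.coe_mulRight, gact_mul]

theorem Ker_mz (f : (U → P) → ℝ) (hf : MZ f) (y y' : U → P) (j : U) :
    ∑ x, Ker G f y (Function.update y' j x) = 0 := by
  unfold Ker
  rw [Finset.sum_comm]
  refine Finset.sum_eq_zero fun g _ => ?_
  rw [← Finset.mul_sum]
  have h1 : ∑ x, f (gact G g (Function.update y' j x)) = 0 := by
    have h2 := hf j (gact G g y')
    rw [← Equiv.sum_comp ((g j : G j) : Equiv.Perm P)] at h2
    rw [← h2]
    exact Finset.sum_congr rfl fun x _ => by rw [gact_update]
  rw [h1, mul_zero]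

theorem Ker_const (hG : ∀ j, TwoTrans (G j)) (f : (U → P) → ℝ) (y y' : U → P) (j : U) (x x' : P)
    (hx : x ≠ y j) (hx' : x' ≠ y j) :
    Ker G f y (Function.update y' j x) = Ker G f y (Function.update y' j x') := by
  obtain ⟨g, hg, h1, h2⟩ := hG j (y j) x (y j) x' hx.symm hx'.symm
  have key := Ker_gact G f (Function.update (1 : ∀ j, G j) j ⟨g, hg⟩) y (Function.update y' j x)
  rw [← key]
  congr 1
  · funext i
    by_cases h : i = j
    · subst h; simp [gact_apply, h1]
    · simp [gact_apply, h]
  · funext i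
    by_cases h : i = j
    · subst h; simp [gact_apply, h2]
    · simp [gact_apply, h]

theorem Ker_sum (hG : ∀ j, TwoTrans (G j)) (hP : 2 ≤ Fintype.card P) (f : (U → P) → ℝ)
    (hf : MZ f) (u : (U → P) → ℝ) (hu : MZ u) (y y' : U → P) (j : U) :
    ((Fintype.card P : ℝ) - 1) *
      ∑ x, Ker G f y (Function.update y' j x) * u (Function.update y' j x) =
      Fintype.card P * (Ker G f y (Function.update y' j (y j)) *
        u (Function.update y' j (y j))) := by
  obtain ⟨x0, hx0⟩ : ∃ x0 : P, x0 ≠ y j := by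
    have : Nontrivial P := Fintype.one_lt_card_iff_nontrivial.1 (by omega)
    exact exists_ne _
  set a := Ker G f y (Function.update y' j (y j)) with ha
  set b := Ker G f y (Function.update y' j x0) with hb
  have hK : ∀ x, x ≠ y j → Ker G f y (Function.update y' j x) = b :=
    fun x hx => Ker_const G hG f y y' j x x0 hx hx0
  have h1 : a + ((Fintype.card P : ℝ) - 1) * b = 0 := by
    have h2 := Ker_mz G f hf y y' j
    rw [← Finset.add_sum_erase _ _ (Finset.mem_univ (y j))] at h2
    rw [Finset.sum_congr rfl (fun x hx => hK x (Finset.ne_of_mem_erase hx)), Finset.sum_const,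
      Finset.card_erase_of_mem (Finset.mem_univ _), Finset.card_univ, nsmul_eq_mul,
      Nat.cast_sub (by omega)] at h2
    simpa using h2
  have h3 : ∑ x, Ker G f y (Function.update y' j x) * u (Function.update y' j x) =
      (a - b) * u (Function.update y' j (y j)) := by
    have h4 := hu j y'
    rw [← Finset.add_sum_erase _ _ (Finset.mem_univ (y j))] at h4
    rw [← Finset.add_sum_erase _ _ (Finset.mem_univ (y j)),
      Finset.sum_congr rfl (fun x hx => by rw [hK x (Finset.ne_of_mem_erase hx)]),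
      ← Finset.mul_sum, eq_neg_of_add_eq_zero_right h4]
    ring
  rw [h3]
  have h5 : ((Fintype.card P : ℝ) - 1) * b = -a := by linarith
  calc ((Fintype.card P : ℝ) - 1) * ((a - b) * u (Function.update y' j (y j)))
      = (((Fintype.card P : ℝ) - 1) * a - ((Fintype.card P : ℝ) - 1) * b) *
          u (Function.update y' j (y j)) := by ring
    _ = _ := by rw [h5]; ring

theorem sum_update (H : (U → P) → ℝ) (j : U) :
    ∑ y, ∑ x, H (Function.update y j x) = Fintype.card P * ∑ y, H y := by
  have h1 : ∀ Φ : (U → P) → ℝ, ∑ y, Φ y =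
      ∑ a, ∑ z, Φ ((Equiv.funSplitAt j P).symm (a, z)) := by
    intro Φ
    rw [← Equiv.sum_comp (Equiv.funSplitAt j P).symm, Fintype.sum_prod_type]
  have h2 : ∀ a x z, Function.update ((Equiv.funSplitAt j P).symm (a, z)) j x =
      (Equiv.funSplitAt j P).symm (x, z) := by
    intro a x z
    funext i
    by_cases h : i = j
    · subst h; simp
    · simp [h]
  rw [h1, h1 H]
  simp only [h2]
  rw [Finset.sum_const, Finset.card_univ, nsmul_eq_mul]
  congr 1
  rw [Finset.sum_comm]

theorem Ker_apply (hG : ∀ j, TwoTrans (G j)) (hP : 2 ≤ Fintype.card P) (f : (U → P) → ℝ)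
    (hf : MZ f) (u : (U → P) → ℝ) (hu : MZ u) (y : U → P) :
    ((Fintype.card P : ℝ) - 1) ^ Fintype.card U * ∑ y', Ker G f y y' * u y' =
      (Fintype.card P : ℝ) ^ Fintype.card U * (Ker G f y y * u y) := by
  have hP0 : (Fintype.card P : ℝ) ≠ 0 := by
    have : 0 < Fintype.card P := by omega
    exact_mod_cast this.ne'
  have key : ∀ S : Finset U, ((Fintype.card P : ℝ) - 1) ^ S.card * ∑ y', Ker G f y y' * u y' =
      ∑ y', Ker G f y (S.piecewise y y') * u (S.piecewise y y') := by
    intro S
    induction S using Finset.induction_on with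
    | empty => simp
    | insert j S hj ih =>
      rw [Finset.card_insert_of_notMem hj, pow_succ', mul_assoc, ih]
      have h1 := sum_update (fun y' => Ker G f y (S.piecewise y y') * u (S.piecewise y y')) j
      have h2 : ∀ (y' : U → P) (x : P), S.piecewise y (Function.update y' j x) =
          Function.update (S.piecewise y y') j x := by
        intro y' x
        funext i
        by_cases h : i = j
        · subst h; simp [hj]
        · simp [Finset.piecewise, h]
      simp only [h2] at h1
      have h3 : ((Fintype.card P : ℝ) - 1) * ∑ y', ∑ x,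
          Ker G f y (Function.update (S.piecewise y y') j x) *
            u (Function.update (S.piecewise y y') j x) =
          Fintype.card P * ∑ y', Ker G f y ((insert j S).piecewise y y') *
            u ((insert j S).piecewise y y') := by
        rw [Finset.mul_sum, Finset.mul_sum]
        refine Finset.sum_congr rfl fun y' _ => ?_
        rw [Ker_sum G hG hP f hf u hu y _ j, Finset.piecewise_insert]
      rw [h1] at h3
      have h4 : (Fintype.card P : ℝ) * (((Fintype.card P : ℝ) - 1) *
          ∑ y', Ker G f y (S.piecewise y y') * u (S.piecewise y y')) =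
          Fintype.card P * ∑ y', Ker G f y ((insert j S).piecewise y y') *
            u ((insert j S).piecewise y y') := by
        rw [← h3]; ring
      exact mul_left_cancel₀ hP0 h4
  have h5 := key Finset.univ
  rw [Finset.card_univ] at h5
  rw [h5]
  simp only [Finset.piecewise_univ]
  rw [Finset.sum_const, Finset.card_univ, nsmul_eq_mul, Fintype.card_fun, Nat.cast_pow]

theorem exists_gact (hG : ∀ j, TwoTrans (G j)) (hP : 2 ≤ Fintype.card P) (y z : U → P) :
    ∃ h : ∀ j, G j, gact G h y = z := by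
  have hN : Nontrivial P := Fintype.one_lt_card_iff_nontrivial.1 (by omega)
  have h1 : ∀ j, ∃ g : G j, (g : Equiv.Perm P) (y j) = z j := by
    intro j
    obtain ⟨a, ha⟩ := exists_ne (y j)
    obtain ⟨b, hb⟩ := exists_ne (z j)
    obtain ⟨g, hg, h1, h2⟩ := hG j (y j) a (z j) b ha.symm hb.symm
    exact ⟨⟨g, hg⟩, h1⟩
  choose g hg using h1
  exact ⟨g, funext fun j => hg j⟩

/-- Orthogonality relation. -/
theorem schur (hG : ∀ j, TwoTrans (G j)) (hP : 2 ≤ Fintype.card P) (f : (U → P) → ℝ)
    (hf : MZ f) (u : (U → P) → ℝ) (hu : MZ u) :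
    ((Fintype.card P : ℝ) - 1) ^ Fintype.card U *
      ∑ g : (∀ j, G j), (∑ y, u y * f (gact G g y)) ^ 2 =
      (Fintype.card (∀ j, G j) : ℝ) * (∑ y, f y ^ 2) * ∑ y, u y ^ 2 := by
  have h1 : ∑ g : (∀ j, G j), (∑ y, u y * f (gact G g y)) ^ 2 =
      ∑ y, u y * ∑ y', Ker G f y y' * u y' := by
    have h2 : ∀ g : (∀ j, G j), (∑ y, u y * f (gact G g y)) ^ 2 =
        ∑ y, ∑ y', u y * ((f (gact G g y) * f (gact G g y')) * u y') := by
      intro g
      rw [sq, Finset.sum_mul_sum]
      exact Finset.sum_congr rfl fun y _ => Finset.sum_congr rfl fun y' _ => by ring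
    rw [Finset.sum_congr rfl fun g _ => h2 g, Finset.sum_comm]
    refine Finset.sum_congr rfl fun y _ => ?_
    rw [Finset.sum_comm, Finset.mul_sum]
    refine Finset.sum_congr rfl fun y' _ => ?_
    rw [Ker, Finset.sum_mul, Finset.mul_sum]
  rw [h1, Finset.mul_sum]
  have h3 : ∀ y, ((Fintype.card P : ℝ) - 1) ^ Fintype.card U *
      (u y * ∑ y', Ker G f y y' * u y') =
      ((Fintype.card P : ℝ) ^ Fintype.card U * Ker G f y y) * u y ^ 2 := by
    intro y
    calc ((Fintype.card P : ℝ) - 1) ^ Fintype.card U * (u y * ∑ y', Ker G f y y' * u y')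
        = u y * (((Fintype.card P : ℝ) - 1) ^ Fintype.card U * ∑ y', Ker G f y y' * u y') := by
          ring
      _ = _ := by rw [Ker_apply G hG hP f hf u hu y]; ring
  rw [Finset.sum_congr rfl fun y _ => h3 y]
  have h4 : ∀ y, (Fintype.card P : ℝ) ^ Fintype.card U * Ker G f y y =
      (Fintype.card (∀ j, G j) : ℝ) * ∑ y, f y ^ 2 := by
    intro y
    have h5 : ∀ z, Ker G f z z = Ker G f y y := by
      intro z
      obtain ⟨h, rfl⟩ := exists_gact G hG hP y z
      exact Ker_gact G f h y y
    have h6 : ∑ z, Ker G f z z = (Fintype.card (∀ j, G j) : ℝ) * ∑ y, f y ^ 2 := by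
      unfold Ker
      rw [Finset.sum_comm]
      have h7 : ∀ g : (∀ j, G j), ∑ z, f (gact G g z) * f (gact G g z) = ∑ y, f y ^ 2 := by
        intro g
        rw [← Equiv.sum_comp (gact G g) (fun y => f y ^ 2)]
        exact Finset.sum_congr rfl fun z _ => by ring
      rw [Finset.sum_congr rfl fun g _ => h7 g, Finset.sum_const, Finset.card_univ, nsmul_eq_mul]
    rw [← h6, Finset.sum_congr rfl fun z _ => h5 z, Finset.sum_const, Finset.card_univ,
      nsmul_eq_mul, Fintype.card_fun, Nat.cast_pow]
  rw [Finset.sum_congr rfl fun y _ => by rw [h4 y], ← Finset.mul_sum]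

end kernel

section main

variable {U P L : Type} [Fintype U] [DecidableEq U] [Fintype P] [DecidableEq P] [Fintype L]

/-- The permutation of the tuples of names. -/
def sig (T : U → L → Equiv.Perm P) (s : L) : Equiv.Perm (U → P) :=
  Equiv.piCongrRight (fun j => T j s)

theorem act_sig (T : U → L → Equiv.Perm P) (v : List L) (y : U → P) (j : U) :
    act (sig T) v y j = act (T j) v (y j) := by
  induction v generalizing y with
  | nil => rfl
  | cons s v ih => exact ih _

/-- The group element of a word. -/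
def phi (G : U → Subgroup (Equiv.Perm P)) (T : U → L → Equiv.Perm P)
    (hTG : ∀ j s, T j s ∈ G j) (v : List L) : ∀ j, G j :=
  fun j => ⟨actP (T j) v, actP_mem _ _ (hTG j) v⟩

theorem act_phi (G : U → Subgroup (Equiv.Perm P)) (T : U → L → Equiv.Perm P)
    (hTG : ∀ j s, T j s ∈ G j) (v : List L) (y : U → P) :
    act (sig T) v y = gact G (phi G T hTG v) y := by
  funext j
  rw [act_sig, gact_apply, ← actP_apply]
  rfl

theorem MZ_Bop (T : U → L → Equiv.Perm P) (f : (U → P) → ℝ) (hf : MZ f) :
    MZ (Bop (sig T) f) := by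
  intro j y
  unfold Bop
  rw [Finset.sum_comm]
  refine Finset.sum_eq_zero fun s _ => ?_
  have h2 := hf j (sig T s y)
  rw [← Equiv.sum_comp (T j s)] at h2
  rw [← h2]
  refine Finset.sum_congr rfl fun x _ => ?_
  congr 1
  funext i
  by_cases h : i = j
  · subst h; simp [sig]
  · simp [sig, h]

theorem MZ_iter (T : U → L → Equiv.Perm P) (f : (U → P) → ℝ) (hf : MZ f) (k : ℕ) :
    MZ ((Bop (sig T))^[k] f) := by
  induction k with
  | zero => exact hf
  | succ k ih =>
    rw [Function.iterate_succ', Function.comp_apply]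
    exact MZ_Bop T _ ih

open Classical in
theorem count_pairs {Γ : Type} [Group Γ] [Fintype Γ] (φ : List L → Γ) (inv : L → L)
    (hinv : ∀ s, inv (inv s) = s) (happ : ∀ v w, φ (v ++ w) = φ w * φ v)
    (hrev : ∀ v, φ (wrev inv v) = (φ v)⁻¹) (k : ℕ) (c : Γ → ℝ)
    (Q : List L → Prop) [dQ : DecidablePred Q] (hQ : ∀ v, Q v ↔ φ v = 1) :
    (wsum k (fun v => c (φ v))) ^ 2 ≤
      wsum (2 * k) (fun v => if Q v then (1 : ℝ) else 0) * ∑ g, c g ^ 2 := by
  have hQ' : wsum (2 * k) (fun v => if Q v then (1 : ℝ) else 0) =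
      wsum (2 * k) (fun v => if φ v = 1 then (1 : ℝ) else 0) := by
    refine wsum_congr _ fun v => ?_
    by_cases h : φ v = 1
    · rw [if_pos h, if_pos ((hQ v).2 h)]
    · rw [if_neg h, if_neg (fun h' => h ((hQ v).1 h'))]
  rw [hQ']
  set n : Γ → ℝ := fun g => wsum k (fun v => if φ v = g then (1 : ℝ) else 0) with hn
  have h1 : wsum k (fun v => c (φ v)) = ∑ g, n g * c g := by
    have h2 : ∀ v, c (φ v) = ∑ g, c g * (if φ v = g then (1 : ℝ) else 0) := by
      intro v
      simp
    rw [wsum_congr k h2, wsum_sum]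
    refine Finset.sum_congr rfl fun g _ => ?_
    rw [wsum_mul_left, mul_comm]
  have h3 : ∑ g, n g ^ 2 = wsum (2 * k) (fun v => if φ v = 1 then (1 : ℝ) else 0) := by
    have h4 : ∀ g, n g ^ 2 = wsum k (fun v => wsum k (fun w =>
        (if φ v = g then (1 : ℝ) else 0) * (if φ w = g then (1 : ℝ) else 0))) := by
      intro g
      have h5 : ∀ v, wsum k (fun w => (if φ v = g then (1 : ℝ) else 0) *
          (if φ w = g then (1 : ℝ) else 0)) = n g * (if φ v = g then (1 : ℝ) else 0) := by
        intro v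
        rw [wsum_mul_left, mul_comm]
      rw [wsum_congr k h5, wsum_mul_left, sq]
    rw [Finset.sum_congr rfl fun g _ => h4 g, ← wsum_sum]
    have h6 : ∀ v, ∑ g, wsum k (fun w => (if φ v = g then (1 : ℝ) else 0) *
        (if φ w = g then (1 : ℝ) else 0)) =
        wsum k (fun w => if φ (v ++ w) = 1 then (1 : ℝ) else 0) := by
      intro v
      rw [← wsum_sum]
      have h7 : ∀ w, ∑ g, (if φ v = g then (1 : ℝ) else 0) * (if φ w = g then (1 : ℝ) else 0) =
          if φ v = φ w then (1 : ℝ) else 0 := by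
        intro w
        simp only [ite_mul, one_mul, zero_mul, Finset.sum_ite_eq, Finset.mem_univ, if_true]
        by_cases h : φ v = φ w
        · simp [h]
        · rw [if_neg h, if_neg (fun h' => h h'.symm)]
      rw [wsum_congr k h7, ← wsum_wrev inv hinv k (fun w => if φ v = φ w then (1 : ℝ) else 0)]
      refine wsum_congr k fun w => ?_
      rw [hrev, happ]
      have h8 : (φ v = (φ w)⁻¹) ↔ (φ w * φ v = 1) := by
        rw [mul_eq_one_iff_inv_eq, eq_comm]
      by_cases h : φ v = (φ w)⁻¹
      · rw [if_pos h, if_pos (h8.1 h)]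
      · rw [if_neg h, if_neg (fun h' => h (h8.2 h'))]
    rw [wsum_congr k h6, two_mul, wsum_add]
  rw [h1, ← h3]
  exact Finset.sum_mul_sq_le_sq_mul_sq _ _ _

end main

end Pool.Agent.SRL.TrN

namespace Pool.Agent.SRL

open Finset Pool.Agent.SRL.Tr Pool.Agent.SRL.TrN

open Classical in
/-- H4b: trace method for functions of names with mean zero in every name. -/
theorem trace_names {U P L : Type} [Fintype U] [Fintype P] [Fintype L] [Nonempty L]
    (G : U → Subgroup (Equiv.Perm P)) (hG : ∀ j, TwoTrans (G j)) (hP : 2 ≤ Fintype.card P)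
    (T : U → L → Equiv.Perm P) (hTG : ∀ j s, T j s ∈ G j) (inv : L → L)
    (hinv : ∀ s, inv (inv s) = s) (hT : ∀ j s, T j (inv s) = (T j s)⁻¹)
    (f : (U → P) → ℝ) (hf : ∀ j y, ∑ x, f (Function.update y j x) = 0) (k : ℕ) (hk : 1 ≤ k)
    (lam : ℝ) (hlam : 0 ≤ lam)
    (h : (∏ j, (Nat.card (G j) : ℝ)) *
      wsum (2 * k) (fun v : List L => if ∀ j, ∀ x, act (T j) v x = x then 1 else 0) ≤
      ((Fintype.card P : ℝ) - 1) ^ Fintype.card U * (lam * Fintype.card L) ^ (2 * k)) :
    ∑ y : U → P, ((∑ s, f (fun j => T j s (y j))) / Fintype.card L) ^ 2 ≤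
      lam ^ 2 * ∑ y, f y ^ 2 := by
  have hsig : ∀ s, sig T (inv s) = (sig T s)⁻¹ := by
    intro s
    refine Equiv.ext fun y => ?_
    funext j
    show T j (inv s) (y j) = (T j s)⁻¹ (y j)
    rw [hT]
  refine norm_of_moment (sig T) inv hinv hsig f k hk lam hlam ?_
  set u := (Bop (sig T))^[k] f with hu
  have hmz : MZ f := hf
  have hu' : MZ u := MZ_iter T f hmz k
  set N := wsum (2 * k) (fun v : List L => if ∀ j, ∀ x, act (T j) v x = x then (1 : ℝ) else 0)
    with hN
  have hN0 : 0 ≤ N := wsum_nonneg _ fun v => by split_ifs <;> norm_num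
  have h1 : ∑ y, u y ^ 2 = wsum k (fun v => ∑ y, u y * f (gact G (phi G T hTG v) y)) := by
    have h2 : ∀ y, u y ^ 2 = wsum k (fun v => u y * f (gact G (phi G T hTG v) y)) := by
      intro y
      rw [wsum_mul_left, sq]
      congr 1
      rw [hu, Bop_iter]
      exact wsum_congr k fun v => by rw [act_phi G T hTG]
    rw [Finset.sum_congr rfl fun y _ => h2 y, ← wsum_sum]
  have hQ : ∀ v : List L, (∀ j, ∀ x, act (T j) v x = x) ↔ phi G T hTG v = 1 := by
    intro v
    constructor
    · intro h
      funext j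
      refine Subtype.ext (Equiv.ext fun x => ?_)
      simpa [phi, actP_apply] using h j x
    · intro h j x
      have h6 := congrArg (fun g : (∀ j, G j) => ((g j : G j) : Equiv.Perm P) x) h
      simpa [phi, actP_apply] using h6
  have h3 := count_pairs (phi G T hTG) inv hinv
    (fun v w => by
      funext j
      exact Subtype.ext (actP_append (T j) v w))
    (fun v => by
      funext j
      exact Subtype.ext (actP_wrev (T j) inv (hT j) v)) k
    (fun g => ∑ y, u y * f (gact G g y)) (fun v => ∀ j, ∀ x, act (T j) v x = x) hQ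
  rw [← hN] at h3
  have h5 := schur G hG hP f hmz u hu'
  have hcard : (Fintype.card (∀ j, G j) : ℝ) = ∏ j, (Nat.card (G j) : ℝ) := by
    rw [Fintype.card_pi, Nat.cast_prod]
    exact Finset.prod_congr rfl fun j _ => by rw [Nat.card_eq_fintype_card]
  rw [hcard] at h5
  have hP1 : (0 : ℝ) < (Fintype.card P : ℝ) - 1 := by
    have : (2 : ℝ) ≤ Fintype.card P := by exact_mod_cast hP
    linarith
  have hD : 0 < ((Fintype.card P : ℝ) - 1) ^ Fintype.card U := pow_pos hP1 _
  have hf0 : 0 ≤ ∑ y, f y ^ 2 := Finset.sum_nonneg fun y _ => sq_nonneg _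
  have hu0 : 0 ≤ ∑ y, u y ^ 2 := Finset.sum_nonneg fun y _ => sq_nonneg _
  rcases hu0.eq_or_lt with h0 | h0
  · rw [← h0]
    exact mul_nonneg (by positivity) hf0
  · rw [← h1] at h3
    have h6 : ((Fintype.card P : ℝ) - 1) ^ Fintype.card U * (∑ y, u y ^ 2) ^ 2 ≤
        ((Fintype.card P : ℝ) - 1) ^ Fintype.card U *
          ((lam * Fintype.card L) ^ (2 * k) * (∑ y, f y ^ 2) * ∑ y, u y ^ 2) := by
      calc ((Fintype.card P : ℝ) - 1) ^ Fintype.card U * (∑ y, u y ^ 2) ^ 2
          ≤ ((Fintype.card P : ℝ) - 1) ^ Fintype.card U *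
            (N * ∑ g : (∀ j, G j), (∑ y, u y * f (gact G g y)) ^ 2) :=
            mul_le_mul_of_nonneg_left h3 hD.le
        _ = N * (((Fintype.card P : ℝ) - 1) ^ Fintype.card U *
            ∑ g : (∀ j, G j), (∑ y, u y * f (gact G g y)) ^ 2) := by ring
        _ = ((∏ j, (Nat.card (G j) : ℝ)) * N) * ((∑ y, f y ^ 2) * ∑ y, u y ^ 2) := by
            rw [h5]; ring
        _ ≤ (((Fintype.card P : ℝ) - 1) ^ Fintype.card U * (lam * Fintype.card L) ^ (2 * k)) *
            ((∑ y, f y ^ 2) * ∑ y, u y ^ 2) :=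
            mul_le_mul_of_nonneg_right h (mul_nonneg hf0 hu0)
        _ = _ := by ring
    have h7 : (∑ y, u y ^ 2) * (∑ y, u y ^ 2) ≤
        ((lam * Fintype.card L) ^ (2 * k) * ∑ y, f y ^ 2) * ∑ y, u y ^ 2 := by
      have := le_of_mul_le_mul_left h6 hD
      nlinarith [this]
    exact le_of_mul_le_mul_right h7 h0

end Pool.Agent.SRL
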