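import Pool.Agent.SRL.HostTr

/-!
# The part of the gap orthogonal to the left invariant functions
-/

set_option autoImplicit false
set_option linter.unusedSectionVars false
set_option linter.unusedVariables false

namespace Pool.Agent.SRL.TrX

open Finset Pool.Agent.SRL.Tr

open scoped ComplexConjugate

section sl2

variable {E : Type} [Field E]

/-- Upper unipotent elements. -/
def nn (x : E) : Matrix.SpecialLinearGroup (Fin 2) E := ⟨!![1, x; 0, 1], by simp⟩

/-- Lower unipotent elements. -/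
def ll (x : E) : Matrix.SpecialLinearGroup (Fin 2) E := ⟨!![1, 0; x, 1], by simp⟩

/-- The Weyl element. -/
def ww : Matrix.SpecialLinearGroup (Fin 2) E := ⟨!![0, 1; -1, 0], by simp⟩

/-- Torus elements. -/
def tt (a : Eˣ) : Matrix.SpecialLinearGroup (Fin 2) E :=
  ⟨!![(a : E), 0; 0, ((a⁻¹ : Eˣ) : E)], by simp⟩

theorem nn_add (x y : E) : nn (x + y) = nn x * nn y := by
  apply Subtype.ext
  ext i j
  fin_cases i <;> fin_cases j <;> simp [nn, Matrix.mul_apply, Fin.sum_univ_two, add_comm]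

theorem nn_zero : nn (0 : E) = 1 := by
  apply Subtype.ext
  ext i j
  fin_cases i <;> fin_cases j <;> simp [nn]

theorem ll_eq (x : E) : ll x * (ww : Matrix.SpecialLinearGroup (Fin 2) E) = ww * nn (-x) := by
  apply Subtype.ext
  ext i j
  fin_cases i <;> fin_cases j <;> simp [nn, ll, ww, Matrix.mul_apply, Fin.sum_univ_two]

theorem nn_tt (a : Eˣ) (x : E) : nn x * tt a = tt a * nn (((a⁻¹ : Eˣ) : E) ^ 2 * x) := by
  apply Subtype.ext
  ext i j
  fin_cases i <;> fin_cases j <;> simp [nn, tt, Matrix.mul_apply, Fin.sum_univ_two]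
  field_simp

theorem gen (K : Subgroup (Matrix.SpecialLinearGroup (Fin 2) E)) (h1 : ∀ x, nn x ∈ K)
    (h2 : ∀ x, ll x ∈ K) (h : Matrix.SpecialLinearGroup (Fin 2) E) : h ∈ K := by
  have key : ∀ g : Matrix.SpecialLinearGroup (Fin 2) E, g 1 0 ≠ 0 → g ∈ K := by
    intro g hg
    have hdet : g 0 0 * g 1 1 - g 0 1 * g 1 0 = 1 := by
      have := g.det_coe
      rw [Matrix.det_fin_two] at this
      exact this
    have h3 : g = nn ((g 0 0 - 1) / g 1 0) * ll (g 1 0) * nn ((g 1 1 - 1) / g 1 0) := by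
      apply Subtype.ext
      ext i j
      fin_cases i <;> fin_cases j <;>
        simp [nn, ll, Matrix.mul_apply, Fin.sum_univ_two]
      · field_simp; ring
      · field_simp; linear_combination -hdet
      · field_simp; ring
    rw [h3]
    exact K.mul_mem (K.mul_mem (h1 _) (h2 _)) (h1 _)
  by_cases hc : h 1 0 = 0
  · have hdet : h 0 0 * h 1 1 - h 0 1 * h 1 0 = 1 := by
      have := h.det_coe
      rw [Matrix.det_fin_two] at this
      exact this
    have ha : h 0 0 ≠ 0 := by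
      intro ha
      rw [ha, hc] at hdet
      simp at hdet
    have h4 : ll 1 * h ∈ K := by
      apply key
      have : ((ll 1 * h : Matrix.SpecialLinearGroup (Fin 2) E) : Matrix (Fin 2) (Fin 2) E) 1 0 =
          h 0 0 := by
        simp [ll, Matrix.SpecialLinearGroup.coe_mul, Matrix.mul_apply, Fin.sum_univ_two, hc]
      rw [this]
      exact ha
    have h5 := K.mul_mem (K.inv_mem (h2 1)) h4
    simpa using h5
  · exact key h hc

end sl2

section squares

variable {E : Type} [Field E] [Fintype E] [DecidableEq E]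

/-- There are at least `(|E| - 1) / 2` squares of units. -/
theorem exists_squares : ∃ R : Finset Eˣ, Fintype.card E - 1 ≤ 2 * R.card ∧
    ∀ a ∈ R, ∀ b ∈ R, ((a : E)) ^ 2 = (b : E) ^ 2 → a = b := by
  classical
  set I : Finset Eˣ := Finset.univ.image (fun a : Eˣ => a ^ 2) with hI
  have h1 : Fintype.card Eˣ ≤ 2 * I.card := by
    rw [← Finset.card_univ]
    refine Finset.card_le_mul_card_image _ 2 fun b hb => ?_
    obtain ⟨c, -, hc⟩ := Finset.mem_image.1 hb
    have h2 : (Finset.univ.filter fun a : Eˣ => a ^ 2 = b) ⊆ {c, -c} := by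
      intro a ha
      rw [Finset.mem_filter] at ha
      have h3 : (a : E) ^ 2 = (c : E) ^ 2 := by
        have := ha.2.trans hc.symm
        exact_mod_cast congrArg Units.val this
      rw [Finset.mem_insert, Finset.mem_singleton]
      rcases sq_eq_sq_iff_eq_or_eq_neg.1 h3 with h | h
      · exact Or.inl (Units.ext h)
      · exact Or.inr (Units.ext (by simpa using h))
    exact (Finset.card_le_card h2).trans Finset.card_le_two
  have h4 : ∀ b : I, ∃ a : Eˣ, a ^ 2 = b := by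
    rintro ⟨b, hb⟩
    obtain ⟨c, -, hc⟩ := Finset.mem_image.1 hb
    exact ⟨c, hc⟩
  choose r hr using h4
  have hinj : Function.Injective r := by
    intro b b' h
    apply Subtype.ext
    rw [← hr b, ← hr b', h]
  refine ⟨Finset.univ.image r, ?_, ?_⟩
  · rw [Finset.card_image_of_injective _ hinj, Finset.card_univ, Fintype.card_coe]
    rw [Fintype.card_units] at h1
    exact h1
  · intro a ha b hb hab
    obtain ⟨i, -, rfl⟩ := Finset.mem_image.1 ha
    obtain ⟨j, -, rfl⟩ := Finset.mem_image.1 hb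
    have h5 : (i : Eˣ) = j := by
      rw [← hr i, ← hr j]
      exact Units.ext (by simpa using hab)
    rw [Subtype.ext h5]

end squares

section mult

variable {E : Type} [Field E] [Fintype E] [DecidableEq E]
variable {H : Type} [NormedAddCommGroup H] [InnerProductSpace ℂ H] [FiniteDimensional ℂ H]

/-- A vector that is not fixed by the unipotent group has a nontrivial character component. -/
theorem exists_char (π : Matrix.SpecialLinearGroup (Fin 2) E →* (H ≃ₗᵢ[ℂ] H)) (M : Submodule ℂ H)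
    (hM : ∀ h, ∀ u ∈ M, π h u ∈ M) (u : H) (hu : u ∈ M) (x0 : E) (hx0 : π (nn x0) u ≠ u) :
    ∃ (χ : AddChar E ℂ) (w : H), χ ≠ 1 ∧ w ∈ M ∧ w ≠ 0 ∧ ∀ x, π (nn x) w = χ x • w := by
  classical
  set pr : AddChar E ℂ → H := fun χ => ∑ x, χ (-x) • π (nn x) u with hpr
  have hmem : ∀ χ, pr χ ∈ M := fun χ =>
    M.sum_mem fun x _ => M.smul_mem _ (hM _ _ hu)
  have hpi : ∀ χ x, π (nn x) (pr χ) = χ x • pr χ := by
    intro χ x
    rw [hpr]
    simp only [map_sum, map_smul, Finset.smul_sum]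
    rw [← Equiv.sum_comp (Equiv.addLeft x) (fun y => χ x • χ (-y) • π (nn y) u)]
    refine Finset.sum_congr rfl fun y _ => ?_
    rw [Equiv.coe_addLeft, nn_add, map_mul, smul_smul, ← AddChar.map_add_eq_mul]
    congr 2
    ring
  by_cases hall : ∀ χ : AddChar E ℂ, χ ≠ 1 → pr χ = 0
  · exfalso
    have h1 : ∑ χ : AddChar E ℂ, pr χ = (Fintype.card E : ℂ) • u := by
      rw [hpr, Finset.sum_comm]
      have h2 : ∀ x : E, ∑ χ : AddChar E ℂ, χ (-x) • π (nn x) u =
          (if x = 0 then (Fintype.card E : ℂ) else 0) • π (nn x) u := by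
        intro x
        rw [← Finset.sum_smul, AddChar.sum_apply_eq_ite]
        simp
      rw [Finset.sum_congr rfl fun x _ => h2 x]
      simp [nn_zero]
    have h3 : ∑ χ : AddChar E ℂ, pr χ = pr 1 := by
      rw [Finset.sum_eq_single (1 : AddChar E ℂ)]
      · intro χ _ hχ
        exact hall χ hχ
      · intro h
        exact absurd (Finset.mem_univ _) h
    have h4 : π (nn x0) ((Fintype.card E : ℂ) • u) = (Fintype.card E : ℂ) • u := by
      rw [← h1, h3, hpi]
      simp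
    rw [map_smul] at h4
    have h5 : (Fintype.card E : ℂ) ≠ 0 := by exact_mod_cast Fintype.card_ne_zero
    exact hx0 (smul_right_injective H h5 h4)
  · push Not at hall
    obtain ⟨χ, h1, h2⟩ := hall
    exact ⟨χ, pr χ, h1, hmem χ, h2, hpi χ⟩

/-- Nontrivial invariant subspaces contain large orthonormal families. -/
theorem exists_orthonormal (π : Matrix.SpecialLinearGroup (Fin 2) E →* (H ≃ₗᵢ[ℂ] H))
    (M : Submodule ℂ H) (hM : ∀ h, ∀ u ∈ M, π h u ∈ M)
    (hinv : ∀ u ∈ M, (∀ h, π h u = u) → u = 0) (v : H) (hv : v ∈ M) (hv0 : v ≠ 0) :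
    ∃ (ι : Type) (_ : Fintype ι) (e : ι → H), Orthonormal ℂ e ∧ (∀ i, e i ∈ M) ∧
      Fintype.card E - 1 ≤ 2 * Fintype.card ι := by
  classical
  have h1 : ∃ u ∈ M, ∃ x0 : E, π (nn x0) u ≠ u := by
    by_contra hcon
    push Not at hcon
    set K : Subgroup (Matrix.SpecialLinearGroup (Fin 2) E) :=
      { carrier := {h | ∀ u ∈ M, π h u = u}
        mul_mem' := by
          intro a b ha hb u hu
          rw [map_mul]
          show π a (π b u) = u
          rw [hb u hu, ha u hu]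
        one_mem' := by
          intro u hu
          rw [map_one]
          rfl
        inv_mem' := by
          intro a ha u hu
          have h2 := ha _ (hM a⁻¹ u hu)
          have h3 : π a (π a⁻¹ u) = u := by
            show (π a * π a⁻¹) u = u
            rw [← map_mul, mul_inv_cancel, map_one]
            rfl
          rw [h3] at h2
          exact h2.symm } with hK
    have hn : ∀ x, nn x ∈ K := fun x u hu => hcon u hu x
    have hconj : ∀ g h, h ∈ K → g * h * g⁻¹ ∈ K := by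
      intro g h hh u hu
      have h3 : π (g * h * g⁻¹) u = π g (π h (π g⁻¹ u)) := by
        rw [map_mul, map_mul]
        rfl
      rw [h3, hh _ (hM _ _ hu)]
      show (π g * π g⁻¹) u = u
      rw [← map_mul, mul_inv_cancel, map_one]
      rfl
    have hl : ∀ x, ll x ∈ K := by
      intro x
      have h3 : ll x = ww * nn (-x) * (ww : Matrix.SpecialLinearGroup (Fin 2) E)⁻¹ := by
        rw [← ll_eq, mul_inv_cancel_right]
      rw [h3]
      exact hconj _ _ (hn _)
    exact hv0 (hinv v hv fun h => gen K hn hl h v hv)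
  obtain ⟨u, hu, x0, hx0⟩ := h1
  obtain ⟨χ, w, hχ, hwM, hw0, hw⟩ := exists_char π M hM u hu x0 hx0
  obtain ⟨R, hR1, hR2⟩ := exists_squares (E := E)
  have hwn : ∀ (a : Eˣ) (x : E), π (nn x) (π (tt a) w) =
      χ (((a⁻¹ : Eˣ) : E) ^ 2 * x) • π (tt a) w := by
    intro a x
    have h3 : π (nn x) (π (tt a) w) = π (nn x * tt a) w := by
      rw [map_mul]; rfl
    rw [h3, nn_tt, map_mul]
    show π (tt a) (π (nn _) w) = _
    rw [hw, map_smul]
  have hnorm : ∀ a : Eˣ, ‖π (tt a) w‖ = ‖w‖ := fun a => LinearIsometryEquiv.norm_map _ _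
  have hw1 : ‖w‖ ≠ 0 := norm_ne_zero_iff.2 hw0
  have horth : ∀ a ∈ R, ∀ b ∈ R, a ≠ b → inner ℂ (π (tt a) w) (π (tt b) w) = 0 := by
    intro a ha b hb hab
    have hab2 : ((a⁻¹ : Eˣ) : E) ^ 2 - ((b⁻¹ : Eˣ) : E) ^ 2 ≠ 0 := by
      intro h
      apply hab
      apply hR2 a ha b hb
      have h3 : ((a⁻¹ : Eˣ) : E) ^ 2 = ((b⁻¹ : Eˣ) : E) ^ 2 := sub_eq_zero.1 h
      rw [Units.val_inv_eq_inv_val, Units.val_inv_eq_inv_val, inv_pow, inv_pow] at h3
      exact inv_injective h3
    obtain ⟨y, hy⟩ : ∃ y, χ y ≠ 1 := by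
      by_contra hcon
      push Not at hcon
      exact hχ (DFunLike.ext _ _ fun y => by simpa using hcon y)
    set x : E := y / (((a⁻¹ : Eˣ) : E) ^ 2 - ((b⁻¹ : Eˣ) : E) ^ 2) with hx
    have h4 : ((a⁻¹ : Eˣ) : E) ^ 2 * x = ((b⁻¹ : Eˣ) : E) ^ 2 * x + y := by
      rw [hx]; field_simp; ring
    have h5 : inner ℂ (π (nn x) (π (tt a) w)) (π (nn x) (π (tt b) w)) =
        inner ℂ (π (tt a) w) (π (tt b) w) := LinearIsometryEquiv.inner_map_map _ _ _
    rw [hwn, hwn, inner_smul_left, inner_smul_right, ← mul_assoc] at h5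
    have h6 : (conj (χ (((a⁻¹ : Eˣ) : E) ^ 2 * x)) * χ (((b⁻¹ : Eˣ) : E) ^ 2 * x) - 1) *
        inner ℂ (π (tt a) w) (π (tt b) w) = 0 := by
      rw [sub_mul, one_mul, h5, sub_self]
    rcases mul_eq_zero.1 h6 with h7 | h7
    · exfalso
      apply hy
      have h8 : conj (χ (((a⁻¹ : Eˣ) : E) ^ 2 * x)) * χ (((b⁻¹ : Eˣ) : E) ^ 2 * x) = 1 :=
        sub_eq_zero.1 h7
      have h9 : χ (((a⁻¹ : Eˣ) : E) ^ 2 * x) * conj (χ (((a⁻¹ : Eˣ) : E) ^ 2 * x)) = 1 := by
        rw [Complex.mul_conj, Complex.normSq_eq_norm_sq, AddChar.norm_apply]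
        simp
      have h10 : χ (((b⁻¹ : Eˣ) : E) ^ 2 * x) = χ (((a⁻¹ : Eˣ) : E) ^ 2 * x) := by
        calc χ (((b⁻¹ : Eˣ) : E) ^ 2 * x)
            = (χ (((a⁻¹ : Eˣ) : E) ^ 2 * x) * conj (χ (((a⁻¹ : Eˣ) : E) ^ 2 * x))) *
              χ (((b⁻¹ : Eˣ) : E) ^ 2 * x) := by rw [h9, one_mul]
          _ = χ (((a⁻¹ : Eˣ) : E) ^ 2 * x) * (conj (χ (((a⁻¹ : Eˣ) : E) ^ 2 * x)) *
              χ (((b⁻¹ : Eˣ) : E) ^ 2 * x)) := by ring
          _ = _ := by rw [h8, mul_one]
      rw [h4, AddChar.map_add_eq_mul] at h10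
      have h11 : χ (((b⁻¹ : Eˣ) : E) ^ 2 * x) ≠ 0 := by
        intro h
        have := AddChar.norm_apply χ (((b⁻¹ : Eˣ) : E) ^ 2 * x)
        rw [h] at this
        simp at this
      have h12 := mul_left_cancel₀ h11 ((mul_one _).trans h10)
      exact h12.symm
    · exact h7
  refine ⟨R, inferInstance, fun a => ((‖w‖ : ℂ)⁻¹) • π (tt (a : Eˣ)) w, ⟨?_, ?_⟩, ?_, ?_⟩
  · intro a
    rw [norm_smul, norm_inv, Complex.norm_real, norm_norm, hnorm, inv_mul_cancel₀ hw1]
  · intro a b hab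
    show inner ℂ (((‖w‖ : ℂ)⁻¹) • π (tt (a : Eˣ)) w) (((‖w‖ : ℂ)⁻¹) • π (tt (b : Eˣ)) w) = 0
    rw [inner_smul_left, inner_smul_right,
      horth a a.2 b b.2 (fun h => hab (Subtype.ext h)), mul_zero, mul_zero]
  · intro a
    exact M.smul_mem _ (hM _ _ hwM)
  · rw [Fintype.card_coe]
    exact hR1

/-- Top eigenspace and its multiplicity. -/
theorem top_mult (B : H →ₗ[ℂ] H) (hB : B.IsSymmetric) (W : Submodule ℂ H)
    (hW : ∀ u ∈ W, B u ∈ W) (π : Matrix.SpecialLinearGroup (Fin 2) E →* (H ≃ₗᵢ[ℂ] H))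
    (hπB : ∀ h u, B (π h u) = π h (B u)) (hπW : ∀ h, ∀ u ∈ W, π h u ∈ W)
    (hinv : ∀ u ∈ W, (∀ h, π h u = u) → u = 0) (f : H) (hf : f ∈ W) (hf0 : f ≠ 0) :
    ∃ (ν : ℝ) (ι : Type) (_ : Fintype ι) (e : ι → H), Orthonormal ℂ e ∧
      (∀ i, B (e i) = (ν : ℂ) • e i) ∧ Fintype.card E - 1 ≤ 2 * Fintype.card ι ∧
      ‖B f‖ ^ 2 ≤ ν ^ 2 * ‖f‖ ^ 2 := by
  classical
  set T : W →ₗ[ℂ] W := B.restrict hW with hT
  have hTs : T.IsSymmetric := hB.restrict_invariant hW
  set n := Module.finrank ℂ W with hn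
  have hn0 : 0 < n := by
    have : Nontrivial W := ⟨⟨⟨f, hf⟩, 0, fun h => hf0 (congrArg Subtype.val h)⟩⟩
    exact Module.finrank_pos
  set b := hTs.eigenvectorBasis (rfl : Module.finrank ℂ W = n) with hb
  set μ := hTs.eigenvalues (rfl : Module.finrank ℂ W = n) with hμ
  obtain ⟨i0, -, hi0⟩ := Finset.exists_max_image (Finset.univ : Finset (Fin n))
    (fun i => μ i ^ 2) ⟨⟨0, hn0⟩, Finset.mem_univ _⟩
  set M : Submodule ℂ H :=
    { carrier := {u | u ∈ W ∧ B u = (μ i0 : ℂ) • u}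
      add_mem' := by
        rintro a b ⟨h1, h2⟩ ⟨h3, h4⟩
        exact ⟨W.add_mem h1 h3, by rw [map_add, h2, h4, smul_add]⟩
      zero_mem' := ⟨W.zero_mem, by simp⟩
      smul_mem' := by
        rintro c a ⟨h1, h2⟩
        exact ⟨W.smul_mem c h1, by rw [map_smul, h2, smul_comm]⟩ } with hM
  have hMπ : ∀ h, ∀ u ∈ M, π h u ∈ M := by
    rintro h u ⟨h1, h2⟩
    exact ⟨hπW h u h1, by rw [hπB, h2, map_smul]⟩
  have hv : (b i0 : H) ∈ M := by
    refine ⟨(b i0).2, ?_⟩
    have h1 := hTs.apply_eigenvectorBasis (rfl : Module.finrank ℂ W = n) i0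
    exact congrArg Subtype.val h1
  have hv0 : (b i0 : H) ≠ 0 := by
    intro h
    have h1 : b i0 = 0 := Subtype.ext h
    exact b.orthonormal.ne_zero i0 h1
  obtain ⟨ι, hι, e, he1, he2, he3⟩ := exists_orthonormal π M hMπ
    (fun u hu h => hinv u hu.1 h) _ hv hv0
  refine ⟨μ i0, ι, hι, e, he1, fun i => (he2 i).2, he3, ?_⟩
  have h1 : ‖B f‖ ^ 2 = ∑ i, ‖inner ℂ (b i) (T ⟨f, hf⟩)‖ ^ 2 := by
    rw [b.sum_sq_norm_inner_right (T ⟨f, hf⟩)]
    rfl
  have h2 : ‖f‖ ^ 2 = ∑ i, ‖inner ℂ (b i) (⟨f, hf⟩ : W)‖ ^ 2 := by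
    rw [b.sum_sq_norm_inner_right (⟨f, hf⟩ : W)]
    rfl
  rw [h1, h2, Finset.mul_sum]
  refine Finset.sum_le_sum fun i _ => ?_
  have h3 : inner ℂ (b i) (T ⟨f, hf⟩) = (μ i : ℂ) * inner ℂ (b i) (⟨f, hf⟩ : W) := by
    rw [← hTs (b i) ⟨f, hf⟩, hb, hTs.apply_eigenvectorBasis, inner_smul_left, RCLike.conj_ofReal]
    rfl
  rw [h3, norm_mul, mul_pow, Complex.norm_real, Real.norm_eq_abs, sq_abs]
  exact mul_le_mul_of_nonneg_right (hi0 i (Finset.mem_univ _)) (sq_nonneg _)

end mult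

section trace

variable {Ω L : Type} [Fintype Ω] [DecidableEq Ω] [Fintype L]

/-- The unitary operator of a permutation. -/
noncomputable def UU (σ : Equiv.Perm Ω) : EuclideanSpace ℂ Ω ≃ₗᵢ[ℂ] EuclideanSpace ℂ Ω :=
  LinearIsometryEquiv.piLpCongrLeft 2 ℂ ℂ σ.symm

theorem UU_apply (σ : Equiv.Perm Ω) (u : EuclideanSpace ℂ Ω) (ω : Ω) : UU σ u ω = u (σ ω) := by
  simp [UU, Equiv.piCongrLeft']

theorem UU_mul (σ τ : Equiv.Perm Ω) (u : EuclideanSpace ℂ Ω) :
    UU σ (UU τ u) = UU (τ * σ) u := by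
  ext ω
  simp [UU_apply]

/-- The sum of the operators of the letters. -/
noncomputable def BB (T : L → Equiv.Perm Ω) : EuclideanSpace ℂ Ω →ₗ[ℂ] EuclideanSpace ℂ Ω :=
  ∑ s, (UU (T s)).toLinearEquiv.toLinearMap

theorem BB_eq (T : L → Equiv.Perm Ω) (u : EuclideanSpace ℂ Ω) : BB T u = ∑ s, UU (T s) u := by
  simp [BB]

theorem BB_apply (T : L → Equiv.Perm Ω) (u : EuclideanSpace ℂ Ω) (ω : Ω) :
    BB T u ω = ∑ s, u (T s ω) := by
  rw [BB_eq]
  simp [UU_apply]

theorem BB_symm (T : L → Equiv.Perm Ω) (inv : L → L) (hinv : ∀ s, inv (inv s) = s)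
    (hT : ∀ s, T (inv s) = (T s)⁻¹) : (BB T).IsSymmetric := by
  intro u v
  rw [BB_eq, BB_eq, sum_inner, inner_sum]
  have h1 : ∀ s, inner ℂ (UU (T s) u) v = inner ℂ u (UU (T (inv s)) v) := by
    intro s
    rw [← LinearIsometryEquiv.inner_map_map (UU (T s)) u (UU (T (inv s)) v), UU_mul, hT,
      inv_mul_cancel]
    congr 1
  rw [Finset.sum_congr rfl fun s _ => h1 s]
  exact (Equiv.sum_comp (⟨inv, inv, hinv, hinv⟩ : L ≃ L) (fun s => inner ℂ u (UU (T s) v)))

/-- The complex vector of a real function. -/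
noncomputable def cx (f : Ω → ℝ) : EuclideanSpace ℂ Ω := WithLp.toLp 2 (fun ω => (f ω : ℂ))

theorem cx_apply (f : Ω → ℝ) (ω : Ω) : cx f ω = (f ω : ℂ) := rfl

theorem BB_cx (T : L → Equiv.Perm Ω) (f : Ω → ℝ) : BB T (cx f) = cx (Bop T f) := by
  ext ω
  rw [BB_apply, cx_apply, Bop]
  push_cast
  rfl

theorem BB_iter_cx (T : L → Equiv.Perm Ω) (k : ℕ) (f : Ω → ℝ) :
    (BB T)^[k] (cx f) = cx ((Bop T)^[k] f) := by
  induction k with
  | zero => rfl
  | succ k ih =>
    rw [Function.iterate_succ', Function.comp_apply, ih, BB_cx, Function.iterate_succ',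
      Function.comp_apply]

theorem norm_cx (f : Ω → ℝ) : ‖cx f‖ ^ 2 = ∑ ω, f ω ^ 2 := by
  rw [EuclideanSpace.norm_sq_eq]
  refine Finset.sum_congr rfl fun ω _ => ?_
  rw [cx_apply, Complex.norm_real, Real.norm_eq_abs, sq_abs]

theorem Bop_symm_iter (T : L → Equiv.Perm Ω) (inv : L → L) (hinv : ∀ s, inv (inv s) = s)
    (hT : ∀ s, T (inv s) = (T s)⁻¹) (k : ℕ) (f g : Ω → ℝ) :
    ∑ y, ((Bop T)^[k] f) y * g y = ∑ y, f y * ((Bop T)^[k] g) y := by
  induction k generalizing f g with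
  | zero => rfl
  | succ k ih =>
    have h1 : ∀ h : Ω → ℝ, (Bop T)^[k + 1] h = Bop T ((Bop T)^[k] h) := fun h => by
      rw [Function.iterate_succ', Function.comp_apply]
    have h2 : ∀ h : Ω → ℝ, (Bop T)^[k + 1] h = (Bop T)^[k] (Bop T h) := fun h => by
      rw [Function.iterate_succ, Function.comp_apply]
    rw [h1 f, h2 g, Bop_symm T inv hinv hT, ih]

theorem sym_iter (B : EuclideanSpace ℂ Ω →ₗ[ℂ] EuclideanSpace ℂ Ω) (hB : B.IsSymmetric) (k : ℕ)
    (u v : EuclideanSpace ℂ Ω) : inner ℂ (B^[k] u) v = inner ℂ u (B^[k] v) := by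
  induction k generalizing u v with
  | zero => rfl
  | succ k ih =>
    have h1 : ∀ h, B^[k + 1] h = B (B^[k] h) := fun h => by
      rw [Function.iterate_succ', Function.comp_apply]
    have h2 : ∀ h, B^[k + 1] h = B^[k] (B h) := fun h => by
      rw [Function.iterate_succ, Function.comp_apply]
    rw [h1 u, h2 v, hB, ih]

/-- Trace inequality. -/
theorem trace_le (T : L → Equiv.Perm Ω) (inv : L → L) (hinv : ∀ s, inv (inv s) = s)
    (hT : ∀ s, T (inv s) = (T s)⁻¹) {ι : Type} [Fintype ι] (e : ι → EuclideanSpace ℂ Ω)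
    (he : Orthonormal ℂ e) (ν : ℝ) (hν : ∀ i, BB T (e i) = (ν : ℂ) • e i) (k : ℕ) :
    (Fintype.card ι : ℝ) * ν ^ (2 * k) ≤
      ∑ ω, wsum (2 * k) (fun v => if act T v ω = ω then (1 : ℝ) else 0) := by
  have h1 : ∀ i, (BB T)^[k] (e i) = ((ν : ℂ) ^ k) • e i := by
    intro i
    induction k with
    | zero => simp
    | succ k ih =>
      rw [Function.iterate_succ', Function.comp_apply, ih, map_smul, hν, smul_smul, pow_succ]
  have h2 : ∀ i, ‖(BB T)^[k] (e i)‖ ^ 2 = ν ^ (2 * k) := by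
    intro i
    rw [h1, norm_smul, he.1 i, mul_one, norm_pow, Complex.norm_real, Real.norm_eq_abs,
      ← pow_mul, mul_comm k 2, pow_mul, sq_abs, ← pow_mul]
  have h3 : ∀ i, ‖(BB T)^[k] (e i)‖ ^ 2 =
      ∑ ω, ‖inner ℂ (e i) ((BB T)^[k] (cx (fun ω' => if ω' = ω then 1 else 0)))‖ ^ 2 := by
    intro i
    rw [EuclideanSpace.norm_sq_eq]
    refine Finset.sum_congr rfl fun ω _ => ?_
    have h4 : ((BB T)^[k] (e i)) ω =
        inner ℂ (cx (fun ω' => if ω' = ω then (1 : ℝ) else 0)) ((BB T)^[k] (e i)) := by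
      rw [PiLp.inner_apply]
      rw [Finset.sum_eq_single ω]
      · simp [cx_apply]
      · intro ω' _ h
        simp [cx_apply, h]
      · intro h
        exact absurd (Finset.mem_univ _) h
    rw [h4, ← sym_iter _ (BB_symm T inv hinv hT), norm_inner_symm]
  have h5 : ∀ ω, ‖(BB T)^[k] (cx (fun ω' => if ω' = ω then (1 : ℝ) else 0))‖ ^ 2 =
      wsum (2 * k) (fun v => if act T v ω = ω then (1 : ℝ) else 0) := by
    intro ω
    rw [BB_iter_cx, norm_cx]
    have h6 : ∀ y, ((Bop T)^[k] (fun ω' => if ω' = ω then (1 : ℝ) else 0)) y ^ 2 =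
        ((Bop T)^[k] (fun ω' => if ω' = ω then (1 : ℝ) else 0)) y *
        ((Bop T)^[k] (fun ω' => if ω' = ω then (1 : ℝ) else 0)) y := fun y => sq _
    rw [Finset.sum_congr rfl fun y _ => h6 y, Bop_symm_iter T inv hinv hT,
      ← Function.iterate_add_apply, ← two_mul]
    rw [Finset.sum_eq_single ω]
    · rw [Bop_iter]
      simp
    · intro y _ h
      simp [h]
    · intro h
      exact absurd (Finset.mem_univ _) h
  calc (Fintype.card ι : ℝ) * ν ^ (2 * k) = ∑ i, ‖(BB T)^[k] (e i)‖ ^ 2 := by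
        rw [Finset.sum_congr rfl fun i _ => h2 i, Finset.sum_const, Finset.card_univ,
          nsmul_eq_mul]
    _ = ∑ ω, ∑ i, ‖inner ℂ (e i) ((BB T)^[k] (cx (fun ω' => if ω' = ω then 1 else 0)))‖ ^ 2 := by
        rw [Finset.sum_congr rfl fun i _ => h3 i, Finset.sum_comm]
    _ ≤ ∑ ω, ‖(BB T)^[k] (cx (fun ω' => if ω' = ω then (1 : ℝ) else 0))‖ ^ 2 :=
        Finset.sum_le_sum fun ω _ => he.sum_inner_products_le _
    _ = _ := Finset.sum_congr rfl fun ω _ => h5 ω

end trace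

end Pool.Agent.SRL.TrX

namespace Pool.Agent.SRL

open Finset Pool.Agent.SRL.Tr Pool.Agent.SRL.TrX

/-- The group. -/
abbrev SLt (E : Type) [Field E] : Type := Matrix.SpecialLinearGroup (Fin 2) E

open Classical in
/-- H4a: trace method with the multiplicity of the nontrivial representations of `SL (2, E)`. -/
theorem trace_X {E : Type} [Field E] [Fintype E] (hE : ringChar E ≠ 2) {L : Type} [Fintype L]
    [Nonempty L] {Y : Type} [Fintype Y] (g : L → Matrix.SpecialLinearGroup (Fin 2) E)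
    (T : L → Equiv.Perm Y) (inv : L → L)
    (hinv : ∀ s, inv (inv s) = s) (hg : ∀ s, g (inv s) = (g s)⁻¹) (hT : ∀ s, T (inv s) = (T s)⁻¹)
    (f : Matrix.SpecialLinearGroup (Fin 2) E × Y → ℝ) (hf : ∀ y, ∑ x, f (x, y) = 0) (k : ℕ)
    (hk : 1 ≤ k) (lam : ℝ) (hlam : 0 ≤ lam)
    (h : (Fintype.card (Matrix.SpecialLinearGroup (Fin 2) E) : ℝ) * Fintype.card Y *
      wsum (2 * k) (fun v : List L => if (v.map g).prod = 1 then 1 else 0) ≤
      (((Fintype.card E : ℝ) - 1) / 2) * (lam * Fintype.card L) ^ (2 * k)) :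
    ∑ V : Matrix.SpecialLinearGroup (Fin 2) E × Y,
        ((∑ s, f (V.1 * g s, T s V.2)) / Fintype.card L) ^ 2 ≤ lam ^ 2 * ∑ V, f V ^ 2 := by
  let T' : L → Equiv.Perm (SLt E × Y) :=
    fun s => Equiv.prodCongr (Equiv.mulRight (g s)) (T s)
  have hT'inv : ∀ s, T' (inv s) = (T' s)⁻¹ := by
    intro s
    refine Equiv.ext fun V => ?_
    rw [Equiv.Perm.eq_inv_iff_eq]
    refine Prod.ext ?_ ?_
    · show V.1 * g (inv s) * g s = V.1
      rw [hg, inv_mul_cancel_right]
    · show T s (T (inv s) V.2) = V.2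
      rw [hT]; simp
  have hact : ∀ (v : List L) (x : SLt E) (y : Y), act T' v (x, y) =
      (x * (v.map g).prod, act T v y) := by
    intro v
    induction v with
    | nil => intro x y; simp [act]
    | cons s v ih =>
      intro x y
      show act T' v (x * g s, T s y) = _
      rw [ih]
      simp [act, mul_assoc]
  -- left translations
  let ℓ : SLt E → Equiv.Perm (SLt E × Y) := fun a => Equiv.prodCongr (Equiv.mulLeft a⁻¹) (Equiv.refl Y)
  let π : SLt E →* (EuclideanSpace ℂ (SLt E × Y) ≃ₗᵢ[ℂ] EuclideanSpace ℂ (SLt E × Y)) :=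
    { toFun := fun a => UU (ℓ a)
      map_one' := by
        ext u ω
        rw [UU_apply]
        have h1 : ℓ 1 ω = ω := by
          refine Prod.ext ?_ rfl
          show (1 : SLt E)⁻¹ * ω.1 = ω.1
          rw [inv_one, one_mul]
        rw [h1]
        rfl
      map_mul' := by
        intro a b
        ext u ω
        show UU (ℓ (a * b)) u ω = UU (ℓ a) (UU (ℓ b) u) ω
        rw [UU_apply, UU_apply, UU_apply]
        have h1 : ℓ (a * b) ω = ℓ b (ℓ a ω) := by
          refine Prod.ext ?_ rfl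
          show (a * b)⁻¹ * ω.1 = b⁻¹ * (a⁻¹ * ω.1)
          rw [mul_inv_rev, mul_assoc]
        rw [h1] }
  have hπa : ∀ (a : SLt E) (u : EuclideanSpace ℂ (SLt E × Y)) (x : SLt E) (y : Y),
      π a u (x, y) = u (a⁻¹ * x, y) := by
    intro a u x y
    show UU (ℓ a) u (x, y) = _
    rw [UU_apply]
    rfl
  set W : Submodule ℂ (EuclideanSpace ℂ (SLt E × Y)) :=
    { carrier := {u | ∀ y, ∑ x, u (x, y) = 0}
      add_mem' := by
        intro a b ha hb y
        simp [Finset.sum_add_distrib, ha y, hb y]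
      zero_mem' := by
        intro y
        simp
      smul_mem' := by
        intro c a ha y
        simp [← Finset.mul_sum, ha y] } with hW
  have hWB : ∀ u ∈ W, BB T' u ∈ W := by
    intro u hu y
    have h1 : ∀ x, BB T' u (x, y) = ∑ s, u (x * g s, T s y) := by
      intro x
      rw [BB_apply]
      rfl
    rw [Finset.sum_congr rfl fun x _ => h1 x, Finset.sum_comm]
    refine Finset.sum_eq_zero fun s _ => ?_
    exact (Equiv.sum_comp (Equiv.mulRight (g s)) (fun x => u (x, T s y))).trans (hu _)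
  have hπW : ∀ a, ∀ u ∈ W, π a u ∈ W := by
    intro a u hu y
    rw [Finset.sum_congr rfl fun x _ => hπa a u x y]
    exact (Equiv.sum_comp (Equiv.mulLeft a⁻¹) (fun x => u (x, y))).trans (hu y)
  have hπB : ∀ a u, BB T' (π a u) = π a (BB T' u) := by
    intro a u
    ext ω
    obtain ⟨x, y⟩ := ω
    rw [BB_apply, hπa, BB_apply]
    refine Finset.sum_congr rfl fun s _ => ?_
    show π a u (x * g s, T s y) = u (a⁻¹ * x * g s, T s y)
    rw [hπa, mul_assoc]
  have hWinv : ∀ u ∈ W, (∀ a, π a u = u) → u = 0 := by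
    intro u hu ha
    ext ω
    obtain ⟨x, y⟩ := ω
    have h1 : ∀ x', u (x', y) = u (x, y) := by
      intro x'
      have h2 := congrArg (fun w : EuclideanSpace ℂ (SLt E × Y) => w (x, y)) (ha (x * x'⁻¹))
      have h3 : (x * x'⁻¹)⁻¹ * x = x' := by group
      simp only [hπa] at h2
      rw [h3] at h2
      exact h2
    have h3 := hu y
    rw [Finset.sum_congr rfl fun x' _ => h1 x', Finset.sum_const, Finset.card_univ,
      nsmul_eq_mul] at h3
    rcases mul_eq_zero.1 h3 with h4 | h4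
    · have : (Fintype.card (SLt E) : ℂ) ≠ 0 := by exact_mod_cast Fintype.card_ne_zero
      exact absurd h4 this
    · simpa using h4
  have hL : (0 : ℝ) < Fintype.card L := by exact_mod_cast Fintype.card_pos
  by_cases hf0 : cx f = 0
  · have h1 : ∀ V, f V = 0 := by
      intro V
      have h2 := congrArg (fun w : EuclideanSpace ℂ (SLt E × Y) => w V) hf0
      have h3 : (f V : ℂ) = 0 := by simpa [cx_apply] using h2
      exact_mod_cast h3
    simp [h1]
  · have hfW : cx f ∈ W := by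
      intro y
      have h1 : ∑ x, cx f (x, y) = ((∑ x, f (x, y) : ℝ) : ℂ) := by
        push_cast
        rfl
      rw [h1, hf y]
      simp
    obtain ⟨ν, ι, hι, e, he1, he2, he3, he4⟩ := top_mult (BB T') (BB_symm T' inv hinv hT'inv) W
      hWB π hπB hπW hWinv (cx f) hfW hf0
    have h1 := trace_le T' inv hinv hT'inv e he1 ν he2 k
    have h2 : ∑ ω, wsum (2 * k) (fun v => if act T' v ω = ω then (1 : ℝ) else 0) ≤
        (Fintype.card (SLt E) : ℝ) * Fintype.card Y *
          wsum (2 * k) (fun v : List L => if (v.map g).prod = 1 then 1 else 0) := by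
      have h3 : ∀ ω : SLt E × Y, wsum (2 * k) (fun v => if act T' v ω = ω then (1 : ℝ) else 0) ≤
          wsum (2 * k) (fun v : List L => if (v.map g).prod = 1 then 1 else 0) := by
        intro ω
        obtain ⟨x, y⟩ := ω
        have h4 : ∀ v : List L, (if act T' v (x, y) = (x, y) then (1 : ℝ) else 0) ≤
            (if (v.map g).prod = 1 then (1 : ℝ) else 0) := by
          intro v
          by_cases h5 : act T' v (x, y) = (x, y)
          · have h6 : (v.map g).prod = 1 := by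
              rw [hact] at h5
              have h7 := congrArg Prod.fst h5
              simpa using h7
            rw [if_pos h5, if_pos h6]
          · rw [if_neg h5]
            split_ifs <;> norm_num
        have h5 : ∀ m (F G : List L → ℝ), (∀ v, F v ≤ G v) → wsum m F ≤ wsum m G := by
          intro m
          induction m with
          | zero => intro F G h; exact h _
          | succ m ih => intro F G h; exact Finset.sum_le_sum fun a _ => ih _ _ fun v => h _
        exact h5 _ _ _ h4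
      calc _ ≤ ∑ ω : SLt E × Y,
            wsum (2 * k) (fun v : List L => if (v.map g).prod = 1 then (1 : ℝ) else 0) :=
            Finset.sum_le_sum fun ω _ => h3 ω
        _ = _ := by
            rw [Finset.sum_const, Finset.card_univ, nsmul_eq_mul, Fintype.card_prod]
            push_cast
            ring
    have hEc : (1 : ℝ) < Fintype.card E := by exact_mod_cast Fintype.one_lt_card
    have h4 : ((Fintype.card E : ℝ) - 1) / 2 ≤ Fintype.card ι := by
      have h5 : ((Fintype.card E - 1 : ℕ) : ℝ) ≤ ((2 * Fintype.card ι : ℕ) : ℝ) := by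
        exact_mod_cast he3
      rw [Nat.cast_sub Fintype.card_pos] at h5
      push_cast at h5
      linarith
    have hν0 : 0 ≤ ν ^ (2 * k) := by rw [pow_mul]; positivity
    have h5 : ((Fintype.card E : ℝ) - 1) / 2 * ν ^ (2 * k) ≤
        ((Fintype.card E : ℝ) - 1) / 2 * (lam * Fintype.card L) ^ (2 * k) :=
      (mul_le_mul_of_nonneg_right h4 hν0).trans (h1.trans (h2.trans h))
    have h6 : ν ^ (2 * k) ≤ (lam * Fintype.card L) ^ (2 * k) :=
      le_of_mul_le_mul_left h5 (by linarith)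
    have h7 : ν ^ 2 ≤ (lam * Fintype.card L) ^ 2 := by
      rw [pow_mul, pow_mul] at h6
      exact le_of_pow_le_pow_left₀ (by omega) (sq_nonneg _) h6
    rw [BB_cx, norm_cx, norm_cx] at he4
    have h8 : ∑ V : SLt E × Y, ((∑ s, f (V.1 * g s, T s V.2)) / Fintype.card L) ^ 2 =
        (∑ V, Bop T' f V ^ 2) / (Fintype.card L : ℝ) ^ 2 := by
      rw [Finset.sum_div]
      exact Finset.sum_congr rfl fun V _ => by rw [div_pow]; rfl
    have hf1 : 0 ≤ ∑ V, f V ^ 2 := Finset.sum_nonneg fun V _ => sq_nonneg _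
    rw [h8, div_le_iff₀ (by positivity)]
    calc ∑ V, Bop T' f V ^ 2 ≤ ν ^ 2 * ∑ V, f V ^ 2 := he4
      _ ≤ (lam * Fintype.card L) ^ 2 * ∑ V, f V ^ 2 := mul_le_mul_of_nonneg_right h7 hf1
      _ = _ := by ring

end Pool.Agent.SRL
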