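import Pool.Agent.SRL.HostEval
import Pool.Agent.SRL.HostCross
import Pool.Agent.SRL.HostCard
import Pool.Agent.SRL.HostRetC
import Pool.Agent.SRL.HostTrX
import Pool.Agent.SRL.HostTrN
import Pool.Agent.SRL.HostNames
import Pool.Agent.SRL.HostSplit

/-! # Host: the gap -/

set_option autoImplicit false
set_option linter.unusedSectionVars false
set_option linter.unusedVariables false

namespace Pool.Agent.SRL

open Polynomial

namespace HG

/-- indicator of a proposition -/
noncomputable def ind (P : Prop) : ℝ := by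
  classical
  exact if P then 1 else 0

theorem ite_eq_ind (P : Prop) [Decidable P] : (if P then (1 : ℝ) else 0) = ind P := by
  by_cases h : P
  · simp [ind, h]
  · simp [ind, h]

theorem ind_nonneg (P : Prop) : 0 ≤ ind P := by
  classical
  rw [← ite_eq_ind]
  split_ifs <;> norm_num

theorem ind_pos {P : Prop} (h : P) : ind P = 1 := by
  classical
  rw [← ite_eq_ind, if_pos h]

theorem ind_neg {P : Prop} (h : ¬ P) : ind P = 0 := by
  classical
  rw [← ite_eq_ind, if_neg h]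

/-! ### sums over words -/

theorem wsum_equiv {L L' : Type} [Fintype L] [Fintype L'] (e : L ≃ L') (m : ℕ)
    (F : List L' → ℝ) : wsum m (fun v : List L => F (v.map e)) = wsum m F := by
  induction m generalizing F with
  | zero => rfl
  | succ m ih =>
    simp only [wsum, List.map_cons]
    refine Fintype.sum_equiv e _ _ fun a => ?_
    exact ih (fun l => F (e a :: l))

section

variable {p : ℕ} [hp : Fact p.Prime] {I L E : Type} [DecidableEq I] [Field E] [CharP E p]
  (H : HData p I L E)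

/-- transport of the names of class `j` along the letter `s` of class `b` -/
noncomputable def TP (b j : I) (s : L) : Equiv.Perm L :=
  if h : j = b then 1 else
    { toFun := H.tr b j s
      invFun := H.tr b j (H.inv b s)
      left_inv := fun x => H.cs.tr_inv b j s x (Ne.symm h)
      right_inv := fun x => by
        have h1 := H.cs.tr_inv b j (H.inv b s) x (Ne.symm h)
        have h2 : H.inv b (H.inv b s) = s := H.cs.inv_inv b s
        change H.tr b j (H.inv b (H.inv b s)) (H.tr b j (H.inv b s) x) = x at h1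
        rwa [h2] at h1 }

theorem TP_self (b : I) (s : L) : TP H b b s = 1 := by
  rw [TP, dif_pos rfl]

theorem TP_apply {b j : I} (h : j ≠ b) (s x : L) : TP H b j s x = H.tr b j s x := by
  rw [TP, dif_neg h]
  rfl

theorem inv_inv (b : I) (s : L) : H.inv b (H.inv b s) = s := H.cs.inv_inv b s

theorem TP_inv (b j : I) (s : L) : TP H b j (H.inv b s) = (TP H b j s)⁻¹ := by
  by_cases h : j = b
  · subst h
    rw [TP_self, TP_self, inv_one]
  · refine eq_inv_of_mul_eq_one_right (Equiv.ext fun x => ?_)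
    rw [Equiv.Perm.mul_apply, TP_apply H h, TP_apply H h, Equiv.Perm.one_apply]
    have h1 := H.cs.tr_inv b j (H.inv b s) x (Ne.symm h)
    change H.tr b j (H.inv b (H.inv b s)) (H.tr b j (H.inv b s) x) = x at h1
    rwa [inv_inv] at h1

/-- value of the transported name -/
theorem TP_val {b j : I} (h : j ≠ b) (s x : L) :
    (H.e j (TP H b j s x)).1 * (1 - H.τ j * (H.e b s).1 ^ p * (H.e j x).1) =
      (H.e j x).1 - (H.e b s).1 := by
  rw [TP_apply H h, H.e_tr (Ne.symm h)]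
  exact HE.tp_moebius p (H.τinj.ne (Ne.symm h)) (H.τ0 j) (H.e b s).2 (H.e j x).2

theorem TP_den {b j : I} (h : j ≠ b) (s x : L) :
    1 - H.τ j * (H.e b s).1 ^ p * (H.e j x).1 ≠ 0 :=
  HE.moebius_ne p (H.τinj.ne (Ne.symm h)) (H.τ0 j) (H.e b s).2 (H.e j x).2

/-- the group of the names of class `j` -/
def GG (j : I) : Subgroup (Equiv.Perm L) :=
  HX.crG (fun x : L => (H.e j x).1) (fun a b h => (H.e j).injective (Subtype.ext h))

theorem TP_mem {b j : I} (h : j ≠ b) (s : L) : TP H b j s ∈ GG H j := by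
  refine HX.mem_crG_of _ _ _ (1 - H.τ j * ((H.e b s).1 * (H.e b s).1 ^ p))
    (fun x => (1 - H.τ j * (H.e b s).1 ^ p * (H.e j x).1)⁻¹) ?_
  intro x y
  have h1 := TP_val H h s x
  have h2 := TP_val H h s y
  have d1 := TP_den H h s x
  have d2 := TP_den H h s y
  rw [← eq_div_iff d1] at h1
  rw [← eq_div_iff d2] at h2
  rw [h1, h2]
  generalize (H.e j x).1 = X at *
  generalize (H.e j y).1 = Y at *
  generalize (H.e b s).1 = η at *
  generalize η ^ p = η' at *
  generalize hdx : 1 - H.τ j * η' * X = dx at *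
  generalize hdy : 1 - H.τ j * η' * Y = dy at *
  have e1 : (X - η) / dx - (Y - η) / dy = ((X - η) * dy - (Y - η) * dx) * dx⁻¹ * dy⁻¹ := by
    field_simp
  rw [e1, ← hdx, ← hdy]
  ring

theorem GG_two [Fintype E] [Fintype L] (h3 : 3 ≤ Fintype.card L) (j : I) : TwoTrans (GG H j) :=
  HX.twoTrans_of (GG H j) h3 (fun x0 y y' hy hy' =>
    HX.crG_trans p H.odd (H.τ0 j) (H.e j) x0 y y' hy hy')

theorem GG_card [Fintype L] (h3 : 3 ≤ Fintype.card L) (hL : Fintype.card L = p + 1) (j : I) :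
    (Nat.card (GG H j) : ℝ) ≤ (p : ℝ) ^ 3 := by
  have h1 := HX.card_crG_le (fun x : L => (H.e j x).1)
    (fun a b h => (H.e j).injective (Subtype.ext h)) h3
  have h2 : Fintype.card L * (Fintype.card L - 1) * (Fintype.card L - 2) ≤ p ^ 3 := by
    rw [hL]
    have h4 : p + 1 - 1 = p := by omega
    obtain ⟨r, hr⟩ : ∃ r, p = r + 1 := ⟨p - 1, by have := hp.out.pos; omega⟩
    have h5 : p + 1 - 2 = r := by omega
    rw [h4, h5, hr]
    nlinarith
  exact_mod_cast h1.trans h2

/-! ### probability of the words with product one -/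

variable [Algebra (ZMod p) E]

theorem wsum_prod [Fintype E] [Fintype L] (hp3 : 3 ≤ p) (hδ : ∃ δ : E, δ ≠ 0 ∧ δ ^ p = -δ)
    (t : I → ZMod p) (ht : ∀ i, H.τ i = algebraMap (ZMod p) E (t i)) (m : ℕ)
    (hm : (minpoly (ZMod p) H.α).natDegree = m) (hm2 : 2 ≤ m) (b : I) :
    wsum (2 * (3 * m)) (fun v : List L => ind ((v.map (H.g b)).prod = 1)) ≤
      64 ^ (3 * m) * 2 * ((p : ℝ) + 1) ^ (2 * (3 * m)) / (p : ℝ) ^ (3 * m) := by
  classical
  have hint : IsIntegral (ZMod p) H.α := Algebra.IsIntegral.isIntegral _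
  have hirr := minpoly.irreducible hint
  have hroot : ∀ c : ZMod p, (minpoly (ZMod p) H.α).eval c ≠ 0 := by
    intro c hc
    have h1 := Polynomial.degree_eq_one_of_irreducible_of_root hirr hc
    have h2 : (minpoly (ZMod p) H.α).natDegree = 1 := Polynomial.natDegree_eq_of_degree_eq_some h1
    omega
  have hτt : t b ≠ 0 := by
    intro h
    have := ht b
    rw [h, map_zero] at this
    exact H.τ0 b this
  have hτb : algebraMap (ZMod p) E (t b) = H.τ b := (ht b).symm
  have hr := ret_count hp3 hδ (t b) hτt (ι := Unit) (fun _ => minpoly (ZMod p) H.α)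
    (fun _ => hirr) (fun _ => minpoly.monic hint) (Function.injective_of_subsingleton _)
    (fun _ => hroot 0) (fun _ => hroot (t b)) (3 * m) (by simp [hm]; omega) (by simp [hm])
  simp only [Finset.univ_unique, Finset.prod_const, Finset.card_singleton, pow_one,
    Fintype.card_unit, hm] at hr
  refine le_trans ?_ hr
  have hα : H.α ≠ 0 := by
    intro h
    have h1 : (minpoly (ZMod p) H.α).eval 0 = 0 := by
      rw [h, minpoly.zero]
      simp
    exact hroot 0 h1
  obtain ⟨δ, hδ0, hδp⟩ := hδ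
  let e' : L ≃ Nm p (algebraMap (ZMod p) E (t b)) :=
    (H.e b).trans (Equiv.subtypeEquivRight (fun x => by rw [hτb]))
  have he' : ∀ a, (e' a).1 = (H.e b a).1 := fun a => rfl
  rw [← wsum_equiv e']
  apply wsum_mono
  intro v _
  by_cases h : (v.map (H.g b)).prod = 1
  · rw [ind_pos h, if_pos]
    have hmap : (v.map e').map Subtype.val = v.map (fun a => (H.e b a).1) := by
      rw [List.map_map]
      rfl
    rw [hmap]
    have hprod : ((v.map (fun a => (H.e b a).1)).map (gm p H.α (H.β b))).prod = 1 := by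
      have h2 : ∀ w : List L, ((w.map (H.g b)).prod : Matrix (Fin 2) (Fin 2) E) =
          ((w.map (fun a => (H.e b a).1)).map (gm p H.α (H.β b))).prod := by
        intro w
        induction w with
        | nil => simp
        | cons a w ih =>
          rw [List.map_cons, List.prod_cons, Matrix.SpecialLinearGroup.coe_mul, ih]
          rfl
      rw [← h2, h, Matrix.SpecialLinearGroup.coe_one]
    refine HE.central_of_prod p (by omega) hδ0 hδp hα (H.β0 b) _ ?_ hprod
    intro η hη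
    obtain ⟨a, _, rfl⟩ := List.mem_map.1 hη
    exact nm_cj p (H.τ0 b) (H.τp b) (H.e b a).2
  · rw [ind_neg h]
    split_ifs <;> norm_num

/-! ### probability of the words that act trivially -/

theorem wsum_act [Fintype E] [Fintype L] (hp3 : 3 ≤ p) (hL : Fintype.card L = p + 1)
    (hδ : ∃ δ : E, δ ≠ 0 ∧ δ ^ p = -δ)
    (t : I → ZMod p) (ht : ∀ i, H.τ i = algebraMap (ZMod p) E (t i)) (b : I) (U : Finset I)
    (hU : U.Nonempty) (hbU : b ∉ U) :
    wsum (2 * (3 * U.card)) (fun v : List L => ind (∀ j : U, ∀ x : L, act (TP H b j) v x = x)) ≤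
      64 ^ (3 * U.card) * 2 ^ U.card * ((p : ℝ) + 1) ^ (2 * (3 * U.card)) /
        (p : ℝ) ^ (3 * U.card) := by
  classical
  have ht0 : ∀ i, t i ≠ 0 := by
    intro i h
    have := ht i
    rw [h, map_zero] at this
    exact H.τ0 i this
  have htinj : Function.Injective t := by
    intro i j h
    apply H.τinj
    rw [ht, ht, h]
  have hτb : algebraMap (ZMod p) E (t b) = H.τ b := (ht b).symm
  have hdeg : (∏ j : U, (X - C (t j)) : (ZMod p)[X]).natDegree = U.card := by
    rw [Polynomial.natDegree_prod_of_monic _ _ (fun j _ => monic_X_sub_C _)]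
    simp
  have hr := ret_count hp3 hδ (t b) (ht0 b) (ι := U) (fun j => X - C (t j))
    (fun j => irreducible_X_sub_C _) (fun j => monic_X_sub_C _)
    (by
      intro i j h
      have h1 : C (t i) = (C (t j) : (ZMod p)[X]) := by
        simpa using h
      exact Subtype.ext (htinj (C_injective h1)))
    (fun j => by simpa using ht0 j)
    (fun j => by
      rw [eval_sub, eval_X, eval_C, sub_ne_zero]
      intro h
      exact hbU (by rw [htinj h]; exact j.2)) (3 * U.card)
    (by rw [hdeg]; exact hU.card_pos) (by rw [hdeg])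
  rw [hdeg, Fintype.card_coe] at hr
  refine le_trans ?_ hr
  let e' : L ≃ Nm p (algebraMap (ZMod p) E (t b)) :=
    (H.e b).trans (Equiv.subtypeEquivRight (fun x => by rw [hτb]))
  rw [← wsum_equiv e']
  apply wsum_mono
  intro v _
  by_cases h : ∀ j : U, ∀ x : L, act (TP H b j) v x = x
  · rw [ind_pos h, if_pos]
    have hmap : (v.map e').map Subtype.val = v.map (fun a => (H.e b a).1) := by
      rw [List.map_map]
      rfl
    rw [hmap]
    obtain ⟨f⟩ : Nonempty (Fin 3 ↪ L) := by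
      rw [Function.Embedding.nonempty_iff_card_le, Fintype.card_fin, hL]
      omega
    have h01 : f 0 ≠ f 1 := f.injective.ne (by decide)
    have h02 : f 0 ≠ f 2 := f.injective.ne (by decide)
    have h12 : f 1 ≠ f 2 := f.injective.ne (by decide)
    have key : ∀ j : U, (X - C (H.τ j)) ∣ (zz p (v.map (fun a => (H.e b a).1))).2 ∧
        (X - C (H.τ j)) ∣ (zz p (v.map (fun a => (H.e b a).1))).1 -
          bar p (zz p (v.map (fun a => (H.e b a).1))).1 := by
      intro j
      have hj : (j : I) ≠ b := fun h => hbU (h ▸ j.2)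
      exact HE.central_of_act p (H.τ0 j) (fun x : L => (H.e j x).1) (fun a => (H.e b a).1)
        (fun x => (H.e j x).2) (fun a c h => (H.e j).injective (Subtype.ext h))
        (TP H b j) (fun s => nm_cj p (H.τ0 b) (H.τp b) (H.e b s).2)
        (fun s x => TP_val H hj s x) v (f 0) (f 1) (f 2) h01 h02 h12 (h j)
    have hP : (∏ j : U, (X - C (t j)) : (ZMod p)[X]).map (algebraMap (ZMod p) E) =
        ∏ j : U, (X - C (H.τ j)) := by
      rw [Polynomial.map_prod]
      refine Finset.prod_congr rfl fun j _ => ?_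
      rw [Polynomial.map_sub, Polynomial.map_X, Polynomial.map_C, ht]
    have hcop : Pairwise (fun i j : U => IsCoprime (X - C (H.τ i) : E[X]) (X - C (H.τ j))) := by
      intro i j hij
      exact Polynomial.pairwise_coprime_X_sub_C H.τinj (fun h => hij (Subtype.ext h))
    refine ⟨?_, ?_⟩
    · rw [hP]
      exact Fintype.prod_dvd_of_coprime hcop (fun j => (key j).1)
    · rw [hP]
      exact Fintype.prod_dvd_of_coprime hcop (fun j => (key j).2)
  · rw [ind_neg h]
    split_ifs <;> norm_num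

/-! ### numerics -/

theorem num_X (p m D : ℕ) (lam S Y W q : ℝ) (hp : 2 ≤ p) (hm : 1 ≤ m) (hlam : 0 < lam) (hS0 : 0 ≤ S)
    (hS : S ≤ (p : ℝ) ^ (3 * m)) (hY : Y = ((p : ℝ) + 1) ^ D) (hW0 : 0 ≤ W)
    (hW : W ≤ 64 ^ (3 * m) * 2 * ((p : ℝ) + 1) ^ (2 * (3 * m)) / (p : ℝ) ^ (3 * m))
    (hq : q = (p : ℝ) + 1) (h1 : 2 * 64 ^ 3 ≤ (p : ℝ) * lam ^ 6)
    (h2 : 8 * ((p : ℝ) + 1) ^ D ≤ 2 ^ m) :
    S * Y * W ≤ (((p : ℝ) ^ m - 1) / 2) * (lam * q) ^ (2 * (3 * m)) := by
  have hp0 : (0 : ℝ) < p := by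
    have : 0 < p := by omega
    exact_mod_cast this
  have hq0 : (0 : ℝ) < (p : ℝ) + 1 := by positivity
  have e1 : S * Y * W ≤ (p : ℝ) ^ (3 * m) * ((p : ℝ) + 1) ^ D *
      (64 ^ (3 * m) * 2 * ((p : ℝ) + 1) ^ (2 * (3 * m)) / (p : ℝ) ^ (3 * m)) := by
    rw [hY]
    exact mul_le_mul (mul_le_mul_of_nonneg_right hS (by positivity)) hW hW0 (by positivity)
  have e2 : (p : ℝ) ^ (3 * m) * ((p : ℝ) + 1) ^ D *
      (64 ^ (3 * m) * 2 * ((p : ℝ) + 1) ^ (2 * (3 * m)) / (p : ℝ) ^ (3 * m)) =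
      (2 * ((p : ℝ) + 1) ^ D * 64 ^ (3 * m)) * ((p : ℝ) + 1) ^ (2 * (3 * m)) := by
    field_simp
  have e3 : (2 * 64 ^ 3 : ℝ) ^ m ≤ ((p : ℝ) * lam ^ 6) ^ m :=
    pow_le_pow_left₀ (by norm_num) h1 m
  have e4 : (2 * 64 ^ 3 : ℝ) ^ m = 2 ^ m * 64 ^ (3 * m) := by
    rw [mul_pow, ← pow_mul]
  have e5 : ((p : ℝ) * lam ^ 6) ^ m = (p : ℝ) ^ m * lam ^ (2 * (3 * m)) := by
    rw [mul_pow, ← pow_mul]
    congr 2
    ring
  have hpm : (2 : ℝ) ≤ (p : ℝ) ^ m := by
    have h3 : (2 : ℝ) ≤ p := by exact_mod_cast hp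
    calc (2 : ℝ) ≤ p := h3
      _ = (p : ℝ) ^ 1 := (pow_one _).symm
      _ ≤ (p : ℝ) ^ m := pow_le_pow_right₀ (by linarith) hm
  have hl : 0 < lam ^ (2 * (3 * m)) := by positivity
  have e6 : 8 * ((p : ℝ) + 1) ^ D * 64 ^ (3 * m) ≤ (p : ℝ) ^ m * lam ^ (2 * (3 * m)) := by
    rw [← e5]
    refine le_trans ?_ e3
    rw [e4]
    exact mul_le_mul_of_nonneg_right h2 (by positivity)
  have e7 : 2 * ((p : ℝ) + 1) ^ D * 64 ^ (3 * m) ≤
      (((p : ℝ) ^ m - 1) / 2) * lam ^ (2 * (3 * m)) := by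
    nlinarith
  calc S * Y * W ≤ _ := e1
    _ = _ := e2
    _ ≤ ((((p : ℝ) ^ m - 1) / 2) * lam ^ (2 * (3 * m))) * ((p : ℝ) + 1) ^ (2 * (3 * m)) :=
        mul_le_mul_of_nonneg_right e7 (by positivity)
    _ = _ := by rw [hq, mul_pow]; ring

theorem num_N (p u : ℕ) (lam G W q : ℝ) (hp : 2 ≤ p) (hlam : 0 < lam) (hG0 : 0 ≤ G)
    (hG : G ≤ ((p : ℝ) ^ 3) ^ u) (hW0 : 0 ≤ W)
    (hW : W ≤ 64 ^ (3 * u) * 2 ^ u * ((p : ℝ) + 1) ^ (2 * (3 * u)) / (p : ℝ) ^ (3 * u))
    (hq : q = (p : ℝ) + 1) (h1 : 2 * 64 ^ 3 ≤ (p : ℝ) * lam ^ 6) :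
    G * W ≤ (q - 1) ^ u * (lam * q) ^ (2 * (3 * u)) := by
  have hp0 : (0 : ℝ) < p := by
    have : 0 < p := by omega
    exact_mod_cast this
  have hq0 : (0 : ℝ) < (p : ℝ) + 1 := by positivity
  have e1 : G * W ≤ ((p : ℝ) ^ 3) ^ u *
      (64 ^ (3 * u) * 2 ^ u * ((p : ℝ) + 1) ^ (2 * (3 * u)) / (p : ℝ) ^ (3 * u)) :=
    mul_le_mul hG hW hW0 (by positivity)
  have e2 : ((p : ℝ) ^ 3) ^ u *
      (64 ^ (3 * u) * 2 ^ u * ((p : ℝ) + 1) ^ (2 * (3 * u)) / (p : ℝ) ^ (3 * u)) =
      (2 * 64 ^ 3) ^ u * ((p : ℝ) + 1) ^ (2 * (3 * u)) := by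
    rw [← pow_mul, mul_pow, ← pow_mul]
    field_simp
  have e3 : (2 * 64 ^ 3 : ℝ) ^ u ≤ ((p : ℝ) * lam ^ 6) ^ u :=
    pow_le_pow_left₀ (by norm_num) h1 u
  have e5 : ((p : ℝ) * lam ^ 6) ^ u = (p : ℝ) ^ u * lam ^ (2 * (3 * u)) := by
    rw [mul_pow, ← pow_mul]
    congr 2
    ring
  calc G * W ≤ _ := e1
    _ = _ := e2
    _ ≤ ((p : ℝ) ^ u * lam ^ (2 * (3 * u))) * ((p : ℝ) + 1) ^ (2 * (3 * u)) := by
        rw [← e5]
        exact mul_le_mul_of_nonneg_right e3 (by positivity)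
    _ = _ := by
        rw [hq, mul_pow, add_sub_cancel_right]
        ring

theorem wsum_nonneg' {L : Type} [Fintype L] (m : ℕ) (F : List L → ℝ) (h : ∀ v, 0 ≤ F v) :
    0 ≤ wsum m F := by
  induction m generalizing F with
  | zero => exact h _
  | succ m ih => exact Finset.sum_nonneg fun a _ => ih _ fun v => h _

end

end HG

end Pool.Agent.SRL
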