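import Pool.Agent.SRL.HostGap

/-! # Host: the gap, the operator -/

set_option autoImplicit false
set_option linter.unusedSectionVars false
set_option linter.unusedVariables false

namespace Pool.Agent.SRL

namespace HG

section

variable {p : ℕ} [hp : Fact p.Prime] {I L E : Type} [DecidableEq I] [Field E] [CharP E p]
  (H : HData p I L E)

theorem flip_eq (b : I) (x : Matrix.SpecialLinearGroup (Fin 2) E) (φ : I → L) (s : L) :
    H.cs.flip b (x, Function.update φ b s) =
      (x * H.g b s, Function.update (fun j => TP H b j s (φ j)) b (H.inv b s)) := by
  refine Prod.ext ?_ ?_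
  · change H.cs.step b (Function.update φ b s b) x = x * H.g b s
    rw [Function.update_self]
    rfl
  · funext j
    change (if j = b then H.inv b (Function.update φ b s b) else
      H.tr b j (Function.update φ b s b) (Function.update φ b s j)) =
      Function.update (fun j => TP H b j s (φ j)) b (H.inv b s) j
    rw [Function.update_self]
    by_cases hj : j = b
    · subst hj
      rw [if_pos rfl, Function.update_self]
    · rw [if_neg hj, Function.update_of_ne hj, Function.update_of_ne hj, TP_apply H hj]

theorem A_eq [Fintype L] (b : I) (f : St I L (Matrix.SpecialLinearGroup (Fin 2) E) → ℝ)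
    (hf : Indep b f) (V : St I L (Matrix.SpecialLinearGroup (Fin 2) E)) :
    H.cs.A b f V = (∑ s, f (V.1 * H.g b s, fun j => TP H b j s (V.2 j))) / Fintype.card L := by
  obtain ⟨x, φ⟩ := V
  have h1 : ∀ s : L, f (H.cs.flip b (x, Function.update φ b s)) =
      f (x * H.g b s, fun j => TP H b j s (φ j)) := by
    intro s
    rw [flip_eq]
    exact hf _ _ _
  unfold CS.A avg
  rw [Finset.sum_congr rfl fun s _ => h1 s]

end

end HG

end Pool.Agent.SRL
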