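import Pool.Agent.SRL.HostDefs

set_option autoImplicit false
set_option linter.unusedSectionVars false
set_option linter.unusedVariables false

namespace Pool.Agent.SRL

open Polynomial

/-! ## sums over words -/

theorem wsum_mono {L : Type} [Fintype L] : ∀ (m : ℕ) (F G : List L → ℝ),
    (∀ v, v.length = m → F v ≤ G v) → wsum m F ≤ wsum m G
  | 0, F, G, h => h [] rfl
  | m + 1, F, G, h => by
    simp only [wsum]
    exact Finset.sum_le_sum fun a _ => wsum_mono m _ _ fun v hv => h (a :: v) (by simp [hv])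

theorem wsum_add {L : Type} [Fintype L] : ∀ (m : ℕ) (F G : List L → ℝ),
    wsum m (fun v => F v + G v) = wsum m F + wsum m G
  | 0, F, G => rfl
  | m + 1, F, G => by
    simp only [wsum]
    rw [← Finset.sum_add_distrib]
    exact Finset.sum_congr rfl fun a _ => wsum_add m _ _

theorem wsum_zero {L : Type} [Fintype L] : ∀ (m : ℕ), wsum m (fun _ : List L => 0) = 0
  | 0 => rfl
  | m + 1 => by
    simp only [wsum]
    exact Finset.sum_eq_zero fun a _ => wsum_zero m

theorem wsum_mul {L : Type} [Fintype L] (c : ℝ) : ∀ (m : ℕ) (F : List L → ℝ),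
    wsum m (fun v => c * F v) = c * wsum m F
  | 0, F => rfl
  | m + 1, F => by
    simp only [wsum]
    rw [Finset.mul_sum]
    exact Finset.sum_congr rfl fun a _ => wsum_mul c m _

theorem wsum_sum {L : Type} [Fintype L] {ι : Type} (s : Finset ι) (m : ℕ) (F : ι → List L → ℝ) :
    wsum m (fun v => ∑ i ∈ s, F i v) = ∑ i ∈ s, wsum m (F i) := by
  classical
  induction s using Finset.induction_on with
  | empty => simpa using wsum_zero m
  | insert a s ha ih =>
    simp only [Finset.sum_insert ha]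
    rw [wsum_add, ih]

/-! ## reduced words -/

section red

variable {L : Type} [DecidableEq L] (inv : L → L)

/-- Reduced words. -/
def IsRed : List L → Prop
  | [] => True
  | [_] => True
  | a :: b :: l => b ≠ inv a ∧ IsRed (b :: l)

/-- Push a letter on the stack. -/
def push (s : L) : List L → List L
  | [] => [s]
  | a :: l => if a = inv s then l else s :: a :: l

/-- Reduced form. -/
def red : List L → List L
  | [] => []
  | s :: v => push inv s (red v)

theorem IsRed.tail {a : L} {l : List L} (h : IsRed inv (a :: l)) : IsRed inv l := by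
  cases l with
  | nil => trivial
  | cons b l => exact h.2

theorem isRed_push (s : L) {l : List L} (h : IsRed inv l) : IsRed inv (push inv s l) := by
  cases l with
  | nil => trivial
  | cons a l =>
    simp only [push]
    split_ifs with hs
    · exact h.tail
    · exact ⟨hs, h⟩

theorem isRed_red : ∀ v : List L, IsRed inv (red inv v)
  | [] => trivial
  | s :: v => isRed_push inv s (isRed_red v)

theorem length_push (s : L) (l : List L) :
    (push inv s l).length = l.length + 1 ∨ (push inv s l).length + 1 = l.length := by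
  cases l with
  | nil => left; rfl
  | cons a l =>
    simp only [push]
    split_ifs with hs
    · right; rfl
    · left; rfl

theorem length_red (v : List L) : ∃ j, (red inv v).length + 2 * j = v.length := by
  induction v with
  | nil => exact ⟨0, rfl⟩
  | cons s v ih =>
    obtain ⟨j, hj⟩ := ih
    rcases length_push inv s (red inv v) with h | h
    · refine ⟨j, ?_⟩
      simp only [red, List.length_cons]
      omega
    · refine ⟨j + 1, ?_⟩
      simp only [red, List.length_cons]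
      omega

theorem push_eq {s : L} {x w : List L} (h : push inv s x = w) : w = s :: x ∨ x = inv s :: w := by
  cases x with
  | nil => left; exact h.symm
  | cons a l =>
    simp only [push] at h
    split_ifs at h with hs
    · right; rw [hs, h]
    · left; exact h.symm

open Classical in
/-- The number of words of length `m` with a given reduced form. -/
theorem wsum_red [Fintype L] (c : ℝ) (hc : 0 < c) (hL : (Fintype.card L : ℝ) ≤ c ^ 2) (m : ℕ) :
    ∀ w : List L, wsum m (fun v => if red inv v = w then (1 : ℝ) else 0) * c ^ w.length ≤ (2 * c) ^ m := by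
  induction m with
  | zero =>
    intro w
    simp only [wsum, red, pow_zero]
    split_ifs with h
    · subst h; simp
    · simp
  | succ m ih =>
    intro w
    have h1 : wsum (m + 1) (fun v => if red inv v = w then (1 : ℝ) else 0) ≤
        ∑ s, wsum m (fun v => if w = s :: red inv v then (1 : ℝ) else 0) +
        ∑ s, wsum m (fun v => if red inv v = inv s :: w then (1 : ℝ) else 0) := by
      simp only [wsum]
      rw [← Finset.sum_add_distrib]
      refine Finset.sum_le_sum fun s _ => ?_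
      rw [← wsum_add]
      refine wsum_mono m _ _ fun v _ => ?_
      simp only [red]
      split_ifs with h2 h3 h4 h4 <;> norm_num
      rcases push_eq inv h2 with h5 | h5
      · exact h3 h5
      · exact h4 h5
    have h2 : (∑ s, wsum m (fun v => if w = s :: red inv v then (1 : ℝ) else 0)) * c ^ w.length ≤
        (2 * c) ^ m * c := by
      cases w with
      | nil =>
        have : ∀ s : L, wsum m (fun v => if ([] : List L) = s :: red inv v then (1 : ℝ) else 0) = 0 := by
          intro s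
          simpa using wsum_zero (L := L) m
        simp only [this, Finset.sum_const_zero, zero_mul]
        positivity
      | cons a w =>
        have h3 : ∀ s : L, wsum m (fun v => if a :: w = s :: red inv v then (1 : ℝ) else 0) =
            if s = a then wsum m (fun v => if red inv v = w then (1 : ℝ) else 0) else 0 := by
          intro s
          split_ifs with hs
          · subst hs
            congr 1
            funext v
            simp only [List.cons.injEq, true_and, eq_comm]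
          · have : (fun v => if a :: w = s :: red inv v then (1 : ℝ) else 0) = fun _ => 0 := by
              funext v
              rw [if_neg]
              intro h
              exact hs (List.cons.inj h).1.symm
            rw [this, wsum_zero]
        simp only [h3, Finset.sum_ite_eq', Finset.mem_univ, if_true, List.length_cons, pow_succ]
        have := ih w
        nlinarith
    have h4 : (∑ s, wsum m (fun v => if red inv v = inv s :: w then (1 : ℝ) else 0)) * c ^ w.length ≤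
        (2 * c) ^ m * c := by
      have h5 : ∀ s : L, wsum m (fun v => if red inv v = inv s :: w then (1 : ℝ) else 0) * c ^ w.length ≤
          (2 * c) ^ m / c := by
        intro s
        have := ih (inv s :: w)
        rw [List.length_cons, pow_succ] at this
        rw [le_div_iff₀ hc]
        linarith
      calc (∑ s, wsum m (fun v => if red inv v = inv s :: w then (1 : ℝ) else 0)) * c ^ w.length
          = ∑ s, wsum m (fun v => if red inv v = inv s :: w then (1 : ℝ) else 0) * c ^ w.length := by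
            rw [Finset.sum_mul]
        _ ≤ ∑ _s : L, (2 * c) ^ m / c := Finset.sum_le_sum fun s _ => h5 s
        _ = (Fintype.card L : ℝ) * ((2 * c) ^ m / c) := by
            rw [Finset.sum_const, Finset.card_univ, nsmul_eq_mul]
        _ ≤ c ^ 2 * ((2 * c) ^ m / c) := mul_le_mul_of_nonneg_right hL (by positivity)
        _ = (2 * c) ^ m * c := by field_simp
    have hpos : 0 < c ^ w.length := by positivity
    calc wsum (m + 1) (fun v => if red inv v = w then (1 : ℝ) else 0) * c ^ w.length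
        ≤ (∑ s, wsum m (fun v => if w = s :: red inv v then (1 : ℝ) else 0) +
        ∑ s, wsum m (fun v => if red inv v = inv s :: w then (1 : ℝ) else 0)) * c ^ w.length :=
          mul_le_mul_of_nonneg_right h1 hpos.le
      _ ≤ (2 * c) ^ m * c + (2 * c) ^ m * c := by rw [add_mul]; exact add_le_add h2 h4
      _ = (2 * c) ^ (m + 1) := by ring

end red

section alg

variable (p : ℕ) [Fact p.Prime] {E : Type} [Field E] [CharP E p]

theorem bar_add (f g : E[X]) : bar p (f + g) = bar p f + bar p g := by simp [bar]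
theorem bar_sub (f g : E[X]) : bar p (f - g) = bar p f - bar p g := by simp [bar]
theorem bar_mul (f g : E[X]) : bar p (f * g) = bar p f * bar p g := by simp [bar]
theorem bar_pow (f : E[X]) (n : ℕ) : bar p (f ^ n) = bar p f ^ n := by simp [bar]
theorem bar_C (a : E) : bar p (C a) = C (a ^ p) := by simp [bar, frobenius_def]
theorem bar_X : bar p (X : E[X]) = X := by simp [bar]
theorem bar_one : bar p (1 : E[X]) = 1 := by simp [bar]
theorem bar_zero : bar p (0 : E[X]) = 0 := by simp [bar]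

theorem bar_coeff (f : E[X]) (i : ℕ) : (bar p f).coeff i = f.coeff i ^ p := by
  simp [bar, coeff_map, frobenius_def]

theorem bar_inj {f g : E[X]} (h : bar p f = bar p g) : f = g :=
  Polynomial.map_injective _ (frobenius E p).injective h

/-- All letters have class `τ`. -/
def Cls (τ : E) (v : List E) : Prop := ∀ η ∈ v, η ^ (p + 1) = τ⁻¹

theorem Cls.head {τ : E} {η : E} {v : List E} (h : Cls p τ (η :: v)) : η ^ (p + 1) = τ⁻¹ :=
  h η (by simp)

theorem Cls.tail {τ : E} {η : E} {v : List E} (h : Cls p τ (η :: v)) : Cls p τ v :=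
  fun x hx => h x (by simp [hx])

theorem ne_zero_of_cls {τ : E} (hτ : τ ≠ 0) {η : E} (h : η ^ (p + 1) = τ⁻¹) : η ≠ 0 := by
  intro h0
  rw [h0, zero_pow (by omega)] at h
  exact inv_ne_zero hτ h.symm

theorem pow_pow_of_cls {τ : E} (hτ : τ ≠ 0) (hτp : τ ^ p = τ) {η : E} (h : η ^ (p + 1) = τ⁻¹) :
    (η ^ p) ^ p = η := by
  have h0 := ne_zero_of_cls p hτ h
  have h1 : (η ^ (p + 1)) ^ p = η ^ (p + 1) := by rw [h, inv_pow, hτp]
  have h2 : (η ^ p) ^ p * η ^ p = η * η ^ p := by
    calc (η ^ p) ^ p * η ^ p = (η ^ (p + 1)) ^ p := by ring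
      _ = η ^ (p + 1) := h1
      _ = η * η ^ p := by ring
  exact mul_right_cancel₀ (pow_ne_zero p h0) h2

theorem zz_nil : zz p ([] : List E) = (1, 0) := rfl
theorem zz_cons1 (η : E) (v : List E) : (zz p (η :: v)).1 = (zz p v).1 + C η * X * bar p (zz p v).2 := rfl
theorem zz_cons2 (η : E) (v : List E) : (zz p (η :: v)).2 = (zz p v).2 + C η * bar p (zz p v).1 := rfl

theorem zz_bar {τ : E} (hτ : τ ≠ 0) (hτp : τ ^ p = τ) : ∀ (v : List E), Cls p τ v →
    bar p (bar p (zz p v).1) = (zz p v).1 ∧ bar p (bar p (zz p v).2) = (zz p v).2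
  | [], _ => by simp [zz_nil, bar_one, bar_zero]
  | η :: v, h => by
    obtain ⟨h1, h2⟩ := zz_bar hτ hτp v h.tail
    have h3 := pow_pow_of_cls p hτ hτp h.head
    refine ⟨?_, ?_⟩
    · rw [zz_cons1, bar_add, bar_add, bar_mul, bar_mul, bar_mul, bar_mul, bar_X, bar_X, bar_C, bar_C, h1, h3, h2]
    · rw [zz_cons2, bar_add, bar_add, bar_mul, bar_mul, bar_C, bar_C, h2, h3, h1]

theorem zz_norm {τ : E} (hτ : τ ≠ 0) (hτp : τ ^ p = τ) : ∀ (v : List E), Cls p τ v →
    (zz p v).1 * bar p (zz p v).1 - X * (zz p v).2 * bar p (zz p v).2 = (1 - C τ⁻¹ * X) ^ v.length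
  | [], _ => by simp [zz_nil, bar_one, bar_zero]
  | η :: v, h => by
    obtain ⟨h1, h2⟩ := zz_bar p hτ hτp v h.tail
    have ih := zz_norm hτ hτp v h.tail
    have h4 : C η * C (η ^ p) = (C τ⁻¹ : E[X]) := by
      rw [← C_mul, ← h.head]; congr 1; ring
    rw [zz_cons1, zz_cons2, bar_add, bar_add, bar_mul, bar_mul, bar_mul, bar_X, bar_C, h1, h2, List.length_cons,
      pow_succ, ← ih, ← h4]
    ring

theorem zz_eval0 : ∀ (v : List E), (zz p v).1.eval 0 = 1
  | [] => by simp [zz_nil]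
  | η :: v => by
    rw [zz_cons1, eval_add, zz_eval0 v]
    simp

theorem zz_deg : ∀ (v : List E), (∀ i, v.length < 2 * i → (zz p v).1.coeff i = 0) ∧
    (∀ i, v.length < 2 * i + 1 → (zz p v).2.coeff i = 0)
  | [] => by
    refine ⟨fun i hi => ?_, fun i _ => by simp [zz_nil]⟩
    simp only [List.length_nil] at hi
    simp only [zz_nil, coeff_one]
    rw [if_neg (by omega)]
  | η :: v => by
    obtain ⟨h1, h2⟩ := zz_deg v
    have hp : p ≠ 0 := (Fact.out : p.Prime).ne_zero
    refine ⟨fun i hi => ?_, fun i hi => ?_⟩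
    · rw [List.length_cons] at hi
      rw [zz_cons1, coeff_add, h1 i (by omega), zero_add]
      obtain ⟨j, rfl⟩ : ∃ j, i = j + 1 := ⟨i - 1, by omega⟩
      rw [mul_assoc, coeff_C_mul, mul_comm X, coeff_mul_X, bar_coeff, h2 j (by omega), zero_pow hp, mul_zero]
    · rw [List.length_cons] at hi
      rw [zz_cons2, coeff_add, h2 i (by omega), zero_add, coeff_C_mul, bar_coeff, h1 i (by omega), zero_pow hp,
        mul_zero]

theorem bar_pi {τ : E} (hτp : τ ^ p = τ) : bar p (1 - C τ⁻¹ * X : E[X]) = 1 - C τ⁻¹ * X := by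
  rw [bar_sub, bar_mul, bar_C, bar_X, bar_one, inv_pow, hτp]

theorem zz_scale {η : E} {v w : List E} {c : E[X]} (hc : bar p c = c)
    (h1 : (zz p v).1 = c * (zz p w).1) (h2 : (zz p v).2 = c * (zz p w).2) :
    (zz p (η :: v)).1 = c * (zz p (η :: w)).1 ∧ (zz p (η :: v)).2 = c * (zz p (η :: w)).2 := by
  rw [zz_cons1, zz_cons2, zz_cons1, zz_cons2, h1, h2, bar_mul, bar_mul, hc]
  constructor <;> ring

theorem zz_cancel {τ : E} (hτ : τ ≠ 0) (hτp : τ ^ p = τ) (hodd : Odd p) {η : E} (h : η ^ (p + 1) = τ⁻¹) (v : List E)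
    (hv : Cls p τ v) :
    (zz p (η :: (-η) :: v)).1 = (1 - C τ⁻¹ * X) * (zz p v).1 ∧
    (zz p (η :: (-η) :: v)).2 = (1 - C τ⁻¹ * X) * (zz p v).2 := by
  obtain ⟨h1, h2⟩ := zz_bar p hτ hτp v hv
  have h4 : C η * C (η ^ p) = (C τ⁻¹ : E[X]) := by
    rw [← C_mul, ← h]; congr 1; ring
  have h5 : (C ((-η) ^ p) : E[X]) = - C (η ^ p) := by rw [hodd.neg_pow, C_neg]
  have h6 : (C (-η) : E[X]) = - C η := C_neg
  refine ⟨?_, ?_⟩
  · rw [zz_cons1, zz_cons1, zz_cons2, bar_add, bar_mul, bar_C, h1, h5, h6, ← h4]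
    ring
  · rw [zz_cons2, zz_cons1, zz_cons2, bar_add, bar_mul, bar_mul, bar_C, bar_X, h2, h5, h6, ← h4]
    ring

theorem zz_head {τ : E} (hτ : τ ≠ 0) (hτp : τ ^ p = τ) : ∀ (v : List E) (s : E), Cls p τ (s :: v) →
    List.IsChain (fun a b => b ≠ -a) (s :: v) →
    (zz p (s :: v)).1.eval τ ≠ 0 ∧ (bar p (zz p (s :: v)).2).eval τ = s ^ p * (zz p (s :: v)).1.eval τ
  | [], s, h, _ => by
    simp [zz_cons1, zz_cons2, zz_nil, bar_zero, bar_one, bar_C]
  | s' :: v, s, h, hc => by
    obtain ⟨i1, i2⟩ := zz_head hτ hτp v s' h.tail hc.tail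
    obtain ⟨b1, b2⟩ := zz_bar p hτ hτp (s' :: v) h.tail
    have hs : s ^ (p + 1) = τ⁻¹ := h.head
    have hs0 : s ≠ 0 := ne_zero_of_cls p hτ hs
    have hst : s ^ p * (s * τ) = 1 := by
      have : s ^ p * s = τ⁻¹ := by rw [← hs]; ring
      rw [← mul_assoc, this, inv_mul_cancel₀ hτ]
    have e1 : (zz p (s :: s' :: v)).1.eval τ = (zz p (s' :: v)).1.eval τ * (1 + s * τ * s' ^ p) := by
      rw [zz_cons1, eval_add, eval_mul, eval_mul, eval_C, eval_X, i2]; ring
    have e2 : (bar p (zz p (s :: s' :: v)).2).eval τ = (zz p (s' :: v)).1.eval τ * (s' ^ p + s ^ p) := by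
      rw [zz_cons2, bar_add, bar_mul, bar_C, b1, eval_add, eval_mul, eval_C, i2]; ring
    have e3 : s ^ p * (1 + s * τ * s' ^ p) = s' ^ p + s ^ p := by
      calc s ^ p * (1 + s * τ * s' ^ p) = s ^ p + (s ^ p * (s * τ)) * s' ^ p := by ring
        _ = s' ^ p + s ^ p := by rw [hst]; ring
    refine ⟨?_, ?_⟩
    · rw [e1]
      refine mul_ne_zero i1 fun h0 => ?_
      rw [h0, mul_zero] at e3
      have h5 : (s' + s) ^ p = 0 := by rw [add_pow_char]; exact e3.symm
      have h6 : s' + s = 0 := pow_eq_zero_iff (Fact.out : p.Prime).ne_zero |>.1 h5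
      have h7 : s' ≠ -s := by
        simp only [List.isChain_cons_cons] at hc
        exact hc.1
      exact h7 (eq_neg_of_add_eq_zero_left h6)
    · rw [e1, e2, ← e3]; ring

theorem pi_ne_zero (τ : E) : (1 - C τ⁻¹ * X : E[X]) ≠ 0 := by
  intro h
  have := congrArg (fun f => eval 0 f) h
  simp at this

theorem zz_inj {τ : E} (hτ : τ ≠ 0) (hτp : τ ^ p = τ) : ∀ (v w : List E), Cls p τ v → Cls p τ w →
    List.IsChain (fun a b => b ≠ -a) v → List.IsChain (fun a b => b ≠ -a) w → zz p v = zz p w → v = w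
  | [], [], _, _, _, _, _ => rfl
  | [], s :: w, _, hw, _, cw, h => by
    obtain ⟨i1, i2⟩ := zz_head p hτ hτp w s hw cw
    rw [← h] at i1 i2
    simp only [zz_nil, bar_zero, eval_zero, eval_one, mul_one] at i2
    exact absurd i2.symm (pow_ne_zero p (ne_zero_of_cls p hτ hw.head))
  | s :: v, [], hv, _, cv, _, h => by
    obtain ⟨i1, i2⟩ := zz_head p hτ hτp v s hv cv
    rw [h] at i1 i2
    simp only [zz_nil, bar_zero, eval_zero, eval_one, mul_one] at i2
    exact absurd i2.symm (pow_ne_zero p (ne_zero_of_cls p hτ hv.head))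
  | s :: v, s' :: w, hv, hw, cv, cw, h => by
    obtain ⟨i1, i2⟩ := zz_head p hτ hτp v s hv cv
    obtain ⟨j1, j2⟩ := zz_head p hτ hτp w s' hw cw
    have hs : s = s' := by
      rw [h] at i1 i2
      have : s ^ p = s' ^ p := mul_right_cancel₀ i1 (i2.symm.trans j2)
      exact frobenius_inj E p this
    subst hs
    have h1 := congrArg Prod.fst h
    have h2 := congrArg Prod.snd h
    rw [zz_cons1, zz_cons1] at h1
    rw [zz_cons2, zz_cons2] at h2
    obtain ⟨a1, a2⟩ := zz_bar p hτ hτp v hv.tail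
    obtain ⟨b1, b2⟩ := zz_bar p hτ hτp w hw.tail
    have h3 := congrArg (bar p) h2
    rw [bar_add, bar_add, bar_mul, bar_mul, bar_C, a1, b1] at h3
    have h4 : C s * C (s ^ p) = (C τ⁻¹ : E[X]) := by
      rw [← C_mul, ← hv.head]; congr 1; ring
    have h5 : (1 - C τ⁻¹ * X) * (zz p v).1 = (1 - C τ⁻¹ * X) * (zz p w).1 := by
      rw [← h4]
      linear_combination h1 - C s * X * h3
    have h6 : (zz p v).1 = (zz p w).1 := mul_left_cancel₀ (pi_ne_zero τ) h5
    have h7 : (zz p v).2 = (zz p w).2 := by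
      rw [h6] at h2
      exact add_right_cancel h2
    have := zz_inj hτ hτp v w hv.tail hw.tail cv.tail cw.tail (Prod.ext h6 h7)
    rw [this]

end alg


section count

variable (p : ℕ) [Fact p.Prime] {E : Type} [Field E] [CharP E p]

/-- The inverse letter. -/
def ninv {τ : E} (hodd : Odd p) (s : Nm p τ) : Nm p τ :=
  ⟨-s.1, by rw [(hodd.add_one).neg_pow]; exact s.2⟩

theorem cls_map {τ : E} (v : List (Nm p τ)) : Cls p τ (v.map Subtype.val) := by
  intro η hη
  obtain ⟨s, _, rfl⟩ := List.mem_map.1 hη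
  exact s.2

theorem chain_map {τ : E} (hodd : Odd p) : ∀ (v : List (Nm p τ)), IsRed (ninv p hodd) v →
    List.IsChain (fun a b => b ≠ -a) (v.map Subtype.val)
  | [], _ => List.IsChain.nil
  | [a], _ => List.IsChain.singleton _
  | a :: b :: l, h => by
    have := chain_map hodd (b :: l) h.2
    simp only [List.map_cons] at this ⊢
    rw [List.isChain_cons_cons]
    refine ⟨fun h0 => h.1 (Subtype.ext h0), this⟩

open Classical in
theorem zz_red {τ : E} (hτ : τ ≠ 0) (hτp : τ ^ p = τ) (hodd : Odd p) : ∀ (v : List (Nm p τ)),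
    ∃ j : ℕ, (zz p (v.map Subtype.val)).1 = (1 - C τ⁻¹ * X) ^ j * (zz p ((red (ninv p hodd) v).map Subtype.val)).1 ∧
      (zz p (v.map Subtype.val)).2 = (1 - C τ⁻¹ * X) ^ j * (zz p ((red (ninv p hodd) v).map Subtype.val)).2
  | [] => ⟨0, by simp [red], by simp [red]⟩
  | s :: v => by
    obtain ⟨j, h1, h2⟩ := zz_red hτ hτp hodd v
    have hb : bar p ((1 - C τ⁻¹ * X : E[X]) ^ j) = (1 - C τ⁻¹ * X) ^ j := by rw [bar_pow, bar_pi p hτp]
    obtain ⟨g1, g2⟩ := zz_scale p (η := s.1) hb h1 h2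
    rw [List.map_cons]
    cases hr : red (ninv p hodd) v with
    | nil =>
      rw [hr] at g1 g2
      refine ⟨j, ?_⟩
      simp only [red, hr, push]
      exact ⟨g1, g2⟩
    | cons a l =>
      rw [hr] at g1 g2
      simp only [red, hr, push]
      split_ifs with hs
      · refine ⟨j + 1, ?_⟩
        rw [hs] at g1 g2
        obtain ⟨c1, c2⟩ := zz_cancel p hτ hτp hodd s.2 (l.map Subtype.val) (cls_map p l)
        simp only [List.map_cons, ninv] at g1 g2
        rw [c1] at g1
        rw [c2] at g2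
        rw [g1, g2, pow_succ]
        constructor <;> ring
      · exact ⟨j, g1, g2⟩

open Classical in
theorem central_red [Algebra (ZMod p) E] {τ : E} (hτ : τ ≠ 0) (hτp : τ ^ p = τ) (hodd : Odd p) (P : (ZMod p)[X])
    (hP : IsCoprime (P.map (algebraMap (ZMod p) E)) (1 - C τ⁻¹ * X)) (v : List (Nm p τ)) :
    Central p P (v.map Subtype.val) ↔ Central p P ((red (ninv p hodd) v).map Subtype.val) := by
  obtain ⟨j, h1, h2⟩ := zz_red p hτ hτp hodd v
  have hb : bar p ((1 - C τ⁻¹ * X : E[X]) ^ j) = (1 - C τ⁻¹ * X) ^ j := by rw [bar_pow, bar_pi p hτp]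
  unfold Central
  rw [h1, h2, bar_mul, hb, ← mul_sub]
  have hQ : IsCoprime (P.map (algebraMap (ZMod p) E)) ((1 - C τ⁻¹ * X : E[X]) ^ j) := hP.pow_right
  constructor
  · rintro ⟨g1, g2⟩
    exact ⟨hQ.dvd_of_dvd_mul_left g1, hQ.dvd_of_dvd_mul_left g2⟩
  · rintro ⟨g1, g2⟩
    exact ⟨dvd_mul_of_dvd_right g1 _, dvd_mul_of_dvd_right g2 _⟩

/-- The points of the counting lemma. -/
def ZR (τ : E) (PP : E[X]) (l : ℕ) : Set (E[X] × E[X]) :=
  {z | bar p (bar p z.1) = z.1 ∧ bar p (bar p z.2) = z.2 ∧ z.1.natDegree ≤ l ∧ z.2.degree < l ∧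
    z.1 * bar p z.1 - X * z.2 * bar p z.2 = (1 - C τ⁻¹ * X) ^ (2 * l) ∧ z.1.eval 0 = 1 ∧ PP ∣ z.2 ∧
    PP ∣ z.1 - bar p z.1}

theorem zr_finite [Finite E] (τ : E) (PP : E[X]) (l : ℕ) : (ZR p τ PP l).Finite := by
  have : (ZR p τ PP l).InjOn (fun z => ((fun i : Fin (l + 1) => z.1.coeff i), fun i : Fin (l + 1) => z.2.coeff i)) := by
    intro z hz w hw h
    simp only [Prod.mk.injEq] at h
    obtain ⟨h1, h2⟩ := h
    have h3 : z.2.natDegree ≤ l := natDegree_le_of_degree_le (le_of_lt hz.2.2.2.1)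
    have h4 : w.2.natDegree ≤ l := natDegree_le_of_degree_le (le_of_lt hw.2.2.2.1)
    refine Prod.ext ?_ ?_
    · ext i
      by_cases hi : i < l + 1
      · exact congrFun h1 ⟨i, hi⟩
      · rw [coeff_eq_zero_of_natDegree_lt (lt_of_le_of_lt hz.2.2.1 (by omega)),
          coeff_eq_zero_of_natDegree_lt (lt_of_le_of_lt hw.2.2.1 (by omega))]
    · ext i
      by_cases hi : i < l + 1
      · exact congrFun h2 ⟨i, hi⟩
      · rw [coeff_eq_zero_of_natDegree_lt (lt_of_le_of_lt h3 (by omega)),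
          coeff_eq_zero_of_natDegree_lt (lt_of_le_of_lt h4 (by omega))]
  exact Set.Finite.of_injOn (Set.mapsTo_univ _ _) this Set.finite_univ

theorem zz_mem [Algebra (ZMod p) E] {τ : E} (hτ : τ ≠ 0) (hτp : τ ^ p = τ) (P : (ZMod p)[X]) (v : List E)
    (hv : Cls p τ v) (hc : Central p P v) (l : ℕ) (hl : v.length = 2 * l) :
    zz p v ∈ ZR p τ (P.map (algebraMap (ZMod p) E)) l := by
  obtain ⟨h1, h2⟩ := zz_bar p hτ hτp v hv
  obtain ⟨d1, d2⟩ := zz_deg p v
  refine ⟨h1, h2, ?_, ?_, ?_, zz_eval0 p v, hc.1, hc.2⟩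
  · rw [natDegree_le_iff_coeff_eq_zero]
    intro N hN
    exact d1 N (by omega)
  · rw [degree_lt_iff_coeff_zero]
    intro N hN
    exact d2 N (by omega)
  · rw [zz_norm p hτ hτp v hv, hl]

theorem card_nm_le [Fintype E] {τ : E} [Fintype (Nm p τ)] : Fintype.card (Nm p τ) ≤ p + 1 := by
  classical
  have h1 : Fintype.card (Nm p τ) ≤ (nthRoots (p + 1) (τ⁻¹)).toFinset.card := by
    rw [← Finset.card_univ]
    refine Finset.card_le_card_of_injOn (fun s : Nm p τ => s.1) ?_ (fun a _ b _ h => Subtype.ext h)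
    intro s _
    simp only [Finset.mem_coe, Multiset.mem_toFinset]
    rw [mem_nthRoots (by omega)]
    exact s.2
  exact h1.trans ((Multiset.toFinset_card_le _).trans (card_nthRoots _ _))

open Classical in
/-- Central reduced words of length `2 l`. -/
noncomputable def RS [Fintype E] [Algebra (ZMod p) E] {τ : E} (hodd : Odd p) (P : (ZMod p)[X]) (l : ℕ) :
    Finset (List (Nm p τ)) :=
  ((List.finite_length_eq (Nm p τ) (2 * l)).toFinset).filter
    (fun w => IsRed (ninv p hodd) w ∧ Central p P (w.map Subtype.val))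

theorem mem_RS [Fintype E] [Algebra (ZMod p) E] {τ : E} (hodd : Odd p) (P : (ZMod p)[X]) (l : ℕ)
    (w : List (Nm p τ)) : w ∈ RS p (τ := τ) hodd P l ↔
      w.length = 2 * l ∧ IsRed (ninv p hodd) w ∧ Central p P (w.map Subtype.val) := by
  classical
  unfold RS
  rw [Finset.mem_filter, Set.Finite.mem_toFinset]
  rfl

theorem card_RS_le [Fintype E] [Algebra (ZMod p) E] {τ : E} (hτ : τ ≠ 0) (hτp : τ ^ p = τ) (hodd : Odd p)
    (P : (ZMod p)[X]) (l : ℕ) :
    (RS p (τ := τ) hodd P l).card ≤ (ZR p τ (P.map (algebraMap (ZMod p) E)) l).ncard := by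
  classical
  rw [← Set.ncard_coe_finset]
  refine Set.ncard_le_ncard_of_injOn (fun w => zz p (w.map Subtype.val)) ?_ ?_ (zr_finite p τ _ l)
  · intro w hw
    obtain ⟨h1, h2, h3⟩ := (mem_RS p hodd P l w).1 hw
    exact zz_mem p hτ hτp P _ (cls_map p w) h3 l (by rw [List.length_map, h1])
  · intro w hw w' hw' h
    obtain ⟨h1, h2, h3⟩ := (mem_RS p hodd P l w).1 hw
    obtain ⟨h1', h2', h3'⟩ := (mem_RS p hodd P l w').1 hw'
    have := zz_inj p hτ hτp _ _ (cls_map p w) (cls_map p w') (chain_map p hodd w h2) (chain_map p hodd w' h2') h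
    exact List.map_injective_iff.2 Subtype.val_injective this

theorem RS_zero [Fintype E] [Algebra (ZMod p) E] {τ : E} (hodd : Odd p) (P : (ZMod p)[X]) :
    (RS p (τ := τ) hodd P 0).card ≤ 1 := by
  rw [Finset.card_le_one]
  intro a ha b hb
  have h1 := ((mem_RS p hodd P 0 a).1 ha).1
  have h2 := ((mem_RS p hodd P 0 b).1 hb).1
  have e1 : a = [] := List.length_eq_zero_iff.1 (by omega)
  have e2 : b = [] := List.length_eq_zero_iff.1 (by omega)
  rw [e1, e2]

theorem RS_small [Fintype E] [Algebra (ZMod p) E] {τ : E} (hτ : τ ≠ 0) (hτp : τ ^ p = τ) (hodd : Odd p)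
    (P : (ZMod p)[X]) (l : ℕ) (hl : 1 ≤ l)
    (h0 : ZR p τ (P.map (algebraMap (ZMod p) E)) l ⊆ {((1 - C τ⁻¹ * X) ^ l, 0)}) :
    (RS p (τ := τ) hodd P l).card = 0 := by
  rw [Finset.card_eq_zero, Finset.eq_empty_iff_forall_notMem]
  intro w hw
  obtain ⟨h1, h2, h3⟩ := (mem_RS p hodd P l w).1 hw
  have h4 := h0 (zz_mem p hτ hτp P _ (cls_map p w) h3 l (by rw [List.length_map, h1]))
  rw [Set.mem_singleton_iff] at h4
  cases w with
  | nil => simp at h1; omega
  | cons s w =>
    have h5 := (zz_head p hτ hτp (w.map Subtype.val) s.1 (cls_map p (s :: w)) (chain_map p hodd (s :: w) h2)).1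
    rw [List.map_cons] at h4
    rw [h4] at h5
    apply h5
    simp only [eval_pow, eval_sub, eval_one, eval_mul, eval_C, eval_X, inv_mul_cancel₀ hτ, sub_self]
    exact zero_pow (by omega)

open Classical in
theorem ret_of_count (hp : 3 ≤ p) [Fintype E] [Algebra (ZMod p) E] {τ : E} (hτ : τ ≠ 0) (hτp : τ ^ p = τ)
    [Fintype (Nm p τ)] (P : (ZMod p)[X])
    (hP : IsCoprime (P.map (algebraMap (ZMod p) E)) (1 - C τ⁻¹ * X)) (o u : ℕ) (hu : 1 ≤ u)
    (h0 : ∀ l, 1 ≤ l → l < u → ZR p τ (P.map (algebraMap (ZMod p) E)) l ⊆ {((1 - C τ⁻¹ * X) ^ l, 0)})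
    (h1 : (ZR p τ (P.map (algebraMap (ZMod p) E)) u).ncard ≤ 2 ^ o * 4 ^ u * (p + 1))
    (h2 : ∀ l, u < l → l ≤ 2 * u → (ZR p τ (P.map (algebraMap (ZMod p) E)) l).ncard ≤
      2 ^ o * 4 ^ l * 2 * (p + 1) * p ^ (l - u - 1))
    (h3 : ∀ l, 2 * u + 1 ≤ l → (ZR p τ (P.map (algebraMap (ZMod p) E)) l).ncard ≤
      2 ^ o * 4 ^ l * (p + 1) ^ 2 * p ^ (2 * l - 3 * u - 2))
    (k : ℕ) (hk : 3 * u ≤ k) :
    wsum (2 * k) (fun v : List (Nm p τ) => if Central p P (v.map Subtype.val) then (1 : ℝ) else 0) ≤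
      64 ^ k * 2 ^ o * ((p : ℝ) + 1) ^ (2 * k) / (p : ℝ) ^ (3 * u) := by
  have hpp : p.Prime := Fact.out
  have hodd : Odd p := hpp.odd_of_ne_two (by omega)
  have hppos : (0 : ℝ) < p := by exact_mod_cast hpp.pos
  set P1 : ℝ := (p : ℝ) + 1 with hP1
  have hP1pos : 0 < P1 := by positivity
  set c : ℝ := Real.sqrt P1 with hc
  have hcpos : 0 < c := Real.sqrt_pos.2 hP1pos
  have hc2 : c ^ 2 = P1 := Real.sq_sqrt hP1pos.le
  have hcard : (Fintype.card (Nm p τ) : ℝ) ≤ c ^ 2 := by
    rw [hc2, hP1]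
    exact_mod_cast card_nm_le p (τ := τ)
  -- natural number bound
  have key : ∀ l, l ≤ k → (RS p (τ := τ) hodd P l).card * p ^ (3 * u) ≤ 2 ^ (o + 1) * 4 ^ l * (p + 1) ^ (k + l) := by
    intro l hl
    have hle : ∀ n, p ^ n ≤ (p + 1) ^ n := fun n => Nat.pow_le_pow_left (by omega) n
    have hmono : ∀ {a b : ℕ}, a ≤ b → (p + 1) ^ a ≤ (p + 1) ^ b := fun h => Nat.pow_le_pow_right (by omega) h
    rcases Nat.eq_zero_or_pos l with rfl | hl0
    · calc (RS p (τ := τ) hodd P 0).card * p ^ (3 * u) ≤ 1 * (p + 1) ^ (3 * u) :=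
            Nat.mul_le_mul (RS_zero p hodd P) (hle _)
        _ ≤ 1 * (p + 1) ^ (k + 0) := Nat.mul_le_mul_left _ (hmono (by omega))
        _ ≤ 2 ^ (o + 1) * 4 ^ 0 * (p + 1) ^ (k + 0) := Nat.mul_le_mul_right _ (by
            rw [pow_zero, mul_one]; exact Nat.one_le_two_pow)
    rcases lt_or_ge l u with hlu | hlu
    · rw [RS_small p hτ hτp hodd P l hl0 (h0 l hl0 hlu)]
      simp
    have hcl := card_RS_le p hτ hτp hodd P l
    rcases eq_or_lt_of_le hlu with rfl | hlu'
    · calc (RS p (τ := τ) hodd P u).card * p ^ (3 * u) ≤ (2 ^ o * 4 ^ u * (p + 1)) * (p + 1) ^ (3 * u) :=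
            Nat.mul_le_mul (hcl.trans h1) (hle _)
        _ = 2 ^ o * 4 ^ u * (p + 1) ^ (3 * u + 1) := by ring
        _ ≤ 2 ^ o * 4 ^ u * (p + 1) ^ (k + u) := Nat.mul_le_mul_left _ (hmono (by omega))
        _ ≤ 2 ^ (o + 1) * 4 ^ u * (p + 1) ^ (k + u) := by
            refine Nat.mul_le_mul_right _ (Nat.mul_le_mul_right _ (Nat.pow_le_pow_right (by omega) (by omega)))
    rcases le_or_gt l (2 * u) with hl2 | hl2
    · calc (RS p (τ := τ) hodd P l).card * p ^ (3 * u)
          ≤ (2 ^ o * 4 ^ l * 2 * (p + 1) * (p + 1) ^ (l - u - 1)) * (p + 1) ^ (3 * u) :=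
            Nat.mul_le_mul (hcl.trans ((h2 l hlu' hl2).trans (Nat.mul_le_mul_left _ (hle _)))) (hle _)
        _ = 2 ^ (o + 1) * 4 ^ l * (p + 1) ^ (1 + (l - u - 1) + 3 * u) := by ring
        _ ≤ 2 ^ (o + 1) * 4 ^ l * (p + 1) ^ (k + l) := Nat.mul_le_mul_left _ (hmono (by omega))
    · calc (RS p (τ := τ) hodd P l).card * p ^ (3 * u)
          ≤ (2 ^ o * 4 ^ l * (p + 1) ^ 2 * p ^ (2 * l - 3 * u - 2)) * p ^ (3 * u) :=
            Nat.mul_le_mul_right _ (hcl.trans (h3 l (by omega)))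
        _ = 2 ^ o * 4 ^ l * (p + 1) ^ 2 * p ^ ((2 * l - 3 * u - 2) + 3 * u) := by ring
        _ ≤ 2 ^ o * 4 ^ l * (p + 1) ^ 2 * (p + 1) ^ ((2 * l - 3 * u - 2) + 3 * u) := Nat.mul_le_mul_left _ (hle _)
        _ = 2 ^ o * 4 ^ l * (p + 1) ^ (2 + ((2 * l - 3 * u - 2) + 3 * u)) := by ring
        _ ≤ 2 ^ o * 4 ^ l * (p + 1) ^ (k + l) := Nat.mul_le_mul_left _ (hmono (by omega))
        _ ≤ 2 ^ (o + 1) * 4 ^ l * (p + 1) ^ (k + l) := by
            refine Nat.mul_le_mul_right _ (Nat.mul_le_mul_right _ (Nat.pow_le_pow_right (by omega) (by omega)))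
  -- step A
  have hA : wsum (2 * k) (fun v : List (Nm p τ) => if Central p P (v.map Subtype.val) then (1 : ℝ) else 0) ≤
      wsum (2 * k) (fun v : List (Nm p τ) => ∑ l ∈ Finset.range (k + 1), ∑ w ∈ RS p (τ := τ) hodd P l,
        if red (ninv p hodd) v = w then (1 : ℝ) else 0) := by
    refine wsum_mono _ _ _ fun v hv => ?_
    split_ifs with hcv
    · obtain ⟨j, hj⟩ := length_red (ninv p hodd) v
      have hmem : red (ninv p hodd) v ∈ RS p (τ := τ) hodd P (k - j) := by
        rw [mem_RS]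
        refine ⟨by omega, isRed_red _ v, (central_red p hτ hτp hodd P hP v).1 hcv⟩
      have hnn : ∀ l ∈ Finset.range (k + 1), (0 : ℝ) ≤ ∑ w ∈ RS p (τ := τ) hodd P l,
          if red (ninv p hodd) v = w then (1 : ℝ) else 0 :=
        fun l _ => Finset.sum_nonneg fun w _ => by split_ifs <;> norm_num
      refine le_trans ?_ (Finset.single_le_sum hnn (Finset.mem_range.2 (show k - j < k + 1 by omega)))
      have hnn2 : ∀ w ∈ RS p (τ := τ) hodd P (k - j), (0 : ℝ) ≤ if red (ninv p hodd) v = w then (1 : ℝ) else 0 :=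
        fun w _ => by split_ifs <;> norm_num
      refine le_trans ?_ (Finset.single_le_sum hnn2 hmem)
      rw [if_pos rfl]
    · exact Finset.sum_nonneg fun l _ => Finset.sum_nonneg fun w _ => by split_ifs <;> norm_num
  -- step B
  have hB : ∀ l ∈ Finset.range (k + 1), wsum (2 * k) (fun v : List (Nm p τ) => ∑ w ∈ RS p (τ := τ) hodd P l,
      if red (ninv p hodd) v = w then (1 : ℝ) else 0) ≤ 2 ^ (o + 1) * 4 ^ l * 4 ^ k * P1 ^ (2 * k) / (p : ℝ) ^ (3 * u) := by
    intro l hl
    have hlk : l ≤ k := by rw [Finset.mem_range] at hl; omega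
    rw [wsum_sum]
    have h4 : ∀ w ∈ RS p (τ := τ) hodd P l, wsum (2 * k) (fun v : List (Nm p τ) =>
        if red (ninv p hodd) v = w then (1 : ℝ) else 0) ≤ (4 * P1) ^ k / P1 ^ l := by
      intro w hw
      have hlen := ((mem_RS p hodd P l w).1 hw).1
      have := wsum_red (ninv p hodd) c hcpos hcard (2 * k) w
      rw [hlen, pow_mul, hc2, pow_mul, mul_pow, hc2] at this
      rw [le_div_iff₀ (by positivity)]
      norm_num at this ⊢
      exact this
    have hk2 : ((RS p (τ := τ) hodd P l).card : ℝ) * (p : ℝ) ^ (3 * u) ≤ 2 ^ (o + 1) * 4 ^ l * P1 ^ (k + l) := by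
      have := key l hlk
      rw [hP1]
      exact_mod_cast this
    calc ∑ w ∈ RS p (τ := τ) hodd P l, wsum (2 * k) (fun v : List (Nm p τ) =>
        if red (ninv p hodd) v = w then (1 : ℝ) else 0)
        ≤ ∑ w ∈ RS p (τ := τ) hodd P l, (4 * P1) ^ k / P1 ^ l := Finset.sum_le_sum h4
      _ = ((RS p (τ := τ) hodd P l).card : ℝ) * ((4 * P1) ^ k / P1 ^ l) := by rw [Finset.sum_const, nsmul_eq_mul]
      _ = (((RS p (τ := τ) hodd P l).card : ℝ) * (p : ℝ) ^ (3 * u)) * ((4 * P1) ^ k / P1 ^ l) / (p : ℝ) ^ (3 * u) := by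
          field_simp
      _ ≤ (2 ^ (o + 1) * 4 ^ l * P1 ^ (k + l)) * ((4 * P1) ^ k / P1 ^ l) / (p : ℝ) ^ (3 * u) := by
          refine div_le_div_of_nonneg_right (mul_le_mul_of_nonneg_right hk2 (by positivity)) (by positivity)
      _ = 2 ^ (o + 1) * 4 ^ l * 4 ^ k * P1 ^ (2 * k) / (p : ℝ) ^ (3 * u) := by
          have e1 : P1 ^ (k + l) = P1 ^ k * P1 ^ l := pow_add _ _ _
          have e2 : P1 ^ (2 * k) = P1 ^ k * P1 ^ k := by rw [two_mul, pow_add]
          have e3 : (4 * P1) ^ k = 4 ^ k * P1 ^ k := mul_pow _ _ _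
          have e4 : P1 ^ l ≠ 0 := pow_ne_zero _ hP1pos.ne'
          rw [e1, e2, e3]
          field_simp
  have hgeo : ∀ n : ℕ, ∑ l ∈ Finset.range n, (4 : ℝ) ^ l ≤ 4 ^ n / 2 := by
    intro n
    induction n with
    | zero => norm_num
    | succ n ih =>
      rw [Finset.sum_range_succ, pow_succ]
      have : (0 : ℝ) < 4 ^ n := by positivity
      linarith
  calc wsum (2 * k) (fun v : List (Nm p τ) => if Central p P (v.map Subtype.val) then (1 : ℝ) else 0)
      ≤ wsum (2 * k) (fun v : List (Nm p τ) => ∑ l ∈ Finset.range (k + 1), ∑ w ∈ RS p (τ := τ) hodd P l,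
        if red (ninv p hodd) v = w then (1 : ℝ) else 0) := hA
    _ = ∑ l ∈ Finset.range (k + 1), wsum (2 * k) (fun v : List (Nm p τ) => ∑ w ∈ RS p (τ := τ) hodd P l,
        if red (ninv p hodd) v = w then (1 : ℝ) else 0) := wsum_sum _ _ _
    _ ≤ ∑ l ∈ Finset.range (k + 1), 2 ^ (o + 1) * 4 ^ l * 4 ^ k * P1 ^ (2 * k) / (p : ℝ) ^ (3 * u) :=
        Finset.sum_le_sum hB
    _ = (∑ l ∈ Finset.range (k + 1), (4 : ℝ) ^ l) * (2 ^ (o + 1) * 4 ^ k * P1 ^ (2 * k) / (p : ℝ) ^ (3 * u)) := by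
        rw [Finset.sum_mul]
        exact Finset.sum_congr rfl fun l _ => by ring
    _ ≤ (4 ^ (k + 1) / 2) * (2 ^ (o + 1) * 4 ^ k * P1 ^ (2 * k) / (p : ℝ) ^ (3 * u)) :=
        mul_le_mul_of_nonneg_right (hgeo (k + 1)) (by positivity)
    _ = (4 * 4 ^ k * 4 ^ k) * (2 ^ o * P1 ^ (2 * k) / (p : ℝ) ^ (3 * u)) := by ring
    _ ≤ 64 ^ k * (2 ^ o * P1 ^ (2 * k) / (p : ℝ) ^ (3 * u)) := by
        refine mul_le_mul_of_nonneg_right ?_ (by positivity)
        have h5 : (64 : ℝ) ^ k = 4 ^ k * 4 ^ k * 4 ^ k := by rw [← mul_pow, ← mul_pow]; norm_num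
        have h6 : (4 : ℝ) ≤ 4 ^ k := by
          calc (4 : ℝ) = 4 ^ 1 := by norm_num
            _ ≤ 4 ^ k := pow_le_pow_right₀ (by norm_num) (by omega)
        rw [h5]
        have h7 : (0 : ℝ) < 4 ^ k * 4 ^ k := by positivity
        nlinarith
    _ = 64 ^ k * 2 ^ o * P1 ^ (2 * k) / (p : ℝ) ^ (3 * u) := by ring

end count

end Pool.Agent.SRL
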