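import Pool.Agent.SRL.HostDefs

/-! # Host: transport identities -/

set_option autoImplicit false
set_option linter.unusedSectionVars false
set_option linter.unusedVariables false

namespace Pool.Agent.SRL

open Polynomial

section tp

variable (p : ℕ) [hp : Fact p.Prime] {E : Type} [Field E] [CharP E p]

theorem pow_p_sub (x y : E) : (x - y) ^ p = x ^ p - y ^ p := sub_pow_expChar x y

theorem pow_p_add (x y : E) : (x + y) ^ p = x ^ p + y ^ p := add_pow_expChar x y p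

theorem pow_p_inj {x y : E} (h : x ^ p = y ^ p) : x = y := by
  have h1 : (x - y) ^ p = 0 := by rw [pow_p_sub, h, sub_self]
  have h2 : x - y = 0 := pow_eq_zero_iff (hp.out.pos.ne') |>.1 h1
  exact sub_eq_zero.1 h2

/-- a letter is nonzero -/
theorem nm_ne {η τ : E} (hτ : τ ≠ 0) (h : η ^ (p + 1) = τ⁻¹) : η ≠ 0 := by
  intro h0
  rw [h0, zero_pow (by omega)] at h
  exact inv_ne_zero hτ h.symm

/-- letters are in the field with `p ^ 2` elements -/
theorem nm_cj {η τ : E} (hτ : τ ≠ 0) (hτp : τ ^ p = τ) (h : η ^ (p + 1) = τ⁻¹) :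
    (η ^ p) ^ p = η := by
  have h0 := nm_ne p hτ h
  have h1 : η ^ p * η = τ⁻¹ := by rw [← h, pow_succ]
  have h2 : (η ^ p * η) ^ p = τ⁻¹ := by rw [h1, inv_pow, hτp]
  rw [mul_pow] at h2
  have h3 : (η ^ p) ^ p * η ^ p = η * η ^ p := by rw [h2, ← h1, mul_comm]
  exact mul_right_cancel₀ (pow_ne_zero p h0) h3

theorem nm_mul {η τ : E} (h : η ^ (p + 1) = τ⁻¹) : η * η ^ p = τ⁻¹ := by
  rw [← h, pow_succ, mul_comm]

theorem nm_ne_of_ne {η φ τ τ' : E} (hne : τ ≠ τ') (h : η ^ (p + 1) = τ⁻¹)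
    (h' : φ ^ (p + 1) = τ'⁻¹) : η ≠ φ := by
  intro he
  rw [he, h'] at h
  exact hne (inv_injective h).symm

theorem nm_sub {η φ τ τ' : E} (hne : τ ≠ τ') (h : η ^ (p + 1) = τ⁻¹)
    (h' : φ ^ (p + 1) = τ'⁻¹) : η - φ ≠ 0 := sub_ne_zero.2 (nm_ne_of_ne p hne h h')

theorem nm_sub_p {η φ τ τ' : E} (hne : τ ≠ τ') (h : η ^ (p + 1) = τ⁻¹)
    (h' : φ ^ (p + 1) = τ'⁻¹) : η ^ p - φ ^ p ≠ 0 := by
  intro h1
  exact nm_ne_of_ne p hne h h' (pow_p_inj p (sub_eq_zero.1 h1))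

/-- conjugate of the transported letter -/
theorem tp_p {η φ : E} (h1 : (η ^ p) ^ p = η) (h2 : (φ ^ p) ^ p = φ) :
    (tp p η φ) ^ p = φ * (η ^ p - φ ^ p) / (η - φ) := by
  unfold tp
  rw [div_pow, mul_pow, pow_p_sub, pow_p_sub, h1, h2]

theorem tp_nm {η φ τ τ' : E} (hne : τ ≠ τ') (hτ : τ ≠ 0) (hτ' : τ' ≠ 0) (hp1 : τ ^ p = τ)
    (hp2 : τ' ^ p = τ') (h : η ^ (p + 1) = τ⁻¹) (h' : φ ^ (p + 1) = τ'⁻¹) :
    (tp p η φ) ^ (p + 1) = τ'⁻¹ := by
  have h1 := nm_cj p hτ hp1 h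
  have h2 := nm_cj p hτ' hp2 h'
  have h3 := nm_sub p hne h h'
  have h4 := nm_sub_p p hne h h'
  rw [pow_succ, tp_p p h1 h2, ← nm_mul p h']
  unfold tp
  field_simp

/-- the square relation, first component -/
theorem tp_add {η φ τ τ' : E} (hne : τ ≠ τ') (h : η ^ (p + 1) = τ⁻¹)
    (h' : φ ^ (p + 1) = τ'⁻¹) : η + tp p η φ = φ + tp p φ η := by
  have h4 := nm_sub_p p hne h h'
  have h5 : φ ^ p - η ^ p ≠ 0 := by rwa [← neg_sub, neg_ne_zero]
  unfold tp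
  rw [← neg_sub (η ^ p) (φ ^ p)]
  field_simp
  ring

/-- the square relation, second component -/
theorem tp_mul {η φ τ τ' : E} (hne : τ ≠ τ') (hτ : τ ≠ 0) (hτ' : τ' ≠ 0) (hp1 : τ ^ p = τ)
    (hp2 : τ' ^ p = τ') (h : η ^ (p + 1) = τ⁻¹) (h' : φ ^ (p + 1) = τ'⁻¹) :
    η * (tp p η φ) ^ p = φ * (tp p φ η) ^ p := by
  have h1 := nm_cj p hτ hp1 h
  have h2 := nm_cj p hτ' hp2 h'
  have h3 := nm_sub p hne h h'
  rw [tp_p p h1 h2, tp_p p h2 h1, ← neg_sub (η ^ p) (φ ^ p), ← neg_sub η φ]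
  field_simp

theorem tq_back {a A b B : E} (h1 : a - b ≠ 0) (h2 : A - B ≠ 0) (h3 : a * A - b * B ≠ 0) :
    (b * (A - B) / (a - b)) * (-a - B * (a - b) / (A - B)) / (-A - b * (A - B) / (a - b)) = b := by
  have hx : -A - b * (A - B) / (a - b) = - ((a * A - b * B) / (a - b)) := by
    field_simp
    ring
  have hy : -a - B * (a - b) / (A - B) = - ((a * A - b * B) / (A - B)) := by
    field_simp
    ring
  rw [hx, hy]
  generalize hc : a * A - b * B = c at h3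
  field_simp

theorem tq_neg {a A b B : E} (h1 : a - b ≠ 0) (h2 : A - B ≠ 0) (h3 : a * A - b * B ≠ 0) :
    - (A * (b - a) / (B - A)) =
      (- A) * (B * (a - b) / (A - B) - - a) / (b * (A - B) / (a - b) - - A) := by
  have hx : b * (A - B) / (a - b) - - A = (a * A - b * B) / (a - b) := by
    field_simp
    ring
  have hy : B * (a - b) / (A - B) - - a = (a * A - b * B) / (A - B) := by
    field_simp
    ring
  have h2' : B - A ≠ 0 := by rwa [← neg_sub, neg_ne_zero]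
  rw [hx, hy, ← neg_sub a b, ← neg_sub A B]
  generalize hc : a * A - b * B = c at h3
  field_simp

theorem norm_sub_ne {η φ τ τ' : E} (hne : τ ≠ τ') (h : η ^ (p + 1) = τ⁻¹)
    (h' : φ ^ (p + 1) = τ'⁻¹) : η * η ^ p - φ * φ ^ p ≠ 0 := by
  rw [nm_mul p h, nm_mul p h']
  intro h0
  exact hne (inv_injective (sub_eq_zero.1 h0))

/-- going back -/
theorem tp_back {η φ τ τ' : E} (hne : τ ≠ τ') (hτ : τ ≠ 0) (hτ' : τ' ≠ 0) (hp1 : τ ^ p = τ)
    (hp2 : τ' ^ p = τ') (h : η ^ (p + 1) = τ⁻¹) (h' : φ ^ (p + 1) = τ'⁻¹) (hpo : Odd p) :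
    tp p (-η) (tp p η φ) = φ := by
  have h1 := nm_cj p hτ hp1 h
  have h2 := nm_cj p hτ' hp2 h'
  have ha : (-η) ^ p = - η ^ p := hpo.neg_pow η
  have key := tq_back (nm_sub p hne h h') (nm_sub_p p hne h h') (norm_sub_ne p hne h h')
  conv_lhs => rw [tp]
  rw [tp_p p h1 h2, ha]
  exact key

/-- inverse and transport -/
theorem tp_neg {η φ τ τ' : E} (hne : τ ≠ τ') (hτ : τ ≠ 0) (hτ' : τ' ≠ 0) (hp1 : τ ^ p = τ)
    (hp2 : τ' ^ p = τ') (h : η ^ (p + 1) = τ⁻¹) (h' : φ ^ (p + 1) = τ'⁻¹) (hpo : Odd p) :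
    - tp p φ η = tp p (tp p η φ) (-η) := by
  have h1 := nm_cj p hτ hp1 h
  have h2 := nm_cj p hτ' hp2 h'
  have ha : (-η) ^ p = - η ^ p := hpo.neg_pow η
  have key := tq_neg (nm_sub p hne h h') (nm_sub_p p hne h h') (norm_sub_ne p hne h h')
  conv_rhs => rw [tp]
  rw [tp_p p h1 h2, ha]
  exact key

theorem tq_cube {a A b B c C : E} (h1 : a - b ≠ 0) (h2 : A - B ≠ 0) (h3 : a - c ≠ 0)
    (h4 : A - C ≠ 0) (h5 : b - c ≠ 0) (h6 : B - C ≠ 0)
    (h7 : b * (A - B) / (a - b) - c * (A - C) / (a - c) ≠ 0)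
    (h8 : a * (B - A) / (b - a) - c * (B - C) / (b - c) ≠ 0) :
    (c * (A - C) / (a - c)) * (B * (a - b) / (A - B) - C * (a - c) / (A - C)) /
        (b * (A - B) / (a - b) - c * (A - C) / (a - c)) =
      (c * (B - C) / (b - c)) * (A * (b - a) / (B - A) - C * (b - c) / (B - C)) /
        (a * (B - A) / (b - a) - c * (B - C) / (b - c)) := by
  have h1' : b - a ≠ 0 := by rwa [← neg_sub, neg_ne_zero]
  have h2' : B - A ≠ 0 := by rwa [← neg_sub, neg_ne_zero]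
  have e1 : b * (A - B) / (a - b) - c * (A - C) / (a - c) =
      (b * (A - B) * (a - c) - c * (A - C) * (a - b)) / ((a - b) * (a - c)) := by
    field_simp
  have e2 : a * (B - A) / (b - a) - c * (B - C) / (b - c) =
      (a * (B - A) * (b - c) - c * (B - C) * (b - a)) / ((b - a) * (b - c)) := by
    field_simp
  have e3 : B * (a - b) / (A - B) - C * (a - c) / (A - C) =
      (B * (a - b) * (A - C) - C * (a - c) * (A - B)) / ((A - B) * (A - C)) := by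
    field_simp
  have e4 : A * (b - a) / (B - A) - C * (b - c) / (B - C) =
      (A * (b - a) * (B - C) - C * (b - c) * (B - A)) / ((B - A) * (B - C)) := by
    field_simp
  have n1 : b * (A - B) * (a - c) - c * (A - C) * (a - b) ≠ 0 := by
    intro h0
    rw [e1, h0, zero_div] at h7
    exact h7 rfl
  have n2 : a * (B - A) * (b - c) - c * (B - C) * (b - a) ≠ 0 := by
    intro h0
    rw [e2, h0, zero_div] at h8
    exact h8 rfl
  rw [e1, e2, e3, e4]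
  generalize hX : b * (A - B) * (a - c) - c * (A - C) * (a - b) = X at n1
  generalize hY : a * (B - A) * (b - c) - c * (B - C) * (b - a) = Y at n2
  have hXY : (c * (A - C) / (a - c)) * ((B * (a - b) * (A - C) - C * (a - c) * (A - B)) /
      ((A - B) * (A - C))) / (X / ((a - b) * (a - c))) =
      (c * (a - b) * (B * (a - b) * (A - C) - C * (a - c) * (A - B))) / ((A - B) * X) := by
    field_simp
  have hXY' : (c * (B - C) / (b - c)) * ((A * (b - a) * (B - C) - C * (b - c) * (B - A)) /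
      ((B - A) * (B - C))) / (Y / ((b - a) * (b - c))) =
      (c * (b - a) * (A * (b - a) * (B - C) - C * (b - c) * (B - A))) / ((B - A) * Y) := by
    field_simp
  rw [hXY, hXY', div_eq_div_iff (mul_ne_zero h2 n1) (mul_ne_zero h2' n2), ← hX, ← hY]
  ring

/-- the cube relation -/
theorem tp_cube {η φ ψ τ τ' τ'' : E} (hne : τ ≠ τ') (hne1 : τ ≠ τ'') (hne2 : τ' ≠ τ'')
    (hτ : τ ≠ 0) (hτ' : τ' ≠ 0) (hτ'' : τ'' ≠ 0) (hp1 : τ ^ p = τ)
    (hp2 : τ' ^ p = τ') (hp3 : τ'' ^ p = τ'') (h : η ^ (p + 1) = τ⁻¹) (h' : φ ^ (p + 1) = τ'⁻¹)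
    (h'' : ψ ^ (p + 1) = τ''⁻¹) :
    tp p (tp p η φ) (tp p η ψ) = tp p (tp p φ η) (tp p φ ψ) := by
  have c1 := nm_cj p hτ hp1 h
  have c2 := nm_cj p hτ' hp2 h'
  have c3 := nm_cj p hτ'' hp3 h''
  have k1 := tp_nm p hne hτ hτ' hp1 hp2 h h'
  have k2 := tp_nm p hne1 hτ hτ'' hp1 hp3 h h''
  have k3 := tp_nm p hne.symm hτ' hτ hp2 hp1 h' h
  have k4 := tp_nm p hne2 hτ' hτ'' hp2 hp3 h' h''
  have m1 := nm_sub_p p hne2 k1 k2
  have m2 := nm_sub_p p hne1 k3 k4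
  rw [tp_p p c1 c2, tp_p p c1 c3] at m1
  rw [tp_p p c2 c1, tp_p p c2 c3] at m2
  have key := tq_cube (nm_sub p hne h h') (nm_sub_p p hne h h') (nm_sub p hne1 h h'')
    (nm_sub_p p hne1 h h'') (nm_sub p hne2 h' h'') (nm_sub_p p hne2 h' h'') m1 m2
  rw [tp, tp_p p c1 c2, tp_p p c1 c3]
  conv_rhs => rw [tp, tp_p p c2 c1, tp_p p c2 c3]
  exact key

end tp

end Pool.Agent.SRL
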