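import Pool.Agent.SRL.Defs
import Pool.Agent.SRL.HostTp

/-! # Host: the cube system -/

set_option autoImplicit false
set_option linter.unusedSectionVars false
set_option linter.unusedVariables false

namespace Pool.Agent.SRL

open Polynomial

section letters

variable (p : ℕ) [hp : Fact p.Prime] {E : Type} [Field E] [CharP E p]

/-- normalised matrix of a letter -/
def gm (α β η : E) : Matrix (Fin 2) (Fin 2) E := !![β⁻¹, β⁻¹ * (η * α); β⁻¹ * η ^ p, β⁻¹]

theorem gm_det {α β η τ : E} (hβ : β ≠ 0) (h2 : β ^ 2 = 1 - α / τ) (h : η ^ (p + 1) = τ⁻¹) :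
    (gm p α β η).det = 1 := by
  rw [gm, Matrix.det_fin_two_of]
  have h1 : η * η ^ p = τ⁻¹ := nm_mul p h
  have h3 : β⁻¹ * β⁻¹ - β⁻¹ * (η * α) * (β⁻¹ * η ^ p) = (1 - α * (η * η ^ p)) / β ^ 2 := by
    field_simp
  rw [h3, h1, ← div_eq_mul_inv, ← h2]
  exact div_self (pow_ne_zero 2 hβ)

/-- the letter in the group -/
def gl {α β η τ : E} (hβ : β ≠ 0) (h2 : β ^ 2 = 1 - α / τ) (h : η ^ (p + 1) = τ⁻¹) :
    Matrix.SpecialLinearGroup (Fin 2) E := ⟨gm p α β η, gm_det p hβ h2 h⟩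

theorem gm_neg {α β η τ : E} (hpo : Odd p) (hβ : β ≠ 0) (h2 : β ^ 2 = 1 - α / τ)
    (h : η ^ (p + 1) = τ⁻¹) : gm p α β η * gm p α β (-η) = 1 := by
  have h1 : η * η ^ p = τ⁻¹ := nm_mul p h
  have ha : (-η) ^ p = - η ^ p := hpo.neg_pow η
  have h3 : (1 - α * (η * η ^ p)) / β ^ 2 = 1 := by
    rw [h1, ← div_eq_mul_inv, ← h2]
    exact div_self (pow_ne_zero 2 hβ)
  rw [gm, gm, ha, Matrix.mul_fin_two, Matrix.one_fin_two]
  congr 1
  ext i j
  fin_cases i <;> fin_cases j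
  · simp
    rw [← h3]; field_simp; ring
  · simp
    ring
  · simp
    ring
  · simp
    rw [← h3]; field_simp; ring

theorem gm_sq {α β β' η φ τ τ' : E} (hne : τ ≠ τ') (hτ : τ ≠ 0) (hτ' : τ' ≠ 0) (hp1 : τ ^ p = τ)
    (hp2 : τ' ^ p = τ') (h : η ^ (p + 1) = τ⁻¹) (h' : φ ^ (p + 1) = τ'⁻¹) :
    gm p α β η * gm p α β' (tp p η φ) = gm p α β' φ * gm p α β (tp p φ η) := by
  have c1 := nm_cj p hτ hp1 h
  have c2 := nm_cj p hτ' hp2 h'
  have k1 := nm_cj p hτ' hp2 (tp_nm p hne hτ hτ' hp1 hp2 h h')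
  have k2 := nm_cj p hτ hp1 (tp_nm p hne.symm hτ' hτ hp2 hp1 h' h)
  have a1 := tp_add p hne h h'
  have m1 := tp_mul p hne hτ hτ' hp1 hp2 h h'
  have a2 : η ^ p + (tp p η φ) ^ p = φ ^ p + (tp p φ η) ^ p := by
    rw [← pow_p_add, a1, pow_p_add]
  have m2 : η ^ p * tp p η φ = φ ^ p * tp p φ η := by
    have := congrArg (fun x => x ^ p) m1
    simp only [mul_pow] at this
    rwa [k1, k2] at this
  generalize tp p η φ = x at *
  generalize tp p φ η = y at *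
  rw [gm, gm, gm, gm, Matrix.mul_fin_two, Matrix.mul_fin_two]
  ext i j
  fin_cases i <;> fin_cases j
  · simp
    linear_combination (β⁻¹ * β'⁻¹ * α) * m1
  · simp
    linear_combination (β⁻¹ * β'⁻¹ * α) * a1
  · simp
    linear_combination (β⁻¹ * β'⁻¹) * a2
  · simp
    linear_combination (β⁻¹ * β'⁻¹ * α) * m2

end letters

/-- Data of a host. -/
structure HData (p : ℕ) [Fact p.Prime] (I L E : Type) [Field E] [CharP E p] where
  odd : Odd p
  α : E
  τ : I → E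
  β : I → E
  e : ∀ i, L ≃ Nm p (τ i)
  τinj : Function.Injective τ
  τ0 : ∀ i, τ i ≠ 0
  τp : ∀ i, τ i ^ p = τ i
  β0 : ∀ i, β i ≠ 0
  β2 : ∀ i, β i ^ 2 = 1 - α / τ i

namespace HData

variable {p : ℕ} [hp : Fact p.Prime] {I L E : Type} [DecidableEq I] [Field E] [CharP E p]
  (H : HData p I L E)

/-- transport -/
noncomputable def tr (i j : I) (a b : L) : L :=
  if h : i = j then b else
    (H.e j).symm ⟨tp p (H.e i a).1 (H.e j b).1,
      tp_nm p (H.τinj.ne h) (H.τ0 i) (H.τ0 j) (H.τp i) (H.τp j) (H.e i a).2 (H.e j b).2⟩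

/-- inverse letter -/
noncomputable def inv (i : I) (a : L) : L :=
  (H.e i).symm ⟨- (H.e i a).1, by
    rw [H.odd.add_one.neg_pow]
    exact (H.e i a).2⟩

/-- group element of a letter -/
noncomputable def g (i : I) (a : L) : Matrix.SpecialLinearGroup (Fin 2) E :=
  gl p (H.β0 i) (H.β2 i) (H.e i a).2

theorem e_tr {i j : I} (h : i ≠ j) (a b : L) :
    (H.e j (H.tr i j a b)).1 = tp p (H.e i a).1 (H.e j b).1 := by
  rw [tr, dif_neg h, Equiv.apply_symm_apply]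

theorem e_inv (i : I) (a : L) : (H.e i (H.inv i a)).1 = - (H.e i a).1 := by
  rw [inv, Equiv.apply_symm_apply]

theorem e_inj {i : I} {a b : L} (h : (H.e i a).1 = (H.e i b).1) : a = b :=
  (H.e i).injective (Subtype.ext h)

theorem g_inv (i : I) (a : L) : H.g i (H.inv i a) = (H.g i a)⁻¹ := by
  refine eq_inv_of_mul_eq_one_right (Subtype.ext ?_)
  change gm p H.α (H.β i) (H.e i a).1 * gm p H.α (H.β i) (H.e i (H.inv i a)).1 = 1
  rw [H.e_inv]
  exact gm_neg p H.odd (H.β0 i) (H.β2 i) (H.e i a).2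

theorem g_sq {i j : I} (h : i ≠ j) (a b : L) :
    H.g i a * H.g j (H.tr i j a b) = H.g j b * H.g i (H.tr j i b a) := by
  refine Subtype.ext ?_
  change gm p H.α (H.β i) (H.e i a).1 * gm p H.α (H.β j) (H.e j (H.tr i j a b)).1 =
    gm p H.α (H.β j) (H.e j b).1 * gm p H.α (H.β i) (H.e i (H.tr j i b a)).1
  rw [H.e_tr h, H.e_tr h.symm]
  exact gm_sq p (H.τinj.ne h) (H.τ0 i) (H.τ0 j) (H.τp i) (H.τp j) (H.e i a).2 (H.e j b).2

/-- the cube system of the host -/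
noncomputable def cs : CS I L (Matrix.SpecialLinearGroup (Fin 2) E) where
  step i a x := x * H.g i a
  tr := H.tr
  inv := H.inv
  step_inv := by
    intro i a x
    rw [H.g_inv, mul_assoc, mul_inv_cancel, mul_one]
  inv_inv := by
    intro i a
    apply H.e_inj
    rw [H.e_inv, H.e_inv, neg_neg]
  tr_inv := by
    intro i j a b h
    apply H.e_inj (i := j)
    rw [H.e_tr h, H.e_tr h, H.e_inv]
    exact tp_back p (H.τinj.ne h) (H.τ0 i) (H.τ0 j) (H.τp i) (H.τp j) (H.e i a).2 (H.e j b).2 H.odd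
  sq := by
    intro i j a b x h
    rw [mul_assoc, mul_assoc, H.g_sq h]
  cube := by
    intro i j k a b c h1 h2 h3
    apply H.e_inj (i := k)
    rw [H.e_tr h2, H.e_tr h3, H.e_tr h1, H.e_tr h3, H.e_tr h1.symm, H.e_tr h2]
    exact tp_cube p (H.τinj.ne h1) (H.τinj.ne h3) (H.τinj.ne h2) (H.τ0 i) (H.τ0 j) (H.τ0 k)
      (H.τp i) (H.τp j) (H.τp k) (H.e i a).2 (H.e j b).2 (H.e k c).2
  inv_tr := by
    intro i j a b h
    apply H.e_inj (i := i)
    rw [H.e_inv, H.e_tr h.symm, H.e_tr h.symm, H.e_tr h, H.e_inv]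
    exact tp_neg p (H.τinj.ne h) (H.τ0 i) (H.τ0 j) (H.τp i) (H.τp j) (H.e i a).2 (H.e j b).2 H.odd

end HData

end Pool.Agent.SRL
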