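import Pool.Agent.SRL.HostDefs

/-!
# Averaging operators of inverse-closed families of permutations

`Bop σ f` is the sum of `f ∘ σ s` over the letters `s`; moment inequality and words.
-/

set_option autoImplicit false
set_option linter.unusedSectionVars false
set_option linter.unusedVariables false

namespace Pool.Agent.SRL.Tr

open Finset

section words

variable {L : Type} [Fintype L]

theorem wsum_congr (m : ℕ) {F G : List L → ℝ} (h : ∀ v, F v = G v) : wsum m F = wsum m G := by
  have : F = G := funext h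
  rw [this]

theorem wsum_nonneg (m : ℕ) {F : List L → ℝ} (h : ∀ v, 0 ≤ F v) : 0 ≤ wsum m F := by
  induction m generalizing F with
  | zero => exact h _
  | succ m ih => exact Finset.sum_nonneg fun a _ => ih fun v => h _

theorem wsum_add (m n : ℕ) (F : List L → ℝ) :
    wsum (m + n) F = wsum m (fun v => wsum n (fun w => F (v ++ w))) := by
  induction m generalizing F with
  | zero => simp [wsum]
  | succ m ih =>
    rw [Nat.succ_add]
    simp only [wsum]
    refine Finset.sum_congr rfl fun a _ => ?_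
    rw [ih]
    rfl

theorem wsum_sum {ι : Type} (s : Finset ι) (m : ℕ) (F : ι → List L → ℝ) :
    wsum m (fun v => ∑ i ∈ s, F i v) = ∑ i ∈ s, wsum m (F i) := by
  induction m generalizing F with
  | zero => rfl
  | succ m ih =>
    simp only [wsum]
    rw [Finset.sum_comm]
    refine Finset.sum_congr rfl fun a _ => ?_
    rw [ih]

theorem wsum_mul_left (m : ℕ) (c : ℝ) (F : List L → ℝ) :
    wsum m (fun v => c * F v) = c * wsum m F := by
  induction m generalizing F with
  | zero => rfl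
  | succ m ih =>
    simp only [wsum]
    rw [Finset.mul_sum]
    exact Finset.sum_congr rfl fun a _ => ih _

theorem wsum_snoc (m : ℕ) (F : List L → ℝ) :
    wsum (m + 1) F = ∑ a, wsum m (fun v => F (v ++ [a])) := by
  rw [wsum_add]
  rw [← wsum_sum]
  exact wsum_congr _ fun v => by simp [wsum]

/-- The inverse word. -/
def wrev (inv : L → L) (v : List L) : List L := (v.map inv).reverse

theorem wsum_wrev (inv : L → L) (hinv : ∀ s, inv (inv s) = s) (m : ℕ) (F : List L → ℝ) :
    wsum m (fun v => F (wrev inv v)) = wsum m F := by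
  induction m generalizing F with
  | zero => rfl
  | succ m ih =>
    rw [wsum_snoc m F]
    have h1 : ∀ a : L, wsum m (fun v => F (wrev inv (a :: v))) =
        wsum m (fun v => F (v ++ [inv a])) := by
      intro a
      rw [← ih (fun v => F (v ++ [inv a]))]
      exact wsum_congr _ fun v => by simp [wrev]
    show ∑ a, wsum m (fun v => F (wrev inv (a :: v))) = _
    rw [Finset.sum_congr rfl fun a _ => h1 a]
    exact (Equiv.sum_comp (⟨inv, inv, hinv, hinv⟩ : L ≃ L)
      (fun a => wsum m (fun v => F (v ++ [a]))))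

end words

section act

variable {L Y : Type}

theorem act_append (T : L → Equiv.Perm Y) (v w : List L) (y : Y) :
    act T (v ++ w) y = act T w (act T v y) := by
  induction v generalizing y with
  | nil => rfl
  | cons s v ih => exact ih _

/-- The permutation of a word. -/
def actP (T : L → Equiv.Perm Y) : List L → Equiv.Perm Y
  | [] => 1
  | s :: v => actP T v * T s

theorem actP_apply (T : L → Equiv.Perm Y) (v : List L) (y : Y) : actP T v y = act T v y := by
  induction v generalizing y with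
  | nil => rfl
  | cons s v ih => exact ih _

theorem actP_append (T : L → Equiv.Perm Y) (v w : List L) :
    actP T (v ++ w) = actP T w * actP T v := by
  refine Equiv.ext fun y => ?_
  rw [actP_apply, act_append, Equiv.Perm.mul_apply, actP_apply, actP_apply]

theorem actP_wrev (T : L → Equiv.Perm Y) (inv : L → L) (hT : ∀ s, T (inv s) = (T s)⁻¹)
    (v : List L) : actP T (wrev inv v) = (actP T v)⁻¹ := by
  induction v with
  | nil => simp [wrev, actP]
  | cons s v ih =>
    have : wrev inv (s :: v) = wrev inv v ++ [inv s] := by simp [wrev]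
    rw [this, actP_append, ih]
    simp [actP, hT]

theorem actP_mem (T : L → Equiv.Perm Y) (G : Subgroup (Equiv.Perm Y)) (hG : ∀ s, T s ∈ G)
    (v : List L) : actP T v ∈ G := by
  induction v with
  | nil => exact G.one_mem
  | cons s v ih => exact G.mul_mem ih (hG s)

end act

section oper

variable {L Y : Type} [Fintype L] [Fintype Y]

/-- The sum of the translates of `f`. -/
def Bop (T : L → Equiv.Perm Y) (f : Y → ℝ) (y : Y) : ℝ := ∑ s, f (T s y)

theorem Bop_iter (T : L → Equiv.Perm Y) (k : ℕ) (f : Y → ℝ) (y : Y) :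
    ((Bop T)^[k] f) y = wsum k (fun v => f (act T v y)) := by
  induction k generalizing f y with
  | zero => rfl
  | succ k ih =>
    rw [Function.iterate_succ', Function.comp_apply]
    show ∑ s, ((Bop T)^[k] f) (T s y) = _
    simp only [wsum]
    exact Finset.sum_congr rfl fun s _ => by rw [ih]; rfl

theorem Bop_symm (T : L → Equiv.Perm Y) (inv : L → L) (hinv : ∀ s, inv (inv s) = s)
    (hT : ∀ s, T (inv s) = (T s)⁻¹) (f g : Y → ℝ) :
    ∑ y, Bop T f y * g y = ∑ y, f y * Bop T g y := by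
  have h1 : ∀ s, ∑ y, f (T s y) * g y = ∑ y, f y * g (T (inv s) y) := by
    intro s
    rw [← Equiv.sum_comp (T s) (fun y => f y * g (T (inv s) y))]
    refine Finset.sum_congr rfl fun y _ => ?_
    rw [hT]
    simp
  have h2 : ∑ y, Bop T f y * g y = ∑ s, ∑ y, f (T s y) * g y := by
    rw [Finset.sum_comm]
    exact Finset.sum_congr rfl fun y _ => by rw [Bop, Finset.sum_mul]
  have h3 : ∑ y, f y * Bop T g y = ∑ s, ∑ y, f y * g (T s y) := by
    rw [Finset.sum_comm]
    exact Finset.sum_congr rfl fun y _ => by rw [Bop, Finset.mul_sum]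
  rw [h2, h3, Finset.sum_congr rfl fun s _ => h1 s]
  exact (Equiv.sum_comp (⟨inv, inv, hinv, hinv⟩ : L ≃ L) (fun s => ∑ y, f y * g (T s y)))

/-- Log-convexity of moments. -/
theorem moments (a : ℕ → ℝ) (h0 : ∀ j, 0 ≤ a j) (hc : ∀ j, a (j + 1) ^ 2 ≤ a j * a (j + 2))
    (k : ℕ) : a 1 ^ (k + 1) ≤ a 0 ^ k * a (k + 1) := by
  have h1 : ∀ j, a 1 * a j ≤ a 0 * a (j + 1) := by
    intro j
    induction j with
    | zero => rw [mul_comm]
    | succ j ih =>
      rcases (h0 (j + 1)).eq_or_lt with h | h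
      · rw [← h, mul_zero]
        exact mul_nonneg (h0 _) (h0 _)
      · have h2 : a (j + 1) * (a 1 * a (j + 1)) ≤ a (j + 1) * (a 0 * a (j + 2)) := by
          calc a (j + 1) * (a 1 * a (j + 1)) = a 1 * a (j + 1) ^ 2 := by ring
            _ ≤ a 1 * (a j * a (j + 2)) := mul_le_mul_of_nonneg_left (hc j) (h0 1)
            _ = (a 1 * a j) * a (j + 2) := by ring
            _ ≤ (a 0 * a (j + 1)) * a (j + 2) := mul_le_mul_of_nonneg_right ih (h0 _)
            _ = a (j + 1) * (a 0 * a (j + 2)) := by ring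
        exact le_of_mul_le_mul_left h2 h
  induction k with
  | zero => simp
  | succ k ih =>
    calc a 1 ^ (k + 1 + 1) = a 1 * a 1 ^ (k + 1) := by ring
      _ ≤ a 1 * (a 0 ^ k * a (k + 1)) := mul_le_mul_of_nonneg_left ih (h0 1)
      _ = a 0 ^ k * (a 1 * a (k + 1)) := by ring
      _ ≤ a 0 ^ k * (a 0 * a (k + 1 + 1)) :=
        mul_le_mul_of_nonneg_left (h1 _) (pow_nonneg (h0 0) _)
      _ = a 0 ^ (k + 1) * a (k + 1 + 1) := by ring

theorem Bop_moments (T : L → Equiv.Perm Y) (inv : L → L) (hinv : ∀ s, inv (inv s) = s)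
    (hT : ∀ s, T (inv s) = (T s)⁻¹) (f : Y → ℝ) (k : ℕ) (hk : 1 ≤ k) :
    (∑ y, Bop T f y ^ 2) ^ k ≤ (∑ y, f y ^ 2) ^ (k - 1) * ∑ y, ((Bop T)^[k] f) y ^ 2 := by
  obtain ⟨k, rfl⟩ : ∃ m, k = m + 1 := ⟨k - 1, by omega⟩
  have key := moments (fun j => ∑ y, ((Bop T)^[j] f) y ^ 2)
    (fun j => Finset.sum_nonneg fun y _ => sq_nonneg _) (fun j => ?_) k
  · simpa using key
  · have h1 : ∑ y, ((Bop T)^[j + 1] f) y ^ 2 =
        ∑ y, ((Bop T)^[j] f) y * ((Bop T)^[j + 2] f) y := by
      have h2 := Bop_symm T inv hinv hT ((Bop T)^[j] f) ((Bop T)^[j + 1] f)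
      have e1 : Bop T ((Bop T)^[j] f) = (Bop T)^[j + 1] f := by
        rw [Function.iterate_succ', Function.comp_apply]
      have e2 : Bop T ((Bop T)^[j + 1] f) = (Bop T)^[j + 2] f := by
        rw [Function.iterate_succ' (Bop T) (j + 1), Function.comp_apply]
      rw [e1, e2] at h2
      rw [← h2]
      exact Finset.sum_congr rfl fun y _ => sq _
    show (∑ y, ((Bop T)^[j + 1] f) y ^ 2) ^ 2 ≤ _
    rw [h1]
    exact Finset.sum_mul_sq_le_sq_mul_sq _ _ _

/-- Final step: bound of the `k`-th moment implies the norm bound. -/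
theorem norm_of_moment (T : L → Equiv.Perm Y) (inv : L → L) (hinv : ∀ s, inv (inv s) = s)
    (hT : ∀ s, T (inv s) = (T s)⁻¹) [Nonempty L] (f : Y → ℝ) (k : ℕ) (hk : 1 ≤ k)
    (lam : ℝ) (hlam : 0 ≤ lam)
    (h : ∑ y, ((Bop T)^[k] f) y ^ 2 ≤ (lam * Fintype.card L) ^ (2 * k) * ∑ y, f y ^ 2) :
    ∑ y, ((∑ s, f (T s y)) / Fintype.card L) ^ 2 ≤ lam ^ 2 * ∑ y, f y ^ 2 := by
  have hL : (0 : ℝ) < Fintype.card L := by exact_mod_cast Fintype.card_pos
  have hf0 : 0 ≤ ∑ y, f y ^ 2 := Finset.sum_nonneg fun y _ => sq_nonneg _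
  have h1 := Bop_moments T inv hinv hT f k hk
  have h2 : (∑ y, Bop T f y ^ 2) ^ k ≤ ((lam * Fintype.card L) ^ 2 * ∑ y, f y ^ 2) ^ k := by
    refine h1.trans ?_
    calc (∑ y, f y ^ 2) ^ (k - 1) * ∑ y, ((Bop T)^[k] f) y ^ 2
        ≤ (∑ y, f y ^ 2) ^ (k - 1) * ((lam * Fintype.card L) ^ (2 * k) * ∑ y, f y ^ 2) :=
          mul_le_mul_of_nonneg_left h (pow_nonneg hf0 _)
      _ = (lam * Fintype.card L) ^ (2 * k) * ((∑ y, f y ^ 2) ^ (k - 1) * ∑ y, f y ^ 2) := by ring
      _ = ((lam * Fintype.card L) ^ 2 * ∑ y, f y ^ 2) ^ k := by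
          rw [← pow_succ, Nat.sub_add_cancel hk, mul_pow ((lam * Fintype.card L) ^ 2), ← pow_mul]
  have h3 : ∑ y, Bop T f y ^ 2 ≤ (lam * Fintype.card L) ^ 2 * ∑ y, f y ^ 2 :=
    le_of_pow_le_pow_left₀ (by omega) (mul_nonneg (sq_nonneg _) hf0) h2
  have h4 : ∑ y, ((∑ s, f (T s y)) / Fintype.card L) ^ 2 =
      (∑ y, Bop T f y ^ 2) / (Fintype.card L : ℝ) ^ 2 := by
    rw [Finset.sum_div]
    exact Finset.sum_congr rfl fun y _ => by rw [div_pow]; rfl
  rw [h4, div_le_iff₀ (by positivity)]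
  refine h3.trans (le_of_eq ?_)
  ring

end oper

end Pool.Agent.SRL.Tr
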